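import Pool.Agent.helper24.Low.GS2

/-!
# Module GS3: the limit of the chain

Let `S_k, D_k` be the chain of `exists_chain`.  `IsEmb S_k D_k S_l id id` for `k ≤ l` (induction, `IsEmb.comp`, `im_id`,
`D_k ≤ D_{k+1}`).  Limit system `S`: `S.E u v = ∃ k, u ∈ D_k.1 ∧ v ∈ D_k.1 ∧ S_k.E u v`, same for `inc`;
`S.col v = S_k.col v` for the least `k` with `v ∈ D_k.1` (anything if there is none), `S.lev`, `S.par` similarly (least `k` with `c ∈ D_k.2`);
`S.root = S_0.root` (`= S_k.root` for all `k`).  As the systems agree on the regions, `IsEmb S_k D_k S id id` for all `k`, and `KL`, `ClL`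
are transported by `IsEmb.kl`, `IsEmb.clL` with `im_id`.  For `ext`: an embedding of `B` into `S` with image `≤ D_k` is an embedding
into `S_k` (`IsEmb.of_comp` or directly), and back.
-/

set_option autoImplicit false

namespace Pool.Low

open scoped Classical

/-- the systems of the chain agree on the regions -/
theorem gs3_agree {S : ℕ → Sys ℕ ℕ} {D : ℕ → Rg ℕ ℕ} (h1 : ∀ k, IsEmb (S k) (D k) (S (k + 1)) id id)
    (h2 : ∀ k, D k ≤ D (k + 1)) {k l : ℕ} (hkl : k ≤ l) : D k ≤ D l ∧ IsEmb (S k) (D k) (S l) id id := by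
  induction l, hkl using Nat.le_induction with
  | base => exact ⟨le_refl _, isEmb_id _ _⟩
  | succ l hkl ih =>
    refine ⟨ih.1.trans (h2 l), ?_⟩
    have h3 : IsEmb (S l) (im id id (D k)) (S (l + 1)) id id := by
      rw [im_id]
      exact (h1 l).mono ih.1
    exact ih.2.comp h3

/-- the limit of the chain -/
noncomputable def limSys (S : ℕ → Sys ℕ ℕ) (D : ℕ → Rg ℕ ℕ) : Sys ℕ ℕ where
  col v := if h : ∃ k, v ∈ (D k).1 then (S (Nat.find h)).col v else false
  E u v := ∃ k, u ∈ (D k).1 ∧ v ∈ (D k).1 ∧ (S k).E u v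
  inc v c := ∃ k, v ∈ (D k).1 ∧ c ∈ (D k).2 ∧ (S k).inc v c
  lev c := if h : ∃ k, c ∈ (D k).2 then (S (Nat.find h)).lev c else 0
  par c := if h : ∃ k, c ∈ (D k).2 then (S (Nat.find h)).par c else 0
  root := (S 0).root

theorem limSys_emb {S : ℕ → Sys ℕ ℕ} {D : ℕ → Rg ℕ ℕ}
    (h : ∀ {k l : ℕ}, k ≤ l → D k ≤ D l ∧ IsEmb (S k) (D k) (S l) id id) (k : ℕ) :
    IsEmb (S k) (D k) (limSys S D) id id := by
  refine ⟨Set.injOn_id _, Set.injOn_id _, ?_, ?_, ?_, ?_, ?_, ?_⟩
  · intro v hv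
    have hex : ∃ k, v ∈ (D k).1 := ⟨k, hv⟩
    have h1 : (limSys S D).col v = (S (Nat.find hex)).col v := dif_pos hex
    have h2 := (h (Nat.find_min' hex hv)).2.col v (Nat.find_spec hex)
    exact h1.trans h2.symm
  · intro u hu v hv
    constructor
    · rintro ⟨j, hj1, hj2, hj3⟩
      rcases le_total j k with hjk | hjk
      · exact ((h hjk).2.edge u hj1 v hj2).2 hj3
      · exact ((h hjk).2.edge u hu v hv).1 hj3
    · intro h3
      exact ⟨k, hu, hv, h3⟩
  · intro v hv c hc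
    constructor
    · rintro ⟨j, hj1, hj2, hj3⟩
      rcases le_total j k with hjk | hjk
      · exact ((h hjk).2.inc v hj1 c hj2).2 hj3
      · exact ((h hjk).2.inc v hv c hc).1 hj3
    · intro h3
      exact ⟨k, hv, hc, h3⟩
  · intro c hc
    have hex : ∃ k, c ∈ (D k).2 := ⟨k, hc⟩
    have h1 : (limSys S D).lev c = (S (Nat.find hex)).lev c := dif_pos hex
    have h2 := (h (Nat.find_min' hex hc)).2.lev c (Nat.find_spec hex)
    exact h1.trans h2.symm
  · intro c hc
    have hex : ∃ k, c ∈ (D k).2 := ⟨k, hc⟩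
    have h1 : (limSys S D).par c = (S (Nat.find hex)).par c := dif_pos hex
    have h2 := (h (Nat.find_min' hex hc)).2.par c (Nat.find_spec hex)
    exact h1.trans h2.symm
  · exact ((h (Nat.zero_le k)).2.root).symm

/-- an embedding into the limit with image in `D k` is an embedding into `S k` -/
theorem gs3_back {Sk S : Sys ℕ ℕ} {Dk : Rg ℕ ℕ} (h : IsEmb Sk Dk S id id) {V C : Type} {S2 : Sys V C}
    {B : Rg V C} {fv : V → ℕ} {fc : C → ℕ} (hB : IsEmb S2 B S fv fc) (hle : im fv fc B ≤ Dk) :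
    IsEmb S2 B Sk fv fc := by
  have hv : ∀ v ∈ B.1, fv v ∈ Dk.1 := fun v hv => hle.1 (mem_im1.2 ⟨v, hv, rfl⟩)
  have hc : ∀ c ∈ B.2, fc c ∈ Dk.2 := fun c hc => hle.2 (mem_im2.2 ⟨c, hc, rfl⟩)
  refine ⟨hB.inj_v, hB.inj_c, ?_, ?_, ?_, ?_, ?_, ?_⟩
  · intro v hv'
    exact (h.col (fv v) (hv v hv')).symm.trans (hB.col v hv')
  · intro u hu v hv'
    exact (h.edge (fv u) (hv u hu) (fv v) (hv v hv')).symm.trans (hB.edge u hu v hv')
  · intro v hv' c hc'
    exact (h.inc (fv v) (hv v hv') (fc c) (hc c hc')).symm.trans (hB.inc v hv' c hc')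
  · intro c hc'
    exact (h.lev (fc c) (hc c hc')).symm.trans (hB.lev c hc')
  · intro c hc'
    exact (h.par (fc c) (hc c hc')).symm.trans (hB.par c hc')
  · exact hB.root.trans h.root.symm

theorem exists_gen {P : Par} (hP : Good0 P) : ∃ (S : Sys ℕ ℕ) (D : ℕ → Rg ℕ ℕ), Gen P S D := by
  obtain ⟨S, D, hkl, hemb, hstep, hext⟩ := exists_chain hP
  have hag : ∀ {k l : ℕ}, k ≤ l → D k ≤ D l ∧ IsEmb (S k) (D k) (S l) id id := fun {k l} hkl =>
    gs3_agree hemb (fun k => (hstep k).le) hkl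
  have hlim := limSys_emb hag
  refine ⟨limSys S D, D, ⟨?_, ?_, ?_⟩⟩
  · intro k
    have h1 := (hlim k).kl (hkl k)
    rwa [im_id] at h1
  · intro k
    have h1 := (hlim (k + 1)).clL (hkl (k + 1)).ok (hstep k)
    rwa [im_id, im_id] at h1
  · intro V C S2 A B fv fc k hA hB hf hcl
    have hf' : IsEmb S2 B (S k) fv fc := gs3_back (hlim k) hf hcl.le
    have hcl' : ClL P Set.univ P.θ (S k) (D k) (im fv fc B) := by
      refine (hlim k).clL_of (hkl k).ok hcl.le (hf'.ok hB.ok) ?_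
      rw [im_id, im_id]
      exact hcl
    obtain ⟨l, hv, hc, hkl', h1, h2, h3, h4⟩ := hext V C S2 A B fv fc k hA hB hf' hcl'
    refine ⟨l, hv, hc, hkl', ?_, h2, h3, ?_⟩
    · exact h1.comp ((hlim l).mono h4.le)
    · have h5 := (hlim l).clL (hkl l).ok h4
      rwa [im_id, im_id] at h5

end Pool.Low
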