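import Mathlib

/-!
# Model theory part: back-and-forth systems

A `BF V` is a family of equivalence relations `r N` on the `N`-tuples of `V` (with finitely many classes), stable under
reindexing and with the extension property (back-and-forth).  Its language has one `N`-ary relation symbol for each class of
`r N`.
-/

set_option autoImplicit false

namespace Pool.Low

open FirstOrder FirstOrder.Language

/-- snoc for constant families -/
abbrev snc {V : Type} {N : ℕ} (x : Fin N → V) (a : V) : Fin (N + 1) → V := Fin.snoc (α := fun _ => V) x a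

/-- A back-and-forth system. -/
structure BF (V : Type) where
  r : (N : ℕ) → (Fin N → V) → (Fin N → V) → Prop
  refl : ∀ N x, r N x x
  symm : ∀ N x y, r N x y → r N y x
  trans : ∀ N x y z, r N x y → r N y z → r N x z
  reindex : ∀ (N M : ℕ) (σ : Fin M → Fin N) (x y : Fin N → V), r N x y → r M (x ∘ σ) (y ∘ σ)
  eqv : ∀ N x y, r N x y → ∀ i j, x i = x j → y i = y j
  ext : ∀ (N : ℕ) (x y : Fin N → V) (a : V), r N x y → ∃ b : V, r (N + 1) (snc x a) (snc y b)
  fin : ∀ N, ∃ (n : ℕ) (code : (Fin N → V) → Fin n), ∀ x y, code x = code y → r N x y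

namespace BF

variable {V : Type}

/-- the setoid of `r N` -/
def std (b : BF V) (N : ℕ) : Setoid (Fin N → V) where
  r := b.r N
  iseqv := ⟨b.refl N, fun {x y} => b.symm N x y, fun {x y z} => b.trans N x y z⟩

/-- the classes of `N`-tuples -/
def Q (b : BF V) (N : ℕ) : Type := Quotient (b.std N)

/-- the class of a tuple -/
def cls (b : BF V) {N : ℕ} (x : Fin N → V) : b.Q N := Quotient.mk (b.std N) x

/-- the language: one `N`-ary relation symbol for every class of `N`-tuples -/
def L (b : BF V) : FirstOrder.Language.{0, 0} := ⟨fun _ => Empty, fun N => b.Q N⟩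

/-- `V` as a structure: the relation symbol `q` holds for the tuples of class `q` -/
instance str (b : BF V) : b.L.Structure V where
  funMap := fun {_} f _ => f.elim
  RelMap := fun {_} q x => b.cls x = q

theorem cls_eq (b : BF V) {N : ℕ} (x y : Fin N → V) : b.cls x = b.cls y ↔ b.r N x y := by
  constructor
  · intro h; exact Quotient.exact h
  · intro h; exact Quotient.sound h

/-- No tree property, for `r`-invariant relations `Φ`. -/
def NTP (b : BF V) : Prop :=
  ∀ (n m k : ℕ) (Φ : (Fin n → V) → (Fin m → V) → Prop),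
    (∀ x y x' y', b.r (n + m) (Fin.append x y) (Fin.append x' y') → Φ x y → Φ x' y') →
    ∀ p : List ℕ → Fin m → V,
      (∀ (η : ℕ → ℕ) (J : ℕ), ∃ a : Fin n → V, ∀ j < J, Φ a (p (List.ofFn (fun i : Fin j => η i)))) →
      ∃ s : List ℕ, ∃ S : Finset ℕ, S.card = k ∧ ∃ a : Fin n → V, ∀ i ∈ S, Φ a (p (s ++ [i]))

/-- Not low: an `r`-invariant relation `Ψ` such that for every `k` there is an `r`-indiscernible sequence `y` for which
`{Ψ(x, y i)}` is inconsistent, but some `k` of its members have a common solution. -/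
def NonLow (b : BF V) : Prop :=
  ∃ Ψ : V → V → Prop, (∀ u v u' v', b.r 2 ![u, v] ![u', v'] → Ψ u v → Ψ u' v') ∧
    ∀ k : ℕ, ∃ y : ℕ → V,
      (∀ (N : ℕ) (f g : Fin N → ℕ), StrictMono f → StrictMono g → b.r N (y ∘ f) (y ∘ g)) ∧
      (∃ S : Finset ℕ, ¬ ∃ a, ∀ i ∈ S, Ψ a (y i)) ∧
      (∃ S : Finset ℕ, S.card = k ∧ ∃ a, ∀ i ∈ S, Ψ a (y i))

end BF

end Pool.Low
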