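import Pool.Agent.helper24.Low.TypesFin
import Pool.Agent.helper24.Low.MTDefs

/-!
# The back-and-forth system of the generic system
-/

set_option autoImplicit false

namespace Pool.Low

open scoped Classical

variable {P : Par} {S : Sys ℕ ℕ} {D : ℕ → Rg ℕ ℕ}

/-- the set of vertices of the generic system -/
def Dom (D : ℕ → Rg ℕ ℕ) : Type := {v : ℕ // dom D v}

instance (D : ℕ → Rg ℕ ℕ) : Countable (Dom D) := by unfold Dom; infer_instance

/-- The back-and-forth system. -/
def genBF (hP : Good P) (hG : Gen P S D) : BF (Dom D) where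
  r N x y := rr P S D N (fun i => (x i).1) (fun i => (y i).1)
  refl N x := rr_refl hP.toGood0 hG _ (fun i => (x i).2)
  symm N x y h := rr_symm h
  trans N x y z h h' := rr_trans hP.toGood0 hG h h'
  reindex N M σ x y h := rr_reindex σ h
  eqv N x y h i j hij := Subtype.ext (rr_eqv h i j (congrArg Subtype.val hij))
  ext N x y a h := by
    obtain ⟨b, hb, hr⟩ := rr_ext hP.toGood0 hG h a.1 a.2
    refine ⟨⟨b, hb⟩, ?_⟩
    have e1 : (fun i => (snc x a i).1) = Fin.snoc (α := fun _ => ℕ) (fun i => (x i).1) a.1 := by
      funext i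
      refine Fin.lastCases ?_ (fun j => ?_) i
      · simp
      · simp
    have e2 : (fun i => (snc y (⟨b, hb⟩ : Dom D) i).1) = Fin.snoc (α := fun _ => ℕ) (fun i => (y i).1) b := by
      funext i
      refine Fin.lastCases ?_ (fun j => ?_) i
      · simp
      · simp
    rw [e1, e2]
    exact hr
  fin N := by
    obtain ⟨n, code, h⟩ := rr_fin hP hG N
    exact ⟨n, fun x => code (fun i => (x i).1), fun x y hxy => h _ _ (fun i => (x i).2) (fun i => (y i).2) hxy⟩

end Pool.Low
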