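import Pool.Agent.helper24.Low.Incons
import Pool.Agent.helper24.Low.GenBF

/-!
# Module NL4 (NLBF): `(genBF hP hG).NonLow` and `Infinite (Dom D)`

`Ψ u v := S.E u.1 v.1` (`rr_edge`).  Given `k`, let `s = k`, `y, e` from `exists_seq`; `k ≤ wa (gs k) θ = 64 (gs k + 2)^2 - θ` since `k ≤ gs k`.
`Infinite (Dom D)`: `seq_inj`, `seq_dom`.
-/

set_option autoImplicit false

namespace Pool.Low

open scoped Classical

variable {P : Par} {S : Sys ℕ ℕ} {D : ℕ → Rg ℕ ℕ}

theorem dom_infinite (hP : Good P) (hG : Gen P S D) : Infinite (Dom D) := by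
  obtain ⟨y, e, h⟩ := exists_seq hP.toGood0 hG 0
  refine Infinite.of_injective (fun i : ℕ => (⟨y i, seq_dom h i⟩ : Dom D)) ?_
  intro i j hij
  exact seq_inj h (congrArg Subtype.val hij)

theorem genBF_nonLow (hP : Good P) (hG : Gen P S D) : (genBF hP hG).NonLow := by
  refine ⟨fun u v => S.E u.1 v.1, ?_, ?_⟩
  · intro u v u' v' h he
    have h' : rr P S D 2 ![u.1, v.1] ![u'.1, v'.1] := by
      have h1 : rr P S D 2 (fun i => ((![u, v] : Fin 2 → Dom D) i).1) (fun i => ((![u', v'] : Fin 2 → Dom D) i).1) := h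
      have e1 : (fun i => ((![u, v] : Fin 2 → Dom D) i).1) = ![u.1, v.1] := by
        funext i; fin_cases i <;> rfl
      have e2 : (fun i => ((![u', v'] : Fin 2 → Dom D) i).1) = ![u'.1, v'.1] := by
        funext i; fin_cases i <;> rfl
      rw [e1, e2] at h1
      exact h1
    exact rr_edge h' he
  · intro k
    obtain ⟨y, e, h⟩ := exists_seq hP.toGood0 hG k
    refine ⟨fun i => ⟨y i, seq_dom h i⟩, ?_, ?_, ?_⟩
    · intro N f g hf hg
      exact seq_indisc hP.toGood0 hG h f g hf hg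
    · obtain ⟨M, hM⟩ := seq_inconsistent hP.toGood0 hG h
      refine ⟨Finset.range M, ?_⟩
      rintro ⟨a, ha⟩
      exact hM ⟨a.1, a.2, fun j hj => ha j (Finset.mem_range.2 hj)⟩
    · have hk : (k : ℝ) ≤ wa (P.gs k) P.θ := by
        have h1 : (k : ℝ) ≤ P.gs k := by exact_mod_cast hP.grow k
        have h2 := hP.θ_lt
        have h3 : (0:ℝ) ≤ P.gs k := Nat.cast_nonneg _
        unfold wa
        nlinarith [mul_nonneg h3 h3]
      obtain ⟨x, hx, hx'⟩ := seq_consistent hP.toGood0 hG h k hk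
      exact ⟨Finset.range k, Finset.card_range k, ⟨x, hx⟩, fun i hi => hx' i (Finset.mem_range.1 hi)⟩

end Pool.Low
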