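import Pool.Agent.helper24.Low.NTPGen
import Pool.Agent.helper24.Low.GenBF

/-!
# Module N9 (NTPBF): `(genBF hP hG).NTP`

Apply `ntp_gen` to `Φ' x y := ∃ (hx : ∀ i, dom D (x i)) (hy : ∀ i, dom D (y i)), Φ (fun i => ⟨x i, hx i⟩) (fun i => ⟨y i, hy i⟩)` (invariance:
`rr_dom` and `Fin.append`), `p' σ i = (p σ i).1`.
-/

set_option autoImplicit false

namespace Pool.Low

open scoped Classical

variable {P : Par} {S : Sys ℕ ℕ} {D : ℕ → Rg ℕ ℕ}

theorem genBF_ntp (hP : Good P) (hG : Gen P S D) : (genBF hP hG).NTP := by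
  intro n m k Φ hΦ p hpath
  have key : ∀ (N M : ℕ) (u : Fin N → Dom D) (w : Fin M → Dom D),
      Fin.append (fun i => (u i).1) (fun i => (w i).1) = fun i => (Fin.append u w i).1 := by
    intro N M u w
    funext i
    refine Fin.addCases (fun j => ?_) (fun j => ?_) i
    · rw [Fin.append_left, Fin.append_left]
    · rw [Fin.append_right, Fin.append_right]
  obtain ⟨σ, T, hT, a, ha, hΦa⟩ := ntp_gen hP hG n m k
    (fun x y => ∃ (hx : ∀ i, dom D (x i)) (hy : ∀ i, dom D (y i)),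
      Φ (fun i => ⟨x i, hx i⟩) (fun i => ⟨y i, hy i⟩))
    (by
      rintro x y x' y' hr ⟨hx, hy, h⟩
      have hd := (rr_dom hr).2
      have hx' : ∀ i, dom D (x' i) := fun i => by
        have h1 := hd (Fin.castAdd m i)
        rwa [Fin.append_left] at h1
      have hy' : ∀ i, dom D (y' i) := fun i => by
        have h1 := hd (Fin.natAdd n i)
        rwa [Fin.append_right] at h1
      refine ⟨hx', hy', hΦ _ _ _ _ ?_ h⟩
      show rr P S D (n + m) _ _
      rw [← key n m (fun i => (⟨x i, hx i⟩ : Dom D)) (fun i => (⟨y i, hy i⟩ : Dom D)),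
        ← key n m (fun i => (⟨x' i, hx' i⟩ : Dom D)) (fun i => (⟨y' i, hy' i⟩ : Dom D))]
      exact hr)
    (fun σ i => (p σ i).1) (fun σ i => (p σ i).2)
    (by
      intro η J
      obtain ⟨a, ha⟩ := hpath η J
      exact ⟨fun i => (a i).1, fun i => (a i).2, fun j hj =>
        ⟨fun i => (a i).2, fun i => (p _ i).2, ha j hj⟩⟩)
  refine ⟨σ, T, hT, fun i => ⟨a i, ha i⟩, fun i hi => ?_⟩
  obtain ⟨hx, hy, h⟩ := hΦa i hi
  exact h

end Pool.Low
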