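import Pool.Agent.helper24.Low.Triv

/-!
# Module LA12 (Bound): closures of bounded sets are bounded (one level)

`n = g + 1`, `a = wa g θ`, `b = wb g θ`.  Let `R` be the closure of `(X, ∅)` in `D` (`exists_closure`), `N = |X|`.

1. `Z0 = hull (X, ∅) = (X, Y)` is full, `Y` = blocks with `≥ n+1` vertices in `X`; `c ↦ tr X c` is injective on `Y` (`LS`), so
   `|Y| ≤ 2^N`, and `dl R ≤ dl Z0 ≤ a N + b 2^N + N^2 2^N =: β N`.  (`1 - mm ≤ 1`, `-(1 - m2) ≤ m2 ≤ |Y|`, `ed_card_le`.)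
2. `f (sz R) ≤ dl R ≤ β N`, so `sz R ≤ x_N`, where `x_N` is chosen with `β N < f x_N` (`unbounded`, `mono`).
   This bounds `|R.2|` and `z := #{v ∈ R.1 | mm R v = 0}`.
3. Vertices with `mm ≥ 2`: at most `2 (n+1) |R.2|` (`heavy_card`).
4. Vertices `v ∈ R.1 \ X` with `mm R v = 1`: such a `v` has a neighbour `u ∈ R.1` with `m2 R u v = 0`.  Otherwise `m2 R u v = 1` for all
   neighbours `u` of `v` in `R`, so `R' = (R.1 \ {v}, R.2)` has `del R' = del R` (`del_add_vertices`); `R'` is full and contains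
   `(X, ∅)`, and `dl R` is minimal among the full sets above `(X, ∅)`, so `R'` is closed by `cl_of_min`, so `R ≤ R'`, contradiction.
   The number of edges of `R` with `m2 = 0` is `∑ (1 - m2)^+ = ∑ (1 - m2) + ∑ (m2 - 1)^+ ≤ (a z + b |R.2|) + 2 (n+1)^2 |R.2|`
   (`0 ≤ dl R` and `rebate_total`).
So `|R.1| ≤ N + z + 2 (n+1) |R.2| + 2 (a z + b |R.2| + 2 (n+1)^2 |R.2|)`.  Take for `bd N` the (ceiling of the) maximum of the two
bounds, made monotone by summing over all `N' ≤ N`.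

If `|X| ≤ g` then `(X, ∅)` is closed (`small_closed`), so `R = (X, ∅)`.
-/

set_option autoImplicit false

namespace Pool.Low

open scoped Classical

theorem bd_del_crude {V C : Type} (G : Geo V C) {a b : ℝ} (ha : 0 ≤ a) (P : Rg V C) :
    del G a b P ≤ a * (P.1.card : ℝ) + b * (P.2.card : ℝ) + (P.1.card : ℝ) ^ 2 * (P.2.card : ℝ) := by
  unfold del
  have h1 : ∑ v ∈ P.1, (1 - (mm G P v : ℝ)) ≤ (P.1.card : ℝ) := by
    calc ∑ v ∈ P.1, (1 - (mm G P v : ℝ)) ≤ ∑ v ∈ P.1, (1 : ℝ) := by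
          apply Finset.sum_le_sum
          intro v _
          have : (0 : ℝ) ≤ (mm G P v : ℝ) := Nat.cast_nonneg _
          linarith
      _ = (P.1.card : ℝ) := by simp
  have h2 : - ∑ p ∈ ed G P.1, (1 - (m2 G P p.1 p.2 : ℝ)) ≤ (P.1.card : ℝ) ^ 2 * (P.2.card : ℝ) := by
    rw [← Finset.sum_neg_distrib]
    calc ∑ p ∈ ed G P.1, -(1 - (m2 G P p.1 p.2 : ℝ)) ≤ ∑ p ∈ ed G P.1, (P.2.card : ℝ) := by
          apply Finset.sum_le_sum
          intro p _
          have : (m2 G P p.1 p.2 : ℝ) ≤ (P.2.card : ℝ) := by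
            exact_mod_cast Finset.card_filter_le _ _
          linarith
      _ = ((ed G P.1).card : ℝ) * (P.2.card : ℝ) := by simp
      _ ≤ (P.1.card : ℝ) ^ 2 * (P.2.card : ℝ) := by
          apply mul_le_mul_of_nonneg_right _ (Nat.cast_nonneg _)
          exact_mod_cast ed_card_le G P.1
  have h3 := mul_le_mul_of_nonneg_left h1 ha
  linarith

/-- number of blocks of the hull of `(X, ∅)` -/
theorem bd_hull_card {V C : Type} [DecidableEq V] [DecidableEq C] {G : Geo V C} {n : ℕ} {D : Rg V C} (hD : LS G n D)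
    (X : Finset V) (hX : X ⊆ D.1) : (hull G n D (X, ∅)).2.card ≤ 2 ^ X.card := by
  rw [← Finset.card_powerset]
  apply Finset.card_le_card_of_injOn (fun c => tr G X c)
  · intro c _
    simp only [Finset.coe_powerset, Set.mem_preimage, Set.mem_powerset_iff, Finset.coe_subset]
    exact Finset.filter_subset _ _
  · intro c hc c' hc' h
    have hc1 := mem_hull2.1 (Finset.mem_coe.1 hc)
    have hc1' := mem_hull2.1 (Finset.mem_coe.1 hc')
    have hbig : n + 1 ≤ (tr G X c).card := by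
      rcases hc1.2 with h0 | h0
      · exact absurd h0 (Finset.notMem_empty _)
      · exact h0
    by_contra hne
    have h2 := hD c hc1.1 c' hc1'.1 hne
    have h3 : (tr G X c).card ≤ (D.1.filter (fun v => G.inc v c ∧ G.inc v c')).card := by
      apply Finset.card_le_card
      intro v hv
      have hv' : v ∈ tr G X c' := by
        have : tr G X c = tr G X c' := h
        rw [← this]; exact hv
      simp only [Finset.mem_filter]
      exact ⟨hX (mem_tr.1 hv).1, (mem_tr.1 hv).2, (mem_tr.1 hv').2⟩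
    omega

/-- number of edges with `m2 = 0` -/
theorem bd_zero_edges {V C : Type} [DecidableEq V] [DecidableEq C] {G : Geo V C} {n : ℕ} {a b : ℝ} (h : Wt n a b)
    {D : Rg V C} (hD : PP G n a b D) {R : Rg V C} (hR : Full G n D R) :
    (((ed G R.1).filter (fun p => m2 G R p.1 p.2 = 0)).card : ℝ) ≤
      a * ((R.1.filter (fun v => mm G R v = 0)).card : ℝ) + b * (R.2.card : ℝ)
        + 2 * ((n : ℝ) + 1) ^ 2 * (R.2.card : ℝ) := by
  have ha : 0 ≤ a := le_trans (by positivity) h.big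
  have h1 := rebate_total h hD hR.1
  have h2 := hD.2.2 R hR
  unfold del at h2
  have h3 : (((ed G R.1).filter (fun p => m2 G R p.1 p.2 = 0)).card : ℝ) =
      ∑ p ∈ ed G R.1, (1 - (m2 G R p.1 p.2 : ℝ)) + ∑ p ∈ ed G R.1, ((m2 G R p.1 p.2 - 1 : ℕ) : ℝ) := by
    rw [← Finset.sum_add_distrib, Finset.card_filter]
    push_cast
    apply Finset.sum_congr rfl
    intro p _
    rcases Nat.eq_zero_or_pos (m2 G R p.1 p.2) with h0 | h0
    · simp [h0]
    · have : m2 G R p.1 p.2 ≠ 0 := by omega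
      rw [if_neg this, Nat.cast_sub h0]
      push_cast
      ring
  have h4 : ∑ v ∈ R.1, (1 - (mm G R v : ℝ)) ≤ ((R.1.filter (fun v => mm G R v = 0)).card : ℝ) := by
    rw [Finset.card_filter]
    push_cast
    apply Finset.sum_le_sum
    intro v _
    rcases Nat.eq_zero_or_pos (mm G R v) with h0 | h0
    · simp [h0]
    · have h5 : mm G R v ≠ 0 := by omega
      rw [if_neg h5]
      have : (1 : ℝ) ≤ (mm G R v : ℝ) := by exact_mod_cast h0
      linarith
  have h5 := mul_le_mul_of_nonneg_left h4 ha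
  rw [h3]
  linarith

/-- a vertex of the closure outside `X` lying in exactly one block has an edge with `m2 = 0` -/
theorem bd_one_edge {V C : Type} [DecidableEq V] [DecidableEq C] {G : Geo V C} {n : ℕ} {a b : ℝ}
    {D : Rg V C} {X : Finset V} {R : Rg V C} (hR : Cl G n a b D R) (hXR : X ⊆ R.1)
    (hmin : ∀ Z, Cl G n a b D Z → ((X, ∅) : Rg V C) ≤ Z → R ≤ Z)
    (hdel : ∀ Z, Full G n D Z → ((X, ∅) : Rg V C) ≤ Z → del G a b R ≤ del G a b Z)
    {v : V} (hv : v ∈ R.1) (hvX : v ∉ X) (hm : mm G R v = 1) :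
    ∃ p ∈ (ed G R.1).filter (fun p => m2 G R p.1 p.2 = 0), p.1 = v ∨ p.2 = v := by
  by_contra hcon
  have hcon' : ∀ p ∈ ed G R.1, (p.1 = v ∨ p.2 = v) → m2 G R p.1 p.2 = 1 := by
    intro p hp hpv
    have h1 : m2 G R p.1 p.2 ≠ 0 := by
      intro h0
      exact hcon ⟨p, Finset.mem_filter.2 ⟨hp, h0⟩, hpv⟩
    have h2 : m2 G R p.1 p.2 ≤ 1 := by
      rcases hpv with h | h
      · calc m2 G R p.1 p.2 ≤ mm G R p.1 := m2_le_left G R _ _
          _ = 1 := by rw [h, hm]
      · calc m2 G R p.1 p.2 ≤ mm G R p.2 := m2_le_right G R _ _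
          _ = 1 := by rw [h, hm]
    omega
  have hR'le : ((R.1.erase v, R.2) : Rg V C) ≤ R := ⟨Finset.erase_subset _ _, Finset.Subset.refl _⟩
  have hfull : Full G n D (R.1.erase v, R.2) := by
    refine ⟨le_trans hR'le hR.1.1, ?_⟩
    intro c hc hn
    apply hR.1.2 c hc
    exact le_trans hn (Finset.card_le_card (tr_mono (Finset.erase_subset _ _) c))
  have hXR' : ((X, ∅) : Rg V C) ≤ (R.1.erase v, R.2) := by
    refine ⟨?_, Finset.empty_subset _⟩
    intro x hx
    refine Finset.mem_erase.2 ⟨?_, hXR hx⟩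
    rintro rfl
    exact hvX hx
  have hdd : del G a b R = del G a b (R.1.erase v, R.2) := by
    have h1 := del_add_vertices G a b (R.1.erase v, R.2) {v} (by
      rw [Finset.disjoint_singleton_right]
      exact Finset.notMem_erase v _)
    have h2 : (R.1.erase v ∪ {v}, R.2) = R := by
      apply Prod.ext
      · show R.1.erase v ∪ {v} = R.1
        rw [Finset.union_comm, ← Finset.insert_eq, Finset.insert_erase hv]
      · rfl
    simp only [] at h1
    rw [h2] at h1
    rw [h1]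
    have h3 : ∑ u ∈ ({v} : Finset V), (1 - (mm G (R.1.erase v, R.2) u : ℝ)) = 0 := by
      rw [Finset.sum_singleton, mm_congr (P := (R.1.erase v, R.2)) (Q := R) rfl v, hm]
      simp
    have h4 : ∑ p ∈ ed G (R.1.erase v ∪ {v}) \ ed G (R.1.erase v),
        (1 - (m2 G (R.1.erase v, R.2) p.1 p.2 : ℝ)) = 0 := by
      apply Finset.sum_eq_zero
      intro p hp
      rw [Finset.mem_sdiff, mem_ed, mem_ed] at hp
      have h5 : R.1.erase v ∪ {v} = R.1 := by
        rw [Finset.union_comm, ← Finset.insert_eq, Finset.insert_erase hv]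
      rw [h5] at hp
      have h6 : p.1 = v ∨ p.2 = v := by
        by_contra h7
        push Not at h7
        exact hp.2 ⟨⟨Finset.mem_erase.2 ⟨h7.1, hp.1.1.1⟩, Finset.mem_erase.2 ⟨h7.2, hp.1.1.2⟩⟩, hp.1.2⟩
      have h8 := hcon' p (mem_ed.2 hp.1) h6
      rw [m2_congr (P := (R.1.erase v, R.2)) (Q := R) rfl, h8]
      simp
    rw [h3, h4]
    ring
  have hcl : Cl G n a b D (R.1.erase v, R.2) := by
    apply cl_of_min hfull hXR'
    intro Z' hZ' hTZ'
    rw [← hdd]
    exact hdel Z' hZ' hTZ'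
  have hle := hmin _ hcl hXR'
  have := hle.1 hv
  exact Finset.notMem_erase v _ this

/-- the cardinality of the closure in terms of its size -/
theorem bd_card {V C : Type} [DecidableEq V] [DecidableEq C] {G : Geo V C} {n : ℕ} {a b : ℝ} (h : Wt n a b)
    {D : Rg V C} (hD : PP G n a b D) {X : Finset V} {R : Rg V C} (hR : Cl G n a b D R) (hXR : X ⊆ R.1)
    (hmin : ∀ Z, Cl G n a b D Z → ((X, ∅) : Rg V C) ≤ Z → R ≤ Z)
    (hdel : ∀ Z, Full G n D Z → ((X, ∅) : Rg V C) ≤ Z → del G a b R ≤ del G a b Z) :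
    (R.1.card : ℝ) ≤ (X.card : ℝ) + ((R.1.filter (fun v => mm G R v = 0)).card : ℝ)
      + 2 * ((n : ℝ) + 1) * (R.2.card : ℝ)
      + 2 * (a * ((R.1.filter (fun v => mm G R v = 0)).card : ℝ) + b * (R.2.card : ℝ)
        + 2 * ((n : ℝ) + 1) ^ 2 * (R.2.card : ℝ)) := by
  set E0 := (ed G R.1).filter (fun p => m2 G R p.1 p.2 = 0) with hE0
  have hsub : R.1 ⊆ X ∪ R.1.filter (fun v => mm G R v = 0) ∪ R.1.filter (fun v => 2 ≤ mm G R v)
      ∪ (E0.image Prod.fst ∪ E0.image Prod.snd) := by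
    intro v hv
    by_cases hvX : v ∈ X
    · simp only [Finset.mem_union]; exact Or.inl (Or.inl (Or.inl hvX))
    · rcases Nat.lt_or_ge (mm G R v) 2 with h2 | h2
      · rcases Nat.eq_zero_or_pos (mm G R v) with h0 | h0
        · simp only [Finset.mem_union, Finset.mem_filter]; exact Or.inl (Or.inl (Or.inr ⟨hv, h0⟩))
        · have h1 : mm G R v = 1 := by omega
          obtain ⟨p, hp, hpv⟩ := bd_one_edge hR hXR hmin hdel hv hvX h1
          simp only [Finset.mem_union, Finset.mem_image]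
          rcases hpv with h3 | h3
          · exact Or.inr (Or.inl ⟨p, hp, h3⟩)
          · exact Or.inr (Or.inr ⟨p, hp, h3⟩)
      · simp only [Finset.mem_union, Finset.mem_filter]; exact Or.inl (Or.inr ⟨hv, h2⟩)
  have h1 : R.1.card ≤ X.card + (R.1.filter (fun v => mm G R v = 0)).card
      + (R.1.filter (fun v => 2 ≤ mm G R v)).card + (E0.card + E0.card) := by
    refine le_trans (Finset.card_le_card hsub) ?_
    refine le_trans (Finset.card_union_le _ _) ?_
    refine Nat.add_le_add ?_ ?_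
    · refine le_trans (Finset.card_union_le _ _) ?_
      exact Nat.add_le_add_right (Finset.card_union_le _ _) _
    · refine le_trans (Finset.card_union_le _ _) ?_
      exact Nat.add_le_add Finset.card_image_le Finset.card_image_le
  have h2 := heavy_card h hD hR.1.1
  have h3 := bd_zero_edges h hD hR.1
  rw [← hE0] at h3
  have h4 : (R.1.card : ℝ) ≤ (X.card : ℝ) + ((R.1.filter (fun v => mm G R v = 0)).card : ℝ)
      + ((R.1.filter (fun v => 2 ≤ mm G R v)).card : ℝ) + ((E0.card : ℝ) + (E0.card : ℝ)) := by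
    exact_mod_cast h1
  linarith

/-- a common bound for the cardinalities -/
noncomputable def bdB (g : ℕ) (θ : ℝ) (x N : ℕ) : ℝ :=
  N + x + 2 * ((g : ℝ) + 2) * x + 2 * (wa g θ * x + wb g θ * x + 2 * ((g : ℝ) + 2) ^ 2 * x)

/-- upper bound for the predimension of the hull -/
noncomputable def bdbeta (g : ℕ) (θ : ℝ) (N : ℕ) : ℝ :=
  wa g θ * N + wb g θ * 2 ^ N + (N : ℝ) ^ 2 * 2 ^ N

theorem bd_wb_nonneg {g : ℕ} {θ : ℝ} (h0 : 0 ≤ θ) (h1 : θ ≤ 1) : 0 ≤ wb g θ := by
  have h := wt_Wt (g := g) h0 h1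
  have h2 := wa_pos (g := g) h1
  have h3 := h.lo
  have h4 : (0 : ℝ) ≤ ((g + 1 : ℕ) : ℝ) * wa g θ := mul_nonneg (Nat.cast_nonneg _) (by linarith)
  linarith

theorem exists_bd (g : ℕ) (θ : ℝ) (f : ℕ → ℝ) (h0 : 0 ≤ θ) (h1 : θ ≤ 1) (hf : Ctl θ (g + 4) f) :
    ∃ bd : ℕ → ℕ, Monotone bd ∧ ∀ (V C : Type) (G : Geo V C) (D : Rg V C), KK G g θ f D →
      ∀ X : Finset V, X ⊆ D.1 →
        ∃ R, ClT G g θ D R ∧ X ⊆ R.1 ∧ R.1.card ≤ bd X.card ∧ R.2.card ≤ bd X.card ∧
          (X.card ≤ g → R = (X, ∅)) := by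
  have hwa : 0 ≤ wa g θ := by have := wa_pos (g := g) h1; linarith
  have hwb : 0 ≤ wb g θ := bd_wb_nonneg h0 h1
  have hwt := wt_Wt (g := g) h0 h1
  choose x hx using fun N : ℕ => hf.unbounded (bdbeta g θ N)
  refine ⟨fun N => ∑ M ∈ Finset.range (N + 1), ⌈bdB g θ (x M) M⌉₊, ?_, ?_⟩
  · intro N N' hN
    exact Finset.sum_le_sum_of_subset (Finset.range_mono (Nat.succ_le_succ hN))
  intro V C G D hD X hX
  have hpp : PP G (g + 1) (wa g θ) (wb g θ) D := KK.ppt hf hD
  have hTD : ((X, ∅) : Rg V C) ≤ D := ⟨hX, Finset.empty_subset _⟩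
  obtain ⟨R, hR, hTR, hmin, hdel⟩ := exists_closure hwt hpp hTD
  have hXR : X ⊆ R.1 := hTR.1
  -- the size of `R` is bounded
  have hsz : sz G R < x X.card := by
    by_contra hcon
    push Not at hcon
    have h2 : f (x X.card) ≤ f (sz G R) := hf.mono hcon
    have h3 : f (sz G R) ≤ dl G g θ R := hD.ctl R hR.1
    have h4 : dl G g θ R ≤ dl G g θ (hull G (g + 1) D (X, ∅)) :=
      hdel _ (hull_full hTD) (le_hull hTD)
    have h5 : dl G g θ (hull G (g + 1) D (X, ∅)) ≤ bdbeta g θ X.card := by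
      have h6 := bd_del_crude G (b := wb g θ) hwa (hull G (g + 1) D (X, ∅))
      have h7 := bd_hull_card hpp.2.1 X hX
      have h8 : ((hull G (g + 1) D (X, ∅)).2.card : ℝ) ≤ 2 ^ X.card := by exact_mod_cast h7
      have h9 : (hull G (g + 1) D (X, ∅)).1 = X := rfl
      unfold dl
      rw [h9] at h6
      unfold bdbeta
      have h10 := mul_le_mul_of_nonneg_left h8 hwb
      have h11 := mul_le_mul_of_nonneg_left h8 (sq_nonneg (X.card : ℝ))
      linarith
    have h6 := hx X.card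
    linarith
  have hY : R.2.card ≤ x X.card := by
    have : R.2.card ≤ sz G R := Nat.le_add_right _ _
    omega
  have hz : (R.1.filter (fun v => mm G R v = 0)).card ≤ x X.card := by
    have : (R.1.filter (fun v => mm G R v = 0)).card ≤ sz G R := Nat.le_add_left _ _
    omega
  have hY' : (R.2.card : ℝ) ≤ (x X.card : ℝ) := by exact_mod_cast hY
  have hz' : ((R.1.filter (fun v => mm G R v = 0)).card : ℝ) ≤ (x X.card : ℝ) := by exact_mod_cast hz
  have hcard := bd_card hwt hpp hR hXR hmin hdel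
  have hg0 : (0 : ℝ) ≤ (g : ℝ) := Nat.cast_nonneg g
  have hB : (R.1.card : ℝ) ≤ bdB g θ (x X.card) X.card := by
    unfold bdB
    have e1 := mul_le_mul_of_nonneg_left hz' hwa
    have e2 := mul_le_mul_of_nonneg_left hY' hwb
    have e3 : 2 * ((g : ℝ) + 2) * (R.2.card : ℝ) ≤ 2 * ((g : ℝ) + 2) * (x X.card : ℝ) :=
      mul_le_mul_of_nonneg_left hY' (by positivity)
    have e4 : 2 * ((g : ℝ) + 2) ^ 2 * (R.2.card : ℝ) ≤ 2 * ((g : ℝ) + 2) ^ 2 * (x X.card : ℝ) :=
      mul_le_mul_of_nonneg_left hY' (by positivity)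
    have e5 : ((g + 1 : ℕ) : ℝ) + 1 = (g : ℝ) + 2 := by push_cast; ring
    rw [e5] at hcard
    linarith
  have hxB : (x X.card : ℝ) ≤ bdB g θ (x X.card) X.card := by
    unfold bdB
    have e0 : (0 : ℝ) ≤ (x X.card : ℝ) := Nat.cast_nonneg _
    have e1 : 0 ≤ wa g θ * (x X.card : ℝ) := mul_nonneg hwa e0
    have e2 : 0 ≤ wb g θ * (x X.card : ℝ) := mul_nonneg hwb e0
    have e3 : 0 ≤ 2 * ((g : ℝ) + 2) * (x X.card : ℝ) := by positivity
    have e4 : 0 ≤ 2 * ((g : ℝ) + 2) ^ 2 * (x X.card : ℝ) := by positivity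
    have e6 : (0 : ℝ) ≤ (X.card : ℝ) := Nat.cast_nonneg _
    linarith
  have hceil : ⌈bdB g θ (x X.card) X.card⌉₊ ≤ ∑ M ∈ Finset.range (X.card + 1), ⌈bdB g θ (x M) M⌉₊ :=
    Finset.single_le_sum (f := fun M => ⌈bdB g θ (x M) M⌉₊) (fun _ _ => Nat.zero_le _)
      (Finset.mem_range.2 (Nat.lt_succ_self _))
  refine ⟨R, hR, hXR, ?_, ?_, ?_⟩
  · refine le_trans ?_ hceil
    have : (R.1.card : ℝ) ≤ (⌈bdB g θ (x X.card) X.card⌉₊ : ℝ) := le_trans hB (Nat.le_ceil _)
    exact_mod_cast this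
  · refine le_trans ?_ hceil
    have : (R.2.card : ℝ) ≤ (⌈bdB g θ (x X.card) X.card⌉₊ : ℝ) :=
      le_trans hY' (le_trans hxB (Nat.le_ceil _))
    exact_mod_cast this
  · intro hXg
    have hs : ClT G g θ D (X, ∅) := small_closed h0 h1 hD X hX hXg
    exact le_antisymm (hmin _ hs le_rfl) hTR

end Pool.Low
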