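import Pool.Agent.helper24.Low.Basic

/-!
# Module NU1 (Theta): the number `θ` and the control functions

Choose `a : ℕ → ℕ` with `a 0 = 1`, `a (r+1) = a r + (r+1) * 2^(a r + 1) + 2`, so `a r ≥ r + 1`.
`θ = ∑' r, 2^(-a r)`, `θ_r = ∑_{i ≤ r} 2^(-a i)`, `0 < θ - θ_r ≤ 2 * 2^(-a (r+1))`.  `2^(a r) θ_r` is an odd integer.

* approx: given `X` take `t = θ_r`, `Q = 2^(a r)` with `r` so large that `X < 2^(a r)` and `2 * 2^(-a (r+1)) * X < 2^(-a r)`.  If `z = t j`,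
  `1 ≤ j ≤ X`, then `j * odd = 2^(a r) z`, so `2^(a r) ∣ j`, contradiction.
* irr: if `z = θ j`, `j ≥ 1`, use `t, Q` for `X = j`: `Q (z - t j)` is an integer, but `0 < z - t j = (θ - t) j < 1/Q`.
* Control functions for `L` (we may assume `1 ≤ L`): `gap j = ⌊θ j⌋ + 1 - θ j > 0` is the smallest positive `z - θ j` (`z` integer);
  `γ y = min (1, min_{1 ≤ j ≤ L y} gap j)` is antitone and positive.  `f x = ∑_{t < Nat.log 2 x} γ (2^(t+1))`.  For `x ≥ 1`:
  `f (2x) = f x + γ (2^(log x + 1)) ≤ f x + γ x` since `x ≤ 2^(log x + 1)`.  `f x ≤ Nat.log 2 x ≤ x`.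
  Unbounded: let `L ≤ 2^ℓ`.  If `1 ≤ j ≤ L y` and `L y ≤ 2^(a (r+1) - a r - 2)` then `z - θ j > 0` implies `z - θ_r j > 0`, so
  `z - θ_r j ≥ 2^(-a r)` and `z - θ j ≥ 2^(-a r) - (θ - θ_r) j ≥ 2^(-a r - 1)`.  So `γ (2^(t+1)) ≥ 2^(-a r - 1)` for all
  `t < T := a (r+1) - a r - 2 - ℓ`, and `f (2^T) ≥ T * 2^(-a r - 1) ≥ (r + 1) - ℓ`.
-/

set_option autoImplicit false

namespace Pool.Low

/-- the exponents -/
def thA : ℕ → ℕ
  | 0 => 1
  | r + 1 => thA r + (r + 1) * 2 ^ (thA r + 1) + 2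

theorem thA_succ (r : ℕ) : thA (r + 1) = thA r + (r + 1) * 2 ^ (thA r + 1) + 2 := rfl

theorem thA_ge (r : ℕ) : r + 1 ≤ thA r := by
  induction r with
  | zero => exact le_rfl
  | succ r ih =>
    rw [thA_succ]
    omega

theorem thA_lt (r : ℕ) : thA r + 1 ≤ thA (r + 1) := by
  rw [thA_succ]
  omega

/-- the partial sums -/
noncomputable def thS : ℕ → ℝ
  | 0 => 1 / 2
  | r + 1 => thS r + (1 / 2) ^ thA (r + 1)

theorem thS_succ (r : ℕ) : thS (r + 1) = thS r + (1 / 2) ^ thA (r + 1) := rfl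

theorem thS_lt (r : ℕ) : thS r < thS (r + 1) := by
  rw [thS_succ]
  have : (0 : ℝ) < (1 / 2) ^ thA (r + 1) := by positivity
  linarith

theorem thS_mono : Monotone thS := monotone_nat_of_le_succ fun r => (thS_lt r).le

theorem thS_bound (r k : ℕ) :
    thS (r + k) ≤ thS r + 2 * (1 / 2) ^ thA (r + 1) - 2 * (1 / 2) ^ thA (r + k + 1) := by
  induction k with
  | zero => simp
  | succ k ih =>
    have h1 : thS (r + (k + 1)) = thS (r + k) + (1 / 2) ^ thA (r + k + 1) := thS_succ (r + k)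
    have h2 : (1 / 2 : ℝ) ^ thA (r + (k + 1) + 1) ≤ (1 / 2) ^ (thA (r + k + 1) + 1) :=
      pow_le_pow_of_le_one (by norm_num) (by norm_num) (thA_lt (r + k + 1))
    rw [pow_succ] at h2
    linarith

theorem thS_le (r k : ℕ) : thS k ≤ thS r + 2 * (1 / 2) ^ thA (r + 1) := by
  rcases le_total k r with h | h
  · have := thS_mono h
    have : (0 : ℝ) < (1 / 2) ^ thA (r + 1) := by positivity
    linarith
  · obtain ⟨m, rfl⟩ := Nat.exists_eq_add_of_le h
    have h1 := thS_bound r m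
    have : (0 : ℝ) < (1 / 2) ^ thA (r + m + 1) := by positivity
    linarith

/-- the number -/
noncomputable def thT : ℝ := ⨆ r, thS r

theorem thS_bdd : BddAbove (Set.range thS) := by
  refine ⟨thS 0 + 2 * (1 / 2) ^ thA 1, ?_⟩
  rintro _ ⟨k, rfl⟩
  exact thS_le 0 k

theorem thS_lt_T (r : ℕ) : thS r < thT := (thS_lt r).trans_le (le_ciSup thS_bdd (r + 1))

theorem thT_le (r : ℕ) : thT ≤ thS r + 2 * (1 / 2) ^ thA (r + 1) := ciSup_le fun k => thS_le r k

theorem thS_odd (r : ℕ) : ∃ m : ℕ, Odd m ∧ (2 : ℝ) ^ thA r * thS r = m := by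
  induction r with
  | zero =>
    refine ⟨1, odd_one, ?_⟩
    show (2 : ℝ) ^ 1 * (1 / 2) = _
    norm_num
  | succ r ih =>
    obtain ⟨m, hm, hmS⟩ := ih
    obtain ⟨d, hd⟩ := Nat.exists_eq_add_of_le (thA_lt r)
    refine ⟨2 ^ (d + 1) * m + 1, ?_, ?_⟩
    · rw [pow_succ, mul_comm (2 ^ d) 2, mul_assoc]
      exact ⟨2 ^ d * m, rfl⟩
    · have h1 : (2 : ℝ) ^ thA (r + 1) * (1 / 2) ^ thA (r + 1) = 1 := by
        rw [← mul_pow]
        norm_num
      have h2 : (2 : ℝ) ^ thA (r + 1) = 2 ^ (d + 1) * 2 ^ thA r := by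
        rw [hd, ← pow_add]
        congr 1
        omega
      rw [thS_succ, mul_add, h1, h2, mul_assoc, hmS]
      push_cast
      ring

/-- an integer which is larger than `θ_r j` is larger by `2^(-a r)` -/
theorem thS_gap (r j : ℕ) (z : ℤ) (h : 0 < (z : ℝ) - thS r * j) :
    (1 / 2 : ℝ) ^ thA r ≤ (z : ℝ) - thS r * j := by
  obtain ⟨m, -, hm⟩ := thS_odd r
  have hp : (0 : ℝ) < 2 ^ thA r := by positivity
  have h1 : (2 : ℝ) ^ thA r * ((z : ℝ) - thS r * j) = ((2 ^ thA r * z - m * j : ℤ) : ℝ) := by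
    push_cast
    rw [mul_sub, ← mul_assoc, hm]
  have h2 : (0 : ℝ) < ((2 ^ thA r * z - m * j : ℤ) : ℝ) := by
    rw [← h1]
    exact mul_pos hp h
  have h3 : (1 : ℤ) ≤ 2 ^ thA r * z - m * j := by
    have : (0 : ℤ) < 2 ^ thA r * z - m * j := by exact_mod_cast h2
    omega
  have h4 : (1 : ℝ) ≤ ((2 ^ thA r * z - m * j : ℤ) : ℝ) := by exact_mod_cast h3
  rw [← h1] at h4
  have h5 : (1 / 2 : ℝ) ^ thA r = 1 / 2 ^ thA r := by rw [one_div_pow]
  rw [h5, div_le_iff₀ hp]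
  linarith

theorem thS_ne (r j : ℕ) (h1 : 1 ≤ j) (h2 : j < 2 ^ thA r) (z : ℤ) : (z : ℝ) ≠ thS r * j := by
  intro h
  obtain ⟨m, hm, hmS⟩ := thS_odd r
  have h3 : (2 : ℝ) ^ thA r * (z : ℝ) = (m : ℝ) * j := by
    rw [h, ← mul_assoc, hmS]
  have h4 : (2 : ℤ) ^ thA r * z = m * j := by exact_mod_cast h3
  have h5 : ((2 ^ thA r : ℕ) : ℤ) ∣ ((m * j : ℕ) : ℤ) := ⟨z, by push_cast; rw [h4]⟩
  have h6 : 2 ^ thA r ∣ m * j := Int.natCast_dvd_natCast.1 h5
  have h7 : Nat.Coprime (2 ^ thA r) m := by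
    apply Nat.Coprime.pow_left
    rw [Nat.coprime_two_left]
    exact hm
  have h8 := Nat.le_of_dvd (by omega) (h7.dvd_of_dvd_mul_left h6)
  omega

theorem th_small (r X : ℕ) (h : X < 2 ^ thA r) : (thT - thS r) * X < (1 / 2) ^ thA r := by
  have h1 := thT_le r
  have h2 := thS_lt_T r
  have hX : (X : ℝ) < 2 ^ thA r := by exact_mod_cast h
  have h3 : (1 / 2 : ℝ) ^ thA (r + 1) ≤ (1 / 2) ^ (2 * thA r + 1) := by
    apply pow_le_pow_of_le_one (by norm_num) (by norm_num)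
    rw [thA_succ]
    have h4 : thA r + 1 < 2 ^ (thA r + 1) := Nat.lt_two_pow_self
    have h5 : 2 ^ (thA r + 1) ≤ (r + 1) * 2 ^ (thA r + 1) := Nat.le_mul_of_pos_left _ (by omega)
    omega
  have h4 : (1 / 2 : ℝ) ^ (2 * thA r + 1) * 2 ^ thA r = (1 / 2) ^ thA r * (1 / 2) := by
    have h5 : (1 / 2 : ℝ) ^ thA r * 2 ^ thA r = 1 := by
      rw [← mul_pow]
      norm_num
    have h6 : (1 / 2 : ℝ) ^ (2 * thA r + 1) = (1 / 2) ^ thA r * (1 / 2) ^ thA r * (1 / 2) := by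
      rw [pow_succ, two_mul, pow_add]
    rw [h6]
    calc (1 / 2 : ℝ) ^ thA r * (1 / 2) ^ thA r * (1 / 2) * 2 ^ thA r
        = (1 / 2 : ℝ) ^ thA r * (1 / 2) * ((1 / 2) ^ thA r * 2 ^ thA r) := by ring
      _ = _ := by rw [h5, mul_one]
  have hpos : (0 : ℝ) < (1 / 2) ^ (2 * thA r + 1) := by positivity
  calc (thT - thS r) * X ≤ (2 * (1 / 2) ^ (2 * thA r + 1)) * X := by
        apply mul_le_mul_of_nonneg_right _ (Nat.cast_nonneg X)
        linarith
    _ < (2 * (1 / 2) ^ (2 * thA r + 1)) * 2 ^ thA r := by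
        apply mul_lt_mul_of_pos_left hX
        positivity
    _ = 2 * ((1 / 2) ^ (2 * thA r + 1) * 2 ^ thA r) := by ring
    _ = (1 / 2) ^ thA r := by rw [h4]; ring

theorem lt_two_pow_thA (X : ℕ) : X < 2 ^ thA X := by
  have h1 := thA_ge X
  have h2 : thA X < 2 ^ thA X := Nat.lt_two_pow_self
  omega

theorem thT_ne (j : ℕ) (h1 : 1 ≤ j) (z : ℤ) : (z : ℝ) ≠ thT * j := by
  intro h
  have h2 := lt_two_pow_thA j
  have h3 := th_small j j h2
  have h4 := thS_lt_T j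
  have hj : (0 : ℝ) < (j : ℝ) := by exact_mod_cast h1
  have h5 : (z : ℝ) - thS j * j = (thT - thS j) * j := by
    rw [h]
    ring
  have h6 := thS_gap j j z (by
    rw [h5]
    exact mul_pos (by linarith) hj)
  rw [h5] at h6
  linarith

/-- the smallest positive `z - θ j` -/
noncomputable def thG (j : ℕ) : ℝ := ⌊thT * j⌋ + 1 - thT * j

theorem thG_pos (j : ℕ) : 0 < thG j := by
  unfold thG
  have := Int.lt_floor_add_one (thT * j)
  linarith

theorem thG_le (j : ℕ) (z : ℤ) (h : 0 < (z : ℝ) - thT * j) : thG j ≤ (z : ℝ) - thT * j := by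
  unfold thG
  have h1 : ⌊thT * (j : ℝ)⌋ < z := Int.floor_lt.2 (by linarith)
  have h2 : ((⌊thT * (j : ℝ)⌋ + 1 : ℤ) : ℝ) ≤ z := by exact_mod_cast h1
  push_cast at h2
  linarith

theorem thG_ge (r j : ℕ) (hj : j ≤ 2 ^ ((r + 1) * 2 ^ (thA r + 1))) :
    (1 / 2 : ℝ) ^ (thA r + 1) ≤ thG j := by
  have h0 := thG_pos j
  have h1 := thT_le r
  have h2 := thS_lt_T r
  set z : ℤ := ⌊thT * (j : ℝ)⌋ + 1 with hz
  have hG : thG j = (z : ℝ) - thT * j := by
    rw [hz]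
    push_cast
    rfl
  have hj0 : (0 : ℝ) ≤ (j : ℝ) := Nat.cast_nonneg j
  have h3 : (0 : ℝ) ≤ (thT - thS r) * j := mul_nonneg (by linarith) hj0
  have h4 := thS_gap r j z (by
    have : (z : ℝ) - thS r * j = thG j + (thT - thS r) * j := by
      rw [hG]
      ring
    rw [this]
    linarith)
  have hjr : (j : ℝ) ≤ 2 ^ ((r + 1) * 2 ^ (thA r + 1)) := by exact_mod_cast hj
  have h5 : (thT - thS r) * j ≤ (1 / 2) ^ (thA r + 1) := by
    have e : (1 / 2 : ℝ) ^ thA (r + 1) =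
        (1 / 2) ^ (thA r + 2) * (1 / 2) ^ ((r + 1) * 2 ^ (thA r + 1)) := by
      rw [← pow_add, thA_succ]
      congr 1
      omega
    have e2 : (1 / 2 : ℝ) ^ ((r + 1) * 2 ^ (thA r + 1)) * 2 ^ ((r + 1) * 2 ^ (thA r + 1)) = 1 := by
      rw [← mul_pow]
      norm_num
    calc (thT - thS r) * j ≤ (2 * (1 / 2) ^ thA (r + 1)) * 2 ^ ((r + 1) * 2 ^ (thA r + 1)) := by
          apply mul_le_mul _ hjr hj0 (by positivity)
          linarith
      _ = 2 * (1 / 2) ^ (thA r + 2) *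
          ((1 / 2) ^ ((r + 1) * 2 ^ (thA r + 1)) * 2 ^ ((r + 1) * 2 ^ (thA r + 1))) := by
          rw [e]
          ring
      _ = (1 / 2) ^ (thA r + 1) := by
          rw [e2, pow_succ _ (thA r + 1)]
          ring
  have h6 : (1 / 2 : ℝ) ^ thA r = 2 * (1 / 2) ^ (thA r + 1) := by
    rw [pow_succ]
    ring
  have h7 : thG j = ((z : ℝ) - thS r * j) - (thT - thS r) * j := by
    rw [hG]
    ring
  rw [h7]
  linarith

/-- the truncated gaps -/
noncomputable def thH (j : ℕ) : ℝ := if j = 0 then 1 else thG j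

theorem thNe (L y : ℕ) : (Finset.range (L * y + 1)).Nonempty := ⟨0, Finset.mem_range.2 (by omega)⟩

/-- the minimal gap -/
noncomputable def thGa (L y : ℕ) : ℝ := (Finset.range (L * y + 1)).inf' (thNe L y) thH

theorem thH_pos (j : ℕ) : 0 < thH j := by
  unfold thH
  split
  · exact one_pos
  · exact thG_pos j

theorem thGa_pos (L y : ℕ) : 0 < thGa L y := by
  unfold thGa
  rw [Finset.lt_inf'_iff]
  intro j _
  exact thH_pos j

theorem thGa_le_one (L y : ℕ) : thGa L y ≤ 1 := by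
  have h := Finset.inf'_le thH (Finset.mem_range.2 (show 0 < L * y + 1 by omega))
  exact h

theorem thGa_le (L y j : ℕ) (h1 : 1 ≤ j) (h2 : j ≤ L * y) : thGa L y ≤ thG j := by
  have h := Finset.inf'_le thH (Finset.mem_range.2 (show j < L * y + 1 by omega))
  have e : thH j = thG j := by
    unfold thH
    rw [if_neg (by omega)]
  rw [e] at h
  exact h

theorem thGa_anti (L : ℕ) {x y : ℕ} (h : x ≤ y) : thGa L y ≤ thGa L x := by
  unfold thGa
  rw [Finset.le_inf'_iff]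
  intro j hj
  apply Finset.inf'_le
  rw [Finset.mem_range] at *
  have := Nat.mul_le_mul_left L h
  omega

/-- the control function -/
noncomputable def thF (L x : ℕ) : ℝ := ∑ t ∈ Finset.range (Nat.log 2 x), thGa L (2 ^ (t + 1))

theorem thF_two (L x : ℕ) (hx : 1 ≤ x) :
    thF L (2 * x) = thF L x + thGa L (2 ^ (Nat.log 2 x + 1)) := by
  unfold thF
  have h : Nat.log 2 (2 * x) = Nat.log 2 x + 1 := by
    rw [mul_comm]
    exact Nat.log_mul_base (by norm_num) (by omega)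
  rw [h, Finset.sum_range_succ]

theorem thF_ctl (L : ℕ) : Ctl thT L (thF L) where
  mono := by
    intro x y hxy
    unfold thF
    apply Finset.sum_le_sum_of_subset_of_nonneg
    · intro t ht
      rw [Finset.mem_range] at *
      exact ht.trans_le (Nat.log_mono_right hxy)
    · intro t _ _
      exact (thGa_pos _ _).le
  zero := by
    unfold thF
    simp
  le_id := by
    intro x
    unfold thF
    calc ∑ t ∈ Finset.range (Nat.log 2 x), thGa L (2 ^ (t + 1))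
        ≤ ∑ _t ∈ Finset.range (Nat.log 2 x), (1 : ℝ) :=
          Finset.sum_le_sum fun t _ => thGa_le_one _ _
      _ = (Nat.log 2 x : ℝ) := by simp
      _ ≤ x := by exact_mod_cast Nat.log_le_self 2 x
  unbounded := by
    intro B
    obtain ⟨r, hr⟩ := exists_nat_gt (B + L)
    set T : ℕ := (r + 1) * 2 ^ (thA r + 1) - L with hT
    have hL : L < 2 ^ L := Nat.lt_two_pow_self
    refine ⟨2 ^ T, ?_⟩
    unfold thF
    rw [Nat.log_pow (by norm_num)]
    have hterm : ∀ t ∈ Finset.range T, (1 / 2 : ℝ) ^ (thA r + 1) ≤ thGa L (2 ^ (t + 1)) := by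
      intro t ht
      rw [Finset.mem_range] at ht
      unfold thGa
      rw [Finset.le_inf'_iff]
      intro j hj
      rw [Finset.mem_range] at hj
      unfold thH
      split
      · exact pow_le_one₀ (by norm_num) (by norm_num)
      · apply thG_ge
        have h1 : L * 2 ^ (t + 1) ≤ 2 ^ L * 2 ^ (t + 1) := Nat.mul_le_mul_right _ hL.le
        rw [← pow_add] at h1
        have h2 : 2 ^ (L + (t + 1)) ≤ 2 ^ ((r + 1) * 2 ^ (thA r + 1)) :=
          Nat.pow_le_pow_right (by norm_num) (by omega)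
        omega
    have hsum : (T : ℝ) * (1 / 2) ^ (thA r + 1) ≤
        ∑ t ∈ Finset.range T, thGa L (2 ^ (t + 1)) := by
      have := Finset.card_nsmul_le_sum _ _ _ hterm
      rwa [Finset.card_range, nsmul_eq_mul] at this
    refine lt_of_lt_of_le ?_ hsum
    have hTr : ((r : ℝ) + 1) * 2 ^ (thA r + 1) - L ≤ T := by
      have h1 : (r + 1) * 2 ^ (thA r + 1) ≤ T + L := by omega
      have h2 : (((r + 1) * 2 ^ (thA r + 1) : ℕ) : ℝ) ≤ ((T + L : ℕ) : ℝ) := by exact_mod_cast h1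
      push_cast at h2
      linarith
    have hp : (0 : ℝ) < (1 / 2) ^ (thA r + 1) := by positivity
    have hp1 : (1 / 2 : ℝ) ^ (thA r + 1) ≤ 1 := pow_le_one₀ (by norm_num) (by norm_num)
    have e2 : (2 : ℝ) ^ (thA r + 1) * (1 / 2) ^ (thA r + 1) = 1 := by
      rw [← mul_pow]
      norm_num
    have h3 : (((r : ℝ) + 1) * 2 ^ (thA r + 1) - L) * (1 / 2) ^ (thA r + 1) ≤
        (T : ℝ) * (1 / 2) ^ (thA r + 1) := mul_le_mul_of_nonneg_right hTr hp.le
    have h4 : (((r : ℝ) + 1) * 2 ^ (thA r + 1) - L) * (1 / 2) ^ (thA r + 1) =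
        ((r : ℝ) + 1) * (2 ^ (thA r + 1) * (1 / 2) ^ (thA r + 1)) - L * (1 / 2) ^ (thA r + 1) := by
      ring
    rw [e2] at h4
    have h5 : (L : ℝ) * (1 / 2) ^ (thA r + 1) ≤ L * 1 :=
      mul_le_mul_of_nonneg_left hp1 (Nat.cast_nonneg L)
    linarith
  step_one := by
    intro x hx
    rw [thF_two L x hx]
    have := thGa_le_one L (2 ^ (Nat.log 2 x + 1))
    linarith
  step_gap := by
    intro x hx j hj hjx z hz
    rw [thF_two L x hx]
    have h1 : x ≤ 2 ^ (Nat.log 2 x + 1) := (Nat.lt_pow_succ_log_self (by norm_num) x).le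
    have h2 := thGa_anti L h1
    have h3 := thGa_le L x j hj hjx
    have h4 := thG_le j z hz
    linarith

theorem exists_theta : ∃ θ : ℝ, 0 < θ ∧ θ < 1 ∧ (∀ j : ℕ, 1 ≤ j → ∀ z : ℤ, (z : ℝ) ≠ θ * j) ∧
    (∀ L : ℕ, ∃ f, Ctl θ L f) ∧
    ∀ X : ℕ, ∃ (t : ℝ) (Q : ℕ), 1 ≤ Q ∧ 0 ≤ t ∧ t ≤ θ ∧ (∃ z : ℤ, (Q : ℝ) * t = z) ∧
      (∀ j : ℕ, 1 ≤ j → j ≤ X → ∀ z : ℤ, (z : ℝ) ≠ t * j) ∧ (θ - t) * X < 1 / Q := by
  have hS0 : thS 0 = 1 / 2 := rfl
  have hT0 := thS_lt_T 0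
  have hT1 := thT_le 0
  have hA1 : thA (0 + 1) = 7 := by decide
  rw [hS0] at hT0 hT1
  rw [hA1] at hT1
  refine ⟨thT, by linarith, ?_, thT_ne, fun L => ⟨thF L, thF_ctl L⟩, fun X => ?_⟩
  · norm_num at hT1
    linarith
  · have hX := lt_two_pow_thA X
    obtain ⟨m, -, hm⟩ := thS_odd X
    refine ⟨thS X, 2 ^ thA X, Nat.one_le_two_pow, ?_, (thS_lt_T X).le, ⟨(m : ℤ), ?_⟩, ?_, ?_⟩
    · have := thS_mono (Nat.zero_le X)
      rw [hS0] at this
      linarith
    · push_cast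
      exact hm
    · intro j h1 h2 z
      exact thS_ne X j h1 (by omega) z
    · have := th_small X X hX
      push_cast
      rwa [one_div_pow] at this

end Pool.Low
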