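import Pool.Agent.helper24.Low.Step
import Pool.Agent.helper24.Low.Bound
import Pool.Agent.helper24.Low.Theta

/-!
# Module ML3c (Tower): choice of the parameters

Let `θ` be as in `exists_theta`, `F L` a control function for `L`, `bd g : ℕ → ℕ` the bound of `exists_bd g θ (F (g + 4))`.
Define recursively functions `x_i, y_i : ℕ → ℕ`:
`x_0 N = N`, `y_0 N = 1`, `g_i = i + ∑_{N ≤ i} x_i N`, `x_{i+1} N = x_i N + y_i N * bd g_i (x_i N)`,
`y_{i+1} N = y_i N * bd g_i (x_i N)`.
`P.gs i = g_i`, `P.f i = F (g_i + 4)`.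

Stage lemma (induction on `i`): if `D` is in `KL P univ`, `X ⊆ D.1`, `|X| = N`, there is `R` closed in `D` at the levels `< i`
(`ClL P (Set.Iio i) θ S D R`), `X ⊆ R.1`, all blocks of level `≤ i`, `|R.1| ≤ x_i N`, at most `y_i N` blocks of level `i`, and at most
`∑_{j ≤ i} y_j N` blocks.  `i = 0`: `R = (X, {root})`.  Step: for `e ∈ R.2` of level `i`, `reg S R e = (X_e, ∅)` (no blocks of level
`i+1` in `R`), and `exists_bd` gives a closed `K e ⊇ (X_e, ∅)` in `reg S D e` with `|(K e).1|, |(K e).2| ≤ bd g_i |X_e| ≤ bd g_i (x_i N)`;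
apply `close_step` (the blocks of level `i+1` of `R'` are in the union of the `(K e).2`).

At stage `i = N`: `ClL P univ`: the only levels are `≤ N`, and for `e ∈ R.2` of level `N` the region `reg S R e = (X_e, ∅)` has
`|X_e| ≤ x_N N ≤ g_N` vertices, so it is closed by `small_closed`.
`BD N = ∑_{N' ≤ N} (x_{N'} N' + ∑_{j ≤ N'} y_j N')`.
-/

set_option autoImplicit false

namespace Pool.Low

open scoped Classical

/-- the pair of functions `x_i`, `y_i`; `bd g N` is the bound of `exists_bd` for `g` -/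
def towSt (bd : ℕ → ℕ → ℕ) : ℕ → (ℕ → ℕ) × (ℕ → ℕ)
  | 0 => (fun N => N, fun _ => 1)
  | i + 1 =>
    (fun N => (towSt bd i).1 N +
        (towSt bd i).2 N * bd (i + ∑ M ∈ Finset.range (i + 1), (towSt bd i).1 M) ((towSt bd i).1 N),
      fun N => (towSt bd i).2 N * bd (i + ∑ M ∈ Finset.range (i + 1), (towSt bd i).1 M) ((towSt bd i).1 N))

/-- the number `g_i` -/
def towG (bd : ℕ → ℕ → ℕ) (i : ℕ) : ℕ := i + ∑ M ∈ Finset.range (i + 1), (towSt bd i).1 M

theorem towSt_succ1 (bd : ℕ → ℕ → ℕ) (i N : ℕ) :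
    (towSt bd (i + 1)).1 N = (towSt bd i).1 N + (towSt bd i).2 N * bd (towG bd i) ((towSt bd i).1 N) := rfl

theorem towSt_succ2 (bd : ℕ → ℕ → ℕ) (i N : ℕ) :
    (towSt bd (i + 1)).2 N = (towSt bd i).2 N * bd (towG bd i) ((towSt bd i).1 N) := rfl

theorem towSt_le_G (bd : ℕ → ℕ → ℕ) {i N : ℕ} (h : N ≤ i) : (towSt bd i).1 N ≤ towG bd i := by
  unfold towG
  have h1 : (towSt bd i).1 N ≤ ∑ M ∈ Finset.range (i + 1), (towSt bd i).1 M :=
    Finset.single_le_sum (f := fun M => (towSt bd i).1 M) (fun _ _ => Nat.zero_le _)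
      (Finset.mem_range.2 (by omega))
  omega

/-- **The stages of the closure.** -/
theorem tow_stage {P : Par} (hP : Good0 P) (bd : ℕ → ℕ → ℕ) (hgs : ∀ i, P.gs i = towG bd i)
    (hmono : ∀ g, Monotone (bd g))
    (hbd : ∀ (i : ℕ) (V C : Type) (G : Geo V C) (D : Rg V C), KK G (P.gs i) P.θ (P.f i) D →
      ∀ X : Finset V, X ⊆ D.1 → ∃ R, ClT G (P.gs i) P.θ D R ∧ X ⊆ R.1 ∧ R.1.card ≤ bd (P.gs i) X.card ∧
        R.2.card ≤ bd (P.gs i) X.card)
    {V C : Type} (S : Sys V C) (D : Rg V C) (hD : KL P Set.univ S D) (X : Finset V) (hX : X ⊆ D.1) (i : ℕ) :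
    ∃ R, ClL P (Set.Iio i) P.θ S D R ∧ X ⊆ R.1 ∧ (∀ c ∈ R.2, S.lev c ≤ i) ∧
      R.1.card ≤ (towSt bd i).1 X.card ∧
      (R.2.filter (fun c => S.lev c = i)).card ≤ (towSt bd i).2 X.card ∧
      R.2.card ≤ ∑ j ∈ Finset.range (i + 1), (towSt bd j).2 X.card := by
  induction i with
  | zero =>
    refine ⟨(X, {S.root}), ⟨⟨hX, ?_⟩, ?_, ?_⟩, Finset.Subset.refl _, ?_, le_refl _, ?_, ?_⟩
    · intro c hc
      rw [Finset.mem_singleton] at hc
      rw [hc]
      exact hD.ok.root_mem
    · refine ok_of_le hD.ok ⟨hX, ?_⟩ ?_ ?_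
      · intro c hc
        rw [Finset.mem_singleton] at hc
        rw [hc]
        exact hD.ok.root_mem
      · exact Finset.mem_singleton_self _
      · intro c hc
        have hc' : c = S.root := Finset.mem_singleton.1 hc
        rw [hc', hD.ok.par_root]
        exact Finset.mem_singleton_self _
    · intro e _ he
      exact absurd he (by simp)
    · intro c hc
      have hc' : c = S.root := Finset.mem_singleton.1 hc
      rw [hc', hD.ok.lev_root]
    · refine (Finset.card_filter_le _ _).trans ?_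
      rw [Finset.card_singleton]
      exact le_refl _
    · rw [Finset.card_singleton, Finset.sum_range_one]
      exact le_refl _
  | succ i ih =>
    obtain ⟨R, hR, hXR, hlev, hR1, hR2, hR3⟩ := ih
    have hreg : ∀ e ∈ R.2, S.lev e = i → ∃ K, ClT S.toGeo (P.gs i) P.θ (reg S D e) K ∧ reg S R e ≤ K ∧
        K.1.card ≤ bd (towG bd i) ((towSt bd i).1 X.card) ∧
        K.2.card ≤ bd (towG bd i) ((towSt bd i).1 X.card) := by
      intro e he hle
      have hkk := hD.kk e (hR.le.2 he) (Set.mem_univ _)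
      rw [hle] at hkk
      have hsub : (reg S R e).1 ⊆ (reg S D e).1 := (reg_mono hR.le e).1
      obtain ⟨K, hK1, hK2, hK3, hK4⟩ := hbd i V C S.toGeo (reg S D e) hkk (reg S R e).1 hsub
      have hcard : (reg S R e).1.card ≤ (towSt bd i).1 X.card :=
        (Finset.card_le_card (Finset.filter_subset _ _)).trans hR1
      have hm := hmono (P.gs i) hcard
      rw [hgs i] at hm hK3 hK4
      refine ⟨K, hK1, ⟨hK2, ?_⟩, hK3.trans hm, hK4.trans hm⟩
      intro c hc
      obtain ⟨h1, h2, h3⟩ := mem_reg2.1 hc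
      have h4 := hR.ok.lev_par c h1 h3
      rw [h2, hle] at h4
      have h5 := hlev c h1
      omega
    choose! K hK using hreg
    obtain ⟨R', h1, h2, h3, _, h5, _, h7, h8⟩ := close_step hP hP.θ_pos.le (le_refl P.θ)
      (hD.act_mono (Set.subset_univ _)) hR hlev K (fun e he hle => ⟨(hK e he hle).1, (hK e he hle).2.1⟩)
    have hN : ∀ (N : Finset C), (∀ e ∈ N, e ∈ R.2 ∧ S.lev e = i) → N.card ≤ (towSt bd i).2 X.card := by
      intro N hN
      refine (Finset.card_le_card ?_).trans hR2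
      intro e he
      exact Finset.mem_filter.2 (hN e he)
    have hNmem : ∀ e ∈ R.2.filter (fun c => S.lev c = i), e ∈ R.2 ∧ S.lev e = i := fun e he =>
      Finset.mem_filter.1 he
    refine ⟨R', h1, hXR.trans h2.1, h3, ?_, ?_, ?_⟩
    · rw [towSt_succ1]
      have hsub : R'.1 ⊆ R.1 ∪ (R.2.filter (fun c => S.lev c = i)).biUnion (fun e => (K e).1) := by
        intro v hv
        rw [Finset.mem_union, Finset.mem_biUnion]
        rcases h7 v hv with h | ⟨e, he, hle, hve⟩
        · exact Or.inl h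
        · exact Or.inr ⟨e, Finset.mem_filter.2 ⟨he, hle⟩, hve⟩
      refine (Finset.card_le_card hsub).trans ((Finset.card_union_le _ _).trans ?_)
      refine Nat.add_le_add hR1 ?_
      refine (Finset.card_biUnion_le_card_mul _ _ (bd (towG bd i) ((towSt bd i).1 X.card)) ?_).trans ?_
      · intro e he
        exact (hK e (hNmem e he).1 (hNmem e he).2).2.2.1
      · exact Nat.mul_le_mul_right _ hR2
    · rw [towSt_succ2]
      have hsub : R'.2.filter (fun c => S.lev c = i + 1) ⊆
          (R.2.filter (fun c => S.lev c = i)).biUnion (fun e => (K e).2) := by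
        intro c hc
        obtain ⟨hc1, hc2⟩ := Finset.mem_filter.1 hc
        rw [Finset.mem_biUnion]
        rcases h8 c hc1 with h | ⟨e, he, hle, hve⟩
        · have := hlev c h
          omega
        · exact ⟨e, Finset.mem_filter.2 ⟨he, hle⟩, hve⟩
      refine (Finset.card_le_card hsub).trans ?_
      refine (Finset.card_biUnion_le_card_mul _ _ (bd (towG bd i) ((towSt bd i).1 X.card)) ?_).trans ?_
      · intro e he
        exact (hK e (hNmem e he).1 (hNmem e he).2).2.2.2
      · exact Nat.mul_le_mul_right _ hR2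
    · rw [Finset.sum_range_succ, towSt_succ2]
      have hsub : R'.2 ⊆ R.2 ∪ (R.2.filter (fun c => S.lev c = i)).biUnion (fun e => (K e).2) := by
        intro c hc
        rw [Finset.mem_union, Finset.mem_biUnion]
        rcases h8 c hc with h | ⟨e, he, hle, hve⟩
        · exact Or.inl h
        · exact Or.inr ⟨e, Finset.mem_filter.2 ⟨he, hle⟩, hve⟩
      refine (Finset.card_le_card hsub).trans ((Finset.card_union_le _ _).trans ?_)
      refine Nat.add_le_add hR3 ?_
      refine (Finset.card_biUnion_le_card_mul _ _ (bd (towG bd i) ((towSt bd i).1 X.card)) ?_).trans ?_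
      · intro e he
        exact (hK e (hNmem e he).1 (hNmem e he).2).2.2.2
      · exact Nat.mul_le_mul_right _ hR2

/-- at the stage `|X|` the region is closed at all levels -/
theorem tow_final {P : Par} (hP : Good0 P) (bd : ℕ → ℕ → ℕ) (hgs : ∀ i, P.gs i = towG bd i)
    {V C : Type} {S : Sys V C} {D : Rg V C} (hD : KL P Set.univ S D) {N : ℕ} {R : Rg V C}
    (hR : ClL P (Set.Iio N) P.θ S D R) (hlev : ∀ c ∈ R.2, S.lev c ≤ N)
    (hcard : R.1.card ≤ (towSt bd N).1 N) : ClL P Set.univ P.θ S D R := by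
  refine ⟨hR.le, hR.ok, fun e he _ => ?_⟩
  rcases lt_or_eq_of_le (hlev e he) with h | h
  · exact hR.cl e he h
  · have hreg : reg S R e = ((reg S R e).1, ∅) := by
      refine Prod.ext rfl ?_
      show (reg S R e).2 = ∅
      rw [Finset.eq_empty_iff_forall_notMem]
      intro c hc
      obtain ⟨h1, h2, h3⟩ := mem_reg2.1 hc
      have h4 := hR.ok.lev_par c h1 h3
      rw [h2, h] at h4
      have h5 := hlev c h1
      omega
    rw [hreg]
    have hkk := hD.kk e (hR.le.2 he) (Set.mem_univ _)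
    refine small_closed hP.θ_pos.le hP.θ_lt.le hkk (reg S R e).1 (reg_mono hR.le e).1 ?_
    rw [hgs, h]
    exact (Finset.card_le_card (Finset.filter_subset _ _)).trans (hcard.trans (towSt_le_G bd (le_refl N)))

theorem exists_good : ∃ P : Par, Good P := by
  obtain ⟨θ, hθ0, hθ1, hirr, hctl, happ⟩ := exists_theta
  choose F hF using hctl
  choose bd hbdm hbd using fun g : ℕ => exists_bd g θ (F (g + 4)) hθ0.le hθ1.le (hF (g + 4))
  let P : Par := ⟨θ, towG bd, fun i => F (towG bd i + 4)⟩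
  have hP : Good0 P := ⟨hθ0, hθ1, hirr, fun i => hF (towG bd i + 4)⟩
  have hgs : ∀ i, P.gs i = towG bd i := fun i => rfl
  have hbd' : ∀ (i : ℕ) (V C : Type) (G : Geo V C) (D : Rg V C), KK G (P.gs i) P.θ (P.f i) D →
      ∀ X : Finset V, X ⊆ D.1 → ∃ R, ClT G (P.gs i) P.θ D R ∧ X ⊆ R.1 ∧ R.1.card ≤ bd (P.gs i) X.card ∧
        R.2.card ≤ bd (P.gs i) X.card := by
    intro i V C G D hK X hX
    obtain ⟨R, h1, h2, h3, h4, _⟩ := hbd (towG bd i) V C G D hK X hX
    exact ⟨R, h1, h2, h3, h4⟩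
  refine ⟨P, { toGood0 := hP, grow := ?_, approx := happ, bd := ?_ }⟩
  · intro i
    exact Nat.le_add_right _ _
  · refine ⟨fun N => ∑ M ∈ Finset.range (N + 1),
      ((towSt bd M).1 M + ∑ j ∈ Finset.range (M + 1), (towSt bd j).2 M), ?_, ?_⟩
    · intro N N' hNN
      exact Finset.sum_le_sum_of_subset (Finset.range_subset_range.2 (by omega))
    · intro V C S D hD X hX
      obtain ⟨R, hR, hXR, hlev, hR1, _, hR3⟩ := tow_stage hP bd hgs hbdm hbd' S D hD X hX X.card
      have hle : (towSt bd X.card).1 X.card + ∑ j ∈ Finset.range (X.card + 1), (towSt bd j).2 X.card ≤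
          ∑ M ∈ Finset.range (X.card + 1),
            ((towSt bd M).1 M + ∑ j ∈ Finset.range (M + 1), (towSt bd j).2 M) :=
        Finset.single_le_sum (f := fun M => (towSt bd M).1 M + ∑ j ∈ Finset.range (M + 1), (towSt bd j).2 M)
          (fun _ _ => Nat.zero_le _) (Finset.mem_range.2 (Nat.lt_succ_self _))
      refine ⟨R, tow_final hP bd hgs hD hR hlev hR1, hXR, ?_, ?_, hlev⟩
      · exact hR1.trans ((Nat.le_add_right _ _).trans hle)
      · exact hR3.trans ((Nat.le_add_left _ _).trans hle)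

end Pool.Low
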