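import Pool.Agent.helper24.Low.MTMain
import Pool.Agent.helper24.Low.Tower
import Pool.Agent.helper24.Low.GS3
import Pool.Agent.helper24.Low.NTPBF
import Pool.Agent.helper24.Low.NLBF

/-!
# The theorem (used by Pool/Agent/S14914.lean)
-/

set_option autoImplicit false

namespace Pool.Low

theorem exists_bf : ∃ (V : Type) (_ : Countable V) (_ : Infinite V) (b : BF V), b.NTP ∧ b.NonLow := by
  obtain ⟨P, hP⟩ := exists_good
  obtain ⟨S, D, hG⟩ := exists_gen hP.toGood0
  exact ⟨Dom D, inferInstance, dom_infinite hP hG, genBF hP hG, genBF_ntp hP hG, genBF_nonLow hP hG⟩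

end Pool.Low
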