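import Pool.Agent.helper24.Low.Psi2

/-!
# Module LA8 (Dom): dependence on `t`

Use `dl_sub : dl G g t' P = dl G g t P + (t - t') * psi G (g + 4) P` and `wt_Wt` (both in `Basic.lean`); `psi G (g + 4)` is
`psi G (n + 3)` for `n = g + 1`.
-/

set_option autoImplicit false

namespace Pool.Low

open scoped Classical

variable {V C : Type} [DecidableEq V] [DecidableEq C]

/-- `0 = f 0 ≤ f (sz P) ≤ dl P`. -/
theorem KK.ppt {G : Geo V C} {g : ℕ} {θ : ℝ} {f : ℕ → ℝ} {L : ℕ} (hf : Ctl θ L f) {D : Rg V C} (hD : KK G g θ f D) :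
    PPT G g θ D := by
  refine ⟨hD.bip, hD.ls, fun P hP => ?_⟩
  have h1 := hD.ctl P hP
  have h2 := hf.mono (Nat.zero_le (sz G P))
  rw [hf.zero] at h2
  exact h2.trans h1

theorem ppt_mono {G : Geo V C} {g : ℕ} {t t' : ℝ} (h0 : 0 ≤ t') (h1 : t' ≤ t) (h2 : t ≤ 1) {D : Rg V C}
    (hD : PPT G g t D) : PPT G g t' D := by
  refine ⟨hD.1, hD.2.1, fun P hP => ?_⟩
  have h3 : 0 ≤ psi G (g + 4) P := psi_nonneg (wt_Wt (h0.trans h1) h2) hD hP
  have h4 : 0 ≤ dl G g t P := hD.2.2 P hP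
  have h5 := dl_sub G g t t' P
  have h6 : (0:ℝ) ≤ (psi G (g + 4) P : ℝ) := by exact_mod_cast h3
  have h7 : 0 ≤ (t - t') * (psi G (g + 4) P : ℝ) := mul_nonneg (by linarith) h6
  show 0 ≤ dl G g t' P
  linarith

theorem clt_mono {G : Geo V C} {g : ℕ} {t t' : ℝ} (h0 : 0 ≤ t') (h1 : t' ≤ t) (h2 : t ≤ 1) {D B : Rg V C}
    (hD : PPT G g t D) (hB : ClT G g t D B) : ClT G g t' D B := by
  refine ⟨hB.1, fun Z hZ hBZ => ?_⟩
  have h3 : psi G (g + 4) B ≤ psi G (g + 4) Z := psi_mono (wt_Wt (h0.trans h1) h2) hD hB hZ hBZ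
  have h4 : dl G g t B ≤ dl G g t Z := hB.2 Z hZ hBZ
  have h5 := dl_sub G g t t' B
  have h5' := dl_sub G g t t' Z
  have h6 : (psi G (g + 4) B : ℝ) ≤ (psi G (g + 4) Z : ℝ) := by exact_mod_cast h3
  have h7 : (t - t') * (psi G (g + 4) B : ℝ) ≤ (t - t') * (psi G (g + 4) Z : ℝ) :=
    mul_le_mul_of_nonneg_left h6 (by linarith)
  show dl G g t' B ≤ dl G g t' Z
  linarith

/-- **Small sets.**  `t ≤ θ` is a good rational approximation of `θ` (`Q t` is an integer, `t j` is not an integer for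
`1 ≤ j ≤ X`, `(θ - t) X < 1/Q`).  `B` is closed for `t` and contained in a small set `R` closed for `θ`.  Then `B` is closed for
`θ`.

Proof: let `T` be the closure of `B` for `θ` (`exists_closure`); `T ≤ R`; `dl θ T ≤ dl θ B` since `B` is full.
`j := psi T - psi B ≥ 0` (`psi_mono` for `t`: `ppt_mono`), and `j ≤ psi T ≤ (g+4) sz T ≤ (g+4)(|T.1|+|T.2|) ≤ X` (`psi_nonneg`,
`psi_upper`, `sz_le`).
If `j = 0`: `psi_eq_trivial` (for `t`) gives `dl θ T = dl θ B`, so `B` has minimal `dl θ` among the full sets above `B` (this is the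
last clause of `exists_closure`), and `cl_of_min` applies.
If `j ≥ 1`: `d := dl t T - dl t B = z - t j` with an integer `z` (`dl_eq`, `dl_zero_int`), `d ≥ 0` (`B` closed for `t`), `d ≠ 0`
(`t j` is not an integer), `Q d` is an integer, so `d ≥ 1/Q`, and `dl θ T - dl θ B = d - (θ - t) j ≥ 1/Q - (θ - t) X > 0`,
contradiction. -/
theorem clt_small {G : Geo V C} {g : ℕ} {θ t : ℝ} {Q X : ℕ} (h0 : 0 ≤ t) (h1 : t ≤ θ) (h2 : θ ≤ 1) (hQ : 1 ≤ Q)
    (hQt : ∃ z : ℤ, (Q : ℝ) * t = z) (hint : ∀ j : ℕ, 1 ≤ j → j ≤ X → ∀ z : ℤ, (z : ℝ) ≠ t * j)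
    (hgap : (θ - t) * X < 1 / Q) {D B R : Rg V C} (hD : PPT G g θ D) (hB : ClT G g t D B) (hR : ClT G g θ D R)
    (hBR : B ≤ R) (hX : (g + 4) * (R.1.card + R.2.card) ≤ X) : ClT G g θ D B := by
  have hθ0 : 0 ≤ θ := h0.trans h1
  have ht1 : t ≤ 1 := h1.trans h2
  have hwθ := wt_Wt (g := g) hθ0 h2
  have hwt := wt_Wt (g := g) h0 ht1
  have hDt : PPT G g t D := ppt_mono h0 h1 h2 hD
  have hBD : B ≤ D := hB.1.1
  obtain ⟨T, hT, hBT, hTmin, hTdel⟩ := exists_closure hwθ hD hBD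
  have hTR : T ≤ R := hTmin R hR hBR
  have hpsi : psi G (g + 4) B ≤ psi G (g + 4) T := psi_mono hwt hDt hB hT.1 hBT
  have hpsi0 : 0 ≤ psi G (g + 4) B := psi_nonneg hwt hDt hB.1
  rcases le_or_gt (psi G (g + 4) T) (psi G (g + 4) B) with hle | hlt
  · obtain ⟨-, -, -, htr⟩ := psi_eq_trivial hwt hDt hB hT.1 hBT hle
    refine ⟨hB.1, fun Z hZ hBZ => ?_⟩
    rw [← htr]
    exact hTdel Z hZ hBZ
  · exfalso
    obtain ⟨j, hj⟩ : ∃ j : ℕ, psi G (g + 4) T - psi G (g + 4) B = (j : ℤ) :=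
      ⟨(psi G (g + 4) T - psi G (g + 4) B).toNat, (Int.toNat_of_nonneg (by linarith)).symm⟩
    have hj1 : 1 ≤ j := by omega
    have hup : psi G (g + 4) T ≤ ((g + 4 : ℕ) : ℤ) * (sz G T : ℤ) := psi_upper G (by omega) T
    have hjX : j ≤ X := by
      have e1 : sz G T ≤ T.1.card + T.2.card := sz_le G T
      have e2 : T.1.card ≤ R.1.card := Finset.card_le_card hTR.1
      have e3 : T.2.card ≤ R.2.card := Finset.card_le_card hTR.2
      have e4 : (g + 4) * sz G T ≤ (g + 4) * (R.1.card + R.2.card) :=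
        Nat.mul_le_mul_left _ (by omega)
      have e5 : (((g + 4) * sz G T : ℕ) : ℤ) ≤ (X : ℤ) := by exact_mod_cast e4.trans hX
      have e6 : (((g + 4) * sz G T : ℕ) : ℤ) = ((g + 4 : ℕ) : ℤ) * (sz G T : ℤ) := by push_cast; ring
      have e7 : (j : ℤ) ≤ (X : ℤ) := by linarith
      exact_mod_cast e7
    have hjr : (psi G (g + 4) T : ℝ) - (psi G (g + 4) B : ℝ) = (j : ℝ) := by exact_mod_cast hj
    obtain ⟨zT, hzT⟩ := dl_zero_int G g T
    obtain ⟨zB, hzB⟩ := dl_zero_int G g B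
    have hd : dl G g t T - dl G g t B = ((zT - zB : ℤ) : ℝ) - t * j := by
      rw [dl_eq G g t T, dl_eq G g t B, hzT, hzB, ← hjr]
      push_cast
      ring
    have hd0 : 0 ≤ dl G g t T - dl G g t B := by
      have : dl G g t B ≤ dl G g t T := hB.2 T hT.1 hBT
      linarith
    have hdne : dl G g t T - dl G g t B ≠ 0 := by
      rw [hd]
      exact sub_ne_zero.2 (hint j hj1 hjX _)
    have hdpos : 0 < dl G g t T - dl G g t B := lt_of_le_of_ne hd0 (Ne.symm hdne)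
    obtain ⟨zQ, hzQ⟩ := hQt
    have hQ0 : (0:ℝ) < Q := by exact_mod_cast hQ
    have hQd : (Q : ℝ) * (dl G g t T - dl G g t B) = (((Q : ℤ) * (zT - zB) - zQ * j : ℤ) : ℝ) := by
      rw [hd, mul_sub, ← mul_assoc, hzQ]
      push_cast
      ring
    have hQd0 : (0:ℝ) < (((Q : ℤ) * (zT - zB) - zQ * j : ℤ) : ℝ) := by
      rw [← hQd]
      exact mul_pos hQ0 hdpos
    have hQd1 : (1:ℝ) ≤ (((Q : ℤ) * (zT - zB) - zQ * j : ℤ) : ℝ) := by
      have : (0:ℤ) < ((Q : ℤ) * (zT - zB) - zQ * j : ℤ) := by exact_mod_cast hQd0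
      exact_mod_cast this
    have hd1 : 1 / (Q:ℝ) ≤ dl G g t T - dl G g t B := by
      rw [div_le_iff₀ hQ0, mul_comm, hQd]
      exact hQd1
    have h5 := dl_sub G g t θ T
    have h6 := dl_sub G g t θ B
    have h7 : dl G g θ T ≤ dl G g θ B := hTdel B hB.1 le_rfl
    have h8 : (θ - t) * (j:ℝ) ≤ (θ - t) * (X:ℝ) := by
      apply mul_le_mul_of_nonneg_left _ (by linarith)
      exact_mod_cast hjX
    have h9 : dl G g θ T - dl G g θ B = (dl G g t T - dl G g t B) - (θ - t) * j := by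
      rw [h5, h6, ← hjr]
      ring
    linarith

end Pool.Low
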