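import Pool.Agent.helper24.Low.Amal
import Pool.Agent.helper24.Low.Dom

/-!
# Module LA10 (AmalKK): the class `KK` is stable under semi-free amalgamation

Notation as in `Amal.lean`; `n = g + 1`, weights `wa g θ`, `wb g θ` (`wt_Wt`).  `Z` is full in `A ⊔ W`.

`ctl`.  The statement is symmetric in `A`, `W` (`SF.symm`, `sup_comm`, `inf_comm`), so we may assume `sz Z_A ≤ sz Z_W =: x`.
`sz Z ≤ sz Z_A + sz Z_W ≤ 2 x` (blocks: union; a vertex of `Z` in no block of `Z` is such a vertex of `Z_A` or `Z_W`).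
If `x = 0` then `f (sz Z) = f 0 = 0 ≤ dl Z` by `amal_pp`.  Let `x ≥ 1`, `N = crossInc Z_A B`, `H = Z_A ⊔ B`.  `amal_ineq`:
`dl Z ≥ dl Z_W + (a - 5n - 4) N + (dl H - dl B)`, `dl H ≥ dl B` by `del_le_sup` in `A`, and `f x ≤ dl Z_W`.
* `N ≥ 1`: `dl Z ≥ f x + 1 ≥ f (2x) ≥ f (sz Z)`.
* `H` not full in `A`: `hull_del_sup` (for `Z_A`, `B`, full in `A`) gives `dl (hull H) + 1 ≤ dl H`, and `dl B ≤ dl (hull H)`; as before.
* `N = 0` and `H` full.  `j := psi H - psi B = psi Z_A - psi Z_B` (`psi_sup_inf`, `N = 0`); `j ≥ 0` (`psi_mono`), and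
  `j ≤ psi Z_A ≤ (g+4) sz Z_A ≤ (g+4) x` (`psi_nonneg` for `Z_B`, `psi_upper`).
  - `j ≥ 1`: `dl H - dl B = z - θ j` with an integer `z` (`dl_eq`, `dl_zero_int`), it is `≥ 0` since `B` is closed in `A` and `≠ 0` by
    `irr`, so `step_gap` gives `f (2x) ≤ f x + (z - θ j) ≤ dl Z`.
  - `j = 0`: by `psi_eq_trivial` `H.2 = B.2` and `mm B v = 1` for all `v ∈ H.1 \ B.1`.  Then `sz Z ≤ sz Z_W`: `Z.2 = Z_W.2` since
    `Z_A.2 ⊆ B.2`; a vertex `v ∈ Z.1 \ W.1` is in `Z_A.1 \ B.1`, so it is in a block `e ∈ B.2`; as `N = 0`, `e ∈ Z_A.2 ⊆ Z.2`; so `v` is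
    not in the second set of `sz Z`.  Hence `f (sz Z) ≤ f (sz Z_W) ≤ dl Z_W ≤ dl Z`.

`big`.  If `Z_W` (or `Z_A`) has a block or more than `g` vertices, use `dl Z ≥ dl Z_W` (or `dl Z_A`).  Otherwise `Z` has no blocks,
`g < k := |Z.1| ≤ 2 g`, and `dl Z = wa * k - |ed Z.1| ≥ k (wa - 2g) ≥ (g+1) (64 (g+2)^2 - 1 - 2g) ≥ 64 (g+2)^2 g`
(`ed_card_le`).
-/

set_option autoImplicit false

namespace Pool.Low

open scoped Classical

variable {V C : Type} [DecidableEq V] [DecidableEq C]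

theorem amalkk_ge {G : Geo V C} {n : ℕ} {a b : ℝ} (h : Wt n a b) {A W : Rg V C} (hA : PP G n a b A)
    (hW : PP G n a b W) (hBA : Cl G n a b A (A ⊓ W)) (hBW : Cl G n a b W (A ⊓ W)) (hbip : Bip G (A ⊔ W).1)
    (hSF : SF G A W) {Z : Rg V C} (hZ : Full G n (A ⊔ W) Z) : del G a b (Z ⊓ W) ≤ del G a b Z := by
  have h1 := amal_ineq h hA hW hBA hBW hbip hSF hZ
  have h2 := del_le_sup h (full_restrict hZ le_sup_left) hBA
  have h4 : (0:ℝ) ≤ (a - 5 * n - 4) * (crossInc G (Z ⊓ A) (A ⊓ W) : ℝ) := by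
    apply mul_nonneg
    · have := h.big
      have hn : (0:ℝ) ≤ n := Nat.cast_nonneg n
      nlinarith
    · exact Nat.cast_nonneg _
  linarith

theorem amalkk_sz (G : Geo V C) (P Q : Rg V C) : sz G (P ⊔ Q) ≤ sz G P + sz G Q := by
  have h1 : (P ⊔ Q).2.card ≤ P.2.card + Q.2.card := by
    rw [Prod.snd_sup]; exact Finset.card_union_le _ _
  have h2 : ((P ⊔ Q).1.filter (fun v => mm G (P ⊔ Q) v = 0)).card
      ≤ (P.1.filter (fun v => mm G P v = 0)).card + (Q.1.filter (fun v => mm G Q v = 0)).card := by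
    refine le_trans (Finset.card_le_card ?_) (Finset.card_union_le _ _)
    intro v hv
    rw [Finset.mem_filter] at hv
    rw [Finset.mem_union, Finset.mem_filter, Finset.mem_filter]
    have hP : mm G P v ≤ mm G (P ⊔ Q) v := mm_mono (by rw [Prod.snd_sup]; exact Finset.subset_union_left) v
    have hQ : mm G Q v ≤ mm G (P ⊔ Q) v := mm_mono (by rw [Prod.snd_sup]; exact Finset.subset_union_right) v
    rcases mem_sup1.1 hv.1 with h | h
    · exact Or.inl ⟨h, by omega⟩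
    · exact Or.inr ⟨h, by omega⟩
  unfold sz
  omega

/-- The control inequality when the `W`-part is the larger one. -/
theorem amalkk_ctl {G : Geo V C} {g : ℕ} {θ : ℝ} {f : ℕ → ℝ} (h0 : 0 < θ) (h1 : θ < 1)
    (irr : ∀ j : ℕ, 1 ≤ j → ∀ z : ℤ, (z : ℝ) ≠ θ * j) (hf : Ctl θ (g + 4) f) {A W : Rg V C}
    (hA : KK G g θ f A) (hW : KK G g θ f W) (hBA : ClT G g θ A (A ⊓ W)) (hBW : ClT G g θ W (A ⊓ W))
    (hbip : Bip G (A ⊔ W).1) (hSF : SF G A W) {Z : Rg V C} (hZ : Full G (g + 1) (A ⊔ W) Z)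
    (hsz : sz G (Z ⊓ A) ≤ sz G (Z ⊓ W)) : f (sz G Z) ≤ dl G g θ Z := by
  have hwt : Wt (g + 1) (wa g θ) (wb g θ) := wt_Wt h0.le h1.le
  have hPA : PP G (g + 1) (wa g θ) (wb g θ) A := KK.ppt hf hA
  have hPW : PP G (g + 1) (wa g θ) (wb g θ) W := KK.ppt hf hW
  have hBA' : Cl G (g + 1) (wa g θ) (wb g θ) A (A ⊓ W) := hBA
  have hBW' : Cl G (g + 1) (wa g θ) (wb g θ) W (A ⊓ W) := hBW
  have hZA : Full G (g + 1) A (Z ⊓ A) := full_restrict hZ le_sup_left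
  have hZW : Full G (g + 1) W (Z ⊓ W) := full_restrict hZ le_sup_right
  have hineq := amal_ineq hwt hPA hPW hBA' hBW' hbip hSF hZ
  have hH := del_le_sup hwt hZA hBA'
  have hfx : f (sz G (Z ⊓ W)) ≤ del G (wa g θ) (wb g θ) (Z ⊓ W) := hW.ctl (Z ⊓ W) hZW
  have hszZ : sz G Z ≤ sz G (Z ⊓ A) + sz G (Z ⊓ W) := by
    have := amalkk_sz G (Z ⊓ A) (Z ⊓ W)
    rwa [amal_aux_union hZ.1] at this
  have hcoef : (1:ℝ) ≤ wa g θ - 5 * ((g + 1 : ℕ) : ℝ) - 4 := by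
    have := hwt.big
    have hn : (0:ℝ) ≤ (g:ℝ) := Nat.cast_nonneg g
    push_cast at this ⊢
    nlinarith
  change f (sz G Z) ≤ del G (wa g θ) (wb g θ) Z
  set x := sz G (Z ⊓ W) with hx
  set N := crossInc G (Z ⊓ A) (A ⊓ W) with hN
  set H := (Z ⊓ A) ⊔ (A ⊓ W) with hHdef
  have hNnn : (0:ℝ) ≤ (wa g θ - 5 * ((g + 1 : ℕ) : ℝ) - 4) * (N : ℝ) := by
    apply mul_nonneg (by linarith) (Nat.cast_nonneg _)
  rcases Nat.eq_zero_or_pos x with hx0 | hxpos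
  · have : sz G Z = 0 := by omega
    rw [this, hf.zero]
    exact (amal_pp hwt hPA hPW hBA' hBW' hbip hSF).2.2 Z hZ
  have hf2x : f (sz G Z) ≤ f (2 * x) := hf.mono (by omega)
  have hstep := hf.step_one x hxpos
  rcases Nat.eq_zero_or_pos N with hN0 | hNpos
  swap
  · have hN1 : (1:ℝ) ≤ (N:ℝ) := by exact_mod_cast hNpos
    have : (1:ℝ) ≤ (wa g θ - 5 * ((g + 1 : ℕ) : ℝ) - 4) * (N : ℝ) := by nlinarith
    linarith
  by_cases hHfull : Full G (g + 1) A H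
  swap
  · -- the union is not full
    have hHle : H ≤ A := sup_le inf_le_right inf_le_left
    have h2 := hull_del_sup hwt hZA hBA'.1
    have h3 : H ≤ hull G (g + 1) A H := le_hull hHle
    have h4 := hBA'.2 (hull G (g + 1) A H) (hull_full hHle) (le_trans le_sup_right h3)
    have h5 : 1 ≤ ((hull G (g + 1) A H).2 \ H.2).card := by
      rw [Nat.succ_le_iff, Finset.card_pos]
      have : ¬ ∀ c ∈ A.2, g + 1 + 1 ≤ (tr G H.1 c).card → c ∈ H.2 := fun hh => hHfull ⟨hHle, hh⟩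
      push Not at this
      obtain ⟨c, hc, hc1, hc2⟩ := this
      exact ⟨c, Finset.mem_sdiff.2 ⟨mem_hull2.2 ⟨hc, Or.inr hc1⟩, hc2⟩⟩
    have h6 : (1:ℝ) ≤ (((hull G (g + 1) A H).2 \ H.2).card : ℝ) := by exact_mod_cast h5
    linarith
  -- now `N = 0` and `H` is full
  have hBH : A ⊓ W ≤ H := le_sup_right
  have hpsi := psi_sup_inf G (g + 4) (Z ⊓ A) (A ⊓ W)
  rw [← hHdef, ← hN, hN0] at hpsi
  have hmono : psi G (g + 4) (A ⊓ W) ≤ psi G (g + 4) H := psi_mono hwt hPA hBA' hHfull hBH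
  have hnn : 0 ≤ psi G (g + 4) ((Z ⊓ A) ⊓ (A ⊓ W)) := psi_nonneg hwt hPA (full_inf hZA hBA'.1)
  have hup : psi G (g + 4) (Z ⊓ A) ≤ ((g + 4 : ℕ) : ℤ) * (sz G (Z ⊓ A) : ℤ) := psi_upper G (by omega) _
  obtain ⟨j, hj⟩ := Int.eq_ofNat_of_zero_le (sub_nonneg.2 hmono)
  rcases Nat.eq_zero_or_pos j with hj0 | hjpos
  · -- trivial extension
    have hle : psi G (g + 4) H ≤ psi G (g + 4) (A ⊓ W) := by
      rw [hj0] at hj; push_cast at hj; omega
    obtain ⟨t1, t2, _, _⟩ := psi_eq_trivial hwt hPA hBA' hHfull hBH hle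
    have hZ2 : Z.2 ⊆ (Z ⊓ W).2 := by
      intro c hc
      rw [mem_inf2]
      refine ⟨hc, ?_⟩
      rcases mem_sup2.1 (hZ.1.2 hc) with h | h
      · have : c ∈ H.2 := mem_sup2.2 (Or.inl (mem_inf2.2 ⟨hc, h⟩))
        rw [t1] at this
        exact (mem_inf2.1 this).2
      · exact h
    have hszle : sz G Z ≤ sz G (Z ⊓ W) := by
      unfold sz
      apply Nat.add_le_add (Finset.card_le_card hZ2)
      apply Finset.card_le_card
      intro v hv
      rw [Finset.mem_filter] at hv ⊢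
      have hvW : v ∈ W.1 := by
        by_contra hvW
        have hvA : v ∈ A.1 := by
          rcases mem_sup1.1 (hZ.1.1 hv.1) with h | h
          · exact h
          · exact absurd h hvW
        have hvZA : v ∈ (Z ⊓ A).1 := mem_inf1.2 ⟨hv.1, hvA⟩
        have hvB : v ∉ (A ⊓ W).1 := fun hh => hvW (mem_inf1.1 hh).2
        have hm := t2 v (mem_sup1.2 (Or.inl hvZA)) hvB
        obtain ⟨e, he, hinc⟩ := mm_pos_iff.1 (le_of_eq hm.symm)
        have heZ : e ∈ (Z ⊓ A).2 := by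
          by_contra hcon
          have hmem : (v, e) ∈ xi G (Z ⊓ A) (A ⊓ W) := mem_xi.2 ⟨hvZA, he, hvB, hcon, hinc⟩
          have : 0 < crossInc G (Z ⊓ A) (A ⊓ W) := by
            unfold crossInc
            exact Nat.add_pos_left (Finset.card_pos.2 ⟨_, hmem⟩) _
          omega
        have := mm_eq_zero_iff.1 hv.2 e (mem_inf2.1 heZ).1
        exact this hinc
      refine ⟨mem_inf1.2 ⟨hv.1, hvW⟩, ?_⟩
      have : mm G (Z ⊓ W) v ≤ mm G Z v := mm_mono (inf_le_left : Z ⊓ W ≤ Z).2 v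
      omega
    have : f (sz G Z) ≤ f (sz G (Z ⊓ W)) := hf.mono hszle
    linarith
  · -- `j ≥ 1`
    obtain ⟨z1, hz1⟩ := dl_zero_int G g H
    obtain ⟨z2, hz2⟩ := dl_zero_int G g (A ⊓ W)
    have e1 := dl_eq G g θ H
    have e2 := dl_eq G g θ (A ⊓ W)
    have hjr : (psi G (g + 4) H : ℝ) - (psi G (g + 4) (A ⊓ W) : ℝ) = (j : ℝ) := by exact_mod_cast hj
    have e3 : dl G g θ H - dl G g θ (A ⊓ W) = ((z1 - z2 : ℤ) : ℝ) - θ * j := by
      rw [e1, e2, hz1, hz2, ← hjr]; push_cast; ring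
    have hpos : 0 < ((z1 - z2 : ℤ) : ℝ) - θ * j := by
      have h5 : 0 ≤ ((z1 - z2 : ℤ) : ℝ) - θ * j := by
        rw [← e3]; exact sub_nonneg.2 hH
      have h6 := irr j hjpos (z1 - z2)
      rcases lt_or_eq_of_le h5 with h7 | h7
      · exact h7
      · exact absurd (by linarith) h6
    have hjle : j ≤ (g + 4) * x := by
      have h7 : (j : ℤ) ≤ ((g + 4 : ℕ) : ℤ) * (sz G (Z ⊓ A) : ℤ) := by
        have : (j : ℤ) = psi G (g + 4) (Z ⊓ A) - psi G (g + 4) ((Z ⊓ A) ⊓ (A ⊓ W)) := by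
          push_cast at hpsi
          omega
        omega
      have h8 : j ≤ (g + 4) * sz G (Z ⊓ A) := by exact_mod_cast h7
      exact le_trans h8 (Nat.mul_le_mul_left _ hsz)
    have h9 := hf.step_gap x hxpos j hjpos hjle (z1 - z2) hpos
    have e3' : del G (wa g θ) (wb g θ) H - del G (wa g θ) (wb g θ) (A ⊓ W) = ((z1 - z2 : ℤ) : ℝ) - θ * j := e3
    linarith


theorem amal_kk {G : Geo V C} {g : ℕ} {θ : ℝ} {f : ℕ → ℝ} (h0 : 0 < θ) (h1 : θ < 1)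
    (irr : ∀ j : ℕ, 1 ≤ j → ∀ z : ℤ, (z : ℝ) ≠ θ * j) (hf : Ctl θ (g + 4) f) {A W : Rg V C}
    (hA : KK G g θ f A) (hW : KK G g θ f W) (hBA : ClT G g θ A (A ⊓ W)) (hBW : ClT G g θ W (A ⊓ W))
    (hbip : Bip G (A ⊔ W).1) (hSF : SF G A W) : KK G g θ f (A ⊔ W) := by
  have hwt : Wt (g + 1) (wa g θ) (wb g θ) := wt_Wt h0.le h1.le
  have hPA : PP G (g + 1) (wa g θ) (wb g θ) A := KK.ppt hf hA
  have hPW : PP G (g + 1) (wa g θ) (wb g θ) W := KK.ppt hf hW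
  have hBA' : Cl G (g + 1) (wa g θ) (wb g θ) A (A ⊓ W) := hBA
  have hBW' : Cl G (g + 1) (wa g θ) (wb g θ) W (A ⊓ W) := hBW
  have sBA : Cl G (g + 1) (wa g θ) (wb g θ) A (W ⊓ A) := by rw [inf_comm]; exact hBA'
  have sBW : Cl G (g + 1) (wa g θ) (wb g θ) W (W ⊓ A) := by rw [inf_comm]; exact hBW'
  have sbip : Bip G (W ⊔ A).1 := by rw [sup_comm]; exact hbip
  refine ⟨hbip, amal_ls hwt hPA hPW hBA' hBW' hSF, ?_, ?_⟩
  · intro Z hZ hcase
    have sZ : Full G (g + 1) (W ⊔ A) Z := by rw [sup_comm]; exact hZ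
    have hgW := amalkk_ge hwt hPA hPW hBA' hBW' hbip hSF hZ
    have hgA := amalkk_ge hwt hPW hPA sBW sBA sbip hSF.symm sZ
    change _ ≤ del G (wa g θ) (wb g θ) Z
    by_cases c1 : (Z ⊓ W).2.Nonempty ∨ g < (Z ⊓ W).1.card
    · exact le_trans (hW.big (Z ⊓ W) (full_restrict hZ le_sup_right) c1) hgW
    by_cases c2 : (Z ⊓ A).2.Nonempty ∨ g < (Z ⊓ A).1.card
    · exact le_trans (hA.big (Z ⊓ A) (full_restrict hZ le_sup_left) c2) hgA
    push Not at c1 c2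
    obtain ⟨c1a, c1b⟩ := c1
    obtain ⟨c2a, c2b⟩ := c2
    have hun := amal_aux_union hZ.1
    have hZ2 : Z.2 = ∅ := by
      rw [← hun, Prod.snd_sup, c1a, c2a]
      rfl
    have hk : g < Z.1.card := by
      rcases hcase with h | h
      · rw [hZ2] at h; exact absurd h Finset.not_nonempty_empty
      · exact h
    have hk2 : Z.1.card ≤ 2 * g := by
      have : Z.1.card ≤ (Z ⊓ A).1.card + (Z ⊓ W).1.card := by
        conv_lhs => rw [← hun, Prod.fst_sup]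
        exact Finset.card_union_le _ _
      omega
    have hmm : ∀ v, mm G Z v = 0 := by
      intro v; unfold mm; rw [hZ2]; simp
    have hm2 : ∀ u v, m2 G Z u v = 0 := by
      intro u v; unfold m2; rw [hZ2]; simp
    have hdel : del G (wa g θ) (wb g θ) Z = wa g θ * (Z.1.card : ℝ) - ((ed G Z.1).card : ℝ) := by
      unfold del
      simp only [hmm, hm2, hZ2, Nat.cast_zero, sub_zero, Finset.sum_const, Finset.card_empty, mul_zero, add_zero,
        nsmul_eq_mul, mul_one]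
    rw [hdel]
    have hed : ((ed G Z.1).card : ℝ) ≤ (Z.1.card : ℝ) ^ 2 := by exact_mod_cast ed_card_le G Z.1
    have hk' : (g : ℝ) + 1 ≤ (Z.1.card : ℝ) := by exact_mod_cast hk
    have hk2' : (Z.1.card : ℝ) ≤ 2 * (g : ℝ) := by exact_mod_cast hk2
    have hg0 : (0:ℝ) ≤ (g:ℝ) := Nat.cast_nonneg g
    have hwa : 64 * ((g : ℝ) + 2) ^ 2 - 1 ≤ wa g θ := by unfold wa; linarith
    set k : ℝ := (Z.1.card : ℝ) with hkdef
    have s1 : (g + 1 : ℝ) * (64 * ((g : ℝ) + 2) ^ 2 - 1 - 2 * g) ≤ k * (wa g θ - k) := by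
      apply mul_le_mul hk' (by linarith) (by nlinarith) (by linarith)
    nlinarith
  · intro Z hZ
    rcases le_total (sz G (Z ⊓ A)) (sz G (Z ⊓ W)) with hle | hle
    · exact amalkk_ctl h0 h1 irr hf hA hW hBA hBW hbip hSF hZ hle
    · have sZ : Full G (g + 1) (W ⊔ A) Z := by rw [sup_comm]; exact hZ
      exact amalkk_ctl h0 h1 irr hf hW hA sBW sBA sbip hSF.symm sZ hle

end Pool.Low
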