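import Pool.Agent.helper24.Low.ML1
import Pool.Agent.helper24.Low.AmalKK

/-!
# Module ML2: multi-level semi-free amalgamation

`amalL`.  `Ok S (A ⊔ W)`: for `v ∈ A \ W` and `c ∈ W.2` with `inc v c` we have `c ∈ A.2` (`SFH.left`), so `Ok A` applies; similarly for
`v ∈ W \ A`; root, parents, levels are clear.
Let `e ∈ (A ⊔ W).2` with `lev e ∈ act`.
* `e ∈ A.2 ∩ W.2`: `reg S (A ⊔ W) e = reg S A e ⊔ reg S W e` (`reg_sup`), `reg S A e ⊓ reg S W e = reg S (A ⊓ W) e` (`reg_inf`).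
  `SF S.toGeo (reg S A e) (reg S W e)` follows from `SFH` (`mem_reg1`, `mem_reg2`; a child `c` of `e` in `A.2 \ W.2` ...).  Apply
  `amal_kk` and `amal_cl` (`KL.ppt` at `t = θ`).
* `e ∈ A.2 \ W.2`: no vertex of `W \ A` is in `e` (`SFH.right`), and no block of `W.2 \ A.2` is a child of `e` (its parent would be in
  `W.2`: `Ok W`), so `reg S (A ⊔ W) e = reg S A e`; `KK` from `A`, closedness is `cl_self`.
* `e ∈ W.2 \ A.2`: symmetric.

`amalL_sub`.  `A ⊓ B' = A ⊓ W` (as `A ⊓ W ≤ B' ≤ W`).  `B'` is in `KL` (`KL.full`), `A ⊓ W` is closed in `B'` (`clL_of_le`), `SFH A B'`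
follows from `SFH A W`; so `amalL` applied to `A, B'` gives `KL (A ⊔ B')` and `B'` closed in `A ⊔ B'`.  Then apply `amalL` to
`A ⊔ B', W`: the intersection is `(A ⊓ W) ⊔ B' = B'`; `SFH (A ⊔ B') W`: `left`: a vertex of `(A ⊔ B') \ W` is in `A \ W`, a block of
`W \ (A ⊔ B')` is in `W \ A`; `right`: a vertex of `W \ (A ⊔ B')` is in `W \ A`, a block of `(A ⊔ B') \ W` is in `A \ W`; `edge`:
`u ∈ A \ W`, `v ∈ W \ (A ⊔ B')`, `e ∈ B'.2` (the blocks of the intersection) containing `u`: `e ∈ A.2` by `SFH.left`, so `SFH.edge` gives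
`c ∈ A.2 ∩ W.2 ⊆ B'.2`.
-/

set_option autoImplicit false

namespace Pool.Low

open scoped Classical

variable {V C : Type} [DecidableEq V] [DecidableEq C]
variable {P : Par} {act : Set ℕ} {S : Sys V C}

theorem ml2_sf {A W : Rg V C} (hSF : SFH act S A W) {e : C} (heA : e ∈ A.2) (heW : e ∈ W.2)
    (hact : S.lev e ∈ act) : SF S.toGeo (reg S A e) (reg S W e) where
  left := by
    intro v hv hv' c hc hc' hinc
    rw [mem_reg1] at hv hv'
    rw [mem_reg2] at hc hc'
    exact hSF.left v hv.1 (fun h => hv' ⟨h, hv.2⟩) c hc.1 (fun h => hc' ⟨h, hc.2⟩) hinc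
  right := by
    intro v hv hv' c hc hc' hinc
    rw [mem_reg1] at hv hv'
    rw [mem_reg2] at hc hc'
    exact hSF.right v hv.1 (fun h => hv' ⟨h, hv.2⟩) c hc.1 (fun h => hc' ⟨h, hc.2⟩) hinc
  edge := by
    intro u hu hu' v hv hv' hE
    rw [mem_reg1] at hu hu' hv hv'
    obtain ⟨c, h1, h2, h3, h4, h5, h6⟩ := hSF.edge u hu.1 (fun h => hu' ⟨h, hu.2⟩) v hv.1
      (fun h => hv' ⟨h, hv.2⟩) hE e heA heW hact hu.2 hv.2
    exact ⟨c, mem_reg2.2 ⟨h1, h3, h4⟩, mem_reg2.2 ⟨h2, h3, h4⟩, h5, h6⟩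

theorem ml2_ok {A W : Rg V C} (hokA : Ok S A) (hokW : Ok S W) (hbip : Bip S.toGeo (A ⊔ W).1)
    (hSF : SFH act S A W) : Ok S (A ⊔ W) where
  root_mem := mem_sup2.2 (Or.inl hokA.root_mem)
  par_mem := by
    intro c hc
    rcases mem_sup2.1 hc with h | h
    · exact mem_sup2.2 (Or.inl (hokA.par_mem c h))
    · exact mem_sup2.2 (Or.inr (hokW.par_mem c h))
  lev_root := hokA.lev_root
  par_root := hokA.par_root
  lev_par := by
    intro c hc hne
    rcases mem_sup2.1 hc with h | h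
    · exact hokA.lev_par c h hne
    · exact hokW.lev_par c h hne
  inc_root := by
    intro v hv
    rcases mem_sup1.1 hv with h | h
    · exact hokA.inc_root v h
    · exact hokW.inc_root v h
  inc_par := by
    intro v hv c hc hinc
    by_cases hvA : v ∈ A.1
    · by_cases hcA : c ∈ A.2
      · exact hokA.inc_par v hvA c hcA hinc
      · have hcW : c ∈ W.2 := by
          rcases mem_sup2.1 hc with h | h
          · exact absurd h hcA
          · exact h
        by_cases hvW : v ∈ W.1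
        · exact hokW.inc_par v hvW c hcW hinc
        · exact absurd hinc (hSF.left v hvA hvW c hcW hcA)
    · have hvW : v ∈ W.1 := by
        rcases mem_sup1.1 hv with h | h
        · exact absurd h hvA
        · exact h
      by_cases hcW : c ∈ W.2
      · exact hokW.inc_par v hvW c hcW hinc
      · have hcA : c ∈ A.2 := by
          rcases mem_sup2.1 hc with h | h
          · exact h
          · exact absurd h hcW
        exact absurd hinc (hSF.right v hvW hvA c hcA hcW)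
  bip := hbip

theorem ml2_reg {A W : Rg V C} (hokW : Ok S W) (hSF : SFH act S A W) {e : C} (heA : e ∈ A.2) (heW : e ∉ W.2) :
    reg S (A ⊔ W) e = reg S A e := by
  apply rg_ext
  · intro v
    rw [mem_reg1, mem_reg1]
    constructor
    · rintro ⟨h1, h2⟩
      refine ⟨?_, h2⟩
      by_contra hvA
      have hvW : v ∈ W.1 := by
        rcases mem_sup1.1 h1 with h | h
        · exact absurd h hvA
        · exact h
      exact hSF.right v hvW hvA e heA heW h2
    · rintro ⟨h1, h2⟩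
      exact ⟨mem_sup1.2 (Or.inl h1), h2⟩
  · intro c
    rw [mem_reg2, mem_reg2]
    constructor
    · rintro ⟨h1, h2, h3⟩
      refine ⟨?_, h2, h3⟩
      rcases mem_sup2.1 h1 with h | h
      · exact h
      · exfalso
        apply heW
        rw [← h2]
        exact hokW.par_mem c h
    · rintro ⟨h1, h2⟩
      exact ⟨mem_sup2.2 (Or.inl h1), h2⟩

theorem ml2_main (hP : Good0 P) {A W : Rg V C} (hA : KL P act S A) (hW : KL P act S W)
    (hBA : ClL P act P.θ S A (A ⊓ W)) (hBW : ClL P act P.θ S W (A ⊓ W)) (hbip : Bip S.toGeo (A ⊔ W).1)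
    (hSF : SFH act S A W) :
    KL P act S (A ⊔ W) ∧ ClL P act P.θ S (A ⊔ W) W := by
  have hbe : ∀ e, Bip S.toGeo (reg S A e ⊔ reg S W e).1 := by
    intro e
    rw [← reg_sup]
    exact bip_mono (Finset.filter_subset _ _) hbip
  have hreg' : ∀ e ∈ W.2, e ∉ A.2 → reg S (A ⊔ W) e = reg S W e := by
    intro e h1 h2
    rw [sup_comm]
    exact ml2_reg hA.ok hSF.symm h1 h2
  have cA : ∀ e ∈ A.2, e ∈ W.2 → S.lev e ∈ act →
      ClT S.toGeo (P.gs (S.lev e)) P.θ (reg S A e) (reg S A e ⊓ reg S W e) := by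
    intro e h1 h2 h3
    rw [← reg_inf]
    exact hBA.cl e (mem_inf2.2 ⟨h1, h2⟩) h3
  have cW : ∀ e ∈ A.2, e ∈ W.2 → S.lev e ∈ act →
      ClT S.toGeo (P.gs (S.lev e)) P.θ (reg S W e) (reg S A e ⊓ reg S W e) := by
    intro e h1 h2 h3
    rw [← reg_inf]
    exact hBW.cl e (mem_inf2.2 ⟨h1, h2⟩) h3
  refine ⟨⟨ml2_ok hA.ok hW.ok hbip hSF, ?_⟩, ⟨le_sup_right, hW.ok, ?_⟩⟩
  · intro e he hact
    by_cases heA : e ∈ A.2
    · by_cases heW : e ∈ W.2
      · rw [reg_sup]
        exact amal_kk hP.θ_pos hP.θ_lt hP.irr (hP.ctl _) (hA.kk e heA hact) (hW.kk e heW hact)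
          (cA e heA heW hact) (cW e heA heW hact) (hbe e) (ml2_sf hSF heA heW hact)
      · rw [ml2_reg hW.ok hSF heA heW]
        exact hA.kk e heA hact
    · have heW : e ∈ W.2 := by
        rcases mem_sup2.1 he with h | h
        · exact absurd h heA
        · exact h
      rw [hreg' e heW heA]
      exact hW.kk e heW hact
  · intro e heW hact
    by_cases heA : e ∈ A.2
    · rw [reg_sup]
      have hwt : Wt (P.gs (S.lev e) + 1) (wa (P.gs (S.lev e)) P.θ) (wb (P.gs (S.lev e)) P.θ) :=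
        wt_Wt hP.θ_pos.le hP.θ_lt.le
      exact (amal_cl hwt (KK.ppt (hP.ctl _) (hA.kk e heA hact)) (KK.ppt (hP.ctl _) (hW.kk e heW hact))
        (cA e heA heW hact) (cW e heA heW hact) (hbe e) (ml2_sf hSF heA heW hact)).2
    · rw [hreg' e heW heA]
      exact cl_self _ _ _ _ _

theorem amalL (hP : Good0 P) {A W : Rg V C} (hA : KL P act S A) (hW : KL P act S W)
    (hBA : ClL P act P.θ S A (A ⊓ W)) (hBW : ClL P act P.θ S W (A ⊓ W)) (hbip : Bip S.toGeo (A ⊔ W).1)
    (hSF : SFH act S A W) :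
    KL P act S (A ⊔ W) ∧ ClL P act P.θ S (A ⊔ W) A ∧ ClL P act P.θ S (A ⊔ W) W := by
  obtain ⟨h1, h2⟩ := ml2_main hP hA hW hBA hBW hbip hSF
  have h3 := (ml2_main (A := W) (W := A) hP hW hA (by rw [inf_comm]; exact hBW) (by rw [inf_comm]; exact hBA)
    (by rw [sup_comm]; exact hbip) hSF.symm).2
  rw [sup_comm] at h3
  exact ⟨h1, h3, h2⟩

theorem amalL_sub (hP : Good0 P) {A W : Rg V C} (hA : KL P act S A) (hW : KL P act S W)
    (hBA : ClL P act P.θ S A (A ⊓ W)) (hBW : ClL P act P.θ S W (A ⊓ W)) (hbip : Bip S.toGeo (A ⊔ W).1)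
    (hSF : SFH act S A W) {B' : Rg V C} (hB' : ClL P act P.θ S W B') (hle : A ⊓ W ≤ B') :
    ClL P act P.θ S (A ⊔ W) (A ⊔ B') := by
  have e1 : A ⊓ B' = A ⊓ W := le_antisymm (inf_le_inf_left A hB'.le) (le_inf inf_le_left hle)
  have kB : KL P act S B' := KL.full hW hB'.fullL
  have cB : ClL P act P.θ S B' (A ⊓ W) := clL_of_le hBW hB'.fullL hle
  have nW : ∀ v ∈ A.1, v ∉ B'.1 → v ∉ W.1 := fun v h1 h2 h3 => h2 (hle.1 (mem_inf1.2 ⟨h1, h3⟩))
  have nW2 : ∀ c ∈ A.2, c ∉ B'.2 → c ∉ W.2 := fun c h1 h2 h3 => h2 (hle.2 (mem_inf2.2 ⟨h1, h3⟩))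
  have s1 : SFH act S A B' := by
    refine ⟨?_, ?_, ?_⟩
    · intro v hv hv' c hc hc'
      exact hSF.left v hv (nW v hv hv') c (hB'.le.2 hc) hc'
    · intro v hv hv' c hc hc'
      exact hSF.right v (hB'.le.1 hv) hv' c hc (nW2 c hc hc')
    · intro u hu hu' v hv hv' hE e heA heB hact h1 h2
      obtain ⟨c, c1, c2, c3⟩ := hSF.edge u hu (nW u hu hu') v (hB'.le.1 hv) hv' hE e heA (hB'.le.2 heB) hact h1 h2
      exact ⟨c, c1, hle.2 (mem_inf2.2 ⟨c1, c2⟩), c3⟩
  have b1 : Bip S.toGeo (A ⊔ B').1 := bip_mono (sup_le_sup_left hB'.le A).1 hbip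
  obtain ⟨k1, _, k3⟩ := amalL hP hA kB (by rw [e1]; exact hBA) (by rw [e1]; exact cB) b1 s1
  have e2 : (A ⊔ B') ⊓ W = B' := by
    rw [inf_sup_right, inf_eq_left.2 hB'.le]
    exact sup_eq_right.2 hle
  have e3 : (A ⊔ B') ⊔ W = A ⊔ W := by
    rw [sup_assoc, sup_eq_right.2 hB'.le]
  have s2 : SFH act S (A ⊔ B') W := by
    refine ⟨?_, ?_, ?_⟩
    · intro v hv hv' c hc hc'
      have hvA : v ∈ A.1 := by
        rcases mem_sup1.1 hv with h | h
        · exact h
        · exact absurd (hB'.le.1 h) hv'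
      exact hSF.left v hvA hv' c hc (fun h => hc' (mem_sup2.2 (Or.inl h)))
    · intro v hv hv' c hc hc'
      have hcA : c ∈ A.2 := by
        rcases mem_sup2.1 hc with h | h
        · exact h
        · exact absurd (hB'.le.2 h) hc'
      exact hSF.right v hv (fun h => hv' (mem_sup1.2 (Or.inl h))) c hcA hc'
    · intro u hu hu' v hv hv' hE e he heW hact h1 h2
      have huA : u ∈ A.1 := by
        rcases mem_sup1.1 hu with h | h
        · exact h
        · exact absurd (hB'.le.1 h) hu'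
      have heA : e ∈ A.2 := by
        by_contra hcon
        exact hSF.left u huA hu' e heW hcon h1
      obtain ⟨c, c1, c2, c3⟩ := hSF.edge u huA hu' v hv (fun h => hv' (mem_sup1.2 (Or.inl h))) hE e heA heW hact h1 h2
      exact ⟨c, mem_sup2.2 (Or.inl c1), c2, c3⟩
  have h4 := (amalL hP k1 hW (by rw [e2]; exact k3) (by rw [e2]; exact hB') (by rw [e3]; exact hbip) s2).2.1
  rw [e3] at h4
  exact h4

end Pool.Low
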