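import Pool.Agent.helper24.Low.Tr2
import Pool.Agent.helper24.Low.ML2

/-!
# Module AM1: the amalgam of two systems

`W` is a region of `S1`, `A` a region of `S2`, `B ≤ A` a legal subregion with an embedding `(fv, fc)` of `B` into `W`, and `ex1`, `ex2`
prescribe the cross edges between vertices of `W` outside `fv(B)` and vertices of `A \ B`.  The amalgam is the following system on
`V1 ⊕ V2`, `C1 ⊕ C2`:
* `col (inl v) = S1.col v`, `col (inr v) = S2.col v`;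
* `E (inl u) (inl v) = S1.E u v`, `E (inr u) (inr v) = S2.E u v`,
  `E (inl u) (inr v) = (∃ u' ∈ B.1, fv u' = u ∧ S2.E u' v) ∨ ((¬ ∃ u' ∈ B.1, fv u' = u) ∧ ex1 u v)`,
  `E (inr v) (inl u) = (∃ u' ∈ B.1, fv u' = u ∧ S2.E v u') ∨ ((¬ ∃ u' ∈ B.1, fv u' = u) ∧ ex2 v u)`;
* `inc (inl v) (inl c) = S1.inc v c`, `inc (inr v) (inr c) = S2.inc v c`, `inc (inl v) (inr c) = ∃ v' ∈ B.1, fv v' = v ∧ S2.inc v' c`,
  `inc (inr v) (inl c) = ∃ c' ∈ B.2, fc c' = c ∧ S2.inc v c'`;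
* `lev (inl c) = S1.lev c`, `lev (inr c) = S2.lev c`, `par (inl c) = inl (S1.par c)`,
  `par (inr c) = hc (S2.par c)` with `hc c = if c ∈ B.2 then inl (fc c) else inr c`; `root = inl S1.root`.
`hv v = if v ∈ B.1 then inl (fv v) else inr v`.
All claims are checked by cases.  (`Ok.par_mem` for `B` is used for `par`: if `c ∈ B.2` then `S2.par c ∈ B.2`.)
-/

set_option autoImplicit false

namespace Pool.Low

open scoped Classical

section glue

variable {V1 C1 V2 C2 : Type}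

/-- the vertex map of the glued system -/
noncomputable def glueHv (B : Rg V2 C2) (fv : V2 → V1) (v : V2) : V1 ⊕ V2 :=
  if v ∈ B.1 then Sum.inl (fv v) else Sum.inr v

/-- the block map of the glued system -/
noncomputable def glueHc (B : Rg V2 C2) (fc : C2 → C1) (c : C2) : C1 ⊕ C2 :=
  if c ∈ B.2 then Sum.inl (fc c) else Sum.inr c

theorem glueHv_pos {B : Rg V2 C2} {fv : V2 → V1} {v : V2} (h : v ∈ B.1) :
    glueHv B fv v = Sum.inl (fv v) := if_pos h

theorem glueHv_neg {B : Rg V2 C2} {fv : V2 → V1} {v : V2} (h : v ∉ B.1) :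
    glueHv B fv v = Sum.inr v := if_neg h

theorem glueHc_pos {B : Rg V2 C2} {fc : C2 → C1} {c : C2} (h : c ∈ B.2) :
    glueHc B fc c = Sum.inl (fc c) := if_pos h

theorem glueHc_neg {B : Rg V2 C2} {fc : C2 → C1} {c : C2} (h : c ∉ B.2) :
    glueHc B fc c = Sum.inr c := if_neg h

/-- edges of the glued system -/
def glueE (S1 : Sys V1 C1) (S2 : Sys V2 C2) (B : Rg V2 C2) (fv : V2 → V1)
    (ex1 : V1 → V2 → Prop) (ex2 : V2 → V1 → Prop) : V1 ⊕ V2 → V1 ⊕ V2 → Prop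
  | Sum.inl u, Sum.inl v => S1.E u v
  | Sum.inr u, Sum.inr v => S2.E u v
  | Sum.inl u, Sum.inr v => (∃ u' ∈ B.1, fv u' = u ∧ S2.E u' v) ∨ ((¬ ∃ u' ∈ B.1, fv u' = u) ∧ ex1 u v)
  | Sum.inr v, Sum.inl u => (∃ u' ∈ B.1, fv u' = u ∧ S2.E v u') ∨ ((¬ ∃ u' ∈ B.1, fv u' = u) ∧ ex2 v u)

/-- incidences of the glued system -/
def glueInc (S1 : Sys V1 C1) (S2 : Sys V2 C2) (B : Rg V2 C2) (fv : V2 → V1) (fc : C2 → C1) :
    V1 ⊕ V2 → C1 ⊕ C2 → Prop
  | Sum.inl v, Sum.inl c => S1.inc v c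
  | Sum.inr v, Sum.inr c => S2.inc v c
  | Sum.inl v, Sum.inr c => ∃ v' ∈ B.1, fv v' = v ∧ S2.inc v' c
  | Sum.inr v, Sum.inl c => ∃ c' ∈ B.2, fc c' = c ∧ S2.inc v c'

/-- the glued system -/
noncomputable def glueSys (S1 : Sys V1 C1) (S2 : Sys V2 C2) (B : Rg V2 C2) (fv : V2 → V1)
    (fc : C2 → C1) (ex1 : V1 → V2 → Prop) (ex2 : V2 → V1 → Prop) : Sys (V1 ⊕ V2) (C1 ⊕ C2) where
  col := Sum.elim S1.col S2.col
  E := glueE S1 S2 B fv ex1 ex2
  inc := glueInc S1 S2 B fv fc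
  lev := Sum.elim S1.lev S2.lev
  par := Sum.elim (fun c => Sum.inl (S1.par c)) (fun c => glueHc B fc (S2.par c))
  root := Sum.inl S1.root

theorem glue_emb1 (S1 : Sys V1 C1) (W : Rg V1 C1) (S2 : Sys V2 C2) (B : Rg V2 C2) (fv : V2 → V1)
    (fc : C2 → C1) (ex1 : V1 → V2 → Prop) (ex2 : V2 → V1 → Prop) :
    IsEmb S1 W (glueSys S1 S2 B fv fc ex1 ex2) Sum.inl Sum.inl where
  inj_v := Sum.inl_injective.injOn
  inj_c := Sum.inl_injective.injOn
  col _ _ := rfl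
  edge _ _ _ _ := Iff.rfl
  inc _ _ _ _ := Iff.rfl
  lev _ _ := rfl
  par _ _ := rfl
  root := rfl

theorem glue_emb2 {S1 : Sys V1 C1} {S2 : Sys V2 C2} {A B : Rg V2 C2} {fv : V2 → V1}
    {fc : C2 → C1} (ex1 : V1 → V2 → Prop) (ex2 : V2 → V1 → Prop) (hB : Ok S2 B)
    (hemb : IsEmb S2 B S1 fv fc) :
    IsEmb S2 A (glueSys S1 S2 B fv fc ex1 ex2) (glueHv B fv) (glueHc B fc) where
  inj_v := by
    intro v _ w _ h
    by_cases h1 : v ∈ B.1 <;> by_cases h2 : w ∈ B.1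
    · rw [glueHv_pos h1, glueHv_pos h2] at h
      exact hemb.inj_v h1 h2 (Sum.inl_injective h)
    · rw [glueHv_pos h1, glueHv_neg h2] at h
      exact absurd h (by simp)
    · rw [glueHv_neg h1, glueHv_pos h2] at h
      exact absurd h (by simp)
    · rw [glueHv_neg h1, glueHv_neg h2] at h
      exact Sum.inr_injective h
  inj_c := by
    intro v _ w _ h
    by_cases h1 : v ∈ B.2 <;> by_cases h2 : w ∈ B.2
    · rw [glueHc_pos h1, glueHc_pos h2] at h
      exact hemb.inj_c h1 h2 (Sum.inl_injective h)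
    · rw [glueHc_pos h1, glueHc_neg h2] at h
      exact absurd h (by simp)
    · rw [glueHc_neg h1, glueHc_pos h2] at h
      exact absurd h (by simp)
    · rw [glueHc_neg h1, glueHc_neg h2] at h
      exact Sum.inr_injective h
  col := by
    intro v _
    by_cases h : v ∈ B.1
    · rw [glueHv_pos h]
      exact hemb.col v h
    · rw [glueHv_neg h]
      rfl
  edge := by
    intro u _ v _
    by_cases h1 : u ∈ B.1 <;> by_cases h2 : v ∈ B.1
    · rw [glueHv_pos h1, glueHv_pos h2]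
      exact hemb.edge u h1 v h2
    · rw [glueHv_pos h1, glueHv_neg h2]
      constructor
      · rintro (⟨u', hu', he, hE⟩ | ⟨hn, _⟩)
        · rwa [← hemb.inj_v hu' h1 he]
        · exact absurd ⟨u, h1, rfl⟩ hn
      · intro hE
        exact Or.inl ⟨u, h1, rfl, hE⟩
    · rw [glueHv_neg h1, glueHv_pos h2]
      constructor
      · rintro (⟨u', hu', he, hE⟩ | ⟨hn, _⟩)
        · rwa [← hemb.inj_v hu' h2 he]
        · exact absurd ⟨v, h2, rfl⟩ hn
      · intro hE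
        exact Or.inl ⟨v, h2, rfl, hE⟩
    · rw [glueHv_neg h1, glueHv_neg h2]
      exact Iff.rfl
  inc := by
    intro v _ c _
    by_cases h1 : v ∈ B.1 <;> by_cases h2 : c ∈ B.2
    · rw [glueHv_pos h1, glueHc_pos h2]
      exact hemb.inc v h1 c h2
    · rw [glueHv_pos h1, glueHc_neg h2]
      constructor
      · rintro ⟨v', hv', he, hi⟩
        rwa [← hemb.inj_v hv' h1 he]
      · intro hi
        exact ⟨v, h1, rfl, hi⟩
    · rw [glueHv_neg h1, glueHc_pos h2]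
      constructor
      · rintro ⟨c', hc', he, hi⟩
        rwa [← hemb.inj_c hc' h2 he]
      · intro hi
        exact ⟨c, h2, rfl, hi⟩
    · rw [glueHv_neg h1, glueHc_neg h2]
      exact Iff.rfl
  lev := by
    intro c _
    by_cases h : c ∈ B.2
    · rw [glueHc_pos h]
      exact hemb.lev c h
    · rw [glueHc_neg h]
      rfl
  par := by
    intro c _
    by_cases h : c ∈ B.2
    · rw [glueHc_pos h, glueHc_pos (hB.par_mem c h)]
      exact congrArg Sum.inl (hemb.par c h)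
    · rw [glueHc_neg h]
      rfl
  root := by
    rw [glueHc_pos hB.root_mem, hemb.root]
    rfl

end glue

variable {V1 C1 V2 C2 : Type} [DecidableEq V1] [DecidableEq C1] [DecidableEq V2] [DecidableEq C2]

theorem glue_ok {S1 : Sys V1 C1} {W : Rg V1 C1} {S2 : Sys V2 C2} {A B : Rg V2 C2} {fv : V2 → V1}
    {fc : C2 → C1} (hW : Ok S1 W) (hA : Ok S2 A) (hB : Ok S2 B) (hBA : B ≤ A)
    (hemb : IsEmb S2 B S1 fv fc) (hBW : im fv fc B ≤ W)
    {ex1 : V1 → V2 → Prop} {ex2 : V2 → V1 → Prop}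
    (hcol1 : ∀ u ∈ W.1, ∀ v ∈ A.1, ex1 u v → S1.col u = true ∧ S2.col v = false)
    (hcol2 : ∀ v ∈ A.1, ∀ u ∈ W.1, ex2 v u → S2.col v = true ∧ S1.col u = false) :
    Ok (glueSys S1 S2 B fv fc ex1 ex2)
      (im (glueHv B fv) (glueHc B fc) A ⊔ im Sum.inl Sum.inl W) := by
  have e2 : IsEmb S2 A (glueSys S1 S2 B fv fc ex1 ex2) (glueHv B fv) (glueHc B fc) :=
    glue_emb2 ex1 ex2 hB hemb
  have hvW : ∀ v ∈ B.1, fv v ∈ W.1 := fun v hv => hBW.1 (Finset.mem_image_of_mem fv hv)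
  have hcW : ∀ c ∈ B.2, fc c ∈ W.2 := fun c hc => hBW.2 (Finset.mem_image_of_mem fc hc)
  have hm1 : ∀ x ∈ (im (glueHv B fv) (glueHc B fc) A ⊔ im Sum.inl Sum.inl W).1,
      (∃ v ∈ A.1, glueHv B fv v = x) ∨ ∃ u ∈ W.1, Sum.inl u = x := by
    intro x hx
    rcases mem_sup1.1 hx with h | h
    · exact Or.inl (Finset.mem_image.1 h)
    · exact Or.inr (Finset.mem_image.1 h)
  have hm2 : ∀ x ∈ (im (glueHv B fv) (glueHc B fc) A ⊔ im Sum.inl Sum.inl W).2,
      (∃ v ∈ A.2, glueHc B fc v = x) ∨ ∃ u ∈ W.2, Sum.inl u = x := by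
    intro x hx
    rcases mem_sup2.1 hx with h | h
    · exact Or.inl (Finset.mem_image.1 h)
    · exact Or.inr (Finset.mem_image.1 h)
  have hA2 : ∀ c ∈ A.2, glueHc B fc c ∈ (im (glueHv B fv) (glueHc B fc) A ⊔ im Sum.inl Sum.inl W).2 :=
    fun c hc => mem_sup2.2 (Or.inl (Finset.mem_image_of_mem _ hc))
  have hW2 : ∀ c ∈ W.2, (Sum.inl c : C1 ⊕ C2) ∈
      (im (glueHv B fv) (glueHc B fc) A ⊔ im Sum.inl Sum.inl W).2 :=
    fun c hc => mem_sup2.2 (Or.inr (Finset.mem_image_of_mem _ hc))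
  have hroot : glueHc B fc S2.root = Sum.inl S1.root := e2.root
  refine ⟨hW2 _ hW.root_mem, ?_, hW.lev_root, congrArg Sum.inl hW.par_root, ?_, ?_, ?_, ?_⟩
  · -- par_mem
    intro x hx
    rcases hm2 x hx with ⟨c, hc, rfl⟩ | ⟨c, hc, rfl⟩
    · rw [e2.par c hc]
      exact hA2 _ (hA.par_mem c hc)
    · exact hW2 _ (hW.par_mem c hc)
  · -- lev_par
    intro x hx hne
    rcases hm2 x hx with ⟨c, hc, rfl⟩ | ⟨c, hc, rfl⟩
    · rw [e2.par c hc, e2.lev c hc, e2.lev _ (hA.par_mem c hc)]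
      apply hA.lev_par c hc
      rintro rfl
      exact hne hroot
    · apply hW.lev_par c hc
      rintro rfl
      exact hne rfl
  · -- inc_root
    intro x hx
    rcases hm1 x hx with ⟨v, hv, rfl⟩ | ⟨v, hv, rfl⟩
    · show (glueSys S1 S2 B fv fc ex1 ex2).inc (glueHv B fv v) (Sum.inl S1.root)
      rw [← hroot]
      exact (e2.inc v hv _ hA.root_mem).2 (hA.inc_root v hv)
    · exact hW.inc_root v hv
  · -- inc_par
    have key2 : ∀ v ∈ A.1, ∀ c ∈ A.2, (glueSys S1 S2 B fv fc ex1 ex2).inc (glueHv B fv v) (glueHc B fc c) →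
        (glueSys S1 S2 B fv fc ex1 ex2).inc (glueHv B fv v)
          ((glueSys S1 S2 B fv fc ex1 ex2).par (glueHc B fc c)) := by
      intro v hv c hc hi
      rw [e2.par c hc]
      exact (e2.inc v hv _ (hA.par_mem c hc)).2 (hA.inc_par v hv c hc ((e2.inc v hv c hc).1 hi))
    have key1 : ∀ v ∈ W.1, ∀ c ∈ W.2, (glueSys S1 S2 B fv fc ex1 ex2).inc (Sum.inl v) (Sum.inl c) →
        (glueSys S1 S2 B fv fc ex1 ex2).inc (Sum.inl v)
          ((glueSys S1 S2 B fv fc ex1 ex2).par (Sum.inl c)) := by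
      intro v hv c hc hi
      exact hW.inc_par v hv c hc hi
    intro x hx y hy hi
    rcases hm1 x hx with ⟨v, hv, rfl⟩ | ⟨v, hv, rfl⟩ <;> rcases hm2 y hy with ⟨c, hc, rfl⟩ | ⟨c, hc, rfl⟩
    · exact key2 v hv c hc hi
    · by_cases h : v ∈ B.1
      · rw [glueHv_pos h] at hi ⊢
        exact key1 _ (hvW v h) c hc hi
      · have hi' := hi
        rw [glueHv_neg h] at hi'
        obtain ⟨c', hc', rfl, -⟩ := hi'
        have e : (Sum.inl (fc c') : C1 ⊕ C2) = glueHc B fc c' := (glueHc_pos hc').symm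
        rw [e] at hi ⊢
        exact key2 v hv c' (hBA.2 hc') hi
    · by_cases h : c ∈ B.2
      · rw [glueHc_pos h] at hi ⊢
        exact key1 v hv _ (hcW c h) hi
      · have hi' := hi
        rw [glueHc_neg h] at hi'
        obtain ⟨v', hv', rfl, -⟩ := hi'
        have e : (Sum.inl (fv v') : V1 ⊕ V2) = glueHv B fv v' := (glueHv_pos hv').symm
        rw [e] at hi ⊢
        exact key2 v' (hBA.1 hv') c hc hi
    · exact key1 v hv c hc hi
  · -- bip
    have key2 : ∀ u ∈ A.1, ∀ v ∈ A.1, (glueSys S1 S2 B fv fc ex1 ex2).E (glueHv B fv u) (glueHv B fv v) →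
        (glueSys S1 S2 B fv fc ex1 ex2).col (glueHv B fv u) = true ∧
          (glueSys S1 S2 B fv fc ex1 ex2).col (glueHv B fv v) = false := by
      intro u hu v hv hE
      rw [e2.col u hu, e2.col v hv]
      exact hA.bip u hu v hv ((e2.edge u hu v hv).1 hE)
    have key1 : ∀ u ∈ W.1, ∀ v ∈ W.1, (glueSys S1 S2 B fv fc ex1 ex2).E (Sum.inl u) (Sum.inl v) →
        (glueSys S1 S2 B fv fc ex1 ex2).col (Sum.inl u) = true ∧
          (glueSys S1 S2 B fv fc ex1 ex2).col (Sum.inl v) = false := by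
      intro u hu v hv hE
      exact hW.bip u hu v hv hE
    intro x hx y hy hE
    rcases hm1 x hx with ⟨u, hu, rfl⟩ | ⟨u, hu, rfl⟩ <;> rcases hm1 y hy with ⟨v, hv, rfl⟩ | ⟨v, hv, rfl⟩
    · exact key2 u hu v hv hE
    · by_cases h : u ∈ B.1
      · rw [glueHv_pos h] at hE ⊢
        exact key1 _ (hvW u h) v hv hE
      · by_cases hb : ∃ v' ∈ B.1, fv v' = v
        · obtain ⟨v', hv', rfl⟩ := hb
          have e : (Sum.inl (fv v') : V1 ⊕ V2) = glueHv B fv v' := (glueHv_pos hv').symm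
          rw [e] at hE ⊢
          exact key2 u hu v' (hBA.1 hv') hE
        · rw [glueHv_neg h] at hE ⊢
          rcases hE with ⟨v', hv', he, -⟩ | ⟨-, hex⟩
          · exact absurd ⟨v', hv', he⟩ hb
          · exact hcol2 u hu v hv hex
    · by_cases h : v ∈ B.1
      · rw [glueHv_pos h] at hE ⊢
        exact key1 u hu _ (hvW v h) hE
      · by_cases hb : ∃ u' ∈ B.1, fv u' = u
        · obtain ⟨u', hu', rfl⟩ := hb
          have e : (Sum.inl (fv u') : V1 ⊕ V2) = glueHv B fv u' := (glueHv_pos hu').symm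
          rw [e] at hE ⊢
          exact key2 u' (hBA.1 hu') v hv hE
        · rw [glueHv_neg h] at hE ⊢
          rcases hE with ⟨u', hu', he, -⟩ | ⟨-, hex⟩
          · exact absurd ⟨u', hu', he⟩ hb
          · exact hcol1 u hu v hv hex
    · exact key1 u hu v hv hE

theorem exists_glue (S1 : Sys V1 C1) (W : Rg V1 C1) (S2 : Sys V2 C2) (A B : Rg V2 C2) (fv : V2 → V1) (fc : C2 → C1)
    (hW : Ok S1 W) (hA : Ok S2 A) (hB : Ok S2 B) (hBA : B ≤ A) (hemb : IsEmb S2 B S1 fv fc)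
    (hBW : im fv fc B ≤ W)
    (ex1 : V1 → V2 → Prop) (ex2 : V2 → V1 → Prop)
    (hcol1 : ∀ u ∈ W.1, ∀ v ∈ A.1, ex1 u v → S1.col u = true ∧ S2.col v = false)
    (hcol2 : ∀ v ∈ A.1, ∀ u ∈ W.1, ex2 v u → S2.col v = true ∧ S1.col u = false) :
    ∃ (S : Sys (V1 ⊕ V2) (C1 ⊕ C2)) (hv : V2 → V1 ⊕ V2) (hc : C2 → C1 ⊕ C2),
      IsEmb S1 W S Sum.inl Sum.inl ∧ IsEmb S2 A S hv hc ∧
      (∀ v ∈ B.1, hv v = Sum.inl (fv v)) ∧ (∀ v, v ∉ B.1 → hv v = Sum.inr v) ∧
      (∀ c ∈ B.2, hc c = Sum.inl (fc c)) ∧ (∀ c, c ∉ B.2 → hc c = Sum.inr c) ∧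
      Ok S (im hv hc A ⊔ im Sum.inl Sum.inl W) ∧
      im hv hc A ⊓ im Sum.inl Sum.inl W = im hv hc B ∧
      (∀ v ∈ A.1, v ∉ B.1 → ∀ c ∈ W.2, c ∉ (im fv fc B).2 → ¬ S.inc (hv v) (Sum.inl c)) ∧
      (∀ u ∈ W.1, u ∉ (im fv fc B).1 → ∀ c ∈ A.2, c ∉ B.2 → ¬ S.inc (Sum.inl u) (hc c)) ∧
      (∀ u ∈ W.1, u ∉ (im fv fc B).1 → ∀ v ∈ A.1, v ∉ B.1 → (S.E (Sum.inl u) (hv v) ↔ ex1 u v)) ∧
      (∀ u ∈ W.1, u ∉ (im fv fc B).1 → ∀ v ∈ A.1, v ∉ B.1 → (S.E (hv v) (Sum.inl u) ↔ ex2 v u)) := by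
  have hvW : ∀ v ∈ B.1, fv v ∈ W.1 := fun v hv => hBW.1 (Finset.mem_image_of_mem fv hv)
  have hcW : ∀ c ∈ B.2, fc c ∈ W.2 := fun c hc => hBW.2 (Finset.mem_image_of_mem fc hc)
  have him : ∀ u, u ∉ (im fv fc B).1 → ¬ ∃ u' ∈ B.1, fv u' = u := by
    rintro u hu ⟨u', hu', rfl⟩
    exact hu (Finset.mem_image_of_mem fv hu')
  refine ⟨glueSys S1 S2 B fv fc ex1 ex2, glueHv B fv, glueHc B fc, glue_emb1 _ _ _ _ _ _ _ _,
    glue_emb2 ex1 ex2 hB hemb, fun v h => glueHv_pos h, fun v h => glueHv_neg h,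
    fun c h => glueHc_pos h, fun c h => glueHc_neg h,
    glue_ok hW hA hB hBA hemb hBW hcol1 hcol2, ?_, ?_, ?_, ?_, ?_⟩
  · apply rg_ext
    · intro x
      rw [mem_inf1]
      constructor
      · rintro ⟨h1, h2⟩
        obtain ⟨v, hv, rfl⟩ := Finset.mem_image.1 h1
        obtain ⟨u, -, hu⟩ := Finset.mem_image.1 h2
        by_cases h : v ∈ B.1
        · exact Finset.mem_image_of_mem _ h
        · rw [glueHv_neg h] at hu
          exact absurd hu (by simp)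
      · intro h
        obtain ⟨v, hv, rfl⟩ := Finset.mem_image.1 h
        refine ⟨Finset.mem_image_of_mem _ (hBA.1 hv), ?_⟩
        rw [glueHv_pos hv]
        exact Finset.mem_image_of_mem _ (hvW v hv)
    · intro x
      rw [mem_inf2]
      constructor
      · rintro ⟨h1, h2⟩
        obtain ⟨v, hv, rfl⟩ := Finset.mem_image.1 h1
        obtain ⟨u, -, hu⟩ := Finset.mem_image.1 h2
        by_cases h : v ∈ B.2
        · exact Finset.mem_image_of_mem _ h
        · rw [glueHc_neg h] at hu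
          exact absurd hu (by simp)
      · intro h
        obtain ⟨v, hv, rfl⟩ := Finset.mem_image.1 h
        refine ⟨Finset.mem_image_of_mem _ (hBA.2 hv), ?_⟩
        rw [glueHc_pos hv]
        exact Finset.mem_image_of_mem _ (hcW v hv)
  · intro v _ hv c _ hc hi
    rw [glueHv_neg hv] at hi
    obtain ⟨c', hc', rfl, -⟩ := hi
    exact hc (Finset.mem_image_of_mem fc hc')
  · intro u _ hu c _ hc hi
    rw [glueHc_neg hc] at hi
    obtain ⟨v', hv', rfl, -⟩ := hi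
    exact hu (Finset.mem_image_of_mem fv hv')
  · intro u _ hu v _ hv
    rw [glueHv_neg hv]
    constructor
    · rintro (⟨u', hu', he, -⟩ | ⟨-, h⟩)
      · exact absurd ⟨u', hu', he⟩ (him u hu)
      · exact h
    · intro h
      exact Or.inr ⟨him u hu, h⟩
  · intro u _ hu v _ hv
    rw [glueHv_neg hv]
    constructor
    · rintro (⟨u', hu', he, -⟩ | ⟨-, h⟩)
      · exact absurd ⟨u', hu', he⟩ (him u hu)
      · exact h
    · intro h
      exact Or.inr ⟨him u hu, h⟩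

end Pool.Low
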