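import Pool.Agent.helper24.Low.AM1

/-!
# Module AM2: the amalgam is in the class

Apply `exists_glue` and `amalL` to `A' = im hv hc A`, `W' = im inl inl W` in the glued system `S`: `A' ⊓ W' = im hv hc B`.
`KL`: `IsEmb.kl`; closedness of `im hv hc B` in `A'`: `IsEmb.clL`; in `W'`: `im hv hc B = im inl inl (im fv fc B)` (`im_im`, `im_congr`),
and `IsEmb.clL` for `inl`.  `SFH act S A' W'`: `left`, `right` from the two incidence clauses of `exists_glue`; `edge`: cross edges are given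
by `ex1`, `ex2`; a common block `e` of `A'` and `W'` is the image of some `e0 ∈ B.2` (`A' ⊓ W' = im hv hc B`), and `hex` applies
(incidences through `IsEmb.inc`).
-/

set_option autoImplicit false

namespace Pool.Low

open scoped Classical

variable {V1 C1 V2 C2 : Type} [DecidableEq V1] [DecidableEq C1] [DecidableEq V2] [DecidableEq C2]
variable {P : Par} {act : Set ℕ}

theorem exists_amalgam (hP : Good0 P) (S1 : Sys V1 C1) (W : Rg V1 C1) (S2 : Sys V2 C2) (A B : Rg V2 C2)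
    (fv : V2 → V1) (fc : C2 → C1) (hW : KL P act S1 W) (hA : KL P act S2 A) (hB : ClL P act P.θ S2 A B)
    (hemb : IsEmb S2 B S1 fv fc) (hBW : ClL P act P.θ S1 W (im fv fc B))
    (ex1 : V1 → V2 → Prop) (ex2 : V2 → V1 → Prop)
    (hcol1 : ∀ u ∈ W.1, ∀ v ∈ A.1, ex1 u v → S1.col u = true ∧ S2.col v = false)
    (hcol2 : ∀ v ∈ A.1, ∀ u ∈ W.1, ex2 v u → S2.col v = true ∧ S1.col u = false)
    (hex : ∀ u ∈ W.1, u ∉ (im fv fc B).1 → ∀ v ∈ A.1, v ∉ B.1 → (ex1 u v ∨ ex2 v u) →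
      ∀ e ∈ B.2, S2.lev e ∈ act → S2.inc v e → S1.inc u (fc e) →
        ∃ c ∈ B.2, S2.par c = e ∧ c ≠ S2.root ∧ S2.inc v c ∧ S1.inc u (fc c)) :
    ∃ (S : Sys (V1 ⊕ V2) (C1 ⊕ C2)) (hv : V2 → V1 ⊕ V2) (hc : C2 → C1 ⊕ C2),
      IsEmb S1 W S Sum.inl Sum.inl ∧ IsEmb S2 A S hv hc ∧
      (∀ v ∈ B.1, hv v = Sum.inl (fv v)) ∧ (∀ v, v ∉ B.1 → hv v = Sum.inr v) ∧
      (∀ c ∈ B.2, hc c = Sum.inl (fc c)) ∧ (∀ c, c ∉ B.2 → hc c = Sum.inr c) ∧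
      KL P act S (im hv hc A ⊔ im Sum.inl Sum.inl W) ∧
      im hv hc A ⊓ im Sum.inl Sum.inl W = im hv hc B ∧
      ClL P act P.θ S (im hv hc A ⊔ im Sum.inl Sum.inl W) (im hv hc A) ∧
      ClL P act P.θ S (im hv hc A ⊔ im Sum.inl Sum.inl W) (im Sum.inl Sum.inl W) ∧
      SFH act S (im hv hc A) (im Sum.inl Sum.inl W) ∧
      (∀ u ∈ W.1, u ∉ (im fv fc B).1 → ∀ v ∈ A.1, v ∉ B.1 → (S.E (Sum.inl u) (hv v) ↔ ex1 u v)) ∧
      (∀ u ∈ W.1, u ∉ (im fv fc B).1 → ∀ v ∈ A.1, v ∉ B.1 → (S.E (hv v) (Sum.inl u) ↔ ex2 v u)) := by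
  have hfc : ∀ c ∈ B.2, fc c ∈ W.2 := fun c hc => hBW.le.2 (mem_im2.2 ⟨c, hc, rfl⟩)
  have hfv : ∀ v ∈ B.1, fv v ∈ W.1 := fun v hv => hBW.le.1 (mem_im1.2 ⟨v, hv, rfl⟩)
  obtain ⟨S, hv, hc, eW, eA, hv1, hv2, hc1, hc2, hok, hI, i1, i2, x1, x2⟩ :=
    exists_glue S1 W S2 A B fv fc hW.ok hA.ok hB.ok hB.le hemb hBW.le ex1 ex2 hcol1 hcol2
  have kA := eA.kl hA
  have kW := eW.kl hW
  have cA : ClL P act P.θ S (im hv hc A) (im hv hc A ⊓ im Sum.inl Sum.inl W) := by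
    rw [hI]; exact eA.clL hA.ok hB
  have hBB : im hv hc B = im Sum.inl Sum.inl (im fv fc B) := by
    rw [im_im]
    exact im_congr (fun v hvB => hv1 v hvB) (fun c hcB => hc1 c hcB)
  have cW : ClL P act P.θ S (im Sum.inl Sum.inl W) (im hv hc A ⊓ im Sum.inl Sum.inl W) := by
    rw [hI, hBB]; exact eW.clL hW.ok hBW
  -- vertices and blocks of the two differences
  have dA1 : ∀ v ∈ (im hv hc A).1, v ∉ (im Sum.inl Sum.inl W : Rg (V1 ⊕ V2) (C1 ⊕ C2)).1 →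
      ∃ v0 ∈ A.1, v0 ∉ B.1 ∧ hv v0 = v := by
    intro v h1 h2
    obtain ⟨v0, h3, rfl⟩ := mem_im1.1 h1
    refine ⟨v0, h3, fun h4 => h2 ?_, rfl⟩
    rw [hv1 v0 h4]
    exact mem_im1.2 ⟨fv v0, hfv v0 h4, rfl⟩
  have dA2 : ∀ c ∈ (im hv hc A).2, c ∉ (im Sum.inl Sum.inl W : Rg (V1 ⊕ V2) (C1 ⊕ C2)).2 →
      ∃ c0 ∈ A.2, c0 ∉ B.2 ∧ hc c0 = c := by
    intro c h1 h2
    obtain ⟨c0, h3, rfl⟩ := mem_im2.1 h1
    refine ⟨c0, h3, fun h4 => h2 ?_, rfl⟩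
    rw [hc1 c0 h4]
    exact mem_im2.2 ⟨fc c0, hfc c0 h4, rfl⟩
  have dW1 : ∀ v ∈ (im Sum.inl Sum.inl W : Rg (V1 ⊕ V2) (C1 ⊕ C2)).1, v ∉ (im hv hc A).1 →
      ∃ u ∈ W.1, u ∉ (im fv fc B).1 ∧ Sum.inl u = v := by
    intro v h1 h2
    obtain ⟨u, h3, rfl⟩ := mem_im1.1 h1
    refine ⟨u, h3, fun h4 => h2 ?_, rfl⟩
    obtain ⟨v1, h5, rfl⟩ := mem_im1.1 h4
    rw [← hv1 v1 h5]
    exact mem_im1.2 ⟨v1, hB.le.1 h5, rfl⟩
  have dW2 : ∀ c ∈ (im Sum.inl Sum.inl W : Rg (V1 ⊕ V2) (C1 ⊕ C2)).2, c ∉ (im hv hc A).2 →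
      ∃ c0 ∈ W.2, c0 ∉ (im fv fc B).2 ∧ Sum.inl c0 = c := by
    intro c h1 h2
    obtain ⟨c0, h3, rfl⟩ := mem_im2.1 h1
    refine ⟨c0, h3, fun h4 => h2 ?_, rfl⟩
    obtain ⟨c1, h5, rfl⟩ := mem_im2.1 h4
    rw [← hc1 c1 h5]
    exact mem_im2.2 ⟨c1, hB.le.2 h5, rfl⟩
  have hSF : SFH act S (im hv hc A) (im Sum.inl Sum.inl W) := by
    refine ⟨?_, ?_, ?_⟩
    · intro v h1 h2 c h3 h4
      obtain ⟨v0, a1, a2, rfl⟩ := dA1 v h1 h2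
      obtain ⟨c0, b1, b2, rfl⟩ := dW2 c h3 h4
      exact i1 v0 a1 a2 c0 b1 b2
    · intro v h1 h2 c h3 h4
      obtain ⟨u, a1, a2, rfl⟩ := dW1 v h1 h2
      obtain ⟨c0, b1, b2, rfl⟩ := dA2 c h3 h4
      exact i2 u a1 a2 c0 b1 b2
    · intro u' h1 h2 v' h3 h4 hE e he1 he2 hact hu hv'
      obtain ⟨v, a1, a2, rfl⟩ := dA1 u' h1 h2
      obtain ⟨u, b1, b2, rfl⟩ := dW1 v' h3 h4
      have hE' : ex1 u v ∨ ex2 v u := by
        rcases hE with hE | hE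
        · exact Or.inr ((x2 u b1 b2 v a1 a2).1 hE)
        · exact Or.inl ((x1 u b1 b2 v a1 a2).1 hE)
      have heI : e ∈ (im hv hc B).2 := by
        rw [← hI]; exact mem_inf2.2 ⟨he1, he2⟩
      obtain ⟨e0, he0, rfl⟩ := mem_im2.1 heI
      have he0A := hB.le.2 he0
      rw [eA.lev e0 he0A] at hact
      rw [eA.inc v a1 e0 he0A] at hu
      have hv3 : S.inc (Sum.inl u) (Sum.inl (fc e0)) := by rwa [hc1 e0 he0] at hv'
      rw [eW.inc u b1 (fc e0) (hfc e0 he0)] at hv3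
      obtain ⟨c, k1, k2, k3, k4, k5⟩ := hex u b1 b2 v a1 a2 hE' e0 he0 hact hu hv3
      have hcA := hB.le.2 k1
      refine ⟨hc c, mem_im2.2 ⟨c, hcA, rfl⟩, ?_, ?_, ?_, ?_, ?_⟩
      · rw [hc1 c k1]
        exact mem_im2.2 ⟨fc c, hfc c k1, rfl⟩
      · rw [eA.par c hcA, k2]
      · intro h
        rw [← eA.root] at h
        exact k3 (eA.inj_c hcA hA.ok.root_mem h)
      · exact (eA.inc v a1 c hcA).2 k4
      · rw [hc1 c k1]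
        exact (eW.inc u b1 (fc c) (hfc c k1)).2 k5
  obtain ⟨r1, r2, r3⟩ := amalL hP kA kW cA cW hok.bip hSF
  exact ⟨S, hv, hc, eW, eA, hv1, hv2, hc1, hc2, r1, hI, r2, r3, hSF, x1, x2⟩

end Pool.Low
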