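import Pool.Agent.helper24.Low.Lat

/-!
# Module LA9 (Amal): semi-free amalgamation, one level

Notation: `B = A ⊓ W`, `Z` full in `A ⊔ W`, `Z_A = Z ⊓ A`, `Z_W = Z ⊓ W`, `Z_B = Z ⊓ A ⊓ W`.  `Z_A ⊔ Z_W = Z`,
`Z_A ⊓ Z_W = Z_B`, `Z_A ⊓ B = Z_B`; `Z_A` is full in `A`, `Z_W` is full in `W` (`full_restrict`).

`amal_ls`: let `c ≠ c'` be blocks of `A ⊔ W`.  If both are in `A.2`: a vertex `v ∈ W \ A` in both would have to satisfy `c, c' ∈ W.2`
(`SF.right`), but then `v` is in two blocks of the closed set `B` of `W`, against `cl_unique`; so all common vertices are in `A.1`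
and `LS A` applies.  Similarly if both are in `W.2`.  If `c ∈ A \ W`, `c' ∈ W \ A`: a common vertex is in `A.1 ∩ W.1 = B.1` (`SF`),
and `|tr B.1 c| ≤ n` because `B` is full in `A`.

Key computation (`amal_ineq`): apply `sup_inf_identity` to `Z_A, Z_W`.  `crossInc Z_A Z_W = 0` by `SF`.  Flags of `Z` that are in
neither part: the edge is a cross edge `q` with ends `u ∈ A \ W`, `v ∈ W \ A` and the block is in `B.2 ∩ Z.2` (`SF`); by `SF.edge` and
`cl_unique` (for `u` and the closed set `B` of `A`) there is exactly one block `e(q) ∈ B.2` containing `u`, and it contains `v`.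
So `del Z + del Z_B + c(Z) = del Z_A + del Z_W`, where `c(Z)` = number of cross edges `q` inside `Z` with `e(q) ∉ Z.2`.
For such `q`, `(u, e(q)) ∈ xi Z_A B` and `v ∈ tr Z.1 (e q)`, `|tr Z.1 (e q)| ≤ n` (`Z` is full in `A ⊔ W`), so
`c(Z) ≤ n * crossInc Z_A B` (direction of `q` determined by the colour of `u`: `Bip`).
By `sub` in `A` (`P = Z_A`, `W = B`):
`del (Z_A ⊔ B) + del Z_B + (a - 4n - 4) crossInc Z_A B ≤ del Z_A + del B`.  Combine.

`amal_eq`: if `B ≤ Z` then `c(Z) = 0`.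

`amal_cl`: `W` is full in `A ⊔ W`: if `c ∈ A.2 \ W.2` has `≥ n+1` vertices in `W.1`, they are in `B.1` (`SF.right`), so `c ∈ B.2`.
If `Z ≥ W` is full, then `Z_W = W`, `B ≤ Z_A`, and `amal_eq` with `del B ≤ del Z_A` gives `del W ≤ del Z`.  The statement for `A` is
the symmetric one (`sup_comm`, `inf_comm`, `SF.symm`).

`amal_pp`: positivity from `amal_ineq` and `del_le_sup` (`del B ≤ del (Z_A ⊔ B)` in `A`): `del Z ≥ del Z_W ≥ 0`.
-/

set_option autoImplicit false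

namespace Pool.Low

open scoped Classical

variable {V C : Type} [DecidableEq V] [DecidableEq C]

/-! ### Auxiliary facts -/

theorem amal_aux_union {A W Z : Rg V C} (hZ : Z ≤ A ⊔ W) : (Z ⊓ A) ⊔ (Z ⊓ W) = Z := by
  apply rg_ext
  · intro v
    rw [mem_sup1, mem_inf1, mem_inf1]
    constructor
    · rintro (⟨h, _⟩ | ⟨h, _⟩) <;> exact h
    · intro h
      rcases mem_sup1.1 (hZ.1 h) with h' | h'
      · exact Or.inl ⟨h, h'⟩
      · exact Or.inr ⟨h, h'⟩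
  · intro v
    rw [mem_sup2, mem_inf2, mem_inf2]
    constructor
    · rintro (⟨h, _⟩ | ⟨h, _⟩) <;> exact h
    · intro h
      rcases mem_sup2.1 (hZ.2 h) with h' | h'
      · exact Or.inl ⟨h, h'⟩
      · exact Or.inr ⟨h, h'⟩

theorem amal_aux_inter (A W Z : Rg V C) : (Z ⊓ A) ⊓ (Z ⊓ W) = Z ⊓ (A ⊓ W) := by
  apply rg_ext
  · intro v; simp only [mem_inf1]; tauto
  · intro v; simp only [mem_inf2]; tauto

theorem amal_aux_inter' (A W Z : Rg V C) : (Z ⊓ A) ⊓ (A ⊓ W) = Z ⊓ (A ⊓ W) := by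
  apply rg_ext
  · intro v; simp only [mem_inf1]; tauto
  · intro v; simp only [mem_inf2]; tauto

theorem amal_aux_cross {G : Geo V C} {A W : Rg V C} (hSF : SF G A W) (Z : Rg V C) :
    crossInc G (Z ⊓ A) (Z ⊓ W) = 0 := by
  unfold crossInc
  rw [Nat.add_eq_zero_iff, Finset.card_eq_zero, Finset.card_eq_zero]
  constructor
  · rw [Finset.eq_empty_iff_forall_notMem]
    rintro ⟨v, c⟩ hq
    rw [mem_xi] at hq
    simp only [mem_inf1, mem_inf2] at hq
    obtain ⟨⟨h1, h2⟩, ⟨h3, h4⟩, h5, h6, h7⟩ := hq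
    exact hSF.left v h2 (fun h => h5 ⟨h1, h⟩) c h4 (fun h => h6 ⟨h3, h⟩) h7
  · rw [Finset.eq_empty_iff_forall_notMem]
    rintro ⟨v, c⟩ hq
    rw [mem_xi] at hq
    simp only [mem_inf1, mem_inf2] at hq
    obtain ⟨⟨h1, h2⟩, ⟨h3, h4⟩, h5, h6, h7⟩ := hq
    exact hSF.right v h2 (fun h => h5 ⟨h1, h⟩) c h4 (fun h => h6 ⟨h3, h⟩) h7

/-- cross edges of `Z` contained in some block of `Z` -/
noncomputable def amalGood (G : Geo V C) (A W Z : Rg V C) : Finset (V × V) :=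
  ((xe G (Z ⊓ A) (Z ⊓ W)) ∪ (xe G (Z ⊓ W) (Z ⊓ A))).filter (fun q => ∃ c ∈ Z.2, G.inc q.1 c ∧ G.inc q.2 c)

/-- cross edges of `Z` contained in no block of `Z` -/
noncomputable def amalBad (G : Geo V C) (A W Z : Rg V C) : Finset (V × V) :=
  ((xe G (Z ⊓ A) (Z ⊓ W)) ∪ (xe G (Z ⊓ W) (Z ⊓ A))).filter (fun q => ¬ ∃ c ∈ Z.2, G.inc q.1 c ∧ G.inc q.2 c)

theorem amal_aux_disj (G : Geo V C) (P W : Rg V C) : Disjoint (xe G P W) (xe G W P) := by
  rw [Finset.disjoint_left]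
  intro q h1 h2
  rw [mem_xe] at h1 h2
  exact h1.2.2.1 h2.1

theorem amal_aux_goodbad (G : Geo V C) (A W Z : Rg V C) :
    (amalGood G A W Z).card + (amalBad G A W Z).card
      = (xe G (Z ⊓ A) (Z ⊓ W)).card + (xe G (Z ⊓ W) (Z ⊓ A)).card := by
  unfold amalGood amalBad
  rw [Finset.card_filter_add_card_filter_not, Finset.card_union_of_disjoint (amal_aux_disj G _ _)]

/-- A block of `A ⊔ W` containing a vertex of `A \ W` and a vertex of `W \ A` is in `A ⊓ W`. -/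
theorem amal_aux_mid {G : Geo V C} {A W : Rg V C} (hSF : SF G A W) {u v : V} {c : C} (hu : u ∈ A.1) (hu' : u ∉ W.1)
    (hv : v ∈ W.1) (hv' : v ∉ A.1) (hc : c ∈ (A ⊔ W).2) (h1 : G.inc u c) (h2 : G.inc v c) : c ∈ A.2 ∧ c ∈ W.2 := by
  rcases mem_sup2.1 hc with h | h
  · refine ⟨h, ?_⟩
    by_contra hcon
    exact hSF.right v hv hv' c h hcon h2
  · refine ⟨?_, h⟩
    by_contra hcon
    exact hSF.left u hu hu' c h hcon h1

theorem amal_aux_flag {G : Geo V C} {n : ℕ} {a b : ℝ} (h : Wt n a b) {A W : Rg V C} (hA : PP G n a b A)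
    (hBA : Cl G n a b A (A ⊓ W))
    (hSF : SF G A W) {Z : Rg V C} (hZ : Z ≤ A ⊔ W) :
    (flag G (Z ⊓ A) (Z ⊓ W)).card = (amalGood G A W Z).card := by
  have key : ∀ q ∈ flag G (Z ⊓ A) (Z ⊓ W), q.2 ∈ Z.2 ∧ q.2 ∈ A.2 ∧ q.2 ∈ W.2 ∧ G.inc q.1.1 q.2 ∧ G.inc q.1.2 q.2 ∧
      (q.1 ∈ xe G (Z ⊓ A) (Z ⊓ W) ∨ q.1 ∈ xe G (Z ⊓ W) (Z ⊓ A)) := by
    rintro ⟨⟨u, v⟩, c⟩ hq
    unfold flag at hq
    simp only [Finset.mem_filter, Finset.mem_product, mem_ed, Finset.mem_union, mem_inf1, mem_inf2] at hq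
    obtain ⟨⟨⟨⟨hu, hv⟩, hE⟩, hc⟩, h1, h2, h3, h4⟩ := hq
    have huZ : u ∈ Z.1 := by rcases hu with h | h <;> exact h.1
    have hvZ : v ∈ Z.1 := by rcases hv with h | h <;> exact h.1
    have hcZ : c ∈ Z.2 := by rcases hc with h | h <;> exact h.1
    have huS := mem_sup1.1 (hZ.1 huZ)
    have hvS := mem_sup1.1 (hZ.1 hvZ)
    have hcS := hZ.2 hcZ
    simp only [mem_xe, mem_inf1]
    -- cases
    by_cases huA : u ∈ A.1
    · by_cases hvA : v ∈ A.1
      · -- both in A, so c ∉ A.2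
        have hcA : c ∉ A.2 := fun hcA => h3 ⟨⟨huZ, huA⟩, ⟨hvZ, hvA⟩, ⟨hcZ, hcA⟩⟩
        have hcW : c ∈ W.2 := by
          rcases mem_sup2.1 hcS with h | h
          · exact absurd h hcA
          · exact h
        exfalso
        apply h4
        refine ⟨⟨huZ, ?_⟩, ⟨hvZ, ?_⟩, ⟨hcZ, hcW⟩⟩
        · by_contra hcon; exact hSF.left u huA hcon c hcW hcA h1
        · by_contra hcon; exact hSF.left v hvA hcon c hcW hcA h2
      · have hvW : v ∈ W.1 := by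
          rcases hvS with h | h
          · exact absurd h hvA
          · exact h
        by_cases huW : u ∈ W.1
        · -- both in W
          have hcW : c ∉ W.2 := fun hcW => h4 ⟨⟨huZ, huW⟩, ⟨hvZ, hvW⟩, ⟨hcZ, hcW⟩⟩
          have hcA : c ∈ A.2 := by
            rcases mem_sup2.1 hcS with h | h
            · exact h
            · exact absurd h hcW
          exact absurd h2 (hSF.right v hvW hvA c hcA hcW)
        · obtain ⟨hcA, hcW⟩ := amal_aux_mid hSF huA huW hvW hvA hcS h1 h2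
          refine ⟨hcZ, hcA, hcW, h1, h2, Or.inl ⟨⟨huZ, huA⟩, ⟨hvZ, hvW⟩, fun h => huW h.2, fun h => hvA h.2, hE⟩⟩
    · have huW : u ∈ W.1 := by
        rcases huS with h | h
        · exact absurd h huA
        · exact h
      by_cases hvW : v ∈ W.1
      · have hcW : c ∉ W.2 := fun hcW => h4 ⟨⟨huZ, huW⟩, ⟨hvZ, hvW⟩, ⟨hcZ, hcW⟩⟩
        have hcA : c ∈ A.2 := by
          rcases mem_sup2.1 hcS with h | h
          · exact h
          · exact absurd h hcW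
        exact absurd h1 (hSF.right u huW huA c hcA hcW)
      · have hvA : v ∈ A.1 := by
          rcases hvS with h | h
          · exact h
          · exact absurd h hvW
        obtain ⟨hcA, hcW⟩ := amal_aux_mid hSF hvA hvW huW huA hcS h2 h1
        refine ⟨hcZ, hcA, hcW, h1, h2, Or.inr ⟨⟨huZ, huW⟩, ⟨hvZ, hvA⟩, fun h => huA h.2, fun h => hvW h.2, hE⟩⟩
  have huniq : ∀ u c c', u ∈ A.1 → u ∉ W.1 → c ∈ A.2 → c ∈ W.2 → c' ∈ A.2 → c' ∈ W.2 → G.inc u c → G.inc u c' →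
      c = c' := by
    intro u c c' hu hu' h1 h2 h3 h4 h5 h6
    exact cl_unique' h hA hBA hu (fun hh => hu' (mem_inf1.1 hh).2) (mem_inf2.2 ⟨h1, h2⟩) (mem_inf2.2 ⟨h3, h4⟩) h5 h6
  apply Finset.card_bij (fun q _ => q.1)
  · intro q hq
    obtain ⟨h1, h2, h3, h4, h5, h6⟩ := key q hq
    unfold amalGood
    simp only [Finset.mem_filter, Finset.mem_union]
    exact ⟨h6, q.2, h1, h4, h5⟩
  · rintro ⟨q, c⟩ hq ⟨q', c'⟩ hq' heq
    simp only at heq
    subst heq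
    obtain ⟨h1, h2, h3, h4, h5, h6⟩ := key _ hq
    obtain ⟨h1', h2', h3', h4', h5', _⟩ := key _ hq'
    simp only at h1 h2 h3 h4 h5 h6 h1' h2' h3' h4' h5'
    have : c = c' := by
      rcases h6 with h6 | h6
      · rw [mem_xe] at h6
        simp only [mem_inf1] at h6
        exact huniq q.1 c c' h6.1.2 (fun hh => h6.2.2.1 ⟨h6.1.1, hh⟩) h2 h3 h2' h3' h4 h4'
      · rw [mem_xe] at h6
        simp only [mem_inf1] at h6
        exact huniq q.2 c c' h6.2.1.2 (fun hh => h6.2.2.2.1 ⟨h6.2.1.1, hh⟩) h2 h3 h2' h3' h5 h5'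
    rw [this]
  · intro q hq
    unfold amalGood at hq
    simp only [Finset.mem_filter, Finset.mem_union] at hq
    obtain ⟨h6, c, hc, h1, h2⟩ := hq
    have hcS := hZ.2 hc
    refine ⟨(q, c), ?_, rfl⟩
    unfold flag
    simp only [Finset.mem_filter, Finset.mem_product, mem_ed, Finset.mem_union, mem_inf1, mem_inf2]
    rcases h6 with h6 | h6
    · rw [mem_xe] at h6
      simp only [mem_inf1] at h6
      obtain ⟨⟨a1, a2⟩, ⟨a3, a4⟩, a5, a6, a7⟩ := h6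
      have hu' : q.1 ∉ W.1 := fun hh => a5 ⟨a1, hh⟩
      have hv' : q.2 ∉ A.1 := fun hh => a6 ⟨a3, hh⟩
      obtain ⟨hcA, hcW⟩ := amal_aux_mid hSF a2 hu' a4 hv' hcS h1 h2
      refine ⟨⟨⟨⟨Or.inl ⟨a1, a2⟩, Or.inr ⟨a3, a4⟩⟩, a7⟩, Or.inl ⟨hc, hcA⟩⟩, h1, h2, ?_, ?_⟩
      · rintro ⟨_, hh, _⟩; exact hv' hh.2
      · rintro ⟨hh, _, _⟩; exact hu' hh.2
    · rw [mem_xe] at h6
      simp only [mem_inf1] at h6
      obtain ⟨⟨a1, a2⟩, ⟨a3, a4⟩, a5, a6, a7⟩ := h6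
      have hu' : q.1 ∉ A.1 := fun hh => a5 ⟨a1, hh⟩
      have hv' : q.2 ∉ W.1 := fun hh => a6 ⟨a3, hh⟩
      obtain ⟨hcA, hcW⟩ := amal_aux_mid hSF a4 hv' a2 hu' hcS h2 h1
      refine ⟨⟨⟨⟨Or.inr ⟨a1, a2⟩, Or.inl ⟨a3, a4⟩⟩, a7⟩, Or.inl ⟨hc, hcA⟩⟩, h1, h2, ?_, ?_⟩
      · rintro ⟨hh, _, _⟩; exact hu' hh.2
      · rintro ⟨_, hh, _⟩; exact hv' hh.2

/-- The exact identity with the number of bad cross edges. -/
theorem amal_aux_id {G : Geo V C} {n : ℕ} {a b : ℝ} (h : Wt n a b) {A W : Rg V C} (hA : PP G n a b A)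
    (hBA : Cl G n a b A (A ⊓ W))
    (hSF : SF G A W) {Z : Rg V C} (hZ : Z ≤ A ⊔ W) :
    del G a b Z + del G a b (Z ⊓ (A ⊓ W)) + ((amalBad G A W Z).card : ℝ)
      = del G a b (Z ⊓ A) + del G a b (Z ⊓ W) := by
  have h1 := sup_inf_identity G a b (Z ⊓ A) (Z ⊓ W)
  rw [amal_aux_union hZ, amal_aux_inter, amal_aux_cross hSF Z, amal_aux_flag h hA hBA hSF hZ] at h1
  have h2 := amal_aux_goodbad G A W Z
  have h3 : ((amalGood G A W Z).card : ℝ) + ((amalBad G A W Z).card : ℝ)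
      = ((xe G (Z ⊓ A) (Z ⊓ W)).card : ℝ) + ((xe G (Z ⊓ W) (Z ⊓ A)).card : ℝ) := by
    exact_mod_cast h2
  push_cast at h1
  linarith

theorem amal_aux_bad {G : Geo V C} {n : ℕ} {A W : Rg V C} (hbip : Bip G (A ⊔ W).1)
    (hSF : SF G A W) {Z : Rg V C} (hZ : Full G n (A ⊔ W) Z) :
    (amalBad G A W Z).card ≤ n * crossInc G (Z ⊓ A) (A ⊓ W) := by
  set X := xi G (Z ⊓ A) (A ⊓ W) with hX
  set X1 := X.filter (fun p => G.col p.1 = true) with hX1
  set X2 := X.filter (fun p => ¬ G.col p.1 = true) with hX2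
  have htr : ∀ p ∈ X, (tr G Z.1 p.2).card ≤ n := by
    intro p hp
    rw [hX, mem_xi] at hp
    simp only [mem_inf1, mem_inf2] at hp
    obtain ⟨⟨h1, h2⟩, ⟨h3, h4⟩, h5, h6, h7⟩ := hp
    by_contra hcon
    push Not at hcon
    have := hZ.2 p.2 (mem_sup2.2 (Or.inl h3)) hcon
    exact h6 ⟨this, h3⟩
  have hsub : amalBad G A W Z ⊆ (X1.biUnion (fun p => (tr G Z.1 p.2).image (fun v => (p.1, v)))) ∪
      (X2.biUnion (fun p => (tr G Z.1 p.2).image (fun v => (v, p.1)))) := by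
    intro q hq
    unfold amalBad at hq
    simp only [Finset.mem_filter, Finset.mem_union] at hq
    obtain ⟨h6, hno⟩ := hq
    rw [Finset.mem_union, Finset.mem_biUnion, Finset.mem_biUnion]
    rcases h6 with h6 | h6
    · left
      rw [mem_xe] at h6
      simp only [mem_inf1] at h6
      obtain ⟨⟨a1, a2⟩, ⟨a3, a4⟩, a5, a6, a7⟩ := h6
      have hu' : q.1 ∉ W.1 := fun hh => a5 ⟨a1, hh⟩
      have hv' : q.2 ∉ A.1 := fun hh => a6 ⟨a3, hh⟩
      obtain ⟨e, he1, he2, he3, he4⟩ := hSF.edge q.1 a2 hu' q.2 a4 hv' (Or.inl a7)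
      have heZ : e ∉ Z.2 := fun hh => hno ⟨e, hh, he3, he4⟩
      refine ⟨(q.1, e), ?_, ?_⟩
      · rw [hX1, Finset.mem_filter, hX, mem_xi]
        simp only [mem_inf1, mem_inf2]
        refine ⟨⟨⟨a1, a2⟩, ⟨he1, he2⟩, fun hh => hu' hh.2, fun hh => heZ hh.1, he3⟩, ?_⟩
        exact (hbip q.1 (hZ.1.1 a1) q.2 (hZ.1.1 a3) a7).1
      · rw [Finset.mem_image]
        exact ⟨q.2, mem_tr.2 ⟨a3, he4⟩, rfl⟩
    · right
      rw [mem_xe] at h6
      simp only [mem_inf1] at h6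
      obtain ⟨⟨a1, a2⟩, ⟨a3, a4⟩, a5, a6, a7⟩ := h6
      have hu' : q.1 ∉ A.1 := fun hh => a5 ⟨a1, hh⟩
      have hv' : q.2 ∉ W.1 := fun hh => a6 ⟨a3, hh⟩
      obtain ⟨e, he1, he2, he3, he4⟩ := hSF.edge q.2 a4 hv' q.1 a2 hu' (Or.inr a7)
      have heZ : e ∉ Z.2 := fun hh => hno ⟨e, hh, he4, he3⟩
      refine ⟨(q.2, e), ?_, ?_⟩
      · rw [hX2, Finset.mem_filter, hX, mem_xi]
        simp only [mem_inf1, mem_inf2]
        refine ⟨⟨⟨a3, a4⟩, ⟨he1, he2⟩, fun hh => hv' hh.2, fun hh => heZ hh.1, he3⟩, ?_⟩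
        rw [(hbip q.1 (hZ.1.1 a1) q.2 (hZ.1.1 a3) a7).2]
        simp
      · rw [Finset.mem_image]
        exact ⟨q.1, mem_tr.2 ⟨a1, he4⟩, rfl⟩
  have hc1 : (X1.biUnion (fun p => (tr G Z.1 p.2).image (fun v => (p.1, v)))).card ≤ X1.card * n := by
    apply Finset.card_biUnion_le_card_mul
    intro p hp
    exact le_trans Finset.card_image_le (htr p (Finset.mem_of_mem_filter p hp))
  have hc2 : (X2.biUnion (fun p => (tr G Z.1 p.2).image (fun v => (v, p.1)))).card ≤ X2.card * n := by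
    apply Finset.card_biUnion_le_card_mul
    intro p hp
    exact le_trans Finset.card_image_le (htr p (Finset.mem_of_mem_filter p hp))
  have hc3 : X1.card + X2.card = X.card := by
    rw [hX1, hX2, Finset.card_filter_add_card_filter_not]
  calc (amalBad G A W Z).card ≤ _ := Finset.card_le_card hsub
    _ ≤ _ := Finset.card_union_le _ _
    _ ≤ X1.card * n + X2.card * n := Nat.add_le_add hc1 hc2
    _ = n * X.card := by rw [← Nat.add_mul, hc3, Nat.mul_comm]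
    _ ≤ n * crossInc G (Z ⊓ A) (A ⊓ W) := by
        apply Nat.mul_le_mul_left
        unfold crossInc
        exact Nat.le_add_right _ _

theorem amal_aux_full {G : Geo V C} {n : ℕ} {a b : ℝ} {A W : Rg V C}
    (hBA : Cl G n a b A (A ⊓ W)) (hSF : SF G A W) : Full G n (A ⊔ W) W := by
  refine ⟨le_sup_right, ?_⟩
  intro c hc hcard
  by_contra hcW
  have hcA : c ∈ A.2 := by
    rcases mem_sup2.1 hc with h | h
    · exact h
    · exact absurd h hcW
  have hsub : tr G W.1 c ⊆ tr G (A ⊓ W).1 c := by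
    intro v hv
    rw [mem_tr] at hv ⊢
    refine ⟨mem_inf1.2 ⟨?_, hv.1⟩, hv.2⟩
    by_contra hvA
    exact hSF.right v hv.1 hvA c hcA hcW hv.2
  have := hBA.1.2 c hcA (le_trans hcard (Finset.card_le_card hsub))
  exact hcW (mem_inf2.1 this).2


theorem amal_ls {G : Geo V C} {n : ℕ} {a b : ℝ} (h : Wt n a b) {A W : Rg V C} (hA : PP G n a b A) (hW : PP G n a b W)
    (hBA : Cl G n a b A (A ⊓ W)) (hBW : Cl G n a b W (A ⊓ W)) (hSF : SF G A W) : LS G n (A ⊔ W) := by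
  intro c hc c' hc' hne
  -- both blocks in `A`
  have hAA : c ∈ A.2 → c' ∈ A.2 → ((A ⊔ W).1.filter (fun v => G.inc v c ∧ G.inc v c')).card ≤ n := by
    intro h1 h2
    refine le_trans (Finset.card_le_card ?_) (hA.2.1 c h1 c' h2 hne)
    intro v hv
    rw [Finset.mem_filter] at hv ⊢
    refine ⟨?_, hv.2⟩
    by_contra hvA
    have hvW : v ∈ W.1 := by
      rcases mem_sup1.1 hv.1 with h | h
      · exact absurd h hvA
      · exact h
    have hcW : c ∈ W.2 := by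
      by_contra hcon; exact hSF.right v hvW hvA c h1 hcon hv.2.1
    have hcW' : c' ∈ W.2 := by
      by_contra hcon; exact hSF.right v hvW hvA c' h2 hcon hv.2.2
    exact hne (cl_unique' h hW hBW hvW (fun hh => hvA (mem_inf1.1 hh).1) (mem_inf2.2 ⟨h1, hcW⟩)
      (mem_inf2.2 ⟨h2, hcW'⟩) hv.2.1 hv.2.2)
  have hWW : c ∈ W.2 → c' ∈ W.2 → ((A ⊔ W).1.filter (fun v => G.inc v c ∧ G.inc v c')).card ≤ n := by
    intro h1 h2
    refine le_trans (Finset.card_le_card ?_) (hW.2.1 c h1 c' h2 hne)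
    intro v hv
    rw [Finset.mem_filter] at hv ⊢
    refine ⟨?_, hv.2⟩
    by_contra hvW
    have hvA : v ∈ A.1 := by
      rcases mem_sup1.1 hv.1 with h | h
      · exact h
      · exact absurd h hvW
    have hcA : c ∈ A.2 := by
      by_contra hcon; exact hSF.left v hvA hvW c h1 hcon hv.2.1
    have hcA' : c' ∈ A.2 := by
      by_contra hcon; exact hSF.left v hvA hvW c' h2 hcon hv.2.2
    exact hne (cl_unique' h hA hBA hvA (fun hh => hvW (mem_inf1.1 hh).2) (mem_inf2.2 ⟨hcA, h1⟩)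
      (mem_inf2.2 ⟨hcA', h2⟩) hv.2.1 hv.2.2)
  -- one block in `A` only, the other in `W` only
  have hmix : ∀ d ∈ A.2, d ∉ W.2 → ∀ d' ∈ W.2, d' ∉ A.2 →
      ((A ⊔ W).1.filter (fun v => G.inc v d ∧ G.inc v d')).card ≤ n := by
    intro d h1 h2 d' h3 h4
    by_contra hcon
    push Not at hcon
    have hsub : (A ⊔ W).1.filter (fun v => G.inc v d ∧ G.inc v d') ⊆ tr G (A ⊓ W).1 d := by
      intro v hv
      rw [Finset.mem_filter] at hv
      rw [mem_tr]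
      refine ⟨mem_inf1.2 ⟨?_, ?_⟩, hv.2.1⟩
      · by_contra hvA
        have hvW : v ∈ W.1 := by
          rcases mem_sup1.1 hv.1 with h | h
          · exact absurd h hvA
          · exact h
        exact hSF.right v hvW hvA d h1 h2 hv.2.1
      · by_contra hvW
        have hvA : v ∈ A.1 := by
          rcases mem_sup1.1 hv.1 with h | h
          · exact h
          · exact absurd h hvW
        exact hSF.left v hvA hvW d' h3 h4 hv.2.2
    have := hBA.1.2 d h1 (le_trans hcon (Finset.card_le_card hsub))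
    exact h2 (mem_inf2.1 this).2
  by_cases h1 : c ∈ A.2
  · by_cases h2 : c' ∈ A.2
    · exact hAA h1 h2
    · have h3 : c' ∈ W.2 := by
        rcases mem_sup2.1 hc' with h | h
        · exact absurd h h2
        · exact h
      by_cases h4 : c ∈ W.2
      · exact hWW h4 h3
      · exact hmix c h1 h4 c' h3 h2
  · have h3 : c ∈ W.2 := by
      rcases mem_sup2.1 hc with h | h
      · exact absurd h h1
      · exact h
    by_cases h4 : c' ∈ W.2
    · exact hWW h3 h4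
    · have h5 : c' ∈ A.2 := by
        rcases mem_sup2.1 hc' with h | h
        · exact h
        · exact absurd h h4
      have := hmix c' h5 h4 c h3 h1
      refine le_trans (Finset.card_le_card ?_) this
      intro v hv
      rw [Finset.mem_filter] at hv ⊢
      exact ⟨hv.1, hv.2.2, hv.2.1⟩

theorem amal_ineq {G : Geo V C} {n : ℕ} {a b : ℝ} (h : Wt n a b) {A W : Rg V C} (hA : PP G n a b A)
    (hW : PP G n a b W) (hBA : Cl G n a b A (A ⊓ W)) (hBW : Cl G n a b W (A ⊓ W)) (hbip : Bip G (A ⊔ W).1)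
    (hSF : SF G A W) {Z : Rg V C} (hZ : Full G n (A ⊔ W) Z) :
    del G a b (Z ⊓ W) + (a - 5 * n - 4) * (crossInc G (Z ⊓ A) (A ⊓ W) : ℝ)
      + (del G a b ((Z ⊓ A) ⊔ (A ⊓ W)) - del G a b (A ⊓ W)) ≤ del G a b Z := by
  have h1 := amal_aux_id h hA hBA hSF hZ.1
  have h2 := amal_aux_bad hbip hSF hZ
  have h2' : ((amalBad G A W Z).card : ℝ) ≤ n * (crossInc G (Z ⊓ A) (A ⊓ W) : ℝ) := by exact_mod_cast h2
  have h3 := sub h hA (full_restrict hZ le_sup_left) hBA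
  rw [amal_aux_inter'] at h3
  have h4 : (0:ℝ) ≤ (bare G (Z ⊓ A) (A ⊓ W) : ℝ) := Nat.cast_nonneg _
  nlinarith

theorem amal_eq {G : Geo V C} {n : ℕ} {a b : ℝ} (h : Wt n a b) {A W : Rg V C} (hA : PP G n a b A)
    (hW : PP G n a b W) (hBA : Cl G n a b A (A ⊓ W)) (hBW : Cl G n a b W (A ⊓ W)) (hbip : Bip G (A ⊔ W).1)
    (hSF : SF G A W) {Z : Rg V C} (hZ : Full G n (A ⊔ W) Z) (hBZ : A ⊓ W ≤ Z) :
    del G a b Z + del G a b (A ⊓ W) = del G a b (Z ⊓ A) + del G a b (Z ⊓ W) := by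
  have h1 := amal_aux_id h hA hBA hSF hZ.1
  have h2 : amalBad G A W Z = ∅ := by
    rw [Finset.eq_empty_iff_forall_notMem]
    intro q hq
    unfold amalBad at hq
    simp only [Finset.mem_filter, Finset.mem_union] at hq
    obtain ⟨h6, hno⟩ := hq
    rcases h6 with h6 | h6
    · rw [mem_xe] at h6
      simp only [mem_inf1] at h6
      obtain ⟨⟨a1, a2⟩, ⟨a3, a4⟩, a5, a6, a7⟩ := h6
      obtain ⟨e, he1, he2, he3, he4⟩ := hSF.edge q.1 a2 (fun hh => a5 ⟨a1, hh⟩) q.2 a4 (fun hh => a6 ⟨a3, hh⟩) (Or.inl a7)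
      exact hno ⟨e, hBZ.2 (mem_inf2.2 ⟨he1, he2⟩), he3, he4⟩
    · rw [mem_xe] at h6
      simp only [mem_inf1] at h6
      obtain ⟨⟨a1, a2⟩, ⟨a3, a4⟩, a5, a6, a7⟩ := h6
      obtain ⟨e, he1, he2, he3, he4⟩ := hSF.edge q.2 a4 (fun hh => a6 ⟨a3, hh⟩) q.1 a2 (fun hh => a5 ⟨a1, hh⟩) (Or.inr a7)
      exact hno ⟨e, hBZ.2 (mem_inf2.2 ⟨he1, he2⟩), he4, he3⟩
  have h3 : Z ⊓ (A ⊓ W) = A ⊓ W := inf_eq_right.2 hBZ
  rw [h2, h3] at h1
  simpa using h1

theorem amal_aux_cl {G : Geo V C} {n : ℕ} {a b : ℝ} (h : Wt n a b) {A W : Rg V C} (hA : PP G n a b A)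
    (hW : PP G n a b W) (hBA : Cl G n a b A (A ⊓ W)) (hBW : Cl G n a b W (A ⊓ W)) (hbip : Bip G (A ⊔ W).1)
    (hSF : SF G A W) : Cl G n a b (A ⊔ W) W := by
  refine ⟨amal_aux_full hBA hSF, ?_⟩
  intro Z hZ hWZ
  have hBZ : A ⊓ W ≤ Z := le_trans inf_le_right hWZ
  have h1 := amal_eq h hA hW hBA hBW hbip hSF hZ hBZ
  rw [inf_eq_right.2 hWZ] at h1
  have h2 := hBA.2 (Z ⊓ A) (full_restrict hZ le_sup_left) (le_inf hBZ inf_le_left)
  linarith

theorem amal_cl {G : Geo V C} {n : ℕ} {a b : ℝ} (h : Wt n a b) {A W : Rg V C} (hA : PP G n a b A)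
    (hW : PP G n a b W) (hBA : Cl G n a b A (A ⊓ W)) (hBW : Cl G n a b W (A ⊓ W)) (hbip : Bip G (A ⊔ W).1)
    (hSF : SF G A W) : Cl G n a b (A ⊔ W) A ∧ Cl G n a b (A ⊔ W) W := by
  refine ⟨?_, amal_aux_cl h hA hW hBA hBW hbip hSF⟩
  have := amal_aux_cl (A := W) (W := A) h hW hA (by rw [inf_comm]; exact hBW) (by rw [inf_comm]; exact hBA)
    (by rw [sup_comm]; exact hbip) hSF.symm
  rw [sup_comm] at this
  exact this

theorem amal_pp {G : Geo V C} {n : ℕ} {a b : ℝ} (h : Wt n a b) {A W : Rg V C} (hA : PP G n a b A)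
    (hW : PP G n a b W) (hBA : Cl G n a b A (A ⊓ W)) (hBW : Cl G n a b W (A ⊓ W)) (hbip : Bip G (A ⊔ W).1)
    (hSF : SF G A W) : PP G n a b (A ⊔ W) := by
  refine ⟨hbip, amal_ls h hA hW hBA hBW hSF, ?_⟩
  intro Z hZ
  have h1 := amal_ineq h hA hW hBA hBW hbip hSF hZ
  have h2 := del_le_sup h (full_restrict hZ le_sup_left) hBA
  have h3 := hW.2.2 (Z ⊓ W) (full_restrict hZ le_sup_right)
  have h4 : (0:ℝ) ≤ (a - 5 * n - 4) * (crossInc G (Z ⊓ A) (A ⊓ W) : ℝ) := by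
    apply mul_nonneg
    · have := h.big
      have hn : (0:ℝ) ≤ n := Nat.cast_nonneg n
      nlinarith
    · exact Nat.cast_nonneg _
  linarith

end Pool.Low
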