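import Pool.Agent.helper24.Low.ML1

/-!
# Module ML3a (Anc): a new vertex has a unique chain of blocks in a closed region
-/

set_option autoImplicit false

namespace Pool.Low

open scoped Classical

variable {V C : Type} [DecidableEq V] [DecidableEq C]
variable {P : Par} {t : ℝ} {S : Sys V C} {i : ℕ}

/-- Let `R` be closed in `D` at all levels `< i`, `v ∈ D \ R`, and `e, e' ∈ R.2` two blocks of the same level `≤ i` containing `v`.
Then `e = e'`.

Induction on the level `l` of `e` and `e'`.  `l = 0`: both are the root (`Ok.lev_par`: a block which is not the root has level `≥ 1`).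
`l = l' + 1`: neither is the root (`Ok.lev_root`), the parents `p, p'` are in `R.2`, have level `l' < i`, and contain `v`
(`Ok.inc_par` for `D`), so `p = p'`.  `reg S R p` is closed in `reg S D p`, `v ∈ (reg S D p).1 \ (reg S R p).1`, and `e`, `e'` are blocks
of `reg S R p` containing `v`: `e = e'` by `cl_unique'` (`KL.ppt`, `wt_Wt`). -/
theorem unique_anc (hP : Good0 P) (h0 : 0 ≤ t) (h1 : t ≤ P.θ) {D R : Rg V C} (hD : KL P (Set.Iio i) S D)
    (hR : ClL P (Set.Iio i) t S D R) {v : V} (hv : v ∈ D.1) (hvR : v ∉ R.1) {e e' : C} (he : e ∈ R.2) (he' : e' ∈ R.2)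
    (hlev : S.lev e = S.lev e') (hle : S.lev e ≤ i) (h2 : S.inc v e) (h3 : S.inc v e') : e = e' := by
  obtain ⟨l, hl⟩ : ∃ l, S.lev e = l := ⟨_, rfl⟩
  induction l generalizing e e' with
  | zero =>
    have hroot : ∀ c ∈ R.2, S.lev c = 0 → c = S.root := by
      intro c hc h
      by_contra hne
      have := hR.ok.lev_par c hc hne
      omega
    rw [hroot e he hl, hroot e' he' (by omega)]
  | succ l ih =>
    have hne : e ≠ S.root := by
      rintro rfl
      rw [hR.ok.lev_root] at hl
      omega
    have hne' : e' ≠ S.root := by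
      rintro rfl
      rw [hR.ok.lev_root] at hlev
      omega
    have hp := hR.ok.lev_par e he hne
    have hp' := hR.ok.lev_par e' he' hne'
    have hie := hD.ok.inc_par v hv e (hR.le.2 he) h2
    have hie' := hD.ok.inc_par v hv e' (hR.le.2 he') h3
    have hpp : S.par e = S.par e' :=
      ih (hR.ok.par_mem e he) (hR.ok.par_mem e' he') (by omega) (by omega) hie hie' (by omega)
    have hpm := hR.ok.par_mem e he
    have hact : S.lev (S.par e) ∈ Set.Iio i := by
      rw [Set.mem_Iio]
      omega
    have hPPT := KL.ppt hP hD h0 h1 (hR.le.2 hpm) hact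
    have hcl := hR.cl (S.par e) hpm hact
    have hθ := hP.θ_lt
    exact cl_unique' (wt_Wt h0 (by linarith)) hPPT hcl (v := v) (mem_reg1.2 ⟨hv, hie⟩)
      (fun h => hvR (mem_reg1.1 h).1) (mem_reg2.2 ⟨he, rfl, hne⟩) (mem_reg2.2 ⟨he', hpp.symm, hne'⟩) h2 h3

/-- ancestors: in a legal region a block of level `l + m` has an ancestor of level `l` in the region, and every vertex of the region in
the block is in the ancestor -/
theorem anc_exists {D : Rg V C} (hD : Ok S D) {c : C} (hc : c ∈ D.2) {l : ℕ} (hl : l ≤ S.lev c) :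
    ∃ m, S.lev (S.par^[m] c) = l ∧ S.par^[m] c ∈ D.2 ∧ S.lev c = l + m ∧
      ∀ v ∈ D.1, S.inc v c → S.inc v (S.par^[m] c) := by
  obtain ⟨k, hk⟩ : ∃ k, S.lev c = l + k := ⟨S.lev c - l, by omega⟩
  induction k generalizing c with
  | zero => exact ⟨0, hk, hc, hk, fun v _ h => h⟩
  | succ k ih =>
    have hne : c ≠ S.root := by
      rintro rfl
      rw [hD.lev_root] at hk
      omega
    have hp := hD.lev_par c hc hne
    obtain ⟨m, hm1, hm2, hm3, hm4⟩ := ih (hD.par_mem c hc) (by omega) (by omega)
    refine ⟨m + 1, ?_, ?_, by omega, ?_⟩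
    · rw [Function.iterate_succ_apply]
      exact hm1
    · rw [Function.iterate_succ_apply]
      exact hm2
    · intro v hv h
      rw [Function.iterate_succ_apply]
      exact hm4 v hv (hD.inc_par v hv c hc h)

end Pool.Low
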