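import Pool.Agent.helper24.Low.Defs

set_option autoImplicit false

namespace Pool.Low

open scoped Classical

section
variable {V C : Type}

theorem rg_le_iff {P Q : Rg V C} : P ≤ Q ↔ P.1 ⊆ Q.1 ∧ P.2 ⊆ Q.2 := Iff.rfl

theorem rg_ext {P Q : Rg V C} (h1 : ∀ v, v ∈ P.1 ↔ v ∈ Q.1) (h2 : ∀ c, c ∈ P.2 ↔ c ∈ Q.2) : P = Q :=
  Prod.ext (Finset.ext h1) (Finset.ext h2)

theorem mem_tr {G : Geo V C} {X : Finset V} {c : C} {v : V} : v ∈ tr G X c ↔ v ∈ X ∧ G.inc v c := by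
  simp [tr]

theorem tr_mono {G : Geo V C} {X Y : Finset V} (h : X ⊆ Y) (c : C) : tr G X c ⊆ tr G Y c :=
  Finset.filter_subset_filter _ h

theorem mem_ed {G : Geo V C} {X : Finset V} {p : V × V} : p ∈ ed G X ↔ (p.1 ∈ X ∧ p.2 ∈ X) ∧ G.E p.1 p.2 := by
  simp [ed, Finset.mem_product]

theorem ed_mono {G : Geo V C} {X Y : Finset V} (h : X ⊆ Y) : ed G X ⊆ ed G Y := by
  intro p hp
  rw [mem_ed] at hp ⊢
  exact ⟨⟨h hp.1.1, h hp.1.2⟩, hp.2⟩

theorem ed_card_le (G : Geo V C) (X : Finset V) : (ed G X).card ≤ X.card ^ 2 := by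
  calc (ed G X).card ≤ (X ×ˢ X).card := Finset.card_filter_le _ _
    _ = X.card ^ 2 := by rw [Finset.card_product, sq]

theorem mm_congr {G : Geo V C} {P Q : Rg V C} (h : P.2 = Q.2) (v : V) : mm G P v = mm G Q v := by
  simp [mm, h]

theorem m2_congr {G : Geo V C} {P Q : Rg V C} (h : P.2 = Q.2) (u v : V) : m2 G P u v = m2 G Q u v := by
  simp [m2, h]

theorem mm_mono {G : Geo V C} {P Q : Rg V C} (h : P.2 ⊆ Q.2) (v : V) : mm G P v ≤ mm G Q v :=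
  Finset.card_le_card (Finset.filter_subset_filter _ h)

theorem m2_mono {G : Geo V C} {P Q : Rg V C} (h : P.2 ⊆ Q.2) (u v : V) : m2 G P u v ≤ m2 G Q u v :=
  Finset.card_le_card (Finset.filter_subset_filter _ h)

theorem m2_le_left (G : Geo V C) (P : Rg V C) (u v : V) : m2 G P u v ≤ mm G P u := by
  apply Finset.card_le_card
  intro c hc
  simp only [Finset.mem_filter] at hc ⊢
  exact ⟨hc.1, hc.2.1⟩

theorem m2_le_right (G : Geo V C) (P : Rg V C) (u v : V) : m2 G P u v ≤ mm G P v := by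
  apply Finset.card_le_card
  intro c hc
  simp only [Finset.mem_filter] at hc ⊢
  exact ⟨hc.1, hc.2.2⟩

theorem m2_comm (G : Geo V C) (P : Rg V C) (u v : V) : m2 G P u v = m2 G P v u := by
  simp only [m2, and_comm]

theorem mm_pos_iff {G : Geo V C} {P : Rg V C} {v : V} : 1 ≤ mm G P v ↔ ∃ c ∈ P.2, G.inc v c := by
  unfold mm
  rw [Nat.succ_le_iff, Finset.card_pos]
  constructor
  · rintro ⟨c, hc⟩
    simp only [Finset.mem_filter] at hc
    exact ⟨c, hc.1, hc.2⟩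
  · rintro ⟨c, hc, h⟩
    exact ⟨c, by simp only [Finset.mem_filter]; exact ⟨hc, h⟩⟩

theorem mm_eq_zero_iff {G : Geo V C} {P : Rg V C} {v : V} : mm G P v = 0 ↔ ∀ c ∈ P.2, ¬ G.inc v c := by
  unfold mm
  rw [Finset.card_eq_zero, Finset.filter_eq_empty_iff]

theorem m2_pos_iff {G : Geo V C} {P : Rg V C} {u v : V} :
    1 ≤ m2 G P u v ↔ ∃ c ∈ P.2, G.inc u c ∧ G.inc v c := by
  unfold m2
  rw [Nat.succ_le_iff, Finset.card_pos]
  constructor
  · rintro ⟨c, hc⟩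
    simp only [Finset.mem_filter] at hc
    exact ⟨c, hc.1, hc.2⟩
  · rintro ⟨c, hc, h⟩
    exact ⟨c, by simp only [Finset.mem_filter]; exact ⟨hc, h⟩⟩

theorem m2_eq_zero_iff {G : Geo V C} {P : Rg V C} {u v : V} :
    m2 G P u v = 0 ↔ ∀ c ∈ P.2, ¬ (G.inc u c ∧ G.inc v c) := by
  unfold m2
  rw [Finset.card_eq_zero, Finset.filter_eq_empty_iff]

/-- at most one block -/
theorem mm_le_one_iff {G : Geo V C} {P : Rg V C} {v : V} :
    mm G P v ≤ 1 ↔ ∀ c ∈ P.2, ∀ c' ∈ P.2, G.inc v c → G.inc v c' → c = c' := by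
  unfold mm
  rw [Finset.card_le_one]
  constructor
  · intro h c hc c' hc' h1 h2
    exact h c (by simp only [Finset.mem_filter]; exact ⟨hc, h1⟩) c' (by simp only [Finset.mem_filter]; exact ⟨hc', h2⟩)
  · intro h c hc c' hc'
    simp only [Finset.mem_filter] at hc hc'
    exact h c hc.1 c' hc'.1 hc.2 hc'.2

theorem mem_reg1 {S : Sys V C} {D : Rg V C} {e : C} {v : V} : v ∈ (reg S D e).1 ↔ v ∈ D.1 ∧ S.inc v e := by
  simp [reg]

theorem mem_reg2 {S : Sys V C} {D : Rg V C} {e c : C} :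
    c ∈ (reg S D e).2 ↔ c ∈ D.2 ∧ S.par c = e ∧ c ≠ S.root := by
  simp [reg]

theorem reg_mono {S : Sys V C} {D D' : Rg V C} (h : D ≤ D') (e : C) : reg S D e ≤ reg S D' e :=
  ⟨Finset.filter_subset_filter _ h.1, Finset.filter_subset_filter _ h.2⟩

theorem mem_trn1 {S : Sys V C} {s : ℕ} {D : Rg V C} {v : V} : v ∈ (trn S s D).1 ↔ v ∈ D.1 := Iff.rfl

theorem mem_trn2 {S : Sys V C} {s : ℕ} {D : Rg V C} {c : C} : c ∈ (trn S s D).2 ↔ c ∈ D.2 ∧ S.lev c ≤ s := by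
  simp [trn]

theorem trn_le {S : Sys V C} {s : ℕ} {D : Rg V C} : trn S s D ≤ D :=
  ⟨Finset.Subset.refl _, Finset.filter_subset _ _⟩

theorem trn_mono {S : Sys V C} {s : ℕ} {D D' : Rg V C} (h : D ≤ D') : trn S s D ≤ trn S s D' :=
  ⟨h.1, Finset.filter_subset_filter _ h.2⟩

theorem mem_hull1 {G : Geo V C} {n : ℕ} {D P : Rg V C} {v : V} : v ∈ (hull G n D P).1 ↔ v ∈ P.1 := Iff.rfl

theorem mem_hull2 {G : Geo V C} {n : ℕ} {D P : Rg V C} {c : C} :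
    c ∈ (hull G n D P).2 ↔ c ∈ D.2 ∧ (c ∈ P.2 ∨ n + 1 ≤ (tr G P.1 c).card) := by
  simp [hull]

theorem mem_xi {G : Geo V C} {P W : Rg V C} {q : V × C} :
    q ∈ xi G P W ↔ q.1 ∈ P.1 ∧ q.2 ∈ W.2 ∧ q.1 ∉ W.1 ∧ q.2 ∉ P.2 ∧ G.inc q.1 q.2 := by
  simp [xi, Finset.mem_product, and_assoc]

theorem mem_xe {G : Geo V C} {P W : Rg V C} {q : V × V} :
    q ∈ xe G P W ↔ q.1 ∈ P.1 ∧ q.2 ∈ W.1 ∧ q.1 ∉ W.1 ∧ q.2 ∉ P.1 ∧ G.E q.1 q.2 := by
  simp [xe, Finset.mem_product, and_assoc]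

theorem SF.symm {G : Geo V C} {A W : Rg V C} (h : SF G A W) : SF G W A where
  left := h.right
  right := h.left
  edge := by
    intro u hu hu' v hv hv' he
    obtain ⟨c, h1, h2, h3, h4⟩ := h.edge v hv hv' u hu hu' he.symm
    exact ⟨c, h2, h1, h4, h3⟩

theorem SFH.symm {S : Sys V C} {act : Set ℕ} {A W : Rg V C} (h : SFH act S A W) : SFH act S W A where
  left := h.right
  right := h.left
  edge := by
    intro u hu hu' v hv hv' he e h1 h2 h3 h4 h5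
    obtain ⟨c, h6, h7, h8, h9, h10, h11⟩ := h.edge v hv hv' u hu hu' he.symm e h2 h1 h3 h5 h4
    exact ⟨c, h7, h6, h8, h9, h11, h10⟩

theorem crossInc_comm (G : Geo V C) (P W : Rg V C) : crossInc G P W = crossInc G W P := by
  unfold crossInc; omega

end

section
variable {V C : Type} [DecidableEq V] [DecidableEq C]

theorem mem_sup1 {P Q : Rg V C} {v : V} : v ∈ (P ⊔ Q).1 ↔ v ∈ P.1 ∨ v ∈ Q.1 := by
  simp [Prod.fst_sup]

theorem mem_sup2 {P Q : Rg V C} {c : C} : c ∈ (P ⊔ Q).2 ↔ c ∈ P.2 ∨ c ∈ Q.2 := by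
  simp [Prod.snd_sup]

theorem mem_inf1 {P Q : Rg V C} {v : V} : v ∈ (P ⊓ Q).1 ↔ v ∈ P.1 ∧ v ∈ Q.1 := by
  simp [Prod.fst_inf]

theorem mem_inf2 {P Q : Rg V C} {c : C} : c ∈ (P ⊓ Q).2 ↔ c ∈ P.2 ∧ c ∈ Q.2 := by
  simp [Prod.snd_inf]

theorem reg_sup (S : Sys V C) (A B : Rg V C) (e : C) : reg S (A ⊔ B) e = reg S A e ⊔ reg S B e := by
  apply rg_ext
  · intro v; rw [mem_reg1, mem_sup1, mem_sup1, mem_reg1, mem_reg1]; tauto
  · intro c; rw [mem_reg2, mem_sup2, mem_sup2, mem_reg2, mem_reg2]; tauto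

theorem reg_inf (S : Sys V C) (A B : Rg V C) (e : C) : reg S (A ⊓ B) e = reg S A e ⊓ reg S B e := by
  apply rg_ext
  · intro v; rw [mem_reg1, mem_inf1, mem_inf1, mem_reg1, mem_reg1]; tauto
  · intro c; rw [mem_reg2, mem_inf2, mem_inf2, mem_reg2, mem_reg2]; tauto

theorem trn_sup (S : Sys V C) (s : ℕ) (A B : Rg V C) : trn S s (A ⊔ B) = trn S s A ⊔ trn S s B := by
  apply rg_ext
  · intro v; rw [mem_trn1, mem_sup1, mem_sup1, mem_trn1, mem_trn1]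
  · intro c; rw [mem_trn2, mem_sup2, mem_sup2, mem_trn2, mem_trn2]; tauto

theorem trn_inf (S : Sys V C) (s : ℕ) (A B : Rg V C) : trn S s (A ⊓ B) = trn S s A ⊓ trn S s B := by
  apply rg_ext
  · intro v; rw [mem_trn1, mem_inf1, mem_inf1, mem_trn1, mem_trn1]
  · intro c; rw [mem_trn2, mem_inf2, mem_inf2, mem_trn2, mem_trn2]; tauto

end

section
variable {V C V' C' V'' C'' : Type}

theorem mem_im1 [DecidableEq V'] [DecidableEq C'] {fv : V → V'} {fc : C → C'} {D : Rg V C} {v : V'} :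
    v ∈ (im fv fc D).1 ↔ ∃ u ∈ D.1, fv u = v := by
  simp [im]

theorem mem_im2 [DecidableEq V'] [DecidableEq C'] {fv : V → V'} {fc : C → C'} {D : Rg V C} {c : C'} :
    c ∈ (im fv fc D).2 ↔ ∃ d ∈ D.2, fc d = c := by
  simp [im]

theorem im_mono [DecidableEq V'] [DecidableEq C'] {fv : V → V'} {fc : C → C'} {A B : Rg V C} (h : A ≤ B) :
    im fv fc A ≤ im fv fc B :=
  ⟨Finset.image_subset_image h.1, Finset.image_subset_image h.2⟩

theorem im_im [DecidableEq V'] [DecidableEq C'] [DecidableEq V''] [DecidableEq C''] (fv : V → V') (fc : C → C')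
    (gv : V' → V'') (gc : C' → C'') (D : Rg V C) : im gv gc (im fv fc D) = im (gv ∘ fv) (gc ∘ fc) D := by
  simp [im, Finset.image_image]

theorem im_sup [DecidableEq V] [DecidableEq C] [DecidableEq V'] [DecidableEq C'] (fv : V → V') (fc : C → C')
    (A B : Rg V C) : im fv fc (A ⊔ B) = im fv fc A ⊔ im fv fc B := by
  apply rg_ext
  · intro v; rw [mem_sup1, mem_im1, mem_im1, mem_im1]
    constructor
    · rintro ⟨u, hu, rfl⟩
      rcases mem_sup1.1 hu with h | h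
      · exact Or.inl ⟨u, h, rfl⟩
      · exact Or.inr ⟨u, h, rfl⟩
    · rintro (⟨u, hu, rfl⟩ | ⟨u, hu, rfl⟩)
      · exact ⟨u, mem_sup1.2 (Or.inl hu), rfl⟩
      · exact ⟨u, mem_sup1.2 (Or.inr hu), rfl⟩
  · intro v; rw [mem_sup2, mem_im2, mem_im2, mem_im2]
    constructor
    · rintro ⟨u, hu, rfl⟩
      rcases mem_sup2.1 hu with h | h
      · exact Or.inl ⟨u, h, rfl⟩
      · exact Or.inr ⟨u, h, rfl⟩
    · rintro (⟨u, hu, rfl⟩ | ⟨u, hu, rfl⟩)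
      · exact ⟨u, mem_sup2.2 (Or.inl hu), rfl⟩
      · exact ⟨u, mem_sup2.2 (Or.inr hu), rfl⟩

theorem im_id [DecidableEq V] [DecidableEq C] (D : Rg V C) : im id id D = D := by
  simp [im]

theorem im_congr [DecidableEq V'] [DecidableEq C'] {fv gv : V → V'} {fc gc : C → C'} {D : Rg V C}
    (hv : ∀ v ∈ D.1, fv v = gv v) (hc : ∀ c ∈ D.2, fc c = gc c) : im fv fc D = im gv gc D := by
  unfold im
  rw [Finset.image_congr hv, Finset.image_congr hc]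

end

/-! ### numbers -/

theorem wt_Wt {g : ℕ} {t : ℝ} (h0 : 0 ≤ t) (h1 : t ≤ 1) : Wt (g + 1) (wa g t) (wb g t) := by
  have hg : (0:ℝ) ≤ g := Nat.cast_nonneg g
  refine ⟨by omega, ?_, ?_, ?_⟩
  · unfold wa wb; push_cast; nlinarith [mul_nonneg hg h0, mul_nonneg hg hg]
  · unfold wa wb; push_cast; nlinarith [mul_nonneg hg h0, mul_nonneg hg hg]
  · unfold wa; push_cast; nlinarith [mul_nonneg hg hg]

section
variable {V C : Type}

theorem dl_eq (G : Geo V C) (g : ℕ) (t : ℝ) (P : Rg V C) :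
    dl G g t P = dl G g 0 P - t * (psi G (g + 4) P : ℝ) := by
  unfold dl del psi wa wb
  push_cast
  ring

theorem dl_zero_int (G : Geo V C) (g : ℕ) (P : Rg V C) : ∃ z : ℤ, dl G g 0 P = z := by
  refine ⟨64 * ((g : ℤ) + 2) ^ 2 * ∑ v ∈ P.1, (1 - (mm G P v : ℤ))
    + (((g : ℤ) + 1) * (64 * ((g : ℤ) + 2) ^ 2) + 32 * ((g : ℤ) + 2) ^ 2) * (P.2.card : ℤ)
    - ∑ p ∈ ed G P.1, (1 - (m2 G P p.1 p.2 : ℤ)), ?_⟩
  unfold dl del wa wb
  push_cast
  ring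

theorem dl_sub (G : Geo V C) (g : ℕ) (t t' : ℝ) (P : Rg V C) :
    dl G g t' P = dl G g t P + (t - t') * (psi G (g + 4) P : ℝ) := by
  rw [dl_eq G g t, dl_eq G g t']; ring

theorem wa_pos {g : ℕ} {t : ℝ} (h1 : t ≤ 1) : 255 ≤ wa g t := by
  have hg : (0:ℝ) ≤ g := Nat.cast_nonneg g
  unfold wa; nlinarith [mul_nonneg hg hg]

end

end Pool.Low
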