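import Pool.Agent.helper24.Low.Tr2

/-!
# Module CO (Code): finitely many isomorphism types of labelled regions

The code of `(R, b, lv, lc)` (`lv : V → Fin X`, `lc : C → Fin X` labels, injective on `R`) consists of: the sets `lv(R.1)`, `lc(R.2)` of
used labels, and the functions/relations induced on labels: colour, edges, incidences, levels (in `Fin (s+1)`), parents, the label of the
root, the labels of `b` (dummy values for unused labels).  This is an element of a fixed finite type, which is in bijection with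
some `Fin n`.  If the codes agree, the map `fv` sending `v ∈ R.1` to the unique `v' ∈ R'.1` with `lv' v' = lv v` (and `fc` similarly) is the
required isomorphism.
-/

set_option autoImplicit false

namespace Pool.Low

open scoped Classical

/-- the type of the codes -/
abbrev CodeT (s X m : ℕ) : Type :=
  (Set (Fin X) × Set (Fin X) × Set (Fin X)) × (Set (Fin X × Fin X) × Set (Fin X × Fin X)) ×
    (Set (Fin X × Fin (s + 1)) × Set (Fin X × Fin X)) × Fin X × (Fin m → Fin X)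

/-- the code of a labelled region -/
def codeOf {V C : Type} (S : Sys V C) (s X m : ℕ) (R : Rg V C) (b : Fin m → V) (lv : V → Fin X)
    (lc : C → Fin X) : CodeT s X m :=
  (({x | ∃ v ∈ R.1, lv v = x}, {x | ∃ c ∈ R.2, lc c = x}, {x | ∃ v ∈ R.1, lv v = x ∧ S.col v = true}),
    ({p | ∃ u ∈ R.1, ∃ v ∈ R.1, lv u = p.1 ∧ lv v = p.2 ∧ S.E u v},
      {p | ∃ v ∈ R.1, ∃ c ∈ R.2, lv v = p.1 ∧ lc c = p.2 ∧ S.inc v c}),
    ({p | ∃ c ∈ R.2, lc c = p.1 ∧ S.lev c = (p.2 : ℕ)}, {p | ∃ c ∈ R.2, lc c = p.1 ∧ lc (S.par c) = p.2}),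
    lc S.root, fun i => lv (b i))

theorem Code_eq {V C : Type} [DecidableEq V] [DecidableEq C] (S : Sys V C) (s X m : ℕ)
    (R R' : Rg V C) (b b' : Fin m → V) (lv lv' : V → Fin X) (lc lc' : C → Fin X)
    (hR : Ok S R) (hR' : Ok S R') (hs : ∀ c ∈ R.2, S.lev c ≤ s) (hs' : ∀ c ∈ R'.2, S.lev c ≤ s)
    (hb : ∀ i, b i ∈ R.1) (hb' : ∀ i, b' i ∈ R'.1)
    (iv : Set.InjOn lv (R.1 : Set V)) (ic : Set.InjOn lc (R.2 : Set C))
    (iv' : Set.InjOn lv' (R'.1 : Set V)) (ic' : Set.InjOn lc' (R'.2 : Set C))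
    (he : codeOf S s X m R b lv lc = codeOf S s X m R' b' lv' lc') :
    ∃ (fv : V → V) (fc : C → C), IsEmb S R S fv fc ∧ im fv fc R = R' ∧ (∀ v ∈ R.1, lv' (fv v) = lv v) ∧
      (∀ c ∈ R.2, lc' (fc c) = lc c) ∧ ∀ i, fv (b i) = b' i := by
  unfold codeOf at he
  simp only [Prod.mk.injEq] at he
  obtain ⟨⟨e1, e2, e3⟩, ⟨e4, e5⟩, ⟨e6, e7⟩, e8, e9⟩ := he
  have exv : ∀ v : V, ∃ v' : V, v ∈ R.1 → v' ∈ R'.1 ∧ lv' v' = lv v := by
    intro v
    by_cases hv : v ∈ R.1
    · have h1 : lv v ∈ {x | ∃ v ∈ R.1, lv v = x} := ⟨v, hv, rfl⟩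
      rw [e1] at h1
      obtain ⟨v', h2, h3⟩ := h1
      exact ⟨v', fun _ => ⟨h2, h3⟩⟩
    · exact ⟨v, fun h => absurd h hv⟩
  have exc : ∀ c : C, ∃ c' : C, c ∈ R.2 → c' ∈ R'.2 ∧ lc' c' = lc c := by
    intro c
    by_cases hc : c ∈ R.2
    · have h1 : lc c ∈ {x | ∃ c ∈ R.2, lc c = x} := ⟨c, hc, rfl⟩
      rw [e2] at h1
      obtain ⟨c', h2, h3⟩ := h1
      exact ⟨c', fun _ => ⟨h2, h3⟩⟩
    · exact ⟨c, fun h => absurd h hc⟩
  choose fv hfv using exv
  choose fc hfc using exc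
  -- uniqueness
  have uv : ∀ v ∈ R.1, ∀ v' ∈ R'.1, lv' v' = lv v → v' = fv v := fun v hv v' hv' h =>
    iv' hv' (hfv v hv).1 (h.trans (hfv v hv).2.symm)
  have uc : ∀ c ∈ R.2, ∀ c' ∈ R'.2, lc' c' = lc c → c' = fc c := fun c hc c' hc' h =>
    ic' hc' (hfc c hc).1 (h.trans (hfc c hc).2.symm)
  refine ⟨fv, fc, ?_, ?_, fun v hv => (hfv v hv).2, fun c hc => (hfc c hc).2, ?_⟩
  · refine ⟨?_, ?_, ?_, ?_, ?_, ?_, ?_, ?_⟩
    · intro u hu v hv h
      exact iv hu hv ((hfv u hu).2.symm.trans ((congrArg lv' h).trans (hfv v hv).2))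
    · intro u hu v hv h
      exact ic hu hv ((hfc u hu).2.symm.trans ((congrArg lc' h).trans (hfc v hv).2))
    · intro v hv
      have h1 : S.col v = true → S.col (fv v) = true := by
        intro h
        have h2 : lv v ∈ {x | ∃ v ∈ R.1, lv v = x ∧ S.col v = true} := ⟨v, hv, rfl, h⟩
        rw [e3] at h2
        obtain ⟨v', h3, h4, h5⟩ := h2
        rw [← uv v hv v' h3 h4]
        exact h5
      have h1' : S.col (fv v) = true → S.col v = true := by
        intro h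
        have h2 : lv' (fv v) ∈ {x | ∃ v ∈ R'.1, lv' v = x ∧ S.col v = true} :=
          ⟨fv v, (hfv v hv).1, rfl, h⟩
        rw [← e3] at h2
        obtain ⟨u, h3, h4, h5⟩ := h2
        rw [(hfv v hv).2] at h4
        rw [← iv h3 hv h4]
        exact h5
      cases hc : S.col v <;> cases hc' : S.col (fv v)
      · rfl
      · exact absurd (h1' hc') (by rw [hc]; simp)
      · exact absurd (h1 hc) (by rw [hc']; simp)
      · rfl
    · intro u hu v hv
      constructor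
      · intro h
        have h2 : (lv' (fv u), lv' (fv v)) ∈ {p : Fin X × Fin X | ∃ u ∈ R'.1, ∃ v ∈ R'.1,
            lv' u = p.1 ∧ lv' v = p.2 ∧ S.E u v} :=
          ⟨fv u, (hfv u hu).1, fv v, (hfv v hv).1, rfl, rfl, h⟩
        rw [← e4] at h2
        obtain ⟨a, ha, c, hc, h3, h4, h5⟩ := h2
        have h3' : lv a = lv u := h3.trans (hfv u hu).2
        have h4' : lv c = lv v := h4.trans (hfv v hv).2
        rw [← iv ha hu h3', ← iv hc hv h4']
        exact h5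
      · intro h
        have h2 : (lv u, lv v) ∈ {p : Fin X × Fin X | ∃ u ∈ R.1, ∃ v ∈ R.1,
            lv u = p.1 ∧ lv v = p.2 ∧ S.E u v} := ⟨u, hu, v, hv, rfl, rfl, h⟩
        rw [e4] at h2
        obtain ⟨a, ha, c, hc, h3, h4, h5⟩ := h2
        rw [← uv u hu a ha h3, ← uv v hv c hc h4]
        exact h5
    · intro v hv c hc
      constructor
      · intro h
        have h2 : (lv' (fv v), lc' (fc c)) ∈ {p : Fin X × Fin X | ∃ v ∈ R'.1, ∃ c ∈ R'.2,
            lv' v = p.1 ∧ lc' c = p.2 ∧ S.inc v c} :=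
          ⟨fv v, (hfv v hv).1, fc c, (hfc c hc).1, rfl, rfl, h⟩
        rw [← e5] at h2
        obtain ⟨a, ha, d, hd, h3, h4, h5⟩ := h2
        have h3' : lv a = lv v := h3.trans (hfv v hv).2
        have h4' : lc d = lc c := h4.trans (hfc c hc).2
        rw [← iv ha hv h3', ← ic hd hc h4']
        exact h5
      · intro h
        have h2 : (lv v, lc c) ∈ {p : Fin X × Fin X | ∃ v ∈ R.1, ∃ c ∈ R.2,
            lv v = p.1 ∧ lc c = p.2 ∧ S.inc v c} := ⟨v, hv, c, hc, rfl, rfl, h⟩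
        rw [e5] at h2
        obtain ⟨a, ha, d, hd, h3, h4, h5⟩ := h2
        rw [← uv v hv a ha h3, ← uc c hc d hd h4]
        exact h5
    · intro c hc
      have h2 : (lc c, (⟨S.lev c, Nat.lt_succ_of_le (hs c hc)⟩ : Fin (s + 1))) ∈
          {p : Fin X × Fin (s + 1) | ∃ c ∈ R.2, lc c = p.1 ∧ S.lev c = (p.2 : ℕ)} :=
        ⟨c, hc, rfl, rfl⟩
      rw [e6] at h2
      obtain ⟨d, hd, h3, h4⟩ := h2
      rw [← uc c hc d hd h3]
      exact h4
    · intro c hc
      have h2 : (lc c, lc (S.par c)) ∈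
          {p : Fin X × Fin X | ∃ c ∈ R.2, lc c = p.1 ∧ lc (S.par c) = p.2} := ⟨c, hc, rfl, rfl⟩
      rw [e7] at h2
      obtain ⟨d, hd, h3, h4⟩ := h2
      rw [← uc c hc d hd h3]
      exact uc (S.par c) (hR.par_mem c hc) (S.par d) (hR'.par_mem d hd) h4
    · exact (uc S.root hR.root_mem S.root hR'.root_mem e8.symm).symm
  · apply rg_ext
    · intro v
      rw [mem_im1]
      constructor
      · rintro ⟨u, hu, rfl⟩
        exact (hfv u hu).1
      · intro hv
        have h1 : lv' v ∈ {x | ∃ v ∈ R'.1, lv' v = x} := ⟨v, hv, rfl⟩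
        rw [← e1] at h1
        obtain ⟨u, hu, h2⟩ := h1
        exact ⟨u, hu, (uv u hu v hv h2.symm).symm⟩
    · intro c
      rw [mem_im2]
      constructor
      · rintro ⟨u, hu, rfl⟩
        exact (hfc u hu).1
      · intro hc
        have h1 : lc' c ∈ {x | ∃ c ∈ R'.2, lc' c = x} := ⟨c, hc, rfl⟩
        rw [← e2] at h1
        obtain ⟨u, hu, h2⟩ := h1
        exact ⟨u, hu, (uc u hu c hc h2.symm).symm⟩
  · intro i
    exact (uv (b i) (hb i) (b' i) (hb' i) (congrFun e9 i).symm).symm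

theorem exists_code {V C : Type} [DecidableEq V] [DecidableEq C] (S : Sys V C) (s X m : ℕ) :
    ∃ (n : ℕ) (code : Rg V C → (Fin m → V) → (V → Fin X) → (C → Fin X) → Fin n),
      ∀ (R R' : Rg V C) (b b' : Fin m → V) (lv lv' : V → Fin X) (lc lc' : C → Fin X),
        Ok S R → Ok S R' → (∀ c ∈ R.2, S.lev c ≤ s) → (∀ c ∈ R'.2, S.lev c ≤ s) →
        (∀ i, b i ∈ R.1) → (∀ i, b' i ∈ R'.1) →
        Set.InjOn lv (R.1 : Set V) → Set.InjOn lc (R.2 : Set C) → Set.InjOn lv' (R'.1 : Set V) →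
        Set.InjOn lc' (R'.2 : Set C) → code R b lv lc = code R' b' lv' lc' →
        ∃ (fv : V → V) (fc : C → C), IsEmb S R S fv fc ∧ im fv fc R = R' ∧ (∀ v ∈ R.1, lv' (fv v) = lv v) ∧
          (∀ c ∈ R.2, lc' (fc c) = lc c) ∧ ∀ i, fv (b i) = b' i := by
  obtain ⟨n, ⟨e⟩⟩ := Finite.exists_equiv_fin (CodeT s X m)
  refine ⟨n, fun R b lv lc => e (codeOf S s X m R b lv lc), ?_⟩
  intro R R' b b' lv lv' lc lc' h1 h2 h3 h4 h5 h6 h7 h8 h9 h10 h11
  exact Code_eq S s X m R R' b b' lv lv' lc lc' h1 h2 h3 h4 h5 h6 h7 h8 h9 h10 (e.injective h11)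

end Pool.Low
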