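import Pool.Agent.helper24.Low.Defs

/-!
# Module N1 (Rank): bounded descent in `ℕ^r` (lexicographic order)

Claim: for every `v : Fin r → ℕ` and `j0` there is `J` such that no sequence `ρ_0 = v, ρ_1, ..., ρ_J` with `lexlt (ρ (j+1)) (ρ j)` for all
`j < J` and `ρ_j ≤ B (j0 + j)` (coordinatewise) exists.  Well-founded induction on `v` (`lexlt` is well-founded on `Fin r → ℕ`, e.g.
`Pi.Lex` of well-orders): the possible `ρ_1` form a finite set (`≤ B (j0 + 1)`), all smaller than `v`; take `J = 1 + max` of the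
`J`'s of these for `j0 + 1`.  For the theorem: finitely many `ρ_0 ≤ B 0`.
-/

set_option autoImplicit false

namespace Pool.Low

theorem lexlt_wf (r : ℕ) : WellFounded (fun x y : Fin r → ℕ => lexlt x y) := by
  have h : WellFoundedLT (Lex (Fin r → ℕ)) := inferInstance
  have h2 := h.wf
  refine Subrelation.wf ?_ (InvImage.wf (fun x : Fin r → ℕ => toLex x) h2)
  intro x y hxy
  obtain ⟨i, h1, h2⟩ := hxy
  exact ⟨i, fun j hj => h1 j hj, h2⟩

theorem controlled_descent_aux (r : ℕ) (B : ℕ → ℕ) (v : Fin r → ℕ) :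
    ∀ j0 : ℕ, ∃ J : ℕ, ∀ ρ : ℕ → Fin r → ℕ, ρ 0 = v → (∀ j ≤ J, ∀ i, ρ j i ≤ B (j0 + j)) →
      ∃ j < J, ¬ lexlt (ρ (j + 1)) (ρ j) := by
  classical
  induction v using (lexlt_wf r).induction with
  | _ v ih =>
    intro j0
    have hex : ∀ w : Fin r → ℕ, ∃ J : ℕ, lexlt w v → ∀ ρ : ℕ → Fin r → ℕ, ρ 0 = w →
        (∀ j ≤ J, ∀ i, ρ j i ≤ B (j0 + 1 + j)) → ∃ j < J, ¬ lexlt (ρ (j + 1)) (ρ j) := by
      intro w
      by_cases hw : lexlt w v
      · obtain ⟨J, hJ⟩ := ih w hw (j0 + 1)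
        exact ⟨J, fun _ => hJ⟩
      · exact ⟨0, fun h => absurd h hw⟩
    choose Jf hJf using hex
    set T : Finset (Fin r → ℕ) := Fintype.piFinset (fun _ => Finset.range (B (j0 + 1) + 1)) with hT
    refine ⟨T.sup Jf + 1, ?_⟩
    intro ρ h0 hB
    by_cases hlt : lexlt (ρ (0 + 1)) (ρ 0)
    · have hmem : ρ 1 ∈ T := by
        rw [hT, Fintype.mem_piFinset]
        intro i
        rw [Finset.mem_range]
        have := hB 1 (by omega) i
        omega
      have hle : Jf (ρ 1) ≤ T.sup Jf := Finset.le_sup hmem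
      rw [h0] at hlt
      obtain ⟨j, hj, hn⟩ := hJf (ρ 1) hlt (fun j => ρ (j + 1)) rfl (by
        intro j hj i
        have := hB (j + 1) (by omega) i
        have e : j0 + 1 + j = j0 + (j + 1) := by ring
        rw [e]; exact this)
      exact ⟨j + 1, by omega, hn⟩
    · exact ⟨0, by omega, hlt⟩

theorem controlled_descent (r : ℕ) (B : ℕ → ℕ) :
    ∃ J : ℕ, ∀ ρ : ℕ → Fin r → ℕ, (∀ j ≤ J, ∀ i, ρ j i ≤ B j) → ∃ j < J, ¬ lexlt (ρ (j + 1)) (ρ j) := by
  classical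
  have hex : ∀ w : Fin r → ℕ, ∃ J : ℕ, ∀ ρ : ℕ → Fin r → ℕ, ρ 0 = w →
      (∀ j ≤ J, ∀ i, ρ j i ≤ B (0 + j)) → ∃ j < J, ¬ lexlt (ρ (j + 1)) (ρ j) :=
    fun w => controlled_descent_aux r B w 0
  choose Jf hJf using hex
  set T : Finset (Fin r → ℕ) := Fintype.piFinset (fun _ => Finset.range (B 0 + 1)) with hT
  refine ⟨T.sup Jf, ?_⟩
  intro ρ hB
  have hmem : ρ 0 ∈ T := by
    rw [hT, Fintype.mem_piFinset]
    intro i
    rw [Finset.mem_range]
    have := hB 0 (Nat.zero_le _) i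
    omega
  have hle : Jf (ρ 0) ≤ T.sup Jf := Finset.le_sup hmem
  obtain ⟨j, hj, hn⟩ := hJf (ρ 0) ρ rfl (by
    intro j hj i
    rw [Nat.zero_add]
    exact hB j (by omega) i)
  exact ⟨j, by omega, hn⟩

end Pool.Low
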