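import Pool.Agent.helper24.Low.LevDich

/-!
# Module N4 (RankStep): the rank of a closed region over a smaller one

`rk C0 A = (⌊Q (Dv_i A - Dv_i C0)⌋)_{i < s}, |A \ C0|)`.  For closed `C0 ≤ A` the numbers `Q (Dv_i A - Dv_i C0)` are nonnegative
integers (`dv_int`, `dv_mono`), so `⌊ ⌋₊` loses nothing.

`rank_step`: apply `level_dichotomy` to `A` and `C1`; `B = A ⊓ C1 ≥ C0` is closed (`clL_inf`), so `Dv_i C0 ≤ Dv_i B` for `i < s`
(`dv_mono`).  `A' ≤ E` (`hmin`), so `Dv_i A' ≤ Dv_i E`.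
* First alternative, with level `i`: for `j < i`: `Dv_j A' - Dv_j C1 ≤ Dv_j E - Dv_j C1 = Dv_j A - Dv_j B ≤ Dv_j A - Dv_j C0`, and at `i` the
  same with strict inequality (a difference of integers divided by `Q`): take the first coordinate where the two vectors differ (it
  exists and is `≤ i`): `lexlt`.
* Second alternative: `E = A ⊔ C1`, so `A' = A ⊔ C1` is closed, all coordinates `< s` are `≤`.  `A'.1 \ C1.1 = A.1 \ C1.1 = A.1 \ B.1 ⊆
  A.1 \ C0.1` and the same for blocks, so the last coordinate is `≤`, with equality iff `B = C0`.  If `B ≠ C0` we get `lexlt` (first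
  coordinate where they differ).  If `B = C0` the second alternative of the theorem holds.

`rk_bound`: `Dv_i A ≤ |A.2| * (wa |A.1| + wb |A.2| + |A.1|^2 |A.2|)`.
-/

set_option autoImplicit false

namespace Pool.Low

open scoped Classical

/-- the rank -/
noncomputable def rk {V C : Type} [DecidableEq V] [DecidableEq C] (P : Par) (t : ℝ) (Q s : ℕ) (S : Sys V C)
    (C0 A : Rg V C) : Fin (s + 1) → ℕ := fun i =>
  if (i : ℕ) < s then ⌊(Q : ℝ) * (Dv P t S i A - Dv P t S i C0)⌋₊ else (A.1 \ C0.1).card + (A.2 \ C0.2).card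

variable {V C : Type} [DecidableEq V] [DecidableEq C] {P : Par} {t : ℝ} {S : Sys V C} {s : ℕ}

theorem lexlt_of_le_lt {r : ℕ} {x y : Fin r → ℕ} (i : Fin r) (h : ∀ j < i, x j ≤ y j) (hi : x i < y i) :
    lexlt x y := by
  obtain ⟨m, hm, hmin⟩ := WellFounded.has_min (wellFounded_lt (α := Fin r)) {j | x j < y j} ⟨i, hi⟩
  have hmi : m ≤ i := not_lt.1 (hmin i hi)
  refine ⟨m, fun j hj => ?_, hm⟩
  have h1 : ¬ x j < y j := fun hlt => hmin j hlt hj
  have h2 := h j (lt_of_lt_of_le hj hmi)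
  omega

theorem floor_lt_of_int {x y : ℝ} (hx : ∃ z : ℤ, x = z) (hy : ∃ z : ℤ, y = z) (h0 : 0 ≤ x) (h : x < y) :
    ⌊x⌋₊ < ⌊y⌋₊ := by
  obtain ⟨a, rfl⟩ := hx
  obtain ⟨b, rfl⟩ := hy
  have h1 : (0 : ℤ) ≤ a := by exact_mod_cast h0
  have h2 : a < b := by exact_mod_cast h
  have e1 : ((a.toNat : ℤ) : ℝ) = (a : ℝ) := by rw [Int.toNat_of_nonneg h1]
  have e2 : ((b.toNat : ℤ) : ℝ) = (b : ℝ) := by rw [Int.toNat_of_nonneg (by omega)]
  rw [← e1, ← e2]
  push_cast
  rw [Nat.floor_natCast, Nat.floor_natCast]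
  omega

theorem rank_step (hP : Good0 P) (h0 : 0 ≤ t) (h1 : t ≤ P.θ) {Q : ℕ} (hQ1 : 1 ≤ Q) (hQ : ∃ z : ℤ, (Q : ℝ) * t = z)
    {D C0 C1 A A' : Rg V C} (hD : KL P (Set.Iio s) S D) (hlev : ∀ c ∈ D.2, S.lev c ≤ s)
    (hC0 : ClL P (Set.Iio s) t S D C0) (hC1 : ClL P (Set.Iio s) t S D C1) (h01 : C0 ≤ C1)
    (hA : ClL P (Set.Iio s) t S D A) (hA0 : C0 ≤ A) (hA' : ClL P (Set.Iio s) t S D A') (hAA' : A ⊔ C1 ≤ A')
    (hmin : ∀ Z, ClL P (Set.Iio s) t S D Z → A ⊔ C1 ≤ Z → A' ≤ Z) :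
    lexlt (rk P t Q s S C1 A') (rk P t Q s S C0 A) ∨
      (A ⊓ C1 = C0 ∧ ClL P (Set.Iio s) t S D (A ⊔ C1) ∧ SFH (Set.Iio s) S A C1) := by
  obtain ⟨E, hE, hAE, hcase⟩ := level_dichotomy hP h0 h1 hD hlev hA hC1
  have hA'E : A' ≤ E := hmin E hE hAE
  have hBcl : ClL P (Set.Iio s) t S D (A ⊓ C1) := clL_inf hP h0 h1 hD hA hC1
  have hC0B : C0 ≤ A ⊓ C1 := le_inf hA0 h01
  have hC1A' : C1 ≤ A' := le_sup_right.trans hAA'
  have hQr : (0 : ℝ) < Q := by exact_mod_cast hQ1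
  have m1 : ∀ j < s, Dv P t S j A' ≤ Dv P t S j E := fun j hj =>
    dv_mono hP h0 h1 hD hA' hE.fullL hA'E hj
  have m2 : ∀ j < s, Dv P t S j C0 ≤ Dv P t S j (A ⊓ C1) := fun j hj =>
    dv_mono hP h0 h1 hD hC0 hBcl.fullL hC0B hj
  have m3 : ∀ j < s, Dv P t S j C1 ≤ Dv P t S j A' := fun j hj =>
    dv_mono hP h0 h1 hD hC1 hA'.fullL hC1A' hj
  have hrkle : ∀ j : Fin (s + 1), (j : ℕ) < s →
      Dv P t S j E + Dv P t S j (A ⊓ C1) = Dv P t S j A + Dv P t S j C1 →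
      rk P t Q s S C1 A' j ≤ rk P t Q s S C0 A j := by
    intro j hj he
    unfold rk
    rw [if_pos hj, if_pos hj]
    apply Nat.floor_le_floor
    apply mul_le_mul_of_nonneg_left _ hQr.le
    have a1 := m1 j hj
    have a2 := m2 j hj
    linarith
  rcases hcase with ⟨i, his, hlt, hi⟩ | ⟨hEeq, heq, hsf⟩
  · left
    apply lexlt_of_le_lt (⟨i, by omega⟩ : Fin (s + 1))
    · intro j hj
      have hj' : (j : ℕ) < i := hj
      exact hrkle j (by omega) (hlt j hj')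
    · unfold rk
      simp only [his, if_true]
      apply floor_lt_of_int
      · obtain ⟨z1, hz1⟩ := dv_int (P := P) (S := S) (i := i) hQ A'
        obtain ⟨z2, hz2⟩ := dv_int (P := P) (S := S) (i := i) hQ C1
        exact ⟨z1 - z2, by rw [mul_sub, hz1, hz2]; push_cast; ring⟩
      · obtain ⟨z1, hz1⟩ := dv_int (P := P) (S := S) (i := i) hQ A
        obtain ⟨z2, hz2⟩ := dv_int (P := P) (S := S) (i := i) hQ C0
        exact ⟨z1 - z2, by rw [mul_sub, hz1, hz2]; push_cast; ring⟩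
      · have a3 := m3 i his
        exact mul_nonneg hQr.le (by linarith)
      · apply mul_lt_mul_of_pos_left _ hQr
        have a1 := m1 i his
        have a2 := m2 i his
        linarith
  · have hA'eq : A' = A ⊔ C1 := le_antisymm (hEeq ▸ hA'E) hAA'
    by_cases hB : A ⊓ C1 = C0
    · right
      exact ⟨hB, hEeq ▸ hE, hsf⟩
    · left
      apply lexlt_of_le_lt (Fin.last s)
      · intro j hj
        have hj' : (j : ℕ) < s := hj
        exact hrkle j hj' (heq j hj')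
      · unfold rk
        simp only [Fin.val_last, lt_irrefl, if_false]
        have s1 : A'.1 \ C1.1 ⊆ A.1 \ C0.1 := by
          intro v hv
          rw [Finset.mem_sdiff] at hv ⊢
          rw [hA'eq, mem_sup1] at hv
          refine ⟨hv.1.resolve_right hv.2, fun h => hv.2 (h01.1 h)⟩
        have s2 : A'.2 \ C1.2 ⊆ A.2 \ C0.2 := by
          intro v hv
          rw [Finset.mem_sdiff] at hv ⊢
          rw [hA'eq, mem_sup2] at hv
          refine ⟨hv.1.resolve_right hv.2, fun h => hv.2 (h01.2 h)⟩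
        have c1 := Finset.card_le_card s1
        have c2 := Finset.card_le_card s2
        have hex : (∃ v, v ∈ (A ⊓ C1).1 ∧ v ∉ C0.1) ∨ (∃ c, c ∈ (A ⊓ C1).2 ∧ c ∉ C0.2) := by
          by_contra hcon
          push Not at hcon
          exact hB (le_antisymm (rg_le_iff.2 ⟨fun v hv => hcon.1 v hv, fun c hc => hcon.2 c hc⟩) hC0B)
        rcases hex with ⟨v, hv1, hv2⟩ | ⟨v, hv1, hv2⟩
        · rw [mem_inf1] at hv1
          have c3 : (A'.1 \ C1.1).card < (A.1 \ C0.1).card := by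
            apply Finset.card_lt_card
            refine ⟨s1, fun hsub => ?_⟩
            have := hsub (Finset.mem_sdiff.2 ⟨hv1.1, hv2⟩)
            exact (Finset.mem_sdiff.1 this).2 hv1.2
          omega
        · rw [mem_inf2] at hv1
          have c3 : (A'.2 \ C1.2).card < (A.2 \ C0.2).card := by
            apply Finset.card_lt_card
            refine ⟨s2, fun hsub => ?_⟩
            have := hsub (Finset.mem_sdiff.2 ⟨hv1.1, hv2⟩)
            exact (Finset.mem_sdiff.1 this).2 hv1.2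
          omega

theorem dl_upper {V C : Type} (G : Geo V C) (g : ℕ) {t : ℝ} (h0 : 0 ≤ t) (h1 : t ≤ 1) (R : Rg V C) {M : ℕ}
    (hM1 : R.1.card ≤ M) (hM2 : R.2.card ≤ M) :
    dl G g t R ≤ wa g t * M + wb g t * M + (M : ℝ) ^ 2 * M := by
  have ha : 255 ≤ wa g t := wa_pos h1
  have hw := wt_Wt (g := g) h0 h1
  have hb : 0 ≤ wb g t := by
    have := hw.lo
    have h3 : (0 : ℝ) ≤ ((g + 1 : ℕ) : ℝ) * wa g t := mul_nonneg (Nat.cast_nonneg _) (by linarith)
    linarith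
  have hM1r : (R.1.card : ℝ) ≤ M := by exact_mod_cast hM1
  have hM2r : (R.2.card : ℝ) ≤ M := by exact_mod_cast hM2
  have hMr : (0 : ℝ) ≤ M := Nat.cast_nonneg M
  unfold dl del
  have e1 : wa g t * ∑ v ∈ R.1, (1 - (mm G R v : ℝ)) ≤ wa g t * M := by
    apply mul_le_mul_of_nonneg_left _ (by linarith)
    calc ∑ v ∈ R.1, (1 - (mm G R v : ℝ)) ≤ ∑ v ∈ R.1, (1 : ℝ) := by
          apply Finset.sum_le_sum
          intro v _
          have : (0 : ℝ) ≤ (mm G R v : ℝ) := Nat.cast_nonneg _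
          linarith
      _ = (R.1.card : ℝ) := by simp
      _ ≤ M := hM1r
  have e2 : wb g t * (R.2.card : ℝ) ≤ wb g t * M := mul_le_mul_of_nonneg_left hM2r hb
  have e3 : -∑ p ∈ ed G R.1, (1 - (m2 G R p.1 p.2 : ℝ)) ≤ (M : ℝ) ^ 2 * M := by
    rw [← Finset.sum_neg_distrib]
    calc ∑ p ∈ ed G R.1, -(1 - (m2 G R p.1 p.2 : ℝ)) ≤ ∑ p ∈ ed G R.1, (M : ℝ) := by
          apply Finset.sum_le_sum
          intro p _
          have h3 : (m2 G R p.1 p.2) ≤ M := (Finset.card_filter_le _ _).trans hM2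
          have h4 : (m2 G R p.1 p.2 : ℝ) ≤ M := by exact_mod_cast h3
          linarith
      _ = ((ed G R.1).card : ℝ) * M := by simp
      _ ≤ (M : ℝ) ^ 2 * M := by
          apply mul_le_mul_of_nonneg_right _ hMr
          have h5 := ed_card_le G R.1
          have h6 : (ed G R.1).card ≤ M ^ 2 := h5.trans (Nat.pow_le_pow_left hM1 2)
          exact_mod_cast h6
  linarith

theorem rk_bound (P : Par) (t : ℝ) (h0 : 0 ≤ t) (h1 : t ≤ 1) (Q s : ℕ) :
    ∃ F : ℕ → ℕ, ∀ (V C : Type) [DecidableEq V] [DecidableEq C] (S : Sys V C) (C0 A : Rg V C) (M : ℕ), A.1.card ≤ M →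
      A.2.card ≤ M → (∀ i < s, 0 ≤ Dv P t S i C0) → ∀ i, rk P t Q s S C0 A i ≤ F M := by
  let bd : ℕ → ℕ → ℝ := fun M i => (M : ℝ) * (wa (P.gs i) t * M + wb (P.gs i) t * M + (M : ℝ) ^ 2 * M)
  refine ⟨fun M => ∑ i ∈ Finset.range s, ⌈(Q : ℝ) * bd M i⌉₊ + 2 * M, ?_⟩
  intro V C _ _ S C0 A M hM1 hM2 hC0 i
  unfold rk
  by_cases hi : (i : ℕ) < s
  · rw [if_pos hi]
    have hQr : (0 : ℝ) ≤ Q := Nat.cast_nonneg Q
    have hA : Dv P t S i A ≤ bd M i := by
      unfold Dv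
      have hb0 : ∀ e : C, dl S.toGeo (P.gs i) t (reg S A e) ≤
          wa (P.gs i) t * M + wb (P.gs i) t * M + (M : ℝ) ^ 2 * M := by
        intro e
        have r1 : (reg S A e).1 ⊆ A.1 := fun v hv => (mem_reg1.1 hv).1
        have r2 : (reg S A e).2 ⊆ A.2 := fun c hc => (mem_reg2.1 hc).1
        exact dl_upper S.toGeo (P.gs i) h0 h1 (reg S A e)
          ((Finset.card_le_card r1).trans hM1) ((Finset.card_le_card r2).trans hM2)
      have hpos : 0 ≤ wa (P.gs i) t * M + wb (P.gs i) t * M + (M : ℝ) ^ 2 * M := by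
        have ha : 255 ≤ wa (P.gs i) t := wa_pos h1
        have hw := wt_Wt (g := P.gs i) h0 h1
        have hb : 0 ≤ wb (P.gs i) t := by
          have := hw.lo
          have h3 : (0 : ℝ) ≤ ((P.gs i + 1 : ℕ) : ℝ) * wa (P.gs i) t := mul_nonneg (Nat.cast_nonneg _) (by linarith)
          linarith
        have hMr : (0 : ℝ) ≤ M := Nat.cast_nonneg M
        have ha' : 0 ≤ wa (P.gs i) t := by linarith
        positivity
      calc ∑ e ∈ A.2.filter (fun e => S.lev e = (i : ℕ)), dl S.toGeo (P.gs i) t (reg S A e)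
          ≤ ∑ e ∈ A.2.filter (fun e => S.lev e = (i : ℕ)), (wa (P.gs i) t * M + wb (P.gs i) t * M + (M : ℝ) ^ 2 * M) :=
            Finset.sum_le_sum (fun e _ => hb0 e)
        _ = ((A.2.filter (fun e => S.lev e = (i : ℕ))).card : ℝ) *
              (wa (P.gs i) t * M + wb (P.gs i) t * M + (M : ℝ) ^ 2 * M) := by
            rw [Finset.sum_const, nsmul_eq_mul]
        _ ≤ (M : ℝ) * (wa (P.gs i) t * M + wb (P.gs i) t * M + (M : ℝ) ^ 2 * M) := by
            apply mul_le_mul_of_nonneg_right _ hpos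
            have : (A.2.filter (fun e => S.lev e = (i : ℕ))).card ≤ M := (Finset.card_filter_le _ _).trans hM2
            exact_mod_cast this
    have h2 : (Q : ℝ) * (Dv P t S i A - Dv P t S i C0) ≤ (Q : ℝ) * bd M i := by
      apply mul_le_mul_of_nonneg_left _ hQr
      have := hC0 i hi
      linarith
    have h3 : ⌊(Q : ℝ) * (Dv P t S i A - Dv P t S i C0)⌋₊ ≤ ⌈(Q : ℝ) * bd M i⌉₊ :=
      (Nat.floor_le_floor h2).trans (Nat.floor_le_ceil _)
    have h4 : ⌈(Q : ℝ) * bd M i⌉₊ ≤ ∑ i ∈ Finset.range s, ⌈(Q : ℝ) * bd M i⌉₊ :=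
      Finset.single_le_sum (f := fun i => ⌈(Q : ℝ) * bd M i⌉₊) (fun _ _ => Nat.zero_le _) (Finset.mem_range.2 hi)
    show _ ≤ ∑ i ∈ Finset.range s, ⌈(Q : ℝ) * bd M i⌉₊ + 2 * M
    omega
  · rw [if_neg hi]
    have h2 : (A.1 \ C0.1).card ≤ M := (Finset.card_le_card Finset.sdiff_subset).trans hM1
    have h3 : (A.2 \ C0.2).card ≤ M := (Finset.card_le_card Finset.sdiff_subset).trans hM2
    show _ ≤ ∑ i ∈ Finset.range s, ⌈(Q : ℝ) * bd M i⌉₊ + 2 * M
    omega

end Pool.Low
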