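import Pool.Agent.helper24.Low.Tree
import Pool.Agent.helper24.Low.Rank
import Pool.Agent.helper24.Low.RankStep

/-!
# Module N7b (Config): the good configuration

Let `T` be the tree data (`exists_tree`).  Path: `σ_0 = []`, `σ_{j+1} = σ_j ++ [T.φ σ_j 0]`, `η j = T.φ σ_j 0`, so
`List.ofFn (fun i : Fin j => η i) = σ_j`.  Put `C_j = trn S s (T.Cf σ_j)`; `C_j ≤ C_{j+1}` (`T.min`, prefixes).

Bounds: let `F` be as in `rk_bound` and `Bd j = F (BD (n + m (j+1)))` (`BD = hP.BD`).  Let `J` be given by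
`controlled_descent (s+1) Bd`.  Take `a` from `hpath η (J + 1)`.  Choose `K` such that `D K` contains (as subregions resp. elements)
`T.Cf σ_j` for all `j ≤ J` and the values of `a` (`Gen.exists_stage`, `Gen.lift`), so that `T.Cf σ_j` is closed in `D K`.  `E := trn S s (D K)`.
For `j ≤ J` let `A_j` be the closure for `t` (`clL_closure` in `E`, `act = Set.Iio s`; `KL`: `kl_trn`) of
`(C_j.1 ∪ {values of a}, C_j.2)`.  `C_j` is closed in `E` for `θ` (`clL_trn`), so for `t` (`clL_mono_t`).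
Size: by `Good.BD_spec` for `D K` and the set `X_j` of all values of `a` and of `p σ_{j'}`, `j' ≤ j` (at most `n + m (j+1)` elements) there is a
closed `R` with `|R.1|, |R.2| ≤ BD (n + m (j+1))`, `X_j ⊆ R.1`; `T.Cf σ_j ≤ R` by `T.min`; `trn S s R` is closed in `E` for `t` and contains the
generating region, so `A_j ≤ trn S s R`.  Hence `rk C_j A_j ≤ Bd j` (`rk_bound`, `dv_nonneg`).  (Put `ρ j = rk C_j A_j` for `j ≤ J` and
`ρ j = 0` otherwise, or apply `controlled_descent` to `ρ` directly.)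
So there is `j < J` with `¬ lexlt (ρ (j+1)) (ρ j)`.  `rank_step` with `C0 = C_j`, `C1 = C_{j+1}`, `A = A_j`, `A' = A_{j+1}`
(`A_j ≤ A_{j+1}` by minimality of `A_j`; a closed region above `A_j ⊔ C_{j+1}` contains the generators of `A_{j+1}`) gives
`A_j ⊓ C_{j+1} = C_j`, `A_j ⊔ C_{j+1}` closed for `t`, `SFH`.
Take `σ = σ_j`, `φ = T.φ σ`, `B i = trn S s (T.Cf (σ ++ [φ i]))`, `A = A_j`, and `Φ a (p (σ ++ [φ 0]))` since `σ ++ [φ 0] = σ_{j+1}`,
`j + 1 ≤ J < J + 1`.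
Last clause: for `K' ≥ K`, `D K` is closed in `D K'` for `θ` (`Gen.mono`), so `trn S s (D K)` is closed in `trn S s (D K')` for `θ`, hence for
`t`; `clL_trans`.
-/

set_option autoImplicit false

namespace Pool.Low

open scoped Classical

variable {P : Par} {S : Sys ℕ ℕ} {D : ℕ → Rg ℕ ℕ}

/-- truncation is monotone -/
theorem trn_mono_cfg {V C : Type} (S : Sys V C) (s : ℕ) {A B : Rg V C} (h : A ≤ B) : trn S s A ≤ trn S s B :=
  ⟨h.1, Finset.filter_subset_filter _ h.2⟩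

theorem trn_lev_cfg {V C : Type} (S : Sys V C) (s : ℕ) (A : Rg V C) : ∀ c ∈ (trn S s A).2, S.lev c ≤ s :=
  fun _ hc => (Finset.mem_filter.1 hc).2

/-- the path in the tree -/
def cfgPath (f : List ℕ → ℕ) : ℕ → List ℕ
  | 0 => []
  | j + 1 => cfgPath f j ++ [f (cfgPath f j)]

theorem cfgPath_length (f : List ℕ → ℕ) (j : ℕ) : (cfgPath f j).length = j := by
  induction j with
  | zero => rfl
  | succ j ih => simp [cfgPath, ih]

theorem cfgPath_eq (f : List ℕ → ℕ) (j : ℕ) :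
    List.ofFn (fun i : Fin j => f (cfgPath f i)) = cfgPath f j := by
  induction j with
  | zero => rfl
  | succ j ih =>
    rw [List.ofFn_succ_last]
    simp only [Fin.val_castSucc, Fin.val_last]
    rw [ih]
    rfl

theorem exists_config (hP : Good P) (hG : Gen P S D) (n m s : ℕ) {t : ℝ} (h0 : 0 ≤ t) (h1 : t ≤ P.θ) {Q : ℕ}
    (hQ1 : 1 ≤ Q) (hQ : ∃ z : ℤ, (Q : ℝ) * t = z) (Φ : (Fin n → ℕ) → (Fin m → ℕ) → Prop) (p : List ℕ → Fin m → ℕ)
    (hp : ∀ σ i, dom D (p σ i))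
    (hpath : ∀ (η : ℕ → ℕ) (J : ℕ), ∃ a : Fin n → ℕ, (∀ i, dom D (a i)) ∧
      ∀ j < J, Φ a (p (List.ofFn (fun i : Fin j => η i)))) :
    ∃ (σ : List ℕ) (φ : ℕ → ℕ) (C0 : Rg ℕ ℕ) (B : ℕ → Rg ℕ ℕ) (kv kc : ℕ → ℕ → ℕ) (a : Fin n → ℕ) (A : Rg ℕ ℕ)
      (K : ℕ),
      StrictMono φ ∧
      (∃ k R, ClL P Set.univ P.θ S (D k) R ∧ C0 = trn S s R) ∧
      (∀ i, ∃ k R, ClL P Set.univ P.θ S (D k) R ∧ B i = trn S s R) ∧
      (∀ i, C0 ≤ B i) ∧
      (∀ i j, p (σ ++ [φ i]) j ∈ (B i).1) ∧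
      (∀ i, IsEmb S (B i) S (kv i) (kc i)) ∧ (∀ i, im (kv i) (kc i) (B i) = B 0) ∧
      (∀ i j, kv i (p (σ ++ [φ i]) j) = p (σ ++ [φ 0]) j) ∧
      (∀ i j, ∀ v ∈ (B i).1, v ∈ (B j).1 → kv i v = kv j v) ∧
      (∀ i j, ∀ c ∈ (B i).2, c ∈ (B j).2 → kc i c = kc j c) ∧
      (∀ v ∈ (B 0).1, kv 0 v = v) ∧ (∀ c ∈ (B 0).2, kc 0 c = c) ∧
      Φ a (p (σ ++ [φ 0])) ∧ (∀ i, a i ∈ A.1) ∧ C0 ≤ A ∧ A ⊓ B 0 = C0 ∧ SFH (Set.Iio s) S A (B 0) ∧
      ∀ K' ≥ K, ClL P (Set.Iio s) t S (trn S s (D K')) A ∧ ClL P (Set.Iio s) t S (trn S s (D K')) (A ⊔ B 0) := by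
  have hP0 : Good0 P := hP.toGood0
  obtain ⟨T⟩ := exists_tree hP hG m s p hp
  set σ : ℕ → List ℕ := cfgPath (fun l => T.φ l 0) with hσ
  have hσs : ∀ j, σ (j + 1) = σ j ++ [T.φ (σ j) 0] := fun j => rfl
  set C : ℕ → Rg ℕ ℕ := fun j => trn S s (T.Cf (σ j)) with hC
  have hCfle : ∀ l i, T.Cf l ≤ T.Cf (l ++ [i]) := by
    intro l i
    obtain ⟨k, hk⟩ := T.cl (l ++ [i])
    exact T.min l k _ hk (fun τ hτ x => T.mem _ τ (hτ.trans (List.prefix_append l [i])) x)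
  have hCle : ∀ j, C j ≤ C (j + 1) := fun j => trn_mono_cfg S s (hCfle (σ j) _)
  obtain ⟨F, hF⟩ := rk_bound P t h0 (h1.trans hP0.θ_lt.le) Q s
  obtain ⟨J, hJ⟩ := controlled_descent (s + 1) (fun j => F (hP.BD (n + m * (j + 1))))
  obtain ⟨a, hadom, haΦ⟩ := hpath (fun j => T.φ (σ j) 0) (J + 1)
  -- the stage
  have hK0 : ∀ N : ℕ, ∃ K0, ∀ j ≤ N, ClL P Set.univ P.θ S (D K0) (T.Cf (σ j)) := by
    intro N
    choose kf hkf using fun j => T.cl (σ j)
    refine ⟨(Finset.range (N + 1)).sup kf, fun j hj => ?_⟩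
    exact hG.lift hP0 (Finset.le_sup (f := kf) (Finset.mem_range.2 (by omega))) (hkf j)
  obtain ⟨K0, hK0⟩ := hK0 J
  obtain ⟨K, hKK0, hKa⟩ := hG.exists_stage hP0 (Finset.univ.image a)
    (by intro x hx; obtain ⟨i, -, rfl⟩ := Finset.mem_image.1 hx; exact hadom i) K0
  have hKC : ∀ j ≤ J, ClL P Set.univ P.θ S (D K) (T.Cf (σ j)) := fun j hj => hG.lift hP0 hKK0 (hK0 j hj)
  set E : Rg ℕ ℕ := trn S s (D K) with hE
  have hEkl : KL P (Set.Iio s) S E := kl_trn (hG.kl K)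
  have hElev : ∀ c ∈ E.2, S.lev c ≤ s := trn_lev_cfg S s _
  have hCcl : ∀ j ≤ J, ClL P (Set.Iio s) t S E (C j) := fun j hj =>
    clL_mono_t hP0 h0 h1 le_rfl hEkl (clL_trn (hG.kl K).ok (hKC j hj))
  set U : Rg ℕ ℕ := (Finset.univ.image a, ∅) with hU
  have hUE : U ≤ E := ⟨hKa, Finset.empty_subset _⟩
  have hAex : ∀ j, ∃ A, j ≤ J → (ClL P (Set.Iio s) t S E A ∧ C j ⊔ U ≤ A ∧
      ∀ Z, ClL P (Set.Iio s) t S E Z → C j ⊔ U ≤ Z → A ≤ Z) := by
    intro j
    by_cases hj : j ≤ J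
    · obtain ⟨R, hR1, hR2, hR3⟩ := clL_closure hP0 h0 h1 hEkl (T := C j ⊔ U) (sup_le (hCcl j hj).le hUE)
      exact ⟨R, fun _ => ⟨hR1, hR2, hR3⟩⟩
    · exact ⟨E, fun h => absurd h hj⟩
  choose A hA using hAex
  -- the size of the closures
  have hsize : ∀ j ≤ J, (A j).1.card ≤ hP.BD (n + m * (j + 1)) ∧ (A j).2.card ≤ hP.BD (n + m * (j + 1)) := by
    intro j hj
    set X : Finset ℕ := Finset.univ.image a ∪
      ((σ j).inits.toFinset ×ˢ (Finset.univ : Finset (Fin m))).image (fun q => p q.1 q.2) with hX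
    have hXcard : X.card ≤ n + m * (j + 1) := by
      refine (Finset.card_union_le _ _).trans ?_
      have e1 : (Finset.univ.image a).card ≤ n := by
        refine Finset.card_image_le.trans ?_
        simp
      have e2 : (((σ j).inits.toFinset ×ˢ (Finset.univ : Finset (Fin m))).image (fun q => p q.1 q.2)).card
          ≤ m * (j + 1) := by
        refine Finset.card_image_le.trans ?_
        rw [Finset.card_product, Finset.card_univ, Fintype.card_fin, mul_comm]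
        refine Nat.mul_le_mul_left _ ?_
        refine (List.toFinset_card_le _).trans ?_
        rw [List.length_inits, hσ, cfgPath_length]
      omega
    have hXD : X ⊆ (D K).1 := by
      refine Finset.union_subset hKa ?_
      intro x hx
      obtain ⟨⟨τ, i⟩, hτ, rfl⟩ := Finset.mem_image.1 hx
      have hτ' : τ <+: σ j := by
        have := (Finset.mem_product.1 hτ).1
        rwa [List.mem_toFinset, List.mem_inits] at this
      exact (hKC j hj).le.1 (T.mem (σ j) τ hτ' i)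
    obtain ⟨R, hR1, hR2, hR3, hR4, -⟩ := hP.BD_spec ℕ ℕ S (D K) (hG.kl K) X hXD
    have hCfR : T.Cf (σ j) ≤ R := by
      refine T.min (σ j) K R hR1 (fun τ hτ i => hR2 ?_)
      refine Finset.mem_union_right _ (Finset.mem_image.2 ⟨(τ, i), ?_, rfl⟩)
      exact Finset.mem_product.2 ⟨by rw [List.mem_toFinset, List.mem_inits]; exact hτ, Finset.mem_univ _⟩
    have hRt : ClL P (Set.Iio s) t S E (trn S s R) :=
      clL_mono_t hP0 h0 h1 le_rfl hEkl (clL_trn (hG.kl K).ok hR1)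
    have hle : A j ≤ trn S s R := by
      refine (hA j hj).2.2 _ hRt (sup_le (trn_mono_cfg S s hCfR) ⟨?_, Finset.empty_subset _⟩)
      exact (Finset.subset_union_left).trans hR2
    have hBD : hP.BD X.card ≤ hP.BD (n + m * (j + 1)) := hP.BD_mono hXcard
    exact ⟨((Finset.card_le_card hle.1).trans hR3).trans hBD,
      (((Finset.card_le_card hle.2).trans (Finset.card_filter_le _ _)).trans hR4).trans hBD⟩
  obtain ⟨j, hjJ, hnot⟩ := hJ (fun j => rk P t Q s S (C j) (A j)) (by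
    intro j hj i
    exact hF ℕ ℕ S (C j) (A j) _ (hsize j hj).1 (hsize j hj).2
      (fun i hi => dv_nonneg hP0 h0 h1 hEkl (hCcl j hj).fullL hi) i)
  have hj0 : j ≤ J := hjJ.le
  have hj1 : j + 1 ≤ J := hjJ
  have hCA : C j ≤ A j := le_sup_left.trans (hA j hj0).2.1
  have hUA : U ≤ A j := le_sup_right.trans (hA j hj0).2.1
  have hstep := rank_step hP0 h0 h1 hQ1 hQ hEkl hElev (hCcl j hj0) (hCcl (j + 1) hj1) (hCle j)
    (hA j hj0).1 hCA (hA (j + 1) hj1).1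
    (sup_le ((hA j hj0).2.2 _ (hA (j + 1) hj1).1 (le_trans (sup_le_sup_right (hCle j) U) (hA (j + 1) hj1).2.1))
      (le_sup_left.trans (hA (j + 1) hj1).2.1))
    (fun Z hZ hle => (hA (j + 1) hj1).2.2 Z hZ (sup_le (le_sup_right.trans hle)
      (hUA.trans (le_sup_left.trans hle))))
  rcases hstep with hlt | ⟨hinf, hsup, hsf⟩
  · exact absurd hlt hnot
  refine ⟨σ j, T.φ (σ j), C j, fun i => trn S s (T.Cf (σ j ++ [T.φ (σ j) i])), T.kv (σ j), T.kc (σ j), a, A j, K,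
    T.mono (σ j), ?_, ?_, ?_, ?_, T.emb (σ j), T.img (σ j), T.par (σ j), T.ovv (σ j), T.ovc (σ j), T.idv (σ j),
    T.idc (σ j), ?_, ?_, hCA, hinf, hsf, ?_⟩
  · obtain ⟨k, hk⟩ := T.cl (σ j)
    exact ⟨k, _, hk, rfl⟩
  · intro i
    obtain ⟨k, hk⟩ := T.cl (σ j ++ [T.φ (σ j) i])
    exact ⟨k, _, hk, rfl⟩
  · intro i
    exact trn_mono_cfg S s (hCfle _ _)
  · intro i x
    exact T.mem _ _ (List.prefix_refl _) x
  · have h := haΦ (j + 1) (by omega)
    have e : List.ofFn (fun i : Fin (j + 1) => (fun j => T.φ (σ j) 0) (i : ℕ)) = σ (j + 1) :=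
      cfgPath_eq (fun l => T.φ l 0) (j + 1)
    rw [e] at h
    exact h
  · intro i
    exact hUA.1 (Finset.mem_image_of_mem a (Finset.mem_univ i))
  · intro K' hK'
    have hmono : ClL P Set.univ P.θ S (D K') (D K) := hG.mono hP0 hK'
    have hEkl' : KL P (Set.Iio s) S (trn S s (D K')) := kl_trn (hG.kl K')
    have hEE : ClL P (Set.Iio s) t S (trn S s (D K')) E :=
      clL_mono_t hP0 h0 h1 le_rfl hEkl' (clL_trn (hG.kl K').ok hmono)
    exact ⟨clL_trans hP0 h0 h1 hEkl' hEE (hA j hj0).1, clL_trans hP0 h0 h1 hEkl' hEE hsup⟩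

end Pool.Low
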