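import Mathlib

/-!
# Block geometries: definitions

MP_75b3be_lc (lowness of simple omega-categorical theories), negative answer.

A *geometry* `G` has coloured vertices (`V`), directed edges `E u v` (in the domains we consider `col u = true`, `col v = false`)
and blocks (`C`) with an incidence relation.  A *region* is a pair `(X, Y)` of a finite set of vertices and a finite set of blocks.

For a region `P`:
* `mm G P v` = number of blocks of `P` containing `v`; `m2 G P u v` = number of blocks of `P` containing both `u` and `v`;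
* `del G a b P = a * ∑_{v} (1 - mm v) + b * #blocks - ∑_{edges uv} (1 - m2 u v)`.

A *system* `S` is a multi-level structure: every block `c` has a level `lev c` and a parent `par c`; the children of a block `e`
form a geometry on the set of vertices in `e`.

None of the definitions of this file (except `im`) takes a `DecidableEq` instance; all filters are classical.  All theorems of the
other files have `[DecidableEq V] [DecidableEq C]` as instance arguments (needed for `⊔`, `⊓`, `\`, `im`).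
-/

set_option autoImplicit false

namespace Pool.Low

open scoped Classical

/-- A region: finitely many vertices and finitely many blocks. -/
abbrev Rg (V C : Type) := Finset V × Finset C

/-- One-level geometry. -/
structure Geo (V C : Type) where
  col : V → Bool
  E : V → V → Prop
  inc : V → C → Prop

section OneLevel

variable {V C : Type}

/-- number of blocks of `P` containing `v` -/
noncomputable def mm (G : Geo V C) (P : Rg V C) (v : V) : ℕ := (P.2.filter (fun c => G.inc v c)).card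

/-- number of blocks of `P` containing `u` and `v` -/
noncomputable def m2 (G : Geo V C) (P : Rg V C) (u v : V) : ℕ := (P.2.filter (fun c => G.inc u c ∧ G.inc v c)).card

/-- edges inside `X` -/
noncomputable def ed (G : Geo V C) (X : Finset V) : Finset (V × V) := (X ×ˢ X).filter (fun p => G.E p.1 p.2)

/-- vertices of `X` in the block `c` -/
noncomputable def tr (G : Geo V C) (X : Finset V) (c : C) : Finset V := X.filter (fun v => G.inc v c)

/-- The predimension with weights `a`, `b`. -/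
noncomputable def del (G : Geo V C) (a b : ℝ) (P : Rg V C) : ℝ :=
  a * ∑ v ∈ P.1, (1 - (mm G P v : ℝ)) + b * (P.2.card : ℝ) - ∑ p ∈ ed G P.1, (1 - (m2 G P p.1 p.2 : ℝ))

/-- The integer-valued rank `∑_v (1 - mm v) + L * #blocks`. -/
noncomputable def psi (G : Geo V C) (L : ℕ) (P : Rg V C) : ℤ :=
  ∑ v ∈ P.1, (1 - (mm G P v : ℤ)) + (L : ℤ) * (P.2.card : ℤ)

/-- The size: number of blocks plus number of vertices in no block. -/
noncomputable def sz (G : Geo V C) (P : Rg V C) : ℕ := P.2.card + (P.1.filter (fun v => mm G P v = 0)).card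

/-- `P` is a full subregion of `D`: every block of `D` with at least `n+1` vertices in `P` is in `P`. -/
def Full (G : Geo V C) (n : ℕ) (D P : Rg V C) : Prop :=
  P ≤ D ∧ ∀ c ∈ D.2, n + 1 ≤ (tr G P.1 c).card → c ∈ P.2

/-- The full hull of `P` in `D`: add all blocks with at least `n+1` vertices in `P`. -/
noncomputable def hull (G : Geo V C) (n : ℕ) (D P : Rg V C) : Rg V C :=
  (P.1, D.2.filter (fun c => c ∈ P.2 ∨ n + 1 ≤ (tr G P.1 c).card))

/-- Distinct blocks of `D` have at most `n` common vertices in `D`. -/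
def LS (G : Geo V C) (n : ℕ) (D : Rg V C) : Prop :=
  ∀ c ∈ D.2, ∀ c' ∈ D.2, c ≠ c' → (D.1.filter (fun v => G.inc v c ∧ G.inc v c')).card ≤ n

/-- Edges inside `X` go from colour `true` to colour `false`. -/
def Bip (G : Geo V C) (X : Finset V) : Prop :=
  ∀ u ∈ X, ∀ v ∈ X, G.E u v → G.col u = true ∧ G.col v = false

/-- All full subregions have nonnegative predimension. -/
def Pos (G : Geo V C) (n : ℕ) (a b : ℝ) (D : Rg V C) : Prop :=
  ∀ P, Full G n D P → 0 ≤ del G a b P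

/-- The basic class. -/
def PP (G : Geo V C) (n : ℕ) (a b : ℝ) (D : Rg V C) : Prop :=
  Bip G D.1 ∧ LS G n D ∧ Pos G n a b D

/-- `B` is closed in `D`. -/
def Cl (G : Geo V C) (n : ℕ) (a b : ℝ) (D B : Rg V C) : Prop :=
  Full G n D B ∧ ∀ Z, Full G n D Z → B ≤ Z → del G a b B ≤ del G a b Z

/-- Admissible weights. -/
structure Wt (n : ℕ) (a b : ℝ) : Prop where
  n_pos : 1 ≤ n
  lo : (n : ℝ) * a + 1 ≤ b
  hi : b ≤ (n : ℝ) * a + a / 2 + 1
  big : 16 * ((n : ℝ) + 1) ^ 2 ≤ a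

/-- Incidences between a vertex of `P \ W` and a block of `W \ P`. -/
noncomputable def xi (G : Geo V C) (P W : Rg V C) : Finset (V × C) :=
  (P.1 ×ˢ W.2).filter (fun q => q.1 ∉ W.1 ∧ q.2 ∉ P.2 ∧ G.inc q.1 q.2)

/-- Number of cross incidences between `P` and `W`. -/
noncomputable def crossInc (G : Geo V C) (P W : Rg V C) : ℕ := (xi G P W).card + (xi G W P).card

/-- Edges from a vertex of `P \ W` to a vertex of `W \ P`. -/
noncomputable def xe (G : Geo V C) (P W : Rg V C) : Finset (V × V) :=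
  (P.1 ×ˢ W.1).filter (fun q => q.1 ∉ W.1 ∧ q.2 ∉ P.1 ∧ G.E q.1 q.2)

/-- Number of cross edges contained in no block of `P` or `W`. -/
noncomputable def bare (G : Geo V C) (P W : Rg V C) : ℕ :=
  ((xe G P W).filter (fun q => ∀ c, (c ∈ P.2 ∨ c ∈ W.2) → ¬ (G.inc q.1 c ∧ G.inc q.2 c))).card
  + ((xe G W P).filter (fun q => ∀ c, (c ∈ P.2 ∨ c ∈ W.2) → ¬ (G.inc q.1 c ∧ G.inc q.2 c))).card

/-- `A` and `W` are semi-free over their intersection: no cross incidences, and every cross edge lies in a common block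
of `A` and `W`. -/
structure SF (G : Geo V C) (A W : Rg V C) : Prop where
  left : ∀ v ∈ A.1, v ∉ W.1 → ∀ c ∈ W.2, c ∉ A.2 → ¬ G.inc v c
  right : ∀ v ∈ W.1, v ∉ A.1 → ∀ c ∈ A.2, c ∉ W.2 → ¬ G.inc v c
  edge : ∀ u ∈ A.1, u ∉ W.1 → ∀ v ∈ W.1, v ∉ A.1 → (G.E u v ∨ G.E v u) →
    ∃ c, c ∈ A.2 ∧ c ∈ W.2 ∧ G.inc u c ∧ G.inc v c

/-! ### The weights attached to `g` and `t` -/

/-- weight of a vertex -/
noncomputable def wa (g : ℕ) (t : ℝ) : ℝ := 64 * ((g : ℝ) + 2) ^ 2 - t

/-- weight of a block -/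
noncomputable def wb (g : ℕ) (t : ℝ) : ℝ :=
  ((g : ℝ) + 1) * (64 * ((g : ℝ) + 2) ^ 2) + 32 * ((g : ℝ) + 2) ^ 2 - ((g : ℝ) + 4) * t

/-- predimension attached to `g` and `t` -/
noncomputable def dl (G : Geo V C) (g : ℕ) (t : ℝ) (P : Rg V C) : ℝ := del G (wa g t) (wb g t) P

/-- closed sets for the weights attached to `g` and `t` (here `n = g + 1`) -/
def ClT (G : Geo V C) (g : ℕ) (t : ℝ) (D B : Rg V C) : Prop := Cl G (g + 1) (wa g t) (wb g t) D B

/-- basic class for the weights attached to `g` and `t` -/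
def PPT (G : Geo V C) (g : ℕ) (t : ℝ) (D : Rg V C) : Prop := PP G (g + 1) (wa g t) (wb g t) D

/-- Control functions. -/
structure Ctl (θ : ℝ) (L : ℕ) (f : ℕ → ℝ) : Prop where
  mono : Monotone f
  zero : f 0 = 0
  le_id : ∀ x : ℕ, f x ≤ x
  unbounded : ∀ B : ℝ, ∃ x : ℕ, B < f x
  step_one : ∀ x : ℕ, 1 ≤ x → f (2 * x) ≤ f x + 1
  step_gap : ∀ x : ℕ, 1 ≤ x → ∀ j : ℕ, 1 ≤ j → j ≤ L * x → ∀ z : ℤ, 0 < (z : ℝ) - θ * j →
    f (2 * x) ≤ f x + ((z : ℝ) - θ * j)

/-- The class of geometries of one level. -/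
structure KK (G : Geo V C) (g : ℕ) (θ : ℝ) (f : ℕ → ℝ) (D : Rg V C) : Prop where
  bip : Bip G D.1
  ls : LS G (g + 1) D
  big : ∀ P, Full G (g + 1) D P → (P.2.Nonempty ∨ g < P.1.card) → 64 * ((g : ℝ) + 2) ^ 2 * g ≤ dl G g θ P
  ctl : ∀ P, Full G (g + 1) D P → f (sz G P) ≤ dl G g θ P

end OneLevel

/-! ## Multi-level systems -/

/-- Multi-level system. -/
structure Sys (V C : Type) extends Geo V C where
  lev : C → ℕ
  par : C → C
  root : C

section MultiLevel

variable {V C : Type}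

/-- the geometry of the block `e` in the region `D`: the vertices of `D` in `e` and the children of `e` in `D` -/
noncomputable def reg (S : Sys V C) (D : Rg V C) (e : C) : Rg V C :=
  (D.1.filter (fun v => S.inc v e), D.2.filter (fun c => S.par c = e ∧ c ≠ S.root))

/-- `D` is a legal domain. -/
structure Ok (S : Sys V C) (D : Rg V C) : Prop where
  root_mem : S.root ∈ D.2
  par_mem : ∀ c ∈ D.2, S.par c ∈ D.2
  lev_root : S.lev S.root = 0
  par_root : S.par S.root = S.root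
  lev_par : ∀ c ∈ D.2, c ≠ S.root → S.lev c = S.lev (S.par c) + 1
  inc_root : ∀ v ∈ D.1, S.inc v S.root
  inc_par : ∀ v ∈ D.1, ∀ c ∈ D.2, S.inc v c → S.inc v (S.par c)
  bip : Bip S.toGeo D.1

/-- Parameters: `θ`, the numbers `g_i` and the control functions of the levels. -/
structure Par where
  θ : ℝ
  gs : ℕ → ℕ
  f : ℕ → ℕ → ℝ

/-- `D` belongs to the class at all levels in `act`. -/
structure KL (P : Par) (act : Set ℕ) (S : Sys V C) (D : Rg V C) : Prop where
  ok : Ok S D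
  kk : ∀ e ∈ D.2, S.lev e ∈ act → KK S.toGeo (P.gs (S.lev e)) P.θ (P.f (S.lev e)) (reg S D e)

/-- `A` is full in `D` at all levels in `act`. -/
structure FullL (P : Par) (act : Set ℕ) (S : Sys V C) (D A : Rg V C) : Prop where
  le : A ≤ D
  ok : Ok S A
  full : ∀ e ∈ A.2, S.lev e ∈ act → Full S.toGeo (P.gs (S.lev e) + 1) (reg S D e) (reg S A e)

/-- `B` is closed in `D` at all levels in `act`, for the weights given by `t`. -/
structure ClL (P : Par) (act : Set ℕ) (t : ℝ) (S : Sys V C) (D B : Rg V C) : Prop where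
  le : B ≤ D
  ok : Ok S B
  cl : ∀ e ∈ B.2, S.lev e ∈ act → ClT S.toGeo (P.gs (S.lev e)) t (reg S D e) (reg S B e)

/-- Hereditary semi-freeness at the levels in `act`. -/
structure SFH (act : Set ℕ) (S : Sys V C) (A W : Rg V C) : Prop where
  left : ∀ v ∈ A.1, v ∉ W.1 → ∀ c ∈ W.2, c ∉ A.2 → ¬ S.inc v c
  right : ∀ v ∈ W.1, v ∉ A.1 → ∀ c ∈ A.2, c ∉ W.2 → ¬ S.inc v c
  edge : ∀ u ∈ A.1, u ∉ W.1 → ∀ v ∈ W.1, v ∉ A.1 → (S.E u v ∨ S.E v u) →
    ∀ e, e ∈ A.2 → e ∈ W.2 → S.lev e ∈ act → S.inc u e → S.inc v e →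
      ∃ c, c ∈ A.2 ∧ c ∈ W.2 ∧ S.par c = e ∧ c ≠ S.root ∧ S.inc u c ∧ S.inc v c

/-- truncation: forget all blocks of level `> s` -/
noncomputable def trn (S : Sys V C) (s : ℕ) (D : Rg V C) : Rg V C := (D.1, D.2.filter (fun c => S.lev c ≤ s))

/-- total predimension of level `i` -/
noncomputable def Dv (P : Par) (t : ℝ) (S : Sys V C) (i : ℕ) (A : Rg V C) : ℝ :=
  ∑ e ∈ A.2.filter (fun e => S.lev e = i), dl S.toGeo (P.gs i) t (reg S A e)

end MultiLevel

/-- One-level embedding of the region `D`. -/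
structure GEmb {V C V' C' : Type} (G : Geo V C) (D : Rg V C) (G' : Geo V' C') (fv : V → V') (fc : C → C') : Prop where
  inj_v : Set.InjOn fv (D.1 : Set V)
  inj_c : Set.InjOn fc (D.2 : Set C)
  col : ∀ v ∈ D.1, G'.col (fv v) = G.col v
  edge : ∀ u ∈ D.1, ∀ v ∈ D.1, (G'.E (fv u) (fv v) ↔ G.E u v)
  inc : ∀ v ∈ D.1, ∀ c ∈ D.2, (G'.inc (fv v) (fc c) ↔ G.inc v c)

/-- `(fv, fc)` is an embedding of the region `D` of `S` into `S'`. -/
structure IsEmb {V C V' C' : Type} (S : Sys V C) (D : Rg V C) (S' : Sys V' C') (fv : V → V') (fc : C → C') : Prop where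
  inj_v : Set.InjOn fv (D.1 : Set V)
  inj_c : Set.InjOn fc (D.2 : Set C)
  col : ∀ v ∈ D.1, S'.col (fv v) = S.col v
  edge : ∀ u ∈ D.1, ∀ v ∈ D.1, (S'.E (fv u) (fv v) ↔ S.E u v)
  inc : ∀ v ∈ D.1, ∀ c ∈ D.2, (S'.inc (fv v) (fc c) ↔ S.inc v c)
  lev : ∀ c ∈ D.2, S'.lev (fc c) = S.lev c
  par : ∀ c ∈ D.2, S'.par (fc c) = fc (S.par c)
  root : fc S.root = S'.root

/-- image of a region -/
def im {V C V' C' : Type} [DecidableEq V'] [DecidableEq C'] (fv : V → V') (fc : C → C') (D : Rg V C) : Rg V' C' :=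
  (D.1.image fv, D.2.image fc)

/-- Basic assumptions on the parameters. -/
structure Good0 (P : Par) : Prop where
  θ_pos : 0 < P.θ
  θ_lt : P.θ < 1
  irr : ∀ j : ℕ, 1 ≤ j → ∀ z : ℤ, (z : ℝ) ≠ P.θ * j
  ctl : ∀ i, Ctl P.θ (P.gs i + 4) (P.f i)

/-- All assumptions on the parameters. -/
structure Good (P : Par) : Prop extends Good0 P where
  grow : ∀ i, i ≤ P.gs i
  approx : ∀ X : ℕ, ∃ (t : ℝ) (Q : ℕ), 1 ≤ Q ∧ 0 ≤ t ∧ t ≤ P.θ ∧ (∃ z : ℤ, (Q : ℝ) * t = z) ∧
    (∀ j : ℕ, 1 ≤ j → j ≤ X → ∀ z : ℤ, (z : ℝ) ≠ t * j) ∧ (P.θ - t) * X < 1 / Q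
  bd : ∃ BD : ℕ → ℕ, Monotone BD ∧ ∀ (V C : Type) (S : Sys V C) (D : Rg V C), KL P Set.univ S D →
    ∀ X : Finset V, X ⊆ D.1 → ∃ R, ClL P Set.univ P.θ S D R ∧ X ⊆ R.1 ∧ R.1.card ≤ BD X.card ∧ R.2.card ≤ BD X.card ∧
      ∀ c ∈ R.2, S.lev c ≤ X.card

/-- The generic system: an increasing sequence of regions of one system, each closed in the next one, with the extension
property. -/
structure Gen (P : Par) (S : Sys ℕ ℕ) (D : ℕ → Rg ℕ ℕ) : Prop where
  kl : ∀ k, KL P Set.univ S (D k)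
  step : ∀ k, ClL P Set.univ P.θ S (D (k + 1)) (D k)
  ext : ∀ (V C : Type) (S2 : Sys V C) (A B : Rg V C) (fv : V → ℕ) (fc : C → ℕ) (k : ℕ),
    KL P Set.univ S2 A → ClL P Set.univ P.θ S2 A B → IsEmb S2 B S fv fc → ClL P Set.univ P.θ S (D k) (im fv fc B) →
    ∃ (l : ℕ) (hv : V → ℕ) (hc : C → ℕ), k ≤ l ∧ IsEmb S2 A S hv hc ∧ (∀ v ∈ B.1, hv v = fv v) ∧
      (∀ c ∈ B.2, hc c = fc c) ∧ ClL P Set.univ P.θ S (D l) (im hv hc A)

/-- Two tuples of vertices of the generic system have the same type. -/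
def rr (P : Par) (S : Sys ℕ ℕ) (D : ℕ → Rg ℕ ℕ) (N : ℕ) (x y : Fin N → ℕ) : Prop :=
  ∃ (k l : ℕ) (B : Rg ℕ ℕ) (fv fc : ℕ → ℕ), ClL P Set.univ P.θ S (D k) B ∧ (∀ i, x i ∈ B.1) ∧ IsEmb S B S fv fc ∧
    ClL P Set.univ P.θ S (D l) (im fv fc B) ∧ ∀ i, fv (x i) = y i

/-- lexicographic order -/
def lexlt {r : ℕ} (x y : Fin r → ℕ) : Prop := ∃ i, (∀ i' < i, x i' = y i') ∧ x i < y i

end Pool.Low
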