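import Mathlib

/-!
# Module N2 (Delta): a Delta-system lemma for labelled sets

Process the positions `p : Fin X` one after the other: if some value is taken by `i ↦ ι i p` for infinitely many `i` of the current
infinite set of indices, restrict to these indices (the position becomes *constant*), otherwise every value is taken finitely often
(this persists for smaller index sets).  At the end: constant positions, and finite-to-one positions.  Choose `φ` greedily: `φ (j+1)` so
large that for all finite-to-one `p` the value `ι (φ (j+1)) p` differs from all the values `ι (φ j') q`, `j' ≤ j`, `q` arbitrary, and from the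
constants.  If `ι (φ i) p = ι (φ j) q` with `i < j`, then `q` is constant, so `ι (φ i) p = ι (φ j) q = ι (φ i) q` and `p = q` by
injectivity.
-/

set_option autoImplicit false

namespace Pool.Low

theorem ultra_const {K : Type} [Finite K] (U : Ultrafilter ℕ) (c : ℕ → K) : ∃ k, ∀ᶠ i in (U : Filter ℕ), c i = k := by
  obtain ⟨k, hk⟩ := Ultrafilter.eq_pure_of_finite (U.map c)
  refine ⟨k, ?_⟩
  have h1 : ({k} : Set K) ∈ (U.map c) := by
    rw [hk]; exact Set.mem_singleton k
  exact h1

theorem delta_lemma {α : Type} (X : ℕ) (ι : ℕ → Fin X → α) (hinj : ∀ i, Function.Injective (ι i)) :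
    ∃ φ : ℕ → ℕ, StrictMono φ ∧ ∀ i j, i ≠ j → ∀ p q, ι (φ i) p = ι (φ j) q → p = q := by
  classical
  set U : Ultrafilter ℕ := Filter.hyperfilter ℕ with hU
  let col : ℕ → ℕ → (Fin X → Fin X → Prop) := fun i j p q => ι i p = ι j q
  have h1 : ∀ i, ∃ k, ∀ᶠ j in (U : Filter ℕ), col i j = k := fun i => ultra_const U (col i)
  choose c hc using h1
  obtain ⟨k, hk⟩ := ultra_const U c
  have hcof : ∀ n : ℕ, ∀ᶠ j in (U : Filter ℕ), n < j := by
    intro n
    have hle : (U : Filter ℕ) ≤ Filter.cofinite := Filter.hyperfilter_le_cofinite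
    rw [Nat.cofinite_eq_atTop] at hle
    exact hle (Filter.eventually_gt_atTop n)
  obtain ⟨φ, hφ1, hφ2⟩ := exists_seq_of_forall_finset_exists (fun i => c i = k) (fun i j => i < j ∧ col i j = k) (by
    intro s hs
    have h2 : ∀ᶠ y in (U : Filter ℕ), ∀ x ∈ s, x < y ∧ col x y = k := by
      rw [Filter.eventually_all_finset]
      intro x hx
      filter_upwards [hcof x, hc x] with y hy1 hy2
      exact ⟨hy1, hy2.trans (hs x hx)⟩
    obtain ⟨y, hy1, hy2⟩ := (hk.and h2).exists
    exact ⟨y, hy1, hy2⟩)
  have hmono : StrictMono φ := by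
    intro a b hab
    exact (hφ2 a b hab).1
  have key : ∀ i j, i < j → ∀ p q, ι (φ i) p = ι (φ j) q → p = q := by
    intro i j hij p q h
    have e1 := (hφ2 i j hij).2
    have e2 := (hφ2 i (j + 1) (by omega)).2
    have e3 := (hφ2 j (j + 1) (by omega)).2
    have hkpq : k p q := by rw [← e1]; exact h
    have h2 : ι (φ i) p = ι (φ (j + 1)) q := by
      have : col (φ i) (φ (j + 1)) p q := by rw [e2]; exact hkpq
      exact this
    have h3 : ι (φ j) p = ι (φ (j + 1)) q := by
      have : col (φ j) (φ (j + 1)) p q := by rw [e3]; exact hkpq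
      exact this
    exact hinj (φ j) (h3.trans (h2.symm.trans h))
  refine ⟨φ, hmono, ?_⟩
  intro i j hij p q h
  rcases lt_or_gt_of_ne hij with h1 | h1
  · exact key i j h1 p q h
  · exact (key j i h1 q p h.symm).symm

end Pool.Low
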