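import Pool.Agent.helper24.Low.Lat

/-!
# Module LA13 (Dich): the dichotomy for two closed sets
-/

set_option autoImplicit false

namespace Pool.Low

open scoped Classical

variable {V C : Type} [DecidableEq V] [DecidableEq C]

omit [DecidableEq V] [DecidableEq C] in
/-- No cross incidences and no bare cross edges: semi-free. -/
theorem sf_of_zero {G : Geo V C} {A W : Rg V C} (hc : crossInc G A W = 0) (hb : bare G A W = 0) :
    SF G A W := by
  have h1 : xi G A W = ∅ := by
    rw [← Finset.card_eq_zero]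
    unfold crossInc at hc
    omega
  have h2 : xi G W A = ∅ := by
    rw [← Finset.card_eq_zero]
    unfold crossInc at hc
    omega
  have hl : ∀ v ∈ A.1, v ∉ W.1 → ∀ c ∈ W.2, c ∉ A.2 → ¬ G.inc v c := by
    intro v hv hv' c hc1 hc2 hi
    have : (v, c) ∈ xi G A W := mem_xi.2 ⟨hv, hc1, hv', hc2, hi⟩
    rw [h1] at this
    exact absurd this (Finset.notMem_empty _)
  have hr : ∀ v ∈ W.1, v ∉ A.1 → ∀ c ∈ A.2, c ∉ W.2 → ¬ G.inc v c := by
    intro v hv hv' c hc1 hc2 hi
    have : (v, c) ∈ xi G W A := mem_xi.2 ⟨hv, hc1, hv', hc2, hi⟩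
    rw [h2] at this
    exact absurd this (Finset.notMem_empty _)
  refine ⟨hl, hr, ?_⟩
  intro u hu hu' v hv hv' he
  unfold bare at hb
  have hb1 := Finset.card_eq_zero.1 (Nat.eq_zero_of_add_eq_zero_right hb)
  have hb2 := Finset.card_eq_zero.1 (Nat.eq_zero_of_add_eq_zero_left hb)
  have key : ∃ c, (c ∈ A.2 ∨ c ∈ W.2) ∧ G.inc u c ∧ G.inc v c := by
    rcases he with he | he
    · have hm : (u, v) ∈ xe G A W := mem_xe.2 ⟨hu, hv, hu', hv', he⟩
      have h3 := (Finset.filter_eq_empty_iff.1 hb1) hm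
      by_contra hcon
      exact h3 fun c hc hi => hcon ⟨c, hc, hi.1, hi.2⟩
    · have hm : (v, u) ∈ xe G W A := mem_xe.2 ⟨hv, hu, hv', hu', he⟩
      have h3 := (Finset.filter_eq_empty_iff.1 hb2) hm
      by_contra hcon
      exact h3 fun c hc hi => hcon ⟨c, hc, hi.2, hi.1⟩
  obtain ⟨c, hc, hiu, hiv⟩ := key
  rcases hc with hc | hc
  · by_cases hcW : c ∈ W.2
    · exact ⟨c, hc, hcW, hiu, hiv⟩
    · exact absurd hiv (hr v hv hv' c hc hcW)
  · by_cases hcA : c ∈ A.2
    · exact ⟨c, hcA, hc, hiu, hiv⟩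
    · exact absurd hiu (hl u hu hu' c hc hcA)

/-- Let `H` be the hull of `A ⊔ W`; by `sub` (with `P = A`) and `hull_del_sup`
`del H + #new + del (A ⊓ W) + (a - 4n - 4) crossInc A W + bare A W ≤ del A + del W`.
Let `Z` be the closure of `A ⊔ W` (`exists_closure`), so `del Z ≤ del H`.
If `crossInc ≥ 1` or `bare ≥ 1` or `#new ≥ 1` or `del Z < del H`, the first alternative holds.
Otherwise `H = A ⊔ W` is full, `del Z = del (A ⊔ W)` is minimal among the full sets above `A ⊔ W`, so `A ⊔ W` is closed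
(`cl_of_min`) and `Z = A ⊔ W`.  There are no cross incidences, and every cross edge is in a block of `A.2 ∪ W.2`, which must be in
`A.2 ∩ W.2` (no cross incidences): this is `SF`.  Equality of `del`: if it is not an equality, we are again in the first alternative
(`sub` gives `≤`). -/
theorem dichotomy {G : Geo V C} {n : ℕ} {a b : ℝ} (h : Wt n a b) {D A W : Rg V C} (hD : PP G n a b D)
    (hA : Cl G n a b D A) (hW : Cl G n a b D W) :
    ∃ Z, Cl G n a b D Z ∧ A ⊔ W ≤ Z ∧
      (del G a b Z + del G a b (A ⊓ W) < del G a b A + del G a b W ∨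
        (Z = A ⊔ W ∧ del G a b Z + del G a b (A ⊓ W) = del G a b A + del G a b W ∧ SF G A W)) := by
  have hle : A ⊔ W ≤ D := sup_le hA.1.1 hW.1.1
  have hsub := sub h hD hA.1 hW
  have hhull := hull_del_sup h hA.1 hW.1
  obtain ⟨R, hR, hTR, -, hmin⟩ := exists_closure h hD hle
  have hRH := hmin _ (hull_full hle) (le_hull hle)
  by_cases hlt : del G a b R + del G a b (A ⊓ W) < del G a b A + del G a b W
  · exact ⟨R, hR, hTR, Or.inl hlt⟩
  · push Not at hlt
    have hn0 : (0 : ℝ) ≤ n := Nat.cast_nonneg n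
    have hpos : 0 < a - 4 * n - 4 := by
      have := h.big
      nlinarith [mul_nonneg hn0 hn0]
    have hc0 : (0 : ℝ) ≤ (crossInc G A W : ℝ) := Nat.cast_nonneg _
    have hb0 : (0 : ℝ) ≤ (bare G A W : ℝ) := Nat.cast_nonneg _
    have hw0 : (0 : ℝ) ≤ (((hull G n D (A ⊔ W)).2 \ (A ⊔ W).2).card : ℝ) := Nat.cast_nonneg _
    have hm0 : 0 ≤ (a - 4 * n - 4) * (crossInc G A W : ℝ) := mul_nonneg hpos.le hc0
    have hc : (a - 4 * n - 4) * (crossInc G A W : ℝ) = 0 := by linarith
    have hb : (bare G A W : ℝ) = 0 := by linarith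
    have hw : (((hull G n D (A ⊔ W)).2 \ (A ⊔ W).2).card : ℝ) = 0 := by linarith
    have hc' : crossInc G A W = 0 := by
      rcases mul_eq_zero.1 hc with h1 | h1
      · exact absurd h1 hpos.ne'
      · exact_mod_cast h1
    have hb' : bare G A W = 0 := by exact_mod_cast hb
    have hw' : ((hull G n D (A ⊔ W)).2 \ (A ⊔ W).2).card = 0 := by exact_mod_cast hw
    have hHeq : hull G n D (A ⊔ W) = A ⊔ W := by
      refine le_antisymm (rg_le_iff.2 ⟨fun v hv => hv, ?_⟩) (le_hull hle)
      have := Finset.card_eq_zero.1 hw'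
      exact Finset.sdiff_eq_empty_iff_subset.1 this
    have hfull : Full G n D (A ⊔ W) := by
      have := hull_full (G := G) (n := n) hle
      rwa [hHeq] at this
    have hdel : del G a b R = del G a b (A ⊔ W) := by
      rw [hHeq] at hRH
      linarith
    have hcl : Cl G n a b D (A ⊔ W) := by
      refine cl_of_min hfull le_rfl fun Z' h1 h2 => ?_
      rw [← hdel]
      exact hmin Z' h1 h2
    refine ⟨A ⊔ W, hcl, le_rfl, Or.inr ⟨rfl, ?_, sf_of_zero hc' hb'⟩⟩
    rw [hdel] at hlt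
    linarith

end Pool.Low
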