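import Pool.Agent.helper24.Low.ML1

/-!
# Module ML4a (DvMod): the total predimensions `Dv P t S i A = ∑_{e ∈ A.2, lev e = i} dl (reg S A e)`
-/

set_option autoImplicit false

namespace Pool.Low

open scoped Classical

variable {V C : Type} [DecidableEq V] [DecidableEq C]
variable {P : Par} {act : Set ℕ} {t : ℝ} {S : Sys V C} {i : ℕ}

/-- `reg S A e` is full in `reg S D e`, so `dl ≥ 0` (`KL.ppt`). -/
theorem dv_nonneg (hP : Good0 P) (h0 : 0 ≤ t) (h1 : t ≤ P.θ) {D A : Rg V C} (hD : KL P act S D)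
    (hA : FullL P act S D A) (hi : i ∈ act) : 0 ≤ Dv P t S i A := by
  unfold Dv
  apply Finset.sum_nonneg
  intro e he
  rw [Finset.mem_filter] at he
  obtain ⟨he, rfl⟩ := he
  have hp := hD.ppt hP h0 h1 (hA.le.2 he) hi
  exact hp.2.2 _ (hA.full e he hi)

/-- For `e ∈ A.2`: `dl (reg S A e) ≤ dl (reg S B e)` as `reg S A e` is closed and `reg S B e` is full in `reg S D e`; for
`e ∈ B.2 \ A.2`: `0 ≤ dl (reg S B e)`. -/
theorem dv_mono (hP : Good0 P) (h0 : 0 ≤ t) (h1 : t ≤ P.θ) {D A B : Rg V C} (hD : KL P act S D)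
    (hA : ClL P act t S D A) (hB : FullL P act S D B) (hAB : A ≤ B) (hi : i ∈ act) : Dv P t S i A ≤ Dv P t S i B := by
  unfold Dv
  calc ∑ e ∈ A.2.filter (fun e => S.lev e = i), dl S.toGeo (P.gs i) t (reg S A e)
      ≤ ∑ e ∈ A.2.filter (fun e => S.lev e = i), dl S.toGeo (P.gs i) t (reg S B e) := by
        apply Finset.sum_le_sum
        intro e he
        rw [Finset.mem_filter] at he
        obtain ⟨he, rfl⟩ := he
        have hcl := hA.cl e he hi
        exact hcl.2 _ (hB.full e (hAB.2 he) hi) (reg_mono hAB e)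
    _ ≤ ∑ e ∈ B.2.filter (fun e => S.lev e = i), dl S.toGeo (P.gs i) t (reg S B e) := by
        apply Finset.sum_le_sum_of_subset_of_nonneg
        · exact Finset.filter_subset_filter _ hAB.2
        · intro e he _
          rw [Finset.mem_filter] at he
          obtain ⟨he, rfl⟩ := he
          have hp := hD.ppt hP h0 h1 (hB.le.2 he) hi
          exact hp.2.2 _ (hB.full e he hi)

/-- `Q t` is an integer, so `Q * dl` is an integer (`dl_eq`, `dl_zero_int`). -/
theorem dv_int {Q : ℕ} (hQ : ∃ z : ℤ, (Q : ℝ) * t = z) (A : Rg V C) : ∃ z : ℤ, (Q : ℝ) * Dv P t S i A = z := by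
  obtain ⟨z, hz⟩ := hQ
  have h : ∀ e : C, ∃ y : ℤ, (Q : ℝ) * dl S.toGeo (P.gs i) t (reg S A e) = y := by
    intro e
    obtain ⟨z0, hz0⟩ := dl_zero_int S.toGeo (P.gs i) (reg S A e)
    refine ⟨(Q : ℤ) * z0 - z * psi S.toGeo (P.gs i + 4) (reg S A e), ?_⟩
    rw [dl_eq, hz0]
    push_cast
    rw [← hz]
    ring
  choose y hy using h
  refine ⟨∑ e ∈ A.2.filter (fun e => S.lev e = i), y e, ?_⟩
  unfold Dv
  rw [Finset.mul_sum]
  push_cast
  exact Finset.sum_congr rfl (fun e _ => hy e)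

end Pool.Low
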