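import Pool.Agent.helper24.Low.Dom

/-!
# Module LA11 (Triv): trivial extensions and small sets
-/

set_option autoImplicit false

namespace Pool.Low

open scoped Classical

variable {V C : Type} [DecidableEq V] [DecidableEq C]

/-- `Full` in `P` implies `Full` in `D` (`full_trans`). -/
theorem kk_full {G : Geo V C} {g : ℕ} {θ : ℝ} {f : ℕ → ℝ} {D P : Rg V C} (hD : KK G g θ f D)
    (hP : Full G (g + 1) D P) : KK G g θ f P where
  bip := bip_mono hP.1.1 hD.bip
  ls := ls_mono hP.1 hD.ls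
  big := fun Q hQ h => hD.big Q (full_trans hP hQ) h
  ctl := fun Q hQ => hD.ctl Q (full_trans hP hQ)

/-- **Adding vertices lying in blocks of a closed set.**  Let `T' = T \ B.1`.  By `cl_unique` every `v ∈ T'` has `mm B v = 1`, so for
every new edge `m2 B ≤ 1`, and `del (B.1 ∪ T, B.2) ≤ del B` by `del_add_vertices`.  A block `c ∈ D.2 \ B.2` has at most `n` vertices
in `B.1` (full) and at most `n` in `T'` (`cl_few`), so `hull_del` applies: `del H + #new ≤ del (B.1 ∪ T, B.2) ≤ del B ≤ del H` for the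
hull `H`; hence there are no new blocks (the set is full) and `del` is equal to `del B`; closed: a full `Z` above it is above `B`. -/
theorem cl_add_trivial {G : Geo V C} {n : ℕ} {a b : ℝ} (h : Wt n a b) {D B : Rg V C} (hD : PP G n a b D)
    (hB : Cl G n a b D B) (T : Finset V) (hT : ∀ v ∈ T, v ∈ D.1 ∧ 1 ≤ mm G B v) :
    Cl G n a b D (B.1 ∪ T, B.2) ∧ del G a b (B.1 ∪ T, B.2) = del G a b B := by
  have hBD : B ≤ D := hB.1.1
  set P : Rg V C := (B.1 ∪ T, B.2) with hPdef
  have hPD : P ≤ D := by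
    refine ⟨?_, hBD.2⟩
    intro v hv
    rcases Finset.mem_union.1 hv with h1 | h1
    · exact hBD.1 h1
    · exact (hT v h1).1
  have hone : ∀ v ∈ T \ B.1, mm G B v = 1 := by
    intro v hv
    rw [Finset.mem_sdiff] at hv
    have h1 := cl_unique h hD hB (hT v hv.1).1 hv.2
    have h2 := (hT v hv.1).2
    omega
  have hPeq : P = (B.1 ∪ (T \ B.1), B.2) := by
    rw [hPdef, Finset.union_sdiff_self_eq_union]
  have hdel : del G a b P ≤ del G a b B := by
    rw [hPeq, del_add_vertices G a b B (T \ B.1) Finset.disjoint_sdiff]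
    have e1 : ∑ u ∈ T \ B.1, (1 - (mm G B u : ℝ)) = 0 := by
      apply Finset.sum_eq_zero
      intro u hu
      rw [hone u hu]; simp
    have e2 : 0 ≤ ∑ p ∈ ed G (B.1 ∪ (T \ B.1)) \ ed G B.1, (1 - (m2 G B p.1 p.2 : ℝ)) := by
      apply Finset.sum_nonneg
      intro p hp
      rw [Finset.mem_sdiff, mem_ed, mem_ed] at hp
      obtain ⟨⟨⟨h1, h2⟩, h3⟩, h4⟩ := hp
      have hcase : p.1 ∈ T \ B.1 ∨ p.2 ∈ T \ B.1 := by
        by_contra hcon
        push Not at hcon
        apply h4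
        refine ⟨⟨?_, ?_⟩, h3⟩
        · exact (Finset.mem_union.1 h1).resolve_right hcon.1
        · exact (Finset.mem_union.1 h2).resolve_right hcon.2
      have hm : m2 G B p.1 p.2 ≤ 1 := by
        rcases hcase with h5 | h5
        · exact (m2_le_left G B p.1 p.2).trans (hone _ h5).le
        · exact (m2_le_right G B p.1 p.2).trans (hone _ h5).le
      have : (m2 G B p.1 p.2 : ℝ) ≤ 1 := by exact_mod_cast hm
      linarith
    rw [e1]
    linarith
  have hsmall : ∀ c ∈ D.2, c ∉ P.2 → (tr G P.1 c).card ≤ 2 * n := by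
    intro c hc hcB
    have h1 : (tr G B.1 c).card ≤ n := by
      by_contra hcon
      exact hcB (hB.1.2 c hc (by omega))
    have h2 : (tr G (T \ B.1) c).card ≤ n := by
      apply cl_few h hD hB hc hcB
      intro u hu
      rw [mem_tr, Finset.mem_sdiff] at hu
      exact ⟨(hT u hu.1.1).1, hu.1.2, hu.2, (hT u hu.1.1).2⟩
    have h3 : tr G P.1 c ⊆ tr G B.1 c ∪ tr G (T \ B.1) c := by
      intro v hv
      rw [hPeq] at hv
      rw [mem_tr] at hv
      rw [Finset.mem_union, mem_tr, mem_tr]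
      rcases Finset.mem_union.1 hv.1 with h4 | h4
      · exact Or.inl ⟨h4, hv.2⟩
      · exact Or.inr ⟨h4, hv.2⟩
    calc (tr G P.1 c).card ≤ (tr G B.1 c ∪ tr G (T \ B.1) c).card := Finset.card_le_card h3
      _ ≤ (tr G B.1 c).card + (tr G (T \ B.1) c).card := Finset.card_union_le _ _
      _ ≤ 2 * n := by omega
  have hhull := hull_del h hPD hsmall
  have hfull := hull_full (G := G) (n := n) hPD
  have hPH : P ≤ hull G n D P := le_hull hPD
  have hBP : B ≤ P := ⟨Finset.subset_union_left, Finset.Subset.refl _⟩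
  have hcl := hB.2 _ hfull (hBP.trans hPH)
  have hnew : (((hull G n D P).2 \ P.2).card : ℝ) ≤ 0 := by linarith
  have hnew0 : (hull G n D P).2 \ P.2 = ∅ := by
    rw [← Finset.card_eq_zero]
    have : ((hull G n D P).2 \ P.2).card ≤ 0 := by exact_mod_cast hnew
    omega
  have hHP : hull G n D P = P := by
    apply le_antisymm _ hPH
    refine ⟨Finset.Subset.refl _, ?_⟩
    intro c hc
    by_contra hcon
    have : c ∈ (hull G n D P).2 \ P.2 := Finset.mem_sdiff.2 ⟨hc, hcon⟩
    rw [hnew0] at this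
    simp at this
  rw [hHP] at hfull hcl
  have heq : del G a b P = del G a b B := le_antisymm hdel hcl
  refine ⟨⟨hfull, ?_⟩, heq⟩
  intro Z hZ hPZ
  rw [heq]
  exact hB.2 Z hZ (hBP.trans hPZ)

/-- the predimension of a region without blocks -/
theorem dl_noblock (G : Geo V C) (g : ℕ) (t : ℝ) (X : Finset V) :
    dl G g t ((X, ∅) : Rg V C) = wa g t * (X.card : ℝ) - ((ed G X).card : ℝ) := by
  unfold dl
  rw [del_formula]
  simp

/-- **Sets of at most `g` vertices are closed.**  No block has `g + 2` vertices in `X`.  Let `Z ⊇ X` be full.  If `Z` has a block or more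
than `g` vertices then `dl Z ≥ 64 (g+2)^2 g ≥ wa g θ * |X| ≥ dl X` (`big`; no blocks: `dl X = wa |X| - |ed X|`).  Otherwise `Z = (X', ∅)`
with `X ⊆ X'`, `|X'| ≤ g`, and `dl Z - dl X = wa * |X' \ X| - |ed X' \ ed X| ≥ (wa - 2g) |X' \ X| ≥ 0`. -/
theorem small_closed {G : Geo V C} {g : ℕ} {θ : ℝ} {f : ℕ → ℝ} (h0 : 0 ≤ θ) (h1 : θ ≤ 1) {D : Rg V C}
    (hD : KK G g θ f D) (X : Finset V) (hX : X ⊆ D.1) (hg : X.card ≤ g) : ClT G g θ D (X, ∅) := by
  have hg0 : (0:ℝ) ≤ g := Nat.cast_nonneg g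
  refine ⟨⟨⟨hX, Finset.empty_subset _⟩, ?_⟩, ?_⟩
  · intro c _ hcard
    exfalso
    have : (tr G X c).card ≤ X.card := Finset.card_le_card (Finset.filter_subset _ _)
    simp only at hcard
    omega
  · intro Z hZ hXZ
    change dl G g θ ((X, ∅) : Rg V C) ≤ dl G g θ Z
    rw [dl_noblock]
    by_cases hbig : Z.2.Nonempty ∨ g < Z.1.card
    · have h2 := hD.big Z hZ hbig
      have h3 : (X.card : ℝ) ≤ g := by exact_mod_cast hg
      have h4 : (0:ℝ) ≤ (ed G X).card := Nat.cast_nonneg _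
      have h5 : (0:ℝ) ≤ X.card := Nat.cast_nonneg _
      have h6 : wa g θ ≤ 64 * ((g : ℝ) + 2) ^ 2 := by unfold wa; linarith
      have h7 : 0 ≤ wa g θ := by linarith [wa_pos (g := g) h1]
      calc wa g θ * (X.card : ℝ) - ((ed G X).card : ℝ) ≤ wa g θ * (X.card : ℝ) := by linarith
        _ ≤ wa g θ * g := mul_le_mul_of_nonneg_left h3 h7
        _ ≤ 64 * ((g : ℝ) + 2) ^ 2 * g := mul_le_mul_of_nonneg_right h6 hg0
        _ ≤ dl G g θ Z := h2
    · push Not at hbig
      obtain ⟨hZ2, hZg⟩ := hbig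
      have hZeq : Z = (Z.1, ∅) := by
        apply Prod.ext
        · rfl
        · exact hZ2
      rw [hZeq, dl_noblock]
      have hXZ1 : X ⊆ Z.1 := hXZ.1
      have hsplit : (ed G Z.1).card ≤ (ed G X).card + 2 * ((Z.1 \ X).card * Z.1.card) := by
        have hsub : ed G Z.1 ⊆ ed G X ∪ ((Z.1 \ X) ×ˢ Z.1 ∪ Z.1 ×ˢ (Z.1 \ X)) := by
          intro p hp
          rw [mem_ed] at hp
          simp only [Finset.mem_union, Finset.mem_product, mem_ed, Finset.mem_sdiff]
          by_cases ha : p.1 ∈ X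
          · by_cases hb : p.2 ∈ X
            · exact Or.inl ⟨⟨ha, hb⟩, hp.2⟩
            · exact Or.inr (Or.inr ⟨hp.1.1, hp.1.2, hb⟩)
          · exact Or.inr (Or.inl ⟨⟨hp.1.1, ha⟩, hp.1.2⟩)
        calc (ed G Z.1).card ≤ (ed G X ∪ ((Z.1 \ X) ×ˢ Z.1 ∪ Z.1 ×ˢ (Z.1 \ X))).card := Finset.card_le_card hsub
          _ ≤ (ed G X).card + ((Z.1 \ X) ×ˢ Z.1 ∪ Z.1 ×ˢ (Z.1 \ X)).card := Finset.card_union_le _ _
          _ ≤ (ed G X).card + (((Z.1 \ X) ×ˢ Z.1).card + (Z.1 ×ˢ (Z.1 \ X)).card) := by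
              have := Finset.card_union_le ((Z.1 \ X) ×ˢ Z.1) (Z.1 ×ˢ (Z.1 \ X))
              omega
          _ = (ed G X).card + 2 * ((Z.1 \ X).card * Z.1.card) := by
              rw [Finset.card_product, Finset.card_product]; ring
      have hcard : (Z.1 \ X).card + X.card = Z.1.card := Finset.card_sdiff_add_card_eq_card hXZ1
      have hk : ((Z.1 \ X).card : ℝ) + X.card = Z.1.card := by exact_mod_cast hcard
      have hs : ((ed G Z.1).card : ℝ) ≤ (ed G X).card + 2 * ((Z.1 \ X).card * Z.1.card) := by exact_mod_cast hsplit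
      have hzg : (Z.1.card : ℝ) ≤ g := by exact_mod_cast hZg
      have hk0 : (0:ℝ) ≤ (Z.1 \ X).card := Nat.cast_nonneg _
      have hw : 2 * (g : ℝ) ≤ wa g θ := by
        unfold wa; nlinarith
      have : 2 * (((Z.1 \ X).card : ℝ) * Z.1.card) ≤ wa g θ * (Z.1 \ X).card := by
        calc 2 * (((Z.1 \ X).card : ℝ) * Z.1.card) ≤ 2 * (((Z.1 \ X).card : ℝ) * g) := by
              have := mul_le_mul_of_nonneg_left hzg hk0
              linarith
          _ = 2 * (g : ℝ) * (Z.1 \ X).card := by ring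
          _ ≤ wa g θ * (Z.1 \ X).card := mul_le_mul_of_nonneg_right hw hk0
      rw [← hk]
      nlinarith

/-- A region without blocks and with at most `g` vertices is in the class: `big` is void, and for `X' ⊆ X`
`f (sz) = f |X'| ≤ |X'| ≤ wa |X'| - |X'|^2 ≤ dl (X', ∅)`. -/
theorem small_kk {G : Geo V C} {g L : ℕ} {θ : ℝ} {f : ℕ → ℝ} (h0 : 0 ≤ θ) (h1 : θ ≤ 1) (hf : Ctl θ L f)
    (X : Finset V) (hb : Bip G X) (hg : X.card ≤ g) : KK G g θ f ((X, ∅) : Rg V C) where
  bip := hb
  ls := by intro c hc; simp at hc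
  big := by
    intro P hP hcase
    exfalso
    have hP1 : P.1 ⊆ X := hP.1.1
    have hP2 : P.2 ⊆ (∅ : Finset C) := hP.1.2
    rcases hcase with h2 | h2
    · obtain ⟨c, hc⟩ := h2
      have := hP2 hc
      simp at this
    · have := Finset.card_le_card hP1
      omega
  ctl := by
    intro P hP
    have hg0 : (0:ℝ) ≤ g := Nat.cast_nonneg g
    have hP1 : P.1 ⊆ X := hP.1.1
    have hP2 : P.2 = ∅ := Finset.subset_empty.1 hP.1.2
    have hPeq : P = (P.1, ∅) := Prod.ext rfl hP2
    have hsz : sz G P ≤ P.1.card := by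
      unfold sz
      rw [hP2]
      simp only [Finset.card_empty, zero_add]
      exact Finset.card_filter_le _ _
    have hPg : P.1.card ≤ g := (Finset.card_le_card hP1).trans hg
    have h2 : f (sz G P) ≤ (P.1.card : ℝ) := (hf.le_id _).trans (by exact_mod_cast hsz)
    have h3 : dl G g θ P = wa g θ * (P.1.card : ℝ) - ((ed G P.1).card : ℝ) := by
      conv_lhs => rw [hPeq]
      rw [dl_noblock]
    have h4 : ((ed G P.1).card : ℝ) ≤ (P.1.card : ℝ) ^ 2 := by exact_mod_cast ed_card_le G P.1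
    have h5 : (P.1.card : ℝ) ≤ g := by exact_mod_cast hPg
    have h6 : (0:ℝ) ≤ P.1.card := Nat.cast_nonneg _
    have h7 : (g : ℝ) + 1 ≤ wa g θ := by unfold wa; nlinarith
    rw [h3]
    have h8 : ((g : ℝ) + 1) * P.1.card ≤ wa g θ * P.1.card := mul_le_mul_of_nonneg_right h7 h6
    nlinarith

end Pool.Low
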