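import Pool.Agent.helper24.Low.Anc
import Pool.Agent.helper24.Low.Triv

/-!
# Module ML4b (Fill): adding everything below level `i + 1`

`R` is closed in `D` at the levels `≤ i` and has only blocks of level `≤ i + 1`.  Let `N` be its set of blocks of level `i + 1` and
`E = (R.1 ∪ {v ∈ D.1 | ∃ c ∈ N, inc v c}, R.2 ∪ {d ∈ D.2 | ∃ m, S.par^[m] d ∈ N})` (`m` the number of steps, `d` of level `i+1+m`).
* `Ok S E`: `ok_of_le`.
* If `e ∈ E.2` has level `≥ i+1`, it is a block below (or in) `N`, so `reg S E e = reg S D e` (all vertices of `D` in `e` are in the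
  ancestor of `e` in `N`; all children of `e` in `D` are in `E`): closed by `cl_self`.
* If `e ∈ E.2` has level `≤ i` then `e ∈ R.2` (the new blocks have level `≥ i+1`; those of level `i+1` are in `N ⊆ R.2`), the children of `e` in
  `E` are those in `R`, and every vertex `v` of `E` in `e` which is not in `R` is in some `c ∈ N`; the ancestor of `c` of level
  `lev e + 1` is in `R.2` and contains `v`, and its parent is a block of `R` of level `lev e` containing `v`, hence it is `e` by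
  `unique_anc` (with `i + 1`).  So `cl_add_trivial` applies.
-/

set_option autoImplicit false

namespace Pool.Low

open scoped Classical

variable {V C : Type} [DecidableEq V] [DecidableEq C]
variable {P : Par} {t : ℝ} {S : Sys V C} {i s : ℕ}

/-- iterated parents -/
private theorem iter_par {D : Rg V C} (hD : Ok S D) (m : ℕ) : ∀ d ∈ D.2, S.par^[m] d ∈ D.2 ∧
    (S.lev (S.par^[m] d) ≠ 0 → S.lev d = S.lev (S.par^[m] d) + m) ∧
    ∀ v ∈ D.1, S.inc v d → S.inc v (S.par^[m] d) := by
  induction m with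
  | zero => intro d hd; exact ⟨hd, fun _ => rfl, fun v _ h => h⟩
  | succ m ih =>
    intro d hd
    rw [Function.iterate_succ_apply]
    obtain ⟨a1, a2, a3⟩ := ih (S.par d) (hD.par_mem d hd)
    refine ⟨a1, ?_, fun v hv h => a3 v hv (hD.inc_par v hv d hd h)⟩
    intro hne
    have hdr : d ≠ S.root := by
      rintro rfl
      apply hne
      rw [hD.par_root, Function.iterate_fixed hD.par_root, hD.lev_root]
    rw [hD.lev_par d hd hdr, a2 hne]
    omega

/-- a block of level `lev e + 1` of `R` which contains a vertex `v ∉ R.1` of `e` and lies above a given block `e'` containing `v` -/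
private theorem child_above (hP : Good0 P) (h0 : 0 ≤ t) (h1 : t ≤ P.θ) {D R : Rg V C} (hD : KL P (Set.Iio i) S D)
    (hR : ClL P (Set.Iio i) t S D R) {v : V} (hv : v ∈ D.1) (hvR : v ∉ R.1) {e e' : C} (he : e ∈ R.2) (he' : e' ∈ R.2)
    (hlt : S.lev e < S.lev e') (hi : S.lev e ≤ i) (h2 : S.inc v e) (h3 : S.inc v e') :
    1 ≤ mm S.toGeo (reg S R e) v := by
  obtain ⟨m, hm1, hm2, hm3, -⟩ := anc_exists hR.ok he' (l := S.lev e + 1) hlt
  have hinc := (iter_par hD.ok m e' (hR.le.2 he')).2.2 v hv h3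
  have hne : S.par^[m] e' ≠ S.root := by
    intro h
    rw [h, hD.ok.lev_root] at hm1
    omega
  have hlp := hD.ok.lev_par _ (hR.le.2 hm2) hne
  have hpe : S.par (S.par^[m] e') = e := by
    apply unique_anc hP h0 h1 hD hR hv hvR (hR.ok.par_mem _ hm2) he
    · omega
    · omega
    · exact hD.ok.inc_par v hv _ (hR.le.2 hm2) hinc
    · exact h2
  rw [mm_pos_iff]
  exact ⟨_, mem_reg2.2 ⟨hm2, hpe, hne⟩, hinc⟩

/-- add everything below the blocks of level `i + 1` -/
private noncomputable def fil (S : Sys V C) (i : ℕ) (D R : Rg V C) : Rg V C :=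
  (R.1 ∪ D.1.filter (fun v => ∃ c ∈ R.2, S.lev c = i + 1 ∧ S.inc v c),
    R.2 ∪ D.2.filter (fun d => ∃ m, S.par^[m] d ∈ R.2 ∧ S.lev (S.par^[m] d) = i + 1))

private theorem mem_fil1 {D R : Rg V C} {v : V} :
    v ∈ (fil S i D R).1 ↔ v ∈ R.1 ∨ (v ∈ D.1 ∧ ∃ c ∈ R.2, S.lev c = i + 1 ∧ S.inc v c) := by
  simp [fil]

private theorem mem_fil2 {D R : Rg V C} {d : C} :
    d ∈ (fil S i D R).2 ↔ d ∈ R.2 ∨ (d ∈ D.2 ∧ ∃ m, S.par^[m] d ∈ R.2 ∧ S.lev (S.par^[m] d) = i + 1) := by
  simp [fil]

theorem fill_below (hP : Good0 P) (h0 : 0 ≤ t) (h1 : t ≤ P.θ) (his : i < s) {D R : Rg V C}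
    (hD : KL P (Set.Iio s) S D) (hR : ClL P (Set.Iio (i + 1)) t S D R) (hlev : ∀ c ∈ R.2, S.lev c ≤ i + 1) :
    ∃ E, ClL P (Set.Iio s) t S D E ∧ R ≤ E ∧ (∀ c ∈ E.2, S.lev c ≤ i + 1 → c ∈ R.2) ∧
      (∀ d ∈ D.2, (∃ m, S.par^[m] d ∈ R.2 ∧ S.lev (S.par^[m] d) = i + 1) → d ∈ E.2) ∧
      (∀ e ∈ R.2, S.lev e ≤ i →
        dl S.toGeo (P.gs (S.lev e)) t (reg S E e) = dl S.toGeo (P.gs (S.lev e)) t (reg S R e)) := by
  have hDi : KL P (Set.Iio (i + 1)) S D := hD.act_mono (Set.Iio_subset_Iio his)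
  have hle : fil S i D R ≤ D := by
    constructor
    · intro v hv
      rcases mem_fil1.1 hv with h | ⟨h, -⟩
      · exact hR.le.1 h
      · exact h
    · intro c hc
      rcases mem_fil2.1 hc with h | ⟨h, -⟩
      · exact hR.le.2 h
      · exact h
  have hRle : R ≤ fil S i D R := by
    constructor
    · intro v hv
      exact mem_fil1.2 (Or.inl hv)
    · intro c hc
      exact mem_fil2.2 (Or.inl hc)
  have hok : Ok S (fil S i D R) := by
    apply ok_of_le hD.ok hle
    · exact mem_fil2.2 (Or.inl hR.ok.root_mem)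
    · intro c hc
      rcases mem_fil2.1 hc with h | ⟨h, m, hm1, hm2⟩
      · exact mem_fil2.2 (Or.inl (hR.ok.par_mem c h))
      · cases m with
        | zero => exact mem_fil2.2 (Or.inl (hR.ok.par_mem c hm1))
        | succ m =>
          rw [Function.iterate_succ_apply] at hm1 hm2
          exact mem_fil2.2 (Or.inr ⟨hD.ok.par_mem c h, m, hm1, hm2⟩)
  have hlow : ∀ c ∈ (fil S i D R).2, S.lev c ≤ i + 1 → c ∈ R.2 := by
    intro c hc hci
    rcases mem_fil2.1 hc with h | ⟨h, m, hm1, hm2⟩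
    · exact h
    · have h3 := (iter_par hD.ok m c h).2.1 (by omega)
      have hm : m = 0 := by omega
      subst hm
      exact hm1
  have hhigh : ∀ c ∈ (fil S i D R).2, i + 1 ≤ S.lev c →
      ∃ m, S.par^[m] c ∈ R.2 ∧ S.lev (S.par^[m] c) = i + 1 := by
    intro c hc hci
    rcases mem_fil2.1 hc with h | ⟨h, m, hm1, hm2⟩
    · exact ⟨0, h, le_antisymm (hlev c h) hci⟩
    · exact ⟨m, hm1, hm2⟩
  have hreglt : ∀ e ∈ R.2, S.lev e ≤ i →
      ClT S.toGeo (P.gs (S.lev e)) t (reg S D e) (reg S (fil S i D R) e) ∧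
      dl S.toGeo (P.gs (S.lev e)) t (reg S (fil S i D R) e) = dl S.toGeo (P.gs (S.lev e)) t (reg S R e) := by
    intro e he hlt
    have hreg : reg S (fil S i D R) e =
        ((reg S R e).1 ∪ ((fil S i D R).1.filter (fun v => v ∉ R.1 ∧ S.inc v e)), (reg S R e).2) := by
      apply rg_ext
      · intro v
        rw [mem_reg1]
        simp only [Finset.mem_union, Finset.mem_filter, mem_reg1]
        constructor
        · rintro ⟨h3, h4⟩
          by_cases hvR : v ∈ R.1
          · exact Or.inl ⟨hvR, h4⟩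
          · exact Or.inr ⟨h3, hvR, h4⟩
        · rintro (⟨h3, h4⟩ | ⟨h3, -, h4⟩)
          · exact ⟨hRle.1 h3, h4⟩
          · exact ⟨h3, h4⟩
      · intro c
        rw [mem_reg2]
        show _ ↔ c ∈ (reg S R e).2
        rw [mem_reg2]
        constructor
        · rintro ⟨h3, h4, h5⟩
          refine ⟨hlow c h3 ?_, h4, h5⟩
          rw [hD.ok.lev_par c (hle.2 h3) h5, h4]
          omega
        · rintro ⟨h3, h4, h5⟩
          exact ⟨hRle.2 h3, h4, h5⟩
    have hmem : S.lev e ∈ Set.Iio (i + 1) := Nat.lt_succ_of_le hlt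
    have hcl := hR.cl e he hmem
    have hpp := hDi.ppt hP h0 h1 (hR.le.2 he) hmem
    have hT : ∀ v ∈ (fil S i D R).1.filter (fun v => v ∉ R.1 ∧ S.inc v e),
        v ∈ (reg S D e).1 ∧ 1 ≤ mm S.toGeo (reg S R e) v := by
      intro v hv
      rw [Finset.mem_filter] at hv
      obtain ⟨h3, h4, h5⟩ := hv
      refine ⟨mem_reg1.2 ⟨hle.1 h3, h5⟩, ?_⟩
      rcases mem_fil1.1 h3 with h | ⟨h, c, hc, hci, hinc⟩
      · exact absurd h h4
      · exact child_above hP h0 h1 hDi hR h h4 he hc (by omega) (by omega) h5 hinc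
    have := cl_add_trivial (wt_Wt h0 (h1.trans hP.θ_lt.le)) hpp hcl _ hT
    rw [hreg]
    exact this
  refine ⟨fil S i D R, ⟨hle, hok, ?_⟩, hRle, hlow, ?_, fun e he hlt => (hreglt e he hlt).2⟩
  · intro e he hes
    by_cases hei : S.lev e ≤ i
    · exact (hreglt e (hlow e he (by omega)) hei).1
    · obtain ⟨m, hm1, hm2⟩ := hhigh e he (by omega)
      have hreg : reg S (fil S i D R) e = reg S D e := by
        apply rg_ext
        · intro v
          rw [mem_reg1, mem_reg1]
          constructor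
          · rintro ⟨h3, h4⟩
            exact ⟨hle.1 h3, h4⟩
          · rintro ⟨h3, h4⟩
            refine ⟨mem_fil1.2 (Or.inr ⟨h3, _, hm1, hm2, ?_⟩), h4⟩
            exact (iter_par hD.ok m e (hle.2 he)).2.2 v h3 h4
        · intro c
          rw [mem_reg2, mem_reg2]
          constructor
          · rintro ⟨h3, h4, h5⟩
            exact ⟨hle.2 h3, h4, h5⟩
          · rintro ⟨h3, h4, h5⟩
            refine ⟨mem_fil2.2 (Or.inr ⟨h3, m + 1, ?_, ?_⟩), h4, h5⟩
            · rw [Function.iterate_succ_apply, h4]; exact hm1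
            · rw [Function.iterate_succ_apply, h4]; exact hm2
      rw [hreg]
      exact cl_self _ _ _ _ _
  · intro d hd hm
    exact mem_fil2.2 (Or.inr ⟨hd, hm⟩)

end Pool.Low
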