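import Pool.Agent.helper24.Low.Tr2

set_option autoImplicit false

namespace Pool.Low

open scoped Classical

theorem push_ext {α : Type} (A B : Finset α) (g : α → ℕ) (hg : Set.InjOn g (A : Set α)) :
    ∃ h : α → ℕ, Set.InjOn h (B : Set α) ∧ ∀ a ∈ A, h a = g a := by
  let N := A.sup g + 1
  let e := B.equivFin
  refine ⟨fun x => if x ∈ A then g x else if hx : x ∈ B then N + (e ⟨x, hx⟩ : ℕ) else 0, ?_, ?_⟩
  · intro x hx y hy hxy
    have hx' : x ∈ B := hx
    have hy' : y ∈ B := hy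
    have hlt : ∀ z ∈ A, g z < N := fun z hz => Nat.lt_succ_of_le (Finset.le_sup (f := g) hz)
    simp only at hxy
    by_cases h1 : x ∈ A <;> by_cases h2 : y ∈ A
    · simp only [h1, h2, if_true] at hxy
      exact hg h1 h2 hxy
    · simp only [h1, h2, if_true, if_false, hy', dite_true] at hxy
      have := hlt x h1
      omega
    · simp only [h1, h2, if_true, if_false, hx', dite_true] at hxy
      have := hlt y h2
      omega
    · simp only [h1, h2, if_false, hx', hy', dite_true] at hxy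
      have h3 : (e ⟨x, hx'⟩ : ℕ) = (e ⟨y, hy'⟩ : ℕ) := by omega
      have h4 := e.injective (Fin.ext h3)
      exact congrArg Subtype.val h4
  · intro a ha
    simp [ha]

variable {V C : Type} [DecidableEq V] [DecidableEq C]

theorem push_nat (S : Sys V C) (Z W : Rg V C) (hZ : Ok S Z) (hWZ : W ≤ Z) (hW : Ok S W) (S0 : Sys ℕ ℕ)
    (gv : V → ℕ) (gc : C → ℕ) (hg : IsEmb S W S0 gv gc) :
    ∃ (S1 : Sys ℕ ℕ) (hv : V → ℕ) (hc : C → ℕ), IsEmb S Z S1 hv hc ∧ (∀ v ∈ W.1, hv v = gv v) ∧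
      (∀ c ∈ W.2, hc c = gc c) ∧ IsEmb S0 (im gv gc W) S1 id id := by
  obtain ⟨hv, hvi, hve⟩ := push_ext W.1 Z.1 gv hg.inj_v
  obtain ⟨hc, hci, hce⟩ := push_ext W.2 Z.2 gc hg.inj_c
  let S1 : Sys ℕ ℕ :=
    { col := fun a => if h : ∃ u ∈ Z.1, hv u = a then S.col h.choose else true
      E := fun a b => ∃ u ∈ Z.1, ∃ v ∈ Z.1, hv u = a ∧ hv v = b ∧ S.E u v
      inc := fun a b => ∃ u ∈ Z.1, ∃ c ∈ Z.2, hv u = a ∧ hc c = b ∧ S.inc u c
      lev := fun b => if h : ∃ c ∈ Z.2, hc c = b then S.lev h.choose else 0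
      par := fun b => if h : ∃ c ∈ Z.2, hc c = b then hc (S.par h.choose) else 0
      root := hc S.root }
  have hemb : IsEmb S Z S1 hv hc := by
    refine ⟨hvi, hci, ?_, ?_, ?_, ?_, ?_, rfl⟩
    · intro v hvZ
      have h : ∃ u ∈ Z.1, hv u = hv v := ⟨v, hvZ, rfl⟩
      have h1 : h.choose = v := hvi h.choose_spec.1 hvZ h.choose_spec.2
      show (if h : ∃ u ∈ Z.1, hv u = hv v then S.col h.choose else true) = S.col v
      rw [dif_pos h, h1]
    · intro u hu v hvZ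
      constructor
      · rintro ⟨u', hu', v', hv', h1, h2, h3⟩
        rw [← hvi hu' hu h1, ← hvi hv' hvZ h2]
        exact h3
      · intro h
        exact ⟨u, hu, v, hvZ, rfl, rfl, h⟩
    · intro v hvZ c hcZ
      constructor
      · rintro ⟨u', hu', c', hc', h1, h2, h3⟩
        rw [← hvi hu' hvZ h1, ← hci hc' hcZ h2]
        exact h3
      · intro h
        exact ⟨v, hvZ, c, hcZ, rfl, rfl, h⟩
    · intro c hcZ
      have h : ∃ u ∈ Z.2, hc u = hc c := ⟨c, hcZ, rfl⟩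
      have h1 : h.choose = c := hci h.choose_spec.1 hcZ h.choose_spec.2
      show (if h : ∃ u ∈ Z.2, hc u = hc c then S.lev h.choose else 0) = S.lev c
      rw [dif_pos h, h1]
    · intro c hcZ
      have h : ∃ u ∈ Z.2, hc u = hc c := ⟨c, hcZ, rfl⟩
      have h1 : h.choose = c := hci h.choose_spec.1 hcZ h.choose_spec.2
      show (if h : ∃ u ∈ Z.2, hc u = hc c then hc (S.par h.choose) else 0) = hc (S.par c)
      rw [dif_pos h, h1]
  refine ⟨S1, hv, hc, hemb, hve, hce, ?_⟩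
  refine ⟨Function.injective_id.injOn, Function.injective_id.injOn, ?_, ?_, ?_, ?_, ?_, ?_⟩
  · intro a ha
    obtain ⟨v, hvW, rfl⟩ := mem_im1.1 ha
    rw [id, hg.col v hvW, ← hve v hvW]
    exact hemb.col v (hWZ.1 hvW)
  · intro a ha b hb
    obtain ⟨u, huW, rfl⟩ := mem_im1.1 ha
    obtain ⟨v, hvW, rfl⟩ := mem_im1.1 hb
    rw [id, id, hg.edge u huW v hvW, ← hve v hvW, ← hve u huW]
    exact hemb.edge u (hWZ.1 huW) v (hWZ.1 hvW)
  · intro a ha b hb
    obtain ⟨u, huW, rfl⟩ := mem_im1.1 ha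
    obtain ⟨c, hcW, rfl⟩ := mem_im2.1 hb
    rw [id, id, hg.inc u huW c hcW, ← hve u huW, ← hce c hcW]
    exact hemb.inc u (hWZ.1 huW) c (hWZ.2 hcW)
  · intro b hb
    obtain ⟨c, hcW, rfl⟩ := mem_im2.1 hb
    rw [id, hg.lev c hcW, ← hce c hcW]
    exact hemb.lev c (hWZ.2 hcW)
  · intro b hb
    obtain ⟨c, hcW, rfl⟩ := mem_im2.1 hb
    rw [id, id, hg.par c hcW, ← hce c hcW, ← hce _ (hW.par_mem c hcW)]
    exact hemb.par c (hWZ.2 hcW)
  · rw [id, ← hg.root]
    exact (hce _ hW.root_mem).symm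

end Pool.Low
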