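import Pool.Agent.helper24.Low.AM2
import Pool.Agent.helper24.Low.Push

/-!
# Module GS1: one extension step

`exists_amalgam` (with `act = univ`, `W = D0`, `ex1 = ex2 = False`) gives a system on `ℕ ⊕ V`; `push_nat` with `Z` = the amalgam,
`W := im inl inl D0`, `gv = Sum.elim id (fun _ => 0)` (an embedding of `im inl inl D0` into `S0`: `IsEmb.inv` and `IsEmb.congr`, or
directly).  Transport `KL`, `ClL` with `IsEmb.kl`, `IsEmb.clL`.
-/

set_option autoImplicit false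

namespace Pool.Low

open scoped Classical

variable {P : Par}

/-- The left part of a system on a disjoint sum, projected back. -/
theorem isEmb_proj {V C V2 C2 : Type} [DecidableEq V] [DecidableEq C] [DecidableEq V2] [DecidableEq C2]
    {S0 : Sys V C} {D0 : Rg V C} {S : Sys (V ⊕ V2) (C ⊕ C2)}
    (h : IsEmb S0 D0 S Sum.inl Sum.inl) (v0 : V) (c0 : C) :
    IsEmb S (im Sum.inl Sum.inl D0) S0 (Sum.elim id (fun _ => v0)) (Sum.elim id (fun _ => c0)) where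
  inj_v := by
    intro a ha b hb hab
    obtain ⟨u, _, rfl⟩ := mem_im1.1 (Finset.mem_coe.1 ha)
    obtain ⟨v, _, rfl⟩ := mem_im1.1 (Finset.mem_coe.1 hb)
    simpa using hab
  inj_c := by
    intro a ha b hb hab
    obtain ⟨u, _, rfl⟩ := mem_im2.1 (Finset.mem_coe.1 ha)
    obtain ⟨v, _, rfl⟩ := mem_im2.1 (Finset.mem_coe.1 hb)
    simpa using hab
  col := by
    intro a ha
    obtain ⟨u, hu, rfl⟩ := mem_im1.1 ha
    exact (h.col u hu).symm
  edge := by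
    intro a ha b hb
    obtain ⟨u, hu, rfl⟩ := mem_im1.1 ha
    obtain ⟨v, hv, rfl⟩ := mem_im1.1 hb
    exact (h.edge u hu v hv).symm
  inc := by
    intro a ha b hb
    obtain ⟨u, hu, rfl⟩ := mem_im1.1 ha
    obtain ⟨c, hc, rfl⟩ := mem_im2.1 hb
    exact (h.inc u hu c hc).symm
  lev := by
    intro b hb
    obtain ⟨c, hc, rfl⟩ := mem_im2.1 hb
    exact (h.lev c hc).symm
  par := by
    intro b hb
    obtain ⟨c, hc, rfl⟩ := mem_im2.1 hb
    rw [h.par c hc]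
    rfl
  root := by
    rw [← h.root]
    rfl

theorem ext_step (hP : Good0 P) (S0 : Sys ℕ ℕ) (D0 : Rg ℕ ℕ) (hD0 : KL P Set.univ S0 D0)
    {V C : Type} (S2 : Sys V C) (A B : Rg V C) (fv : V → ℕ) (fc : C → ℕ) (hA : KL P Set.univ S2 A)
    (hB : ClL P Set.univ P.θ S2 A B) (hemb : IsEmb S2 B S0 fv fc) (hBD : ClL P Set.univ P.θ S0 D0 (im fv fc B)) :
    ∃ (S1 : Sys ℕ ℕ) (D1 : Rg ℕ ℕ) (hv : V → ℕ) (hc : C → ℕ), KL P Set.univ S1 D1 ∧ IsEmb S0 D0 S1 id id ∧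
      ClL P Set.univ P.θ S1 D1 D0 ∧ IsEmb S2 A S1 hv hc ∧ (∀ v ∈ B.1, hv v = fv v) ∧ (∀ c ∈ B.2, hc c = fc c) ∧
      ClL P Set.univ P.θ S1 D1 (im hv hc A) := by
  obtain ⟨S, hv, hc, hinl, hAemb, hvB, _, hcB, _, hKL, _, hclA, hclW, _, _, _⟩ :=
    exists_amalgam hP S0 D0 S2 A B fv fc hD0 hA hB hemb hBD (fun _ _ => False) (fun _ _ => False)
      (fun _ _ _ _ h => h.elim) (fun _ _ _ _ h => h.elim)
      (fun _ _ _ _ _ _ h => (h.elim (fun h => h.elim) (fun h => h.elim)))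
  have hg := isEmb_proj hinl 0 0
  obtain ⟨S1, kv, kc, hE, hkv, hkc, hid⟩ := push_nat S _ _ hKL.ok hclW.le hclW.ok S0 _ _ hg
  have him : im (Sum.elim id (fun _ => 0)) (Sum.elim id (fun _ => 0))
      (im (Sum.inl : ℕ → ℕ ⊕ V) (Sum.inl : ℕ → ℕ ⊕ C) D0) = D0 := by
    rw [im_im]
    exact im_id D0
  have himk : im kv kc (im (Sum.inl : ℕ → ℕ ⊕ V) (Sum.inl : ℕ → ℕ ⊕ C) D0) = D0 :=
    (im_congr hkv hkc).trans him
  refine ⟨S1, im kv kc (im hv hc A ⊔ im Sum.inl Sum.inl D0), kv ∘ hv, kc ∘ hc, hE.kl hKL, ?_, ?_, ?_, ?_, ?_, ?_⟩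
  · rwa [him] at hid
  · have h := hE.clL hKL.ok hclW
    rwa [himk] at h
  · exact hAemb.comp (hE.mono hclA.le)
  · intro v hvm
    have h1 : fv v ∈ D0.1 := hBD.le.1 (mem_im1.2 ⟨v, hvm, rfl⟩)
    show kv (hv v) = fv v
    rw [hvB v hvm, hkv _ (mem_im1.2 ⟨fv v, h1, rfl⟩)]
    rfl
  · intro c hcm
    have h1 : fc c ∈ D0.2 := hBD.le.2 (mem_im2.2 ⟨c, hcm, rfl⟩)
    show kc (hc c) = fc c
    rw [hcB c hcm, hkc _ (mem_im2.2 ⟨fc c, h1, rfl⟩)]
    rfl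
  · have h := hE.clL hKL.ok hclA
    rwa [im_im] at h

end Pool.Low
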