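import Pool.Agent.helper24.Low.GS1

/-!
# Module GS2: the chain of regions (bookkeeping)

Tasks: a *task* is `(p, q, S3 : Sys (Fin (p+1)) (Fin (q+1)), A3 B3 : Rg (Fin (p+1)) (Fin (q+1)), fv : Fin (p+1) → ℕ, fc : Fin (q+1) → ℕ)`.
There are countably many tasks (all components are functions from finite types to countable types; e.g. inject the task type into
a sigma type of products of countable types); fix `T : ℕ → Task` such that every task is `T l` for infinitely many `l` (e.g.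
`T l = enum (Nat.unpair l).1`).

Chain: states `(S_k, D_k)` with `KL P univ S_k D_k`; start with `D_0 = (∅, {0})`, `root = 0`, `lev = 0`, `par = id` (`KL`: the geometry of
the root is `(∅, ∅)`, `small_kk`).  Step `k`: if the task `T k` is *applicable* (`KL` for `A3`, `B3` closed in `A3`, `(fv, fc)` an
embedding of `B3` into `S_k` with image closed in `D_k`) apply `ext_step`; otherwise `(S_{k+1}, D_{k+1}) = (S_k, D_k)`.  So always
`IsEmb S_k D_k S_{k+1} id id`, `ClL S_{k+1} D_{k+1} D_k`.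

Last clause: given `V, C, S2, A, B, fv, fc, k`: `fin_model` gives `S3, gv, gc`; `A3 = im gv gc A`, `B3 = im gv gc B`; define
`fv3 : Fin (p+1) → ℕ` with `fv3 (gv v) = fv v` for `v ∈ B.1`, `fc3` similarly; `IsEmb.of_comp`.  Choose `l ≥ k` with `T l` = this task; it is
applicable at stage `l`: embedding into `S_l` by composition with `IsEmb S_k D_k S_l id id` (induction, `IsEmb.comp`), the image of
`B` is closed in `D_k` for `S_k`, so for `S_l` (`IsEmb.clL`, `im_id`), hence in `D_l` (`clL_trans`).  The result at stage `l + 1`.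
-/

set_option autoImplicit false

namespace Pool.Low

open scoped Classical

theorem IsEmb.of_comp {V C V' C' V'' C'' : Type} [DecidableEq V'] [DecidableEq C'] {S : Sys V C} {S' : Sys V' C'}
    {S'' : Sys V'' C''} {B : Rg V C} {gv : V → V'} {gc : C → C'} {fv : V → V''} {fc : C → C''} {kv : V' → V''}
    {kc : C' → C''} (hB : Ok S B) (hg : IsEmb S B S' gv gc) (hf : IsEmb S B S'' fv fc)
    (hv : ∀ v ∈ B.1, kv (gv v) = fv v) (hc : ∀ c ∈ B.2, kc (gc c) = fc c) : IsEmb S' (im gv gc B) S'' kv kc := by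
  refine ⟨?_, ?_, ?_, ?_, ?_, ?_, ?_, ?_⟩
  · intro v' hv' w' hw' he
    obtain ⟨v, hv1, rfl⟩ := mem_im1.1 (Finset.mem_coe.1 hv')
    obtain ⟨w, hw1, rfl⟩ := mem_im1.1 (Finset.mem_coe.1 hw')
    rw [hv v hv1, hv w hw1] at he
    rw [hf.inj_v hv1 hw1 he]
  · intro c' hc' d' hd' he
    obtain ⟨c, hc1, rfl⟩ := mem_im2.1 (Finset.mem_coe.1 hc')
    obtain ⟨d, hd1, rfl⟩ := mem_im2.1 (Finset.mem_coe.1 hd')
    rw [hc c hc1, hc d hd1] at he
    rw [hf.inj_c hc1 hd1 he]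
  · intro v' hv'
    obtain ⟨v, hv1, rfl⟩ := mem_im1.1 hv'
    rw [hv v hv1, hf.col v hv1, hg.col v hv1]
  · intro u' hu' v' hv'
    obtain ⟨u, hu1, rfl⟩ := mem_im1.1 hu'
    obtain ⟨v, hv1, rfl⟩ := mem_im1.1 hv'
    rw [hv u hu1, hv v hv1, hf.edge u hu1 v hv1, hg.edge u hu1 v hv1]
  · intro v' hv' c' hc'
    obtain ⟨v, hv1, rfl⟩ := mem_im1.1 hv'
    obtain ⟨c, hc1, rfl⟩ := mem_im2.1 hc'
    rw [hv v hv1, hc c hc1, hf.inc v hv1 c hc1, hg.inc v hv1 c hc1]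
  · intro c' hc'
    obtain ⟨c, hc1, rfl⟩ := mem_im2.1 hc'
    rw [hc c hc1, hf.lev c hc1, hg.lev c hc1]
  · intro c' hc'
    obtain ⟨c, hc1, rfl⟩ := mem_im2.1 hc'
    rw [hc c hc1, hf.par c hc1, hg.par c hc1, hc _ (hB.par_mem c hc1)]
  · rw [← hg.root, hc _ hB.root_mem, hf.root]

/-- an injection of a finset into `Fin (p+1)` -/
theorem exists_fin_inj {V : Type} (X : Finset V) :
    ∃ (p : ℕ) (g : V → Fin (p + 1)), Set.InjOn g (X : Set V) := by
  refine ⟨X.card, fun v => if h : v ∈ X then Fin.castSucc (X.equivFin ⟨v, h⟩) else Fin.last _, ?_⟩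
  intro v hv w hw he
  have hv' : v ∈ X := hv
  have hw' : w ∈ X := hw
  simp only [dif_pos hv', dif_pos hw'] at he
  have h1 := X.equivFin.injective (Fin.castSucc_injective _ he)
  exact congrArg Subtype.val h1

/-- a copy of the region `A` in finite types (enumerate `A.1`, `A.2`; junk values outside; `S3.root = gc S2.root`) -/
theorem fin_model {V C : Type} (S2 : Sys V C) (A : Rg V C) (hA : Ok S2 A) :
    ∃ (p q : ℕ) (S3 : Sys (Fin (p + 1)) (Fin (q + 1))) (gv : V → Fin (p + 1)) (gc : C → Fin (q + 1)),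
      IsEmb S2 A S3 gv gc := by
  obtain ⟨p, gv, hgv⟩ := exists_fin_inj A.1
  obtain ⟨q, gc, hgc⟩ := exists_fin_inj A.2
  have hne : Nonempty C := ⟨S2.root⟩
  have hic : ∀ c ∈ A.2, Function.invFunOn gc (A.2 : Set C) (gc c) = c := by
    intro c hc
    exact hgc (Function.invFunOn_mem ⟨c, hc, rfl⟩) hc (Function.invFunOn_eq ⟨c, hc, rfl⟩)
  let S3 : Sys (Fin (p + 1)) (Fin (q + 1)) :=
    { col := fun i => decide (∃ v ∈ A.1, gv v = i ∧ S2.col v = true)
      E := fun i j => ∃ u ∈ A.1, ∃ v ∈ A.1, gv u = i ∧ gv v = j ∧ S2.E u v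
      inc := fun i c => ∃ v ∈ A.1, ∃ d ∈ A.2, gv v = i ∧ gc d = c ∧ S2.inc v d
      lev := fun c => S2.lev (Function.invFunOn gc (A.2 : Set C) c)
      par := fun c => gc (S2.par (Function.invFunOn gc (A.2 : Set C) c))
      root := gc S2.root }
  refine ⟨p, q, S3, gv, gc, hgv, hgc, ?_, ?_, ?_, ?_, ?_, rfl⟩
  · intro v hv
    show decide (∃ u ∈ A.1, gv u = gv v ∧ S2.col u = true) = S2.col v
    by_cases h : S2.col v = true
    · rw [h, decide_eq_true_iff]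
      exact ⟨v, hv, rfl, h⟩
    · rw [Bool.not_eq_true] at h
      rw [h, decide_eq_false_iff_not]
      rintro ⟨u, hu, he, hc⟩
      rw [hgv hu hv he, h] at hc
      exact Bool.false_ne_true hc
  · intro u hu v hv
    show (∃ u' ∈ A.1, ∃ v' ∈ A.1, gv u' = gv u ∧ gv v' = gv v ∧ S2.E u' v') ↔ S2.E u v
    constructor
    · rintro ⟨u', hu', v', hv', h1, h2, h3⟩
      rw [hgv hu' hu h1, hgv hv' hv h2] at h3
      exact h3
    · intro h
      exact ⟨u, hu, v, hv, rfl, rfl, h⟩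
  · intro v hv c hc
    show (∃ v' ∈ A.1, ∃ d ∈ A.2, gv v' = gv v ∧ gc d = gc c ∧ S2.inc v' d) ↔ S2.inc v c
    constructor
    · rintro ⟨v', hv', d, hd, h1, h2, h3⟩
      rw [hgv hv' hv h1, hgc hd hc h2] at h3
      exact h3
    · intro h
      exact ⟨v, hv, c, hc, rfl, rfl, h⟩
  · intro c hc
    show S2.lev (Function.invFunOn gc (A.2 : Set C) (gc c)) = S2.lev c
    rw [hic c hc]
  · intro c hc
    show gc (S2.par (Function.invFunOn gc (A.2 : Set C) (gc c))) = gc (S2.par c)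
    rw [hic c hc]

theorem sys_countable (p q : ℕ) : Countable (Sys (Fin (p + 1)) (Fin (q + 1))) := by
  let f : Sys (Fin (p + 1)) (Fin (q + 1)) →
      (Fin (p + 1) → Bool) × (Fin (p + 1) → Fin (p + 1) → Prop) × (Fin (p + 1) → Fin (q + 1) → Prop) ×
        (Fin (q + 1) → ℕ) × (Fin (q + 1) → Fin (q + 1)) × Fin (q + 1) :=
    fun S => (S.col, S.E, S.inc, S.lev, S.par, S.root)
  have hf : Function.Injective f := by
    rintro ⟨⟨c1, e1, i1⟩, l1, p1, r1⟩ ⟨⟨c2, e2, i2⟩, l2, p2, r2⟩ h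
    simp only [f, Prod.mk.injEq] at h
    obtain ⟨h1, h2, h3, h4, h5, h6⟩ := h
    subst h1 h2 h3 h4 h5 h6
    rfl
  exact hf.countable

/-- the type of tasks -/
abbrev Task : Type := Σ p q : ℕ, Sys (Fin (p + 1)) (Fin (q + 1)) × Rg (Fin (p + 1)) (Fin (q + 1)) ×
  Rg (Fin (p + 1)) (Fin (q + 1)) × (Fin (p + 1) → ℕ) × (Fin (q + 1) → ℕ)

theorem task_enum : ∃ T : ℕ → Task, ∀ (t : Task) (k : ℕ), ∃ l, k ≤ l ∧ T l = t := by
  have hne : Nonempty Task := ⟨⟨0, 0, ⟨⟨fun _ => true, fun _ _ => False, fun _ _ => False⟩, fun _ => 0, id, 0⟩,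
    (∅, ∅), (∅, ∅), fun _ => 0, fun _ => 0⟩⟩
  have hsys : ∀ p q : ℕ, Countable (Sys (Fin (p + 1)) (Fin (q + 1))) := sys_countable
  obtain ⟨enum, henum⟩ := exists_surjective_nat Task
  refine ⟨fun l => enum (Nat.unpair l).1, fun t k => ?_⟩
  obtain ⟨i, hi⟩ := henum t
  refine ⟨Nat.pair i k, Nat.right_le_pair i k, ?_⟩
  simp only [Nat.unpair_pair]
  exact hi

/-- the task `t` can be applied to the state `(S, D)` -/
def Appl (P : Par) (S : Sys ℕ ℕ) (D : Rg ℕ ℕ) (t : Task) : Prop :=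
  KL P Set.univ t.2.2.1 t.2.2.2.1 ∧ ClL P Set.univ P.θ t.2.2.1 t.2.2.2.1 t.2.2.2.2.1 ∧
    IsEmb t.2.2.1 t.2.2.2.2.1 S t.2.2.2.2.2.1 t.2.2.2.2.2.2 ∧
    ClL P Set.univ P.θ S D (im t.2.2.2.2.2.1 t.2.2.2.2.2.2 t.2.2.2.2.1)

/-- `(S', D')` is the result of applying the task `t` to `(S, D)` -/
def Res (P : Par) (S : Sys ℕ ℕ) (D : Rg ℕ ℕ) (t : Task) (S' : Sys ℕ ℕ) (D' : Rg ℕ ℕ) : Prop :=
  IsEmb S D S' id id ∧ ClL P Set.univ P.θ S' D' D ∧
    (Appl P S D t → ∃ (hv : Fin (t.1 + 1) → ℕ) (hc : Fin (t.2.1 + 1) → ℕ),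
      IsEmb t.2.2.1 t.2.2.2.1 S' hv hc ∧ (∀ v ∈ t.2.2.2.2.1.1, hv v = t.2.2.2.2.2.1 v) ∧
      (∀ c ∈ t.2.2.2.2.1.2, hc c = t.2.2.2.2.2.2 c) ∧
      ClL P Set.univ P.θ S' D' (im hv hc t.2.2.2.1))

theorem exists_res {P : Par} (hP : Good0 P) (x : {x : Sys ℕ ℕ × Rg ℕ ℕ // KL P Set.univ x.1 x.2}) (t : Task) :
    ∃ y : {x : Sys ℕ ℕ × Rg ℕ ℕ // KL P Set.univ x.1 x.2}, Res P x.1.1 x.1.2 t y.1.1 y.1.2 := by
  by_cases ha : Appl P x.1.1 x.1.2 t
  · obtain ⟨S1, D1, hv, hc, h1, h2, h3, h4, h5, h6, h7⟩ :=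
      ext_step hP x.1.1 x.1.2 x.2 t.2.2.1 t.2.2.2.1 t.2.2.2.2.1 t.2.2.2.2.2.1 t.2.2.2.2.2.2 ha.1 ha.2.1
        ha.2.2.1 ha.2.2.2
    exact ⟨⟨(S1, D1), h1⟩, h2, h3, fun _ => ⟨hv, hc, h4, h5, h6, h7⟩⟩
  · exact ⟨x, isEmb_id _ _, clL_refl x.2.ok, fun h => absurd h ha⟩

theorem exists_start {P : Par} (hP : Good0 P) : ∃ x : Sys ℕ ℕ × Rg ℕ ℕ, KL P Set.univ x.1 x.2 := by
  let S0 : Sys ℕ ℕ := ⟨⟨fun _ => true, fun _ _ => False, fun _ _ => False⟩, fun _ => 0, id, 0⟩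
  refine ⟨(S0, ((∅ : Finset ℕ), ({0} : Finset ℕ))), ⟨?_, ?_, rfl, rfl, ?_, ?_, ?_, ?_⟩, ?_⟩
  · show (0 : ℕ) ∈ ({0} : Finset ℕ)
    simp
  · intro c hc
    exact hc
  · intro c hc h
    have hc' : c = 0 := by simpa using hc
    exact absurd hc' h
  · intro v hv
    simp at hv
  · intro v hv
    simp at hv
  · intro v hv
    simp at hv
  · intro e _ _
    have hreg : reg S0 ((∅ : Finset ℕ), ({0} : Finset ℕ)) e = ((∅ : Finset ℕ), (∅ : Finset ℕ)) := by
      apply rg_ext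
      · intro v
        rw [mem_reg1]
        simp
      · intro c
        rw [mem_reg2]
        constructor
        · rintro ⟨h1, _, h3⟩
          have : c = 0 := by simpa using h1
          exact absurd this h3
        · intro h
          simp at h
    show KK S0.toGeo _ _ _ (reg S0 ((∅ : Finset ℕ), ({0} : Finset ℕ)) e)
    rw [hreg]
    refine small_kk hP.θ_pos.le hP.θ_lt.le (hP.ctl _) ∅ ?_ (by simp)
    intro u hu
    simp at hu

theorem exists_chain {P : Par} (hP : Good0 P) : ∃ (S : ℕ → Sys ℕ ℕ) (D : ℕ → Rg ℕ ℕ),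
    (∀ k, KL P Set.univ (S k) (D k)) ∧ (∀ k, IsEmb (S k) (D k) (S (k + 1)) id id) ∧
    (∀ k, ClL P Set.univ P.θ (S (k + 1)) (D (k + 1)) (D k)) ∧
    ∀ (V C : Type) (S2 : Sys V C) (A B : Rg V C) (fv : V → ℕ) (fc : C → ℕ) (k : ℕ),
      KL P Set.univ S2 A → ClL P Set.univ P.θ S2 A B → IsEmb S2 B (S k) fv fc →
      ClL P Set.univ P.θ (S k) (D k) (im fv fc B) →
      ∃ (l : ℕ) (hv : V → ℕ) (hc : C → ℕ), k ≤ l ∧ IsEmb S2 A (S l) hv hc ∧ (∀ v ∈ B.1, hv v = fv v) ∧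
        (∀ c ∈ B.2, hc c = fc c) ∧ ClL P Set.univ P.θ (S l) (D l) (im hv hc A) := by
  obtain ⟨x0, hx0⟩ := exists_start hP
  obtain ⟨T, hT⟩ := task_enum
  choose next hnext using exists_res hP
  let X : ℕ → {x : Sys ℕ ℕ × Rg ℕ ℕ // KL P Set.univ x.1 x.2} :=
    fun k => Nat.rec ⟨x0, hx0⟩ (fun k x => next x (T k)) k
  have hX : ∀ k, X (k + 1) = next (X k) (T k) := fun k => rfl
  let S : ℕ → Sys ℕ ℕ := fun k => (X k).1.1
  let D : ℕ → Rg ℕ ℕ := fun k => (X k).1.2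
  have hkl : ∀ k, KL P Set.univ (S k) (D k) := fun k => (X k).2
  have hres : ∀ k, Res P (S k) (D k) (T k) (S (k + 1)) (D (k + 1)) := by
    intro k
    have h := hnext (X k) (T k)
    rw [← hX k] at h
    exact h
  have hemb1 : ∀ k, IsEmb (S k) (D k) (S (k + 1)) id id := fun k => (hres k).1
  have hcl1 : ∀ k, ClL P Set.univ P.θ (S (k + 1)) (D (k + 1)) (D k) := fun k => (hres k).2.1
  have hle : ∀ k m, D k ≤ D (k + m) := by
    intro k m
    induction m with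
    | zero => exact le_rfl
    | succ m ih => exact ih.trans (hcl1 (k + m)).le
  have hembm : ∀ k m, IsEmb (S k) (D k) (S (k + m)) id id := by
    intro k m
    induction m with
    | zero => exact isEmb_id _ _
    | succ m ih =>
      have h2 : IsEmb (S (k + m)) (im id id (D k)) (S (k + m + 1)) id id := by
        rw [im_id]
        exact (hemb1 (k + m)).mono (hle k m)
      exact ih.comp h2
  have hclm : ∀ k m, ClL P Set.univ P.θ (S (k + m)) (D (k + m)) (D k) := by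
    intro k m
    induction m with
    | zero => exact clL_refl (hkl k).ok
    | succ m ih =>
      have h2 := (hemb1 (k + m)).clL (hkl (k + m)).ok ih
      rw [im_id, im_id] at h2
      exact clL_trans hP hP.θ_pos.le le_rfl (hkl (k + m + 1)) (hcl1 (k + m)) h2
  refine ⟨S, D, hkl, hemb1, hcl1, ?_⟩
  intro V C S2 A B fv fc k hA hB hemb hcl
  obtain ⟨p, q, S3, gv, gc, hg⟩ := fin_model S2 A hA.ok
  have hgB : IsEmb S2 B S3 gv gc := hg.mono hB.le
  let fv3 : Fin (p + 1) → ℕ := fun i => if h : ∃ v ∈ B.1, gv v = i then fv h.choose else 0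
  let fc3 : Fin (q + 1) → ℕ := fun i => if h : ∃ c ∈ B.2, gc c = i then fc h.choose else 0
  have hfv3 : ∀ v ∈ B.1, fv3 (gv v) = fv v := by
    intro v hv
    have hex : ∃ u ∈ B.1, gv u = gv v := ⟨v, hv, rfl⟩
    show (if h : ∃ u ∈ B.1, gv u = gv v then fv h.choose else 0) = fv v
    rw [dif_pos hex]
    congr 1
    exact hgB.inj_v hex.choose_spec.1 hv hex.choose_spec.2
  have hfc3 : ∀ c ∈ B.2, fc3 (gc c) = fc c := by
    intro c hc
    have hex : ∃ d ∈ B.2, gc d = gc c := ⟨c, hc, rfl⟩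
    show (if h : ∃ d ∈ B.2, gc d = gc c then fc h.choose else 0) = fc c
    rw [dif_pos hex]
    congr 1
    exact hgB.inj_c hex.choose_spec.1 hc hex.choose_spec.2
  have hemb3 : IsEmb S3 (im gv gc B) (S k) fv3 fc3 := IsEmb.of_comp hB.ok hgB hemb hfv3 hfc3
  have him3 : im fv3 fc3 (im gv gc B) = im fv fc B := by
    rw [im_im]
    exact im_congr hfv3 hfc3
  obtain ⟨l, hkl', hTl⟩ := hT ⟨p, q, S3, im gv gc A, im gv gc B, fv3, fc3⟩ k
  obtain ⟨m, rfl⟩ := Nat.exists_eq_add_of_le hkl'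
  have happ : Appl P (S (k + m)) (D (k + m)) (T (k + m)) := by
    rw [hTl]
    refine ⟨hg.kl hA, hg.clL hA.ok hB, ?_, ?_⟩
    · show IsEmb S3 (im gv gc B) (S (k + m)) fv3 fc3
      have h2 : IsEmb (S k) (im fv3 fc3 (im gv gc B)) (S (k + m)) id id := by
        rw [him3]
        exact (hembm k m).mono hcl.le
      exact hemb3.comp h2
    · show ClL P Set.univ P.θ (S (k + m)) (D (k + m)) (im fv3 fc3 (im gv gc B))
      rw [him3]
      have h2 := (hembm k m).clL (hkl k).ok hcl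
      rw [im_id, im_id] at h2
      exact clL_trans hP hP.θ_pos.le le_rfl (hkl (k + m)) (hclm k m) h2
  have hfin := (hres (k + m)).2.2 happ
  rw [hTl] at hfin
  obtain ⟨hv, hc, h1, h2, h3, h4⟩ := hfin
  refine ⟨k + m + 1, hv ∘ gv, hc ∘ gc, by omega, hg.comp h1, ?_, ?_, ?_⟩
  · intro v hv'
    have := h2 (gv v) (mem_im1.2 ⟨v, hv', rfl⟩)
    exact this.trans (hfv3 v hv')
  · intro c hc'
    have := h3 (gc c) (mem_im2.2 ⟨c, hc', rfl⟩)
    exact this.trans (hfc3 c hc')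
  · have h5 : im (hv ∘ gv) (hc ∘ gc) A = im hv hc (im gv gc A) := (im_im _ _ _ _ _).symm
    rw [h5]
    exact h4

end Pool.Low
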