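import Pool.Agent.helper24.Low.ML1

/-!
# Module GL (GenL): basic facts on the generic system
-/

set_option autoImplicit false

namespace Pool.Low

open scoped Classical

/-- the bound for closures -/
noncomputable def Good.BD {P : Par} (hP : Good P) : ℕ → ℕ := hP.bd.choose

theorem Good.BD_mono {P : Par} (hP : Good P) : Monotone hP.BD := hP.bd.choose_spec.1

theorem Good.BD_spec {P : Par} (hP : Good P) : ∀ (V C : Type) (S : Sys V C) (D : Rg V C), KL P Set.univ S D →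
    ∀ X : Finset V, X ⊆ D.1 → ∃ R, ClL P Set.univ P.θ S D R ∧ X ⊆ R.1 ∧ R.1.card ≤ hP.BD X.card ∧
      R.2.card ≤ hP.BD X.card ∧ ∀ c ∈ R.2, S.lev c ≤ X.card := hP.bd.choose_spec.2

variable {P : Par} {S : Sys ℕ ℕ} {D : ℕ → Rg ℕ ℕ}

/-- `v` is a vertex of the generic system -/
def dom (D : ℕ → Rg ℕ ℕ) (v : ℕ) : Prop := ∃ k, v ∈ (D k).1

/-- induction, `clL_trans` -/
theorem Gen.mono (hP : Good0 P) (hG : Gen P S D) {k l : ℕ} (h : k ≤ l) : ClL P Set.univ P.θ S (D l) (D k) := by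
  induction l, h using Nat.le_induction with
  | base => exact clL_refl (hG.kl k).ok
  | succ l _ ih => exact clL_trans hP hP.θ_pos.le le_rfl (hG.kl (l + 1)) (hG.step l) ih

theorem Gen.lift (hP : Good0 P) (hG : Gen P S D) {k l : ℕ} (h : k ≤ l) {B : Rg ℕ ℕ}
    (hB : ClL P Set.univ P.θ S (D k) B) : ClL P Set.univ P.θ S (D l) B := by
  exact clL_trans hP hP.θ_pos.le le_rfl (hG.kl l) (Gen.mono hP hG h) hB

/-- a region closed in some `D l` and contained in `D k` is closed in `D k` (if `k ≤ l` use `clL_of_le` with `Gen.mono`; if `l ≤ k` use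
`Gen.lift`) -/
theorem Gen.clL_of_le (hP : Good0 P) (hG : Gen P S D) {k l : ℕ} {B : Rg ℕ ℕ}
    (hB : ClL P Set.univ P.θ S (D l) B) (hBk : B ≤ D k) : ClL P Set.univ P.θ S (D k) B := by
  rcases le_total k l with h | h
  · exact Pool.Low.clL_of_le hB (Gen.mono hP hG h).fullL hBk
  · exact Gen.lift hP hG h hB

theorem Gen.inf (hP : Good0 P) (hG : Gen P S D) {k l : ℕ} {A B : Rg ℕ ℕ}
    (hA : ClL P Set.univ P.θ S (D k) A) (hB : ClL P Set.univ P.θ S (D l) B) :
    ClL P Set.univ P.θ S (D k) (A ⊓ B) := by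
  have hA' := Gen.lift hP hG (le_max_left k l) hA
  have hB' := Gen.lift hP hG (le_max_right k l) hB
  exact Gen.clL_of_le hP hG (clL_inf hP hP.θ_pos.le le_rfl (hG.kl (max k l)) hA' hB')
    (inf_le_left.trans hA.le)

theorem Gen.exists_stage (hP : Good0 P) (hG : Gen P S D) (X : Finset ℕ) (hX : ∀ x ∈ X, dom D x) (k0 : ℕ) :
    ∃ k, k0 ≤ k ∧ X ⊆ (D k).1 := by
  choose! m hm using hX
  refine ⟨max k0 (X.sup m), le_max_left _ _, fun x hx => ?_⟩
  exact (Gen.mono hP hG ((Finset.le_sup hx).trans (le_max_right k0 (X.sup m)))).le.1 (hm x hx)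

/-- **Closures in the generic system.**  `R` = smallest closed region of some `D k ⊇ X` containing `X` (`clL_closure` with
`T = (X, ∅)`; a closed region of another `D l` containing `X` meets it in a closed region, `Gen.inf`); it is contained in the bounded region
of `Good.BD_spec`. -/
theorem Gen.closure (hP : Good P) (hG : Gen P S D) (X : Finset ℕ) (hX : ∀ x ∈ X, dom D x) :
    ∃ R, (∃ k, ClL P Set.univ P.θ S (D k) R) ∧ X ⊆ R.1 ∧
      (∀ l R', ClL P Set.univ P.θ S (D l) R' → X ⊆ R'.1 → R ≤ R') ∧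
      R.1.card ≤ hP.BD X.card ∧ R.2.card ≤ hP.BD X.card ∧ ∀ c ∈ R.2, S.lev c ≤ X.card := by
  have hP0 : Good0 P := hP.toGood0
  obtain ⟨k, -, hk⟩ := Gen.exists_stage hP0 hG X hX 0
  have hT : ((X, ∅) : Rg ℕ ℕ) ≤ D k := ⟨hk, Finset.empty_subset _⟩
  obtain ⟨R, hR, hTR, hmin⟩ := clL_closure hP0 hP0.θ_pos.le le_rfl (hG.kl k) hT
  obtain ⟨R0, hR0, hX0, h1, h2, h3⟩ := hP.BD_spec ℕ ℕ S (D k) (hG.kl k) X hk
  have hle : R ≤ R0 := hmin R0 hR0 ⟨hX0, Finset.empty_subset _⟩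
  refine ⟨R, ⟨k, hR⟩, hTR.1, fun l R' hR' hXR' => ?_, (Finset.card_le_card hle.1).trans h1,
    (Finset.card_le_card hle.2).trans h2, fun c hc => h3 c (hle.2 hc)⟩
  exact (hmin (R ⊓ R') (Gen.inf hP0 hG hR hR')
    (le_inf hTR ⟨hXR', Finset.empty_subset _⟩)).trans inf_le_right

end Pool.Low
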