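import Pool.Agent.helper24.Low.AM2
import Pool.Agent.helper24.Low.GS2

/-!
# Module N6a (Glue): attaching a copy of `A` to many members of a uniform family

Data inside one system `S`: `W` in the class, closed subregions `C0 ≤ B i ≤ W` (`i ∈ I`), isomorphisms `(kv i, kc i) : B i → B 0`, which agree on
the common part of `B i` and `B j`, `(kv 0, kc 0)` = identity on `B 0`; hence all fix `C0` (as `C0 ≤ B i, B 0`).  `A` is full in `W`,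
`A ⊓ B 0 = C0`, and `SFH act S A (B 0)`.

Apply `exists_amalgam` with `S1 = S2 = S`, `W`, `A`, `B := C0`, `fv = fc = id`, and
`ex1 u v = ∃ i ∈ I, u ∈ (B i).1 ∧ S.E (kv i u) v`, `ex2 v u = ∃ i ∈ I, u ∈ (B i).1 ∧ S.E v (kv i u)`.
* `A` is in `KL` (`KL.full`), `C0` is closed in `A` (`clL_restrict`/`clL_of_le`: `A` is full in `W`).
* `hcol1`: `kv i u ∈ (B 0).1 ⊆ W.1`, `v ∈ A.1 ⊆ W.1`: `Bip` of `W` and `IsEmb.col`.
* `hex`: let `u ∈ W \ C0`, `v ∈ A \ C0`, `u ∈ B i`, `u' = kv i u` adjacent to `v`.  `u' ∉ C0` (if `u' ∈ C0` then `kv i u' = u' = kv i u`, so `u = u'`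
  by injectivity).  So `u' ∈ B 0 \ A`, `v ∈ A \ B 0`.  Let `e ∈ C0.2` contain `v` and `u`; then `e` contains `u'` (`IsEmb.inc`, `kc i e = e`).
  `SFH act S A (B 0)` gives `c ∈ A.2 ∩ (B 0).2 = C0.2` with `par c = e`, containing `v` and `u'`, hence `u`.
Let `SZ, hv, hc` be the result, `A' = im hv hc A`, `W' = im inl inl W`, `Z = A' ⊔ W'`, `av = hv`.
For `i ∈ I` let `ki, kci` be the inverse of `(kv i, kc i)` (`IsEmb.inv`), and `pv v = hv v` for `v ∈ A.1`, `pv v = inl (ki v)` for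
`v ∈ (B 0).1 \ A.1`; `pc` similarly.  On `C0` both formulas agree.  `IsEmb S (A ⊔ B 0) SZ pv pc`:
* edges between `v ∈ A \ C0` and `w ∈ B 0 \ C0`: `SZ.E (inl (ki w)) (hv v) ↔ ex1 (ki w) v ↔ S.E w v`: `kv i (ki w) = w`, and if `ki w` is also in `B j`
  then `kv j (ki w) = kv i (ki w)`.
* incidences between `A \ C0` and blocks of `B 0 \ C0` (and conversely): none in `S` (`SFH act S A (B 0)`) and none in `SZ`
  (`SFH act SZ A' W'`).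
* images are disjoint outside `C0`; injectivity, `lev`, `par`, `root`: clear by cases (`Ok` of `A` and `B 0`: parents stay inside).
Closed image: `im pv pc (A ⊔ B 0) = A' ⊔ im inl inl (B i)`; `amalL_sub` with `B' = im inl inl (B i)`.
-/

set_option autoImplicit false

namespace Pool.Low

open scoped Classical

variable {V C : Type} [DecidableEq V] [DecidableEq C] {P : Par} {act : Set ℕ} {S : Sys V C}

/-- union of two embeddings with the same maps -/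
theorem isEmb_sup_of {V' C' : Type} {S' : Sys V' C'} {A B : Rg V C} {pv : V → V'} {pc : C → C'}
    (hA : IsEmb S A S' pv pc) (hB : IsEmb S B S' pv pc)
    (hv : ∀ u ∈ A.1, u ∉ B.1 → ∀ v ∈ B.1, v ∉ A.1 → pv u ≠ pv v)
    (hc : ∀ u ∈ A.2, u ∉ B.2 → ∀ v ∈ B.2, v ∉ A.2 → pc u ≠ pc v)
    (he1 : ∀ u ∈ A.1, u ∉ B.1 → ∀ v ∈ B.1, v ∉ A.1 → (S'.E (pv u) (pv v) ↔ S.E u v))
    (he2 : ∀ u ∈ A.1, u ∉ B.1 → ∀ v ∈ B.1, v ∉ A.1 → (S'.E (pv v) (pv u) ↔ S.E v u))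
    (hi1 : ∀ u ∈ A.1, u ∉ B.1 → ∀ c ∈ B.2, c ∉ A.2 → (S'.inc (pv u) (pc c) ↔ S.inc u c))
    (hi2 : ∀ u ∈ B.1, u ∉ A.1 → ∀ c ∈ A.2, c ∉ B.2 → (S'.inc (pv u) (pc c) ↔ S.inc u c)) :
    IsEmb S (A ⊔ B) S' pv pc := by
  have hcases1 : ∀ u ∈ (A ⊔ B).1, ∀ v ∈ (A ⊔ B).1, (u ∈ A.1 ∧ v ∈ A.1) ∨ (u ∈ B.1 ∧ v ∈ B.1) ∨
      ((u ∈ A.1 ∧ u ∉ B.1) ∧ (v ∈ B.1 ∧ v ∉ A.1)) ∨ ((v ∈ A.1 ∧ v ∉ B.1) ∧ (u ∈ B.1 ∧ u ∉ A.1)) := by
    intro u hu v hv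
    rw [mem_sup1] at hu hv
    tauto
  have hcases2 : ∀ u ∈ (A ⊔ B).2, ∀ v ∈ (A ⊔ B).2, (u ∈ A.2 ∧ v ∈ A.2) ∨ (u ∈ B.2 ∧ v ∈ B.2) ∨
      ((u ∈ A.2 ∧ u ∉ B.2) ∧ (v ∈ B.2 ∧ v ∉ A.2)) ∨ ((v ∈ A.2 ∧ v ∉ B.2) ∧ (u ∈ B.2 ∧ u ∉ A.2)) := by
    intro u hu v hv
    rw [mem_sup2] at hu hv
    tauto
  have hcases3 : ∀ u ∈ (A ⊔ B).1, ∀ v ∈ (A ⊔ B).2, (u ∈ A.1 ∧ v ∈ A.2) ∨ (u ∈ B.1 ∧ v ∈ B.2) ∨
      ((u ∈ A.1 ∧ u ∉ B.1) ∧ (v ∈ B.2 ∧ v ∉ A.2)) ∨ ((v ∈ A.2 ∧ v ∉ B.2) ∧ (u ∈ B.1 ∧ u ∉ A.1)) := by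
    intro u hu v hv
    rw [mem_sup1] at hu
    rw [mem_sup2] at hv
    tauto
  refine ⟨?_, ?_, ?_, ?_, ?_, ?_, ?_, hA.root⟩
  · intro u hu v hv' h
    rcases hcases1 u hu v hv' with ⟨h1, h2⟩ | ⟨h1, h2⟩ | ⟨h1, h2⟩ | ⟨h1, h2⟩
    · exact hA.inj_v h1 h2 h
    · exact hB.inj_v h1 h2 h
    · exact absurd h (hv u h1.1 h1.2 v h2.1 h2.2)
    · exact absurd h.symm (hv v h1.1 h1.2 u h2.1 h2.2)
  · intro u hu v hv' h
    rcases hcases2 u hu v hv' with ⟨h1, h2⟩ | ⟨h1, h2⟩ | ⟨h1, h2⟩ | ⟨h1, h2⟩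
    · exact hA.inj_c h1 h2 h
    · exact hB.inj_c h1 h2 h
    · exact absurd h (hc u h1.1 h1.2 v h2.1 h2.2)
    · exact absurd h.symm (hc v h1.1 h1.2 u h2.1 h2.2)
  · intro v hv'
    rcases mem_sup1.1 hv' with h | h
    · exact hA.col v h
    · exact hB.col v h
  · intro u hu v hv'
    rcases hcases1 u hu v hv' with ⟨h1, h2⟩ | ⟨h1, h2⟩ | ⟨h1, h2⟩ | ⟨h1, h2⟩
    · exact hA.edge u h1 v h2
    · exact hB.edge u h1 v h2
    · exact he1 u h1.1 h1.2 v h2.1 h2.2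
    · exact he2 v h1.1 h1.2 u h2.1 h2.2
  · intro u hu v hv'
    rcases hcases3 u hu v hv' with ⟨h1, h2⟩ | ⟨h1, h2⟩ | ⟨h1, h2⟩ | ⟨h1, h2⟩
    · exact hA.inc u h1 v h2
    · exact hB.inc u h1 v h2
    · exact hi1 u h1.1 h1.2 v h2.1 h2.2
    · exact hi2 u h2.1 h2.2 v h1.1 h1.2
  · intro c hc'
    rcases mem_sup2.1 hc' with h | h
    · exact hA.lev c h
    · exact hB.lev c h
  · intro c hc'
    rcases mem_sup2.1 hc' with h | h
    · exact hA.par c h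
    · exact hB.par c h

theorem exists_multi_glue [Nonempty V] (hP : Good0 P) {W C0 A : Rg V C} {B : ℕ → Rg V C} (I : Finset ℕ) (h0I : 0 ∈ I)
    (hW : KL P act S W) (hC0 : ClL P act P.θ S W C0) (hB : ∀ i ∈ I, ClL P act P.θ S W (B i))
    (hCB : ∀ i ∈ I, C0 ≤ B i) (kv : ℕ → V → V) (kc : ℕ → C → C)
    (hk : ∀ i ∈ I, IsEmb S (B i) S (kv i) (kc i)) (hkim : ∀ i ∈ I, im (kv i) (kc i) (B i) = B 0)
    (hkv : ∀ i ∈ I, ∀ j ∈ I, ∀ v ∈ (B i).1, v ∈ (B j).1 → kv i v = kv j v)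
    (hkc : ∀ i ∈ I, ∀ j ∈ I, ∀ c ∈ (B i).2, c ∈ (B j).2 → kc i c = kc j c)
    (hk0 : ∀ v ∈ (B 0).1, kv 0 v = v) (hkc0 : ∀ c ∈ (B 0).2, kc 0 c = c)
    (hA : FullL P act S W A) (hCA : C0 ≤ A) (hAB : A ⊓ B 0 = C0) (hSF : SFH act S A (B 0)) :
    ∃ (SZ : Sys (V ⊕ V) (C ⊕ C)) (Z : Rg (V ⊕ V) (C ⊕ C)) (av : V → V ⊕ V),
      KL P act SZ Z ∧ IsEmb S W SZ Sum.inl Sum.inl ∧ ClL P act P.θ SZ Z (im Sum.inl Sum.inl W) ∧
      (∀ c ∈ Z.2, ∃ c' ∈ W.2, SZ.lev c = S.lev c') ∧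
      ∀ i ∈ I, ∃ (pv : V → V ⊕ V) (pc : C → C ⊕ C), IsEmb S (A ⊔ B 0) SZ pv pc ∧
        ClL P act P.θ SZ Z (im pv pc (A ⊔ B 0)) ∧ (∀ v ∈ A.1, pv v = av v) ∧
        (∀ v ∈ (B i).1, pv (kv i v) = Sum.inl v) := by
  have hKA : KL P act S A := hW.full hA
  have hclA : ClL P act P.θ S A C0 := clL_of_le hC0 hA hCA
  -- basic facts
  have hAB1 : ∀ v, v ∈ A.1 → v ∈ (B 0).1 → v ∈ C0.1 := by
    intro v h1 h2; rw [← hAB]; exact mem_inf1.2 ⟨h1, h2⟩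
  have hAB2 : ∀ c, c ∈ A.2 → c ∈ (B 0).2 → c ∈ C0.2 := by
    intro v h1 h2; rw [← hAB]; exact mem_inf2.2 ⟨h1, h2⟩
  have hkvim : ∀ i ∈ I, ∀ v ∈ (B i).1, kv i v ∈ (B 0).1 := by
    intro i hi v hv; rw [← hkim i hi]; exact mem_im1.2 ⟨v, hv, rfl⟩
  have hkcim : ∀ i ∈ I, ∀ c ∈ (B i).2, kc i c ∈ (B 0).2 := by
    intro i hi v hv; rw [← hkim i hi]; exact mem_im2.2 ⟨v, hv, rfl⟩
  have hkvC : ∀ i ∈ I, ∀ v ∈ C0.1, kv i v = v := by
    intro i hi v hv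
    rw [hkv i hi 0 h0I v ((hCB i hi).1 hv) ((hCB 0 h0I).1 hv), hk0 v ((hCB 0 h0I).1 hv)]
  have hkcC : ∀ i ∈ I, ∀ c ∈ C0.2, kc i c = c := by
    intro i hi v hv
    rw [hkc i hi 0 h0I v ((hCB i hi).2 hv) ((hCB 0 h0I).2 hv), hkc0 v ((hCB 0 h0I).2 hv)]
  have hkvC' : ∀ i ∈ I, ∀ v ∈ (B i).1, kv i v ∈ C0.1 → v ∈ C0.1 := by
    intro i hi v hv h
    have h1 : kv i (kv i v) = kv i v := hkvC i hi _ h
    have h2 := (hk i hi).inj_v ((hCB i hi).1 h) hv h1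
    rw [← h2]; exact h
  have hB0W : B 0 ≤ W := (hB 0 h0I).le
  obtain ⟨SZ, hv, hc, eW, eA, hv1, hv2, hc1, hc2, kZ, hI, clA, clW, sf, x1, x2⟩ :=
    exists_amalgam hP S W S A C0 id id hW hKA hclA (isEmb_id S C0) (by rw [im_id]; exact hC0)
      (fun u v => ∃ i ∈ I, u ∈ (B i).1 ∧ S.E (kv i u) v) (fun v u => ∃ i ∈ I, u ∈ (B i).1 ∧ S.E v (kv i u))
      (by
        rintro u hu v hv' ⟨i, hi, hui, hE⟩
        have h1 := hW.ok.bip (kv i u) (hB0W.1 (hkvim i hi u hui)) v (hA.le.1 hv') hE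
        rw [(hk i hi).col u hui] at h1
        exact h1)
      (by
        rintro v hv' u hu ⟨i, hi, hui, hE⟩
        have h1 := hW.ok.bip v (hA.le.1 hv') (kv i u) (hB0W.1 (hkvim i hi u hui)) hE
        rw [(hk i hi).col u hui] at h1
        exact h1)
      (by
        intro u hu huC v hv' hvC hex e he hle hie hiu
        have huC' : u ∉ C0.1 := by rw [im_id] at huC; exact huC
        have hiu' : S.inc u e := hiu
        obtain ⟨i, hi, hui, hE⟩ : ∃ i ∈ I, u ∈ (B i).1 ∧ (S.E v (kv i u) ∨ S.E (kv i u) v) := by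
          rcases hex with ⟨i, hi, hui, hE⟩ | ⟨i, hi, hui, hE⟩
          · exact ⟨i, hi, hui, Or.inr hE⟩
          · exact ⟨i, hi, hui, Or.inl hE⟩
        have h1 : kv i u ∉ C0.1 := fun h => huC' (hkvC' i hi u hui h)
        have h2 : kv i u ∈ (B 0).1 := hkvim i hi u hui
        have h3 : kv i u ∉ A.1 := fun h => h1 (hAB1 _ h h2)
        have h4 : v ∉ (B 0).1 := fun h => hvC (hAB1 _ hv' h)
        have h5 : S.inc (kv i u) e := by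
          have := ((hk i hi).inc u hui e ((hCB i hi).2 he)).2 hiu'
          rwa [hkcC i hi e he] at this
        obtain ⟨c, hcA, hcB, hpar, hroot, hvc, huc⟩ := hSF.edge v hv' h4 (kv i u) h2 h3 hE e (hCA.2 he)
          ((hCB 0 h0I).2 he) hle hie h5
        have hcC := hAB2 c hcA hcB
        refine ⟨c, hcC, hpar, hroot, hvc, ?_⟩
        have h6 := (hk i hi).inc u hui c ((hCB i hi).2 hcC)
        rw [hkcC i hi c hcC] at h6
        exact h6.1 huc)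
  have hCim : (im hv hc C0 : Rg (V ⊕ V) (C ⊕ C)) = im Sum.inl Sum.inl C0 :=
    im_congr (fun v h => hv1 v h) (fun c h => hc1 c h)
  refine ⟨SZ, im hv hc A ⊔ im Sum.inl Sum.inl W, hv, kZ, eW, clW, ?_, ?_⟩
  · intro c hc'
    rcases mem_sup2.1 hc' with h | h
    · obtain ⟨d, hd, rfl⟩ := mem_im2.1 h
      exact ⟨d, hA.le.2 hd, eA.lev d hd⟩
    · obtain ⟨d, hd, rfl⟩ := mem_im2.1 h
      exact ⟨d, hd, eW.lev d hd⟩
  intro i hi
  obtain ⟨ki, kci, eK, hki, hkci⟩ := (hk i hi).inv (hB i hi).ok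
  rw [hkim i hi] at eK
  -- facts on the inverse
  have hB0v : ∀ v ∈ (B 0).1, ki v ∈ (B i).1 ∧ kv i (ki v) = v := by
    intro v hv'
    rw [← hkim i hi] at hv'
    obtain ⟨w, hw, rfl⟩ := mem_im1.1 hv'
    rw [hki w hw]; exact ⟨hw, rfl⟩
  have hB0c : ∀ v ∈ (B 0).2, kci v ∈ (B i).2 ∧ kc i (kci v) = v := by
    intro v hv'
    rw [← hkim i hi] at hv'
    obtain ⟨w, hw, rfl⟩ := mem_im2.1 hv'
    rw [hkci w hw]; exact ⟨hw, rfl⟩
  have hkiC : ∀ v ∈ C0.1, ki v = v := by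
    intro v hv'
    have h1 := hki v ((hCB i hi).1 hv')
    rwa [hkvC i hi v hv'] at h1
  have hkciC : ∀ v ∈ C0.2, kci v = v := by
    intro v hv'
    have h1 := hkci v ((hCB i hi).2 hv')
    rwa [hkcC i hi v hv'] at h1
  have hkiN : ∀ v ∈ (B 0).1, v ∉ A.1 → ki v ∉ C0.1 := by
    intro v hv' hvA h
    have h1 := (hB0v v hv').2
    rw [hkvC i hi _ h] at h1
    rw [h1] at h
    exact hvA (hCA.1 h)
  have hkciN : ∀ v ∈ (B 0).2, v ∉ A.2 → kci v ∉ C0.2 := by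
    intro v hv' hvA h
    have h1 := (hB0c v hv').2
    rw [hkcC i hi _ h] at h1
    rw [h1] at h
    exact hvA (hCA.2 h)
  have himB : im ki kci (B 0) = B i := by
    rw [← hkim i hi, im_im]
    have h1 : im (ki ∘ kv i) (kci ∘ kc i) (B i) = im id id (B i) :=
      im_congr (fun v h => hki v h) (fun c h => hkci c h)
    rw [h1, im_id]
  have eB : IsEmb S (B 0) SZ (Sum.inl ∘ ki) (Sum.inl ∘ kci) := by
    refine eK.comp ?_
    rw [himB]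
    exact eW.mono (hB i hi).le
  -- the maps
  set pv : V → V ⊕ V := fun v => if v ∈ A.1 then hv v else Sum.inl (ki v) with hpv
  set pc : C → C ⊕ C := fun c => if c ∈ A.2 then hc c else Sum.inl (kci c) with hpc
  have pvA : ∀ v ∈ A.1, pv v = hv v := by
    intro v h; simp only [hpv, if_pos h]
  have pcA : ∀ v ∈ A.2, pc v = hc v := by
    intro v h; simp only [hpc, if_pos h]
  have pvB : ∀ v ∈ (B 0).1, pv v = Sum.inl (ki v) := by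
    intro v h
    by_cases hvA : v ∈ A.1
    · have hvC := hAB1 v hvA h
      rw [pvA v hvA, hv1 v hvC, hkiC v hvC]; rfl
    · simp only [hpv, if_neg hvA]
  have pcB : ∀ v ∈ (B 0).2, pc v = Sum.inl (kci v) := by
    intro v h
    by_cases hvA : v ∈ A.2
    · have hvC := hAB2 v hvA h
      rw [pcA v hvA, hc1 v hvC, hkciC v hvC]; rfl
    · simp only [hpc, if_neg hvA]
  have eA' : IsEmb S A SZ pv pc := eA.congr hKA.ok pvA pcA
  have eB' : IsEmb S (B 0) SZ pv pc := eB.congr (hB 0 h0I).ok pvB pcB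
  have pvAN : ∀ v ∈ A.1, v ∉ (B 0).1 → pv v = Sum.inr v := by
    intro v h1 h2
    rw [pvA v h1]
    exact hv2 v (fun h => h2 ((hCB 0 h0I).1 h))
  have pcAN : ∀ v ∈ A.2, v ∉ (B 0).2 → pc v = Sum.inr v := by
    intro v h1 h2
    rw [pcA v h1]
    exact hc2 v (fun h => h2 ((hCB 0 h0I).2 h))
  -- membership facts for SFH
  have mA1 : ∀ v ∈ A.1, v ∉ (B 0).1 → pv v ∈ (im hv hc A).1 ∧
      pv v ∉ (im Sum.inl Sum.inl W : Rg (V ⊕ V) (C ⊕ C)).1 := by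
    intro v h1 h2
    refine ⟨?_, ?_⟩
    · rw [pvA v h1]; exact mem_im1.2 ⟨v, h1, rfl⟩
    · rw [pvAN v h1 h2]
      intro h
      obtain ⟨w, _, hw⟩ := mem_im1.1 h
      exact absurd hw (by simp)
  have mA2 : ∀ v ∈ A.2, v ∉ (B 0).2 → pc v ∈ (im hv hc A).2 ∧
      pc v ∉ (im Sum.inl Sum.inl W : Rg (V ⊕ V) (C ⊕ C)).2 := by
    intro v h1 h2
    refine ⟨?_, ?_⟩
    · rw [pcA v h1]; exact mem_im2.2 ⟨v, h1, rfl⟩
    · rw [pcAN v h1 h2]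
      intro h
      obtain ⟨w, _, hw⟩ := mem_im2.1 h
      exact absurd hw (by simp)
  have mB1 : ∀ v ∈ (B 0).1, v ∉ A.1 → pv v ∈ (im Sum.inl Sum.inl W : Rg (V ⊕ V) (C ⊕ C)).1 ∧
      pv v ∉ (im hv hc A).1 := by
    intro v h1 h2
    rw [pvB v h1]
    refine ⟨mem_im1.2 ⟨ki v, (hB i hi).le.1 (hB0v v h1).1, rfl⟩, ?_⟩
    intro h
    obtain ⟨w, hw, hw'⟩ := mem_im1.1 h
    by_cases hwC : w ∈ C0.1
    · rw [hv1 w hwC] at hw'
      have h3 : w = ki v := by simpa using hw'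
      exact hkiN v h1 h2 (h3 ▸ hwC)
    · rw [hv2 w hwC] at hw'
      exact absurd hw' (by simp)
  have mB2 : ∀ v ∈ (B 0).2, v ∉ A.2 → pc v ∈ (im Sum.inl Sum.inl W : Rg (V ⊕ V) (C ⊕ C)).2 ∧
      pc v ∉ (im hv hc A).2 := by
    intro v h1 h2
    rw [pcB v h1]
    refine ⟨mem_im2.2 ⟨kci v, (hB i hi).le.2 (hB0c v h1).1, rfl⟩, ?_⟩
    intro h
    obtain ⟨w, hw, hw'⟩ := mem_im2.1 h
    by_cases hwC : w ∈ C0.2
    · rw [hc1 w hwC] at hw'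
      have h3 : w = kci v := by simpa using hw'
      exact hkciN v h1 h2 (h3 ▸ hwC)
    · rw [hc2 w hwC] at hw'
      exact absurd hw' (by simp)
  refine ⟨pv, pc, ?_, ?_, pvA, ?_⟩
  · refine isEmb_sup_of eA' eB' ?_ ?_ ?_ ?_ ?_ ?_
    · intro u hu hu' v hv' hv''
      rw [pvAN u hu hu', pvB v hv']; simp
    · intro u hu hu' v hv' hv''
      rw [pcAN u hu hu', pcB v hv']; simp
    · intro u hu hu' v hv' hv''
      have hkW : ki v ∈ W.1 := (hB i hi).le.1 (hB0v v hv').1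
      have h1 := x2 (ki v) hkW (by rw [im_id]; exact hkiN v hv' hv'') u hu
        (fun h => hu' ((hCB 0 h0I).1 h))
      rw [pvA u hu, pvB v hv', h1]
      constructor
      · rintro ⟨j, hj, hj1, hj2⟩
        rwa [hkv j hj i hi (ki v) hj1 (hB0v v hv').1, (hB0v v hv').2] at hj2
      · intro h
        exact ⟨i, hi, (hB0v v hv').1, by rw [(hB0v v hv').2]; exact h⟩
    · intro u hu hu' v hv' hv''
      have hkW : ki v ∈ W.1 := (hB i hi).le.1 (hB0v v hv').1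
      have h1 := x1 (ki v) hkW (by rw [im_id]; exact hkiN v hv' hv'') u hu
        (fun h => hu' ((hCB 0 h0I).1 h))
      rw [pvA u hu, pvB v hv', h1]
      constructor
      · rintro ⟨j, hj, hj1, hj2⟩
        rwa [hkv j hj i hi (ki v) hj1 (hB0v v hv').1, (hB0v v hv').2] at hj2
      · intro h
        exact ⟨i, hi, (hB0v v hv').1, by rw [(hB0v v hv').2]; exact h⟩
    · intro u hu hu' c hc' hc''
      have h1 := hSF.left u hu hu' c hc' hc''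
      have h2 := sf.left (pv u) (mA1 u hu hu').1 (mA1 u hu hu').2 (pc c) (mB2 c hc' hc'').1 (mB2 c hc' hc'').2
      exact ⟨fun h => absurd h h2, fun h => absurd h h1⟩
    · intro u hu hu' c hc' hc''
      have h1 := hSF.right u hu hu' c hc' hc''
      have h2 := sf.right (pv u) (mB1 u hu hu').1 (mB1 u hu hu').2 (pc c) (mA2 c hc' hc'').1 (mA2 c hc' hc'').2
      exact ⟨fun h => absurd h h2, fun h => absurd h h1⟩
  · have h1 : im pv pc (A ⊔ B 0) = im hv hc A ⊔ im Sum.inl Sum.inl (B i) := by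
      rw [im_sup, im_congr pvA pcA]
      have h2 : (im pv pc (B 0) : Rg (V ⊕ V) (C ⊕ C)) = im (Sum.inl ∘ ki) (Sum.inl ∘ kci) (B 0) :=
        im_congr pvB pcB
      rw [h2, ← im_im, himB]
    rw [h1]
    refine amalL_sub hP (eA.kl hKA) (eW.kl hW) ?_ ?_ kZ.ok.bip sf (eW.clL hW.ok (hB i hi)) ?_
    · rw [hI]; exact eA.clL hKA.ok hclA
    · rw [hI, hCim]; exact eW.clL hW.ok hC0
    · rw [hI, hCim]; exact im_mono (hCB i hi)
  · intro v hv'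
    rw [pvB (kv i v) (hkvim i hi v hv'), hki v hv']

end Pool.Low
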