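import Pool.Agent.helper24.Low.Ins

/-!
# Module LA2 (Hull): the full hull

`hull G n D P` adds to `P` all blocks of `D` with at least `n+1` vertices in `P` (no new vertices).
-/

set_option autoImplicit false

namespace Pool.Low

open scoped Classical

variable {V C : Type} [DecidableEq V] [DecidableEq C]

theorem le_hull {G : Geo V C} {n : ℕ} {D P : Rg V C} (hP : P ≤ D) : P ≤ hull G n D P := by
  refine ⟨fun v hv => mem_hull1.2 hv, fun c hc => mem_hull2.2 ⟨(rg_le_iff.1 hP).2 hc, Or.inl hc⟩⟩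

theorem hull_full {G : Geo V C} {n : ℕ} {D P : Rg V C} (hP : P ≤ D) : Full G n D (hull G n D P) := by
  refine ⟨⟨fun v hv => (rg_le_iff.1 hP).1 (mem_hull1.1 hv), fun c hc => (mem_hull2.1 hc).1⟩, ?_⟩
  intro c hc h
  exact mem_hull2.2 ⟨hc, Or.inr h⟩

/-- the hull is the smallest full set containing `P` -/
theorem hull_le {G : Geo V C} {n : ℕ} {D P Z : Rg V C} (hZ : Full G n D Z) (hPZ : P ≤ Z) : hull G n D P ≤ Z := by
  refine ⟨fun v hv => (rg_le_iff.1 hPZ).1 (mem_hull1.1 hv), fun c hc => ?_⟩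
  obtain ⟨h1, h2⟩ := mem_hull2.1 hc
  rcases h2 with h2 | h2
  · exact (rg_le_iff.1 hPZ).2 h2
  · exact hZ.2 c h1 (le_trans h2 (Finset.card_le_card (tr_mono (rg_le_iff.1 hPZ).1 c)))

theorem hull_eq_self {G : Geo V C} {n : ℕ} {D P : Rg V C} (hP : Full G n D P) : hull G n D P = P :=
  le_antisymm (hull_le hP le_rfl) (le_hull hP.1)

theorem hull_eq_union {G : Geo V C} {n : ℕ} {D P : Rg V C} (hP : P ≤ D) :
    hull G n D P = (P.1, P.2 ∪ ((hull G n D P).2 \ P.2)) := by
  apply rg_ext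
  · intro v; exact Iff.rfl
  · intro c
    show c ∈ (hull G n D P).2 ↔ c ∈ P.2 ∪ ((hull G n D P).2 \ P.2)
    rw [Finset.mem_union, Finset.mem_sdiff]
    constructor
    · intro h
      by_cases hc : c ∈ P.2
      · exact Or.inl hc
      · exact Or.inr ⟨h, hc⟩
    · rintro (h | h)
      · exact (rg_le_iff.1 (le_hull hP)).2 h
      · exact h.1

/-- the difference of the predimensions of the hull and of the region -/
theorem hull_del_eq (G : Geo V C) (n : ℕ) (a b : ℝ) {D P : Rg V C} (hP : P ≤ D) :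
    del G a b (hull G n D P) = del G a b P
      + ∑ c ∈ (hull G n D P).2 \ P.2, (b - a * ((tr G P.1 c).card : ℝ) + ((ed G (tr G P.1 c)).card : ℝ)) := by
  have h1 := del_add_blocks G a b P ((hull G n D P).2 \ P.2) Finset.disjoint_sdiff
  rw [← hull_eq_union hP] at h1
  exact h1

/-- **Hull inequality.**  Let every block of `D` not in `P` have at most `2n` vertices in `P`.  By `del_add_blocks` the difference
`del hull - del P` is the sum over the new blocks `c` (with `r := |tr P.1 c|`, `n+1 ≤ r ≤ 2n`) of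
`b - a r + |ed (tr P.1 c)| ≤ b - a r + r^2`.  As `b ≤ n a + a/2 + 1`, this is `≤ 1 - a/2 - a (r-n-1) + r^2`, and
`r^2 ≤ 4 n^2 ≤ 4 (n+1)^2`, `a / 2 ≥ 8 (n+1)^2`, so it is `≤ -1`. -/
theorem hull_del {G : Geo V C} {n : ℕ} {a b : ℝ} (h : Wt n a b) {D P : Rg V C} (hP : P ≤ D)
    (hs : ∀ c ∈ D.2, c ∉ P.2 → (tr G P.1 c).card ≤ 2 * n) :
    del G a b (hull G n D P) + (((hull G n D P).2 \ P.2).card : ℝ) ≤ del G a b P := by
  have key : ∀ c ∈ (hull G n D P).2 \ P.2,
      (b - a * ((tr G P.1 c).card : ℝ) + ((ed G (tr G P.1 c)).card : ℝ)) ≤ -1 := by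
    intro c hc
    obtain ⟨hc1, hc2⟩ := Finset.mem_sdiff.1 hc
    obtain ⟨hcD, hc3⟩ := mem_hull2.1 hc1
    have hr1 : n + 1 ≤ (tr G P.1 c).card := by
      rcases hc3 with hc3 | hc3
      · exact absurd hc3 hc2
      · exact hc3
    have hr2 := hs c hcD hc2
    have he := ed_card_le G (tr G P.1 c)
    have he' : ((ed G (tr G P.1 c)).card : ℝ) ≤ ((tr G P.1 c).card : ℝ) ^ 2 := by exact_mod_cast he
    have hr1' : (n : ℝ) + 1 ≤ ((tr G P.1 c).card : ℝ) := by exact_mod_cast hr1
    have hr2' : ((tr G P.1 c).card : ℝ) ≤ 2 * (n : ℝ) := by exact_mod_cast hr2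
    have hn : (1 : ℝ) ≤ n := by exact_mod_cast h.n_pos
    have hhi := h.hi
    have hbig := h.big
    generalize ((tr G P.1 c).card : ℝ) = r at *
    generalize ((ed G (tr G P.1 c)).card : ℝ) = e at *
    have ha : 0 ≤ a := by nlinarith
    have hr3 : r ^ 2 ≤ 4 * (n : ℝ) ^ 2 := by nlinarith
    nlinarith [mul_le_mul_of_nonneg_left hr1' ha]
  rw [hull_del_eq G n a b hP]
  have hsum := Finset.sum_le_sum key
  rw [Finset.sum_const, nsmul_eq_mul] at hsum
  linarith

/-- The same without the bound `2n` if there are no edges inside `P.1` (then `ed (tr P.1 c) = ∅` and `b - a r ≤ b - a (n+1) ≤ 0`). -/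
theorem hull_del_noedge {G : Geo V C} {n : ℕ} {a b : ℝ} (h : Wt n a b) {D P : Rg V C} (hP : P ≤ D)
    (hs : ed G P.1 = ∅) : del G a b (hull G n D P) ≤ del G a b P := by
  have key : ∀ c ∈ (hull G n D P).2 \ P.2,
      (b - a * ((tr G P.1 c).card : ℝ) + ((ed G (tr G P.1 c)).card : ℝ)) ≤ 0 := by
    intro c hc
    obtain ⟨hc1, hc2⟩ := Finset.mem_sdiff.1 hc
    obtain ⟨hcD, hc3⟩ := mem_hull2.1 hc1
    have hr1 : n + 1 ≤ (tr G P.1 c).card := by
      rcases hc3 with hc3 | hc3
      · exact absurd hc3 hc2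
      · exact hc3
    have he : (ed G (tr G P.1 c)).card = 0 := by
      rw [Finset.card_eq_zero]
      apply Finset.eq_empty_of_forall_notMem
      intro p hp
      have hp' : p ∈ ed G P.1 := ed_mono (Finset.filter_subset _ _) hp
      rw [hs] at hp'
      exact absurd hp' (Finset.notMem_empty p)
    have hr1' : (n : ℝ) + 1 ≤ ((tr G P.1 c).card : ℝ) := by exact_mod_cast hr1
    have hn : (1 : ℝ) ≤ n := by exact_mod_cast h.n_pos
    have hhi := h.hi
    have hbig := h.big
    rw [he]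
    generalize ((tr G P.1 c).card : ℝ) = r at *
    have ha : 4 ≤ a := by nlinarith
    push_cast
    nlinarith [mul_le_mul_of_nonneg_left hr1' (by linarith : (0:ℝ) ≤ a)]
  rw [hull_del_eq G n a b hP]
  have hsum := Finset.sum_nonpos key
  linarith

/-- variant for the union of two full sets: blocks outside have at most `n + n` vertices in the union -/
theorem hull_del_sup {G : Geo V C} {n : ℕ} {a b : ℝ} (h : Wt n a b) {D P Q : Rg V C} (hP : Full G n D P)
    (hQ : Full G n D Q) :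
    del G a b (hull G n D (P ⊔ Q)) + (((hull G n D (P ⊔ Q)).2 \ (P ⊔ Q).2).card : ℝ) ≤ del G a b (P ⊔ Q) := by
  apply hull_del h (sup_le hP.1 hQ.1)
  intro c hc hcn
  rw [mem_sup2, not_or] at hcn
  have h1 : (tr G P.1 c).card ≤ n := by
    by_contra hh
    exact hcn.1 (hP.2 c hc (by omega))
  have h2 : (tr G Q.1 c).card ≤ n := by
    by_contra hh
    exact hcn.2 (hQ.2 c hc (by omega))
  have h3 : tr G (P ⊔ Q).1 c ⊆ tr G P.1 c ∪ tr G Q.1 c := by
    intro v hv
    rw [mem_tr, mem_sup1] at hv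
    rw [Finset.mem_union, mem_tr, mem_tr]
    tauto
  calc (tr G (P ⊔ Q).1 c).card ≤ (tr G P.1 c ∪ tr G Q.1 c).card := Finset.card_le_card h3
    _ ≤ (tr G P.1 c).card + (tr G Q.1 c).card := Finset.card_union_le _ _
    _ ≤ 2 * n := by omega

end Pool.Low
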