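import Pool.Agent.helper24.Low.Ins

/-!
# Module LA5a (Ident): the exact submodularity identity
-/

set_option autoImplicit false

namespace Pool.Low

open scoped Classical

variable {V C : Type} [DecidableEq V] [DecidableEq C]

/-- the (edge, block) flags of `P ⊔ W` which are neither flags of `P` nor of `W` -/
noncomputable def flag (G : Geo V C) (P W : Rg V C) : Finset ((V × V) × C) :=
  ((ed G (P.1 ∪ W.1)) ×ˢ (P.2 ∪ W.2)).filter (fun q => G.inc q.1.1 q.2 ∧ G.inc q.1.2 q.2 ∧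
    ¬ (q.1.1 ∈ P.1 ∧ q.1.2 ∈ P.1 ∧ q.2 ∈ P.2) ∧ ¬ (q.1.1 ∈ W.1 ∧ q.1.2 ∈ W.1 ∧ q.2 ∈ W.2))

private theorem sum_mm_card (G : Geo V C) (P : Rg V C) (X : Finset V) (Y : Finset C)
    (hX : P.1 ⊆ X) (hY : P.2 ⊆ Y) :
    ∑ v ∈ P.1, mm G P v =
      ∑ q ∈ X ×ˢ Y, if q.1 ∈ P.1 ∧ q.2 ∈ P.2 ∧ G.inc q.1 q.2 then 1 else 0 := by
  have h1 : ∑ v ∈ P.1, mm G P v = ((P.1 ×ˢ P.2).filter (fun q => G.inc q.1 q.2)).card := by
    rw [Finset.card_filter, Finset.sum_product]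
    refine Finset.sum_congr rfl fun v _ => ?_
    unfold mm
    rw [Finset.card_filter]
  rw [h1, ← Finset.card_filter]
  congr 1
  ext q
  simp only [Finset.mem_filter, Finset.mem_product]
  constructor
  · rintro ⟨⟨h2, h3⟩, h4⟩
    exact ⟨⟨hX h2, hY h3⟩, h2, h3, h4⟩
  · rintro ⟨_, h2, h3, h4⟩
    exact ⟨⟨h2, h3⟩, h4⟩

private theorem sum_m2_card (G : Geo V C) (P : Rg V C) (X : Finset V) (Y : Finset C)
    (hX : P.1 ⊆ X) (hY : P.2 ⊆ Y) :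
    ∑ p ∈ ed G P.1, m2 G P p.1 p.2 =
      ∑ q ∈ (ed G X) ×ˢ Y, if (q.1.1 ∈ P.1 ∧ q.1.2 ∈ P.1 ∧ q.2 ∈ P.2) ∧
        G.inc q.1.1 q.2 ∧ G.inc q.1.2 q.2 then 1 else 0 := by
  have h1 : ∑ p ∈ ed G P.1, m2 G P p.1 p.2 =
      (((ed G P.1) ×ˢ P.2).filter (fun q => G.inc q.1.1 q.2 ∧ G.inc q.1.2 q.2)).card := by
    rw [Finset.card_filter, Finset.sum_product]
    refine Finset.sum_congr rfl fun v _ => ?_
    unfold m2
    rw [Finset.card_filter]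
  rw [h1, ← Finset.card_filter]
  congr 1
  ext q
  simp only [Finset.mem_filter, Finset.mem_product, mem_ed]
  constructor
  · rintro ⟨⟨⟨⟨h2, h3⟩, h4⟩, h5⟩, h6, h7⟩
    exact ⟨⟨⟨⟨hX h2, hX h3⟩, h4⟩, hY h5⟩, ⟨h2, h3, h5⟩, h6, h7⟩
  · rintro ⟨⟨⟨_, h4⟩, _⟩, ⟨h2, h3, h5⟩, h6, h7⟩
    exact ⟨⟨⟨⟨h2, h3⟩, h4⟩, h5⟩, h6, h7⟩

private theorem ed_card_sum (G : Geo V C) (P X : Finset V) (hX : P ⊆ X) :
    (ed G P).card = ∑ q ∈ ed G X, if q.1 ∈ P ∧ q.2 ∈ P then 1 else 0 := by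
  rw [← Finset.card_filter]
  congr 1
  ext q
  simp only [Finset.mem_filter, mem_ed]
  constructor
  · rintro ⟨⟨h2, h3⟩, h4⟩
    exact ⟨⟨⟨hX h2, hX h3⟩, h4⟩, h2, h3⟩
  · rintro ⟨⟨_, h4⟩, h2, h3⟩
    exact ⟨⟨h2, h3⟩, h4⟩

private theorem xe_card_sum (G : Geo V C) (P W : Rg V C) (X : Finset V) (hP : P.1 ⊆ X)
    (hW : W.1 ⊆ X) :
    (xe G P W).card =
      ∑ q ∈ ed G X, if q.1 ∈ P.1 ∧ q.2 ∈ W.1 ∧ q.1 ∉ W.1 ∧ q.2 ∉ P.1 then 1 else 0 := by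
  rw [← Finset.card_filter]
  congr 1
  ext q
  simp only [Finset.mem_filter, mem_ed, mem_xe]
  constructor
  · rintro ⟨h1, h2, h3, h4, h5⟩
    exact ⟨⟨⟨hP h1, hW h2⟩, h5⟩, h1, h2, h3, h4⟩
  · rintro ⟨⟨_, h5⟩, h1, h2, h3, h4⟩
    exact ⟨h1, h2, h3, h4, h5⟩

private theorem xi_card_sum (G : Geo V C) (P W : Rg V C) (X : Finset V) (Y : Finset C)
    (hP : P.1 ⊆ X) (hW : W.2 ⊆ Y) :
    (xi G P W).card =
      ∑ q ∈ X ×ˢ Y, if q.1 ∈ P.1 ∧ q.2 ∈ W.2 ∧ q.1 ∉ W.1 ∧ q.2 ∉ P.2 ∧ G.inc q.1 q.2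
        then 1 else 0 := by
  rw [← Finset.card_filter]
  congr 1
  ext q
  simp only [Finset.mem_filter, Finset.mem_product, mem_xi]
  constructor
  · rintro ⟨h1, h2, h3, h4, h5⟩
    exact ⟨⟨hP h1, hW h2⟩, h1, h2, h3, h4, h5⟩
  · rintro ⟨_, h1, h2, h3, h4, h5⟩
    exact ⟨h1, h2, h3, h4, h5⟩

/-- inclusion-exclusion for the incidences -/
theorem sum_mm_sup_inf (G : Geo V C) (P W : Rg V C) :
    ∑ v ∈ (P ⊔ W).1, mm G (P ⊔ W) v + ∑ v ∈ (P ⊓ W).1, mm G (P ⊓ W) v =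
      ∑ v ∈ P.1, mm G P v + ∑ v ∈ W.1, mm G W v + crossInc G P W := by
  have hP1 : P.1 ⊆ (P ⊔ W).1 := fun v hv => mem_sup1.2 (Or.inl hv)
  have hW1 : W.1 ⊆ (P ⊔ W).1 := fun v hv => mem_sup1.2 (Or.inr hv)
  have hP2 : P.2 ⊆ (P ⊔ W).2 := fun v hv => mem_sup2.2 (Or.inl hv)
  have hW2 : W.2 ⊆ (P ⊔ W).2 := fun v hv => mem_sup2.2 (Or.inr hv)
  have hi1 : (P ⊓ W).1 ⊆ (P ⊔ W).1 := fun v hv => hP1 (mem_inf1.1 hv).1
  have hi2 : (P ⊓ W).2 ⊆ (P ⊔ W).2 := fun v hv => hP2 (mem_inf2.1 hv).1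
  unfold crossInc
  rw [sum_mm_card G (P ⊔ W) _ _ (Finset.Subset.refl _) (Finset.Subset.refl _),
    sum_mm_card G (P ⊓ W) _ _ hi1 hi2, sum_mm_card G P _ _ hP1 hP2,
    sum_mm_card G W _ _ hW1 hW2, xi_card_sum G P W _ _ hP1 hW2, xi_card_sum G W P _ _ hW1 hP2,
    ← Finset.sum_add_distrib, ← Finset.sum_add_distrib, ← Finset.sum_add_distrib,
    ← Finset.sum_add_distrib]
  refine Finset.sum_congr rfl fun q _ => ?_
  simp only [mem_sup1, mem_sup2, mem_inf1, mem_inf2]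
  by_cases h1 : q.1 ∈ P.1 <;> by_cases h2 : q.1 ∈ W.1 <;> by_cases h3 : q.2 ∈ P.2 <;>
    by_cases h4 : q.2 ∈ W.2 <;> by_cases h5 : G.inc q.1 q.2 <;> simp [h1, h2, h3, h4, h5]

/-- inclusion-exclusion for the edges -/
theorem ed_sup_inf (G : Geo V C) (P W : Rg V C) :
    (ed G (P ⊔ W).1).card + (ed G (P ⊓ W).1).card =
      (ed G P.1).card + (ed G W.1).card + ((xe G P W).card + (xe G W P).card) := by
  have hP1 : P.1 ⊆ (P ⊔ W).1 := fun v hv => mem_sup1.2 (Or.inl hv)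
  have hW1 : W.1 ⊆ (P ⊔ W).1 := fun v hv => mem_sup1.2 (Or.inr hv)
  have hi1 : (P ⊓ W).1 ⊆ (P ⊔ W).1 := fun v hv => hP1 (mem_inf1.1 hv).1
  rw [ed_card_sum G _ _ hi1, ed_card_sum G _ _ hP1, ed_card_sum G _ _ hW1,
    xe_card_sum G P W _ hP1 hW1, xe_card_sum G W P _ hW1 hP1,
    ed_card_sum G (P ⊔ W).1 (P ⊔ W).1 (Finset.Subset.refl _),
    ← Finset.sum_add_distrib, ← Finset.sum_add_distrib, ← Finset.sum_add_distrib,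
    ← Finset.sum_add_distrib]
  refine Finset.sum_congr rfl fun q hq => ?_
  rw [mem_ed] at hq
  have h5 := hq.1.1
  have h6 := hq.1.2
  simp only [mem_sup1, mem_inf1] at h5 h6 ⊢
  by_cases h1 : q.1 ∈ P.1 <;> by_cases h2 : q.1 ∈ W.1 <;> by_cases h3 : q.2 ∈ P.1 <;>
    by_cases h4 : q.2 ∈ W.1 <;> simp [h1, h2, h3, h4] at h5 h6 ⊢

/-- inclusion-exclusion for the flags -/
theorem sum_m2_sup_inf (G : Geo V C) (P W : Rg V C) :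
    ∑ p ∈ ed G (P ⊔ W).1, m2 G (P ⊔ W) p.1 p.2 + ∑ p ∈ ed G (P ⊓ W).1, m2 G (P ⊓ W) p.1 p.2 =
      ∑ p ∈ ed G P.1, m2 G P p.1 p.2 + ∑ p ∈ ed G W.1, m2 G W p.1 p.2 + (flag G P W).card := by
  have hP1 : P.1 ⊆ (P ⊔ W).1 := fun v hv => mem_sup1.2 (Or.inl hv)
  have hW1 : W.1 ⊆ (P ⊔ W).1 := fun v hv => mem_sup1.2 (Or.inr hv)
  have hP2 : P.2 ⊆ (P ⊔ W).2 := fun v hv => mem_sup2.2 (Or.inl hv)
  have hW2 : W.2 ⊆ (P ⊔ W).2 := fun v hv => mem_sup2.2 (Or.inr hv)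
  have hi1 : (P ⊓ W).1 ⊆ (P ⊔ W).1 := fun v hv => hP1 (mem_inf1.1 hv).1
  have hi2 : (P ⊓ W).2 ⊆ (P ⊔ W).2 := fun v hv => hP2 (mem_inf2.1 hv).1
  have hflag : (flag G P W).card = ∑ q ∈ (ed G (P ⊔ W).1) ×ˢ (P ⊔ W).2,
      if G.inc q.1.1 q.2 ∧ G.inc q.1.2 q.2 ∧ ¬ (q.1.1 ∈ P.1 ∧ q.1.2 ∈ P.1 ∧ q.2 ∈ P.2) ∧
        ¬ (q.1.1 ∈ W.1 ∧ q.1.2 ∈ W.1 ∧ q.2 ∈ W.2) then 1 else 0 := by
    rw [← Finset.card_filter]
    rfl
  rw [hflag, sum_m2_card G (P ⊔ W) _ _ (Finset.Subset.refl _) (Finset.Subset.refl _),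
    sum_m2_card G (P ⊓ W) _ _ hi1 hi2, sum_m2_card G P _ _ hP1 hP2,
    sum_m2_card G W _ _ hW1 hW2,
    ← Finset.sum_add_distrib, ← Finset.sum_add_distrib, ← Finset.sum_add_distrib]
  refine Finset.sum_congr rfl fun q hq => ?_
  rw [Finset.mem_product, mem_ed] at hq
  have h5 := hq.1.1.1
  have h6 := hq.1.1.2
  have h7 := hq.2
  simp only [mem_sup1, mem_sup2, mem_inf1, mem_inf2] at h5 h6 h7 ⊢
  by_cases hA : G.inc q.1.1 q.2 ∧ G.inc q.1.2 q.2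
  · obtain ⟨hA1, hA2⟩ := hA
    simp only [hA1, hA2, and_true, true_and, h5, h6, h7]
    by_cases hx : q.1.1 ∈ P.1 ∧ q.1.2 ∈ P.1 ∧ q.2 ∈ P.2
    · by_cases hy : q.1.1 ∈ W.1 ∧ q.1.2 ∈ W.1 ∧ q.2 ∈ W.2
      · simp [hx, hy]
      · have hz : ¬ ((q.1.1 ∈ P.1 ∧ q.1.1 ∈ W.1) ∧ (q.1.2 ∈ P.1 ∧ q.1.2 ∈ W.1) ∧
            (q.2 ∈ P.2 ∧ q.2 ∈ W.2)) := fun h => hy ⟨h.1.2, h.2.1.2, h.2.2.2⟩
        rw [if_pos trivial, if_neg hz, if_pos hx, if_neg hy, if_neg (fun h => h.1 hx)]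
    · have hz : ¬ ((q.1.1 ∈ P.1 ∧ q.1.1 ∈ W.1) ∧ (q.1.2 ∈ P.1 ∧ q.1.2 ∈ W.1) ∧
          (q.2 ∈ P.2 ∧ q.2 ∈ W.2)) := fun h => hx ⟨h.1.1, h.2.1.1, h.2.2.1⟩
      by_cases hy : q.1.1 ∈ W.1 ∧ q.1.2 ∈ W.1 ∧ q.2 ∈ W.2
      · rw [if_pos trivial, if_neg hz, if_neg hx, if_pos hy, if_neg (fun h => h.2 hy)]
      · rw [if_pos trivial, if_neg hz, if_neg hx, if_neg hy, if_pos ⟨hx, hy⟩]
  · have hA1 : ∀ p : Prop, ¬ (p ∧ G.inc q.1.1 q.2 ∧ G.inc q.1.2 q.2) := fun p h => hA h.2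
    have hA2 : ∀ p : Prop, ¬ (G.inc q.1.1 q.2 ∧ G.inc q.1.2 q.2 ∧ p) :=
      fun p h => hA ⟨h.1, h.2.1⟩
    simp only [hA1, hA2, if_false]

private theorem card_sup_inf1 (P W : Rg V C) :
    (P ⊔ W).1.card + (P ⊓ W).1.card = P.1.card + W.1.card :=
  Finset.card_union_add_card_inter P.1 W.1

private theorem card_sup_inf2 (P W : Rg V C) :
    (P ⊔ W).2.card + (P ⊓ W).2.card = P.2.card + W.2.card :=
  Finset.card_union_add_card_inter P.2 W.2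

private theorem del_expand (G : Geo V C) (a b : ℝ) (P : Rg V C) :
    del G a b P = a * (P.1.card : ℝ) - a * ((∑ v ∈ P.1, mm G P v : ℕ) : ℝ) + b * (P.2.card : ℝ)
      - ((ed G P.1).card : ℝ) + ((∑ p ∈ ed G P.1, m2 G P p.1 p.2 : ℕ) : ℝ) := by
  unfold del
  rw [Finset.sum_sub_distrib, Finset.sum_sub_distrib]
  simp only [Finset.sum_const, nsmul_eq_mul, mul_one]
  push_cast
  ring

private theorem psi_expand (G : Geo V C) (L : ℕ) (P : Rg V C) :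
    psi G L P = (P.1.card : ℤ) - ((∑ v ∈ P.1, mm G P v : ℕ) : ℤ) + (L : ℤ) * (P.2.card : ℤ) := by
  unfold psi
  rw [Finset.sum_sub_distrib]
  simp only [Finset.sum_const, nsmul_eq_mul, mul_one]
  push_cast
  ring

/-- Inclusion-exclusion for incidences `(v, c)`, edges `(u, v)` and flags `((u, v), c)`: an object of `P ⊔ W` which is neither in
`P` nor in `W` is a cross object. An object is in `P ⊓ W` iff it is in both. (Write `del P = a |P.1| - a #incidences + b |P.2| -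
#edges + #flags`.) -/
theorem sup_inf_identity (G : Geo V C) (a b : ℝ) (P W : Rg V C) :
    del G a b (P ⊔ W) + del G a b (P ⊓ W) + a * (crossInc G P W : ℝ)
      + (((xe G P W).card : ℝ) + ((xe G W P).card : ℝ)) =
    del G a b P + del G a b W + ((flag G P W).card : ℝ) := by
  have h1 := card_sup_inf1 P W
  have h2 := card_sup_inf2 P W
  have h3 := sum_mm_sup_inf G P W
  have h4 := ed_sup_inf G P W
  have h5 := sum_m2_sup_inf G P W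
  have h1' : ((P ⊔ W).1.card : ℝ) + ((P ⊓ W).1.card : ℝ) = P.1.card + W.1.card := by
    exact_mod_cast h1
  have h2' : ((P ⊔ W).2.card : ℝ) + ((P ⊓ W).2.card : ℝ) = P.2.card + W.2.card := by
    exact_mod_cast h2
  have h3' : ((∑ v ∈ (P ⊔ W).1, mm G (P ⊔ W) v : ℕ) : ℝ) +
      ((∑ v ∈ (P ⊓ W).1, mm G (P ⊓ W) v : ℕ) : ℝ) =
      ((∑ v ∈ P.1, mm G P v : ℕ) : ℝ) + ((∑ v ∈ W.1, mm G W v : ℕ) : ℝ) +
        (crossInc G P W : ℝ) := by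
    exact_mod_cast h3
  have h4' : ((ed G (P ⊔ W).1).card : ℝ) + ((ed G (P ⊓ W).1).card : ℝ) =
      ((ed G P.1).card : ℝ) + ((ed G W.1).card : ℝ) +
        (((xe G P W).card : ℝ) + ((xe G W P).card : ℝ)) := by
    exact_mod_cast h4
  have h5' : ((∑ p ∈ ed G (P ⊔ W).1, m2 G (P ⊔ W) p.1 p.2 : ℕ) : ℝ) +
      ((∑ p ∈ ed G (P ⊓ W).1, m2 G (P ⊓ W) p.1 p.2 : ℕ) : ℝ) =
      ((∑ p ∈ ed G P.1, m2 G P p.1 p.2 : ℕ) : ℝ) + ((∑ p ∈ ed G W.1, m2 G W p.1 p.2 : ℕ) : ℝ) +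
        ((flag G P W).card : ℝ) := by
    exact_mod_cast h5
  rw [del_expand G a b (P ⊔ W), del_expand G a b (P ⊓ W), del_expand G a b P,
    del_expand G a b W]
  linear_combination a * h1' - a * h3' + b * h2' - h4' + h5'

/-- the same for `psi` -/
theorem psi_sup_inf (G : Geo V C) (L : ℕ) (P W : Rg V C) :
    psi G L (P ⊔ W) + psi G L (P ⊓ W) + (crossInc G P W : ℤ) = psi G L P + psi G L W := by
  have h1 := card_sup_inf1 P W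
  have h2 := card_sup_inf2 P W
  have h3 := sum_mm_sup_inf G P W
  have h1' : ((P ⊔ W).1.card : ℤ) + ((P ⊓ W).1.card : ℤ) = P.1.card + W.1.card := by
    exact_mod_cast h1
  have h2' : ((P ⊔ W).2.card : ℤ) + ((P ⊓ W).2.card : ℤ) = P.2.card + W.2.card := by
    exact_mod_cast h2
  have h3' : ((∑ v ∈ (P ⊔ W).1, mm G (P ⊔ W) v : ℕ) : ℤ) +
      ((∑ v ∈ (P ⊓ W).1, mm G (P ⊓ W) v : ℕ) : ℤ) =
      ((∑ v ∈ P.1, mm G P v : ℕ) : ℤ) + ((∑ v ∈ W.1, mm G W v : ℕ) : ℤ) +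
        (crossInc G P W : ℤ) := by
    exact_mod_cast h3
  rw [psi_expand G L (P ⊔ W), psi_expand G L (P ⊓ W), psi_expand G L P, psi_expand G L W]
  linear_combination h1' - h3' + (L : ℤ) * h2'

end Pool.Low
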