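import Pool.Agent.helper24.Low.Seq

/-!
# Module NL3 (Incons): long parts of the sequence have no common neighbour

Let `M` be larger than all `wa (gs i) θ`, `i ≤ s`.  Suppose `x` is adjacent to `y 0, ..., y (M-1)`.  Let `Y` be the image of
`(Icc 1 M, range (s+1))`, closed in `D k` with `x ∈ (D k).1` (`Gen.exists_stage`, `Gen.lift`).  `x ∉ Y.1`: `x` has colour `true`, the `y j` have
colour `false` (`Ok.bip` for `D k`).
Claim: `x` is in `e i` for all `i ≤ s`, by induction: `i = 0`: the root.  Let `i < s`, `x` in `e i`.  `B := reg S Y (e i) = ({y 0..y (M-1)}, {e (i+1)})`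
(`reg_im`) is closed in `E := reg S (D k) (e i) ∋ x`.  If `x` is not in `e (i+1)`, let `Q = (insert x B.1, B.2)`: `mm B x = 0`, `m2 B x (y j) = 0`, so
`del Q = del B + wa - (number of neighbours of x in B.1) ≤ del B + wa - M < del B` (`del_add_vertices`).  A block of `E` outside `B` has at most
`n` vertices in `B.1` and so at most `n + 1 ≤ 2n` in `Q.1`; `hull_del` gives a full set above `B` with smaller `del`, contradiction.
At `i = s`: the same argument with `B = ({y j}, ∅)` gives a contradiction.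
-/

set_option autoImplicit false

namespace Pool.Low

open scoped Classical

/-- One-level step: a vertex outside a closed region `B`, in no block of `B`, has at most `a` neighbours in `B`. -/
theorem Incons_step {V C : Type} [DecidableEq V] [DecidableEq C] {G : Geo V C} {n : ℕ} {a b : ℝ} (h : Wt n a b)
    {D B : Rg V C} (hB : Cl G n a b D B) {x : V} (hx : x ∈ D.1) (hxB : x ∉ B.1) (hmm : mm G B x = 0)
    {T : Finset V} (hT : T ⊆ B.1) (hE : ∀ v ∈ T, G.E x v) : (T.card : ℝ) ≤ a := by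
  by_contra hcon
  push Not at hcon
  have hdisj : Disjoint B.1 {x} := by
    rw [Finset.disjoint_singleton_right]; exact hxB
  have hBD : B ≤ D := hB.1.1
  set Q : Rg V C := (B.1 ∪ {x}, B.2) with hQdef
  have hQD : Q ≤ D := by
    refine ⟨?_, hBD.2⟩
    intro v hv
    rcases Finset.mem_union.1 hv with hv | hv
    · exact hBD.1 hv
    · rw [Finset.mem_singleton] at hv; subst hv; exact hx
  have hBQ : B ≤ Q := ⟨Finset.subset_union_left, Finset.Subset.refl _⟩
  have hdel : del G a b Q = del G a b B + a * ∑ u ∈ ({x} : Finset V), (1 - (mm G B u : ℝ))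
        - ∑ p ∈ ed G (B.1 ∪ {x}) \ ed G B.1, (1 - (m2 G B p.1 p.2 : ℝ)) := by
    rw [hQdef]
    exact del_add_vertices G a b B {x} hdisj
  have h1 : ∑ u ∈ ({x} : Finset V), (1 - (mm G B u : ℝ)) = 1 := by
    rw [Finset.sum_singleton, hmm]; simp
  have h2 : (T.card : ℝ) ≤ ∑ p ∈ ed G (B.1 ∪ {x}) \ ed G B.1, (1 - (m2 G B p.1 p.2 : ℝ)) := by
    have h3 : ∀ p ∈ ed G (B.1 ∪ {x}) \ ed G B.1, (1 - (m2 G B p.1 p.2 : ℝ)) = 1 := by
      intro p hp
      obtain ⟨hp1, hp2⟩ := Finset.mem_sdiff.1 hp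
      rw [mem_ed] at hp1 hp2
      obtain ⟨⟨hp3, hp4⟩, hp5⟩ := hp1
      have hm : m2 G B p.1 p.2 = 0 := by
        rcases Finset.mem_union.1 hp3 with h6 | h6
        · rcases Finset.mem_union.1 hp4 with h7 | h7
          · exact absurd ⟨⟨h6, h7⟩, hp5⟩ hp2
          · rw [Finset.mem_singleton] at h7
            have := m2_le_right G B p.1 p.2
            rw [h7] at this ⊢
            omega
        · rw [Finset.mem_singleton] at h6
          have := m2_le_left G B p.1 p.2
          rw [h6] at this ⊢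
          omega
      rw [hm]; simp
    rw [Finset.sum_congr rfl h3, Finset.sum_const, nsmul_eq_mul, mul_one]
    have h4 : T.image (fun v => (x, v)) ⊆ ed G (B.1 ∪ {x}) \ ed G B.1 := by
      intro p hp
      obtain ⟨v, hv, rfl⟩ := Finset.mem_image.1 hp
      rw [Finset.mem_sdiff, mem_ed, mem_ed]
      refine ⟨⟨⟨Finset.mem_union_right _ (Finset.mem_singleton_self x), Finset.mem_union_left _ (hT hv)⟩, hE v hv⟩, ?_⟩
      rintro ⟨⟨h5, -⟩, -⟩
      exact hxB h5
    have h5 : (T.image (fun v => (x, v))).card = T.card :=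
      Finset.card_image_of_injective _ (fun u v huv => (Prod.mk.inj huv).2)
    have h6 := Finset.card_le_card h4
    rw [h5] at h6
    exact_mod_cast h6
  have hhull := hull_del (G := G) h hQD (by
    intro c hc hcQ
    have hcB : c ∉ B.2 := hcQ
    have h7 : (tr G B.1 c).card ≤ n := by
      by_contra hh
      exact hcB (hB.1.2 c hc (by omega))
    have h8 : tr G Q.1 c ⊆ tr G B.1 c ∪ {x} := by
      intro v hv
      rw [mem_tr] at hv
      rw [Finset.mem_union, mem_tr, Finset.mem_singleton]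
      rcases Finset.mem_union.1 hv.1 with h9 | h9
      · exact Or.inl ⟨h9, hv.2⟩
      · exact Or.inr (Finset.mem_singleton.1 h9)
    have h9 : (tr G Q.1 c).card ≤ (tr G B.1 c).card + 1 := by
      refine (Finset.card_le_card h8).trans ((Finset.card_union_le _ _).trans ?_)
      rw [Finset.card_singleton]
    have := h.n_pos
    omega)
  have hfin := hB.2 _ (hull_full hQD) (hBQ.trans (le_hull hQD))
  have hnn : (0:ℝ) ≤ (((hull G n D Q).2 \ Q.2).card : ℝ) := Nat.cast_nonneg _
  rw [hdel, h1] at hhull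
  linarith

variable {P : Par} {S : Sys ℕ ℕ} {D : ℕ → Rg ℕ ℕ}

theorem seq_inconsistent (hP : Good0 P) (hG : Gen P S D) {s : ℕ} {y e : ℕ → ℕ} (h : IsSeq P S D s y e) :
    ∃ M : ℕ, ¬ ∃ x, dom D x ∧ ∀ j < M, S.E x (y j) := by
  obtain ⟨M, hM1, hM⟩ : ∃ M : ℕ, 1 ≤ M ∧ ∀ i ≤ s, wa (P.gs i) P.θ < (M : ℝ) := by
    refine ⟨(Finset.range (s + 1)).sup (fun i => ⌈wa (P.gs i) P.θ⌉₊) + 1, by omega, fun i hi => ?_⟩
    have h1 : ⌈wa (P.gs i) P.θ⌉₊ ≤ (Finset.range (s + 1)).sup (fun i => ⌈wa (P.gs i) P.θ⌉₊) :=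
      Finset.le_sup (f := fun i => ⌈wa (P.gs i) P.θ⌉₊) (Finset.mem_range.2 (by omega))
    have h2 := Nat.le_ceil (wa (P.gs i) P.θ)
    have h3 : ((⌈wa (P.gs i) P.θ⌉₊ : ℕ) : ℝ) ≤
      (((Finset.range (s + 1)).sup (fun i => ⌈wa (P.gs i) P.θ⌉₊) : ℕ) : ℝ) := by exact_mod_cast h1
    push_cast
    linarith
  refine ⟨M, ?_⟩
  rintro ⟨x, hxd, hxE⟩
  obtain ⟨hemb, k0, hcl0⟩ := h M
  set Y : Rg ℕ ℕ := (Finset.Icc 1 M, Finset.range (s + 1)) with hYdef
  set fv : ℕ → ℕ := fun v => y (v - 1) with hfv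
  obtain ⟨k, hk0, hxk'⟩ := Gen.exists_stage hP hG {x} (by
    intro z hz; rw [Finset.mem_singleton] at hz; subst hz; exact hxd) k0
  have hxk : x ∈ (D k).1 := hxk' (Finset.mem_singleton_self x)
  have hcl : ClL P Set.univ P.θ S (D k) (im fv e Y) := Gen.lift hP hG hk0 hcl0
  have hyZ : ∀ j < M, y j ∈ (im fv e Y).1 := by
    intro j hj
    rw [mem_im1]
    refine ⟨j + 1, ?_, by simp [hfv]⟩
    show j + 1 ∈ Finset.Icc 1 M
    rw [Finset.mem_Icc]; omega
  have hyk : ∀ j < M, y j ∈ (D k).1 := fun j hj => hcl.le.1 (hyZ j hj)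
  have hok : Ok S (D k) := (hG.kl k).ok
  have hcolx : S.col x = true := (hok.bip x hxk (y 0) (hyk 0 (by omega)) (hxE 0 (by omega))).1
  have hcoly : ∀ j < M, S.col (y j) = false := fun j hj => (hok.bip x hxk (y j) (hyk j hj) (hxE j hj)).2
  have hxZ : x ∉ (im fv e Y).1 := by
    intro hx
    rw [mem_im1] at hx
    obtain ⟨v, hv, hvx⟩ := hx
    have hv' : v ∈ Finset.Icc 1 M := hv
    rw [Finset.mem_Icc] at hv'
    have h1 := hcoly (v - 1) (by omega)
    have h2 : y (v - 1) = x := hvx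
    rw [h2, hcolx] at h1
    exact absurd h1 (by decide)
  have hmemY2 : ∀ i ≤ s, i ∈ Y.2 := by
    intro i hi
    show i ∈ Finset.range (s + 1)
    rw [Finset.mem_range]; omega
  have hlev : ∀ i ≤ s, S.lev (e i) = i := fun i hi => hemb.lev i (hmemY2 i hi)
  have hmemZ2 : ∀ i ≤ s, e i ∈ (im fv e Y).2 := fun i hi => mem_im2.2 ⟨i, hmemY2 i hi, rfl⟩
  have hincy : ∀ j < M, ∀ i ≤ s, S.inc (y j) (e i) := by
    intro j hj i hi
    have h1 : j + 1 ∈ Y.1 := by
      show j + 1 ∈ Finset.Icc 1 M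
      rw [Finset.mem_Icc]; omega
    have h2 := (hemb.inc (j + 1) h1 i (hmemY2 i hi)).2 trivial
    simpa [hfv] using h2
  have hinj : Set.InjOn y (Finset.range M : Set ℕ) := by
    intro i hi j hj hij
    have hi' : i < M := by simpa using hi
    have hj' : j < M := by simpa using hj
    have h1 : i + 1 ∈ Y.1 := by
      show i + 1 ∈ Finset.Icc 1 M
      rw [Finset.mem_Icc]; omega
    have h2 : j + 1 ∈ Y.1 := by
      show j + 1 ∈ Finset.Icc 1 M
      rw [Finset.mem_Icc]; omega
    have h3 := hemb.inj_v (by exact_mod_cast h1) (by exact_mod_cast h2) (by simpa [hfv] using hij)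
    omega
  set T : Finset ℕ := (Finset.range M).image y with hTdef
  have hTcard : T.card = M := by
    rw [hTdef, Finset.card_image_of_injOn hinj, Finset.card_range]
  -- the step at level `i`
  have hstep : ∀ i ≤ s, S.inc x (e i) → ∃ c ∈ (reg S (im fv e Y) (e i)).2, S.inc x c := by
    intro i hi hxi
    by_contra hcon
    push Not at hcon
    have hclE : Cl S.toGeo (P.gs i + 1) (wa (P.gs i) P.θ) (wb (P.gs i) P.θ) (reg S (D k) (e i))
        (reg S (im fv e Y) (e i)) := by
      have := hcl.cl (e i) (hmemZ2 i hi) (Set.mem_univ _)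
      rw [hlev i hi] at this
      exact this
    have h1 := Incons_step (wt_Wt hP.θ_pos.le hP.θ_lt.le) hclE (x := x) (mem_reg1.2 ⟨hxk, hxi⟩)
      (fun hx => hxZ (mem_reg1.1 hx).1) (mm_eq_zero_iff.2 hcon) (T := T) (by
        intro v hv
        rw [hTdef, Finset.mem_image] at hv
        obtain ⟨j, hj, rfl⟩ := hv
        rw [Finset.mem_range] at hj
        exact mem_reg1.2 ⟨hyZ j hj, hincy j hj i hi⟩) (by
        intro v hv
        rw [hTdef, Finset.mem_image] at hv
        obtain ⟨j, hj, rfl⟩ := hv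
        rw [Finset.mem_range] at hj
        exact hxE j hj)
    rw [hTcard] at h1
    have := hM i hi
    linarith
  -- the children of `e i` are `e (i+1)`
  have hchild : ∀ i ≤ s, ∀ c ∈ (reg S (im fv e Y) (e i)).2, i < s ∧ c = e (i + 1) := by
    intro i hi c hc
    rw [mem_reg2] at hc
    obtain ⟨hc1, hc2, hc3⟩ := hc
    rw [mem_im2] at hc1
    obtain ⟨d, hd, rfl⟩ := hc1
    have hd' : d ∈ Finset.range (s + 1) := hd
    rw [Finset.mem_range] at hd'
    have hroot : e 0 = S.root := hemb.root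
    have hd0 : d ≠ 0 := by
      rintro rfl
      exact hc3 hroot
    have hpar : S.par (e d) = e (d - 1) := hemb.par d hd
    rw [hpar] at hc2
    have h1 : S.lev (e (d - 1)) = d - 1 := hlev (d - 1) (by omega)
    rw [hc2, hlev i hi] at h1
    have h2 : d = i + 1 := by omega
    subst h2
    exact ⟨by omega, rfl⟩
  have hclaim : ∀ i ≤ s, S.inc x (e i) := by
    intro i
    induction i with
    | zero =>
      intro _
      have hroot : e 0 = S.root := hemb.root
      rw [hroot]
      exact hok.inc_root x hxk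
    | succ i ih =>
      intro hi
      obtain ⟨c, hc, hxc⟩ := hstep i (by omega) (ih (by omega))
      obtain ⟨-, rfl⟩ := hchild i (by omega) c hc
      exact hxc
  obtain ⟨c, hc, -⟩ := hstep s le_rfl (hclaim s le_rfl)
  exact absurd (hchild s le_rfl c hc).1 (lt_irrefl s)

end Pool.Low
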