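import Pool.Agent.helper24.Low.Basic

/-!
# Module LA1 (Ins): insertion formulas

All statements are double counting.
-/

set_option autoImplicit false

namespace Pool.Low

open scoped Classical

variable {V C : Type} [DecidableEq V] [DecidableEq C]

/-- double counting of incidences -/
theorem sum_mm (G : Geo V C) (X : Finset V) (P : Rg V C) :
    ∑ v ∈ X, mm G P v = ∑ c ∈ P.2, (tr G X c).card := by
  unfold mm tr
  simp only [Finset.card_filter]
  exact Finset.sum_comm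

theorem Ins_ed_tr (G : Geo V C) (X : Finset V) (c : C) :
    ed G (tr G X c) = (ed G X).filter (fun p => G.inc p.1 c ∧ G.inc p.2 c) := by
  ext p
  rw [mem_ed, mem_tr, mem_tr, Finset.mem_filter, mem_ed]
  tauto

/-- double counting of (edge, block) flags -/
theorem sum_m2 (G : Geo V C) (X : Finset V) (P : Rg V C) :
    ∑ p ∈ ed G X, m2 G P p.1 p.2 = ∑ c ∈ P.2, (ed G (tr G X c)).card := by
  simp only [Ins_ed_tr]
  unfold m2
  simp only [Finset.card_filter]
  exact Finset.sum_comm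

/-- `del` written block by block -/
theorem del_formula (G : Geo V C) (a b : ℝ) (P : Rg V C) :
    del G a b P = a * (P.1.card : ℝ) - ((ed G P.1).card : ℝ)
      + ∑ c ∈ P.2, (b - a * ((tr G P.1 c).card : ℝ) + ((ed G (tr G P.1 c)).card : ℝ)) := by
  have h1 : ∑ v ∈ P.1, (mm G P v : ℝ) = ∑ c ∈ P.2, ((tr G P.1 c).card : ℝ) := by
    exact_mod_cast sum_mm G P.1 P
  have h2 : ∑ p ∈ ed G P.1, (m2 G P p.1 p.2 : ℝ) = ∑ c ∈ P.2, ((ed G (tr G P.1 c)).card : ℝ) := by
    exact_mod_cast sum_m2 G P.1 P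
  unfold del
  rw [Finset.sum_sub_distrib, Finset.sum_sub_distrib, h1, h2, Finset.sum_add_distrib,
    Finset.sum_sub_distrib, ← Finset.mul_sum]
  simp only [Finset.sum_const, nsmul_eq_mul, mul_one]
  ring

/-- adding new blocks (immediate from `del_formula`) -/
theorem del_add_blocks (G : Geo V C) (a b : ℝ) (P : Rg V C) (Y : Finset C) (hY : Disjoint P.2 Y) :
    del G a b (P.1, P.2 ∪ Y) =
      del G a b P + ∑ c ∈ Y, (b - a * ((tr G P.1 c).card : ℝ) + ((ed G (tr G P.1 c)).card : ℝ)) := by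
  rw [del_formula, del_formula G a b P]
  have h : ∑ c ∈ P.2 ∪ Y, (b - a * ((tr G P.1 c).card : ℝ) + ((ed G (tr G P.1 c)).card : ℝ)) =
      ∑ c ∈ P.2, (b - a * ((tr G P.1 c).card : ℝ) + ((ed G (tr G P.1 c)).card : ℝ)) +
      ∑ c ∈ Y, (b - a * ((tr G P.1 c).card : ℝ) + ((ed G (tr G P.1 c)).card : ℝ)) := by
    convert Finset.sum_union hY
  dsimp only
  rw [h]
  ring

/-- adding new vertices -/
theorem del_add_vertices (G : Geo V C) (a b : ℝ) (P : Rg V C) (U : Finset V) (hU : Disjoint P.1 U) :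
    del G a b (P.1 ∪ U, P.2) =
      del G a b P + a * ∑ u ∈ U, (1 - (mm G P u : ℝ))
        - ∑ p ∈ ed G (P.1 ∪ U) \ ed G P.1, (1 - (m2 G P p.1 p.2 : ℝ)) := by
  unfold del
  dsimp only
  have h0 : ∀ v, mm G (P.1 ∪ U, P.2) v = mm G P v := fun v => mm_congr rfl v
  have h0' : ∀ u v, m2 G (P.1 ∪ U, P.2) u v = m2 G P u v := fun u v => m2_congr rfl u v
  simp only [h0, h0']
  have h1 : ∑ v ∈ P.1 ∪ U, (1 - (mm G P v : ℝ)) =
      ∑ v ∈ P.1, (1 - (mm G P v : ℝ)) + ∑ v ∈ U, (1 - (mm G P v : ℝ)) := by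
    convert Finset.sum_union hU
  have hsub : ed G P.1 ⊆ ed G (P.1 ∪ U) := ed_mono Finset.subset_union_left
  have h2 : ∑ p ∈ ed G (P.1 ∪ U) \ ed G P.1, (1 - (m2 G P p.1 p.2 : ℝ)) +
      ∑ p ∈ ed G P.1, (1 - (m2 G P p.1 p.2 : ℝ)) =
      ∑ p ∈ ed G (P.1 ∪ U), (1 - (m2 G P p.1 p.2 : ℝ)) := by
    convert Finset.sum_sdiff hsub
  rw [h1, ← h2]
  ring

end Pool.Low
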