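import Pool.Agent.helper24.Low.Sub

/-!
# Module LA6 (Lat): full sets, closed sets: restriction, transitivity, intersection, closure
-/

set_option autoImplicit false

namespace Pool.Low

open scoped Classical

variable {V C : Type} [DecidableEq V] [DecidableEq C]

theorem full_self (G : Geo V C) (n : ℕ) (D : Rg V C) : Full G n D D :=
  ⟨le_refl D, fun _ hc _ => hc⟩

theorem cl_self (G : Geo V C) (n : ℕ) (a b : ℝ) (D : Rg V C) : Cl G n a b D D :=
  ⟨full_self G n D, fun Z hZ hDZ => by rw [le_antisymm hDZ hZ.1]⟩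

theorem bip_mono {G : Geo V C} {X Y : Finset V} (h : X ⊆ Y) (hY : Bip G Y) : Bip G X :=
  fun u hu v hv he => hY u (h hu) v (h hv) he

theorem ls_mono {G : Geo V C} {n : ℕ} {P D : Rg V C} (h : P ≤ D) (hD : LS G n D) : LS G n P := by
  intro c hc c' hc' hne
  exact le_trans (Finset.card_le_card (Finset.filter_subset_filter _ h.1)) (hD c (h.2 hc) c' (h.2 hc') hne)

theorem full_trans {G : Geo V C} {n : ℕ} {D P Z : Rg V C} (hP : Full G n D P) (hZ : Full G n P Z) :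
    Full G n D Z := by
  refine ⟨le_trans hZ.1 hP.1, fun c hc hcard => ?_⟩
  have h1 : c ∈ P.2 := hP.2 c hc (le_trans hcard (Finset.card_le_card (tr_mono hZ.1.1 c)))
  exact hZ.2 c h1 hcard

theorem full_restrict {G : Geo V C} {n : ℕ} {D P Z : Rg V C} (hZ : Full G n D Z) (hP : P ≤ D) :
    Full G n P (Z ⊓ P) := by
  refine ⟨inf_le_right, fun c hc hcard => ?_⟩
  rw [mem_inf2]
  refine ⟨hZ.2 c (hP.2 hc) (le_trans hcard (Finset.card_le_card (tr_mono ?_ c))), hc⟩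
  exact (inf_le_left : Z ⊓ P ≤ Z).1

theorem full_of_le {G : Geo V C} {n : ℕ} {D P Z : Rg V C} (hZ : Full G n D Z) (hP : P ≤ D) (hZP : Z ≤ P) :
    Full G n P Z :=
  ⟨hZP, fun c hc hcard => hZ.2 c (hP.2 hc) hcard⟩

theorem full_inf {G : Geo V C} {n : ℕ} {D P Q : Rg V C} (hP : Full G n D P) (hQ : Full G n D Q) :
    Full G n D (P ⊓ Q) := by
  refine ⟨le_trans inf_le_left hP.1, fun c hc hcard => mem_inf2.2 ⟨?_, ?_⟩⟩
  · exact hP.2 c hc (le_trans hcard (Finset.card_le_card (tr_mono (inf_le_left : P ⊓ Q ≤ P).1 c)))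
  · exact hQ.2 c hc (le_trans hcard (Finset.card_le_card (tr_mono (inf_le_right : P ⊓ Q ≤ Q).1 c)))

theorem pp_full {G : Geo V C} {n : ℕ} {a b : ℝ} {D P : Rg V C} (hD : PP G n a b D) (hP : Full G n D P) :
    PP G n a b P :=
  ⟨bip_mono hP.1.1 hD.1, ls_mono hP.1 hD.2.1, fun Z hZ => hD.2.2 Z (full_trans hP hZ)⟩

/-- `del W ≤ del (hull (P ⊔ W)) ≤ del (P ⊔ W)` (`hull_del_sup`). -/
theorem del_le_sup {G : Geo V C} {n : ℕ} {a b : ℝ} (h : Wt n a b) {D P W : Rg V C}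
    (hP : Full G n D P) (hW : Cl G n a b D W) : del G a b W ≤ del G a b (P ⊔ W) := by
  have h1 := hull_del_sup h hP hW.1
  have hle : P ⊔ W ≤ D := sup_le hP.1 hW.1.1
  have h2 := hW.2 (hull G n D (P ⊔ W)) (hull_full hle) (le_trans le_sup_right (le_hull hle))
  have h3 : (0 : ℝ) ≤ (((hull G n D (P ⊔ W)).2 \ (P ⊔ W).2).card : ℝ) := Nat.cast_nonneg _
  linarith

/-- from `sub` and `del_le_sup` (all the other terms in `sub` are nonnegative) -/
theorem del_inf_le {G : Geo V C} {n : ℕ} {a b : ℝ} (h : Wt n a b) {D P W : Rg V C} (hD : PP G n a b D)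
    (hP : Full G n D P) (hW : Cl G n a b D W) : del G a b (P ⊓ W) ≤ del G a b P := by
  have h1 := sub h hD hP hW
  have h2 := del_le_sup h hP hW
  have hn : (0 : ℝ) ≤ n := Nat.cast_nonneg n
  have h3 : 0 ≤ a - 4 * n - 4 := by
    have := h.big
    nlinarith
  have h4 : 0 ≤ (a - 4 * n - 4) * (crossInc G P W : ℝ) := mul_nonneg h3 (Nat.cast_nonneg _)
  have h5 : (0 : ℝ) ≤ (bare G P W : ℝ) := Nat.cast_nonneg _
  linarith

/-- If `Z` is full in `P` and `B ⊓ P ≤ Z` then `Z ⊓ B = B ⊓ P`, so `del (B ⊓ P) ≤ del Z` by `del_inf_le`. -/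
theorem cl_restrict {G : Geo V C} {n : ℕ} {a b : ℝ} (h : Wt n a b) {D P B : Rg V C} (hD : PP G n a b D)
    (hB : Cl G n a b D B) (hP : Full G n D P) : Cl G n a b P (B ⊓ P) := by
  refine ⟨full_restrict hB.1 hP.1, fun Z hZ hBZ => ?_⟩
  have h1 := del_inf_le h hD (full_trans hP hZ) hB
  have h2 : Z ⊓ B = B ⊓ P :=
    le_antisymm (le_inf inf_le_right (le_trans inf_le_left hZ.1)) (le_inf hBZ inf_le_left)
  rwa [h2] at h1

theorem cl_of_le {G : Geo V C} {n : ℕ} {a b : ℝ} {D P B : Rg V C}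
    (hB : Cl G n a b D B) (hP : Full G n D P) (hBP : B ≤ P) : Cl G n a b P B :=
  ⟨full_of_le hB.1 hP.1 hBP, fun Z hZ hBZ => hB.2 Z (full_trans hP hZ) hBZ⟩

/-- If `Z` is full in `D` and `A ≤ Z`, then `Z ⊓ B` is full in `B` and contains `A`, so
`del A ≤ del (Z ⊓ B) ≤ del Z` (`del_inf_le`). -/
theorem cl_trans {G : Geo V C} {n : ℕ} {a b : ℝ} (h : Wt n a b) {D A B : Rg V C} (hD : PP G n a b D)
    (hB : Cl G n a b D B) (hA : Cl G n a b B A) : Cl G n a b D A := by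
  refine ⟨full_trans hB.1 hA.1, fun Z hZ hAZ => ?_⟩
  have h1 := del_inf_le h hD hZ hB
  have h2 : Full G n B (Z ⊓ B) := full_restrict hZ hB.1.1
  exact le_trans (hA.2 _ h2 (le_inf hAZ hA.1.1)) h1

theorem cl_inf {G : Geo V C} {n : ℕ} {a b : ℝ} (h : Wt n a b) {D A B : Rg V C} (hD : PP G n a b D)
    (hA : Cl G n a b D A) (hB : Cl G n a b D B) : Cl G n a b D (A ⊓ B) :=
  cl_trans h hD hB (cl_restrict h hD hA hB.1)

theorem cl_of_min {G : Geo V C} {n : ℕ} {a b : ℝ} {D T Z : Rg V C} (hZ : Full G n D Z) (hT : T ≤ Z)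
    (hmin : ∀ Z', Full G n D Z' → T ≤ Z' → del G a b Z ≤ del G a b Z') : Cl G n a b D Z :=
  ⟨hZ, fun Z' hZ' hle => hmin Z' hZ' (le_trans hT hle)⟩

/-- **Closure.**  `R` = a smallest closed set above `T` (`D` is closed; closed sets are stable under `⊓`; regions below `D` are
finitely many, e.g. take a closed `R ≥ T` with `|R.1| + |R.2|` minimal).  Among all full `Z ≥ T` take one, `Z0`, with minimal `del`;
it is closed by `cl_of_min`, so `R ≤ Z0` and `del R ≤ del Z0` because `R` is closed and `Z0` is full. -/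
theorem exists_closure {G : Geo V C} {n : ℕ} {a b : ℝ} (h : Wt n a b) {D T : Rg V C} (hD : PP G n a b D)
    (hT : T ≤ D) :
    ∃ R, Cl G n a b D R ∧ T ≤ R ∧ (∀ Z, Cl G n a b D Z → T ≤ Z → R ≤ Z) ∧
      ∀ Z, Full G n D Z → T ≤ Z → del G a b R ≤ del G a b Z := by
  have hex : ∃ k : ℕ, ∃ R, Cl G n a b D R ∧ T ≤ R ∧ R.1.card + R.2.card = k :=
    ⟨_, D, cl_self G n a b D, hT, rfl⟩
  obtain ⟨R, hR, hTR, hk⟩ := Nat.find_spec hex
  have hmin : ∀ Z, Cl G n a b D Z → T ≤ Z → R ≤ Z := by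
    intro Z hZ hTZ
    have h1 : Cl G n a b D (R ⊓ Z) := cl_inf h hD hR hZ
    have h2 : Nat.find hex ≤ (R ⊓ Z).1.card + (R ⊓ Z).2.card :=
      Nat.find_min' hex ⟨_, h1, le_inf hTR hTZ, rfl⟩
    have h3 : (R ⊓ Z).1 ⊆ R.1 := (inf_le_left : R ⊓ Z ≤ R).1
    have h4 : (R ⊓ Z).2 ⊆ R.2 := (inf_le_left : R ⊓ Z ≤ R).2
    have h5 := Finset.card_le_card h3
    have h6 := Finset.card_le_card h4
    have h7 : (R ⊓ Z).1 = R.1 := Finset.eq_of_subset_of_card_le h3 (by omega)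
    have h8 : (R ⊓ Z).2 = R.2 := Finset.eq_of_subset_of_card_le h4 (by omega)
    have h9 : R ⊓ Z = R := Prod.ext h7 h8
    rw [← h9]
    exact inf_le_right
  refine ⟨R, hR, hTR, hmin, ?_⟩
  intro Z hZ hTZ
  have hF : ((D.1.powerset ×ˢ D.2.powerset).filter (fun Z : Rg V C => Full G n D Z ∧ T ≤ Z)).Nonempty := by
    refine ⟨D, ?_⟩
    simp only [Finset.mem_filter, Finset.mem_product, Finset.mem_powerset]
    exact ⟨⟨Finset.Subset.refl _, Finset.Subset.refl _⟩, full_self G n D, hT⟩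
  obtain ⟨Z0, hZ0, hm⟩ := Finset.exists_min_image _ (fun Z : Rg V C => del G a b Z) hF
  simp only [Finset.mem_filter, Finset.mem_product, Finset.mem_powerset] at hZ0 hm
  have hcl : Cl G n a b D Z0 := cl_of_min hZ0.2.1 hZ0.2.2
    (fun Z' hZ' hTZ' => hm Z' ⟨⟨hZ'.1.1, hZ'.1.2⟩, hZ', hTZ'⟩)
  have hRZ0 : R ≤ Z0 := hmin Z0 hcl hZ0.2.2
  exact le_trans (hR.2 Z0 hZ0.2.1 hRZ0) (hm Z ⟨⟨hZ.1.1, hZ.1.2⟩, hZ, hTZ⟩)

end Pool.Low
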