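import Pool.Agent.helper24.Low.Anc

/-!
# Module ML3b (Step): closing the next level

`R` is closed in `D` at the levels `< i` and has only blocks of level `≤ i`.  For every block `e ∈ R.2` of level `i` a closed region
`K e` of the geometry `reg S D e` is given, containing `reg S R e`.  Put `N = {e ∈ R.2 | lev e = i}` and

  `R' = (R.1 ∪ ⋃_{e ∈ N} (K e).1, R.2 ∪ ⋃_{e ∈ N} (K e).2)`.

* `K e ≤ reg S D e`, so new vertices in `(K e).1` are in `e`, new blocks in `(K e).2` are children of `e` in `D`, of level `i+1`.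
* `Ok S R'`: `ok_of_le`.
* Let `e ∈ R.2` with `lev e = i`.  `reg S R' e = K e`: a vertex `v ∈ (K e').1 \ R.1`, `e' ∈ N`, which is in `e` satisfies `e' = e` by
  `unique_anc`; a vertex of `R.1` in `e` is in `(reg S R e).1 ⊆ (K e).1`; a child of `e` in `R'` is not in `R` (level `i+1`), so it is in
  `(K e').2` with `e' = par = e`.
* Let `e ∈ R.2` with `lev e < i`.  The children of `e` in `R'` are those in `R` (levels).  `reg S R' e = ((reg S R e).1 ∪ T, (reg S R e).2)`,
  `T` = vertices of `R'.1` in `e`.  Every `v ∈ T \ R.1` is in `(K e').1` for some `e' ∈ N`, so it is in `e'`; the ancestor `c` of `e'` of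
  level `lev e + 1` is in `R.2` and contains `v` (`anc_exists` for `R`... use `Ok S D` for the incidence), and its parent is a block of
  `R` of level `lev e` containing `v`, so it is `e` (`unique_anc`).  So `v` is in a block of `reg S R e`, and `cl_add_trivial`
  applies: `reg S R' e` is closed in `reg S D e`, with the same `dl`.
-/

set_option autoImplicit false

namespace Pool.Low

open scoped Classical

variable {V C : Type} [DecidableEq V] [DecidableEq C]
variable {P : Par} {t : ℝ} {S : Sys V C} {i : ℕ}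

/-- the next level: add the vertices and blocks of `K e` for the blocks `e` of level `i` -/
private noncomputable def nxt (S : Sys V C) (i : ℕ) (R : Rg V C) (K : C → Rg V C) : Rg V C :=
  (R.1 ∪ (R.2.filter (fun e => S.lev e = i)).biUnion (fun e => (K e).1),
    R.2 ∪ (R.2.filter (fun e => S.lev e = i)).biUnion (fun e => (K e).2))

private theorem mem_nxt1 {R : Rg V C} {K : C → Rg V C} {v : V} :
    v ∈ (nxt S i R K).1 ↔ v ∈ R.1 ∨ ∃ e ∈ R.2, S.lev e = i ∧ v ∈ (K e).1 := by
  simp [nxt, and_assoc]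

private theorem mem_nxt2 {R : Rg V C} {K : C → Rg V C} {c : C} :
    c ∈ (nxt S i R K).2 ↔ c ∈ R.2 ∨ ∃ e ∈ R.2, S.lev e = i ∧ c ∈ (K e).2 := by
  simp [nxt, and_assoc]

/-- a block of level `lev e + 1` of `R` which contains a vertex `v ∉ R.1` of `e` and lies above a given block `e'` containing `v` -/
private theorem child_above (hP : Good0 P) (h0 : 0 ≤ t) (h1 : t ≤ P.θ) {D R : Rg V C} (hD : KL P (Set.Iio i) S D)
    (hR : ClL P (Set.Iio i) t S D R) {v : V} (hv : v ∈ D.1) (hvR : v ∉ R.1) {e e' : C} (he : e ∈ R.2) (he' : e' ∈ R.2)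
    (hlt : S.lev e < S.lev e') (hi : S.lev e ≤ i) (h2 : S.inc v e) (h3 : S.inc v e') :
    1 ≤ mm S.toGeo (reg S R e) v := by
  obtain ⟨m, hm1, hm2, hm3, -⟩ := anc_exists hR.ok he' (l := S.lev e + 1) hlt
  obtain ⟨m', -, -, hm3', hm4'⟩ := anc_exists hD.ok (hR.le.2 he') (l := S.lev e + 1) hlt
  have hmm : m' = m := by omega
  subst hmm
  have hinc := hm4' v hv h3
  have hne : S.par^[m'] e' ≠ S.root := by
    intro h
    rw [h, hD.ok.lev_root] at hm1
    omega
  have hlp := hD.ok.lev_par _ (hR.le.2 hm2) hne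
  have hpe : S.par (S.par^[m'] e') = e := by
    apply unique_anc hP h0 h1 hD hR hv hvR (hR.ok.par_mem _ hm2) he
    · omega
    · omega
    · exact hD.ok.inc_par v hv _ (hR.le.2 hm2) hinc
    · exact h2
  rw [mm_pos_iff]
  exact ⟨_, mem_reg2.2 ⟨hm2, hpe, hne⟩, hinc⟩

theorem close_step (hP : Good0 P) (h0 : 0 ≤ t) (h1 : t ≤ P.θ) {D R : Rg V C} (hD : KL P (Set.Iio (i + 1)) S D)
    (hR : ClL P (Set.Iio i) t S D R) (hlev : ∀ c ∈ R.2, S.lev c ≤ i) (K : C → Rg V C)
    (hK : ∀ e ∈ R.2, S.lev e = i → ClT S.toGeo (P.gs i) t (reg S D e) (K e) ∧ reg S R e ≤ K e) :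
    ∃ R', ClL P (Set.Iio (i + 1)) t S D R' ∧ R ≤ R' ∧ (∀ c ∈ R'.2, S.lev c ≤ i + 1) ∧
      (∀ e ∈ R.2, S.lev e = i → reg S R' e = K e) ∧
      (∀ c ∈ R'.2, S.lev c ≤ i → c ∈ R.2) ∧
      (∀ e ∈ R.2, S.lev e < i → dl S.toGeo (P.gs (S.lev e)) t (reg S R' e) = dl S.toGeo (P.gs (S.lev e)) t (reg S R e)) ∧
      (∀ v ∈ R'.1, v ∈ R.1 ∨ ∃ e ∈ R.2, S.lev e = i ∧ v ∈ (K e).1) ∧
      (∀ c ∈ R'.2, c ∈ R.2 ∨ ∃ e ∈ R.2, S.lev e = i ∧ c ∈ (K e).2) := by
  have hDi : KL P (Set.Iio i) S D := hD.act_mono (Set.Iio_subset_Iio (Nat.le_succ i))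
  have hKv : ∀ e ∈ R.2, S.lev e = i → ∀ v ∈ (K e).1, v ∈ D.1 ∧ S.inc v e := by
    intro e he hei v hv
    exact mem_reg1.1 ((hK e he hei).1.1.1.1 hv)
  have hKc : ∀ e ∈ R.2, S.lev e = i → ∀ c ∈ (K e).2, c ∈ D.2 ∧ S.par c = e ∧ c ≠ S.root := by
    intro e he hei c hc
    exact mem_reg2.1 ((hK e he hei).1.1.1.2 hc)
  have hKl : ∀ e ∈ R.2, S.lev e = i → ∀ c ∈ (K e).2, S.lev c = i + 1 := by
    intro e he hei c hc
    obtain ⟨a1, a2, a3⟩ := hKc e he hei c hc
    rw [hD.ok.lev_par c a1 a3, a2, hei]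
  have hle : nxt S i R K ≤ D := by
    constructor
    · intro v hv
      rcases mem_nxt1.1 hv with h | ⟨e, he, hei, h⟩
      · exact hR.le.1 h
      · exact (hKv e he hei v h).1
    · intro c hc
      rcases mem_nxt2.1 hc with h | ⟨e, he, hei, h⟩
      · exact hR.le.2 h
      · exact (hKc e he hei c h).1
  have hRle : R ≤ nxt S i R K := by
    constructor
    · intro v hv
      exact mem_nxt1.2 (Or.inl hv)
    · intro c hc
      exact mem_nxt2.2 (Or.inl hc)
  have hok : Ok S (nxt S i R K) := by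
    apply ok_of_le hD.ok hle
    · exact mem_nxt2.2 (Or.inl hR.ok.root_mem)
    · intro c hc
      rcases mem_nxt2.1 hc with h | ⟨e, he, hei, h⟩
      · exact mem_nxt2.2 (Or.inl (hR.ok.par_mem c h))
      · rw [(hKc e he hei c h).2.1]
        exact mem_nxt2.2 (Or.inl he)
  have hlow : ∀ c ∈ (nxt S i R K).2, S.lev c ≤ i → c ∈ R.2 := by
    intro c hc hci
    rcases mem_nxt2.1 hc with h | ⟨e, he, hei, h⟩
    · exact h
    · have := hKl e he hei c h
      omega
  have hregi : ∀ e ∈ R.2, S.lev e = i → reg S (nxt S i R K) e = K e := by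
    intro e he hei
    apply rg_ext
    · intro v
      rw [mem_reg1, mem_nxt1]
      constructor
      · rintro ⟨h | ⟨e', he', hei', h⟩, hinc⟩
        · exact (hK e he hei).2.1 (mem_reg1.2 ⟨h, hinc⟩)
        · by_cases hvR : v ∈ R.1
          · exact (hK e he hei).2.1 (mem_reg1.2 ⟨hvR, hinc⟩)
          · obtain ⟨b1, b2⟩ := hKv e' he' hei' v h
            have : e' = e := unique_anc hP h0 h1 hDi hR b1 hvR he' he (by rw [hei', hei]) (by rw [hei']) b2 hinc
            rw [← this]
            exact h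
      · intro h
        exact ⟨Or.inr ⟨e, he, hei, h⟩, (hKv e he hei v h).2⟩
    · intro c
      rw [mem_reg2, mem_nxt2]
      constructor
      · rintro ⟨h | ⟨e', he', hei', h⟩, hpar, hne⟩
        · exfalso
          have h5 := hD.ok.lev_par c (hR.le.2 h) hne
          have h6 := hlev c h
          rw [hpar, hei] at h5
          omega
        · have : e' = e := by rw [← hpar, (hKc e' he' hei' c h).2.1]
          rw [← this]
          exact h
      · intro h
        obtain ⟨-, b2, b3⟩ := hKc e he hei c h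
        exact ⟨Or.inr ⟨e, he, hei, h⟩, b2, b3⟩
  have hreglt : ∀ e ∈ R.2, S.lev e < i →
      ClT S.toGeo (P.gs (S.lev e)) t (reg S D e) (reg S (nxt S i R K) e) ∧
      dl S.toGeo (P.gs (S.lev e)) t (reg S (nxt S i R K) e) = dl S.toGeo (P.gs (S.lev e)) t (reg S R e) := by
    intro e he hlt
    have hreg : reg S (nxt S i R K) e =
        ((reg S R e).1 ∪ ((nxt S i R K).1.filter (fun v => v ∉ R.1 ∧ S.inc v e)), (reg S R e).2) := by
      apply rg_ext
      · intro v
        rw [mem_reg1]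
        simp only [Finset.mem_union, Finset.mem_filter, mem_reg1]
        constructor
        · rintro ⟨h3, h4⟩
          by_cases hvR : v ∈ R.1
          · exact Or.inl ⟨hvR, h4⟩
          · exact Or.inr ⟨h3, hvR, h4⟩
        · rintro (⟨h3, h4⟩ | ⟨h3, -, h4⟩)
          · exact ⟨hRle.1 h3, h4⟩
          · exact ⟨h3, h4⟩
      · intro c
        rw [mem_reg2]
        show _ ↔ c ∈ (reg S R e).2
        rw [mem_reg2]
        constructor
        · rintro ⟨h3, h4, h5⟩
          refine ⟨hlow c h3 ?_, h4, h5⟩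
          rw [hD.ok.lev_par c (hle.2 h3) h5, h4]
          omega
        · rintro ⟨h3, h4, h5⟩
          exact ⟨hRle.2 h3, h4, h5⟩
    have hcl := hR.cl e he hlt
    have hpp := hDi.ppt hP h0 h1 (hR.le.2 he) hlt
    have hT : ∀ v ∈ (nxt S i R K).1.filter (fun v => v ∉ R.1 ∧ S.inc v e),
        v ∈ (reg S D e).1 ∧ 1 ≤ mm S.toGeo (reg S R e) v := by
      intro v hv
      rw [Finset.mem_filter] at hv
      obtain ⟨h3, h4, h5⟩ := hv
      refine ⟨mem_reg1.2 ⟨hle.1 h3, h5⟩, ?_⟩
      rcases mem_nxt1.1 h3 with h | ⟨e', he', hei', h⟩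
      · exact absurd h h4
      · obtain ⟨b1, b2⟩ := hKv e' he' hei' v h
        exact child_above hP h0 h1 hDi hR b1 h4 he he' (by omega) hlt.le h5 b2
    have := cl_add_trivial (wt_Wt h0 (h1.trans hP.θ_lt.le)) hpp hcl _ hT
    rw [hreg]
    exact this
  refine ⟨nxt S i R K, ⟨hle, hok, ?_⟩, hRle, ?_, hregi, hlow, fun e he hlt => (hreglt e he hlt).2, ?_, ?_⟩
  · intro e he hei
    have hei' : S.lev e ≤ i := Nat.lt_succ_iff.1 hei
    have heR := hlow e he hei'
    rcases hei'.lt_or_eq with h | h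
    · exact (hreglt e heR h).1
    · rw [hregi e heR h, h]
      exact (hK e heR h).1
  · intro c hc
    rcases mem_nxt2.1 hc with h | ⟨e, he, hei, h⟩
    · exact (hlev c h).trans (Nat.le_succ i)
    · exact (hKl e he hei c h).le
  · intro v hv
    exact mem_nxt1.1 hv
  · intro c hc
    exact mem_nxt2.1 hc

end Pool.Low
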