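import Pool.Agent.helper24.Low.ML1

/-!
# Module TRN: truncation

`trn S s D` forgets the blocks of `D` of level `> s`.  For `e ∈ D.2` with `lev e < s`, the children of `e` in `D` have level
`lev e + 1 ≤ s` (`Ok.lev_par`), so `reg S (trn S s D) e = reg S D e`.
-/

set_option autoImplicit false

namespace Pool.Low

open scoped Classical

variable {V C : Type} [DecidableEq V] [DecidableEq C]
variable {P : Par} {t : ℝ} {S : Sys V C} {s : ℕ}

theorem ok_trn {D : Rg V C} (hD : Ok S D) : Ok S (trn S s D) where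
  root_mem := mem_trn2.2 ⟨hD.root_mem, by rw [hD.lev_root]; exact Nat.zero_le s⟩
  par_mem := by
    intro c hc
    obtain ⟨hc1, hc2⟩ := mem_trn2.1 hc
    by_cases h : c = S.root
    · rw [h, hD.par_root]
      exact mem_trn2.2 ⟨hD.root_mem, by rw [hD.lev_root]; exact Nat.zero_le s⟩
    · have h1 := hD.lev_par c hc1 h
      exact mem_trn2.2 ⟨hD.par_mem c hc1, by omega⟩
  lev_root := hD.lev_root
  par_root := hD.par_root
  lev_par := fun c hc h => hD.lev_par c (mem_trn2.1 hc).1 h
  inc_root := fun v hv => hD.inc_root v hv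
  inc_par := fun v hv c hc h => hD.inc_par v hv c (mem_trn2.1 hc).1 h
  bip := hD.bip

theorem reg_trn {D : Rg V C} (hD : Ok S D) {e : C} (hs : S.lev e < s) :
    reg S (trn S s D) e = reg S D e := by
  apply rg_ext
  · intro v
    rw [mem_reg1, mem_reg1, mem_trn1]
  · intro c
    rw [mem_reg2, mem_reg2, mem_trn2]
    constructor
    · rintro ⟨⟨h1, -⟩, h2, h3⟩
      exact ⟨h1, h2, h3⟩
    · rintro ⟨h1, h2, h3⟩
      have h4 := hD.lev_par c h1 h3
      rw [h2] at h4
      exact ⟨⟨h1, by omega⟩, h2, h3⟩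

theorem trn_eq_self {D : Rg V C} (h : ∀ c ∈ D.2, S.lev c ≤ s) : trn S s D = D := by
  apply rg_ext
  · intro v
    rw [mem_trn1]
  · intro c
    rw [mem_trn2]
    exact ⟨fun hc => hc.1, fun hc => ⟨hc, h c hc⟩⟩

theorem kl_trn {D : Rg V C} (hD : KL P Set.univ S D) : KL P (Set.Iio s) S (trn S s D) where
  ok := ok_trn hD.ok
  kk := by
    intro e he hs
    rw [reg_trn hD.ok hs]
    exact hD.kk e (mem_trn2.1 he).1 (Set.mem_univ _)

theorem clL_trn {D B : Rg V C} (hD : Ok S D) (hB : ClL P Set.univ t S D B) :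
    ClL P (Set.Iio s) t S (trn S s D) (trn S s B) where
  le := trn_mono hB.le
  ok := ok_trn hB.ok
  cl := by
    intro e he hs
    rw [reg_trn hD hs, reg_trn hB.ok hs]
    exact hB.cl e (mem_trn2.1 he).1 (Set.mem_univ _)

/-- A closed region of the truncation, all of whose blocks have level `< s`, is closed at all levels. -/
theorem clL_untrn {D B : Rg V C} (hD : Ok S D) (hB : ClL P (Set.Iio s) t S (trn S s D) B)
    (hlev : ∀ c ∈ B.2, S.lev c < s) : ClL P Set.univ t S D B where
  le := hB.le.trans trn_le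
  ok := hB.ok
  cl := by
    intro e he _
    have h := hB.cl e he (hlev e he)
    rwa [reg_trn hD (hlev e he)] at h

/-- If all blocks of `B` have level `< s` then being closed at the levels `< s` is being closed at all levels. -/
theorem clL_univ_of_lt {D B : Rg V C} (hB : ClL P (Set.Iio s) t S D B) (hlev : ∀ c ∈ B.2, S.lev c < s) :
    ClL P Set.univ t S D B where
  le := hB.le
  ok := hB.ok
  cl := fun e he _ => hB.cl e he (hlev e he)

end Pool.Low
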