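import Pool.Agent.helper24.Low.Fill
import Pool.Agent.helper24.Low.Step
import Pool.Agent.helper24.Low.DvMod
import Pool.Agent.helper24.Low.Dich
import Pool.Agent.helper24.Low.Trn

/-!
# Module ML4c (LevDich): the dichotomy for two closed regions of a multi-level system

`A, W` closed in `D` (levels `< s`; all blocks of `D` have level `≤ s`), `B = A ⊓ W`.  Say that level `j < s` is *good* if for all
`e ∈ B.2` of level `j`: `reg A e ⊔ reg W e` is closed in `reg D e`, `SF (reg A e) (reg W e)`, and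
`dl (reg A e ⊔ reg W e) + dl (reg B e) = dl (reg A e) + dl (reg W e)` (`reg_inf`, `reg_sup`).

(1) If all levels `< i` are good (`i ≤ s`) then there are no cross incidences with blocks of level `≤ i`: let `v ∈ A \ W`,
`c ∈ W.2 \ A.2`, `inc v c`, `lev c ≤ i`; choose such `c` (for this `v`) of minimal level.  `c` is not the root; `p = par c ∈ W.2` contains
`v`; by minimality `p ∈ A.2`; `p ∈ B.2` has level `< i`, good, and `SF.left` at `p` gives a contradiction.
(2) If all levels `< i` are good then `R_i := trn S i (A ⊔ W)` is closed in `D` at the levels `< i`: for `e ∈ B.2` by goodness; for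
`e ∈ A.2 \ W.2`: no vertex of `W \ A` is in `e` (1), no block of `W.2` is a child of `e`, so `reg (A ⊔ W) e = reg A e`.
(`ok_sup`, `ok_trn`, `reg_trn`.)
(3) Suppose all levels `< i` are good and level `i < s` is not.  For `e ∈ B.2` of level `i` let `K e` be the region `Z` of `dichotomy` for
`reg A e, reg W e` in `reg D e`; for `e ∈ A.2 \ W.2` of level `i` let `K e = reg A e`, and symmetrically (again
`reg (A ⊔ W) e = reg A e`).  For some `e ∈ B.2` of level `i` the first alternative of `dichotomy` holds (otherwise the level would be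
good).  `close_step` with `R = R_i` gives `R'`, and `fill_below` gives `E`.  `A ⊔ W ≤ E`: vertices are in `R_i`; blocks of level `≤ i` are
in `R_i`; blocks of level `i+1` are in `(K (par c)).2 = (reg R' (par c)).2`; blocks of higher level have an ancestor of level `i+1` in
`A ⊔ W` (`anc_exists`).  The blocks of `E` of level `j ≤ i` are those of `A ⊔ W`, and `dl (reg E e) = dl (reg R' e)`, which is
`dl (reg R_i e) = dl (reg (A ⊔ W) e)` for level `< i` and `dl (K e)` for level `i`.  Sum over the blocks of level `j`: split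
`(A ⊔ W).2` into `B.2`, `A.2 \ W.2`, `W.2 \ A.2`: for `j < i` equality; for `i` strict inequality.
(4) If all levels `< s` are good, then `E = A ⊔ W = trn S s (A ⊔ W)` is closed by (2) with `i = s`, the equalities hold, and
`SFH (Set.Iio s) S A W`: `left`, `right` by (1) (all blocks have level `≤ s`), `edge` by `SF.edge` at `e`.
-/

set_option autoImplicit false

namespace Pool.Low

open scoped Classical

variable {V C : Type} [DecidableEq V] [DecidableEq C]
variable {P : Par} {t : ℝ} {S : Sys V C} {s : ℕ}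

omit [DecidableEq V] [DecidableEq C] in
/-- no cross incidences at the levels `≤ i` -/
theorem ld_cross {D A W : Rg V C} {i : ℕ} (hD : Ok S D) (hA : Ok S A) (hW : Ok S W) (hAD : A ≤ D) (hWD : W ≤ D)
    (hSF : ∀ e ∈ A.2, e ∈ W.2 → S.lev e < i → SF S.toGeo (reg S A e) (reg S W e)) :
    ∀ l, l ≤ i → ∀ c ∈ W.2, c ∉ A.2 → S.lev c = l → ∀ v ∈ A.1, v ∉ W.1 → ¬ S.inc v c := by
  intro l
  induction l using Nat.strong_induction_on with
  | _ l ih =>
    intro hl c hc hcA hlc v hv hvW hi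
    have hcr : c ≠ S.root := by
      rintro rfl
      exact hcA hA.root_mem
    have hpW : S.par c ∈ W.2 := hW.par_mem c hc
    have hlev : S.lev c = S.lev (S.par c) + 1 := hW.lev_par c hc hcr
    have hip : S.inc v (S.par c) := hD.inc_par v (hAD.1 hv) c (hWD.2 hc) hi
    by_cases hpA : S.par c ∈ A.2
    · have hsf := hSF (S.par c) hpA hpW (by omega)
      refine hsf.left v (mem_reg1.2 ⟨hv, hip⟩) (fun h => hvW (mem_reg1.1 h).1) c
        (mem_reg2.2 ⟨hc, rfl, hcr⟩) (fun h => hcA (mem_reg2.1 h).1) hi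
    · exact ih (S.lev (S.par c)) (by omega) (by omega) (S.par c) hpW hpA rfl v hv hvW hip

/-- the geometry of a block of `A \ W` in `A ⊔ W` -/
theorem ld_reg_left {A W : Rg V C} (hW : Ok S W) {e : C} (heW : e ∉ W.2)
    (hcr : ∀ v ∈ W.1, v ∉ A.1 → ¬ S.inc v e) : reg S (A ⊔ W) e = reg S A e := by
  rw [reg_sup]
  apply sup_eq_left.2
  constructor
  · intro v hv
    rw [mem_reg1] at hv ⊢
    refine ⟨?_, hv.2⟩
    by_contra hvA
    exact hcr v hv.1 hvA hv.2
  · intro c hc
    rw [mem_reg2] at hc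
    exact absurd (hc.2.1 ▸ hW.par_mem c hc.1) heW

theorem ld_reg_right {A W : Rg V C} (hA : Ok S A) {e : C} (heA : e ∉ A.2)
    (hcr : ∀ v ∈ A.1, v ∉ W.1 → ¬ S.inc v e) : reg S (A ⊔ W) e = reg S W e := by
  rw [sup_comm]
  exact ld_reg_left hA heA hcr

/-- summation lemma -/
theorem ld_sum (F G : Finset C) (x y a w : C → ℝ) (h1 : ∀ e ∈ F, e ∉ G → x e = a e)
    (h2 : ∀ e ∈ G, e ∉ F → x e = w e) :
    (∑ e ∈ F, a e + ∑ e ∈ G, w e) - (∑ e ∈ F ∪ G, x e + ∑ e ∈ F ∩ G, y e)
      = ∑ e ∈ F ∩ G, (a e + w e - x e - y e) := by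
  have e1 : ∑ e ∈ F, a e = ∑ e ∈ F ∩ G, a e + ∑ e ∈ F \ G, a e :=
    (Finset.sum_inter_add_sum_sdiff F G a).symm
  have e2 : ∑ e ∈ G, w e = ∑ e ∈ F ∩ G, w e + ∑ e ∈ G \ F, w e := by
    rw [Finset.inter_comm]
    exact (Finset.sum_inter_add_sum_sdiff G F w).symm
  have e3 : ∑ e ∈ F ∪ G, x e = ∑ e ∈ F ∩ G, x e + ∑ e ∈ F \ G, x e + ∑ e ∈ G \ F, x e := by
    have h3 : F ∪ G = F ∪ (G \ F) := (Finset.union_sdiff_self_eq_union).symm
    rw [h3, Finset.sum_union Finset.disjoint_sdiff, Finset.sum_inter_add_sum_sdiff F G x]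
  have e4 : ∑ e ∈ F \ G, x e = ∑ e ∈ F \ G, a e := by
    apply Finset.sum_congr rfl
    intro e he
    rw [Finset.mem_sdiff] at he
    exact h1 e he.1 he.2
  have e5 : ∑ e ∈ G \ F, x e = ∑ e ∈ G \ F, w e := by
    apply Finset.sum_congr rfl
    intro e he
    rw [Finset.mem_sdiff] at he
    exact h2 e he.1 he.2
  rw [e1, e2, e3, e4, e5]
  simp only [Finset.sum_sub_distrib, Finset.sum_add_distrib]
  ring

/-- a good level -/
def LG (P : Par) (t : ℝ) (S : Sys V C) (D A W : Rg V C) (j : ℕ) : Prop :=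
  ∀ e ∈ A.2, e ∈ W.2 → S.lev e = j →
    ClT S.toGeo (P.gs j) t (reg S D e) (reg S A e ⊔ reg S W e) ∧ SF S.toGeo (reg S A e) (reg S W e) ∧
      dl S.toGeo (P.gs j) t (reg S A e ⊔ reg S W e) + dl S.toGeo (P.gs j) t (reg S A e ⊓ reg S W e)
        = dl S.toGeo (P.gs j) t (reg S A e) + dl S.toGeo (P.gs j) t (reg S W e)

/-- the comparison of the total predimensions at one level -/
theorem ld_dv {A W E : Rg V C} {j : ℕ} (hE : ∀ c, S.lev c = j → (c ∈ E.2 ↔ c ∈ A.2 ∨ c ∈ W.2))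
    (h1 : ∀ e ∈ A.2, e ∉ W.2 → S.lev e = j →
      dl S.toGeo (P.gs j) t (reg S E e) = dl S.toGeo (P.gs j) t (reg S A e))
    (h2 : ∀ e ∈ W.2, e ∉ A.2 → S.lev e = j →
      dl S.toGeo (P.gs j) t (reg S E e) = dl S.toGeo (P.gs j) t (reg S W e)) :
    (Dv P t S j A + Dv P t S j W) - (Dv P t S j E + Dv P t S j (A ⊓ W)) =
      ∑ e ∈ A.2.filter (fun e => S.lev e = j) ∩ W.2.filter (fun e => S.lev e = j),
        (dl S.toGeo (P.gs j) t (reg S A e) + dl S.toGeo (P.gs j) t (reg S W e)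
          - dl S.toGeo (P.gs j) t (reg S E e) - dl S.toGeo (P.gs j) t (reg S A e ⊓ reg S W e)) := by
  rw [← ld_sum (A.2.filter (fun e => S.lev e = j)) (W.2.filter (fun e => S.lev e = j))
    (fun e => dl S.toGeo (P.gs j) t (reg S E e))
    (fun e => dl S.toGeo (P.gs j) t (reg S A e ⊓ reg S W e))
    (fun e => dl S.toGeo (P.gs j) t (reg S A e)) (fun e => dl S.toGeo (P.gs j) t (reg S W e))]
  · have e1 : E.2.filter (fun e => S.lev e = j) =
        A.2.filter (fun e => S.lev e = j) ∪ W.2.filter (fun e => S.lev e = j) := by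
      ext c
      simp only [Finset.mem_filter, Finset.mem_union]
      constructor
      · rintro ⟨hc, hl⟩
        rcases (hE c hl).1 hc with h | h
        · exact Or.inl ⟨h, hl⟩
        · exact Or.inr ⟨h, hl⟩
      · rintro (⟨hc, hl⟩ | ⟨hc, hl⟩)
        · exact ⟨(hE c hl).2 (Or.inl hc), hl⟩
        · exact ⟨(hE c hl).2 (Or.inr hc), hl⟩
    have e2 : (A ⊓ W).2.filter (fun e => S.lev e = j) =
        A.2.filter (fun e => S.lev e = j) ∩ W.2.filter (fun e => S.lev e = j) := by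
      ext c
      simp only [Finset.mem_filter, Finset.mem_inter, mem_inf2]
      tauto
    unfold Dv
    rw [e1, e2]
    simp only [reg_inf]
  · intro e he heW
    simp only [Finset.mem_filter] at he heW
    exact h1 e he.1 (fun h => heW ⟨h, he.2⟩) he.2
  · intro e he heA
    simp only [Finset.mem_filter] at he heA
    exact h2 e he.1 (fun h => heA ⟨h, he.2⟩) he.2

/-- if all levels `< i` are good, the truncation of `A ⊔ W` is closed at the levels `< i` -/
theorem ld_closed {D A W : Rg V C} {i : ℕ} (his : i ≤ s) (hD : KL P (Set.Iio s) S D)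
    (hA : ClL P (Set.Iio s) t S D A) (hW : ClL P (Set.Iio s) t S D W) (hg : ∀ j < i, LG P t S D A W j) :
    ClL P (Set.Iio i) t S D (trn S i (A ⊔ W)) := by
  have hok : Ok S (A ⊔ W) := ok_sup hD.ok hA.le hW.le hA.ok hW.ok
  have hSF : ∀ e ∈ A.2, e ∈ W.2 → S.lev e < i → SF S.toGeo (reg S A e) (reg S W e) :=
    fun e h1 h2 h3 => (hg _ h3 e h1 h2 rfl).2.1
  have hc1 := ld_cross hD.ok hA.ok hW.ok hA.le hW.le hSF
  have hc2 := ld_cross hD.ok hW.ok hA.ok hW.le hA.le (fun e h1 h2 h3 => (hSF e h2 h1 h3).symm)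
  refine ⟨le_trans trn_le (sup_le hA.le hW.le), ok_trn hok, ?_⟩
  intro e he hlev
  rw [mem_trn2, mem_sup2] at he
  have hlev' : S.lev e < i := hlev
  rw [reg_trn hok hlev']
  by_cases heA : e ∈ A.2
  · by_cases heW : e ∈ W.2
    · rw [reg_sup]
      exact (hg _ hlev' e heA heW rfl).1
    · rw [ld_reg_left hW.ok heW (fun v hv hvA => hc2 (S.lev e) hlev'.le e heA heW rfl v hv hvA)]
      exact hA.cl e heA (lt_of_lt_of_le hlev' his)
  · have heW : e ∈ W.2 := by tauto
    rw [ld_reg_right hA.ok heA (fun v hv hvW => hc1 (S.lev e) hlev'.le e heW heA rfl v hv hvW)]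
    exact hW.cl e heW (lt_of_lt_of_le hlev' his)

/-- the closed regions at a bad level -/
theorem ld_K (hP : Good0 P) (h0 : 0 ≤ t) (h1 : t ≤ P.θ) {D A W : Rg V C} {i : ℕ} (his : i < s)
    (hD : KL P (Set.Iio s) S D) (hA : ClL P (Set.Iio s) t S D A) (hW : ClL P (Set.Iio s) t S D W)
    (hg : ∀ j < i, LG P t S D A W j) (e : C) (he : e ∈ (A ⊔ W).2) (hlev : S.lev e = i) :
    ∃ Z, ClT S.toGeo (P.gs i) t (reg S D e) Z ∧ reg S (A ⊔ W) e ≤ Z ∧
      (e ∈ A.2 → e ∈ W.2 →
        dl S.toGeo (P.gs i) t Z + dl S.toGeo (P.gs i) t (reg S A e ⊓ reg S W e)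
          < dl S.toGeo (P.gs i) t (reg S A e) + dl S.toGeo (P.gs i) t (reg S W e) ∨
        (dl S.toGeo (P.gs i) t Z + dl S.toGeo (P.gs i) t (reg S A e ⊓ reg S W e)
          = dl S.toGeo (P.gs i) t (reg S A e) + dl S.toGeo (P.gs i) t (reg S W e) ∧
          ClT S.toGeo (P.gs i) t (reg S D e) (reg S A e ⊔ reg S W e) ∧ SF S.toGeo (reg S A e) (reg S W e) ∧
          dl S.toGeo (P.gs i) t (reg S A e ⊔ reg S W e) + dl S.toGeo (P.gs i) t (reg S A e ⊓ reg S W e)
            = dl S.toGeo (P.gs i) t (reg S A e) + dl S.toGeo (P.gs i) t (reg S W e))) ∧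
      (e ∉ W.2 → dl S.toGeo (P.gs i) t Z = dl S.toGeo (P.gs i) t (reg S A e)) ∧
      (e ∉ A.2 → dl S.toGeo (P.gs i) t Z = dl S.toGeo (P.gs i) t (reg S W e)) := by
  have hSF : ∀ e ∈ A.2, e ∈ W.2 → S.lev e < i → SF S.toGeo (reg S A e) (reg S W e) :=
    fun e h1 h2 h3 => (hg _ h3 e h1 h2 rfl).2.1
  have hc1 := ld_cross hD.ok hA.ok hW.ok hA.le hW.le hSF
  have hc2 := ld_cross hD.ok hW.ok hA.ok hW.le hA.le (fun e h1 h2 h3 => (hSF e h2 h1 h3).symm)
  subst hlev
  rw [mem_sup2] at he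
  by_cases heA : e ∈ A.2
  · by_cases heW : e ∈ W.2
    · have hpp := KL.ppt hP hD h0 h1 (hA.le.2 heA) his
      obtain ⟨Z, hZ, hle, hdich⟩ := dichotomy (wt_Wt h0 (le_trans h1 hP.θ_lt.le)) hpp (hA.cl e heA his)
        (hW.cl e heW his)
      refine ⟨Z, hZ, by rw [reg_sup]; exact hle, ?_, fun h => absurd heW h, fun h => absurd heA h⟩
      intro _ _
      rcases hdich with h | ⟨h2, h3, h4⟩
      · exact Or.inl h
      · refine Or.inr ⟨h3, ?_, h4, ?_⟩
        · rw [← h2]; exact hZ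
        · rw [← h2]; exact h3
    · have hr := ld_reg_left (A := A) hW.ok heW
        (fun v hv hvA => hc2 (S.lev e) le_rfl e heA heW rfl v hv hvA)
      exact ⟨reg S A e, hA.cl e heA his, by rw [hr], fun _ h => absurd h heW, fun _ => rfl,
        fun h => absurd heA h⟩
  · have heW : e ∈ W.2 := by tauto
    have hr := ld_reg_right (W := W) hA.ok heA
      (fun v hv hvW => hc1 (S.lev e) le_rfl e heW heA rfl v hv hvW)
    exact ⟨reg S W e, hW.cl e heW his, by rw [hr], fun h => absurd h heA, fun h => absurd heW h,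
      fun _ => rfl⟩

/-- case of a bad level -/
theorem ld_bad (hP : Good0 P) (h0 : 0 ≤ t) (h1 : t ≤ P.θ) {D A W : Rg V C} {i : ℕ} (his : i < s)
    (hD : KL P (Set.Iio s) S D) (hA : ClL P (Set.Iio s) t S D A) (hW : ClL P (Set.Iio s) t S D W)
    (hg : ∀ j < i, LG P t S D A W j) (hb : ¬ LG P t S D A W i) :
    ∃ E, ClL P (Set.Iio s) t S D E ∧ A ⊔ W ≤ E ∧
      (∀ j < i, Dv P t S j E + Dv P t S j (A ⊓ W) = Dv P t S j A + Dv P t S j W) ∧
          Dv P t S i E + Dv P t S i (A ⊓ W) < Dv P t S i A + Dv P t S i W := by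
  have hok : Ok S (A ⊔ W) := ok_sup hD.ok hA.le hW.le hA.ok hW.ok
  have hSF : ∀ e ∈ A.2, e ∈ W.2 → S.lev e < i → SF S.toGeo (reg S A e) (reg S W e) :=
    fun e h1 h2 h3 => (hg _ h3 e h1 h2 rfl).2.1
  have hc1 := ld_cross hD.ok hA.ok hW.ok hA.le hW.le hSF
  have hc2 := ld_cross hD.ok hW.ok hA.ok hW.le hA.le (fun e h1 h2 h3 => (hSF e h2 h1 h3).symm)
  have hK0 : ∀ e, ∃ Z, e ∈ (A ⊔ W).2 → S.lev e = i →
      ClT S.toGeo (P.gs i) t (reg S D e) Z ∧ reg S (A ⊔ W) e ≤ Z ∧
      (e ∈ A.2 → e ∈ W.2 →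
        dl S.toGeo (P.gs i) t Z + dl S.toGeo (P.gs i) t (reg S A e ⊓ reg S W e)
          < dl S.toGeo (P.gs i) t (reg S A e) + dl S.toGeo (P.gs i) t (reg S W e) ∨
        (dl S.toGeo (P.gs i) t Z + dl S.toGeo (P.gs i) t (reg S A e ⊓ reg S W e)
          = dl S.toGeo (P.gs i) t (reg S A e) + dl S.toGeo (P.gs i) t (reg S W e) ∧
          ClT S.toGeo (P.gs i) t (reg S D e) (reg S A e ⊔ reg S W e) ∧ SF S.toGeo (reg S A e) (reg S W e) ∧
          dl S.toGeo (P.gs i) t (reg S A e ⊔ reg S W e) + dl S.toGeo (P.gs i) t (reg S A e ⊓ reg S W e)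
            = dl S.toGeo (P.gs i) t (reg S A e) + dl S.toGeo (P.gs i) t (reg S W e))) ∧
      (e ∉ W.2 → dl S.toGeo (P.gs i) t Z = dl S.toGeo (P.gs i) t (reg S A e)) ∧
      (e ∉ A.2 → dl S.toGeo (P.gs i) t Z = dl S.toGeo (P.gs i) t (reg S W e)) := by
    intro e
    by_cases he : e ∈ (A ⊔ W).2 ∧ S.lev e = i
    · obtain ⟨Z, hZ⟩ := ld_K hP h0 h1 his hD hA hW hg e he.1 he.2
      exact ⟨Z, fun _ _ => hZ⟩
    · exact ⟨⊥, fun h2 h3 => absurd ⟨h2, h3⟩ he⟩
  choose K hK using hK0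
  have hRcl := ld_closed his.le hD hA hW hg
  have hRmem : ∀ c, S.lev c ≤ i → (c ∈ (trn S i (A ⊔ W)).2 ↔ c ∈ (A ⊔ W).2) := by
    intro c hc
    rw [mem_trn2]
    exact ⟨fun h => h.1, fun h => ⟨h, hc⟩⟩
  obtain ⟨R', hR', hRR', hlR', hregR', hlowR', hdlR', -, -⟩ :=
    close_step hP h0 h1 (KL.act_mono (act' := Set.Iio (i + 1)) (by
      intro j hj
      simp only [Set.mem_Iio] at hj ⊢
      omega) hD) hRcl (fun c hc => (mem_trn2.1 hc).2) K (by
      intro e he hlev
      have he' := (mem_trn2.1 he).1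
      refine ⟨(hK e he' hlev).1, le_trans (reg_mono trn_le e) (hK e he' hlev).2.1⟩)
  obtain ⟨E, hE, hR'E, hlowE, hfill, hdlE⟩ := fill_below hP h0 h1 his hD hR' hlR'
  have hAWE : A ⊔ W ≤ E := by
    refine ⟨?_, ?_⟩
    · intro v hv
      exact hR'E.1 (hRR'.1 hv)
    · intro c hc
      by_cases hl : S.lev c ≤ i
      · exact hR'E.2 (hRR'.2 ((hRmem c hl).2 hc))
      · have hl' : i + 1 ≤ S.lev c := by omega
        obtain ⟨m, hm1, hm2, -, -⟩ := anc_exists hok hc hl'
        have hcr : S.par^[m] c ≠ S.root := by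
          intro h
          rw [h, hok.lev_root] at hm1
          omega
        have hpl : S.lev (S.par (S.par^[m] c)) = i := by
          have := hok.lev_par _ hm2 hcr
          omega
        have hpm : S.par (S.par^[m] c) ∈ (A ⊔ W).2 := hok.par_mem _ hm2
        have hpR : S.par (S.par^[m] c) ∈ (trn S i (A ⊔ W)).2 := (hRmem _ hpl.le).2 hpm
        have hmem : S.par^[m] c ∈ (K (S.par (S.par^[m] c))).2 :=
          (hK _ hpm hpl).2.1.2 (mem_reg2.2 ⟨hm2, rfl, hcr⟩)
        rw [← hregR' _ hpR hpl] at hmem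
        have hcR' : S.par^[m] c ∈ R'.2 := (mem_reg2.1 hmem).1
        exact hfill c (sup_le hA.le hW.le |>.2 hc) ⟨m, hcR', hm1⟩
  have hEmem : ∀ c, S.lev c ≤ i → (c ∈ E.2 ↔ c ∈ A.2 ∨ c ∈ W.2) := by
    intro c hc
    rw [← mem_sup2]
    constructor
    · intro h
      exact (hRmem c hc).1 (hlowR' c (hlowE c h (by omega)) hc)
    · intro h
      exact hAWE.2 h
  have hElow : ∀ e, e ∈ (A ⊔ W).2 → S.lev e < i → dl S.toGeo (P.gs (S.lev e)) t (reg S E e)
      = dl S.toGeo (P.gs (S.lev e)) t (reg S (A ⊔ W) e) := by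
    intro e he hl
    have heR : e ∈ (trn S i (A ⊔ W)).2 := (hRmem e hl.le).2 he
    rw [hdlE e (hRR'.2 heR) hl.le, hdlR' e heR hl, reg_trn hok hl]
  have hEi : ∀ e, e ∈ (A ⊔ W).2 → S.lev e = i → dl S.toGeo (P.gs i) t (reg S E e)
      = dl S.toGeo (P.gs i) t (K e) := by
    intro e he hl
    have heR : e ∈ (trn S i (A ⊔ W)).2 := (hRmem e hl.le).2 he
    have h2 := hdlE e (hRR'.2 heR) hl.le
    rw [hl] at h2
    rw [h2, hregR' e heR hl]
  refine ⟨E, hE, hAWE, ?_, ?_⟩
  · intro j hj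
    have h2 := ld_dv (P := P) (t := t) (S := S) (A := A) (W := W) (E := E) (j := j)
      (fun c hc => hEmem c (by omega)) ?_ ?_
    · have h3 : ∑ e ∈ A.2.filter (fun e => S.lev e = j) ∩ W.2.filter (fun e => S.lev e = j),
          (dl S.toGeo (P.gs j) t (reg S A e) + dl S.toGeo (P.gs j) t (reg S W e)
          - dl S.toGeo (P.gs j) t (reg S E e) - dl S.toGeo (P.gs j) t (reg S A e ⊓ reg S W e)) = 0 := by
        apply Finset.sum_eq_zero
        intro e he
        simp only [Finset.mem_inter, Finset.mem_filter] at he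
        have h4 := (hg j hj e he.1.1 he.2.1 he.1.2).2.2
        have h5 := hElow e (mem_sup2.2 (Or.inl he.1.1)) (by omega)
        rw [he.1.2, reg_sup] at h5
        linarith
      linarith
    · intro e heA heW hl
      have h5 := hElow e (mem_sup2.2 (Or.inl heA)) (by omega)
      rw [hl, ld_reg_left hW.ok heW
        (fun v hv hvA => hc2 (S.lev e) (by omega) e heA heW rfl v hv hvA)] at h5
      exact h5
    · intro e heW heA hl
      have h5 := hElow e (mem_sup2.2 (Or.inr heW)) (by omega)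
      rw [hl, ld_reg_right hA.ok heA
        (fun v hv hvW => hc1 (S.lev e) (by omega) e heW heA rfl v hv hvW)] at h5
      exact h5
  · have h2 := ld_dv (P := P) (t := t) (S := S) (A := A) (W := W) (E := E) (j := i)
      (fun c hc => hEmem c (by omega)) ?_ ?_
    · have h3 : 0 < ∑ e ∈ A.2.filter (fun e => S.lev e = i) ∩ W.2.filter (fun e => S.lev e = i),
          (dl S.toGeo (P.gs i) t (reg S A e) + dl S.toGeo (P.gs i) t (reg S W e)
          - dl S.toGeo (P.gs i) t (reg S E e) - dl S.toGeo (P.gs i) t (reg S A e ⊓ reg S W e)) := by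
        have hbad : ∃ e ∈ A.2, e ∈ W.2 ∧ S.lev e = i ∧ ¬ (
            ClT S.toGeo (P.gs i) t (reg S D e) (reg S A e ⊔ reg S W e) ∧ SF S.toGeo (reg S A e) (reg S W e) ∧
            dl S.toGeo (P.gs i) t (reg S A e ⊔ reg S W e) + dl S.toGeo (P.gs i) t (reg S A e ⊓ reg S W e)
              = dl S.toGeo (P.gs i) t (reg S A e) + dl S.toGeo (P.gs i) t (reg S W e)) := by
          by_contra hcon
          apply hb
          intro e h3 h4 h5
          by_contra h6
          exact hcon ⟨e, h3, h4, h5, h6⟩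
        obtain ⟨e0, he0A, he0W, he0l, he0⟩ := hbad
        apply Finset.sum_pos'
        · intro e he
          simp only [Finset.mem_inter, Finset.mem_filter] at he
          have hsup : e ∈ (A ⊔ W).2 := mem_sup2.2 (Or.inl he.1.1)
          have h4 := hEi e hsup he.1.2
          rw [h4]
          rcases (hK e hsup he.1.2).2.2.1 he.1.1 he.2.1 with h5 | h5
          · linarith
          · linarith [h5.1]
        · refine ⟨e0, ?_, ?_⟩
          · simp only [Finset.mem_inter, Finset.mem_filter]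
            exact ⟨⟨he0A, he0l⟩, ⟨he0W, he0l⟩⟩
          · have hsup : e0 ∈ (A ⊔ W).2 := mem_sup2.2 (Or.inl he0A)
            have h4 := hEi e0 hsup he0l
            rw [h4]
            rcases (hK e0 hsup he0l).2.2.1 he0A he0W with h5 | h5
            · linarith
            · exact absurd h5.2 he0
      linarith
    · intro e heA heW hl
      have hsup : e ∈ (A ⊔ W).2 := mem_sup2.2 (Or.inl heA)
      rw [hEi e hsup hl]
      exact (hK e hsup hl).2.2.2.1 heW
    · intro e heW heA hl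
      have hsup : e ∈ (A ⊔ W).2 := mem_sup2.2 (Or.inr heW)
      rw [hEi e hsup hl]
      exact (hK e hsup hl).2.2.2.2 heA

theorem level_dichotomy (hP : Good0 P) (h0 : 0 ≤ t) (h1 : t ≤ P.θ) {D A W : Rg V C} (hD : KL P (Set.Iio s) S D)
    (hlev : ∀ c ∈ D.2, S.lev c ≤ s) (hA : ClL P (Set.Iio s) t S D A) (hW : ClL P (Set.Iio s) t S D W) :
    ∃ E, ClL P (Set.Iio s) t S D E ∧ A ⊔ W ≤ E ∧
      ((∃ i < s, (∀ j < i, Dv P t S j E + Dv P t S j (A ⊓ W) = Dv P t S j A + Dv P t S j W) ∧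
          Dv P t S i E + Dv P t S i (A ⊓ W) < Dv P t S i A + Dv P t S i W) ∨
        (E = A ⊔ W ∧ (∀ j < s, Dv P t S j E + Dv P t S j (A ⊓ W) = Dv P t S j A + Dv P t S j W) ∧
          SFH (Set.Iio s) S A W)) := by
  by_cases hall : ∀ j < s, LG P t S D A W j
  · have hSF : ∀ e ∈ A.2, e ∈ W.2 → S.lev e < s → SF S.toGeo (reg S A e) (reg S W e) :=
      fun e h1 h2 h3 => (hall _ h3 e h1 h2 rfl).2.1
    have hc1 := ld_cross hD.ok hA.ok hW.ok hA.le hW.le hSF
    have hc2 := ld_cross hD.ok hW.ok hA.ok hW.le hA.le (fun e h1 h2 h3 => (hSF e h2 h1 h3).symm)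
    have hcl := ld_closed le_rfl hD hA hW hall
    have hAWD : A ⊔ W ≤ D := sup_le hA.le hW.le
    rw [trn_eq_self (fun c hc => hlev c (hAWD.2 hc))] at hcl
    refine ⟨A ⊔ W, hcl, le_rfl, Or.inr ⟨rfl, ?_, ?_, ?_, ?_⟩⟩
    · intro j hj
      have h2 := ld_dv (P := P) (t := t) (S := S) (A := A) (W := W) (E := A ⊔ W) (j := j)
        (fun c _ => mem_sup2) ?_ ?_
      · have h3 : ∑ e ∈ A.2.filter (fun e => S.lev e = j) ∩ W.2.filter (fun e => S.lev e = j),
            (dl S.toGeo (P.gs j) t (reg S A e) + dl S.toGeo (P.gs j) t (reg S W e)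
            - dl S.toGeo (P.gs j) t (reg S (A ⊔ W) e)
            - dl S.toGeo (P.gs j) t (reg S A e ⊓ reg S W e)) = 0 := by
          apply Finset.sum_eq_zero
          intro e he
          simp only [Finset.mem_inter, Finset.mem_filter] at he
          have h4 := (hall j hj e he.1.1 he.2.1 he.1.2).2.2
          rw [reg_sup]
          linarith
        linarith
      · intro e heA heW hl
        rw [ld_reg_left hW.ok heW
          (fun v hv hvA => hc2 (S.lev e) (by omega) e heA heW rfl v hv hvA)]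
      · intro e heW heA hl
        rw [ld_reg_right hA.ok heA
          (fun v hv hvW => hc1 (S.lev e) (by omega) e heW heA rfl v hv hvW)]
    · intro v hv hvW c hc hcA
      exact hc1 (S.lev c) (hlev c (hW.le.2 hc)) c hc hcA rfl v hv hvW
    · intro v hv hvA c hc hcW
      exact hc2 (S.lev c) (hlev c (hA.le.2 hc)) c hc hcW rfl v hv hvA
    · intro u hu huW v hv hvA he e heA heW hl hiu hiv
      obtain ⟨c, h2, h3, h4, h5⟩ := (hSF e heA heW hl).edge u (mem_reg1.2 ⟨hu, hiu⟩)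
        (fun h => huW (mem_reg1.1 h).1) v (mem_reg1.2 ⟨hv, hiv⟩) (fun h => hvA (mem_reg1.1 h).1) he
      have h6 := mem_reg2.1 h2
      have h7 := mem_reg2.1 h3
      exact ⟨c, h6.1, h7.1, h6.2.1, h6.2.2, h4, h5⟩
  · push Not at hall
    obtain ⟨hi, hb⟩ := Nat.find_spec hall
    have hg : ∀ j < Nat.find hall, LG P t S D A W j := by
      intro j hj
      by_contra hcon
      exact Nat.find_min hall hj ⟨lt_trans hj hi, hcon⟩
    obtain ⟨E, h2, h3, h4, h5⟩ := ld_bad hP h0 h1 hi hD hA hW hg hb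
    exact ⟨E, h2, h3, Or.inl ⟨_, hi, h4, h5⟩⟩

end Pool.Low
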