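import Pool.Agent.helper24.Low.Triv

/-!
# Module ML1: multi-level closed sets: restriction, transitivity, intersection, closure

Everything is proved block by block: `reg_inf`, `reg_mono` (Basic.lean) and the one-level lemmas of `Lat.lean`, `Dom.lean`,
`Triv.lean` applied to `reg S D e`.
-/

set_option autoImplicit false

namespace Pool.Low

open scoped Classical

variable {V C : Type} [DecidableEq V] [DecidableEq C]
variable {P : Par} {act : Set ℕ} {t : ℝ} {S : Sys V C}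

theorem ok_of_le {D A : Rg V C} (hD : Ok S D) (hA : A ≤ D) (hroot : S.root ∈ A.2) (hpar : ∀ c ∈ A.2, S.par c ∈ A.2) :
    Ok S A := by
  exact ⟨hroot, hpar, hD.lev_root, hD.par_root, fun c hc => hD.lev_par c (hA.2 hc), fun v hv => hD.inc_root v (hA.1 hv),
    fun v hv c hc => hD.inc_par v (hA.1 hv) c (hA.2 hc), bip_mono hA.1 hD.bip⟩

theorem ok_inf {A B : Rg V C} (hA : Ok S A) (hB : Ok S B) : Ok S (A ⊓ B) := by
  refine ok_of_le hA inf_le_left ?_ ?_
  · rw [mem_inf2]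
    exact ⟨hA.root_mem, hB.root_mem⟩
  · intro c hc
    rw [mem_inf2] at hc ⊢
    exact ⟨hA.par_mem c hc.1, hB.par_mem c hc.2⟩

theorem ok_sup {D A B : Rg V C} (hD : Ok S D) (hA : A ≤ D) (hB : B ≤ D) (hokA : Ok S A) (hokB : Ok S B) :
    Ok S (A ⊔ B) := by
  refine ok_of_le hD (sup_le hA hB) ?_ ?_
  · rw [mem_sup2]
    exact Or.inl hokA.root_mem
  · intro c hc
    rw [mem_sup2] at hc ⊢
    exact hc.imp (hokA.par_mem c) (hokB.par_mem c)

/-- `KK.ppt`, `ppt_mono`. -/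
theorem KL.ppt (hP : Good0 P) {D : Rg V C} (hD : KL P act S D) (h0 : 0 ≤ t) (h1 : t ≤ P.θ) {e : C}
    (he : e ∈ D.2) (hact : S.lev e ∈ act) : PPT S.toGeo (P.gs (S.lev e)) t (reg S D e) := by
  exact ppt_mono h0 h1 hP.θ_lt.le ((hD.kk e he hact).ppt (hP.ctl (S.lev e)))

theorem KL.act_mono {act' : Set ℕ} (h : act' ⊆ act) {D : Rg V C} (hD : KL P act S D) : KL P act' S D := by
  exact ⟨hD.ok, fun e he hact => hD.kk e he (h hact)⟩

theorem ClL.act_mono {act' : Set ℕ} (h : act' ⊆ act) {D B : Rg V C} (hB : ClL P act t S D B) :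
    ClL P act' t S D B := by
  exact ⟨hB.le, hB.ok, fun e he hact => hB.cl e he (h hact)⟩

theorem clL_refl {D : Rg V C} (hD : Ok S D) : ClL P act t S D D := by
  exact ⟨le_rfl, hD, fun e _ _ => cl_self _ _ _ _ _⟩

/-- `clt_mono` -/
theorem clL_mono_t (hP : Good0 P) {t' : ℝ} (h0 : 0 ≤ t') (h1 : t' ≤ t) (h2 : t ≤ P.θ) {D B : Rg V C}
    (hD : KL P act S D) (hB : ClL P act t S D B) : ClL P act t' S D B := by
  exact ⟨hB.le, hB.ok, fun e he hact => clt_mono h0 h1 (h2.trans hP.θ_lt.le)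
    (hD.ppt hP (h0.trans h1) h2 (hB.le.2 he) hact) (hB.cl e he hact)⟩

theorem ClL.fullL {D B : Rg V C} (hB : ClL P act t S D B) : FullL P act S D B := by
  exact ⟨hB.le, hB.ok, fun e he hact => (hB.cl e he hact).1⟩

/-- `kk_full` -/
theorem KL.full {D A : Rg V C} (hD : KL P act S D) (hA : FullL P act S D A) : KL P act S A := by
  exact ⟨hA.ok, fun e he hact => kk_full (hD.kk e (hA.le.2 he) hact) (hA.full e he hact)⟩

/-- `cl_trans` -/
theorem clL_trans (hP : Good0 P) (h0 : 0 ≤ t) (h1 : t ≤ P.θ) {D B A : Rg V C} (hD : KL P act S D)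
    (hB : ClL P act t S D B) (hA : ClL P act t S B A) : ClL P act t S D A := by
  exact ⟨hA.le.trans hB.le, hA.ok, fun e he hact => cl_trans (wt_Wt h0 (h1.trans hP.θ_lt.le))
    (hD.ppt hP h0 h1 (hB.le.2 (hA.le.2 he)) hact) (hB.cl e (hA.le.2 he) hact) (hA.cl e he hact)⟩

/-- `cl_restrict` -/
theorem clL_restrict (hP : Good0 P) (h0 : 0 ≤ t) (h1 : t ≤ P.θ) {D B A : Rg V C} (hD : KL P act S D)
    (hB : ClL P act t S D B) (hA : FullL P act S D A) : ClL P act t S A (B ⊓ A) := by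
  refine ⟨inf_le_right, ok_inf hB.ok hA.ok, fun e he hact => ?_⟩
  rw [mem_inf2] at he
  rw [reg_inf]
  exact cl_restrict (wt_Wt h0 (h1.trans hP.θ_lt.le)) (hD.ppt hP h0 h1 (hB.le.2 he.1) hact) (hB.cl e he.1 hact)
    (hA.full e he.2 hact)

/-- `cl_of_le` -/
theorem clL_of_le {D B A : Rg V C} (hB : ClL P act t S D B) (hA : FullL P act S D A) (hBA : B ≤ A) :
    ClL P act t S A B := by
  exact ⟨hBA, hB.ok, fun e he hact => cl_of_le (hB.cl e he hact) (hA.full e (hBA.2 he) hact) (reg_mono hBA e)⟩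

theorem clL_inf (hP : Good0 P) (h0 : 0 ≤ t) (h1 : t ≤ P.θ) {D A B : Rg V C} (hD : KL P act S D)
    (hA : ClL P act t S D A) (hB : ClL P act t S D B) : ClL P act t S D (A ⊓ B) := by
  refine ⟨inf_le_left.trans hA.le, ok_inf hA.ok hB.ok, fun e he hact => ?_⟩
  rw [mem_inf2] at he
  rw [reg_inf]
  exact cl_inf (wt_Wt h0 (h1.trans hP.θ_lt.le)) (hD.ppt hP h0 h1 (hA.le.2 he.1) hact) (hA.cl e he.1 hact)
    (hB.cl e he.2 hact)

/-- smallest closed region above `T` (take one with the least number of elements; `clL_inf`) -/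
theorem clL_closure (hP : Good0 P) (h0 : 0 ≤ t) (h1 : t ≤ P.θ) {D : Rg V C} (hD : KL P act S D) {T : Rg V C}
    (hT : T ≤ D) : ∃ R, ClL P act t S D R ∧ T ≤ R ∧ ∀ Z, ClL P act t S D Z → T ≤ Z → R ≤ Z := by
  obtain ⟨R, hR, hmin⟩ := WellFounded.has_min (measure (fun R : Rg V C => R.1.card + R.2.card)).wf
    {R | ClL P act t S D R ∧ T ≤ R} ⟨D, clL_refl hD.ok, hT⟩
  refine ⟨R, hR.1, hR.2, fun Z hZ hTZ => ?_⟩
  have h2 := hmin (R ⊓ Z) ⟨clL_inf hP h0 h1 hD hR.1 hZ, le_inf hR.2 hTZ⟩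
  have h3 : ¬ ((R ⊓ Z).1.card + (R ⊓ Z).2.card < R.1.card + R.2.card) := h2
  have h4 : (R ⊓ Z) ≤ R := inf_le_left
  have h5 := Finset.card_le_card h4.1
  have h6 := Finset.card_le_card h4.2
  have h7 : (R ⊓ Z).1 = R.1 := Finset.eq_of_subset_of_card_le h4.1 (by omega)
  have h8 : (R ⊓ Z).2 = R.2 := Finset.eq_of_subset_of_card_le h4.2 (by omega)
  have h9 : R ⊓ Z = R := Prod.ext h7 h8
  exact inf_eq_left.1 h9

end Pool.Low
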