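import Pool.Agent.helper24.Low.MTInv

/-!
# Module MT2 (MTCat): omega-categoricity

`T = b.L.completeTheory V`, `V` countable and infinite.  Let `M`, `N` be models of `T` of size `ℵ₀`.  The following sentences are true
in `V`, hence in `M` and `N`:
(A1) for each `n`, every `n`-tuple satisfies exactly one relation symbol `q : b.Q n` (finite disjunction, `finite_Q`);
(A2) for `σ : Fin m → Fin n` and `q : b.Q n`, there is `q' : b.Q m` with `∀ x, q x → q' (x ∘ σ)`;
(A3) for `q : b.Q n` and `i j`: either `∀ x, q x → x i = x j` or `∀ x, q x → x i ≠ x j`;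
(A4) for `q : b.Q n`, `q' : b.Q (n+1)`: either `∀ x, q x → ∃ y, q' (x, y)` or `∀ x, q x → ∀ y, ¬ q' (x, y)`.
(If `q = cls x0` realised in `V`, these follow from `b.reindex`, `b.eqv`, `b.ext`; every `q` is realised in `V`.)
Back and forth: say that `a ∈ M^n`, `c ∈ N^n` match if they satisfy the same relation symbol of arity `n`.  The empty tuples match.  If
`a, c` match then for every `a' ∈ M` there is `c' ∈ N` with `(a, a')`, `(c, c')` matching, and symmetrically.  Enumerate `M` and `N` and
construct infinite sequences `a : ℕ → M`, `c : ℕ → N` (both surjective) such that all initial segments match.  By (A2), (A3) the map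
`a i ↦ c i` is a well defined bijection preserving all relation symbols in both directions, i.e. an isomorphism.
(Alternatively use `FirstOrder.Language.equiv_between_cg`.)
-/

set_option autoImplicit false

namespace Pool.Low

open FirstOrder FirstOrder.Language

namespace BF

variable {V : Type} (b : BF V)

/-- the formula `q (x ∘ σ)` -/
def relF {m n : ℕ} (q : b.Q m) (σ : Fin m → Fin n) : b.L.BoundedFormula Empty n :=
  Relations.boundedFormula (L := b.L) (n := m) q fun i => Term.var (Sum.inr (σ i))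

theorem realize_relF {M : Type} [b.L.Structure M] {m n : ℕ} (q : b.Q m) (σ : Fin m → Fin n)
    (v : Empty → M) (x : Fin n → M) :
    (b.relF q σ).Realize v x ↔ Structure.RelMap (L := b.L) (n := m) q (x ∘ σ) :=
  Iff.rfl

theorem relMap_V {n : ℕ} (q : b.Q n) (x : Fin n → V) :
    Structure.RelMap (L := b.L) (n := n) q x ↔ b.cls x = q := Iff.rfl

theorem transfer {M : Type} [b.L.Structure M] [M ⊨ b.L.completeTheory V] {n : ℕ}
    (φ : b.L.BoundedFormula Empty n) (h : ∀ x : Fin n → V, φ.Realize default x)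
    (x : Fin n → M) : φ.Realize default x := by
  have h1 : V ⊨ (φ.alls : b.L.Sentence) := by
    rw [Sentence.Realize, Formula.Realize]
    exact BoundedFormula.realize_alls.2 h
  have h2 : (φ.alls : b.L.Sentence) ∈ b.L.completeTheory V := mem_completeTheory.2 h1
  have h3 : M ⊨ (φ.alls : b.L.Sentence) := Theory.realize_sentence_of_mem _ h2
  rw [Sentence.Realize, Formula.Realize] at h3
  exact BoundedFormula.realize_alls.1 h3 x

section
variable {M : Type} [b.L.Structure M] [M ⊨ b.L.completeTheory V]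

theorem cat_A1 {n : ℕ} (x : Fin n → M) :
    ∃ q : b.Q n, Structure.RelMap (L := b.L) (n := n) q x := by
  haveI : Finite (b.Q n) := b.finite_Q n
  have h := b.transfer (BoundedFormula.iSup fun q : b.Q n => b.relF q (id : Fin n → Fin n))
    (fun x => by
      rw [BoundedFormula.realize_iSup]
      refine ⟨b.cls x, ?_⟩
      rw [realize_relF]
      exact rfl) x
  rw [BoundedFormula.realize_iSup] at h
  obtain ⟨q, hq⟩ := h
  rw [realize_relF] at hq
  exact ⟨q, hq⟩

theorem cat_A1' {n : ℕ} (x : Fin n → M) {q q' : b.Q n}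
    (h : Structure.RelMap (L := b.L) (n := n) q x)
    (h' : Structure.RelMap (L := b.L) (n := n) q' x) : q = q' := by
  by_contra hne
  have h1 := b.transfer (b.relF q (id : Fin n → Fin n) ⊓ b.relF q' id).not
    (fun x => by
      rw [BoundedFormula.realize_not, BoundedFormula.realize_inf, realize_relF, realize_relF]
      rintro ⟨h1, h2⟩
      exact hne (h1.symm.trans h2)) x
  rw [BoundedFormula.realize_not, BoundedFormula.realize_inf, realize_relF, realize_relF] at h1
  exact h1 ⟨h, h'⟩

/-- reindexing of a class -/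
theorem exists_red {m n : ℕ} (σ : Fin m → Fin n) (q : b.Q n) :
    ∃ q' : b.Q m, ∀ x : Fin n → V, b.cls x = q → b.cls (x ∘ σ) = q' := by
  obtain ⟨x0, hx0⟩ : ∃ x0, b.cls x0 = q := Quotient.exists_rep q
  refine ⟨b.cls (x0 ∘ σ), fun x hx => ?_⟩
  rw [cls_eq]
  refine b.reindex n m σ x x0 ?_
  rw [← cls_eq, hx, hx0]

theorem cat_A2 {m n : ℕ} (σ : Fin m → Fin n) {q : b.Q n} {q' : b.Q m}
    (h : ∀ x : Fin n → V, b.cls x = q → b.cls (x ∘ σ) = q') (x : Fin n → M)
    (hx : Structure.RelMap (L := b.L) (n := n) q x) :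
    Structure.RelMap (L := b.L) (n := m) q' (x ∘ σ) := by
  have h1 := b.transfer ((b.relF q (id : Fin n → Fin n)).imp (b.relF q' σ))
    (fun x => by
      rw [BoundedFormula.realize_imp, realize_relF, realize_relF]
      exact h x) x
  rw [BoundedFormula.realize_imp, realize_relF, realize_relF] at h1
  exact h1 hx

theorem cat_A3 {n : ℕ} (i j : Fin n) {q : b.Q n}
    (h : ∀ x : Fin n → V, b.cls x = q → x i = x j) (x : Fin n → M)
    (hx : Structure.RelMap (L := b.L) (n := n) q x) : x i = x j := by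
  have h1 := b.transfer ((b.relF q (id : Fin n → Fin n)).imp
    (Term.bdEqual (Term.var (Sum.inr i)) (Term.var (Sum.inr j))))
    (fun x => by
      rw [BoundedFormula.realize_imp, realize_relF, BoundedFormula.realize_bdEqual]
      exact h x) x
  rw [BoundedFormula.realize_imp, realize_relF, BoundedFormula.realize_bdEqual] at h1
  exact h1 hx

theorem cat_A3' {n : ℕ} (i j : Fin n) {q : b.Q n}
    (h : ∀ x : Fin n → V, b.cls x = q → x i ≠ x j) (x : Fin n → M)
    (hx : Structure.RelMap (L := b.L) (n := n) q x) : x i ≠ x j := by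
  have h1 := b.transfer ((b.relF q (id : Fin n → Fin n)).imp
    (Term.bdEqual (Term.var (Sum.inr i)) (Term.var (Sum.inr j))).not)
    (fun x => by
      rw [BoundedFormula.realize_imp, realize_relF, BoundedFormula.realize_not,
        BoundedFormula.realize_bdEqual]
      exact h x) x
  rw [BoundedFormula.realize_imp, realize_relF, BoundedFormula.realize_not,
    BoundedFormula.realize_bdEqual] at h1
  exact h1 hx

theorem cat_A4 {n : ℕ} {q : b.Q n} {q' : b.Q (n + 1)}
    (h : ∀ x : Fin n → V, b.cls x = q → ∃ y, b.cls (snc x y) = q') (x : Fin n → M)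
    (hx : Structure.RelMap (L := b.L) (n := n) q x) :
    ∃ y, Structure.RelMap (L := b.L) (n := n + 1) q' (snc x y) := by
  have h1 := b.transfer ((b.relF q (id : Fin n → Fin n)).imp
    (b.relF q' (id : Fin (n + 1) → Fin (n + 1))).ex)
    (fun x => by
      rw [BoundedFormula.realize_imp, realize_relF, BoundedFormula.realize_ex]
      intro hx
      obtain ⟨y, hy⟩ := h x hx
      refine ⟨y, ?_⟩
      rw [realize_relF]
      exact hy) x
  rw [BoundedFormula.realize_imp, realize_relF, BoundedFormula.realize_ex] at h1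
  obtain ⟨y, hy⟩ := h1 hx
  rw [realize_relF] at hy
  exact ⟨y, hy⟩

theorem cat_A4' {n : ℕ} {q : b.Q n} {q' : b.Q (n + 1)}
    (h : ∀ x : Fin n → V, b.cls x = q → ∀ y, b.cls (snc x y) ≠ q') (x : Fin n → M)
    (hx : Structure.RelMap (L := b.L) (n := n) q x) (y : M) :
    ¬ Structure.RelMap (L := b.L) (n := n + 1) q' (snc x y) := by
  have h1 := b.transfer ((b.relF q (id : Fin n → Fin n)).imp
    (b.relF q' (id : Fin (n + 1) → Fin (n + 1))).not.all)
    (fun x => by
      rw [BoundedFormula.realize_imp, realize_relF, BoundedFormula.realize_all]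
      intro hx y
      rw [BoundedFormula.realize_not, realize_relF]
      exact h x hx y) x
  rw [BoundedFormula.realize_imp, realize_relF, BoundedFormula.realize_all] at h1
  have h2 := h1 hx y
  rw [BoundedFormula.realize_not, realize_relF] at h2
  exact h2

end

/-- the tuples `a`, `c` satisfy the same relation symbol -/
def Mat {M N : Type} [b.L.Structure M] [b.L.Structure N] {n : ℕ} (a : Fin n → M)
    (c : Fin n → N) : Prop :=
  ∃ q : b.Q n, Structure.RelMap (L := b.L) (n := n) q a ∧ Structure.RelMap (L := b.L) (n := n) q c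

section
variable {M N : Type} [b.L.Structure M] [M ⊨ b.L.completeTheory V] [b.L.Structure N]
  [N ⊨ b.L.completeTheory V]

omit [M ⊨ b.L.completeTheory V] [N ⊨ b.L.completeTheory V] in
theorem mat_symm {n : ℕ} {a : Fin n → M} {c : Fin n → N} (h : b.Mat a c) : b.Mat c a := by
  obtain ⟨q, h1, h2⟩ := h
  exact ⟨q, h2, h1⟩

theorem mat_zero (a : Fin 0 → M) (c : Fin 0 → N) : b.Mat a c := by
  obtain ⟨q, hq⟩ := b.cat_A1 a
  obtain ⟨q', hq'⟩ := b.cat_A1 c
  have h : q = q' := by
    obtain ⟨x, hx⟩ : ∃ x, b.cls x = q := Quotient.exists_rep q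
    obtain ⟨y, hy⟩ : ∃ y, b.cls y = q' := Quotient.exists_rep q'
    rw [← hx, ← hy, Subsingleton.elim x y]
  rw [← h] at hq'
  exact ⟨q, hq, hq'⟩

theorem mat_ext {n : ℕ} {a : Fin n → M} {c : Fin n → N} (h : b.Mat a c) (a' : M) :
    ∃ c' : N, b.Mat (snc a a') (snc c c') := by
  obtain ⟨q, h1, h2⟩ := h
  obtain ⟨q', hq'⟩ := b.cat_A1 (snc a a')
  obtain ⟨x0, hx0⟩ : ∃ x0, b.cls x0 = q := Quotient.exists_rep q
  by_cases hex : ∃ y, b.cls (snc x0 y) = q'
  · obtain ⟨y0, hy0⟩ := hex
    have h3 : ∀ x : Fin n → V, b.cls x = q → ∃ y, b.cls (snc x y) = q' := by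
      intro x hx
      have h4 : b.r n x0 x := by
        rw [← cls_eq, hx0, hx]
      obtain ⟨y, hy⟩ := b.ext n x0 x y0 h4
      refine ⟨y, ?_⟩
      rw [← hy0]
      exact ((b.cls_eq _ _).2 hy).symm
    obtain ⟨c', hc'⟩ := b.cat_A4 h3 c h2
    exact ⟨c', q', hq', hc'⟩
  · exfalso
    have h3 : ∀ x : Fin n → V, b.cls x = q → ∀ y, b.cls (snc x y) ≠ q' := by
      intro x hx y hy
      have h4 : b.r n x x0 := by
        rw [← cls_eq, hx0, hx]
      obtain ⟨y', hy'⟩ := b.ext n x x0 y h4
      refine hex ⟨y', ?_⟩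
      rw [← hy]
      exact ((b.cls_eq _ _).2 hy').symm
    exact b.cat_A4' h3 a h1 a' hq'

theorem mat_eq {n : ℕ} {a : Fin n → M} {c : Fin n → N} (h : b.Mat a c) (i j : Fin n) :
    a i = a j ↔ c i = c j := by
  obtain ⟨q, h1, h2⟩ := h
  obtain ⟨x0, hx0⟩ : ∃ x0, b.cls x0 = q := Quotient.exists_rep q
  have hr : ∀ x : Fin n → V, b.cls x = q → b.r n x0 x := by
    intro x hx
    rw [← cls_eq, hx0, hx]
  by_cases he : x0 i = x0 j
  · have h3 : ∀ x : Fin n → V, b.cls x = q → x i = x j := fun x hx =>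
      b.eqv n x0 x (hr x hx) i j he
    exact ⟨fun _ => b.cat_A3 i j h3 c h2, fun _ => b.cat_A3 i j h3 a h1⟩
  · have h3 : ∀ x : Fin n → V, b.cls x = q → x i ≠ x j := fun x hx hxe =>
      he (b.eqv n x x0 (b.symm _ _ _ (hr x hx)) i j hxe)
    exact ⟨fun h => absurd h (b.cat_A3' i j h3 a h1), fun h => absurd h (b.cat_A3' i j h3 c h2)⟩

theorem mat_red {m n : ℕ} {a : Fin n → M} {c : Fin n → N} (h : b.Mat a c) (σ : Fin m → Fin n) :
    b.Mat (a ∘ σ) (c ∘ σ) := by
  obtain ⟨q, h1, h2⟩ := h
  obtain ⟨q', hq'⟩ := b.exists_red σ q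
  exact ⟨q', b.cat_A2 σ hq' a h1, b.cat_A2 σ hq' c h2⟩

theorem mat_rel {n : ℕ} {a : Fin n → M} {c : Fin n → N} (h : b.Mat a c) (q : b.Q n) :
    Structure.RelMap (L := b.L) (n := n) q a ↔ Structure.RelMap (L := b.L) (n := n) q c := by
  obtain ⟨q', h1, h2⟩ := h
  constructor
  · intro h3
    rw [b.cat_A1' a h3 h1]
    exact h2
  · intro h3
    rw [b.cat_A1' c h3 h2]
    exact h1

theorem mat_step (eM : ℕ → M) (eN : ℕ → N) (k : ℕ)
    (s : {p : (Fin k → M) × (Fin k → N) // b.Mat p.1 p.2}) :
    ∃ s' : {p : (Fin (k + 1) → M) × (Fin (k + 1) → N) // b.Mat p.1 p.2},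
      ∃ a' c', s'.1.1 = snc s.1.1 a' ∧ s'.1.2 = snc s.1.2 c' ∧ (∀ i, k = 2 * i → a' = eM i) ∧
        (∀ i, k = 2 * i + 1 → c' = eN i) := by
  rcases Nat.even_or_odd' k with ⟨i, hi | hi⟩
  · obtain ⟨c', hc'⟩ := b.mat_ext s.2 (eM i)
    refine ⟨⟨(snc s.1.1 (eM i), snc s.1.2 c'), hc'⟩, eM i, c', rfl, rfl, ?_, ?_⟩
    · intro j hj
      rw [show i = j by omega]
    · intro j hj
      omega
  · obtain ⟨a', ha'⟩ := b.mat_ext (b.mat_symm s.2) (eN i)
    refine ⟨⟨(snc s.1.1 a', snc s.1.2 (eN i)), b.mat_symm ha'⟩, a', eN i, rfl, rfl, ?_, ?_⟩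
    · intro j hj
      omega
    · intro j hj
      rw [show i = j by omega]

theorem exists_seq [Countable M] [Nonempty M] [Countable N] [Nonempty N] :
    ∃ (a : ℕ → M) (c : ℕ → N), Function.Surjective a ∧ Function.Surjective c ∧
      ∀ k : ℕ, b.Mat (fun i : Fin k => a i) (fun i : Fin k => c i) := by
  obtain ⟨eM, heM⟩ := exists_surjective_nat M
  obtain ⟨eN, heN⟩ := exists_surjective_nat N
  choose st hst using b.mat_step eM eN
  let S : ∀ k : ℕ, {p : (Fin k → M) × (Fin k → N) // b.Mat p.1 p.2} := fun k =>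
    Nat.rec ⟨(Fin.elim0, Fin.elim0), b.mat_zero _ _⟩ (fun k s => st k s) k
  have hS : ∀ k, S (k + 1) = st k (S k) := fun k => rfl
  refine ⟨fun k => (S (k + 1)).1.1 (Fin.last k), fun k => (S (k + 1)).1.2 (Fin.last k), ?_, ?_, ?_⟩
  · intro m
    obtain ⟨i, rfl⟩ := heM m
    refine ⟨2 * i, ?_⟩
    obtain ⟨a', c', h1, h2, h3, h4⟩ := hst (2 * i) (S (2 * i))
    show (S (2 * i + 1)).1.1 (Fin.last (2 * i)) = _
    rw [hS, h1]
    show Fin.snoc (α := fun _ => M) (S (2 * i)).1.1 a' (Fin.last (2 * i)) = _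
    rw [Fin.snoc_last]
    exact h3 i rfl
  · intro m
    obtain ⟨i, rfl⟩ := heN m
    refine ⟨2 * i + 1, ?_⟩
    obtain ⟨a', c', h1, h2, h3, h4⟩ := hst (2 * i + 1) (S (2 * i + 1))
    show (S (2 * i + 1 + 1)).1.2 (Fin.last (2 * i + 1)) = _
    rw [hS, h2]
    show Fin.snoc (α := fun _ => N) (S (2 * i + 1)).1.2 c' (Fin.last (2 * i + 1)) = _
    rw [Fin.snoc_last]
    exact h4 i rfl
  · intro k
    have key : ∀ k, (S k).1.1 = (fun i : Fin k => (S (i.1 + 1)).1.1 (Fin.last i.1)) ∧
        (S k).1.2 = (fun i : Fin k => (S (i.1 + 1)).1.2 (Fin.last i.1)) := by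
      intro k
      induction k with
      | zero => exact ⟨Subsingleton.elim _ _, Subsingleton.elim _ _⟩
      | succ k ih =>
        obtain ⟨a', c', h1, h2, _, _⟩ := hst k (S k)
        constructor
        · funext i
          refine Fin.lastCases ?_ (fun i => ?_) i
          · rfl
          · have h5 : (S (k + 1)).1.1 (Fin.castSucc i) = (S k).1.1 i := by
              rw [hS, h1]
              exact Fin.snoc_castSucc (α := fun _ => M) a' (S k).1.1 i
            rw [h5, ih.1]
            rfl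
        · funext i
          refine Fin.lastCases ?_ (fun i => ?_) i
          · rfl
          · have h5 : (S (k + 1)).1.2 (Fin.castSucc i) = (S k).1.2 i := by
              rw [hS, h2]
              exact Fin.snoc_castSucc (α := fun _ => N) c' (S k).1.2 i
            rw [h5, ih.2]
            rfl
    have h1 := (S k).2
    rw [(key k).1, (key k).2] at h1
    exact h1

theorem exists_equiv [Countable M] [Nonempty M] [Countable N] [Nonempty N] :
    Nonempty (M ≃[b.L] N) := by
  obtain ⟨a, c, ha, hc, hm⟩ := b.exists_seq (M := M) (N := N)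
  have hm' : ∀ {n : ℕ} (σ : Fin n → ℕ), b.Mat (a ∘ σ) (c ∘ σ) := by
    intro n σ
    obtain ⟨K, hK⟩ : ∃ K, ∀ i, σ i < K := by
      refine ⟨Finset.univ.sup σ + 1, fun i => ?_⟩
      exact Nat.lt_succ_of_le (Finset.le_sup (Finset.mem_univ i))
    exact b.mat_red (hm K) (fun i => ⟨σ i, hK i⟩)
  have heq : ∀ i j, a i = a j ↔ c i = c j := by
    intro i j
    have h := b.mat_eq (hm' ![i, j]) 0 1
    simpa using h
  choose f hf using ha
  choose g hg using hc
  refine ⟨{ toFun := fun m => c (f m), invFun := fun n => a (g n), left_inv := ?_, right_inv := ?_,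
            map_fun' := ?_, map_rel' := ?_ }⟩
  · intro m
    have h1 : c (g (c (f m))) = c (f m) := hg _
    show a (g (c (f m))) = m
    rw [(heq _ _).2 h1, hf]
  · intro n
    have h1 : a (f (a (g n))) = a (g n) := hf _
    show c (f (a (g n))) = n
    rw [(heq _ _).1 h1, hg]
  · intro n φ
    exact φ.elim
  · intro n r x
    have h1 := b.mat_rel (hm' (f ∘ x)) r
    have h2 : a ∘ (f ∘ x) = x := by
      funext i
      exact hf (x i)
    rw [h2] at h1
    exact h1.symm

end

theorem categorical [Countable V] [Infinite V] :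
    Cardinal.Categorical (Cardinal.aleph0 : Cardinal.{0}) (b.L.completeTheory V) := by
  intro M N hM hN
  haveI : Countable M := Cardinal.mk_le_aleph0_iff.1 hM.le
  haveI : Countable N := Cardinal.mk_le_aleph0_iff.1 hN.le
  exact b.exists_equiv (M := M) (N := N)

/-- Any countable infinite model (in `Type`) is isomorphic to `V` (`categorical` applied to the bundled models). -/
theorem iso_of_countable [Countable V] [Infinite V] (M : Type) [b.L.Structure M] [M ⊨ b.L.completeTheory V]
    (hM : Cardinal.mk M = Cardinal.aleph0) : Nonempty (V ≃[b.L] M) := by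
  haveI : Countable M := Cardinal.mk_le_aleph0_iff.1 hM.le
  haveI : Nonempty M := by
    rw [← Cardinal.mk_ne_zero_iff, hM]
    exact Cardinal.aleph0_ne_zero
  exact b.exists_equiv (M := V) (N := M)

end BF

end Pool.Low
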