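import Pool.Agent.helper24.Low.MTDefs

set_option autoImplicit false

namespace Pool.Low

open FirstOrder FirstOrder.Language

namespace BF

variable {V : Type} (b : BF V)

/-- Relation symbols are finitely many in each arity (`b.fin`). -/
theorem finite_Q (N : ℕ) : Finite (b.Q N) := by
  obtain ⟨n, code, h⟩ := b.fin N
  refine Finite.of_injective (fun q : b.Q N => code (Quotient.out q)) ?_
  intro q q' hqq
  have h1 := h _ _ hqq
  have h2 : b.cls (Quotient.out q) = b.cls (Quotient.out q') := (b.cls_eq _ _).2 h1
  have h3 : b.cls (Quotient.out q) = q := Quotient.out_eq q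
  have h4 : b.cls (Quotient.out q') = q' := Quotient.out_eq q'
  rw [h3, h4] at h2
  exact h2

/-- `b.L.card ≤ ℵ₀` (countably many symbols: `b.Q N` is finite, no function symbols). -/
theorem card_L : b.L.card ≤ Cardinal.aleph0 := by
  have h1 : Countable (Σ l, b.L.Relations l) := by
    have : ∀ l, Countable (b.L.Relations l) := fun l => by
      have := b.finite_Q l
      exact (inferInstance : Countable (b.Q l))
    infer_instance
  have h2 : Countable (Σ l, b.L.Functions l) := by
    have : ∀ l, Countable (b.L.Functions l) := fun l => (inferInstance : Countable Empty)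
    infer_instance
  have h3 : Countable b.L.Symbols := by
    unfold Language.Symbols
    infer_instance
  exact Cardinal.mk_le_aleph0

theorem term_var {m n : ℕ} (t : b.L.Term (Fin m ⊕ Fin n)) :
    ∃ i : Fin (m + n), ∀ (x : Fin m → V) (u : Fin n → V), t.realize (Sum.elim x u) = Fin.append x u i := by
  cases t with
  | var v =>
    rcases v with v | v
    · exact ⟨Fin.castAdd n v, fun x u => by simp⟩
    · exact ⟨Fin.natAdd m v, fun x u => by simp⟩
  | func f ts => exact f.elim

theorem append_snc {m n : ℕ} (x : Fin m → V) (u : Fin n → V) (a : V) :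
    Fin.append x (snc u a) = snc (Fin.append x u) a := by
  unfold snc
  rw [Fin.append_snoc]

/-- **Invariance of formulas.** -/
theorem realize_bounded {m n : ℕ} (φ : b.L.BoundedFormula (Fin m) n) (x y : Fin m → V) (u w : Fin n → V)
    (h : b.r (m + n) (Fin.append x u) (Fin.append y w)) : φ.Realize x u ↔ φ.Realize y w := by
  induction φ with
  | falsum => exact Iff.rfl
  | equal t₁ t₂ =>
    obtain ⟨i, hi⟩ := b.term_var t₁
    obtain ⟨j, hj⟩ := b.term_var t₂
    simp only [BoundedFormula.Realize, hi, hj]
    exact ⟨fun h1 => b.eqv _ _ _ h _ _ h1, fun h1 => b.eqv _ _ _ (b.symm _ _ _ h) _ _ h1⟩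
  | rel R ts =>
    choose σ hσ using fun i => b.term_var (ts i)
    simp only [BoundedFormula.Realize, hσ]
    have h1 := b.reindex _ _ σ _ _ h
    have h2 : b.cls (Fin.append x u ∘ σ) = b.cls (Fin.append y w ∘ σ) := (b.cls_eq _ _).2 h1
    show b.cls (fun i => Fin.append x u (σ i)) = R ↔ b.cls (fun i => Fin.append y w (σ i)) = R
    have h3 : b.cls (fun i => Fin.append x u (σ i)) = b.cls (fun i => Fin.append y w (σ i)) := h2
    rw [h3]
  | imp φ ψ ih1 ih2 =>
    simp only [BoundedFormula.realize_imp]
    rw [ih1 u w h, ih2 u w h]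
  | all φ ih =>
    simp only [BoundedFormula.realize_all]
    constructor
    · intro H a
      obtain ⟨a', ha'⟩ := b.ext _ _ _ a (b.symm _ _ _ h)
      have h1 := b.symm _ _ _ ha'
      rw [← append_snc, ← append_snc] at h1
      exact (ih _ _ h1).1 (H a')
    · intro H a
      obtain ⟨a', ha'⟩ := b.ext _ _ _ a h
      rw [← append_snc, ← append_snc] at ha'
      exact (ih _ _ ha').2 (H a')

/-- invariance for formulas with free variables indexed by a finite type -/
theorem realize_inv {α : Type} {k : ℕ} (e : α ≃ Fin k) (φ : b.L.Formula α) (x y : α → V)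
    (h : b.r k (x ∘ e.symm) (y ∘ e.symm)) : φ.Realize x ↔ φ.Realize y := by
  have key : ∀ z : α → V, φ.Realize z ↔ (φ.relabel (e : α → Fin k)).Realize (z ∘ e.symm) := by
    intro z
    rw [Formula.realize_relabel]
    have : (z ∘ e.symm) ∘ (e : α → Fin k) = z := by
      funext a; simp
    rw [this]
  rw [key x, key y]
  unfold Formula.Realize
  apply b.realize_bounded
  have e1 : Fin.append (x ∘ e.symm) (default : Fin 0 → V) = x ∘ e.symm := by
    rw [Fin.append_right_nil _ _ rfl]
    rfl
  have e2 : Fin.append (y ∘ e.symm) (default : Fin 0 → V) = y ∘ e.symm := by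
    rw [Fin.append_right_nil _ _ rfl]
    rfl
  rw [e1, e2]
  exact h

/-- **Definability.** -/
theorem definable {N : ℕ} (Ψ : (Fin N → V) → Prop) (hΨ : ∀ x y, b.r N x y → Ψ x → Ψ y) :
    ∃ φ : b.L.Formula (Fin N), ∀ x : Fin N → V, φ.Realize x ↔ Ψ x := by
  have hfin := b.finite_Q N
  let T : Type := {q : b.Q N // ∃ x, b.cls x = q ∧ Ψ x}
  have hT : Finite T := inferInstance
  let F : T → b.L.Formula (Fin N) := fun q => Relations.formula (L := b.L) (n := N) (q.1 : b.L.Relations N) (fun i => Term.var i)
  refine ⟨Formula.iSup F, ?_⟩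
  intro x
  rw [Formula.realize_iSup]
  constructor
  · rintro ⟨q, hq⟩
    obtain ⟨z, hz, hz'⟩ := q.2
    have h1 : b.cls x = q.1 := by
      have := Formula.realize_rel.1 hq
      exact this
    rw [← hz] at h1
    exact hΨ _ _ ((b.cls_eq _ _).1 h1.symm) hz'
  · intro hx
    refine ⟨⟨b.cls x, x, rfl, hx⟩, ?_⟩
    show (Relations.formula (L := b.L) (n := N) (b.cls x) (fun i => Term.var i)).Realize x
    rw [Formula.realize_rel]
    rfl

end BF

end Pool.Low
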