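import Pool.Agent.helper24.Low.MTSimple

/-!
# Module MT4 (MTMain): from a back-and-forth system to the negation of the frozen statement

`L = b.L`, `T = b.L.completeTheory V`: `card_L`, `completeTheory.isComplete`, `categorical`, `ntp_all`.  Not low: let `Ψ` be the
relation of `b.NonLow`, `φ : b.L.Formula (Fin 1 ⊕ Fin 1)` a formula defining `Ψ (x 0) (y 0)` (`definable` for pairs, relabelled).
Given the alleged `k`, take `y` from `NonLow` for this `k`, `M = V`, `b i = fun _ => y i`; indiscernibility: `realize_inv` for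
`Fin N × Fin 1 ≃ Fin N`.
-/

set_option autoImplicit false

namespace Pool.Low

open FirstOrder FirstOrder.Language

theorem mt_main {V : Type} [Countable V] [Infinite V] (b : BF V) (h1 : b.NTP) (h2 : b.NonLow) :
    ¬ (∀ (L : FirstOrder.Language.{0,0}) (T : L.Theory),
    L.card ≤ Cardinal.aleph0 → T.IsComplete →
    Cardinal.Categorical (Cardinal.aleph0 : Cardinal.{0}) T →
    (∀ (M : Type) [L.Structure M] [M ⊨ T] [Nonempty M] (n m k : ℕ)
        (φ : L.Formula (Fin n ⊕ Fin m)) (p : List ℕ → Fin m → M),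
      (∀ (η : ℕ → ℕ) (J : ℕ), ∃ a : Fin n → M, ∀ j < J,
          φ.Realize (Sum.elim a (p (List.ofFn (fun i : Fin j => η i))))) →
      ∃ s : List ℕ, ∃ S : Finset ℕ, S.card = k ∧
        ∃ a : Fin n → M, ∀ i ∈ S, φ.Realize (Sum.elim a (p (s ++ [i])))) →
    ∀ (n m : ℕ) (φ : L.Formula (Fin n ⊕ Fin m)), ∃ k : ℕ,
      ∀ (M : Type) [L.Structure M] [M ⊨ T] [Nonempty M] (b : ℕ → Fin m → M),
        (∀ (N : ℕ) (ψ : L.Formula (Fin N × Fin m)) (f g : Fin N → ℕ),
            StrictMono f → StrictMono g →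
            (ψ.Realize (fun q => b (f q.1) q.2) ↔ ψ.Realize (fun q => b (g q.1) q.2))) →
        (∃ S : Finset ℕ, ¬ ∃ a : Fin n → M, ∀ i ∈ S, φ.Realize (Sum.elim a (b i))) →
        ∀ S : Finset ℕ, S.card = k →
          ¬ ∃ a : Fin n → M, ∀ i ∈ S, φ.Realize (Sum.elim a (b i))) := by
  intro H
  haveI : Nonempty V := Infinite.nonempty V
  obtain ⟨Ψ, hΨ, hlow⟩ := h2
  obtain ⟨φ₀, hφ₀⟩ := b.definable (N := 2) (fun x => Ψ (x 0) (x 1)) (by
    intro x y hxy hx
    have e : ∀ z : Fin 2 → V, ![z 0, z 1] = z := by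
      intro z; funext i; fin_cases i <;> rfl
    refine hΨ (x 0) (x 1) (y 0) (y 1) ?_ hx
    rw [e x, e y]; exact hxy)
  have hφ : ∀ (a c : Fin 1 → V),
      (φ₀.relabel (![Sum.inl 0, Sum.inr 0] : Fin 2 → Fin 1 ⊕ Fin 1)).Realize (Sum.elim a c) ↔
        Ψ (a 0) (c 0) := by
    intro a c
    rw [Formula.realize_relabel, hφ₀]
    rfl
  obtain ⟨k, hk⟩ := H b.L (b.L.completeTheory V) b.card_L (completeTheory.isComplete b.L V)
    b.categorical (fun M _ _ _ n m k φ p hp => b.ntp_all h1 M n m k φ p hp) 1 1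
    (φ₀.relabel (![Sum.inl 0, Sum.inr 0] : Fin 2 → Fin 1 ⊕ Fin 1))
  obtain ⟨y, hy, ⟨S₀, hS₀⟩, S, hScard, a, ha⟩ := hlow k
  refine hk V (fun i _ => y i) ?_ ⟨S₀, ?_⟩ S hScard ⟨fun _ => a, fun i hi => (hφ _ _).2 (ha i hi)⟩
  · intro N ψ f g hf hg
    exact b.realize_inv (Equiv.prodUnique (Fin N) (Fin 1)) ψ _ _ (hy N f g hf hg)
  · rintro ⟨a, ha⟩
    exact hS₀ ⟨a 0, fun i hi => (hφ _ _).1 (ha i hi)⟩

end Pool.Low
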