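import Pool.Agent.helper24.Low.MTCat

/-!
# Module MT3 (MTSimple): no tree property in all models

Let `M` be a model of `T = b.L.completeTheory V` and `p : List ℕ → Fin m → M`.  `M` is infinite (as `V` is, and infinity is expressed by
sentences; e.g. `M ≡ V`).  By the downward Löwenheim-Skolem theorem (`exists_elementarySubstructure_card_eq`, `card_L`) there is an
elementary substructure `M'` of `M` of size `ℵ₀` containing all the `p s i` (countably many); `M' ≅ V` by `iso_of_countable`.
The hypothesis on the paths passes from `M` to `M'`: for given `η`, `J` the formula `∃ x ⋀_{j<J} φ(x, y_j)` holds in `M` for the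
parameters `p (η|j)`, hence in `M'` (elementary substructure).  (Formally: it may be easier to use `φ.Realize` and the
fact that an existential formula with parameters in `M'` true in `M` is true in `M'`.)
Transport `p` to `V` and apply `b.NTP` to `Φ x y := φ.Realize (Sum.elim x y)` (invariant by `realize_inv`, `finSumFinEquiv`).  The
solution found in `V` gives one in `M'`, hence in `M` (`φ` is preserved upwards by the elementary embedding).
-/

set_option autoImplicit false

namespace Pool.Low

open FirstOrder FirstOrder.Language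

/-- the formula `∃ x, ⋀_{j<J} φ(x, y_j)` -/
noncomputable def pathFormula {L : FirstOrder.Language.{0, 0}} {n m : ℕ} (φ : L.Formula (Fin n ⊕ Fin m)) (J : ℕ) :
    L.Formula (Fin J × Fin m) :=
  (Formula.iInf (fun j : Fin J =>
    φ.relabel (Sum.elim (fun i => Sum.inr i) (fun i => Sum.inl (j, i)) :
      Fin n ⊕ Fin m → (Fin J × Fin m) ⊕ Fin n))).iExs (Fin n)

theorem realize_pathFormula {L : FirstOrder.Language.{0, 0}} {M : Type} [L.Structure M] {n m : ℕ}
    (φ : L.Formula (Fin n ⊕ Fin m)) (J : ℕ) (y : Fin J → Fin m → M) :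
    (pathFormula φ J).Realize (fun q : Fin J × Fin m => y q.1 q.2) ↔
      ∃ a : Fin n → M, ∀ j : Fin J, φ.Realize (Sum.elim a (y j)) := by
  unfold pathFormula
  rw [Formula.realize_iExs]
  refine exists_congr fun a => ?_
  rw [Formula.realize_iInf]
  refine forall_congr' fun j => ?_
  rw [Formula.realize_relabel]
  have : (Sum.elim (fun q : Fin J × Fin m => y q.1 q.2) a ∘
      (Sum.elim (fun i => Sum.inr i) (fun i => Sum.inl (j, i)) :
        Fin n ⊕ Fin m → (Fin J × Fin m) ⊕ Fin n)) = Sum.elim a (y j) := by
    funext t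
    rcases t with t | t <;> rfl
  rw [this]

namespace BF

variable {V : Type} (b : BF V)

theorem ntp_all [Countable V] [Infinite V] (h : b.NTP) (M : Type) [b.L.Structure M] [M ⊨ b.L.completeTheory V]
    [Nonempty M] (n m k : ℕ) (φ : b.L.Formula (Fin n ⊕ Fin m)) (p : List ℕ → Fin m → M)
    (hp : ∀ (η : ℕ → ℕ) (J : ℕ), ∃ a : Fin n → M, ∀ j < J,
      φ.Realize (Sum.elim a (p (List.ofFn (fun i : Fin j => η i))))) :
    ∃ s : List ℕ, ∃ S : Finset ℕ, S.card = k ∧ ∃ a : Fin n → M, ∀ i ∈ S, φ.Realize (Sum.elim a (p (s ++ [i]))) := by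
  classical
  -- `M` is infinite
  have hMV : V ≅[b.L] M := by
    rw [elementarilyEquivalent_iff]
    intro ψ
    exact (realize_iff_of_model_completeTheory V M ψ).symm
  have : Infinite M := hMV.infinite
  -- a countable elementary substructure containing the parameters
  obtain ⟨M', hpM, hcard⟩ := exists_elementarySubstructure_card_eq b.L
    (Set.range fun q : List ℕ × Fin m => p q.1 q.2) (Cardinal.aleph0 : Cardinal.{0}) le_rfl
    (by
      rw [Cardinal.lift_aleph0, Cardinal.lift_le_aleph0]
      exact Cardinal.mk_le_aleph0_iff.2 (Set.countable_range _).to_subtype)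
    (by simp [b.card_L])
    (by simpa using Cardinal.aleph0_le_mk M)
  have hcard' : Cardinal.mk M' = Cardinal.aleph0 := by simpa using hcard
  obtain ⟨e⟩ := b.iso_of_countable M' hcard'
  -- the parameters in `M'` and in `V`
  have hmem : ∀ s i, p s i ∈ M' := fun s i => hpM ⟨(s, i), rfl⟩
  let p' : List ℕ → Fin m → M' := fun s i => ⟨p s i, hmem s i⟩
  let q : List ℕ → Fin m → V := fun s i => e.symm (p' s i)
  have hq : ∀ s i, e (q s i) = p' s i := fun s i => e.apply_symm_apply _
  have hN := h n m k (fun x y => φ.Realize (Sum.elim x y)) (by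
    intro x y x' y' hr hx
    refine (b.realize_inv finSumFinEquiv φ _ _ ?_).1 hx
    have key : ∀ (u : Fin n → V) (w : Fin m → V), Sum.elim u w ∘ finSumFinEquiv.symm = Fin.append u w := by
      intro u w
      funext t
      refine Fin.addCases (fun i => ?_) (fun i => ?_) t
      · simp
      · simp
    rw [key, key]
    exact hr) q (by
    intro η J
    obtain ⟨a, ha⟩ := hp η J
    let y : Fin J → Fin m → M' := fun j => p' (List.ofFn (fun i : Fin j => η i))
    have hM : (pathFormula φ J).Realize (fun t : Fin J × Fin m => (y t.1 t.2 : M)) := by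
      rw [realize_pathFormula φ J (fun j i => (y j i : M))]
      exact ⟨a, fun j => ha j j.2⟩
    have hM' : (pathFormula φ J).Realize (fun t : Fin J × Fin m => y t.1 t.2) :=
      (M'.subtype.map_formula (pathFormula φ J) (fun t : Fin J × Fin m => y t.1 t.2)).1 hM
    have hV : (pathFormula φ J).Realize (fun t : Fin J × Fin m => e.symm (y t.1 t.2)) :=
      (StrongHomClass.realize_formula e.symm (pathFormula φ J)
        (v := fun t : Fin J × Fin m => y t.1 t.2)).2 hM'
    rw [realize_pathFormula φ J (fun j i => e.symm (y j i))] at hV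
    obtain ⟨c, hc⟩ := hV
    exact ⟨c, fun j hj => hc ⟨j, hj⟩⟩)
  obtain ⟨s, S, hS, a, ha⟩ := hN
  refine ⟨s, S, hS, fun i => (e (a i) : M), fun i hi => ?_⟩
  have h1 : φ.Realize (Sum.elim a (q (s ++ [i]))) := ha i hi
  have h2 : φ.Realize (e ∘ Sum.elim a (q (s ++ [i]))) := (StrongHomClass.realize_formula e φ).2 h1
  have h3 := (M'.subtype.map_formula φ (e ∘ Sum.elim a (q (s ++ [i])))).2 h2
  have h4 : (M'.subtype ∘ (e ∘ Sum.elim a (q (s ++ [i])))) =
      Sum.elim (fun i => (e (a i) : M)) (p (s ++ [i])) := by
    funext t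
    rcases t with t | t
    · rfl
    · change ((e (q (s ++ [i]) t) : M') : M) = p (s ++ [i]) t
      rw [hq]
  rw [h4] at h3
  exact h3

end BF

end Pool.Low
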