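import Pool.Agent.helper24.Low.GenL
import Pool.Agent.helper24.Low.Trn
import Pool.Agent.helper24.Low.GS2

/-!
# Module N6b (Place): placing a small part of a truncated system into the generic system

`U = (im inl inl W0).1 ∪ ⋃_{i ∈ I} (H i).1`, `|U| ≤ gs s`.  `Z1 = (U, Z.2)` (all blocks of `Z`).
* `Ok SZ Z1` (`ok_of_le`).  `Z1` is `FullL P (Iio s)` in `Z` (all blocks are present).
* `KL P univ SZ Z1`: for `e ∈ Z.2` with `lev e < s`: `kk_full` from `Z`.  If `lev e = s`: there are no blocks of level `s + 1` in `Z`, so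
  `reg SZ Z1 e = (U_e, ∅)` with `|U_e| ≤ gs s`: `small_kk`.
* `im inl inl W0` and all `H i` are `≤ Z1`, closed in `Z1` at the levels `< s` (`clL_of_le`), and their blocks have level `< s`, so they
  are closed at all levels (`clL_univ_of_lt`).
* Apply `Gen.ext` with `A = Z1`, `B = im inl inl W0`, `fv = Sum.elim id (fun _ => 0)`, `fc = Sum.elim id (fun _ => 0)`... (embedding of
  `im inl inl W0` into `S`: `IsEmb.of_comp` with the identity embedding of `W0`), whose image is `W0`, closed in `D K`.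
* `im hv hc (H i)` is closed in `im hv hc Z1` (`IsEmb.clL`), which is closed in `D l` (`clL_trans`).
-/

set_option autoImplicit false

namespace Pool.Low

open scoped Classical

variable {P : Par} {S : Sys ℕ ℕ} {D : ℕ → Rg ℕ ℕ}

theorem place (hP : Good P) (hG : Gen P S D) {s K : ℕ} (SZ : Sys (ℕ ⊕ ℕ) (ℕ ⊕ ℕ)) (Z : Rg (ℕ ⊕ ℕ) (ℕ ⊕ ℕ))
    (hZ : KL P (Set.Iio s) SZ Z) (hZlev : ∀ c ∈ Z.2, SZ.lev c ≤ s) (W0 : Rg ℕ ℕ)
    (hW0 : ClL P Set.univ P.θ S (D K) W0) (hW0lev : ∀ c ∈ W0.2, S.lev c < s)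
    (hemb : IsEmb S W0 SZ Sum.inl Sum.inl)
    (hW0Z : ClL P (Set.Iio s) P.θ SZ Z (im Sum.inl Sum.inl W0)) (I : Finset ℕ) (H : ℕ → Rg (ℕ ⊕ ℕ) (ℕ ⊕ ℕ))
    (hH : ∀ i ∈ I, ClL P (Set.Iio s) P.θ SZ Z (H i)) (hHlev : ∀ i ∈ I, ∀ c ∈ (H i).2, SZ.lev c < s)
    (hcard : W0.1.card + ∑ i ∈ I, (H i).1.card ≤ P.gs s) :
    ∃ (l : ℕ) (hv hc : ℕ ⊕ ℕ → ℕ), K ≤ l ∧
      (∀ i ∈ I, IsEmb SZ (H i) S hv hc ∧ ClL P Set.univ P.θ S (D l) (im hv hc (H i))) ∧
      (∀ v ∈ W0.1, hv (Sum.inl v) = v) := by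
  have hP0 : Good0 P := hP.toGood0
  set W1 : Rg (ℕ ⊕ ℕ) (ℕ ⊕ ℕ) := im Sum.inl Sum.inl W0 with hW1
  set U : Finset (ℕ ⊕ ℕ) := W1.1 ∪ I.biUnion (fun i => (H i).1) with hU
  set Z1 : Rg (ℕ ⊕ ℕ) (ℕ ⊕ ℕ) := (U, Z.2) with hZ1
  have hUZ : U ⊆ Z.1 := by
    intro v hv
    rcases Finset.mem_union.1 hv with h | h
    · exact hW0Z.le.1 h
    · obtain ⟨i, hi, h⟩ := Finset.mem_biUnion.1 h
      exact (hH i hi).le.1 h
  have hZ1Z : Z1 ≤ Z := ⟨hUZ, Finset.Subset.refl _⟩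
  have hUcard : U.card ≤ P.gs s := by
    refine le_trans (Finset.card_union_le _ _) (le_trans (Nat.add_le_add ?_ Finset.card_biUnion_le) hcard)
    exact Finset.card_image_le
  have hok1 : Ok SZ Z1 := ok_of_le hZ.ok hZ1Z hZ.ok.root_mem hZ.ok.par_mem
  have hfull : FullL P (Set.Iio s) SZ Z Z1 := by
    refine ⟨hZ1Z, hok1, fun e he hact => ⟨reg_mono hZ1Z e, fun c hc _ => ?_⟩⟩
    rw [mem_reg2] at hc ⊢
    exact hc
  have hKL1 : KL P Set.univ SZ Z1 := by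
    refine ⟨hok1, fun e he _ => ?_⟩
    rcases lt_or_eq_of_le (hZlev e he) with h | h
    · exact kk_full (hZ.kk e he h) (hfull.full e he h)
    · have hreg : reg SZ Z1 e = ((reg SZ Z1 e).1, ∅) := by
        apply rg_ext
        · intro v; exact Iff.rfl
        · intro c
          constructor
          · intro hc
            obtain ⟨h1, h2, h3⟩ := mem_reg2.1 hc
            have h4 := hZ.ok.lev_par c h1 h3
            rw [h2] at h4
            have h5 := hZlev c h1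
            omega
          · intro hc; exact absurd hc (Finset.notMem_empty c)
      have hsub : (reg SZ Z1 e).1 ⊆ U := fun v hv => (mem_reg1.1 hv).1
      rw [hreg]
      refine small_kk hP0.θ_pos.le hP0.θ_lt.le (hP0.ctl _) _ ?_ ?_
      · intro u hu v hv
        exact hZ.ok.bip u (hUZ (hsub hu)) v (hUZ (hsub hv))
      · rw [h]
        exact le_trans (Finset.card_le_card hsub) hUcard
  have hcl : ∀ R : Rg (ℕ ⊕ ℕ) (ℕ ⊕ ℕ), ClL P (Set.Iio s) P.θ SZ Z R → R.1 ⊆ U → (∀ c ∈ R.2, SZ.lev c < s) →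
      ClL P Set.univ P.θ SZ Z1 R := by
    intro R hR hRU hRl
    exact clL_univ_of_lt (clL_of_le hR hfull ⟨hRU, hR.le.2⟩) hRl
  have hclW1 : ClL P Set.univ P.θ SZ Z1 W1 := by
    refine hcl W1 hW0Z Finset.subset_union_left ?_
    intro c hc
    obtain ⟨d, hd, rfl⟩ := mem_im2.1 hc
    rw [hemb.lev d hd]
    exact hW0lev d hd
  have hclH : ∀ i ∈ I, ClL P Set.univ P.θ SZ Z1 (H i) := by
    intro i hi
    refine hcl (H i) (hH i hi) ?_ (hHlev i hi)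
    intro v hv
    exact Finset.mem_union_right _ (Finset.mem_biUnion.2 ⟨i, hi, hv⟩)
  have hemb1 : IsEmb SZ W1 S (Sum.elim id (fun _ => 0)) (Sum.elim id (fun _ => 0)) :=
    IsEmb.of_comp hW0.ok hemb (isEmb_id S W0) (fun v _ => rfl) (fun c _ => rfl)
  have him : im (Sum.elim id (fun _ => 0)) (Sum.elim id (fun _ => 0)) W1 = W0 := by
    rw [hW1, im_im]
    exact im_id W0
  obtain ⟨l, hv, hc, hKl, hE, hvf, -, hclI⟩ := hG.ext (ℕ ⊕ ℕ) (ℕ ⊕ ℕ) SZ Z1 W1 (Sum.elim id (fun _ => 0))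
    (Sum.elim id (fun _ => 0)) K hKL1 hclW1 hemb1 (by rw [him]; exact hW0)
  refine ⟨l, hv, hc, hKl, fun i hi => ⟨hE.mono (hclH i hi).le, ?_⟩, fun v hv0 => ?_⟩
  · exact clL_trans hP0 hP0.θ_pos.le le_rfl (hG.kl l) hclI (hE.clL hok1 (hclH i hi))
  · rw [hvf (Sum.inl v) (mem_im1.2 ⟨v, hv0, rfl⟩)]
    rfl

end Pool.Low
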