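import Pool.Agent.helper24.Low.GenL
import Pool.Agent.helper24.Low.Trn

/-!
# Module N5 (SmallCl): small regions closed for `t` are closed for `θ`

`R` is a small region closed in `D` at all levels for `θ`, with blocks of level `< s`; `F` is closed in `trn S s D` for `t`.  Let
`e ∈ (R ⊓ F).2`, so `lev e < s`.  `trn S s R = R` is closed in `trn S s D` for `θ` (`clL_trn`), so for `t` (`clL_mono_t`), and `R ⊓ F` is closed
in `trn S s D` for `t` (`clL_inf`).  At `e`: `reg S (trn S s D) e = reg S D e` (`reg_trn`); apply `clt_small` with `D := reg S D e`,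
`B := reg S (R ⊓ F) e`, `R := reg S R e` (`KL.ppt` for `D`), `reg_mono`.
-/

set_option autoImplicit false

namespace Pool.Low

open scoped Classical

variable {V C : Type} [DecidableEq V] [DecidableEq C] {P : Par} {t : ℝ} {S : Sys V C} {s : ℕ}

theorem small_cl (hP : Good0 P) (h0 : 0 ≤ t) (h1 : t ≤ P.θ) {Q X : ℕ} (hQ : 1 ≤ Q) (hQt : ∃ z : ℤ, (Q : ℝ) * t = z)
    (hint : ∀ j : ℕ, 1 ≤ j → j ≤ X → ∀ z : ℤ, (z : ℝ) ≠ t * j) (hgap : (P.θ - t) * X < 1 / Q)
    {D R F : Rg V C} (hD : KL P Set.univ S D) (hR : ClL P Set.univ P.θ S D R) (hRlev : ∀ c ∈ R.2, S.lev c < s)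
    (hF : ClL P (Set.Iio s) t S (trn S s D) F)
    (hX : ∀ i < s, (P.gs i + 4) * (R.1.card + R.2.card) ≤ X) : ClL P Set.univ P.θ S D (R ⊓ F) := by
  have hRt0 : ClL P (Set.Iio s) P.θ S (trn S s D) (trn S s R) := clL_trn hD.ok hR
  have htR : trn S s R = R := trn_eq_self (fun c hc => (hRlev c hc).le)
  rw [htR] at hRt0
  have hDt : KL P (Set.Iio s) S (trn S s D) := kl_trn hD
  have hRt : ClL P (Set.Iio s) t S (trn S s D) R := clL_mono_t hP h0 h1 le_rfl hDt hRt0
  have hinf : ClL P (Set.Iio s) t S (trn S s D) (R ⊓ F) := clL_inf hP h0 h1 hDt hRt hF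
  refine ⟨inf_le_left.trans hR.le, hinf.ok, fun e he _ => ?_⟩
  have heR : e ∈ R.2 := (mem_inf2.1 he).1
  have hes : S.lev e < s := hRlev e heR
  have hcl := hinf.cl e he hes
  rw [reg_trn hD.ok hes] at hcl
  have hpp : PPT S.toGeo (P.gs (S.lev e)) P.θ (reg S D e) :=
    KL.ppt hP hD hP.θ_pos.le le_rfl (hR.le.2 heR) (Set.mem_univ _)
  refine clt_small h0 h1 hP.θ_lt.le hQ hQt hint hgap hpp hcl (hR.cl e heR (Set.mem_univ _))
    (reg_mono inf_le_left e) ?_
  have r1 : (reg S R e).1 ⊆ R.1 := fun v hv => (mem_reg1.1 hv).1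
  have r2 : (reg S R e).2 ⊆ R.2 := fun c hc => (mem_reg2.1 hc).1
  calc (P.gs (S.lev e) + 4) * ((reg S R e).1.card + (reg S R e).2.card)
      ≤ (P.gs (S.lev e) + 4) * (R.1.card + R.2.card) :=
        Nat.mul_le_mul_left _ (Nat.add_le_add (Finset.card_le_card r1) (Finset.card_le_card r2))
    _ ≤ X := hX _ hes

end Pool.Low
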