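import Pool.Agent.helper24.Low.Config
import Pool.Agent.helper24.Low.SmallCl
import Pool.Agent.helper24.Low.Glue
import Pool.Agent.helper24.Low.Place

/-!
# Module N8 (NTPGen): no tree property in the generic system

If `k = 0` take `T = ∅` and any `a` (`hpath` with `J = 0`).  Let `k ≥ 1`.
Numbers: `s := n + m + k * m + BD (k m) + k BD (n + m) + 1`, so `n + m < s`, `k m < s`, `BD (k m) + k BD (n+m) ≤ s ≤ gs s` (`Good.grow`).
`X := ∑ i ∈ range s, (gs i + 4) * (2 BD (n + m))`; `t, Q` from `Good.approx X`.  Configuration from `exists_config`; write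
`b i = p (σ ++ [φ i])`.
Choose `K' ≥ K` such that all `B i`, `i < k`, and `C0` come from regions closed in `D K'` (`Gen.lift`).  `W := trn S s (D K')`,
`KL P (Iio s) S W` (`kl_trn`); `C0, B i` are closed in `W` for `θ` (`clL_trn`), `A`, `A ⊔ B 0` for `t`.
* `R` := region of `Good.BD_spec` for `D K'` and the set of the values of `a` and `b 0` (at most `n + m` elements): `|R.1|, |R.2| ≤ BD (n+m)`,
  levels `≤ n + m < s`.  `H := R ⊓ (A ⊔ B 0)` is closed in `D K'` for `θ` at all levels by `small_cl`.  It contains the `a j`, `b 0 j`.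
* `W0` := region of `Good.BD_spec` for the set of all `b i j`, `i < k`, `j : Fin m` (at most `k m` elements), levels `≤ k m < s`.
* `exists_multi_glue` with `act = Set.Iio s`, `I = Finset.range k`, `W, C0, A, B`: `SZ, Z, av`, and for `i < k` maps `pv_i, pc_i`.
* `H` is closed in `W` at levels `< s` for `θ` (`clL_trn`, `trn_eq_self`), so in `A ⊔ B 0` (`clL_of_le`, `ClL.fullL`), so
  `H_i := im pv_i pc_i H` is closed in `im pv_i pc_i (A ⊔ B 0)` (`IsEmb.clL`), so in `Z` (`clL_trans`).  Similarly `im inl inl W0` is closed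
  in `im inl inl W`, so in `Z`.
* `place` (with `K := K'`, `I = range k`): `l, hv, hc`.  `a'' j := hv (av (a j))`.
For `i < k`: `rr P S D (n+m) (Fin.append a (b 0)) (Fin.append a'' (b i))`: witness `B := H`, `fv = hv ∘ pv_i`, `fc = hc ∘ pc_i`
(`IsEmb.comp`, `im_im`); values: `hv (pv_i (a j)) = hv (av (a j))`, and `pv_i (b 0 j) = pv_i (kv i (b i j)) = inl (b i j)`,
`hv (inl (b i j)) = b i j` as `b i j ∈ W0.1`.
So `Φ a'' (b i)` by `hΦ`.  `T = (range k).image φ`.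
-/

set_option autoImplicit false

namespace Pool.Low

open scoped Classical

variable {P : Par} {S : Sys ℕ ℕ} {D : ℕ → Rg ℕ ℕ}

theorem ntp_gen (hP : Good P) (hG : Gen P S D) (n m k : ℕ) (Φ : (Fin n → ℕ) → (Fin m → ℕ) → Prop)
    (hΦ : ∀ x y x' y', rr P S D (n + m) (Fin.append x y) (Fin.append x' y') → Φ x y → Φ x' y')
    (p : List ℕ → Fin m → ℕ) (hp : ∀ σ i, dom D (p σ i))
    (hpath : ∀ (η : ℕ → ℕ) (J : ℕ), ∃ a : Fin n → ℕ, (∀ i, dom D (a i)) ∧
      ∀ j < J, Φ a (p (List.ofFn (fun i : Fin j => η i)))) :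
    ∃ (σ : List ℕ) (T : Finset ℕ), T.card = k ∧ ∃ a : Fin n → ℕ, (∀ i, dom D (a i)) ∧
      ∀ i ∈ T, Φ a (p (σ ++ [i])) := by
  rcases Nat.eq_zero_or_pos k with hk | hk
  · obtain ⟨a, ha, -⟩ := hpath (fun _ => 0) 0
    exact ⟨[], ∅, by simp [hk], a, ha, by simp⟩
  have hP0 : Good0 P := hP.toGood0
  obtain ⟨N1, hN1⟩ : ∃ N1, N1 = hP.BD (n + m) := ⟨_, rfl⟩
  obtain ⟨N2, hN2⟩ : ∃ N2, N2 = hP.BD (k * m) := ⟨_, rfl⟩
  obtain ⟨s, hs⟩ : ∃ s, s = n + m + k * m + N2 + k * N1 + 1 := ⟨_, rfl⟩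
  obtain ⟨X, hX⟩ : ∃ X, X = ∑ i ∈ Finset.range s, (P.gs i + 4) * (2 * N1) := ⟨_, rfl⟩
  obtain ⟨t, Q, hQ1, h0, h1, hQ, hint, hgap⟩ := hP.approx X
  obtain ⟨σ, φ, C0, B, kv, kc, a, A, K, hφ, ⟨kC, RC, hRC, hC0⟩, hB, hCB, hpB, hkE, hkim, hkp, hkv, hkc, hk0, hkc0, hΦa,
    haA, hCA, hAB, hSF, hAK⟩ := exists_config hP hG n m s h0 h1 hQ1 hQ Φ p hp hpath
  choose kB RB hRB hBeq using hB
  -- the stage
  obtain ⟨K', hK1, hK2, hK3⟩ : ∃ K', K ≤ K' ∧ kC ≤ K' ∧ ∀ i ∈ Finset.range k, kB i ≤ K' :=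
    ⟨max K (max kC ((Finset.range k).sup kB)), le_max_left _ _, (le_max_left _ _).trans (le_max_right _ _),
      fun i hi => ((Finset.le_sup (f := kB) hi).trans (le_max_right _ _)).trans (le_max_right _ _)⟩
  have hDK := hG.kl K'
  have hW : KL P (Set.Iio s) S (trn S s (D K')) := kl_trn hDK
  have hC0W : ClL P (Set.Iio s) P.θ S (trn S s (D K')) C0 := by
    rw [hC0]
    exact clL_trn hDK.ok (Gen.lift hP0 hG hK2 hRC)
  have hBW : ∀ i ∈ Finset.range k, ClL P (Set.Iio s) P.θ S (trn S s (D K')) (B i) := by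
    intro i hi
    rw [hBeq i]
    exact clL_trn hDK.ok (Gen.lift hP0 hG (hK3 i hi) (hRB i))
  obtain ⟨hAW, hABW⟩ := hAK K' hK1
  have h0k : 0 ∈ Finset.range k := Finset.mem_range.2 hk
  -- the small region around `a` and `b 0`
  obtain ⟨X0, hX0⟩ : ∃ X0 : Finset ℕ, X0 = Finset.univ.image a ∪ Finset.univ.image (p (σ ++ [φ 0])) := ⟨_, rfl⟩
  have hX0card : X0.card ≤ n + m := by
    rw [hX0]
    refine (Finset.card_union_le _ _).trans (add_le_add ?_ ?_)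
    · exact Finset.card_image_le.trans (by simp)
    · exact Finset.card_image_le.trans (by simp)
  have haX0 : ∀ j, a j ∈ X0 := fun j => by
    rw [hX0]
    exact Finset.mem_union_left _ (Finset.mem_image_of_mem _ (Finset.mem_univ _))
  have hbX0 : ∀ j, p (σ ++ [φ 0]) j ∈ X0 := fun j => by
    rw [hX0]
    exact Finset.mem_union_right _ (Finset.mem_image_of_mem _ (Finset.mem_univ _))
  have hX0D : X0 ⊆ (D K').1 := by
    intro x hx
    rw [hX0, Finset.mem_union, Finset.mem_image, Finset.mem_image] at hx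
    rcases hx with ⟨j, -, rfl⟩ | ⟨j, -, rfl⟩
    · exact mem_trn1.1 (hAW.le.1 (haA j))
    · exact mem_trn1.1 ((hBW 0 h0k).le.1 (hpB 0 j))
  obtain ⟨R, hR, hXR, hR1, hR2, hRlev⟩ := hP.BD_spec ℕ ℕ S (D K') hDK X0 hX0D
  have hR1' : R.1.card ≤ N1 := hR1.trans (by rw [hN1]; exact hP.BD_mono hX0card)
  have hR2' : R.2.card ≤ N1 := hR2.trans (by rw [hN1]; exact hP.BD_mono hX0card)
  have hRlev' : ∀ c ∈ R.2, S.lev c < s := by
    intro c hc
    have := hRlev c hc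
    omega
  have hH : ClL P Set.univ P.θ S (D K') (R ⊓ (A ⊔ B 0)) := by
    refine small_cl hP0 h0 h1 hQ1 hQ hint hgap hDK hR hRlev' hABW ?_
    intro i hi
    rw [hX]
    calc (P.gs i + 4) * (R.1.card + R.2.card) ≤ (P.gs i + 4) * (2 * N1) :=
          Nat.mul_le_mul_left _ (by omega)
      _ ≤ ∑ i ∈ Finset.range s, (P.gs i + 4) * (2 * N1) :=
          Finset.single_le_sum (f := fun i => (P.gs i + 4) * (2 * N1)) (fun _ _ => Nat.zero_le _)
            (Finset.mem_range.2 hi)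
  -- the small region around the `b i`
  obtain ⟨X1, hX1⟩ : ∃ X1 : Finset ℕ, X1 = (Finset.range k ×ˢ (Finset.univ : Finset (Fin m))).image
      (fun q => p (σ ++ [φ q.1]) q.2) := ⟨_, rfl⟩
  have hX1card : X1.card ≤ k * m := by
    rw [hX1]
    refine Finset.card_image_le.trans ?_
    rw [Finset.card_product, Finset.card_range, Finset.card_univ, Fintype.card_fin]
  have hbX1 : ∀ i ∈ Finset.range k, ∀ j, p (σ ++ [φ i]) j ∈ X1 := by
    intro i hi j
    rw [hX1]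
    exact Finset.mem_image.2 ⟨(i, j), Finset.mem_product.2 ⟨hi, Finset.mem_univ _⟩, rfl⟩
  have hX1D : X1 ⊆ (D K').1 := by
    intro x hx
    rw [hX1, Finset.mem_image] at hx
    obtain ⟨⟨i, j⟩, hij, rfl⟩ := hx
    exact mem_trn1.1 ((hBW i (Finset.mem_product.1 hij).1).le.1 (hpB i j))
  obtain ⟨W0, hW0, hXW0, hW01, -, hW0lev⟩ := hP.BD_spec ℕ ℕ S (D K') hDK X1 hX1D
  have hW01' : W0.1.card ≤ N2 := hW01.trans (by rw [hN2]; exact hP.BD_mono hX1card)
  have hW0lev' : ∀ c ∈ W0.2, S.lev c < s := by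
    intro c hc
    have := hW0lev c hc
    omega
  -- the glued system
  obtain ⟨SZ, Z, av, hZ, hWE, hWZ, hZlev, hgl⟩ := exists_multi_glue hP0 (Finset.range k) h0k hW hC0W hBW
    (fun i _ => hCB i) kv kc (fun i _ => hkE i) (fun i _ => hkim i) (fun i _ j _ => hkv i j) (fun i _ j _ => hkc i j)
    hk0 hkc0 hAW.fullL hCA hAB hSF
  have hgl' : ∀ i : ℕ, ∃ (pv : ℕ → ℕ ⊕ ℕ) (pc : ℕ → ℕ ⊕ ℕ), i ∈ Finset.range k → IsEmb S (A ⊔ B 0) SZ pv pc ∧
        ClL P (Set.Iio s) P.θ SZ Z (im pv pc (A ⊔ B 0)) ∧ (∀ v ∈ A.1, pv v = av v) ∧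
        (∀ v ∈ (B i).1, pv (kv i v) = Sum.inl v) := by
    intro i
    by_cases hi : i ∈ Finset.range k
    · obtain ⟨pv, pc, h⟩ := hgl i hi
      exact ⟨pv, pc, fun _ => h⟩
    · exact ⟨Sum.inl, Sum.inl, fun h => absurd h hi⟩
  choose pv pc hpv using hgl'
  have hZlev' : ∀ c ∈ Z.2, SZ.lev c ≤ s := by
    intro c hc
    obtain ⟨c', hc', h⟩ := hZlev c hc
    rw [h]
    exact (mem_trn2.1 hc').2
  have hHlt : ∀ c ∈ (R ⊓ (A ⊔ B 0)).2, S.lev c < s := fun c hc => hRlev' c (mem_inf2.1 hc).1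
  have hHW : ClL P (Set.Iio s) P.θ S (trn S s (D K')) (R ⊓ (A ⊔ B 0)) := by
    have h := clL_trn (s := s) hDK.ok hH
    rwa [trn_eq_self (fun c hc => (hHlt c hc).le)] at h
  have hHAB : ClL P (Set.Iio s) P.θ S (A ⊔ B 0) (R ⊓ (A ⊔ B 0)) := clL_of_le hHW hABW.fullL inf_le_right
  have hHi : ∀ i ∈ Finset.range k, ClL P (Set.Iio s) P.θ SZ Z (im (pv i) (pc i) (R ⊓ (A ⊔ B 0))) := by
    intro i hi
    exact clL_trans hP0 hP0.θ_pos.le le_rfl hZ (hpv i hi).2.1 ((hpv i hi).1.clL hABW.ok hHAB)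
  have hHilt : ∀ i ∈ Finset.range k, ∀ c ∈ (im (pv i) (pc i) (R ⊓ (A ⊔ B 0))).2, SZ.lev c < s := by
    intro i hi c hc
    obtain ⟨d, hd, rfl⟩ := mem_im2.1 hc
    rw [(hpv i hi).1.lev d (mem_inf2.1 hd).2]
    exact hHlt d hd
  have hW0W : ClL P (Set.Iio s) P.θ S (trn S s (D K')) W0 := by
    have h := clL_trn (s := s) hDK.ok hW0
    rwa [trn_eq_self (fun c hc => (hW0lev' c hc).le)] at h
  have hW0Z : ClL P (Set.Iio s) P.θ SZ Z (im Sum.inl Sum.inl W0) :=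
    clL_trans hP0 hP0.θ_pos.le le_rfl hZ hWZ (hWE.clL hW.ok hW0W)
  have hcard : W0.1.card + ∑ i ∈ Finset.range k, (im (pv i) (pc i) (R ⊓ (A ⊔ B 0))).1.card ≤ P.gs s := by
    have h2 : ∑ i ∈ Finset.range k, (im (pv i) (pc i) (R ⊓ (A ⊔ B 0))).1.card ≤ k * N1 := by
      calc ∑ i ∈ Finset.range k, (im (pv i) (pc i) (R ⊓ (A ⊔ B 0))).1.card ≤ ∑ _i ∈ Finset.range k, N1 := by
            refine Finset.sum_le_sum (fun i _ => ?_)
            refine (Finset.card_image_le.trans (Finset.card_le_card ?_)).trans hR1'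
            exact (inf_le_left : R ⊓ (A ⊔ B 0) ≤ R).1
        _ = k * N1 := by rw [Finset.sum_const, Finset.card_range, smul_eq_mul]
    have h3 := hP.grow s
    omega
  obtain ⟨l, hv, hc, -, hpl, hpl0⟩ := place hP hG SZ Z hZ hZlev' W0 hW0 hW0lev' (hWE.mono hW0W.le) hW0Z (Finset.range k)
    (fun i => im (pv i) (pc i) (R ⊓ (A ⊔ B 0))) hHi hHilt hcard
  have haH : ∀ j, a j ∈ (R ⊓ (A ⊔ B 0)).1 := fun j =>
    mem_inf1.2 ⟨hXR (haX0 j), mem_sup1.2 (Or.inl (haA j))⟩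
  have hbH : ∀ j, p (σ ++ [φ 0]) j ∈ (R ⊓ (A ⊔ B 0)).1 := fun j =>
    mem_inf1.2 ⟨hXR (hbX0 j), mem_sup1.2 (Or.inr (hpB 0 j))⟩
  refine ⟨σ, (Finset.range k).image φ, ?_, fun j => hv (av (a j)), ?_, ?_⟩
  · rw [Finset.card_image_of_injective _ hφ.injective, Finset.card_range]
  · intro j
    refine ⟨l, (hpl 0 h0k).2.le.1 ?_⟩
    rw [im_im]
    refine mem_im1.2 ⟨a j, haH j, ?_⟩
    rw [Function.comp_apply, (hpv 0 h0k).2.2.1 _ (haA j)]
  · intro i' hi'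
    obtain ⟨i, hi, rfl⟩ := Finset.mem_image.1 hi'
    obtain ⟨he, -, hpa, hpb⟩ := hpv i hi
    refine hΦ a (p (σ ++ [φ 0])) _ _ ?_ hΦa
    refine ⟨K', l, R ⊓ (A ⊔ B 0), hv ∘ pv i, hc ∘ pc i, hH, ?_, (he.mono inf_le_right).comp (hpl i hi).1, ?_, ?_⟩
    · intro q
      refine Fin.addCases (fun j => ?_) (fun j => ?_) q
      · rw [Fin.append_left]
        exact haH j
      · rw [Fin.append_right]
        exact hbH j
    · rw [← im_im]
      exact (hpl i hi).2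
    · intro q
      refine Fin.addCases (fun j => ?_) (fun j => ?_) q
      · rw [Fin.append_left, Fin.append_left, Function.comp_apply, hpa _ (haA j)]
      · rw [Fin.append_right, Fin.append_right, Function.comp_apply, ← hkp i j, hpb _ (hpB i j),
          hpl0 _ (hXW0 (hbX1 i hi j))]

end Pool.Low
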