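import Pool.Agent.helper24.Low.Lat

/-!
# Module LA7a (Psi): lower bound for `psi`

Step 1 (remove the vertices in no block).  `Z' = (Z.1 \ {v ∉ B.1 : mm Z v = 0}, Z.2)` is full and contains `B`;
`psi Z = psi Z' + #removed`.  So we may work with `Z'` and show `psi Z' - psi B ≥ J := |Z.2 \ B.2|`.

Step 2.  Put `σ = ∑_{Z'.1} (1 - mm Z) - ∑_{B.1} (1 - mm B)`, `ε = ∑_{ed Z'.1} (1 - m2 Z) - ∑_{ed B.1} (1 - m2 B)`.
Closedness: `0 ≤ del Z' - del B = a σ + b J - ε`.  And `psi Z' - psi B = σ + (n+3) J`, so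
`a (psi Z' - psi B) ≥ ε + (a (n+3) - b) J ≥ ε + 2 a J` (as `b ≤ (n+1) a`).

Step 3.  `-ε ≤ 7 (n+1)^2 J`.  Let `Y = Z.2 \ B.2`, and write `mY p` for `m2` with respect to `Y`;
`-ε = ∑_{p ∈ ed Z'.1 \ ed B.1} (m2 Z p - 1) + ∑_{p ∈ ed B.1} mY p`.
* `∑_{p ∈ ed B.1} mY p = ∑_{c ∈ Y} |ed (tr B.1 c)| ≤ n^2 J` (`sum_m2`; `|tr B.1 c| ≤ n` as `B` is full).
* Let `p ∈ ed Z'.1 \ ed B.1`; it has an end `w ∉ B.1`, so `m2 B p ≤ mm B w ≤ 1` (`cl_unique`).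
  If `m2 B p = 0` then `m2 Z p - 1 = mY p - 1 ≤ (mY p - 1)^+`; their sum is at most `2 (n+1)^2 J` by `rebate_total` for the region
  `(Z'.1, Y) ≤ D`.
  If `m2 B p = 1` then `m2 Z p - 1 = mY p`; so we count pairs `(p, c)`, `c ∈ Y`, `p ⊆ c`, such that both ends of `p` lie in a block
  of `B`.  Both ends are then in `T_c = {x ∈ Z'.1 : inc x c, (x ∈ B.1 or 1 ≤ mm B x)}`, and `|T_c| ≤ n + n` (`B` full and
  `cl_few`), so for every `c` there are at most `(2n)^2` such `p`: total `≤ 4 n^2 J`.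
Total: `n^2 + 4 n^2 + 2 (n+1)^2 ≤ 7 (n+1)^2`.

So `a (psi Z' - psi B) ≥ (2a - 7 (n+1)^2) J ≥ a J`.
-/

set_option autoImplicit false

namespace Pool.Low

open scoped Classical

variable {V C : Type} [DecidableEq V] [DecidableEq C]

/-- double counting of (pair, block) flags for a set of pairs -/
theorem sum_m2_gen (G : Geo V C) (S : Finset (V × V)) (P : Rg V C) :
    ∑ p ∈ S, m2 G P p.1 p.2
      = ∑ c ∈ P.2, (S.filter (fun p => G.inc p.1 c ∧ G.inc p.2 c)).card := by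
  unfold m2
  simp_rw [Finset.card_filter]
  exact Finset.sum_comm

theorem m2_split (G : Geo V C) {B Z : Rg V C} (h : B.2 ⊆ Z.2) (X : Finset V) (u v : V) :
    m2 G Z u v = m2 G B u v + m2 G (X, Z.2 \ B.2) u v := by
  unfold m2
  rw [← Finset.card_union_of_disjoint]
  · congr 1
    ext c
    simp only [Finset.mem_filter, Finset.mem_union, Finset.mem_sdiff]
    constructor
    · rintro ⟨h1, h2⟩
      by_cases hc : c ∈ B.2
      · exact Or.inl ⟨hc, h2⟩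
      · exact Or.inr ⟨⟨h1, hc⟩, h2⟩
    · rintro (⟨h1, h2⟩ | ⟨⟨h1, _⟩, h2⟩)
      · exact ⟨h h1, h2⟩
      · exact ⟨h1, h2⟩
  · rw [Finset.disjoint_left]
    intro c hc hc'
    simp only [Finset.mem_filter, Finset.mem_sdiff] at hc hc'
    exact hc'.1.2 hc.1

/-- **Step 3.** -/
theorem neg_eps_le {G : Geo V C} {n : ℕ} {a b : ℝ} (h : Wt n a b) {D B Z : Rg V C} (hD : PP G n a b D)
    (hB : Cl G n a b D B) (hZ : Full G n D Z) (hBZ : B ≤ Z) :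
    ∑ p ∈ ed G B.1, (1 - (m2 G B p.1 p.2 : ℝ)) - ∑ p ∈ ed G Z.1, (1 - (m2 G Z p.1 p.2 : ℝ))
      ≤ 7 * ((n : ℝ) + 1) ^ 2 * ((Z.2 \ B.2).card : ℝ) := by
  set Y : Finset C := Z.2 \ B.2 with hY
  have hYZ : Y ⊆ Z.2 := Finset.sdiff_subset
  have hYD : Y ⊆ D.2 := hYZ.trans hZ.1.2
  have hYB : ∀ c ∈ Y, c ∉ B.2 := fun c hc => (Finset.mem_sdiff.1 hc).2
  have hsplit : ∀ p : V × V, (m2 G Z p.1 p.2 : ℝ)
      = (m2 G B p.1 p.2 : ℝ) + (m2 G ((Z.1, Y) : Rg V C) p.1 p.2 : ℝ) := by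
    intro p
    rw [m2_split G hBZ.2 Z.1 p.1 p.2]
    push_cast
    rfl
  have hedB : ed G B.1 ⊆ ed G Z.1 := ed_mono hBZ.1
  -- decomposition
  have h1 : ∑ p ∈ ed G Z.1, (1 - (m2 G Z p.1 p.2 : ℝ))
      = ∑ p ∈ ed G Z.1 \ ed G B.1, (1 - (m2 G Z p.1 p.2 : ℝ))
        + ∑ p ∈ ed G B.1, (1 - (m2 G Z p.1 p.2 : ℝ)) := by
    rw [Finset.sum_sdiff hedB]
  have h2 : ∑ p ∈ ed G B.1, (1 - (m2 G B p.1 p.2 : ℝ)) - ∑ p ∈ ed G B.1, (1 - (m2 G Z p.1 p.2 : ℝ))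
      = ∑ p ∈ ed G B.1, (m2 G ((Z.1, Y) : Rg V C) p.1 p.2 : ℝ) := by
    rw [← Finset.sum_sub_distrib]
    apply Finset.sum_congr rfl
    intro p _
    rw [hsplit p]; ring
  -- second part
  have h3 : ∑ p ∈ ed G B.1, (m2 G ((Z.1, Y) : Rg V C) p.1 p.2 : ℝ) ≤ (n : ℝ) ^ 2 * Y.card := by
    have e1 : ∑ p ∈ ed G B.1, m2 G ((Z.1, Y) : Rg V C) p.1 p.2 = ∑ c ∈ Y, (ed G (tr G B.1 c)).card :=
      sum_m2 G B.1 ((Z.1, Y) : Rg V C)
    have e2 : ∑ c ∈ Y, (ed G (tr G B.1 c)).card ≤ ∑ _c ∈ Y, n ^ 2 := by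
      apply Finset.sum_le_sum
      intro c hc
      have e3 : (tr G B.1 c).card ≤ n := by
        by_contra hcon
        exact hYB c hc (hB.1.2 c (hYD hc) (by omega))
      exact (ed_card_le G _).trans (Nat.pow_le_pow_left e3 2)
    rw [Finset.sum_const, smul_eq_mul, ← e1] at e2
    have e4 : ((∑ p ∈ ed G B.1, m2 G ((Z.1, Y) : Rg V C) p.1 p.2 : ℕ) : ℝ) ≤ ((Y.card * n ^ 2 : ℕ) : ℝ) := by
      exact_mod_cast e2
    push_cast at e4
    linarith [e4, mul_comm (Y.card : ℝ) ((n : ℝ) ^ 2)]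
  -- first part
  set S : Finset (V × V) := (ed G Z.1 \ ed G B.1).filter (fun p => m2 G B p.1 p.2 = 1) with hS
  have hle1 : ∀ p ∈ ed G Z.1 \ ed G B.1, m2 G B p.1 p.2 ≤ 1 := by
    intro p hp
    rw [Finset.mem_sdiff, mem_ed, mem_ed] at hp
    obtain ⟨⟨⟨hp1, hp2⟩, hpE⟩, hnp⟩ := hp
    by_cases h1 : p.1 ∈ B.1
    · have h2 : p.2 ∉ B.1 := fun h2 => hnp ⟨⟨h1, h2⟩, hpE⟩
      exact (m2_le_right G B p.1 p.2).trans (cl_unique h hD hB (hZ.1.1 hp2) h2)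
    · exact (m2_le_left G B p.1 p.2).trans (cl_unique h hD hB (hZ.1.1 hp1) h1)
  have h4 : ∑ p ∈ ed G Z.1 \ ed G B.1, ((m2 G Z p.1 p.2 : ℝ) - 1)
      ≤ ∑ p ∈ ed G Z.1, ((m2 G ((Z.1, Y) : Rg V C) p.1 p.2 - 1 : ℕ) : ℝ)
        + ∑ p ∈ S, (m2 G ((Z.1, Y) : Rg V C) p.1 p.2 : ℝ) := by
    have e1 : ∑ p ∈ ed G Z.1 \ ed G B.1, ((m2 G Z p.1 p.2 : ℝ) - 1)
        ≤ ∑ p ∈ ed G Z.1 \ ed G B.1, (((m2 G ((Z.1, Y) : Rg V C) p.1 p.2 - 1 : ℕ) : ℝ)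
          + if m2 G B p.1 p.2 = 1 then (m2 G ((Z.1, Y) : Rg V C) p.1 p.2 : ℝ) else 0) := by
      apply Finset.sum_le_sum
      intro p hp
      have := hle1 p hp
      rw [hsplit p]
      split_ifs with hif
      · rw [hif]
        have : (0:ℝ) ≤ ((m2 G ((Z.1, Y) : Rg V C) p.1 p.2 - 1 : ℕ) : ℝ) := Nat.cast_nonneg _
        push_cast
        linarith
      · have h0 : m2 G B p.1 p.2 = 0 := by omega
        rw [h0]
        have e2 : (m2 G ((Z.1, Y) : Rg V C) p.1 p.2 : ℝ)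
            ≤ ((m2 G ((Z.1, Y) : Rg V C) p.1 p.2 - 1 : ℕ) : ℝ) + 1 := by
          have : m2 G ((Z.1, Y) : Rg V C) p.1 p.2 ≤ (m2 G ((Z.1, Y) : Rg V C) p.1 p.2 - 1) + 1 := by omega
          exact_mod_cast this
        push_cast
        linarith
    rw [Finset.sum_add_distrib, ← Finset.sum_filter] at e1
    have e3 : ∑ p ∈ ed G Z.1 \ ed G B.1, ((m2 G ((Z.1, Y) : Rg V C) p.1 p.2 - 1 : ℕ) : ℝ)
        ≤ ∑ p ∈ ed G Z.1, ((m2 G ((Z.1, Y) : Rg V C) p.1 p.2 - 1 : ℕ) : ℝ) :=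
      Finset.sum_le_sum_of_subset_of_nonneg Finset.sdiff_subset (fun _ _ _ => Nat.cast_nonneg _)
    linarith
  have h5 : ∑ p ∈ ed G Z.1, ((m2 G ((Z.1, Y) : Rg V C) p.1 p.2 - 1 : ℕ) : ℝ)
      ≤ 2 * ((n : ℝ) + 1) ^ 2 * Y.card :=
    rebate_total h hD (P := ((Z.1, Y) : Rg V C)) ⟨hZ.1.1, hYD⟩
  have h6 : ∑ p ∈ S, (m2 G ((Z.1, Y) : Rg V C) p.1 p.2 : ℝ) ≤ 4 * (n : ℝ) ^ 2 * Y.card := by
    have e1 : ∑ p ∈ S, m2 G ((Z.1, Y) : Rg V C) p.1 p.2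
        = ∑ c ∈ Y, (S.filter (fun p => G.inc p.1 c ∧ G.inc p.2 c)).card :=
      sum_m2_gen G S ((Z.1, Y) : Rg V C)
    have e2 : ∑ c ∈ Y, (S.filter (fun p => G.inc p.1 c ∧ G.inc p.2 c)).card ≤ ∑ _c ∈ Y, (2 * n) ^ 2 := by
      apply Finset.sum_le_sum
      intro c hc
      set U : Finset V := Z.1.filter (fun x => x ∉ B.1 ∧ G.inc x c ∧ 1 ≤ mm G B x) with hU
      set T : Finset V := tr G B.1 c ∪ U with hT
      have hUc : U.card ≤ n := by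
        apply cl_few h hD hB (hYD hc) (hYB c hc) U
        intro u hu
        rw [hU, Finset.mem_filter] at hu
        exact ⟨hZ.1.1 hu.1, hu.2.1, hu.2.2.1, hu.2.2.2⟩
      have hBc : (tr G B.1 c).card ≤ n := by
        by_contra hcon
        exact hYB c hc (hB.1.2 c (hYD hc) (by omega))
      have hTc : T.card ≤ 2 * n := (Finset.card_union_le _ _).trans (by omega)
      have hsub : S.filter (fun p => G.inc p.1 c ∧ G.inc p.2 c) ⊆ T ×ˢ T := by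
        intro p hp
        rw [Finset.mem_filter, hS, Finset.mem_filter, Finset.mem_sdiff, mem_ed] at hp
        obtain ⟨⟨⟨⟨⟨hp1, hp2⟩, _⟩, _⟩, hm⟩, hc1, hc2⟩ := hp
        have hm1 : 1 ≤ mm G B p.1 := by
          have := m2_le_left G B p.1 p.2
          omega
        have hm2 : 1 ≤ mm G B p.2 := by
          have := m2_le_right G B p.1 p.2
          omega
        rw [Finset.mem_product]
        refine ⟨?_, ?_⟩
        · rw [hT, Finset.mem_union, mem_tr, hU, Finset.mem_filter]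
          by_cases hb : p.1 ∈ B.1
          · exact Or.inl ⟨hb, hc1⟩
          · exact Or.inr ⟨hp1, hb, hc1, hm1⟩
        · rw [hT, Finset.mem_union, mem_tr, hU, Finset.mem_filter]
          by_cases hb : p.2 ∈ B.1
          · exact Or.inl ⟨hb, hc2⟩
          · exact Or.inr ⟨hp2, hb, hc2, hm2⟩
      calc (S.filter (fun p => G.inc p.1 c ∧ G.inc p.2 c)).card ≤ (T ×ˢ T).card := Finset.card_le_card hsub
        _ = T.card ^ 2 := by rw [Finset.card_product, sq]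
        _ ≤ (2 * n) ^ 2 := Nat.pow_le_pow_left hTc 2
    rw [Finset.sum_const, smul_eq_mul, ← e1] at e2
    have e4 : ((∑ p ∈ S, m2 G ((Z.1, Y) : Rg V C) p.1 p.2 : ℕ) : ℝ) ≤ ((Y.card * (2 * n) ^ 2 : ℕ) : ℝ) := by
      exact_mod_cast e2
    push_cast at e4
    nlinarith [e4]
  have h7 : - ∑ p ∈ ed G Z.1 \ ed G B.1, (1 - (m2 G Z p.1 p.2 : ℝ))
      = ∑ p ∈ ed G Z.1 \ ed G B.1, ((m2 G Z p.1 p.2 : ℝ) - 1) := by
    rw [← Finset.sum_neg_distrib]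
    apply Finset.sum_congr rfl
    intro p _
    ring
  have hn : (0:ℝ) ≤ n := Nat.cast_nonneg n
  have hYc : (0:ℝ) ≤ Y.card := Nat.cast_nonneg _
  have h8 : ((n : ℝ) ^ 2 + 4 * (n : ℝ) ^ 2 + 2 * ((n : ℝ) + 1) ^ 2) * Y.card
      ≤ 7 * ((n : ℝ) + 1) ^ 2 * Y.card := by
    apply mul_le_mul_of_nonneg_right _ hYc
    nlinarith
  nlinarith [h1, h2, h3, h4, h5, h6, h7, h8]

theorem psi_lower {G : Geo V C} {n : ℕ} {a b : ℝ} (h : Wt n a b) {D B Z : Rg V C} (hD : PP G n a b D)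
    (hB : Cl G n a b D B) (hZ : Full G n D Z) (hBZ : B ≤ Z) :
    psi G (n + 3) B + ((((Z.1 \ B.1).filter (fun v => mm G Z v = 0)).card : ℕ) : ℤ) + ((Z.2 \ B.2).card : ℤ)
      ≤ psi G (n + 3) Z := by
  set N0 : Finset V := (Z.1 \ B.1).filter (fun v => mm G Z v = 0) with hN0
  have hN0Z : N0 ⊆ Z.1 := (Finset.filter_subset _ _).trans Finset.sdiff_subset
  set Z' : Rg V C := (Z.1 \ N0, Z.2) with hZ'
  have hZ'1 : Z'.1 = Z.1 \ N0 := rfl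
  have hZ'2 : Z'.2 = Z.2 := rfl
  have hZ'Z : Z'.1 ⊆ Z.1 := Finset.sdiff_subset
  have hfull : Full G n D Z' := by
    refine ⟨⟨hZ'Z.trans hZ.1.1, hZ.1.2⟩, ?_⟩
    intro c hc hcard
    exact hZ.2 c hc (hcard.trans (Finset.card_le_card (tr_mono hZ'Z c)))
  have hBZ' : B ≤ Z' := by
    refine ⟨?_, hBZ.2⟩
    intro v hv
    rw [hZ'1, Finset.mem_sdiff]
    refine ⟨hBZ.1 hv, ?_⟩
    intro hv'
    rw [hN0, Finset.mem_filter, Finset.mem_sdiff] at hv'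
    exact hv'.1.2 hv
  have hmm : ∀ v, mm G Z' v = mm G Z v := fun v => mm_congr rfl v
  -- psi Z = psi Z' + |N0|
  have hpsi : psi G (n + 3) Z = psi G (n + 3) Z' + (N0.card : ℤ) := by
    unfold psi
    have e1 : ∑ v ∈ Z.1, (1 - (mm G Z v : ℤ)) = ∑ v ∈ Z.1 \ N0, (1 - (mm G Z v : ℤ))
        + ∑ v ∈ N0, (1 - (mm G Z v : ℤ)) := by
      rw [Finset.sum_sdiff hN0Z]
    have e2 : ∑ v ∈ N0, (1 - (mm G Z v : ℤ)) = (N0.card : ℤ) := by
      rw [Finset.sum_congr rfl (g := fun _ => (1 : ℤ))]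
      · simp
      · intro v hv
        rw [hN0, Finset.mem_filter] at hv
        rw [hv.2]; simp
    have e3 : ∑ v ∈ Z'.1, (1 - (mm G Z' v : ℤ)) = ∑ v ∈ Z.1 \ N0, (1 - (mm G Z v : ℤ)) := by
      rw [hZ'1]
      apply Finset.sum_congr rfl
      intro v _
      rw [hmm v]
    rw [e1, e2, e3, hZ'2]
    ring
  -- closedness
  have hcl := hB.2 Z' hfull hBZ'
  have hna : (1:ℝ) ≤ n := by exact_mod_cast h.n_pos
  have ha16 : 16 * ((n : ℝ) + 1) ^ 2 ≤ a := h.big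
  have ha : 0 < a := by nlinarith
  have hb : b ≤ ((n : ℝ) + 1) * a := by
    have := h.hi
    nlinarith
  have heps := neg_eps_le h hD hB hfull hBZ'
  rw [hZ'2] at heps
  set J : ℝ := ((Z.2 \ B.2).card : ℝ) with hJ
  have hJ0 : 0 ≤ J := Nat.cast_nonneg _
  have hcard : (Z.2.card : ℝ) = (B.2.card : ℝ) + J := by
    have := Finset.card_sdiff_add_card_eq_card hBZ.2
    rw [hJ]
    have h2 : ((Z.2 \ B.2).card + B.2.card : ℕ) = Z.2.card := this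
    have h3 : (((Z.2 \ B.2).card + B.2.card : ℕ) : ℝ) = (Z.2.card : ℝ) := by exact_mod_cast h2
    push_cast at h3
    linarith
  -- real version of psi
  have hpr : ∀ P : Rg V C, (psi G (n + 3) P : ℝ)
      = ∑ v ∈ P.1, (1 - (mm G P v : ℝ)) + ((n : ℝ) + 3) * (P.2.card : ℝ) := by
    intro P
    unfold psi
    push_cast
    ring
  have hdel : ∀ P : Rg V C, del G a b P = a * ((psi G (n + 3) P : ℝ)) - (a * ((n : ℝ) + 3) - b) * (P.2.card : ℝ)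
      - ∑ p ∈ ed G P.1, (1 - (m2 G P p.1 p.2 : ℝ)) := by
    intro P
    rw [hpr P]
    unfold del
    ring
  rw [hdel B, hdel Z', hZ'2, hcard] at hcl
  have hkey : a * ((psi G (n + 3) B : ℝ) + J) ≤ a * (psi G (n + 3) Z' : ℝ) := by
    have e1 : (2 * a) * J ≤ (a * ((n : ℝ) + 3) - b) * J := by
      apply mul_le_mul_of_nonneg_right _ hJ0
      nlinarith
    have e2 : 7 * ((n : ℝ) + 1) ^ 2 * J ≤ a * J := by
      apply mul_le_mul_of_nonneg_right _ hJ0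
      nlinarith
    nlinarith [hcl, heps, e1, e2]
  have hfin : (psi G (n + 3) B : ℝ) + J ≤ (psi G (n + 3) Z' : ℝ) := le_of_mul_le_mul_left hkey ha
  have hfinZ : psi G (n + 3) B + ((Z.2 \ B.2).card : ℤ) ≤ psi G (n + 3) Z' := by
    have : ((psi G (n + 3) B + ((Z.2 \ B.2).card : ℤ) : ℤ) : ℝ) ≤ ((psi G (n + 3) Z' : ℤ) : ℝ) := by
      push_cast
      exact hfin
    exact_mod_cast this
  rw [hpsi]
  linarith

end Pool.Low
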