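import Pool.Agent.helper24.Low.Psi

/-!
# Module LA7b (Psi2): consequences of `psi_lower`
-/

set_option autoImplicit false

namespace Pool.Low

open scoped Classical

variable {V C : Type} [DecidableEq V] [DecidableEq C]

/-- `(∅, ∅)` is closed (positivity), apply `psi_lower`. -/
theorem psi_nonneg {G : Geo V C} {n : ℕ} {a b : ℝ} (h : Wt n a b) {D Z : Rg V C} (hD : PP G n a b D)
    (hZ : Full G n D Z) : 0 ≤ psi G (n + 3) Z := by
  have hdel0 : del G a b ((∅, ∅) : Rg V C) = 0 := by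
    simp [del, ed]
  have hpsi0 : psi G (n + 3) ((∅, ∅) : Rg V C) = 0 := by
    simp [psi]
  have hE : Cl G n a b D ((∅, ∅) : Rg V C) := by
    refine ⟨⟨⟨Finset.empty_subset _, Finset.empty_subset _⟩, ?_⟩, ?_⟩
    · intro c _ hc
      simp [tr] at hc
    · intro Y hY _
      rw [hdel0]
      exact hD.2.2 Y hY
  have := psi_lower h hD hE hZ ⟨Finset.empty_subset _, Finset.empty_subset _⟩
  rw [hpsi0] at this
  have h1 : (0:ℤ) ≤ ((((Z.1 \ ((∅, ∅) : Rg V C).1).filter (fun v => mm G Z v = 0)).card : ℕ) : ℤ) :=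
    Nat.cast_nonneg _
  have h2 : (0:ℤ) ≤ ((Z.2 \ ((∅, ∅) : Rg V C).2).card : ℤ) := Nat.cast_nonneg _
  linarith

theorem psi_mono {G : Geo V C} {n : ℕ} {a b : ℝ} (h : Wt n a b) {D B Z : Rg V C} (hD : PP G n a b D)
    (hB : Cl G n a b D B) (hZ : Full G n D Z) (hBZ : B ≤ Z) : psi G (n + 3) B ≤ psi G (n + 3) Z := by
  have := psi_lower h hD hB hZ hBZ
  have h1 : (0:ℤ) ≤ ((((Z.1 \ B.1).filter (fun v => mm G Z v = 0)).card : ℕ) : ℤ) := Nat.cast_nonneg _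
  have h2 : (0:ℤ) ≤ ((Z.2 \ B.2).card : ℤ) := Nat.cast_nonneg _
  linarith

/-- `1 - mm v ≤ [mm v = 0]`. -/
theorem psi_upper (G : Geo V C) {L : ℕ} (hL : 1 ≤ L) (Z : Rg V C) : psi G L Z ≤ (L : ℤ) * (sz G Z : ℤ) := by
  have h1 : ∑ v ∈ Z.1, (1 - (mm G Z v : ℤ)) ≤ ((Z.1.filter (fun v => mm G Z v = 0)).card : ℤ) := by
    rw [Finset.card_filter]
    push_cast
    apply Finset.sum_le_sum
    intro v _
    split_ifs with hv
    · rw [hv]; simp
    · have : 1 ≤ mm G Z v := by omega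
      have : (1:ℤ) ≤ (mm G Z v : ℤ) := by exact_mod_cast this
      linarith
  unfold psi sz
  push_cast
  have h2 : (0:ℤ) ≤ ((Z.1.filter (fun v => mm G Z v = 0)).card : ℤ) := Nat.cast_nonneg _
  have h3 : (1:ℤ) ≤ (L : ℤ) := by exact_mod_cast hL
  nlinarith

theorem sz_le (G : Geo V C) (Z : Rg V C) : sz G Z ≤ Z.1.card + Z.2.card := by
  unfold sz
  have := Finset.card_filter_le Z.1 (fun v => mm G Z v = 0)
  omega

/-- **Trivial extensions.**  `psi_lower` gives `Z.2 = B.2` (as `B ≤ Z`) and no new vertex is in no block of `Z`; a new vertex is in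
at most one block of `B` (`cl_unique`), so `mm B v = 1`.  Then `del Z - del B = - ∑_{new edges} (1 - m2 B p)`, where
`m2 B p ≤ mm B (new end) = 1`; as `del B ≤ del Z` (closedness), all these terms vanish. -/
theorem psi_eq_trivial {G : Geo V C} {n : ℕ} {a b : ℝ} (h : Wt n a b) {D B Z : Rg V C} (hD : PP G n a b D)
    (hB : Cl G n a b D B) (hZ : Full G n D Z) (hBZ : B ≤ Z) (hpsi : psi G (n + 3) Z ≤ psi G (n + 3) B) :
    Z.2 = B.2 ∧ (∀ v ∈ Z.1, v ∉ B.1 → mm G B v = 1) ∧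
      (∀ u ∈ Z.1, ∀ v ∈ Z.1, G.E u v → (u ∉ B.1 ∨ v ∉ B.1) → m2 G B u v = 1) ∧
      ∀ a' b' : ℝ, del G a' b' Z = del G a' b' B := by
  have hlow := psi_lower h hD hB hZ hBZ
  have hc1 : (Z.2 \ B.2).card = 0 := by omega
  have hc2 : ((Z.1 \ B.1).filter (fun v => mm G Z v = 0)).card = 0 := by omega
  have hZ2 : Z.2 = B.2 := by
    apply Finset.Subset.antisymm _ hBZ.2
    rw [Finset.card_eq_zero, Finset.sdiff_eq_empty_iff_subset] at hc1
    exact hc1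
  have hmm : ∀ v, mm G Z v = mm G B v := fun v => mm_congr hZ2 v
  have hm2 : ∀ u v, m2 G Z u v = m2 G B u v := fun u v => m2_congr hZ2 u v
  have hone : ∀ v ∈ Z.1, v ∉ B.1 → mm G B v = 1 := by
    intro v hv hvB
    have h1 : mm G B v ≤ 1 := cl_unique h hD hB (hZ.1.1 hv) hvB
    have h2 : mm G B v ≠ 0 := by
      intro h0
      rw [Finset.card_eq_zero, Finset.filter_eq_empty_iff] at hc2
      exact hc2 (Finset.mem_sdiff.2 ⟨hv, hvB⟩) (by rw [hmm v, h0])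
    omega
  have hedB : ed G B.1 ⊆ ed G Z.1 := ed_mono hBZ.1
  -- del Z in terms of del B
  have hdelZ : ∀ a' b' : ℝ, del G a' b' Z = del G a' b' B
      - ∑ p ∈ ed G Z.1 \ ed G B.1, (1 - (m2 G B p.1 p.2 : ℝ)) := by
    intro a' b'
    unfold del
    have e1 : ∑ v ∈ Z.1, (1 - (mm G Z v : ℝ)) = ∑ v ∈ B.1, (1 - (mm G B v : ℝ)) := by
      rw [← Finset.sum_sdiff hBZ.1]
      have e2 : ∑ v ∈ Z.1 \ B.1, (1 - (mm G Z v : ℝ)) = 0 := by
        apply Finset.sum_eq_zero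
        intro v hv
        rw [Finset.mem_sdiff] at hv
        rw [hmm v, hone v hv.1 hv.2]
        simp
      rw [e2, zero_add]
      apply Finset.sum_congr rfl
      intro v _
      rw [hmm v]
    have e3 : ∑ p ∈ ed G Z.1, (1 - (m2 G Z p.1 p.2 : ℝ))
        = ∑ p ∈ ed G Z.1 \ ed G B.1, (1 - (m2 G B p.1 p.2 : ℝ)) + ∑ p ∈ ed G B.1, (1 - (m2 G B p.1 p.2 : ℝ)) := by
      rw [Finset.sum_sdiff hedB]
      apply Finset.sum_congr rfl
      intro p _
      rw [hm2]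
    rw [e1, e3, hZ2]
    ring
  have hle : ∀ p ∈ ed G Z.1 \ ed G B.1, 0 ≤ 1 - (m2 G B p.1 p.2 : ℝ) := by
    intro p hp
    rw [Finset.mem_sdiff, mem_ed, mem_ed] at hp
    obtain ⟨⟨⟨hp1, hp2⟩, hpE⟩, hnp⟩ := hp
    have : m2 G B p.1 p.2 ≤ 1 := by
      by_cases h1 : p.1 ∈ B.1
      · have h2 : p.2 ∉ B.1 := fun h2 => hnp ⟨⟨h1, h2⟩, hpE⟩
        exact (m2_le_right G B p.1 p.2).trans (hone p.2 hp2 h2).le
      · exact (m2_le_left G B p.1 p.2).trans (hone p.1 hp1 h1).le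
    have : (m2 G B p.1 p.2 : ℝ) ≤ 1 := by exact_mod_cast this
    linarith
  have hsum0 : ∑ p ∈ ed G Z.1 \ ed G B.1, (1 - (m2 G B p.1 p.2 : ℝ)) = 0 := by
    have h1 : 0 ≤ ∑ p ∈ ed G Z.1 \ ed G B.1, (1 - (m2 G B p.1 p.2 : ℝ)) := Finset.sum_nonneg hle
    have h2 := hB.2 Z hZ hBZ
    rw [hdelZ a b] at h2
    linarith
  have hall := (Finset.sum_eq_zero_iff_of_nonneg hle).1 hsum0
  refine ⟨hZ2, hone, ?_, ?_⟩
  · intro u hu v hv huv hor
    have hp : (u, v) ∈ ed G Z.1 \ ed G B.1 := by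
      rw [Finset.mem_sdiff, mem_ed, mem_ed]
      refine ⟨⟨⟨hu, hv⟩, huv⟩, ?_⟩
      rintro ⟨⟨h1, h2⟩, _⟩
      rcases hor with h3 | h3
      · exact h3 h1
      · exact h3 h2
    have := hall _ hp
    have h1 : (m2 G B u v : ℝ) = 1 := by
      simp only at this
      linarith
    exact_mod_cast h1
  · intro a' b'
    rw [hdelZ a' b', hsum0, sub_zero]

end Pool.Low
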