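import Pool.Agent.helper24.Low.Hull

/-!
# Module LA3 (Rebate): bounds for multiplicities coming from positivity
-/

set_option autoImplicit false

namespace Pool.Low

open scoped Classical

variable {V C : Type} [DecidableEq V] [DecidableEq C]

theorem rebate_wt {n : ℕ} {a b : ℝ} (h : Wt n a b) : 0 < a ∧ b ≤ ((n : ℝ) + 1) * a := by
  have h1 := h.big
  have h2 := h.hi
  have hn : (0:ℝ) ≤ n := Nat.cast_nonneg n
  have h3 : (16:ℝ) ≤ 16 * ((n : ℝ) + 1) ^ 2 := by nlinarith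
  constructor
  · linarith
  · nlinarith

/-- **Rebate bound.**  `U` is a set of vertices of one colour, so there are no edges inside `U` (`Bip`).  Take `P = (U, Y)` and
its hull `Z` in `D`: `0 ≤ del Z ≤ del P = a * ∑ (1 - mm) + b |Y|` by positivity and `hull_del_noedge`.  So
`a * ∑ (mm - 1) ≤ b |Y| ≤ (n+1) a |Y|`. -/
theorem rebate {G : Geo V C} {n : ℕ} {a b : ℝ} (h : Wt n a b) {D : Rg V C} (hD : PP G n a b D)
    (U : Finset V) (hU : U ⊆ D.1) (col : Bool) (hc : ∀ u ∈ U, G.col u = col) (Y : Finset C) (hY : Y ⊆ D.2) :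
    ∑ u ∈ U, ((mm G (U, Y) u : ℝ) - 1) ≤ ((n : ℝ) + 1) * Y.card := by
  obtain ⟨ha, hb⟩ := rebate_wt h
  have hP : ((U, Y) : Rg V C) ≤ D := ⟨hU, hY⟩
  have hed : ed G U = ∅ := by
    rw [Finset.eq_empty_iff_forall_notMem]
    intro p hp
    rw [mem_ed] at hp
    obtain ⟨h1, h2⟩ := hD.1 p.1 (hU hp.1.1) p.2 (hU hp.1.2) hp.2
    rw [hc _ hp.1.1] at h1
    rw [hc _ hp.1.2, h1] at h2
    exact absurd h2 (by simp)
  have h1 := hD.2.2 (hull G n D (U, Y)) (hull_full hP)
  have h2 := hull_del_noedge h hP hed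
  have h3 : del G a b (U, Y) = a * ∑ v ∈ U, (1 - (mm G (U, Y) v : ℝ)) + b * (Y.card : ℝ) := by
    unfold del
    simp only
    rw [hed, Finset.sum_empty, sub_zero]
  have h4 : ∑ u ∈ U, ((mm G (U, Y) u : ℝ) - 1) = -∑ v ∈ U, (1 - (mm G (U, Y) v : ℝ)) := by
    rw [← Finset.sum_neg_distrib]
    exact Finset.sum_congr rfl fun u _ => by ring
  rw [h4]
  have h5 : 0 ≤ a * ∑ v ∈ U, (1 - (mm G (U, Y) v : ℝ)) + b * (Y.card : ℝ) := by
    rw [← h3]
    linarith
  have h6 : b * (Y.card : ℝ) ≤ ((n : ℝ) + 1) * a * Y.card := mul_le_mul_of_nonneg_right hb (Nat.cast_nonneg _)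
  have h7 : a * (-∑ v ∈ U, (1 - (mm G (U, Y) v : ℝ))) ≤ a * (((n : ℝ) + 1) * Y.card) := by
    have : ((n : ℝ) + 1) * a * Y.card = a * (((n : ℝ) + 1) * Y.card) := by ring
    linarith
  exact le_of_mul_le_mul_left h7 ha

/-- For a vertex `v` and a set `U` of neighbours of `v` (all of the colour opposite to `v` by `Bip`), and a set `Y` of blocks
all containing `v`: apply `rebate`; here `m2 u v = mm u` with respect to `Y`. -/
theorem rebate_nbr {G : Geo V C} {n : ℕ} {a b : ℝ} (h : Wt n a b) {D : Rg V C} (hD : PP G n a b D)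
    (v : V) (hv : v ∈ D.1) (U : Finset V) (hU : U ⊆ D.1) (hE : ∀ u ∈ U, G.E u v ∨ G.E v u)
    (Y : Finset C) (hY : Y ⊆ D.2) (hvY : ∀ c ∈ Y, G.inc v c) :
    ∑ u ∈ U, ((m2 G (U, Y) u v : ℝ) - 1) ≤ ((n : ℝ) + 1) * Y.card := by
  have h1 : ∀ u ∈ U, m2 G (U, Y) u v = mm G (U, Y) u := by
    intro u _
    unfold m2 mm
    congr 1
    apply Finset.filter_congr
    intro c hc
    exact ⟨fun hh => hh.1, fun hh => ⟨hh, hvY c hc⟩⟩
  rw [Finset.sum_congr rfl fun u hu => by rw [h1 u hu]]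
  refine rebate h hD U hU (!(G.col v)) ?_ Y hY
  intro u hu
  rcases hE u hu with h2 | h2
  · obtain ⟨h3, h4⟩ := hD.1 u (hU hu) v hv h2
    rw [h3, h4]
    rfl
  · obtain ⟨h3, h4⟩ := hD.1 v hv u (hU hu) h2
    rw [h3, h4]
    rfl

/-- the vertices of one colour in at least two blocks -/
theorem heavy_col {G : Geo V C} {n : ℕ} {a b : ℝ} (h : Wt n a b) {D : Rg V C} (hD : PP G n a b D)
    {P : Rg V C} (hP : P ≤ D) (col : Bool) :
    ∑ u ∈ (P.1.filter (fun v => 2 ≤ mm G P v ∧ G.col v = col)), ((mm G P u : ℝ) - 1) ≤ ((n : ℝ) + 1) * P.2.card := by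
  have h1 := rebate h hD (P.1.filter (fun v => 2 ≤ mm G P v ∧ G.col v = col)) ((Finset.filter_subset _ _).trans hP.1) col
    (fun u hu => (Finset.mem_filter.1 hu).2.2) P.2 hP.2
  refine le_trans (le_of_eq ?_) h1
  exact Finset.sum_congr rfl fun u _ => rfl

/-- number of vertices in at least two blocks: apply `rebate` to the vertices of each colour with `mm ≥ 2` -/
theorem heavy_card {G : Geo V C} {n : ℕ} {a b : ℝ} (h : Wt n a b) {D : Rg V C} (hD : PP G n a b D)
    {P : Rg V C} (hP : P ≤ D) :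
    ((P.1.filter (fun v => 2 ≤ mm G P v)).card : ℝ) ≤ 2 * ((n : ℝ) + 1) * P.2.card := by
  have h1 : ∀ col : Bool, (((P.1.filter (fun v => 2 ≤ mm G P v ∧ G.col v = col)).card : ℕ) : ℝ) ≤ ((n : ℝ) + 1) * P.2.card := by
    intro col
    refine le_trans ?_ (heavy_col h hD hP col)
    rw [← nsmul_one, ← Finset.sum_const]
    refine Finset.sum_le_sum fun u hu => ?_
    have h2 : 2 ≤ mm G P u := (Finset.mem_filter.1 hu).2.1
    have h3 : (2:ℝ) ≤ mm G P u := by exact_mod_cast h2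
    linarith
  have h2 : P.1.filter (fun v => 2 ≤ mm G P v) ⊆ (P.1.filter (fun v => 2 ≤ mm G P v ∧ G.col v = true)) ∪
      (P.1.filter (fun v => 2 ≤ mm G P v ∧ G.col v = false)) := by
    intro v hv
    rw [Finset.mem_filter] at hv
    rw [Finset.mem_union, Finset.mem_filter, Finset.mem_filter]
    cases hcol : G.col v
    · exact Or.inr ⟨hv.1, hv.2, rfl⟩
    · exact Or.inl ⟨hv.1, hv.2, rfl⟩
  have h3 := (Finset.card_le_card h2).trans (Finset.card_union_le _ _)
  have h4 : ((P.1.filter (fun v => 2 ≤ mm G P v)).card : ℝ) ≤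
      (((P.1.filter (fun v => 2 ≤ mm G P v ∧ G.col v = true)).card : ℕ) : ℝ) +
      (((P.1.filter (fun v => 2 ≤ mm G P v ∧ G.col v = false)).card : ℕ) : ℝ) := by exact_mod_cast h3
  have h5 := h1 true
  have h6 := h1 false
  linarith

/-- **Total rebate.**  (natural subtraction `m2 - 1`.)  For every first end `u` (colour `true`) with `mm u ≥ 2`,
`∑_{v : E u v} (m2 u v - 1)^+ ≤ (n+1) mm u ≤ 2 (n+1) (mm u - 1)` by `rebate_nbr` (take `Y` = blocks of `P` containing `u`, `U` =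
neighbours with `m2 ≥ 1`); if `mm u ≤ 1` the sum is `0`.  Then sum over `u` and use `rebate` for
`{u ∈ P.1 | col u = true, 2 ≤ mm u}`: `∑ (mm u - 1) ≤ (n+1) |P.2|`. -/
theorem rebate_total {G : Geo V C} {n : ℕ} {a b : ℝ} (h : Wt n a b) {D : Rg V C} (hD : PP G n a b D)
    {P : Rg V C} (hP : P ≤ D) :
    ∑ p ∈ ed G P.1, ((m2 G P p.1 p.2 - 1 : ℕ) : ℝ) ≤ 2 * ((n : ℝ) + 1) ^ 2 * P.2.card := by
  have hn : (0:ℝ) ≤ n := Nat.cast_nonneg n
  have h0 : ∑ p ∈ ed G P.1, ((m2 G P p.1 p.2 - 1 : ℕ) : ℝ) =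
      ∑ u ∈ P.1, ∑ v ∈ P.1.filter (fun v => G.E u v), ((m2 G P u v - 1 : ℕ) : ℝ) := by
    unfold ed
    rw [Finset.sum_filter, Finset.sum_product]
    exact Finset.sum_congr rfl fun u _ => (Finset.sum_filter _ _).symm
  have h1 : ∀ u ∈ P.1, ∑ v ∈ P.1.filter (fun v => G.E u v), ((m2 G P u v - 1 : ℕ) : ℝ) ≤
      if 2 ≤ mm G P u ∧ G.col u = true then 2 * ((n : ℝ) + 1) * ((mm G P u : ℝ) - 1) else 0 := by
    intro u hu
    by_cases hc : 2 ≤ mm G P u ∧ G.col u = true
    · rw [if_pos hc]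
      set Y : Finset C := P.2.filter (fun c => G.inc u c) with hY
      set U : Finset V := (P.1.filter (fun v => G.E u v)).filter (fun v => 1 ≤ m2 G P u v) with hU
      have h2 : ∑ v ∈ P.1.filter (fun v => G.E u v), ((m2 G P u v - 1 : ℕ) : ℝ) = ∑ v ∈ U, ((m2 G P u v : ℝ) - 1) := by
        conv_rhs => rw [hU, Finset.sum_filter]
        refine Finset.sum_congr rfl fun v _ => ?_
        by_cases hv : 1 ≤ m2 G P u v
        · rw [if_pos hv, Nat.cast_sub hv, Nat.cast_one]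
        · rw [if_neg hv]
          have : m2 G P u v - 1 = 0 := by omega
          rw [this, Nat.cast_zero]
      have h3 : ∀ v ∈ U, m2 G P u v = m2 G (U, Y) v u := by
        intro v _
        unfold m2
        congr 1
        ext c
        simp only [Finset.mem_filter, hY]
        tauto
      have hUP : U ⊆ P.1 := (Finset.filter_subset _ _).trans (Finset.filter_subset _ _)
      have h4 := rebate_nbr h hD u (hP.1 hu) U (hUP.trans hP.1)
        (fun v hv => Or.inr (Finset.mem_filter.1 (Finset.mem_filter.1 hv).1).2) Y ((Finset.filter_subset _ _).trans hP.2)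
        (fun c hcY => (Finset.mem_filter.1 hcY).2)
      have h7 : ∑ v ∈ U, ((m2 G P u v : ℝ) - 1) = ∑ v ∈ U, ((m2 G (U, Y) v u : ℝ) - 1) :=
        Finset.sum_congr rfl fun v hv => by rw [h3 v hv]
      rw [h2, h7]
      refine h4.trans ?_
      have h5 : (Y.card : ℝ) = (mm G P u : ℝ) := rfl
      rw [h5]
      have h6 : (2:ℝ) ≤ mm G P u := by exact_mod_cast hc.1
      nlinarith
    · rw [if_neg hc]
      refine le_of_eq (Finset.sum_eq_zero fun v hv => ?_)
      rw [Finset.mem_filter] at hv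
      have hcol := (hD.1 u (hP.1 hu) v (hP.1 hv.1) hv.2).1
      have h2 : mm G P u < 2 := by
        by_contra hcon
        exact hc ⟨by omega, hcol⟩
      have h3 := m2_le_left G P u v
      have : m2 G P u v - 1 = 0 := by omega
      rw [this, Nat.cast_zero]
  rw [h0]
  refine (Finset.sum_le_sum h1).trans ?_
  rw [← Finset.sum_filter, ← Finset.mul_sum]
  have h2 := heavy_col h hD hP true
  have h3 : 2 * ((n : ℝ) + 1) * ∑ u ∈ (P.1.filter (fun v => 2 ≤ mm G P v ∧ G.col v = true)), ((mm G P u : ℝ) - 1) ≤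
      2 * ((n : ℝ) + 1) * (((n : ℝ) + 1) * P.2.card) := mul_le_mul_of_nonneg_left h2 (by positivity)
  refine h3.trans (le_of_eq ?_)
  ring

end Pool.Low
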