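import Pool.Agent.helper24.Low.Tr1

/-!
# Module TR2: transport along embeddings of systems

Key lemma `reg_im`: for `Ok S D`, `IsEmb S D S' fv fc`, `B ≤ D` with `Ok S B`, and `e ∈ B.2`,
`reg S' (im fv fc B) (fc e) = im fv fc (reg S B e)`: if `c' = fc c`, `c ∈ B.2`, then `S'.par (fc c) = fc (S.par c)`, `S.par c ∈ B.2`, so
`S'.par (fc c) = fc e ↔ S.par c = e` by injectivity, and `fc c ≠ S'.root = fc S.root ↔ c ≠ S.root` (`S.root ∈ B.2`).
Then everything follows from TR1, because `(fv, fc)` is a `GEmb` on `reg S D e ≤ D`.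
-/

set_option autoImplicit false

namespace Pool.Low

open scoped Classical

variable {V C V' C' V'' C'' : Type} [DecidableEq V] [DecidableEq C] [DecidableEq V'] [DecidableEq C']
  [DecidableEq V''] [DecidableEq C'']
variable {S : Sys V C} {S' : Sys V' C'} {S'' : Sys V'' C''} {D : Rg V C} {fv : V → V'} {fc : C → C'}

theorem IsEmb.mono (h : IsEmb S D S' fv fc) {B : Rg V C} (hB : B ≤ D) : IsEmb S B S' fv fc := by
  exact ⟨h.inj_v.mono hB.1, h.inj_c.mono hB.2, fun v hv => h.col v (hB.1 hv),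
    fun u hu v hv => h.edge u (hB.1 hu) v (hB.1 hv), fun v hv c hc => h.inc v (hB.1 hv) c (hB.2 hc),
    fun c hc => h.lev c (hB.2 hc), fun c hc => h.par c (hB.2 hc), h.root⟩

theorem IsEmb.gemb (h : IsEmb S D S' fv fc) (e : C) : GEmb S.toGeo (reg S D e) S'.toGeo fv fc := by
  have h1 : ∀ v, v ∈ (reg S D e).1 → v ∈ D.1 := fun v hv => (mem_reg1.1 hv).1
  have h2 : ∀ c, c ∈ (reg S D e).2 → c ∈ D.2 := fun c hc => (mem_reg2.1 hc).1
  exact ⟨h.inj_v.mono (fun v hv => h1 v hv), h.inj_c.mono (fun c hc => h2 c hc),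
    fun v hv => h.col v (h1 v hv), fun u hu v hv => h.edge u (h1 u hu) v (h1 v hv),
    fun v hv c hc => h.inc v (h1 v hv) c (h2 c hc)⟩

theorem isEmb_id (S : Sys V C) (D : Rg V C) : IsEmb S D S id id := by
  exact ⟨Set.injOn_id _, Set.injOn_id _, fun _ _ => rfl, fun _ _ _ _ => Iff.rfl,
    fun _ _ _ _ => Iff.rfl, fun _ _ => rfl, fun _ _ => rfl, rfl⟩

/-- only the values on `D` matter (for `root` we need `S.root ∈ D.2`) -/
theorem IsEmb.congr (h : IsEmb S D S' fv fc) (hD : Ok S D) {gv : V → V'} {gc : C → C'}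
    (hv : ∀ v ∈ D.1, gv v = fv v) (hc : ∀ c ∈ D.2, gc c = fc c) : IsEmb S D S' gv gc := by
  refine ⟨?_, ?_, ?_, ?_, ?_, ?_, ?_, ?_⟩
  · intro v hv' w hw he
    rw [hv v hv', hv w hw] at he
    exact h.inj_v hv' hw he
  · intro c hc' d hd he
    rw [hc c hc', hc d hd] at he
    exact h.inj_c hc' hd he
  · intro v hv1
    rw [hv v hv1]
    exact h.col v hv1
  · intro u hu v hv1
    rw [hv u hu, hv v hv1]
    exact h.edge u hu v hv1
  · intro v hv1 c hc1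
    rw [hv v hv1, hc c hc1]
    exact h.inc v hv1 c hc1
  · intro c hc1
    rw [hc c hc1]
    exact h.lev c hc1
  · intro c hc1
    rw [hc c hc1, hc _ (hD.par_mem c hc1)]
    exact h.par c hc1
  · rw [hc _ hD.root_mem]
    exact h.root

theorem IsEmb.comp (h : IsEmb S D S' fv fc) {gv : V' → V''} {gc : C' → C''}
    (h' : IsEmb S' (im fv fc D) S'' gv gc) : IsEmb S D S'' (gv ∘ fv) (gc ∘ fc) := by
  have m1 : ∀ v ∈ D.1, fv v ∈ (im fv fc D).1 := fun v hv => mem_im1.2 ⟨v, hv, rfl⟩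
  have m2 : ∀ c ∈ D.2, fc c ∈ (im fv fc D).2 := fun c hc => mem_im2.2 ⟨c, hc, rfl⟩
  refine ⟨?_, ?_, ?_, ?_, ?_, ?_, ?_, ?_⟩
  · intro v hv w hw he
    exact h.inj_v hv hw (h'.inj_v (m1 v hv) (m1 w hw) he)
  · intro c hc d hd he
    exact h.inj_c hc hd (h'.inj_c (m2 c hc) (m2 d hd) he)
  · intro v hv
    exact (h'.col _ (m1 v hv)).trans (h.col v hv)
  · intro u hu v hv
    exact (h'.edge _ (m1 u hu) _ (m1 v hv)).trans (h.edge u hu v hv)
  · intro v hv c hc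
    exact (h'.inc _ (m1 v hv) _ (m2 c hc)).trans (h.inc v hv c hc)
  · intro c hc
    exact (h'.lev _ (m2 c hc)).trans (h.lev c hc)
  · intro c hc
    show S''.par (gc (fc c)) = gc (fc (S.par c))
    rw [h'.par _ (m2 c hc), h.par c hc]
  · show gc (fc S.root) = S''.root
    rw [h.root, h'.root]

/-- inverse embedding -/
theorem IsEmb.inv [Nonempty V] (h : IsEmb S D S' fv fc) (hD : Ok S D) :
    ∃ (gv : V' → V) (gc : C' → C), IsEmb S' (im fv fc D) S gv gc ∧ (∀ v ∈ D.1, gv (fv v) = v) ∧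
      (∀ c ∈ D.2, gc (fc c) = c) := by
  have hgv : ∀ v ∈ D.1, Function.invFunOn fv (D.1 : Set V) (fv v) = v := by
    intro v hv
    exact h.inj_v (Function.invFunOn_mem ⟨v, hv, rfl⟩) hv (Function.invFunOn_eq ⟨v, hv, rfl⟩)
  haveI : Nonempty C := ⟨S.root⟩
  have hgc : ∀ c ∈ D.2, Function.invFunOn fc (D.2 : Set C) (fc c) = c := by
    intro c hc
    exact h.inj_c (Function.invFunOn_mem ⟨c, hc, rfl⟩) hc (Function.invFunOn_eq ⟨c, hc, rfl⟩)
  refine ⟨Function.invFunOn fv (D.1 : Set V), Function.invFunOn fc (D.2 : Set C), ?_, hgv, hgc⟩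
  refine ⟨?_, ?_, ?_, ?_, ?_, ?_, ?_, ?_⟩
  · intro v' hv' w' hw' he
    obtain ⟨v, hv, rfl⟩ := mem_im1.1 (Finset.mem_coe.1 hv')
    obtain ⟨w, hw, rfl⟩ := mem_im1.1 (Finset.mem_coe.1 hw')
    rw [hgv v hv, hgv w hw] at he
    rw [he]
  · intro v' hv' w' hw' he
    obtain ⟨v, hv, rfl⟩ := mem_im2.1 (Finset.mem_coe.1 hv')
    obtain ⟨w, hw, rfl⟩ := mem_im2.1 (Finset.mem_coe.1 hw')
    rw [hgc v hv, hgc w hw] at he
    rw [he]
  · intro v' hv'
    obtain ⟨v, hv, rfl⟩ := mem_im1.1 hv'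
    rw [hgv v hv, h.col v hv]
  · intro u' hu' v' hv'
    obtain ⟨u, hu, rfl⟩ := mem_im1.1 hu'
    obtain ⟨v, hv, rfl⟩ := mem_im1.1 hv'
    rw [hgv v hv, hgv u hu]
    exact (h.edge u hu v hv).symm
  · intro v' hv' c' hc'
    obtain ⟨v, hv, rfl⟩ := mem_im1.1 hv'
    obtain ⟨c, hc, rfl⟩ := mem_im2.1 hc'
    rw [hgv v hv, hgc c hc]
    exact (h.inc v hv c hc).symm
  · intro c' hc'
    obtain ⟨c, hc, rfl⟩ := mem_im2.1 hc'
    rw [hgc c hc, h.lev c hc]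
  · intro c' hc'
    obtain ⟨c, hc, rfl⟩ := mem_im2.1 hc'
    rw [hgc c hc, h.par c hc, hgc _ (hD.par_mem c hc)]
  · rw [← h.root, hgc _ hD.root_mem]

theorem reg_im (h : IsEmb S D S' fv fc) {B : Rg V C} (hB : B ≤ D) (hokB : Ok S B) {e : C} (he : e ∈ B.2) :
    reg S' (im fv fc B) (fc e) = im fv fc (reg S B e) := by
  apply rg_ext
  · intro v'
    rw [mem_reg1, mem_im1, mem_im1]
    constructor
    · rintro ⟨⟨v, hv, rfl⟩, hi⟩
      exact ⟨v, mem_reg1.2 ⟨hv, (h.inc v (hB.1 hv) e (hB.2 he)).1 hi⟩, rfl⟩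
    · rintro ⟨v, hv, rfl⟩
      obtain ⟨h1, h2⟩ := mem_reg1.1 hv
      exact ⟨⟨v, h1, rfl⟩, (h.inc v (hB.1 h1) e (hB.2 he)).2 h2⟩
  · intro c'
    rw [mem_reg2, mem_im2, mem_im2]
    constructor
    · rintro ⟨⟨c, hc, rfl⟩, hp, hr⟩
      rw [h.par c (hB.2 hc)] at hp
      refine ⟨c, mem_reg2.2 ⟨hc, h.inj_c (hB.2 (hokB.par_mem c hc)) (hB.2 he) hp, ?_⟩, rfl⟩
      rintro rfl
      exact hr h.root
    · rintro ⟨c, hc, rfl⟩
      obtain ⟨h1, h2, h3⟩ := mem_reg2.1 hc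
      refine ⟨⟨c, h1, rfl⟩, ?_, ?_⟩
      · rw [h.par c (hB.2 h1), h2]
      · intro hr
        rw [← h.root] at hr
        exact h3 (h.inj_c (hB.2 h1) (hB.2 hokB.root_mem) hr)

theorem IsEmb.ok (h : IsEmb S D S' fv fc) (hD : Ok S D) : Ok S' (im fv fc D) := by
  refine ⟨?_, ?_, ?_, ?_, ?_, ?_, ?_, ?_⟩
  · rw [← h.root]
    exact mem_im2.2 ⟨_, hD.root_mem, rfl⟩
  · intro c' hc'
    obtain ⟨c, hc, rfl⟩ := mem_im2.1 hc'
    rw [h.par c hc]
    exact mem_im2.2 ⟨_, hD.par_mem c hc, rfl⟩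
  · rw [← h.root, h.lev _ hD.root_mem, hD.lev_root]
  · rw [← h.root, h.par _ hD.root_mem, hD.par_root]
  · intro c' hc' hr
    obtain ⟨c, hc, rfl⟩ := mem_im2.1 hc'
    have hc0 : c ≠ S.root := by
      rintro rfl
      exact hr h.root
    rw [h.lev c hc, h.par c hc, h.lev _ (hD.par_mem c hc), hD.lev_par c hc hc0]
  · intro v' hv'
    obtain ⟨v, hv, rfl⟩ := mem_im1.1 hv'
    rw [← h.root]
    exact (h.inc v hv _ hD.root_mem).2 (hD.inc_root v hv)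
  · intro v' hv' c' hc' hi
    obtain ⟨v, hv, rfl⟩ := mem_im1.1 hv'
    obtain ⟨c, hc, rfl⟩ := mem_im2.1 hc'
    rw [h.par c hc]
    exact (h.inc v hv _ (hD.par_mem c hc)).2 (hD.inc_par v hv c hc ((h.inc v hv c hc).1 hi))
  · intro u' hu' v' hv' hE
    obtain ⟨u, hu, rfl⟩ := mem_im1.1 hu'
    obtain ⟨v, hv, rfl⟩ := mem_im1.1 hv'
    have h1 := hD.bip u hu v hv ((h.edge u hu v hv).1 hE)
    exact ⟨(h.col u hu).trans h1.1, (h.col v hv).trans h1.2⟩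

theorem IsEmb.kl (h : IsEmb S D S' fv fc) {P : Par} {act : Set ℕ} (hD : KL P act S D) :
    KL P act S' (im fv fc D) := by
  refine ⟨h.ok hD.ok, ?_⟩
  intro e' he' hl
  obtain ⟨e, he, rfl⟩ := mem_im2.1 he'
  rw [h.lev e he] at hl ⊢
  rw [reg_im h le_rfl hD.ok he]
  exact (h.gemb e).kk_iff.2 (hD.kk e he hl)

theorem IsEmb.clL (h : IsEmb S D S' fv fc) {P : Par} {act : Set ℕ} {t : ℝ} (hD : Ok S D) {B : Rg V C}
    (hB : ClL P act t S D B) : ClL P act t S' (im fv fc D) (im fv fc B) := by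
  refine ⟨im_mono hB.le, (h.mono hB.le).ok hB.ok, ?_⟩
  intro e' he' hl
  obtain ⟨e, he, rfl⟩ := mem_im2.1 he'
  rw [h.lev e (hB.le.2 he)] at hl ⊢
  rw [reg_im h le_rfl hD (hB.le.2 he), reg_im h hB.le hB.ok he]
  exact ((h.gemb e).cl_iff (reg_mono hB.le e)).2 (hB.cl e he hl)

/-- converse: if the image is closed then so is the region -/
theorem IsEmb.clL_of (h : IsEmb S D S' fv fc) {P : Par} {act : Set ℕ} {t : ℝ} (hD : Ok S D) {B : Rg V C}
    (hB : B ≤ D) (hokB : Ok S B) (hcl : ClL P act t S' (im fv fc D) (im fv fc B)) : ClL P act t S D B := by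
  refine ⟨hB, hokB, ?_⟩
  intro e he hl
  have h1 := hcl.cl (fc e) (mem_im2.2 ⟨e, he, rfl⟩) (by rw [h.lev e (hB.2 he)]; exact hl)
  rw [h.lev e (hB.2 he), reg_im h le_rfl hD (hB.2 he), reg_im h hB hokB he] at h1
  exact ((h.gemb e).cl_iff (reg_mono hB e)).1 h1

end Pool.Low
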