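import Pool.Agent.helper24.Low.GenL
import Pool.Agent.helper24.Low.Tr2

/-!
# Module TY1 (Types): the relation `rr` (same type) on tuples of vertices of the generic system
-/

set_option autoImplicit false

namespace Pool.Low

open scoped Classical

variable {P : Par} {S : Sys ℕ ℕ} {D : ℕ → Rg ℕ ℕ}

/-- `B = D k` for large `k`, identity maps. -/
theorem rr_refl (hP : Good0 P) (hG : Gen P S D) {N : ℕ} (x : Fin N → ℕ) (hx : ∀ i, dom D (x i)) :
    rr P S D N x x := by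
  obtain ⟨k, -, hk⟩ := Gen.exists_stage hP hG (Finset.univ.image x)
    (by
      intro v hv
      obtain ⟨i, -, rfl⟩ := Finset.mem_image.1 hv
      exact hx i) 0
  refine ⟨k, k, D k, id, id, clL_refl (hG.kl k).ok, fun i => hk (Finset.mem_image.2 ⟨i, Finset.mem_univ _, rfl⟩),
    isEmb_id S (D k), ?_, fun i => rfl⟩
  rw [im_id]
  exact clL_refl (hG.kl k).ok

theorem rr_dom {N : ℕ} {x y : Fin N → ℕ} (h : rr P S D N x y) : (∀ i, dom D (x i)) ∧ ∀ i, dom D (y i) := by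
  obtain ⟨k, l, B, fv, fc, hB, hx, hf, hB', hxy⟩ := h
  refine ⟨fun i => ⟨k, hB.le.1 (hx i)⟩, fun i => ⟨l, hB'.le.1 ?_⟩⟩
  rw [← hxy i]
  exact mem_im1.2 ⟨x i, hx i, rfl⟩

/-- inverse embedding (`IsEmb.inv`) -/
theorem rr_symm {N : ℕ} {x y : Fin N → ℕ} (h : rr P S D N x y) : rr P S D N y x := by
  obtain ⟨k, l, B, fv, fc, hB, hx, hf, hB', hxy⟩ := h
  obtain ⟨gv, gc, hg, hgv, hgc⟩ := hf.inv hB.ok
  refine ⟨l, k, im fv fc B, gv, gc, hB', fun i => ?_, hg, ?_, fun i => ?_⟩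
  · rw [← hxy i]
    exact mem_im1.2 ⟨x i, hx i, rfl⟩
  · have he : im gv gc (im fv fc B) = B := by
      rw [im_im]
      exact (im_congr (gv := id) (gc := id) (fun v hv => hgv v hv) (fun c hc => hgc c hc)).trans (im_id B)
    rw [he]
    exact hB
  · rw [← hxy i]
    exact hgv _ (hx i)

/-- Let `f : B → B'` and `g : C → C'` be the two isomorphisms, `y` in `B'` and in `C`.  `B' ⊓ C` is closed (`Gen.inf`).  With the inverse
`f⁻¹ : B' → B` (`IsEmb.inv`) put `B0 = im f⁻¹ (B' ⊓ C)`, closed in `B` (`IsEmb.clL`), hence in some `D k` (`clL_trans`); then `g ∘ f` embeds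
`B0`, with image `im g (B' ⊓ C)`, closed in `C'` (`IsEmb.clL`), hence in some `D l`. -/
theorem rr_trans (hP : Good0 P) (hG : Gen P S D) {N : ℕ} {x y z : Fin N → ℕ} (h : rr P S D N x y)
    (h' : rr P S D N y z) : rr P S D N x z := by
  obtain ⟨k, l, B, fv, fc, hB, hx, hf, hB', hxy⟩ := h
  obtain ⟨k', l', C, gv, gc, hC, hy, hg, hC', hyz⟩ := h'
  obtain ⟨iv, ic, hi, hiv, hic⟩ := hf.inv hB.ok
  -- the intersection is closed in both
  have hI1 : ClL P Set.univ P.θ S (im fv fc B) (im fv fc B ⊓ C) :=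
    Pool.Low.clL_of_le (Gen.inf hP hG hB' hC) hB'.fullL inf_le_left
  have hI2 : ClL P Set.univ P.θ S C (im fv fc B ⊓ C) := by
    rw [inf_comm]
    exact Pool.Low.clL_of_le (Gen.inf hP hG hC hB') hC.fullL inf_le_left
  have hiB : im iv ic (im fv fc B) = B := by
    rw [im_im]
    exact (im_congr (gv := id) (gc := id) (fun v hv => hiv v hv) (fun c hc => hic c hc)).trans (im_id B)
  have hB0B : ClL P Set.univ P.θ S B (im iv ic (im fv fc B ⊓ C)) := by
    have h1 := hi.clL hB'.ok hI1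
    rwa [hiB] at h1
  have hB0 : ClL P Set.univ P.θ S (D k) (im iv ic (im fv fc B ⊓ C)) :=
    clL_trans hP hP.θ_pos.le le_rfl (hG.kl k) hB hB0B
  have hfv : ∀ v ∈ (im fv fc B).1, fv (iv v) = v := by
    intro v hv
    obtain ⟨u, hu, rfl⟩ := mem_im1.1 hv
    rw [hiv u hu]
  have hfc : ∀ c ∈ (im fv fc B).2, fc (ic c) = c := by
    intro c hc
    obtain ⟨d, hd, rfl⟩ := mem_im2.1 hc
    rw [hic d hd]
  have him : im fv fc (im iv ic (im fv fc B ⊓ C)) = im fv fc B ⊓ C := by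
    rw [im_im]
    exact (im_congr (gv := id) (gc := id) (fun v hv => hfv v (mem_inf1.1 hv).1)
      (fun c hc => hfc c (mem_inf2.1 hc).1)).trans (im_id _)
  refine ⟨k, l', im iv ic (im fv fc B ⊓ C), gv ∘ fv, gc ∘ fc, hB0, fun i => ?_, ?_, ?_, fun i => ?_⟩
  · refine mem_im1.2 ⟨y i, mem_inf1.2 ⟨?_, hy i⟩, ?_⟩
    · rw [← hxy i]
      exact mem_im1.2 ⟨x i, hx i, rfl⟩
    · rw [← hxy i]
      exact hiv _ (hx i)
  · refine (hf.mono hB0B.le).comp ?_
    rw [him]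
    exact hg.mono inf_le_right
  · rw [← im_im, him]
    exact clL_trans hP hP.θ_pos.le le_rfl (hG.kl l') hC' (hg.clL hC.ok hI2)
  · show gv (fv (x i)) = z i
    rw [hxy i, hyz i]

theorem rr_reindex {N M : ℕ} (σ : Fin M → Fin N) {x y : Fin N → ℕ} (h : rr P S D N x y) :
    rr P S D M (x ∘ σ) (y ∘ σ) := by
  obtain ⟨k, l, B, fv, fc, hB, hx, hf, hB', hxy⟩ := h
  exact ⟨k, l, B, fv, fc, hB, fun i => hx (σ i), hf, hB', fun i => hxy (σ i)⟩

theorem rr_eqv {N : ℕ} {x y : Fin N → ℕ} (h : rr P S D N x y) (i j : Fin N) (hij : x i = x j) : y i = y j := by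
  obtain ⟨k, l, B, fv, fc, hB, hx, hf, hB', hxy⟩ := h
  rw [← hxy i, ← hxy j, hij]

theorem rr_edge {u v u' v' : ℕ} (h : rr P S D 2 ![u, v] ![u', v']) (he : S.E u v) : S.E u' v' := by
  obtain ⟨k, l, B, fv, fc, hB, hx, hf, hB', hxy⟩ := h
  have h0 : fv u = u' := hxy 0
  have h1 : fv v = v' := hxy 1
  have hu : u ∈ B.1 := hx 0
  have hv : v ∈ B.1 := hx 1
  rw [← h0, ← h1]
  exact (hf.edge u hu v hv).2 he

/-- **Extension.**  Let `f : B → B'` be the isomorphism, `B` closed in `D k`, `B'` in `D l`.  Choose `k' ≥ k` with `a ∈ (D k').1`; `B` is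
closed in `D k'`.  `Gen.ext` with `S2 = S`, `A = D k'`, `B`: an embedding `h` of `D k'` onto a closed region, extending `f`.  `b = h a`. -/
theorem rr_ext (hP : Good0 P) (hG : Gen P S D) {N : ℕ} {x y : Fin N → ℕ} (h : rr P S D N x y) (a : ℕ)
    (ha : dom D a) :
    ∃ b, dom D b ∧ rr P S D (N + 1) (Fin.snoc (α := fun _ => ℕ) x a) (Fin.snoc (α := fun _ => ℕ) y b) := by
  obtain ⟨k, l, B, fv, fc, hB, hx, hf, hB', hxy⟩ := h
  obtain ⟨k', hkk', hk'⟩ := Gen.exists_stage hP hG {a} (by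
    intro v hv
    rw [Finset.mem_singleton] at hv
    rw [hv]
    exact ha) k
  have hak : a ∈ (D k').1 := hk' (Finset.mem_singleton_self a)
  have hBk : ClL P Set.univ P.θ S (D k') B := Gen.lift hP hG hkk' hB
  obtain ⟨l', hv, hc, -, hemb, hvB, -, hcl⟩ := hG.ext ℕ ℕ S (D k') B fv fc l (hG.kl k') hBk hf hB'
  refine ⟨hv a, ⟨l', hcl.le.1 (mem_im1.2 ⟨a, hak, rfl⟩)⟩, k', l', D k', hv, hc, clL_refl (hG.kl k').ok, ?_, hemb,
    hcl, ?_⟩
  · intro i
    refine Fin.lastCases ?_ (fun j => ?_) i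
    · rw [Fin.snoc_last]
      exact hak
    · rw [Fin.snoc_castSucc]
      exact hBk.le.1 (hx j)
  · intro i
    refine Fin.lastCases ?_ (fun j => ?_) i
    · rw [Fin.snoc_last, Fin.snoc_last]
    · rw [Fin.snoc_castSucc, Fin.snoc_castSucc, hvB _ (hx j), hxy j]

end Pool.Low
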