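import Pool.Agent.helper24.Low.Star
import Pool.Agent.helper24.Low.GenL
import Pool.Agent.helper24.Low.GS2
import Pool.Agent.helper24.Low.Types

/-!
# Module NL2 (Seq): the sequence `y` in the generic system

`exists_seq`: construct embeddings `h_m` of `Y_m = (Icc 1 m, range (s+1))` (a region of `starS ∅`) onto closed regions, each extending the
previous one: `m = 0`: `Gen.ext` with `A = (∅, range (s+1))`, `B = (∅, {0})` (`star_cl0`), mapped to `(∅, {S.root})`, which is closed in `D 0`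
(at the root: `(∅, ∅)` is closed by positivity: `KL.ppt`).  `m → m + 1`: `Gen.ext` with `A = Y_{m+1}`, `B = Y_m` (`star_cl`; `0 ∉ Icc`).
`y j = h_{j+1} (j+1)`, `e = h_0` on blocks; then `h_m` agrees with `(fun v => y (v - 1), e)` on `Y_m` (`IsEmb.congr`).

`seq_indisc`: let `Z_f = (image of i ↦ f i + 1, range (s+1))`, closed in `Y_m` for large `m` (`star_cl`), so its image is closed in the generic
system.  The map `f i + 1 ↦ g i + 1` is an isomorphism `Z_f → Z_g` in `starS ∅` (no edges).  Compose (`IsEmb.of_comp`).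

`seq_consistent`: `Gen.ext` with `S2 = starS (range k)`, `A = (insert 0 (Icc 1 k), range (s+1))`, `B = (Icc 1 k, range (s+1))`
(`star_cl`, `k ≤ wa`; on `B` the systems `starS (range k)` and `starS ∅` agree as `0 ∉ B.1`), mapped by `(fun v => y (v-1), e)`; `x = hv 0`.
-/

set_option autoImplicit false

namespace Pool.Low

open scoped Classical

variable {P : Par} {S : Sys ℕ ℕ} {D : ℕ → Rg ℕ ℕ}

/-- `y 0, y 1, ...` is a generic sequence in a chain of blocks `e 0 = root, e 1, ..., e s`. -/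
def IsSeq (P : Par) (S : Sys ℕ ℕ) (D : ℕ → Rg ℕ ℕ) (s : ℕ) (y e : ℕ → ℕ) : Prop :=
  ∀ m : ℕ, IsEmb (starS ∅) (Finset.Icc 1 m, Finset.range (s + 1)) S (fun v => y (v - 1)) e ∧
    ∃ k, ClL P Set.univ P.θ S (D k) (im (fun v => y (v - 1)) e ((Finset.Icc 1 m, Finset.range (s + 1)) : Rg ℕ ℕ))

theorem Seq.root_closed (hP : Good0 P) (hG : Gen P S D) :
    ClL P Set.univ P.θ S (D 0) ((∅, {S.root}) : Rg ℕ ℕ) := by
  have hkl := hG.kl 0
  have hle : ((∅, {S.root}) : Rg ℕ ℕ) ≤ D 0 :=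
    ⟨Finset.empty_subset _, Finset.singleton_subset_iff.2 hkl.ok.root_mem⟩
  have hreg : reg S ((∅, {S.root}) : Rg ℕ ℕ) S.root = (∅, ∅) := by
    apply rg_ext
    · intro v
      rw [mem_reg1]
      simp
    · intro c
      rw [mem_reg2]
      constructor
      · rintro ⟨h1, _, h3⟩
        exact absurd (Finset.mem_singleton.1 h1) h3
      · intro h1
        exact absurd h1 (Finset.notMem_empty c)
  refine ⟨hle, ok_of_le hkl.ok hle (by simp) ?_, ?_⟩
  · intro c hc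
    have hc' : c = S.root := by simpa using hc
    rw [hc', hkl.ok.par_root]
    simp
  · intro e he _
    have he' : e = S.root := by simpa using he
    subst he'
    rw [hreg]
    have hppt := hkl.ppt hP hP.θ_pos.le le_rfl hkl.ok.root_mem (Set.mem_univ _)
    have hfull : Full S.toGeo (P.gs (S.lev S.root) + 1) (reg S (D 0) S.root) ((∅, ∅) : Rg ℕ ℕ) := by
      refine ⟨⟨Finset.empty_subset _, Finset.empty_subset _⟩, ?_⟩
      intro c _ hcard
      exfalso
      have h0 : tr S.toGeo (∅ : Finset ℕ) c = ∅ := by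
        apply Finset.eq_empty_of_forall_notMem
        intro v hv
        rw [mem_tr] at hv
        simp at hv
      rw [h0] at hcard
      simp at hcard
    refine ⟨hfull, ?_⟩
    intro Z hZ _
    have h1 : del S.toGeo (wa (P.gs (S.lev S.root)) P.θ) (wb (P.gs (S.lev S.root)) P.θ) ((∅, ∅) : Rg ℕ ℕ) = 0 := by
      simp [del, ed]
    rw [h1]
    exact hppt.2.2 Z hZ

theorem Seq.base (hP : Good0 P) (hG : Gen P S D) (s : ℕ) : ∃ hv hc : ℕ → ℕ,
    IsEmb (starS ∅) (Finset.Icc 1 0, Finset.range (s + 1)) S hv hc ∧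
    ∃ k, ClL P Set.univ P.θ S (D k) (im hv hc ((Finset.Icc 1 0, Finset.range (s + 1)) : Rg ℕ ℕ)) := by
  have hkl := hG.kl 0
  have hemb : IsEmb (starS ∅) ((∅, {0}) : Rg ℕ ℕ) S id (fun _ => S.root) := by
    refine ⟨?_, ?_, ?_, ?_, ?_, ?_, ?_, rfl⟩
    · intro v hv
      simp at hv
    · intro c hc c' hc' _
      have h1 : c = 0 := by simpa using hc
      have h2 : c' = 0 := by simpa using hc'
      rw [h1, h2]
    · intro v hv
      simp at hv
    · intro v hv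
      simp at hv
    · intro v hv
      simp at hv
    · intro c hc
      have h1 : c = 0 := by simpa using hc
      subst h1
      exact hkl.ok.lev_root
    · intro c hc
      exact hkl.ok.par_root
  have him : im id (fun _ : ℕ => S.root) ((∅, {0}) : Rg ℕ ℕ) = (∅, {S.root}) := by
    simp [im]
  obtain ⟨l, hv, hc, _, h1, _, _, h2⟩ := hG.ext ℕ ℕ (starS ∅) (∅, Finset.range (s + 1)) (∅, {0}) id
    (fun _ => S.root) 0 (star_kl hP ∅ s ∅) (star_cl0 hP ∅ s) hemb (by rw [him]; exact Seq.root_closed hP hG)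
  have hIcc : Finset.Icc 1 0 = (∅ : Finset ℕ) := by simp
  rw [hIcc]
  exact ⟨hv, hc, h1, l, h2⟩

theorem Seq.next (hP : Good0 P) (hG : Gen P S D) (s m : ℕ) (hv hc : ℕ → ℕ)
    (h : IsEmb (starS ∅) (Finset.Icc 1 m, Finset.range (s + 1)) S hv hc ∧
    ∃ k, ClL P Set.univ P.θ S (D k) (im hv hc ((Finset.Icc 1 m, Finset.range (s + 1)) : Rg ℕ ℕ))) :
    ∃ hv' hc' : ℕ → ℕ, (IsEmb (starS ∅) (Finset.Icc 1 (m + 1), Finset.range (s + 1)) S hv' hc' ∧
    ∃ k, ClL P Set.univ P.θ S (D k) (im hv' hc' ((Finset.Icc 1 (m + 1), Finset.range (s + 1)) : Rg ℕ ℕ))) ∧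
    (∀ v ∈ Finset.Icc 1 m, hv' v = hv v) ∧ ∀ c ∈ Finset.range (s + 1), hc' c = hc c := by
  obtain ⟨h1, k, h2⟩ := h
  obtain ⟨l, hv', hc', _, h3, h4, h5, h6⟩ := hG.ext ℕ ℕ (starS ∅) (Finset.Icc 1 (m + 1), Finset.range (s + 1))
    (Finset.Icc 1 m, Finset.range (s + 1)) hv hc k (star_kl hP ∅ s _)
    (star_cl hP ∅ s (Finset.Icc_subset_Icc le_rfl (Nat.le_succ m)) (fun h0 => by simp at h0)) h1 h2
  exact ⟨hv', hc', ⟨h3, l, h6⟩, h4, h5⟩

theorem exists_seq (hP : Good0 P) (hG : Gen P S D) (s : ℕ) : ∃ y e : ℕ → ℕ, IsSeq P S D s y e := by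
  let Gd : ℕ → (ℕ → ℕ) × (ℕ → ℕ) → Prop := fun m p =>
    IsEmb (starS ∅) (Finset.Icc 1 m, Finset.range (s + 1)) S p.1 p.2 ∧
      ∃ k, ClL P Set.univ P.θ S (D k) (im p.1 p.2 ((Finset.Icc 1 m, Finset.range (s + 1)) : Rg ℕ ℕ))
  have hbase : ∃ p, Gd 0 p := by
    obtain ⟨hv, hc, h⟩ := Seq.base hP hG s
    exact ⟨(hv, hc), h⟩
  have hnext : ∀ m p, Gd m p → ∃ q, Gd (m + 1) q ∧ (∀ v ∈ Finset.Icc 1 m, q.1 v = p.1 v) ∧
      ∀ c ∈ Finset.range (s + 1), q.2 c = p.2 c := by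
    intro m p hp
    obtain ⟨hv', hc', h1, h2, h3⟩ := Seq.next hP hG s m p.1 p.2 hp
    exact ⟨(hv', hc'), h1, h2, h3⟩
  let a : (m : ℕ) → {p : (ℕ → ℕ) × (ℕ → ℕ) // Gd m p} := fun m =>
    Nat.rec (motive := fun m => {p : (ℕ → ℕ) × (ℕ → ℕ) // Gd m p}) ⟨hbase.choose, hbase.choose_spec⟩
      (fun m p => ⟨(hnext m p.1 p.2).choose, (hnext m p.1 p.2).choose_spec.1⟩) m
  have ha : ∀ m, (∀ v ∈ Finset.Icc 1 m, (a (m + 1)).1.1 v = (a m).1.1 v) ∧
      ∀ c ∈ Finset.range (s + 1), (a (m + 1)).1.2 c = (a m).1.2 c := by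
    intro m
    exact (hnext m (a m).1 (a m).2).choose_spec.2
  have hav : ∀ m v, 1 ≤ v → v ≤ m → (a m).1.1 v = (a v).1.1 v := by
    intro m v hv hvm
    induction m, hvm using Nat.le_induction with
    | base => rfl
    | succ m hm ih => rw [(ha m).1 v (Finset.mem_Icc.2 ⟨hv, hm⟩), ih]
  have hac : ∀ m, ∀ c ∈ Finset.range (s + 1), (a m).1.2 c = (a 0).1.2 c := by
    intro m c hc
    induction m with
    | zero => rfl
    | succ m ih => rw [(ha m).2 c hc, ih]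
  refine ⟨fun j => (a (j + 1)).1.1 (j + 1), (a 0).1.2, ?_⟩
  intro m
  have hv : ∀ v ∈ Finset.Icc 1 m, (fun v => (fun j => (a (j + 1)).1.1 (j + 1)) (v - 1)) v = (a m).1.1 v := by
    intro v hv
    rw [Finset.mem_Icc] at hv
    have h1 : v - 1 + 1 = v := Nat.sub_add_cancel hv.1
    show (a (v - 1 + 1)).1.1 (v - 1 + 1) = (a m).1.1 v
    rw [h1, hav m v hv.1 hv.2]
  have hc : ∀ c ∈ Finset.range (s + 1), (a 0).1.2 c = (a m).1.2 c := fun c hc => (hac m c hc).symm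
  obtain ⟨h1, k, h2⟩ := (a m).2
  refine ⟨h1.congr (star_kl hP ∅ s _).ok hv hc, k, ?_⟩
  rw [im_congr (D := ((Finset.Icc 1 m, Finset.range (s + 1)) : Rg ℕ ℕ)) hv hc]
  exact h2

theorem seq_dom {s : ℕ} {y e : ℕ → ℕ} (h : IsSeq P S D s y e) (i : ℕ) : dom D (y i) := by
  obtain ⟨_, k, hk⟩ := h (i + 1)
  refine ⟨k, hk.le.1 (mem_im1.2 ⟨i + 1, ?_, ?_⟩)⟩
  · exact Finset.mem_Icc.2 ⟨by omega, le_rfl⟩
  · show y (i + 1 - 1) = y i
    rw [Nat.add_sub_cancel]

theorem seq_inj {s : ℕ} {y e : ℕ → ℕ} (h : IsSeq P S D s y e) : Function.Injective y := by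
  intro i j hij
  have h1 := (h (max i j + 1)).1.inj_v
  have hi : i + 1 ∈ ((Finset.Icc 1 (max i j + 1) : Finset ℕ) : Set ℕ) := by
    rw [Finset.mem_coe, Finset.mem_Icc]
    have := le_max_left i j
    omega
  have hj : j + 1 ∈ ((Finset.Icc 1 (max i j + 1) : Finset ℕ) : Set ℕ) := by
    rw [Finset.mem_coe, Finset.mem_Icc]
    have := le_max_right i j
    omega
  have h2 : i + 1 = j + 1 := h1 hi hj (by
    show y (i + 1 - 1) = y (j + 1 - 1)
    rw [Nat.add_sub_cancel, Nat.add_sub_cancel]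
    exact hij)
  omega

/-- the image of a finite set of terms of the sequence is closed -/
theorem Seq.sub_closed (hP : Good0 P) (hG : Gen P S D) {s : ℕ} {y e : ℕ → ℕ} (h : IsSeq P S D s y e)
    (X : Finset ℕ) (m : ℕ) (hX : X ⊆ Finset.Icc 1 m) :
    IsEmb (starS ∅) (X, Finset.range (s + 1)) S (fun v => y (v - 1)) e ∧
    ∃ k, ClL P Set.univ P.θ S (D k) (im (fun v => y (v - 1)) e ((X, Finset.range (s + 1)) : Rg ℕ ℕ)) := by
  obtain ⟨h1, k, h2⟩ := h m
  have hcl := star_cl (P := P) hP ∅ s hX (fun h0 => by simp at h0)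
  have hkl := star_kl (P := P) hP ∅ s (Finset.Icc 1 m)
  refine ⟨h1.mono hcl.le, k, ?_⟩
  exact clL_trans hP hP.θ_pos.le le_rfl (hG.kl k) h2 (h1.clL hkl.ok hcl)

theorem seq_indisc (hP : Good0 P) (hG : Gen P S D) {s : ℕ} {y e : ℕ → ℕ} (h : IsSeq P S D s y e) {N : ℕ}
    (f g : Fin N → ℕ) (hf : StrictMono f) (hg : StrictMono g) : rr P S D N (y ∘ f) (y ∘ g) := by
  have hyi := seq_inj h
  let Xf : (Fin N → ℕ) → Finset ℕ := fun f => Finset.univ.image (fun i => f i + 1)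
  have hXm : ∀ f : Fin N → ℕ, ∃ m, Xf f ⊆ Finset.Icc 1 m := by
    intro f
    refine ⟨(Xf f).sup id, ?_⟩
    intro v hv
    rw [Finset.mem_Icc]
    constructor
    · obtain ⟨i, _, rfl⟩ := Finset.mem_image.1 hv
      omega
    · exact Finset.le_sup (f := id) hv
  obtain ⟨mf, hmf⟩ := hXm f
  obtain ⟨mg, hmg⟩ := hXm g
  obtain ⟨hfE, k, hfk⟩ := Seq.sub_closed hP hG h (Xf f) mf hmf
  obtain ⟨hgE, l, hgl⟩ := Seq.sub_closed hP hG h (Xf g) mg hmg
  let φ : ℕ → ℕ := fun v => if hv : ∃ i, f i + 1 = v then g hv.choose + 1 else v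
  have hφ : ∀ i, φ (f i + 1) = g i + 1 := by
    intro i
    have hex : ∃ j, f j + 1 = f i + 1 := ⟨i, rfl⟩
    have h1 : hex.choose = i := hf.injective (Nat.succ_injective hex.choose_spec)
    show (if hv : ∃ j, f j + 1 = f i + 1 then g hv.choose + 1 else f i + 1) = g i + 1
    rw [dif_pos hex, h1]
  let kv : ℕ → ℕ := fun w => if hw : ∃ i, y (f i) = w then y (g hw.choose) else w
  have hkv : ∀ i, kv (y (f i)) = y (g i) := by
    intro i
    have hex : ∃ j, y (f j) = y (f i) := ⟨i, rfl⟩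
    have h1 : hex.choose = i := hf.injective (hyi hex.choose_spec)
    show (if hw : ∃ j, y (f j) = y (f i) then y (g hw.choose) else y (f i)) = y (g i)
    rw [dif_pos hex, h1]
  have hmem : ∀ v ∈ Xf f, ∃ i, v = f i + 1 := by
    intro v hv
    obtain ⟨i, _, rfl⟩ := Finset.mem_image.1 hv
    exact ⟨i, rfl⟩
  have himφ : im φ id ((Xf f, Finset.range (s + 1)) : Rg ℕ ℕ) = (Xf g, Finset.range (s + 1)) := by
    apply rg_ext
    · intro v
      rw [mem_im1]
      constructor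
      · rintro ⟨u, hu, rfl⟩
        obtain ⟨i, rfl⟩ := hmem u hu
        rw [hφ]
        exact Finset.mem_image.2 ⟨i, Finset.mem_univ _, rfl⟩
      · intro hv
        obtain ⟨i, _, rfl⟩ := Finset.mem_image.1 hv
        exact ⟨f i + 1, Finset.mem_image.2 ⟨i, Finset.mem_univ _, rfl⟩, hφ i⟩
    · intro c
      rw [mem_im2]
      constructor
      · rintro ⟨d, hd, rfl⟩
        exact hd
      · intro hc
        exact ⟨c, hc, rfl⟩
  have hEφ : IsEmb (starS ∅) ((Xf f, Finset.range (s + 1)) : Rg ℕ ℕ) (starS ∅) φ id := by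
    refine ⟨?_, ?_, ?_, ?_, ?_, ?_, ?_, rfl⟩
    · intro u hu v hv huv
      obtain ⟨i, rfl⟩ := hmem u hu
      obtain ⟨j, rfl⟩ := hmem v hv
      rw [hφ, hφ] at huv
      have : i = j := hg.injective (Nat.succ_injective huv)
      rw [this]
    · intro c _ c' _ h
      exact h
    · intro v hv
      obtain ⟨i, rfl⟩ := hmem v hv
      rw [hφ]
      simp [starS]
    · intro u hu v hv
      simp [starS]
    · intro v hv c hc
      exact Iff.rfl
    · intro c _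
      rfl
    · intro c _
      rfl
  have hcomp : IsEmb (starS ∅) ((Xf f, Finset.range (s + 1)) : Rg ℕ ℕ) S ((fun v => y (v - 1)) ∘ φ) (e ∘ id) :=
    hEφ.comp (by rw [himφ]; exact hgE)
  have hv1 : ∀ v ∈ Xf f, kv ((fun v => y (v - 1)) v) = ((fun v => y (v - 1)) ∘ φ) v := by
    intro v hv
    obtain ⟨i, rfl⟩ := hmem v hv
    show kv (y (f i + 1 - 1)) = y (φ (f i + 1) - 1)
    rw [hφ, Nat.add_sub_cancel, Nat.add_sub_cancel, hkv]
  have hok := (star_kl (P := P) hP ∅ s (Xf f)).ok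
  refine ⟨k, l, im (fun v => y (v - 1)) e ((Xf f, Finset.range (s + 1)) : Rg ℕ ℕ), kv, id, hfk, ?_, ?_, ?_, ?_⟩
  · intro i
    refine mem_im1.2 ⟨f i + 1, Finset.mem_image.2 ⟨i, Finset.mem_univ _, rfl⟩, ?_⟩
    show y (f i + 1 - 1) = y (f i)
    rw [Nat.add_sub_cancel]
  · exact IsEmb.of_comp hok hfE hcomp hv1 (fun c _ => rfl)
  · rw [im_im]
    have h1 : im (kv ∘ fun v => y (v - 1)) (id ∘ e) ((Xf f, Finset.range (s + 1)) : Rg ℕ ℕ) =
        im ((fun v => y (v - 1)) ∘ φ) (e ∘ id) ((Xf f, Finset.range (s + 1)) : Rg ℕ ℕ) :=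
      im_congr hv1 (fun c _ => rfl)
    rw [h1, ← im_im, himφ]
    exact hgl
  · intro i
    exact hkv i

theorem seq_consistent (hP : Good0 P) (hG : Gen P S D) {s : ℕ} {y e : ℕ → ℕ} (h : IsSeq P S D s y e) (k : ℕ)
    (hk : (k : ℝ) ≤ wa (P.gs s) P.θ) : ∃ x, dom D x ∧ ∀ j < k, S.E x (y j) := by
  obtain ⟨h1, k', h2⟩ := h k
  have hemb : IsEmb (starS (Finset.range k)) ((Finset.Icc 1 k, Finset.range (s + 1)) : Rg ℕ ℕ) S
      (fun v => y (v - 1)) e := by
    refine ⟨h1.inj_v, h1.inj_c, h1.col, ?_, h1.inc, h1.lev, h1.par, h1.root⟩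
    intro u hu v hv
    rw [h1.edge u hu v hv]
    have hu0 : u ≠ 0 := by
      have := (Finset.mem_Icc.1 hu).1
      omega
    simp [starS, hu0]
  have hcl : ClL P Set.univ P.θ (starS (Finset.range k)) (insert 0 (Finset.Icc 1 k), Finset.range (s + 1))
      (Finset.Icc 1 k, Finset.range (s + 1)) :=
    star_cl hP (Finset.range k) s (Finset.subset_insert _ _) (fun _ _ => by rw [Finset.card_range]; exact hk)
  obtain ⟨l, hv, hc, _, h3, h4, _, h6⟩ := hG.ext ℕ ℕ (starS (Finset.range k))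
    (insert 0 (Finset.Icc 1 k), Finset.range (s + 1)) (Finset.Icc 1 k, Finset.range (s + 1)) (fun v => y (v - 1)) e k'
    (star_kl hP (Finset.range k) s _) hcl hemb h2
  refine ⟨hv 0, ⟨l, h6.le.1 (mem_im1.2 ⟨0, Finset.mem_insert_self _ _, rfl⟩)⟩, ?_⟩
  intro j hj
  have hmem : j + 1 ∈ Finset.Icc 1 k := Finset.mem_Icc.2 ⟨by omega, by omega⟩
  have h7 : hv (j + 1) = y j := by
    rw [h4 (j + 1) hmem]
    show y (j + 1 - 1) = y j
    rw [Nat.add_sub_cancel]
  have h8 := (h3.edge 0 (Finset.mem_insert_self _ _) (j + 1) (Finset.mem_insert_of_mem hmem)).2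
    ⟨rfl, j, Finset.mem_range.2 hj, rfl⟩
  rw [h7] at h8
  exact h8

end Pool.Low
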