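import Pool.Agent.helper24.Low.Triv

/-!
# Module NL1 (Star): star systems

Vertices: `0` = `x` (colour `true`), `j + 1` = `y_j` (colour `false`); edges from `0` to `j + 1` for `j ∈ J`.  Blocks `0, 1, ..., s` form a
chain (`par c = c - 1`, `lev c = c`), every vertex is in every block.  Region `(X, range (s+1))`.

The geometry of the block `e < s` is `(X, {e+1})`; the geometry of `s` is `(X, ∅)`.  Write `g = gs e`, `a = wa g θ`, `b = wb g θ`.
Edges inside `X'`: at most `|X'| - 1` if `X' ≠ ∅` (they all contain `0`), and at most `|J|`.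

* `star_kl`, at `e < s`: `LS` trivial (one block).  Full subregions: `(X', {e+1})` with `dl = b` (all `1 - mm = 0`, all `1 - m2 = 0`), and
  `(X', ∅)` with `|X'| ≤ g+1`, `dl = a |X'| - #edges`.  `b ≥ 64 (g+2)^2 g` and `b ≥ 1 ≥ f 1 = f (sz)`; for `|X'| = g + 1`:
  `a (g+1) - g ≥ 64 (g+2)^2 g`; `f |X'| ≤ |X'| ≤ a |X'| - |X'|`.
* at `s`: full subregions `(X', ∅)`, `dl ≥ (a - 1) |X'|`, and `(a-1)(g+1) ≥ 64 (g+2)^2 g`.
* `star_cl`: at `e < s`: `(Y, {e+1}) ≤ (Z, {e+1})` have the same `dl = b` (and `(Y, {e+1})` is full).  At `s`: `dl Z - dl Y = a |Z \ Y| - #new edges`;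
  if `0 ∉ Z` there are none; if `0 ∈ Y` there are at most `|Z \ Y|`; if `0 ∈ Z \ Y` there are at most `|J| ≤ a`.
* `star_cl0`: at the root: `(∅, ∅)` is closed in `(∅, {1})` (or in `(∅, ∅)` if `s = 0`).
-/

set_option autoImplicit false

namespace Pool.Low

open scoped Classical

/-- the star system with edges from `0` to `j + 1`, `j ∈ J` -/
def starS (J : Finset ℕ) : Sys ℕ ℕ where
  col v := decide (v = 0)
  E u v := u = 0 ∧ ∃ j ∈ J, v = j + 1
  inc _ _ := True
  lev c := c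
  par c := c - 1
  root := 0

variable {P : Par}

/-! ### edges of the star -/

theorem star_mem_ed {J X : Finset ℕ} {p : ℕ × ℕ} (hp : p ∈ ed (starS J).toGeo X) :
    p.1 = 0 ∧ p.1 ∈ X ∧ p.2 ∈ X ∧ ∃ j ∈ J, p.2 = j + 1 := by
  rw [mem_ed] at hp
  exact ⟨hp.2.1, hp.1.1, hp.1.2, hp.2.2⟩

theorem star_ed_sub (J X : Finset ℕ) : (ed (starS J).toGeo X).card ≤ (X.erase 0).card := by
  apply Finset.card_le_card_of_injOn (fun p : ℕ × ℕ => p.2)
  · intro p hp
    obtain ⟨_, _, h3, j, _, h5⟩ := star_mem_ed (Finset.mem_coe.1 hp)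
    simp only [Finset.coe_erase, Set.mem_sdiff, Finset.mem_coe, Set.mem_singleton_iff]
    exact ⟨h3, by omega⟩
  · intro p hp q hq h
    have h1 := (star_mem_ed (Finset.mem_coe.1 hp)).1
    have h2 := (star_mem_ed (Finset.mem_coe.1 hq)).1
    exact Prod.ext (h1.trans h2.symm) h

theorem star_ed_le (J X : Finset ℕ) : (ed (starS J).toGeo X).card ≤ X.card :=
  (star_ed_sub J X).trans (Finset.card_le_card (Finset.erase_subset _ _))

theorem star_ed_J (J X : Finset ℕ) : (ed (starS J).toGeo X).card ≤ J.card := by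
  apply Finset.card_le_card_of_injOn (fun p : ℕ × ℕ => p.2 - 1)
  · intro p hp
    obtain ⟨_, _, _, j, h4, h5⟩ := star_mem_ed (Finset.mem_coe.1 hp)
    simp only [Finset.mem_coe]
    rw [h5]
    simpa using h4
  · intro p hp q hq h
    obtain ⟨h1, _, _, j, _, h5⟩ := star_mem_ed (Finset.mem_coe.1 hp)
    obtain ⟨h1', _, _, j', _, h5'⟩ := star_mem_ed (Finset.mem_coe.1 hq)
    simp only at h
    exact Prod.ext (h1.trans h1'.symm) (by omega)

theorem star_ed_zero {J X : Finset ℕ} (h : 0 ∉ X) : (ed (starS J).toGeo X).card = 0 := by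
  rw [Finset.card_eq_zero]
  apply Finset.eq_empty_of_forall_notMem
  intro p hp
  obtain ⟨h1, h2, _⟩ := star_mem_ed hp
  rw [h1] at h2
  exact h h2

theorem star_ed_new {J Y Z : Finset ℕ} (hYZ : Y ⊆ Z) (h0 : 0 ∈ Y) :
    (ed (starS J).toGeo Z).card ≤ (ed (starS J).toGeo Y).card + (Z \ Y).card := by
  have hsub : ed (starS J).toGeo Z ⊆ ed (starS J).toGeo Y ∪ (Z \ Y).image (fun v => ((0 : ℕ), v)) := by
    intro p hp
    obtain ⟨h1, h2, h3, h4⟩ := star_mem_ed hp
    rw [Finset.mem_union]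
    by_cases hY : p.2 ∈ Y
    · left
      rw [mem_ed]
      exact ⟨⟨by rw [h1]; exact h0, hY⟩, h1, h4⟩
    · right
      rw [Finset.mem_image]
      exact ⟨p.2, Finset.mem_sdiff.2 ⟨h3, hY⟩, Prod.ext h1.symm rfl⟩
  calc (ed (starS J).toGeo Z).card ≤ _ := Finset.card_le_card hsub
    _ ≤ _ := Finset.card_union_le _ _
    _ ≤ _ := by
      have := Finset.card_image_le (s := Z \ Y) (f := fun v => ((0 : ℕ), v))
      omega

/-! ### regions with one block -/

theorem star_mm_one (J : Finset ℕ) (X : Finset ℕ) (c v : ℕ) : mm (starS J).toGeo ((X, {c}) : Rg ℕ ℕ) v = 1 := by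
  unfold mm
  rw [Finset.filter_true_of_mem]
  · simp
  · intro _ _; trivial

theorem star_m2_one (J : Finset ℕ) (X : Finset ℕ) (c u v : ℕ) : m2 (starS J).toGeo ((X, {c}) : Rg ℕ ℕ) u v = 1 := by
  unfold m2
  rw [Finset.filter_true_of_mem]
  · simp
  · intro _ _; exact ⟨trivial, trivial⟩

theorem star_del_one (J : Finset ℕ) (a b : ℝ) (X : Finset ℕ) (c : ℕ) :
    del (starS J).toGeo a b ((X, {c}) : Rg ℕ ℕ) = b := by
  unfold del
  rw [Finset.sum_eq_zero, Finset.sum_eq_zero]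
  · simp
  · intro p _
    rw [star_m2_one]; simp
  · intro v _
    rw [star_mm_one]; simp

theorem star_sz_one (J : Finset ℕ) (X : Finset ℕ) (c : ℕ) :
    sz (starS J).toGeo ((X, {c}) : Rg ℕ ℕ) = 1 := by
  unfold sz
  rw [Finset.filter_false_of_mem]
  · simp
  · intro v _
    rw [star_mm_one]; simp

theorem star_sz_le (J : Finset ℕ) (X : Finset ℕ) :
    sz (starS J).toGeo ((X, ∅) : Rg ℕ ℕ) ≤ X.card := by
  unfold sz
  simp only [Finset.card_empty, zero_add]
  exact Finset.card_filter_le _ _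

/-! ### the geometries -/

theorem star_reg (J : Finset ℕ) (X B : Finset ℕ) (e : ℕ) :
    reg (starS J) (X, B) e = (X, B.filter (fun c => c - 1 = e ∧ c ≠ 0)) := by
  apply rg_ext
  · intro v
    rw [mem_reg1]
    exact and_iff_left trivial
  · intro c
    rw [mem_reg2, Finset.mem_filter]
    exact Iff.rfl

theorem star_reg_lt (J : Finset ℕ) (X : Finset ℕ) {s e : ℕ} (h : e < s) :
    reg (starS J) (X, Finset.range (s + 1)) e = (X, {e + 1}) := by
  rw [star_reg]
  congr 1
  ext c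
  simp only [Finset.mem_filter, Finset.mem_range, Finset.mem_singleton]
  omega

theorem star_reg_eq (J : Finset ℕ) (X : Finset ℕ) (s : ℕ) :
    reg (starS J) (X, Finset.range (s + 1)) s = (X, ∅) := by
  rw [star_reg]
  congr 1
  apply Finset.filter_false_of_mem
  intro c hc
  rw [Finset.mem_range] at hc
  omega

theorem star_ok (J : Finset ℕ) (s : ℕ) (X : Finset ℕ) : Ok (starS J) (X, Finset.range (s + 1)) where
  root_mem := by
    change 0 ∈ Finset.range (s + 1)
    simp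
  par_mem := by
    intro c hc
    change c ∈ Finset.range (s + 1) at hc
    change c - 1 ∈ Finset.range (s + 1)
    rw [Finset.mem_range] at hc ⊢
    omega
  lev_root := rfl
  par_root := rfl
  lev_par := by
    intro c _ hc0
    change c ≠ 0 at hc0
    change c = (c - 1) + 1
    omega
  inc_root := fun _ _ => trivial
  inc_par := fun _ _ _ _ _ => trivial
  bip := by
    rintro u _ v _ ⟨h1, j, _, h2⟩
    refine ⟨?_, ?_⟩
    · change decide (u = 0) = true
      rw [decide_eq_true_iff]; exact h1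
    · change decide (v = 0) = false
      rw [decide_eq_false_iff_not]; omega

/-- a region with at most one block, all vertices in the block -/
theorem star_kk {g L : ℕ} {θ : ℝ} {f : ℕ → ℝ} (h0 : 0 < θ) (h1 : θ < 1) (hf : Ctl θ L f) (J X B : Finset ℕ)
    (hB : B.card ≤ 1) : KK (starS J).toGeo g θ f ((X, B) : Rg ℕ ℕ) := by
  have hg : (0:ℝ) ≤ g := Nat.cast_nonneg g
  have hwa : wa g θ - 1 ≥ 1 := by linarith [wa_pos (g := g) h1.le]
  have hcase : ∀ Q : Rg ℕ ℕ, Full (starS J).toGeo (g + 1) ((X, B) : Rg ℕ ℕ) Q →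
      (∃ c, Q = (Q.1, {c})) ∨ Q = (Q.1, ∅) := by
    intro Q hQ
    have h2 : Q.2 ⊆ B := hQ.1.2
    have h3 : Q.2.card ≤ 1 := (Finset.card_le_card h2).trans hB
    rcases Finset.card_le_one_iff_subset_singleton.1 h3 with ⟨c, hc⟩
    rcases Finset.subset_singleton_iff.1 hc with h4 | h4
    · exact Or.inr (Prod.ext rfl h4)
    · exact Or.inl ⟨c, Prod.ext rfl h4⟩
  have hdl1 : ∀ (Y : Finset ℕ) (c : ℕ), dl (starS J).toGeo g θ ((Y, {c}) : Rg ℕ ℕ) = wb g θ := by
    intro Y c
    unfold dl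
    exact star_del_one J _ _ Y c
  have hdl0 : ∀ Y : Finset ℕ, (wa g θ - 1) * (Y.card : ℝ) ≤ dl (starS J).toGeo g θ ((Y, ∅) : Rg ℕ ℕ) := by
    intro Y
    rw [dl_noblock]
    have : ((ed (starS J).toGeo Y).card : ℝ) ≤ Y.card := by exact_mod_cast star_ed_le J Y
    linarith
  have hwb : 64 * ((g : ℝ) + 2) ^ 2 * g + 1 ≤ wb g θ := by
    unfold wb
    nlinarith [mul_nonneg hg hg]
  refine ⟨(star_ok J 0 X).bip, ?_, ?_, ?_⟩
  · intro c hc c' hc' hne
    exfalso
    exact hne (Finset.card_le_one.1 hB c hc c' hc')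
  · intro Q hQ hbig
    rcases hcase Q hQ with ⟨c, hc⟩ | hc
    · rw [hc, hdl1]; linarith
    · have h2 : ¬ Q.2.Nonempty := by rw [hc]; simp
      have h3 : g < Q.1.card := hbig.resolve_left h2
      have h4 : (g : ℝ) + 1 ≤ Q.1.card := by exact_mod_cast h3
      rw [hc]
      refine le_trans ?_ (hdl0 Q.1)
      have h5 : (wa g θ - 1) * ((g : ℝ) + 1) ≤ (wa g θ - 1) * (Q.1.card : ℝ) :=
        mul_le_mul_of_nonneg_left h4 (by linarith)
      refine le_trans ?_ h5
      unfold wa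
      nlinarith [mul_nonneg hg hg]
  · intro Q hQ
    rcases hcase Q hQ with ⟨c, hc⟩ | hc
    · rw [hc, hdl1, star_sz_one]
      have h2 := hf.le_id 1
      have h3 : 0 ≤ 64 * ((g : ℝ) + 2) ^ 2 * g := by positivity
      push_cast at h2
      linarith
    · rw [hc]
      refine le_trans ?_ (hdl0 Q.1)
      have h2 : f (sz (starS J).toGeo ((Q.1, ∅) : Rg ℕ ℕ)) ≤ (Q.1.card : ℝ) :=
        (hf.le_id _).trans (by exact_mod_cast star_sz_le J Q.1)
      refine h2.trans ?_
      have h3 : (0:ℝ) ≤ Q.1.card := Nat.cast_nonneg _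
      nlinarith

theorem star_filter_card (s e : ℕ) :
    ((Finset.range (s + 1)).filter (fun c => c - 1 = e ∧ c ≠ 0)).card ≤ 1 := by
  rw [Finset.card_le_one]
  intro a ha b hb
  simp only [Finset.mem_filter] at ha hb
  omega

theorem star_kl (hP : Good0 P) (J : Finset ℕ) (s : ℕ) (X : Finset ℕ) :
    KL P Set.univ (starS J) (X, Finset.range (s + 1)) := by
  refine ⟨star_ok J s X, ?_⟩
  intro e _ _
  rw [star_reg]
  exact star_kk hP.θ_pos hP.θ_lt (hP.ctl _) J X _ (star_filter_card s e)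

theorem star_cl (hP : Good0 P) (J : Finset ℕ) (s : ℕ) {X Y : Finset ℕ} (hY : Y ⊆ X)
    (hJ : 0 ∈ X → 0 ∉ Y → (J.card : ℝ) ≤ wa (P.gs s) P.θ) :
    ClL P Set.univ P.θ (starS J) (X, Finset.range (s + 1)) (Y, Finset.range (s + 1)) := by
  refine ⟨⟨hY, Finset.Subset.refl _⟩, star_ok J s Y, ?_⟩
  intro e he _
  change e ∈ Finset.range (s + 1) at he
  change ClT (starS J).toGeo (P.gs e) P.θ _ _
  rw [Finset.mem_range] at he
  rcases Nat.lt_or_ge e s with hlt | hge
  · rw [star_reg_lt J X hlt, star_reg_lt J Y hlt]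
    refine ⟨⟨⟨hY, Finset.Subset.refl _⟩, fun c hc _ => hc⟩, ?_⟩
    intro Z hZ hBZ
    have hZ2 : Z.2 = {e + 1} := Finset.Subset.antisymm hZ.1.2 hBZ.2
    have hZe : Z = (Z.1, {e + 1}) := Prod.ext rfl hZ2
    rw [hZe, star_del_one, star_del_one]
  · have hes : e = s := by omega
    subst hes
    rw [star_reg_eq J X e, star_reg_eq J Y e]
    refine ⟨⟨⟨hY, Finset.Subset.refl _⟩, fun c hc _ => hc⟩, ?_⟩
    intro Z hZ hBZ
    have hZ2 : Z.2 = ∅ := Finset.subset_empty.1 hZ.1.2
    have hZe : Z = (Z.1, ∅) := Prod.ext rfl hZ2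
    change dl (starS J).toGeo (P.gs e) P.θ ((Y, ∅) : Rg ℕ ℕ) ≤ dl (starS J).toGeo (P.gs e) P.θ Z
    rw [hZe, dl_noblock, dl_noblock]
    have hYZ : Y ⊆ Z.1 := hBZ.1
    have hZX : Z.1 ⊆ X := hZ.1.1
    have hcard : (Z.1 \ Y).card + Y.card = Z.1.card := Finset.card_sdiff_add_card_eq_card hYZ
    have hk : ((Z.1 \ Y).card : ℝ) + Y.card = Z.1.card := by exact_mod_cast hcard
    have hwa := wa_pos (g := P.gs e) hP.θ_lt.le
    have hk0 : (0:ℝ) ≤ (Z.1 \ Y).card := Nat.cast_nonneg _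
    have key : ((ed (starS J).toGeo Z.1).card : ℝ) ≤
        (ed (starS J).toGeo Y).card + wa (P.gs e) P.θ * (Z.1 \ Y).card := by
      by_cases hY0 : 0 ∈ Y
      · have h2 : ((ed (starS J).toGeo Z.1).card : ℝ) ≤ (ed (starS J).toGeo Y).card + (Z.1 \ Y).card := by
          exact_mod_cast star_ed_new hYZ hY0
        nlinarith
      · by_cases hZ0 : 0 ∈ Z.1
        · have h2 : ((ed (starS J).toGeo Z.1).card : ℝ) ≤ J.card := by exact_mod_cast star_ed_J J Z.1
          have h3 := hJ (hZX hZ0) hY0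
          have h4 : 1 ≤ (Z.1 \ Y).card := Finset.card_pos.2 ⟨0, Finset.mem_sdiff.2 ⟨hZ0, hY0⟩⟩
          have h5 : (1:ℝ) ≤ (Z.1 \ Y).card := by exact_mod_cast h4
          have h6 : (0:ℝ) ≤ (ed (starS J).toGeo Y).card := Nat.cast_nonneg _
          nlinarith
        · rw [star_ed_zero hZ0]
          have h6 : (0:ℝ) ≤ (ed (starS J).toGeo Y).card := Nat.cast_nonneg _
          have h7 : 0 ≤ wa (P.gs e) P.θ * ((Z.1 \ Y).card : ℝ) := mul_nonneg (by linarith) hk0
          push_cast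
          linarith
    rw [← hk]
    nlinarith

theorem star_cl0 (hP : Good0 P) (J : Finset ℕ) (s : ℕ) :
    ClL P Set.univ P.θ (starS J) (∅, Finset.range (s + 1)) (∅, {0}) := by
  refine ⟨⟨Finset.Subset.refl _, ?_⟩, ?_, ?_⟩
  · intro c hc
    change c ∈ ({0} : Finset ℕ) at hc
    change c ∈ Finset.range (s + 1)
    rw [Finset.mem_singleton] at hc
    rw [hc]; simp
  · have h := star_ok J 0 ∅
    have h2 : Finset.range (0 + 1) = {0} := by simp
    rw [h2] at h
    exact h
  · intro e he _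
    change e ∈ ({0} : Finset ℕ) at he
    rw [Finset.mem_singleton] at he
    subst he
    change ClT (starS J).toGeo (P.gs 0) P.θ _ _
    have hB : reg (starS J) ((∅, {0}) : Rg ℕ ℕ) 0 = (∅, ∅) := by
      rw [star_reg]
      congr 1
    rw [hB]
    refine ⟨⟨⟨Finset.empty_subset _, Finset.empty_subset _⟩, ?_⟩, ?_⟩
    · intro c _ hc
      exfalso
      have : (tr (starS J).toGeo (∅ : Finset ℕ) c).card = 0 := by simp [tr]
      simp only at hc
      omega
    · intro Z hZ _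
      have hZ1 : Z.1 = ∅ := by
        apply Finset.subset_empty.1
        intro v hv
        have := hZ.1.1 hv
        rw [star_reg] at this
        exact this
      have hwb : 0 ≤ wb (P.gs 0) P.θ := by
        have h1 := hP.θ_lt
        have hg : (0:ℝ) ≤ P.gs 0 := Nat.cast_nonneg _
        unfold wb
        nlinarith [mul_nonneg hg hg]
      have h1 : del (starS J).toGeo (wa (P.gs 0) P.θ) (wb (P.gs 0) P.θ) ((∅, ∅) : Rg ℕ ℕ) = 0 := by
        unfold del ed
        simp
      have h2 : del (starS J).toGeo (wa (P.gs 0) P.θ) (wb (P.gs 0) P.θ) Z = wb (P.gs 0) P.θ * (Z.2.card : ℝ) := by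
        unfold del ed
        rw [hZ1]
        simp
      rw [h1, h2]
      exact mul_nonneg hwb (Nat.cast_nonneg _)

end Pool.Low
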