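import Pool.Agent.helper24.Low.Uniq
import Pool.Agent.helper24.Low.Ident

/-!
# Module LA5b (Sub): submodularity for a full set and a closed set

By `sup_inf_identity` we must show `|flag P W| - (number of cross edges) + bare P W ≤ (4n+4) * crossInc P W`.

Split the flags `((u,v),c)`:
* F1: both ends in `P.1`.  Then `c ∈ W.2 \ P.2`, and one of the ends, `w`, is in `P.1 \ W.1`, so `(w,c) ∈ xi P W`.  As `P` is
  full and `c ∉ P.2`, `|tr P.1 c| ≤ n`: for every `(w,c)` at most `n` flags (the colour of `w` tells whether `w` is the first or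
  the second end).  So `|F1| ≤ n |xi P W|`.
* F2: both ends in `W.1`: likewise `|F2| ≤ n |xi W P|` (`W` is full).
* F3: the edge is a cross edge `q`; their number is the sum over all cross edges `q` of `m2 (P ⊔ W) q`.
So it remains to bound `∑_{cross edges q} (m2 (P ⊔ W) q - 1)^+` (natural subtraction).  Let `q` have the ends `u ∈ P \ W`,
`v ∈ W \ P` (in some order); `m2 (P ⊔ W) = k + j`, `k` = number of blocks of `P.2 \ W.2` containing both, `j` = number of blocks of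
`W.2` containing both, `j ≤ mm W u ≤ 1` by `cl_unique`.  So `(k + j - 1)^+ ≤ (k-1)^+ + [j ≥ 1 and k ≥ 1]`.
* First part: for fixed `v ∈ W \ P`, with `Y_v` = blocks of `P.2 \ W.2` containing `v` and `U_v` = vertices `u ∈ P \ W` adjacent to
  `v` with `k(u,v) ≥ 1`, `rebate_nbr` gives `∑_u (k-1) ≤ (n+1) |Y_v|`, and `∑_v |Y_v| = |xi W P|`.
* Second part: if `j ≥ 1` and `k ≥ 1` choose `e ∈ P.2 \ W.2` containing `u` and `v`; `u` is in the set
  `U_e = {u ∈ P.1 \ W.1 | inc u e, 1 ≤ mm W u}`, `|U_e| ≤ n` by `cl_few`; `(v, e) ∈ xi W P`.  So the number of such cross edges is at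
  most `∑_e |U_e| * |{v ∈ W \ P : inc v e}| ≤ n |xi W P|`.
Total: `n |xi P W| + (n + (n+1) + n) |xi W P| ≤ (4n+4) crossInc`.
-/

set_option autoImplicit false

namespace Pool.Low

open scoped Classical

variable {V C : Type} [DecidableEq V] [DecidableEq C]

/-! ### auxiliary counts -/

/-- number of blocks of `P` outside `W` containing both vertices -/
noncomputable def subK (G : Geo V C) (P W : Rg V C) (u v : V) : ℕ :=
  ((P.2 \ W.2).filter (fun c => G.inc u c ∧ G.inc v c)).card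

theorem subK_comm (G : Geo V C) (P W : Rg V C) (u v : V) : subK G P W u v = subK G P W v u := by
  simp only [subK, and_comm]

theorem subK_pos_iff {G : Geo V C} {P W : Rg V C} {u v : V} :
    1 ≤ subK G P W u v ↔ ∃ c, c ∈ P.2 ∧ c ∉ W.2 ∧ G.inc u c ∧ G.inc v c := by
  unfold subK
  rw [Nat.succ_le_iff, Finset.card_pos]
  constructor
  · rintro ⟨c, hc⟩
    simp only [Finset.mem_filter, Finset.mem_sdiff] at hc
    exact ⟨c, hc.1.1, hc.1.2, hc.2⟩
  · rintro ⟨c, hc, hc', h⟩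
    exact ⟨c, by simp only [Finset.mem_filter, Finset.mem_sdiff]; exact ⟨⟨hc, hc'⟩, h⟩⟩

theorem sub_m2 (G : Geo V C) (P W : Rg V C) (u v : V) :
    m2 G (P ⊔ W) u v = subK G P W u v + m2 G W u v := by
  unfold m2 subK
  have h1 : (P ⊔ W).2 = (P.2 \ W.2) ∪ W.2 := by
    ext c
    rw [mem_sup2, Finset.mem_union, Finset.mem_sdiff]
    tauto
  rw [h1, Finset.filter_union, Finset.card_union_of_disjoint]
  exact Finset.disjoint_filter_filter Finset.sdiff_disjoint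

theorem sub_flag_comm (G : Geo V C) (P W : Rg V C) : flag G P W = flag G W P := by
  ext q
  simp only [flag, Finset.mem_filter, Finset.mem_product, mem_ed, Finset.mem_union]
  tauto

theorem sub_flag1 {G : Geo V C} {n : ℕ} {D P W : Rg V C} (hB : Bip G D.1) (hP : Full G n D P)
    (hWD : W ≤ D) :
    ((flag G P W).filter (fun q => q.1.1 ∈ P.1 ∧ q.1.2 ∈ P.1)).card ≤ (xi G P W).card * n := by
  have hsub : (flag G P W).filter (fun q => q.1.1 ∈ P.1 ∧ q.1.2 ∈ P.1) ⊆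
      (xi G P W).biUnion (fun r => (tr G P.1 r.2).image
        (fun x => if G.col r.1 = true then ((r.1, x), r.2) else ((x, r.1), r.2))) := by
    intro q hq
    simp only [flag, Finset.mem_filter, Finset.mem_product, mem_ed, Finset.mem_union] at hq
    obtain ⟨⟨⟨⟨⟨hu, hv⟩, hE⟩, hc⟩, hi1, hi2, hnP, hnW⟩, hPu, hPv⟩ := hq
    have hcP : q.2 ∉ P.2 := fun h => hnP ⟨hPu, hPv, h⟩
    have hcW : q.2 ∈ W.2 := hc.resolve_left hcP
    have hcol := hB q.1.1 (hP.1.1 hPu) q.1.2 (hP.1.1 hPv) hE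
    by_cases hW1 : q.1.1 ∈ W.1
    · have hW2 : q.1.2 ∉ W.1 := fun h => hnW ⟨hW1, h, hcW⟩
      refine Finset.mem_biUnion.2 ⟨(q.1.2, q.2), mem_xi.2 ⟨hPv, hcW, hW2, hcP, hi2⟩, ?_⟩
      refine Finset.mem_image.2 ⟨q.1.1, mem_tr.2 ⟨hPu, hi1⟩, ?_⟩
      simp [hcol.2]
    · refine Finset.mem_biUnion.2 ⟨(q.1.1, q.2), mem_xi.2 ⟨hPu, hcW, hW1, hcP, hi1⟩, ?_⟩
      refine Finset.mem_image.2 ⟨q.1.2, mem_tr.2 ⟨hPv, hi2⟩, ?_⟩
      simp [hcol.1]
  refine (Finset.card_le_card hsub).trans (Finset.card_biUnion_le_card_mul _ _ _ ?_)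
  intro r hr
  obtain ⟨h1, h2, h3, h4, h5⟩ := mem_xi.1 hr
  refine Finset.card_image_le.trans ?_
  by_contra hlt
  exact h4 (hP.2 r.2 (hWD.2 h2) (by omega))

theorem sub_flag3 (G : Geo V C) (P W : Rg V C) :
    ((flag G P W).filter (fun q => ¬ (q.1.1 ∈ P.1 ∧ q.1.2 ∈ P.1) ∧
      ¬ (q.1.1 ∈ W.1 ∧ q.1.2 ∈ W.1))).card ≤
      ∑ q ∈ xe G P W, m2 G (P ⊔ W) q.1 q.2 + ∑ q ∈ xe G W P, m2 G (P ⊔ W) q.1 q.2 := by
  have hsub : (flag G P W).filter (fun q => ¬ (q.1.1 ∈ P.1 ∧ q.1.2 ∈ P.1) ∧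
      ¬ (q.1.1 ∈ W.1 ∧ q.1.2 ∈ W.1)) ⊆
      (xe G P W ∪ xe G W P).biUnion (fun q =>
        ((P ⊔ W).2.filter (fun c => G.inc q.1 c ∧ G.inc q.2 c)).image (fun c => (q, c))) := by
    intro q hq
    simp only [flag, Finset.mem_filter, Finset.mem_product, mem_ed, Finset.mem_union] at hq
    obtain ⟨⟨⟨⟨⟨hu, hv⟩, hE⟩, hc⟩, hi1, hi2, hnP, hnW⟩, hP, hW⟩ := hq
    refine Finset.mem_biUnion.2 ⟨q.1, ?_, Finset.mem_image.2 ⟨q.2, ?_, rfl⟩⟩
    · rw [Finset.mem_union, mem_xe, mem_xe]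
      tauto
    · rw [Finset.mem_filter, mem_sup2]
      exact ⟨hc, hi1, hi2⟩
  refine (Finset.card_le_card hsub).trans (Finset.card_biUnion_le.trans ?_)
  have h1 : ∑ q ∈ xe G P W ∪ xe G W P, (((P ⊔ W).2.filter
      (fun c => G.inc q.1 c ∧ G.inc q.2 c)).image (fun c => (q, c))).card ≤
      ∑ q ∈ xe G P W ∪ xe G W P, m2 G (P ⊔ W) q.1 q.2 :=
    Finset.sum_le_sum fun q _ => Finset.card_image_le
  refine h1.trans ?_
  rw [← Finset.sum_union_inter]
  exact Nat.le_add_right _ _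

theorem sub_xi_card (G : Geo V C) (P W : Rg V C) :
    (xi G W P).card =
      ∑ v ∈ W.1, (P.2.filter (fun c => v ∉ P.1 ∧ c ∉ W.2 ∧ G.inc v c)).card := by
  unfold xi
  rw [Finset.card_filter, Finset.sum_product]
  refine Finset.sum_congr rfl fun v _ => ?_
  rw [Finset.card_filter]
  exact Finset.sum_congr rfl fun _ _ => by congr

/-- the rebate at one vertex of `W \ P` -/
theorem sub_rebate {G : Geo V C} {n : ℕ} {a b : ℝ} (h : Wt n a b) {D P W : Rg V C}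
    (hD : PP G n a b D) (hP : P ≤ D) (hW : W ≤ D) {v : V} (hv : v ∈ W.1) :
    ∑ u ∈ P.1.filter (fun u => u ∉ W.1 ∧ v ∉ P.1 ∧ G.E u v), (subK G P W u v - 1) +
      ∑ u ∈ P.1.filter (fun u => v ∉ P.1 ∧ u ∉ W.1 ∧ G.E v u), (subK G P W v u - 1) ≤
      (n + 1) * (P.2.filter (fun c => v ∉ P.1 ∧ c ∉ W.2 ∧ G.inc v c)).card := by
  by_cases hvP : v ∈ P.1
  · have e1 : P.1.filter (fun u => u ∉ W.1 ∧ v ∉ P.1 ∧ G.E u v) = ∅ :=
      Finset.filter_eq_empty_iff.2 fun u _ h' => h'.2.1 hvP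
    have e2 : P.1.filter (fun u => v ∉ P.1 ∧ u ∉ W.1 ∧ G.E v u) = ∅ :=
      Finset.filter_eq_empty_iff.2 fun u _ h' => h'.1 hvP
    rw [e1, e2, Finset.sum_empty]
    exact Nat.zero_le _
  · set U1 := P.1.filter (fun u => u ∉ W.1 ∧ v ∉ P.1 ∧ G.E u v) with hU1
    set U2 := P.1.filter (fun u => v ∉ P.1 ∧ u ∉ W.1 ∧ G.E v u) with hU2
    set Y := P.2.filter (fun c => v ∉ P.1 ∧ c ∉ W.2 ∧ G.inc v c) with hY
    have m1 : ∀ u, u ∈ U1 ↔ u ∈ P.1 ∧ u ∉ W.1 ∧ v ∉ P.1 ∧ G.E u v := fun u => by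
      rw [hU1, Finset.mem_filter]
    have m2' : ∀ u, u ∈ U2 ↔ u ∈ P.1 ∧ v ∉ P.1 ∧ u ∉ W.1 ∧ G.E v u := fun u => by
      rw [hU2, Finset.mem_filter]
    have mY : ∀ c, c ∈ Y ↔ c ∈ P.2 ∧ v ∉ P.1 ∧ c ∉ W.2 ∧ G.inc v c := fun c => by
      rw [hY, Finset.mem_filter]
    have hdis : Disjoint U1 U2 := by
      rw [Finset.disjoint_left]
      intro u hu1 hu2
      have h1 := hD.1 u (hP.1 ((m1 u).1 hu1).1) v (hW.1 hv) ((m1 u).1 hu1).2.2.2
      have h2 := hD.1 v (hW.1 hv) u (hP.1 ((m1 u).1 hu1).1) ((m2' u).1 hu2).2.2.2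
      rw [h1.1] at h2
      exact absurd h2.2 (by simp)
    have e2 : ∑ u ∈ U2, (subK G P W v u - 1) = ∑ u ∈ U2, (subK G P W u v - 1) :=
      Finset.sum_congr rfl fun u _ => by rw [subK_comm]
    rw [e2, ← Finset.sum_union hdis]
    set U := (U1 ∪ U2).filter (fun u => 1 ≤ subK G P W u v) with hU
    have hUm : ∀ u ∈ U, u ∈ P.1 ∧ u ∉ W.1 ∧ (G.E u v ∨ G.E v u) ∧ 1 ≤ subK G P W u v := by
      intro u hu
      rw [hU, Finset.mem_filter, Finset.mem_union, m1, m2'] at hu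
      tauto
    have e3 : ∑ u ∈ U1 ∪ U2, (subK G P W u v - 1) = ∑ u ∈ U, (subK G P W u v - 1) := by
      rw [hU, Finset.sum_filter]
      refine Finset.sum_congr rfl fun u _ => ?_
      by_cases hk : 1 ≤ subK G P W u v
      · rw [if_pos hk]
      · rw [if_neg hk]; omega
    rw [e3]
    have e4 : ∀ u, m2 G (U, Y) u v = subK G P W u v := by
      intro u
      unfold m2 subK
      congr 1
      ext c
      simp only [Finset.mem_filter, Finset.mem_sdiff, mY]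
      tauto
    have key := rebate_nbr h hD v (hW.1 hv) U (fun u hu => hP.1 (hUm u hu).1)
      (fun u hu => (hUm u hu).2.2.1) Y (fun c hc => hP.2 ((mY c).1 hc).1)
      (fun c hc => ((mY c).1 hc).2.2.2)
    have e5 : ((∑ u ∈ U, (subK G P W u v - 1) : ℕ) : ℝ) = ∑ u ∈ U, ((m2 G (U, Y) u v : ℝ) - 1) := by
      rw [Nat.cast_sum]
      refine Finset.sum_congr rfl fun u hu => ?_
      rw [e4, Nat.cast_sub (hUm u hu).2.2.2, Nat.cast_one]
    rw [← e5] at key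
    exact_mod_cast key

/-- total rebate over the cross edges -/
theorem sub_rebate_total {G : Geo V C} {n : ℕ} {a b : ℝ} (h : Wt n a b) {D P W : Rg V C}
    (hD : PP G n a b D) (hP : P ≤ D) (hW : W ≤ D) :
    ∑ q ∈ xe G P W, (subK G P W q.1 q.2 - 1) + ∑ q ∈ xe G W P, (subK G P W q.1 q.2 - 1) ≤
      (n + 1) * (xi G W P).card := by
  have e1 : ∑ q ∈ xe G P W, (subK G P W q.1 q.2 - 1) =
      ∑ v ∈ W.1, ∑ u ∈ P.1.filter (fun u => u ∉ W.1 ∧ v ∉ P.1 ∧ G.E u v),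
        (subK G P W u v - 1) := by
    unfold xe
    rw [Finset.sum_filter, Finset.sum_product_right]
    refine Finset.sum_congr rfl fun v _ => ?_
    rw [Finset.sum_filter]
    exact Finset.sum_congr rfl fun _ _ => by congr
  have e2 : ∑ q ∈ xe G W P, (subK G P W q.1 q.2 - 1) =
      ∑ v ∈ W.1, ∑ u ∈ P.1.filter (fun u => v ∉ P.1 ∧ u ∉ W.1 ∧ G.E v u),
        (subK G P W v u - 1) := by
    unfold xe
    rw [Finset.sum_filter, Finset.sum_product]
    refine Finset.sum_congr rfl fun v _ => ?_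
    rw [Finset.sum_filter]
    exact Finset.sum_congr rfl fun _ _ => by congr
  rw [e1, e2, ← Finset.sum_add_distrib, sub_xi_card, Finset.mul_sum]
  exact Finset.sum_le_sum fun v hv => sub_rebate h hD hP hW hv

/-- few cross edges are in blocks of both kinds -/
theorem sub_both {G : Geo V C} {n : ℕ} {a b : ℝ} (h : Wt n a b) {D P W : Rg V C}
    (hD : PP G n a b D) (hP : P ≤ D) (hW : Cl G n a b D W) :
    ((xe G P W).filter (fun q => 1 ≤ subK G P W q.1 q.2 ∧ 1 ≤ m2 G W q.1 q.2)).card +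
      ((xe G W P).filter (fun q => 1 ≤ subK G P W q.1 q.2 ∧ 1 ≤ m2 G W q.1 q.2)).card ≤
      (xi G W P).card * n := by
  have hWD : W ≤ D := hW.1.1
  have hdis : Disjoint
      ((xe G P W).filter (fun q => 1 ≤ subK G P W q.1 q.2 ∧ 1 ≤ m2 G W q.1 q.2))
      ((xe G W P).filter (fun q => 1 ≤ subK G P W q.1 q.2 ∧ 1 ≤ m2 G W q.1 q.2)) := by
    rw [Finset.disjoint_left]
    intro q h1 h2
    exact (mem_xe.1 (Finset.mem_filter.1 h1).1).2.2.1 (mem_xe.1 (Finset.mem_filter.1 h2).1).1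
  rw [← Finset.card_union_of_disjoint hdis]
  let Ue : C → Finset V := fun e => P.1.filter (fun u => u ∉ W.1 ∧ G.inc u e ∧ 1 ≤ mm G W u)
  have hUe : ∀ e u, u ∈ Ue e ↔ u ∈ P.1 ∧ u ∉ W.1 ∧ G.inc u e ∧ 1 ≤ mm G W u := fun e u => by
    simp only [Ue, Finset.mem_filter]
  have hsub : ((xe G P W).filter (fun q => 1 ≤ subK G P W q.1 q.2 ∧ 1 ≤ m2 G W q.1 q.2)) ∪
      ((xe G W P).filter (fun q => 1 ≤ subK G P W q.1 q.2 ∧ 1 ≤ m2 G W q.1 q.2)) ⊆
      (xi G W P).biUnion (fun r => (Ue r.2).image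
        (fun u => if G.col r.1 = true then (r.1, u) else (u, r.1))) := by
    intro q hq
    rcases Finset.mem_union.1 hq with hq | hq
    · obtain ⟨hq1, hk, hj⟩ := Finset.mem_filter.1 hq
      obtain ⟨h1, h2, h3, h4, hE⟩ := mem_xe.1 hq1
      obtain ⟨e, he1, he2, he3, he4⟩ := subK_pos_iff.1 hk
      have hcol := hD.1 q.1 (hP.1 h1) q.2 (hWD.1 h2) hE
      refine Finset.mem_biUnion.2 ⟨(q.2, e), mem_xi.2 ⟨h2, he1, h4, he2, he4⟩, ?_⟩
      refine Finset.mem_image.2 ⟨q.1, (hUe _ _).2 ⟨h1, h3, he3, hj.trans (m2_le_left G W _ _)⟩, ?_⟩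
      simp [hcol.2]
    · obtain ⟨hq1, hk, hj⟩ := Finset.mem_filter.1 hq
      obtain ⟨h1, h2, h3, h4, hE⟩ := mem_xe.1 hq1
      obtain ⟨e, he1, he2, he3, he4⟩ := subK_pos_iff.1 hk
      have hcol := hD.1 q.1 (hWD.1 h1) q.2 (hP.1 h2) hE
      refine Finset.mem_biUnion.2 ⟨(q.1, e), mem_xi.2 ⟨h1, he1, h3, he2, he3⟩, ?_⟩
      refine Finset.mem_image.2 ⟨q.2, (hUe _ _).2 ⟨h2, h4, he4, hj.trans (m2_le_right G W _ _)⟩, ?_⟩
      simp [hcol.1]
  refine (Finset.card_le_card hsub).trans (Finset.card_biUnion_le_card_mul _ _ _ ?_)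
  intro r hr
  obtain ⟨h1, h2, h3, h4, h5⟩ := mem_xi.1 hr
  refine Finset.card_image_le.trans (cl_few h hD hW (hP.2 h2) h4 _ ?_)
  intro u hu
  obtain ⟨g1, g2, g3, g4⟩ := (hUe _ _).1 hu
  exact ⟨hP.1 g1, g2, g3, g4⟩

theorem sub_bare_term (G : Geo V C) (P W : Rg V C) (X : Finset (V × V)) :
    (X.filter (fun q => ∀ c, (c ∈ P.2 ∨ c ∈ W.2) → ¬ (G.inc q.1 c ∧ G.inc q.2 c))).card =
      ∑ q ∈ X, if m2 G (P ⊔ W) q.1 q.2 = 0 then 1 else 0 := by
  rw [Finset.card_filter]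
  refine Finset.sum_congr rfl fun q _ => ?_
  have : (∀ c, (c ∈ P.2 ∨ c ∈ W.2) → ¬ (G.inc q.1 c ∧ G.inc q.2 c)) ↔
      m2 G (P ⊔ W) q.1 q.2 = 0 := by
    rw [m2_eq_zero_iff]
    simp only [mem_sup2]
  by_cases h : m2 G (P ⊔ W) q.1 q.2 = 0
  · rw [if_pos h, if_pos (this.2 h)]
  · rw [if_neg h, if_neg (fun h' => h (this.1 h'))]

/-- one orientation of the cross edges -/
theorem sub_cross (G : Geo V C) (P W : Rg V C) (X : Finset (V × V))
    (hj : ∀ q ∈ X, m2 G W q.1 q.2 ≤ 1) :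
    ∑ q ∈ X, m2 G (P ⊔ W) q.1 q.2 + (X.filter (fun q => ∀ c, (c ∈ P.2 ∨ c ∈ W.2) →
      ¬ (G.inc q.1 c ∧ G.inc q.2 c))).card ≤ X.card + ∑ q ∈ X, (subK G P W q.1 q.2 - 1) +
        (X.filter (fun q => 1 ≤ subK G P W q.1 q.2 ∧ 1 ≤ m2 G W q.1 q.2)).card := by
  rw [sub_bare_term, Finset.card_filter, Finset.card_eq_sum_ones X, ← Finset.sum_add_distrib,
    ← Finset.sum_add_distrib, ← Finset.sum_add_distrib]
  refine Finset.sum_le_sum fun q hq => ?_
  have h1 := hj q hq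
  have h2 := sub_m2 G P W q.1 q.2
  rw [h2]
  split_ifs <;> omega

theorem sub {G : Geo V C} {n : ℕ} {a b : ℝ} (h : Wt n a b) {D P W : Rg V C} (hD : PP G n a b D)
    (hP : Full G n D P) (hW : Cl G n a b D W) :
    del G a b (P ⊔ W) + del G a b (P ⊓ W) + (a - 4 * n - 4) * (crossInc G P W : ℝ) + (bare G P W : ℝ)
      ≤ del G a b P + del G a b W := by
  have hPD : P ≤ D := hP.1
  have hWD : W ≤ D := hW.1.1
  have hid := sup_inf_identity G a b P W
  -- the flags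
  have hflag : (flag G P W).card ≤ (xi G P W).card * n + (xi G W P).card * n +
      (∑ q ∈ xe G P W, m2 G (P ⊔ W) q.1 q.2 + ∑ q ∈ xe G W P, m2 G (P ⊔ W) q.1 q.2) := by
    have h1 : flag G P W ⊆ (flag G P W).filter (fun q => q.1.1 ∈ P.1 ∧ q.1.2 ∈ P.1) ∪
        (flag G P W).filter (fun q => q.1.1 ∈ W.1 ∧ q.1.2 ∈ W.1) ∪
        (flag G P W).filter (fun q => ¬ (q.1.1 ∈ P.1 ∧ q.1.2 ∈ P.1) ∧
          ¬ (q.1.1 ∈ W.1 ∧ q.1.2 ∈ W.1)) := by
      intro q hq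
      simp only [Finset.mem_union, Finset.mem_filter]
      tauto
    refine (Finset.card_le_card h1).trans ?_
    refine (Finset.card_union_le _ _).trans (Nat.add_le_add ?_ (sub_flag3 G P W))
    refine (Finset.card_union_le _ _).trans (Nat.add_le_add (sub_flag1 hD.1 hP hWD) ?_)
    rw [sub_flag_comm G P W]
    exact sub_flag1 hD.1 hW.1 hPD
  have hj1 : ∀ q ∈ xe G P W, m2 G W q.1 q.2 ≤ 1 := by
    intro q hq
    obtain ⟨h1, h2, h3, h4, -⟩ := mem_xe.1 hq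
    exact (m2_le_left G W _ _).trans (cl_unique h hD hW (hPD.1 h1) h3)
  have hj2 : ∀ q ∈ xe G W P, m2 G W q.1 q.2 ≤ 1 := by
    intro q hq
    obtain ⟨h1, h2, h3, h4, -⟩ := mem_xe.1 hq
    exact (m2_le_right G W _ _).trans (cl_unique h hD hW (hPD.1 h2) h4)
  have hc1 := sub_cross G P W (xe G P W) hj1
  have hc2 := sub_cross G P W (xe G W P) hj2
  have hr := sub_rebate_total h hD hPD hWD
  have hb := sub_both h hD hPD hW
  have hbare : bare G P W = ((xe G P W).filter (fun q => ∀ c, (c ∈ P.2 ∨ c ∈ W.2) →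
      ¬ (G.inc q.1 c ∧ G.inc q.2 c))).card + ((xe G W P).filter (fun q => ∀ c,
      (c ∈ P.2 ∨ c ∈ W.2) → ¬ (G.inc q.1 c ∧ G.inc q.2 c))).card := rfl
  have hnat : (flag G P W).card + bare G P W ≤ (xi G P W).card * n + (xi G W P).card * n +
      (xe G P W).card + (xe G W P).card + (n + 1) * (xi G W P).card +
      (xi G W P).card * n := by
    rw [hbare]
    omega
  have hreal : ((flag G P W).card : ℝ) + (bare G P W : ℝ) ≤ ((xi G P W).card : ℝ) * n +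
      ((xi G W P).card : ℝ) * n + ((xe G P W).card : ℝ) + ((xe G W P).card : ℝ) +
      ((n : ℝ) + 1) * ((xi G W P).card : ℝ) + ((xi G W P).card : ℝ) * n := by
    exact_mod_cast hnat
  have hcr : (crossInc G P W : ℝ) = ((xi G P W).card : ℝ) + ((xi G W P).card : ℝ) := by
    unfold crossInc
    push_cast
    ring
  have hx1 : (0 : ℝ) ≤ ((xi G P W).card : ℝ) := Nat.cast_nonneg _
  have hx2 : (0 : ℝ) ≤ ((xi G W P).card : ℝ) := Nat.cast_nonneg _
  have hn : (0 : ℝ) ≤ (n : ℝ) := Nat.cast_nonneg _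
  have hnx1 := mul_nonneg hn hx1
  have hnx2 := mul_nonneg hn hx2
  rw [hcr] at hid ⊢
  nlinarith

end Pool.Low
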