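import Pool.Agent.helper24.Low.Lat

/-!
# Module TR1: transport along one-level embeddings

`(fv, fc)` embeds the region `D` of `G` into `G'` (`GEmb`); `im fv fc P` is the image of a region `P ≤ D`.
Every region `Q ≤ im fv fc D` is the image of some `P ≤ D` (`P.1 = D.1.filter (fv · ∈ Q.1)` etc.).
-/

set_option autoImplicit false

namespace Pool.Low

open scoped Classical

variable {V C V' C' : Type} [DecidableEq V] [DecidableEq C] [DecidableEq V'] [DecidableEq C']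
variable {G : Geo V C} {G' : Geo V' C'} {D : Rg V C} {fv : V → V'} {fc : C → C'}

omit [DecidableEq V] [DecidableEq C] [DecidableEq V'] [DecidableEq C'] in
theorem GEmb.mono (h : GEmb G D G' fv fc) {P : Rg V C} (hP : P ≤ D) : GEmb G P G' fv fc where
  inj_v := fun u hu v hv e => h.inj_v (hP.1 hu) (hP.1 hv) e
  inj_c := fun u hu v hv e => h.inj_c (hP.2 hu) (hP.2 hv) e
  col := fun v hv => h.col v (hP.1 hv)
  edge := fun u hu v hv => h.edge u (hP.1 hu) v (hP.1 hv)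
  inc := fun v hv c hc => h.inc v (hP.1 hv) c (hP.2 hc)

theorem GEmb.mm_eq (h : GEmb G D G' fv fc) {P : Rg V C} (hP : P ≤ D) {v : V} (hv : v ∈ D.1) :
    mm G' (im fv fc P) (fv v) = mm G P v := by
  unfold mm
  have h1 : (im fv fc P).2.filter (fun c => G'.inc (fv v) c) =
      (P.2.filter (fun c => G.inc v c)).image fc := by
    ext c
    simp only [Finset.mem_filter, Finset.mem_image, mem_im2]
    constructor
    · rintro ⟨⟨d, hd, rfl⟩, hi⟩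
      exact ⟨d, ⟨hd, (h.inc v hv d (hP.2 hd)).1 hi⟩, rfl⟩
    · rintro ⟨d, ⟨hd, hi⟩, rfl⟩
      exact ⟨⟨d, hd, rfl⟩, (h.inc v hv d (hP.2 hd)).2 hi⟩
  rw [h1, Finset.card_image_of_injOn]
  intro a ha b hb e
  simp only [Finset.coe_filter, Set.mem_setOf_eq] at ha hb
  exact h.inj_c (hP.2 ha.1) (hP.2 hb.1) e

theorem GEmb.m2_eq (h : GEmb G D G' fv fc) {P : Rg V C} (hP : P ≤ D) {u v : V} (hu : u ∈ D.1) (hv : v ∈ D.1) :
    m2 G' (im fv fc P) (fv u) (fv v) = m2 G P u v := by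
  unfold m2
  have h1 : (im fv fc P).2.filter (fun c => G'.inc (fv u) c ∧ G'.inc (fv v) c) =
      (P.2.filter (fun c => G.inc u c ∧ G.inc v c)).image fc := by
    ext c
    simp only [Finset.mem_filter, Finset.mem_image, mem_im2]
    constructor
    · rintro ⟨⟨d, hd, rfl⟩, hi, hj⟩
      exact ⟨d, ⟨hd, (h.inc u hu d (hP.2 hd)).1 hi, (h.inc v hv d (hP.2 hd)).1 hj⟩, rfl⟩
    · rintro ⟨d, ⟨hd, hi, hj⟩, rfl⟩
      exact ⟨⟨d, hd, rfl⟩, (h.inc u hu d (hP.2 hd)).2 hi, (h.inc v hv d (hP.2 hd)).2 hj⟩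
  rw [h1, Finset.card_image_of_injOn]
  intro a ha b hb e
  simp only [Finset.coe_filter, Set.mem_setOf_eq] at ha hb
  exact h.inj_c (hP.2 ha.1) (hP.2 hb.1) e

theorem Tr1_ed (h : GEmb G D G' fv fc) {P : Rg V C} (hP : P ≤ D) :
    ed G' (im fv fc P).1 = (ed G P.1).image (fun p => (fv p.1, fv p.2)) := by
  ext p
  rw [mem_ed, Finset.mem_image]
  constructor
  · rintro ⟨⟨h1, h2⟩, h3⟩
    obtain ⟨u, hu, hu'⟩ := mem_im1.1 h1
    obtain ⟨v, hv, hv'⟩ := mem_im1.1 h2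
    refine ⟨(u, v), mem_ed.2 ⟨⟨hu, hv⟩, ?_⟩, by rw [hu', hv']⟩
    rw [← hu', ← hv', h.edge u (hP.1 hu) v (hP.1 hv)] at h3
    exact h3
  · rintro ⟨⟨u, v⟩, hq, rfl⟩
    obtain ⟨⟨hu, hv⟩, he⟩ := mem_ed.1 hq
    exact ⟨⟨mem_im1.2 ⟨u, hu, rfl⟩, mem_im1.2 ⟨v, hv, rfl⟩⟩, (h.edge u (hP.1 hu) v (hP.1 hv)).2 he⟩

theorem GEmb.del_eq (h : GEmb G D G' fv fc) {P : Rg V C} (hP : P ≤ D) (a b : ℝ) :
    del G' a b (im fv fc P) = del G a b P := by
  unfold del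
  have h1 : ∑ v ∈ (im fv fc P).1, (1 - (mm G' (im fv fc P) v : ℝ)) =
      ∑ v ∈ P.1, (1 - (mm G P v : ℝ)) := by
    show ∑ v ∈ P.1.image fv, (1 - (mm G' (im fv fc P) v : ℝ)) = _
    rw [Finset.sum_image fun x hx y hy e => h.inj_v (hP.1 hx) (hP.1 hy) e]
    exact Finset.sum_congr rfl fun v hv => by rw [h.mm_eq hP (hP.1 hv)]
  have h2 : ∑ p ∈ ed G' (im fv fc P).1, (1 - (m2 G' (im fv fc P) p.1 p.2 : ℝ)) =
      ∑ p ∈ ed G P.1, (1 - (m2 G P p.1 p.2 : ℝ)) := by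
    rw [Tr1_ed h hP, Finset.sum_image]
    · refine Finset.sum_congr rfl fun p hp => ?_
      obtain ⟨⟨hu, hv⟩, _⟩ := mem_ed.1 hp
      rw [h.m2_eq hP (hP.1 hu) (hP.1 hv)]
    · intro p hp q hq e
      obtain ⟨⟨hp1, hp2⟩, _⟩ := mem_ed.1 hp
      obtain ⟨⟨hq1, hq2⟩, _⟩ := mem_ed.1 hq
      have e1 : fv p.1 = fv q.1 := congrArg Prod.fst e
      have e2 : fv p.2 = fv q.2 := congrArg Prod.snd e
      exact Prod.ext (h.inj_v (hP.1 hp1) (hP.1 hq1) e1) (h.inj_v (hP.1 hp2) (hP.1 hq2) e2)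
  have h3 : (im fv fc P).2.card = P.2.card :=
    Finset.card_image_of_injOn fun x hx y hy e => h.inj_c (hP.2 hx) (hP.2 hy) e
  rw [h1, h2, h3]

theorem GEmb.sz_eq (h : GEmb G D G' fv fc) {P : Rg V C} (hP : P ≤ D) : sz G' (im fv fc P) = sz G P := by
  unfold sz
  have h3 : (im fv fc P).2.card = P.2.card :=
    Finset.card_image_of_injOn fun x hx y hy e => h.inj_c (hP.2 hx) (hP.2 hy) e
  have h1 : (im fv fc P).1.filter (fun v => mm G' (im fv fc P) v = 0) =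
      (P.1.filter (fun v => mm G P v = 0)).image fv := by
    ext v
    simp only [Finset.mem_filter, Finset.mem_image, mem_im1]
    constructor
    · rintro ⟨⟨u, hu, rfl⟩, hi⟩
      rw [h.mm_eq hP (hP.1 hu)] at hi
      exact ⟨u, ⟨hu, hi⟩, rfl⟩
    · rintro ⟨u, ⟨hu, hi⟩, rfl⟩
      refine ⟨⟨u, hu, rfl⟩, ?_⟩
      rw [h.mm_eq hP (hP.1 hu)]
      exact hi
  rw [h3, h1, Finset.card_image_of_injOn]
  intro a ha b hb e
  simp only [Finset.coe_filter, Set.mem_setOf_eq] at ha hb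
  exact h.inj_v (hP.1 ha.1) (hP.1 hb.1) e

omit [DecidableEq V] [DecidableEq C] in
theorem GEmb.exists_preimage {Q : Rg V' C'} (hQ : Q ≤ im fv fc D) : ∃ P, P ≤ D ∧ Q = im fv fc P := by
  refine ⟨(D.1.filter (fun v => fv v ∈ Q.1), D.2.filter (fun c => fc c ∈ Q.2)),
    ⟨Finset.filter_subset _ _, Finset.filter_subset _ _⟩, rg_ext ?_ ?_⟩
  · intro v
    rw [mem_im1]
    constructor
    · intro hv
      obtain ⟨u, hu, rfl⟩ := mem_im1.1 (hQ.1 hv)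
      exact ⟨u, Finset.mem_filter.2 ⟨hu, hv⟩, rfl⟩
    · rintro ⟨u, hu, rfl⟩
      exact (Finset.mem_filter.1 hu).2
  · intro v
    rw [mem_im2]
    constructor
    · intro hv
      obtain ⟨u, hu, rfl⟩ := mem_im2.1 (hQ.2 hv)
      exact ⟨u, Finset.mem_filter.2 ⟨hu, hv⟩, rfl⟩
    · rintro ⟨u, hu, rfl⟩
      exact (Finset.mem_filter.1 hu).2

omit [DecidableEq V] [DecidableEq C] in
theorem GEmb.le_iff (h : GEmb G D G' fv fc) {P Q : Rg V C} (hP : P ≤ D) (hQ : Q ≤ D) :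
    im fv fc P ≤ im fv fc Q ↔ P ≤ Q := by
  constructor
  · intro hle
    refine ⟨fun v hv => ?_, fun c hc => ?_⟩
    · obtain ⟨u, hu, e⟩ := mem_im1.1 (hle.1 (mem_im1.2 ⟨v, hv, rfl⟩))
      rw [← h.inj_v (hQ.1 hu) (hP.1 hv) e]
      exact hu
    · obtain ⟨u, hu, e⟩ := mem_im2.1 (hle.2 (mem_im2.2 ⟨c, hc, rfl⟩))
      rw [← h.inj_c (hQ.2 hu) (hP.2 hc) e]
      exact hu
  · exact im_mono

theorem Tr1_tr (h : GEmb G D G' fv fc) {P : Rg V C} (hP : P ≤ D) {c : C} (hc : c ∈ D.2) :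
    (tr G' (im fv fc P).1 (fc c)).card = (tr G P.1 c).card := by
  have h1 : tr G' (im fv fc P).1 (fc c) = (tr G P.1 c).image fv := by
    ext v
    rw [mem_tr, Finset.mem_image, mem_im1]
    constructor
    · rintro ⟨⟨u, hu, rfl⟩, hi⟩
      exact ⟨u, mem_tr.2 ⟨hu, (h.inc u (hP.1 hu) c hc).1 hi⟩, rfl⟩
    · rintro ⟨u, hu, rfl⟩
      obtain ⟨hu, hi⟩ := mem_tr.1 hu
      exact ⟨⟨u, hu, rfl⟩, (h.inc u (hP.1 hu) c hc).2 hi⟩
  rw [h1, Finset.card_image_of_injOn]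
  intro a ha b hb e
  exact h.inj_v (hP.1 (mem_tr.1 ha).1) (hP.1 (mem_tr.1 hb).1) e

theorem GEmb.full_iff (h : GEmb G D G' fv fc) {n : ℕ} {P : Rg V C} (hP : P ≤ D) :
    Full G' n (im fv fc D) (im fv fc P) ↔ Full G n D P := by
  constructor
  · rintro ⟨_, h2⟩
    refine ⟨hP, fun c hc hn => ?_⟩
    have h3 := h2 (fc c) (mem_im2.2 ⟨c, hc, rfl⟩) (by rw [Tr1_tr h hP hc]; exact hn)
    obtain ⟨d, hd, e⟩ := mem_im2.1 h3
    rw [← h.inj_c (hP.2 hd) hc e]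
    exact hd
  · rintro ⟨_, h2⟩
    refine ⟨im_mono hP, fun c' hc' hn => ?_⟩
    obtain ⟨c, hc, rfl⟩ := mem_im2.1 hc'
    rw [Tr1_tr h hP hc] at hn
    exact mem_im2.2 ⟨c, h2 c hc hn, rfl⟩

theorem GEmb.cl_iff (h : GEmb G D G' fv fc) {n : ℕ} {a b : ℝ} {B : Rg V C} (hB : B ≤ D) :
    Cl G' n a b (im fv fc D) (im fv fc B) ↔ Cl G n a b D B := by
  constructor
  · rintro ⟨h1, h2⟩
    refine ⟨(h.full_iff hB).1 h1, fun Z hZ hBZ => ?_⟩
    have h3 := h2 (im fv fc Z) ((h.full_iff hZ.1).2 hZ) (im_mono hBZ)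
    rw [h.del_eq hB, h.del_eq hZ.1] at h3
    exact h3
  · rintro ⟨h1, h2⟩
    refine ⟨(h.full_iff hB).2 h1, fun Z' hZ' hBZ => ?_⟩
    obtain ⟨Z, hZ, rfl⟩ := GEmb.exists_preimage hZ'.1
    rw [h.del_eq hB, h.del_eq hZ]
    exact h2 Z ((h.full_iff hZ).1 hZ') ((h.le_iff hB hZ).1 hBZ)

omit [DecidableEq V] [DecidableEq C] in
theorem Tr1_bip (h : GEmb G D G' fv fc) : Bip G' (im fv fc D).1 ↔ Bip G D.1 := by
  constructor
  · intro hb u hu v hv he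
    have h1 := hb (fv u) (mem_im1.2 ⟨u, hu, rfl⟩) (fv v) (mem_im1.2 ⟨v, hv, rfl⟩)
      ((h.edge u hu v hv).2 he)
    rw [h.col u hu, h.col v hv] at h1
    exact h1
  · intro hb u' hu' v' hv' he
    obtain ⟨u, hu, rfl⟩ := mem_im1.1 hu'
    obtain ⟨v, hv, rfl⟩ := mem_im1.1 hv'
    rw [h.col u hu, h.col v hv]
    exact hb u hu v hv ((h.edge u hu v hv).1 he)

theorem Tr1_lscard (h : GEmb G D G' fv fc) {c c' : C} (hc : c ∈ D.2) (hc' : c' ∈ D.2) :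
    ((im fv fc D).1.filter (fun v => G'.inc v (fc c) ∧ G'.inc v (fc c'))).card =
      (D.1.filter (fun v => G.inc v c ∧ G.inc v c')).card := by
  have h1 : (im fv fc D).1.filter (fun v => G'.inc v (fc c) ∧ G'.inc v (fc c')) =
      (D.1.filter (fun v => G.inc v c ∧ G.inc v c')).image fv := by
    ext v
    simp only [Finset.mem_filter, Finset.mem_image, mem_im1]
    constructor
    · rintro ⟨⟨u, hu, rfl⟩, hi, hj⟩
      exact ⟨u, ⟨hu, (h.inc u hu c hc).1 hi, (h.inc u hu c' hc').1 hj⟩, rfl⟩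
    · rintro ⟨u, ⟨hu, hi, hj⟩, rfl⟩
      exact ⟨⟨u, hu, rfl⟩, (h.inc u hu c hc).2 hi, (h.inc u hu c' hc').2 hj⟩
  rw [h1, Finset.card_image_of_injOn]
  intro a ha b hb e
  simp only [Finset.coe_filter, Set.mem_setOf_eq] at ha hb
  exact h.inj_v ha.1 hb.1 e

theorem Tr1_ls (h : GEmb G D G' fv fc) {n : ℕ} : LS G' n (im fv fc D) ↔ LS G n D := by
  constructor
  · intro hl c hc c' hc' hne
    rw [← Tr1_lscard h hc hc']
    exact hl (fc c) (mem_im2.2 ⟨c, hc, rfl⟩) (fc c') (mem_im2.2 ⟨c', hc', rfl⟩)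
      fun e => hne (h.inj_c hc hc' e)
  · intro hl d hd d' hd' hne
    obtain ⟨c, hc, rfl⟩ := mem_im2.1 hd
    obtain ⟨c', hc', rfl⟩ := mem_im2.1 hd'
    rw [Tr1_lscard h hc hc']
    exact hl c hc c' hc' fun e => hne (by rw [e])

theorem GEmb.kk_iff (h : GEmb G D G' fv fc) {g : ℕ} {θ : ℝ} {f : ℕ → ℝ} :
    KK G' g θ f (im fv fc D) ↔ KK G g θ f D := by
  have hne : ∀ P : Rg V C, (im fv fc P).2.Nonempty ↔ P.2.Nonempty := fun P =>
    Finset.image_nonempty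
  have hcard : ∀ P : Rg V C, P ≤ D → (im fv fc P).1.card = P.1.card := fun P hP =>
    Finset.card_image_of_injOn fun x hx y hy e => h.inj_v (hP.1 hx) (hP.1 hy) e
  constructor
  · rintro ⟨h1, h2, h3, h4⟩
    refine ⟨(Tr1_bip h).1 h1, (Tr1_ls h).1 h2, fun P hP hq => ?_, fun P hP => ?_⟩
    · have h5 := h3 (im fv fc P) ((h.full_iff hP.1).2 hP) (by rw [hne, hcard P hP.1]; exact hq)
      unfold dl at h5 ⊢
      rw [h.del_eq hP.1] at h5
      exact h5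
    · have h5 := h4 (im fv fc P) ((h.full_iff hP.1).2 hP)
      unfold dl at h5 ⊢
      rw [h.del_eq hP.1, h.sz_eq hP.1] at h5
      exact h5
  · rintro ⟨h1, h2, h3, h4⟩
    refine ⟨(Tr1_bip h).2 h1, (Tr1_ls h).2 h2, fun P' hP' hq => ?_, fun P' hP' => ?_⟩
    · obtain ⟨P, hP, rfl⟩ := GEmb.exists_preimage hP'.1
      have h5 := h3 P ((h.full_iff hP).1 hP') (by rw [hne, hcard P hP] at hq; exact hq)
      unfold dl at h5 ⊢
      rw [h.del_eq hP]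
      exact h5
    · obtain ⟨P, hP, rfl⟩ := GEmb.exists_preimage hP'.1
      have h5 := h4 P ((h.full_iff hP).1 hP')
      unfold dl at h5 ⊢
      rw [h.del_eq hP, h.sz_eq hP]
      exact h5

end Pool.Low
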