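import Pool.Agent.helper24.Low.Code
import Pool.Agent.helper24.Low.Delta

/-!
# Module N3 (Unif): uniform subfamilies

Choose labels `lv i : V → Fin (X+1)` injective on `(B i).1` and `lc i : C → Fin (X+1)` injective on `(B i).2`.  Let
`ι i p : V ⊕ (ℕ × Fin (X+1))` be `inl v` if `v ∈ (B i).1` has label `p` and `inr (i, p)` if there is no such `v`; injective.
`delta_lemma` gives a subsequence such that a common vertex of two different members has the same label in both.  The same for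
blocks (subsequence of the subsequence), then pass to an infinite subsequence on which the code of `exists_code` is constant (pigeonhole).
`kv i, kc i` = the isomorphism `B (φ i) → B (φ 0)` of `exists_code`, so `lv (φ 0) (kv i v) = lv (φ i) v`.
If `v` is in `B (φ i)` and in `B (φ j)`, then `lv (φ i) v = lv (φ j) v` so `kv i v = kv j v` (labels are injective on `B (φ 0)`).
`kv 0 v` has the same label as `v`, so `kv 0 v = v`.
-/

set_option autoImplicit false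

namespace Pool.Low

open scoped Classical

theorem exists_label {α : Type} (F : Finset α) (X : ℕ) (h : F.card ≤ X) :
    ∃ l : α → Fin (X + 1), Set.InjOn l (F : Set α) := by
  refine ⟨fun v => if hv : v ∈ F then ⟨(F.equivFin ⟨v, hv⟩ : ℕ), by
    have := (F.equivFin ⟨v, hv⟩).2; omega⟩ else 0, ?_⟩
  intro v hv w hw hvw
  have hv' : v ∈ F := hv
  have hw' : w ∈ F := hw
  simp only [hv', hw', dif_pos, Fin.mk.injEq] at hvw
  have h1 : F.equivFin ⟨v, hv'⟩ = F.equivFin ⟨w, hw'⟩ := Fin.ext hvw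
  have h2 := F.equivFin.injective h1
  exact congrArg Subtype.val h2

theorem label_delta {α : Type} {Y : ℕ} (F : ℕ → Finset α) (l : ℕ → α → Fin Y)
    (hinj : ∀ i, Set.InjOn (l i) (F i : Set α)) :
    ∃ φ : ℕ → ℕ, StrictMono φ ∧ ∀ i j, ∀ v, v ∈ F (φ i) → v ∈ F (φ j) → l (φ i) v = l (φ j) v := by
  classical
  let ι : ℕ → Fin Y → α ⊕ (ℕ × Fin Y) := fun i p =>
    if h : ∃ v, v ∈ F i ∧ l i v = p then Sum.inl h.choose else Sum.inr (i, p)
  have hι : ∀ i, ∀ v ∈ F i, ι i (l i v) = Sum.inl v := by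
    intro i v hv
    have hex : ∃ w, w ∈ F i ∧ l i w = l i v := ⟨v, hv, rfl⟩
    have h1 : ι i (l i v) = Sum.inl hex.choose := by
      simp only [ι]
      rw [dif_pos hex]
    rw [h1]
    have h2 := hex.choose_spec
    congr 1
    exact hinj i h2.1 hv h2.2
  have hinj2 : ∀ i, Function.Injective (ι i) := by
    intro i p q hpq
    by_cases hp : ∃ v, v ∈ F i ∧ l i v = p
    · by_cases hq : ∃ v, v ∈ F i ∧ l i v = q
      · obtain ⟨v, hv, rfl⟩ := hp
        obtain ⟨w, hw, rfl⟩ := hq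
        rw [hι i v hv, hι i w hw] at hpq
        rw [Sum.inl.inj hpq]
      · exfalso
        simp only [ι] at hpq
        rw [dif_pos hp, dif_neg hq] at hpq
        cases hpq
    · by_cases hq : ∃ v, v ∈ F i ∧ l i v = q
      · exfalso
        simp only [ι] at hpq
        rw [dif_neg hp, dif_pos hq] at hpq
        cases hpq
      · simp only [ι] at hpq
        rw [dif_neg hp, dif_neg hq] at hpq
        exact (Prod.mk.inj (Sum.inr.inj hpq)).2
  obtain ⟨φ, h1, h2⟩ := delta_lemma Y ι hinj2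
  refine ⟨φ, h1, ?_⟩
  intro i j v hi hj
  by_cases hij : i = j
  · rw [hij]
  · apply h2 i j hij
    rw [hι _ v hi, hι _ v hj]

theorem exists_const_subseq {n : ℕ} (c : ℕ → Fin n) : ∃ φ : ℕ → ℕ, StrictMono φ ∧ ∀ i j, c (φ i) = c (φ j) := by
  have h1 : ∃ k, ∃ᶠ i in Filter.atTop, c i = k := by
    by_contra hcon
    push Not at hcon
    have h2 : ∀ᶠ i in (Filter.atTop : Filter ℕ), ∀ k, c i ≠ k := Filter.eventually_all.2 fun k => by
      have := hcon k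
      exact this
    obtain ⟨i, hi⟩ := h2.exists
    exact hi (c i) rfl
  obtain ⟨k, hk⟩ := h1
  obtain ⟨φ, h2, h3⟩ := Filter.extraction_of_frequently_atTop hk
  exact ⟨φ, h2, fun i j => by rw [h3 i, h3 j]⟩

theorem uniform_subfamily {V C : Type} [DecidableEq V] [DecidableEq C] (S : Sys V C) (s X m : ℕ) (B : ℕ → Rg V C)
    (b : ℕ → Fin m → V) (hok : ∀ i, Ok S (B i)) (hlev : ∀ i, ∀ c ∈ (B i).2, S.lev c ≤ s)
    (hX1 : ∀ i, (B i).1.card ≤ X) (hX2 : ∀ i, (B i).2.card ≤ X) (hb : ∀ i t, b i t ∈ (B i).1) :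
    ∃ φ : ℕ → ℕ, StrictMono φ ∧ ∃ (kv : ℕ → V → V) (kc : ℕ → C → C),
      (∀ i, IsEmb S (B (φ i)) S (kv i) (kc i)) ∧ (∀ i, im (kv i) (kc i) (B (φ i)) = B (φ 0)) ∧
      (∀ i t, kv i (b (φ i) t) = b (φ 0) t) ∧
      (∀ i j, ∀ v ∈ (B (φ i)).1, v ∈ (B (φ j)).1 → kv i v = kv j v) ∧
      (∀ i j, ∀ c ∈ (B (φ i)).2, c ∈ (B (φ j)).2 → kc i c = kc j c) ∧
      (∀ v ∈ (B (φ 0)).1, kv 0 v = v) ∧ (∀ c ∈ (B (φ 0)).2, kc 0 c = c) := by
  have hlvex : ∀ i, ∃ l : V → Fin (X + 1), Set.InjOn l ((B i).1 : Set V) := fun i => exists_label _ X (hX1 i)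
  have hlcex : ∀ i, ∃ l : C → Fin (X + 1), Set.InjOn l ((B i).2 : Set C) := fun i => exists_label _ X (hX2 i)
  choose lv hlv using hlvex
  choose lc hlc using hlcex
  obtain ⟨n, code, hcode⟩ := exists_code (V := V) (C := C) S s (X + 1) m
  obtain ⟨φ1, hφ1, h1⟩ := label_delta (fun i => (B i).1) lv hlv
  obtain ⟨φ2, hφ2, h2⟩ := label_delta (fun i => (B (φ1 i)).2) (fun i => lc (φ1 i)) (fun i => hlc (φ1 i))
  obtain ⟨φ3, hφ3, h3⟩ := exists_const_subseq (fun i =>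
    code (B (φ1 (φ2 i))) (b (φ1 (φ2 i))) (lv (φ1 (φ2 i))) (lc (φ1 (φ2 i))))
  let φ : ℕ → ℕ := fun i => φ1 (φ2 (φ3 i))
  have hφ : StrictMono φ := fun a b hab => hφ1 (hφ2 (hφ3 hab))
  have hvl : ∀ i j, ∀ v, v ∈ (B (φ i)).1 → v ∈ (B (φ j)).1 → lv (φ i) v = lv (φ j) v :=
    fun i j v hi hj => h1 (φ2 (φ3 i)) (φ2 (φ3 j)) v hi hj
  have hcl : ∀ i j, ∀ c, c ∈ (B (φ i)).2 → c ∈ (B (φ j)).2 → lc (φ i) c = lc (φ j) c :=
    fun i j v hi hj => h2 (φ3 i) (φ3 j) v hi hj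
  have hex : ∀ i, ∃ (fv : V → V) (fc : C → C), IsEmb S (B (φ i)) S fv fc ∧ im fv fc (B (φ i)) = B (φ 0) ∧
      (∀ v ∈ (B (φ i)).1, lv (φ 0) (fv v) = lv (φ i) v) ∧
      (∀ c ∈ (B (φ i)).2, lc (φ 0) (fc c) = lc (φ i) c) ∧ ∀ t, fv (b (φ i) t) = b (φ 0) t := by
    intro i
    exact hcode (B (φ i)) (B (φ 0)) (b (φ i)) (b (φ 0)) (lv (φ i)) (lv (φ 0)) (lc (φ i)) (lc (φ 0))
      (hok _) (hok _) (hlev _) (hlev _) (hb _) (hb _) (hlv _) (hlc _) (hlv _) (hlc _) (h3 i 0)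
  choose kv kc hemb him hkv hkc hkb using hex
  have hmv : ∀ i, ∀ v ∈ (B (φ i)).1, kv i v ∈ (B (φ 0)).1 := by
    intro i v hv
    rw [← him i]
    exact mem_im1.2 ⟨v, hv, rfl⟩
  have hmc : ∀ i, ∀ c ∈ (B (φ i)).2, kc i c ∈ (B (φ 0)).2 := by
    intro i c hc
    rw [← him i]
    exact mem_im2.2 ⟨c, hc, rfl⟩
  refine ⟨φ, hφ, kv, kc, hemb, him, hkb, ?_, ?_, ?_, ?_⟩
  · intro i j v hi hj
    apply hlv (φ 0) (hmv i v hi) (hmv j v hj)
    rw [hkv i v hi, hkv j v hj]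
    exact hvl i j v hi hj
  · intro i j c hi hj
    apply hlc (φ 0) (hmc i c hi) (hmc j c hj)
    rw [hkc i c hi, hkc j c hj]
    exact hcl i j c hi hj
  · intro v hv
    exact hlv (φ 0) (hmv 0 v hv) hv (hkv 0 v hv)
  · intro c hc
    exact hlc (φ 0) (hmc 0 c hc) hc (hkc 0 c hc)

end Pool.Low
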