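import Pool.Agent.helper24.Low.GenL
import Pool.Agent.helper24.Low.Trn
import Pool.Agent.helper24.Low.Unif

/-!
# Module N7a (Tree): closures along a tree of parameters and uniform families of children

`Cf σ` = the closure (`Gen.closure`) of the set of all values `p τ i`, `τ` a prefix of `σ`, `i : Fin m` (finite set; use
`List.inits` or `σ.take j`, `j ≤ |σ|`), it has at most `BD (m (|σ|+1))` vertices and blocks.  For fixed `σ` apply `uniform_subfamily` to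
`B i = trn S s (Cf (σ ++ [i]))`, `b i = p (σ ++ [i])`, `X = BD (m (|σ| + 2))`.
-/

set_option autoImplicit false

namespace Pool.Low

open scoped Classical

variable {P : Par} {S : Sys ℕ ℕ} {D : ℕ → Rg ℕ ℕ}

/-- closures along the tree, and for every node a uniform subfamily `φ σ 0 < φ σ 1 < ...` of its children -/
structure TreeData (hP : Good P) (S : Sys ℕ ℕ) (D : ℕ → Rg ℕ ℕ) (m s : ℕ) (p : List ℕ → Fin m → ℕ) where
  Cf : List ℕ → Rg ℕ ℕ
  cl : ∀ σ, ∃ k, ClL P Set.univ P.θ S (D k) (Cf σ)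
  mem : ∀ σ τ, τ <+: σ → ∀ i, p τ i ∈ (Cf σ).1
  min : ∀ σ l R', ClL P Set.univ P.θ S (D l) R' → (∀ τ, τ <+: σ → ∀ i, p τ i ∈ R'.1) → Cf σ ≤ R'
  φ : List ℕ → ℕ → ℕ
  mono : ∀ σ, StrictMono (φ σ)
  kv : List ℕ → ℕ → ℕ → ℕ
  kc : List ℕ → ℕ → ℕ → ℕ
  emb : ∀ σ i, IsEmb S (trn S s (Cf (σ ++ [φ σ i]))) S (kv σ i) (kc σ i)
  img : ∀ σ i, im (kv σ i) (kc σ i) (trn S s (Cf (σ ++ [φ σ i]))) = trn S s (Cf (σ ++ [φ σ 0]))
  par : ∀ σ i j, kv σ i (p (σ ++ [φ σ i]) j) = p (σ ++ [φ σ 0]) j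
  ovv : ∀ σ i j, ∀ v ∈ (Cf (σ ++ [φ σ i])).1, v ∈ (Cf (σ ++ [φ σ j])).1 → kv σ i v = kv σ j v
  ovc : ∀ σ i j, ∀ c ∈ (trn S s (Cf (σ ++ [φ σ i]))).2, c ∈ (trn S s (Cf (σ ++ [φ σ j]))).2 → kc σ i c = kc σ j c
  idv : ∀ σ, ∀ v ∈ (Cf (σ ++ [φ σ 0])).1, kv σ 0 v = v
  idc : ∀ σ, ∀ c ∈ (trn S s (Cf (σ ++ [φ σ 0]))).2, kc σ 0 c = c

/-- the parameters at the prefixes of `σ` -/
noncomputable def Tree_pars {m : ℕ} (p : List ℕ → Fin m → ℕ) (σ : List ℕ) : Finset ℕ :=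
  σ.inits.toFinset.biUnion (fun τ => Finset.univ.image (p τ))

theorem Tree_mem_pars {m : ℕ} {p : List ℕ → Fin m → ℕ} {σ : List ℕ} {x : ℕ} :
    x ∈ Tree_pars p σ ↔ ∃ τ, τ <+: σ ∧ ∃ i, p τ i = x := by
  simp [Tree_pars, List.mem_inits]

theorem Tree_card_pars {m : ℕ} (p : List ℕ → Fin m → ℕ) (σ : List ℕ) :
    (Tree_pars p σ).card ≤ (σ.length + 1) * m := by
  unfold Tree_pars
  calc (σ.inits.toFinset.biUnion (fun τ => Finset.univ.image (p τ))).card
      ≤ σ.inits.toFinset.card * m := by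
        apply Finset.card_biUnion_le_card_mul
        intro τ _
        exact le_trans Finset.card_image_le (by simp)
    _ ≤ (σ.length + 1) * m := by
        apply Nat.mul_le_mul_right
        exact le_trans (List.toFinset_card_le _) (by simp)

theorem exists_tree (hP : Good P) (hG : Gen P S D) (m s : ℕ) (p : List ℕ → Fin m → ℕ) (hp : ∀ σ i, dom D (p σ i)) :
    Nonempty (TreeData hP S D m s p) := by
  have hX : ∀ σ, ∀ x ∈ Tree_pars p σ, dom D x := by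
    intro σ x hx
    obtain ⟨τ, _, i, rfl⟩ := Tree_mem_pars.1 hx
    exact hp τ i
  have hcl := fun σ => Gen.closure hP hG (Tree_pars p σ) (hX σ)
  choose Cf h1 h2 h3 h4 h5 h6 using hcl
  have hmem : ∀ σ τ, τ <+: σ → ∀ i, p τ i ∈ (Cf σ).1 := fun σ τ hτ i =>
    h2 σ (Tree_mem_pars.2 ⟨τ, hτ, i, rfl⟩)
  have hok : ∀ σ, Ok S (Cf σ) := by
    intro σ
    obtain ⟨k, hk⟩ := h1 σ
    exact hk.ok
  have hcard : ∀ σ (i : ℕ), hP.BD (Tree_pars p (σ ++ [i])).card ≤ hP.BD ((σ.length + 2) * m) := by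
    intro σ i
    apply hP.BD_mono
    refine le_trans (Tree_card_pars p (σ ++ [i])) ?_
    simp
  have hu := fun σ => uniform_subfamily S s (hP.BD ((σ.length + 2) * m)) m
    (fun i => trn S s (Cf (σ ++ [i]))) (fun i => p (σ ++ [i]))
    (fun i => ok_trn (hok _)) (fun i c hc => (mem_trn2.1 hc).2)
    (fun i => (h4 (σ ++ [i])).trans (hcard σ i))
    (fun i => (Finset.card_filter_le _ _).trans ((h5 (σ ++ [i])).trans (hcard σ i)))
    (fun i t => hmem _ _ (List.prefix_refl _) t)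
  choose φ hφ kv kc a1 a2 a3 a4 a5 a6 a7 using hu
  exact ⟨{
    Cf := Cf
    cl := h1
    mem := hmem
    min := by
      intro σ l R' hR' hR
      apply h3 σ l R' hR'
      intro x hx
      obtain ⟨τ, hτ, i, rfl⟩ := Tree_mem_pars.1 hx
      exact hR τ hτ i
    φ := φ
    mono := hφ
    kv := kv
    kc := kc
    emb := a1
    img := a2
    par := a3
    ovv := a4
    ovc := a5
    idv := a6
    idc := a7 }⟩

end Pool.Low
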