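import Pool.Agent.helper24.Low.Types
import Pool.Agent.helper24.Low.Code

/-!
# Module TY2 (TypesFin): finitely many types

For `x` with values in the generic system let `R_x` be the closure of its set of values (`Gen.closure`): `|R_x.1|, |R_x.2| ≤ BD N`
(`Good.BD_mono`; the set of values has at most `N` elements), levels `≤ N`.  Choose labels `ℕ → Fin (BD N + 1)` injective on `R_x.1`, `R_x.2`,
and use the code of `exists_code` with `s = N`, `X = BD N + 1`, `m = N`.
-/

set_option autoImplicit false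

namespace Pool.Low

open scoped Classical

variable {P : Par} {S : Sys ℕ ℕ} {D : ℕ → Rg ℕ ℕ}

/-- labels for a finite set of bounded size -/
theorem exists_label_tf (X : Finset ℕ) {M : ℕ} (h : X.card ≤ M) :
    ∃ g : ℕ → Fin (M + 1), Set.InjOn g (X : Set ℕ) := by
  refine ⟨fun v => if h' : v ∈ X then Fin.castLE (Nat.le_succ_of_le h) (X.equivFin ⟨v, h'⟩) else 0, ?_⟩
  intro v hv w hw he
  have hv' : v ∈ X := hv
  have hw' : w ∈ X := hw
  simp only [dif_pos hv', dif_pos hw'] at he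
  have h1 := X.equivFin.injective (Fin.castLE_injective _ he)
  exact congrArg Subtype.val h1

theorem rr_fin (hP : Good P) (hG : Gen P S D) (N : ℕ) :
    ∃ (n : ℕ) (code : (Fin N → ℕ) → Fin n), ∀ x y : Fin N → ℕ, (∀ i, dom D (x i)) → (∀ i, dom D (y i)) →
      code x = code y → rr P S D N x y := by
  set M : ℕ := hP.BD N with hM
  have H : ∀ x : Fin N → ℕ, (∀ i, dom D (x i)) → ∃ (R : Rg ℕ ℕ) (lv lc : ℕ → Fin (M + 1)),
      (∃ k, ClL P Set.univ P.θ S (D k) R) ∧ (∀ i, x i ∈ R.1) ∧ (∀ c ∈ R.2, S.lev c ≤ N) ∧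
      Set.InjOn lv (R.1 : Set ℕ) ∧ Set.InjOn lc (R.2 : Set ℕ) := by
    intro x hx
    have hX : ∀ v ∈ Finset.univ.image x, dom D v := by
      intro v hv
      obtain ⟨i, -, rfl⟩ := Finset.mem_image.1 hv
      exact hx i
    have hcard : (Finset.univ.image x).card ≤ N :=
      Finset.card_image_le.trans (by simp)
    obtain ⟨R, hk, hXR, -, h1, h2, h3⟩ := Gen.closure hP hG (Finset.univ.image x) hX
    have hmono := hP.BD_mono hcard
    obtain ⟨lv, hlv⟩ := exists_label_tf R.1 (M := M) (h1.trans hmono)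
    obtain ⟨lc, hlc⟩ := exists_label_tf R.2 (M := M) (h2.trans hmono)
    exact ⟨R, lv, lc, hk, fun i => hXR (Finset.mem_image.2 ⟨i, Finset.mem_univ _, rfl⟩),
      fun c hc => (h3 c hc).trans hcard, hlv, hlc⟩
  choose! R lv lc hk hmem hlev hlv hlc using H
  obtain ⟨n, code, hcode⟩ := exists_code S N (M + 1) N
  refine ⟨n, fun x => code (R x) x (lv x) (lc x), ?_⟩
  intro x y hx hy he
  obtain ⟨k, hk1⟩ := hk x hx
  obtain ⟨l, hl1⟩ := hk y hy
  obtain ⟨fv, fc, h1, h2, -, -, h5⟩ := hcode (R x) (R y) x y (lv x) (lv y) (lc x) (lc y) hk1.ok hl1.ok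
    (hlev x hx) (hlev y hy) (hmem x hx) (hmem y hy) (hlv x hx) (hlc x hx) (hlv y hy) (hlc y hy) he
  exact ⟨k, l, R x, fv, fc, hk1, hmem x hx, h1, by rw [h2]; exact hl1, h5⟩

end Pool.Low
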