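import Pool.Agent.helper24.Low.Rebate

/-!
# Module LA4 (Uniq): a new vertex lies in at most one block of a closed set
-/

set_option autoImplicit false

namespace Pool.Low

open scoped Classical

variable {V C : Type} [DecidableEq V] [DecidableEq C]

omit [DecidableEq V] [DecidableEq C] in
/-- `W` full: blocks outside `W` have at most `n` vertices in `W`. -/
theorem uniq_tr_le {G : Geo V C} {n : ℕ} {D W : Rg V C} (hW : Full G n D W) {c : C} (hc : c ∈ D.2)
    (hcW : c ∉ W.2) : (tr G W.1 c).card ≤ n := by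
  by_contra hcon
  exact hcW (hW.2 c hc (by omega))

omit [DecidableEq C] in
theorem uniq_tr_union (G : Geo V C) (X Y : Finset V) (c : C) :
    (tr G (X ∪ Y) c).card ≤ (tr G X c).card + (tr G Y c).card := by
  have : tr G (X ∪ Y) c = tr G X c ∪ tr G Y c := by
    ext v
    rw [Finset.mem_union, mem_tr, mem_tr, mem_tr, Finset.mem_union]
    tauto
  rw [this]
  exact Finset.card_union_le _ _

/-- sum over the new edges at a new vertex -/
theorem uniq_sum_new {G : Geo V C} {n : ℕ} {a b : ℝ} (h : Wt n a b) {D W : Rg V C} (hD : PP G n a b D)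
    (hWD : W ≤ D) {v : V} (hv : v ∈ D.1) (hvW : v ∉ W.1) :
    ∑ p ∈ ed G (W.1 ∪ {v}) \ ed G W.1, ((m2 G W p.1 p.2 : ℝ) - 1) ≤ ((n : ℝ) + 1) * (mm G W v : ℝ) := by
  set new := ed G (W.1 ∪ {v}) \ ed G W.1 with hnew
  set nb : Finset V := W.1.filter (fun u => (G.E u v ∨ G.E v u) ∧ 1 ≤ m2 G W u v) with hnb
  set Y : Finset C := W.2.filter (fun c => G.inc v c) with hY
  set oth : V × V → V := fun p => if p.1 = v then p.2 else p.1 with hoth
  have hmem : ∀ p ∈ new, (p.1 = v ∧ p.2 ∈ W.1 ∧ G.E v p.2 ∧ G.col v = true) ∨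
      (p.2 = v ∧ p.1 ∈ W.1 ∧ G.E p.1 v ∧ G.col v = false) := by
    intro p hp
    rw [hnew, Finset.mem_sdiff, mem_ed, mem_ed] at hp
    obtain ⟨⟨⟨h1, h2⟩, h3⟩, h4⟩ := hp
    have hsub : ∀ x ∈ W.1 ∪ {v}, x ∈ D.1 := by
      intro x hx
      rcases Finset.mem_union.1 hx with hx | hx
      · exact hWD.1 hx
      · rw [Finset.mem_singleton.1 hx]; exact hv
    have hb := hD.1 p.1 (hsub _ h1) p.2 (hsub _ h2) h3
    rcases Finset.mem_union.1 h1 with h1 | h1 <;> rcases Finset.mem_union.1 h2 with h2 | h2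
    · exact absurd ⟨⟨h1, h2⟩, h3⟩ h4
    · right
      have e := Finset.mem_singleton.1 h2
      rw [e] at hb h3
      exact ⟨e, h1, h3, hb.2⟩
    · left
      have e := Finset.mem_singleton.1 h1
      rw [e] at hb h3
      exact ⟨e, h2, h3, hb.1⟩
    · exfalso
      have e1 := Finset.mem_singleton.1 h1
      have e2 := Finset.mem_singleton.1 h2
      rw [e1, e2] at hb
      rw [hb.1] at hb
      exact absurd hb.2 (by simp)
  have hothm : ∀ p ∈ new, m2 G W p.1 p.2 = m2 G W (oth p) v := by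
    intro p hp
    rcases hmem p hp with ⟨h1, h2, h3, h4⟩ | ⟨h1, h2, h3, h4⟩
    · have : oth p = p.2 := by simp [hoth, h1]
      rw [this, h1, m2_comm]
    · have hne : p.1 ≠ v := fun e => hvW (e ▸ h2)
      have : oth p = p.1 := by simp [hoth, hne]
      rw [this, h1]
  have hinj : Set.InjOn oth (new : Set (V × V)) := by
    intro p hp q hq hpq
    rcases hmem p hp with ⟨h1, h2, h3, h4⟩ | ⟨h1, h2, h3, h4⟩ <;>
      rcases hmem q hq with ⟨k1, k2, k3, k4⟩ | ⟨k1, k2, k3, k4⟩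
    · have e1 : oth p = p.2 := by simp [hoth, h1]
      have e2 : oth q = q.2 := by simp [hoth, k1]
      rw [e1, e2] at hpq
      exact Prod.ext (h1.trans k1.symm) hpq
    · rw [h4] at k4; exact absurd k4 (by simp)
    · rw [h4] at k4; exact absurd k4 (by simp)
    · have hne : p.1 ≠ v := fun e => hvW (e ▸ h2)
      have kne : q.1 ≠ v := fun e => hvW (e ▸ k2)
      have e1 : oth p = p.1 := by simp [hoth, hne]
      have e2 : oth q = q.1 := by simp [hoth, kne]
      rw [e1, e2] at hpq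
      exact Prod.ext hpq (h1.trans k1.symm)
  have hsplit : ∑ p ∈ new, ((m2 G W p.1 p.2 : ℝ) - 1) ≤
      ∑ p ∈ new.filter (fun p => 1 ≤ m2 G W p.1 p.2), ((m2 G W p.1 p.2 : ℝ) - 1) := by
    rw [← Finset.sum_filter_add_sum_filter_not new (fun p => 1 ≤ m2 G W p.1 p.2)]
    have : ∑ p ∈ new.filter (fun p => ¬ 1 ≤ m2 G W p.1 p.2), ((m2 G W p.1 p.2 : ℝ) - 1) ≤ 0 := by
      apply Finset.sum_nonpos
      intro p hp
      rw [Finset.mem_filter] at hp
      have : m2 G W p.1 p.2 = 0 := by omega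
      rw [this]
      norm_num
    linarith
  have himg : ∑ p ∈ new.filter (fun p => 1 ≤ m2 G W p.1 p.2), ((m2 G W p.1 p.2 : ℝ) - 1) =
      ∑ u ∈ (new.filter (fun p => 1 ≤ m2 G W p.1 p.2)).image oth, ((m2 G W u v : ℝ) - 1) := by
    rw [Finset.sum_image]
    · apply Finset.sum_congr rfl
      intro p hp
      rw [hothm p (Finset.mem_of_mem_filter p hp)]
    · intro p hp q hq hpq
      exact hinj (Finset.mem_of_mem_filter p hp) (Finset.mem_of_mem_filter q hq) hpq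
  have hsub : (new.filter (fun p => 1 ≤ m2 G W p.1 p.2)).image oth ⊆ nb := by
    intro u hu
    rw [Finset.mem_image] at hu
    obtain ⟨p, hp, rfl⟩ := hu
    rw [Finset.mem_filter] at hp
    rw [hnb, Finset.mem_filter, ← hothm p hp.1]
    rcases hmem p hp.1 with ⟨h1, h2, h3, h4⟩ | ⟨h1, h2, h3, h4⟩
    · have e1 : oth p = p.2 := by simp [hoth, h1]
      rw [e1]
      exact ⟨h2, Or.inr h3, hp.2⟩
    · have hne : p.1 ≠ v := fun e => hvW (e ▸ h2)
      have e1 : oth p = p.1 := by simp [hoth, hne]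
      rw [e1]
      exact ⟨h2, Or.inl h3, hp.2⟩
  have hle : ∑ u ∈ (new.filter (fun p => 1 ≤ m2 G W p.1 p.2)).image oth, ((m2 G W u v : ℝ) - 1) ≤
      ∑ u ∈ nb, ((m2 G W u v : ℝ) - 1) := by
    apply Finset.sum_le_sum_of_subset_of_nonneg hsub
    intro u hu _
    rw [hnb, Finset.mem_filter] at hu
    have : (1:ℝ) ≤ (m2 G W u v : ℝ) := by exact_mod_cast hu.2.2
    linarith
  have hm : ∀ u, m2 G W u v = m2 G (nb, Y) u v := by
    intro u
    unfold m2
    congr 1
    ext c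
    simp only [Finset.mem_filter, hY]
    tauto
  have hreb := rebate_nbr h hD v hv nb (fun u hu => hWD.1 (Finset.mem_of_mem_filter u hu))
    (fun u hu => (Finset.mem_filter.1 hu).2.1) Y (fun c hc => hWD.2 (Finset.mem_of_mem_filter c hc))
    (fun c hc => (Finset.mem_filter.1 hc).2)
  have hYm : Y.card = mm G W v := rfl
  rw [hYm] at hreb
  calc ∑ p ∈ new, ((m2 G W p.1 p.2 : ℝ) - 1) ≤ _ := hsplit
    _ = _ := himg
    _ ≤ ∑ u ∈ nb, ((m2 G W u v : ℝ) - 1) := hle
    _ = ∑ u ∈ nb, ((m2 G (nb, Y) u v : ℝ) - 1) := Finset.sum_congr rfl fun u _ => by rw [hm u]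
    _ ≤ _ := hreb

/-- **Uniqueness (C1).**  Let `W` be closed in `D`, `v ∉ W`, and suppose `m := mm W v ≥ 2`.  Put `P = (insert v W.1, W.2)`.  Every
block of `D` outside `W` has at most `n` vertices in `W.1` (`W` is full), hence at most `n+1 ≤ 2n` in `P.1`, so by `hull_del` the
hull `Z` of `P` has `del Z ≤ del P`, and `del W ≤ del Z` because `W` is closed.  By `del_add_vertices` (`U = {v}`)
`del P = del W + a (1 - m) + ∑_{u ∈ W.1 adjacent to v} (m2 W u v - 1)` and the last sum is at most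
`∑_{u : m2 ≥ 1} (m2 - 1) ≤ (n+1) m` by `rebate_nbr` with `Y` = blocks of `W` containing `v`.  Since `m ≥ 2`,
`(n+1) m ≤ 2 (n+1) (m-1) < a (m-1)`, contradiction. (There are no loops: `Bip`.) -/
theorem cl_unique {G : Geo V C} {n : ℕ} {a b : ℝ} (h : Wt n a b) {D W : Rg V C} (hD : PP G n a b D)
    (hW : Cl G n a b D W) {v : V} (hv : v ∈ D.1) (hvW : v ∉ W.1) : mm G W v ≤ 1 := by
  by_contra hcon
  have hm2 : 2 ≤ mm G W v := by omega
  have hWD : W ≤ D := hW.1.1
  set P : Rg V C := (W.1 ∪ {v}, W.2) with hP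
  have hPD : P ≤ D := by
    refine ⟨fun x hx => ?_, hWD.2⟩
    rcases Finset.mem_union.1 hx with hx | hx
    · exact hWD.1 hx
    · rw [Finset.mem_singleton.1 hx]; exact hv
  have hn := h.n_pos
  have hsmall : ∀ c ∈ D.2, c ∉ P.2 → (tr G P.1 c).card ≤ 2 * n := by
    intro c hc hcP
    have h1 := uniq_tr_le hW.1 hc hcP
    have h2 := uniq_tr_union G W.1 {v} c
    have h3 : (tr G {v} c).card ≤ 1 := (Finset.card_filter_le _ _).trans (by simp)
    show (tr G (W.1 ∪ {v}) c).card ≤ 2 * n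
    omega
  have h1 := hull_del h hPD hsmall
  have hWP : W ≤ P := ⟨Finset.subset_union_left, Finset.Subset.refl _⟩
  have h2 := hW.2 (hull G n D P) (hull_full hPD) (hWP.trans (le_hull hPD))
  have h3 := del_add_vertices G a b W {v} (Finset.disjoint_singleton_right.2 hvW)
  rw [Finset.sum_singleton] at h3
  have h4 := uniq_sum_new h hD hWD hv hvW
  have h5 : ∑ p ∈ ed G (W.1 ∪ {v}) \ ed G W.1, (1 - (m2 G W p.1 p.2 : ℝ)) =
      - ∑ p ∈ ed G (W.1 ∪ {v}) \ ed G W.1, ((m2 G W p.1 p.2 : ℝ) - 1) := by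
    rw [← Finset.sum_neg_distrib]
    apply Finset.sum_congr rfl
    intro p _
    ring
  rw [h5] at h3
  have h6 : (0:ℝ) ≤ (((hull G n D P).2 \ P.2).card : ℝ) := Nat.cast_nonneg _
  have h7 : del G a b P = del G a b (W.1 ∪ {v}, W.2) := rfl
  have hm : (2:ℝ) ≤ (mm G W v : ℝ) := by exact_mod_cast hm2
  have hn0 : (0:ℝ) ≤ (n:ℝ) := Nat.cast_nonneg n
  have hbig := h.big
  have h8 : 16 * ((n:ℝ) + 1) ^ 2 * ((mm G W v : ℝ) - 1) ≤ a * ((mm G W v : ℝ) - 1) :=
    mul_le_mul_of_nonneg_right hbig (by linarith)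
  have h9 : ((n:ℝ) + 1) * (mm G W v : ℝ) ≤ 2 * ((n:ℝ) + 1) * ((mm G W v : ℝ) - 1) := by nlinarith
  have h10 : 2 * ((n:ℝ) + 1) * ((mm G W v : ℝ) - 1) < 16 * ((n:ℝ) + 1) ^ 2 * ((mm G W v : ℝ) - 1) := by
    apply mul_lt_mul_of_pos_right _ (by linarith)
    nlinarith
  linarith

/-- the same in terms of two blocks -/
theorem cl_unique' {G : Geo V C} {n : ℕ} {a b : ℝ} (h : Wt n a b) {D W : Rg V C} (hD : PP G n a b D)
    (hW : Cl G n a b D W) {v : V} (hv : v ∈ D.1) (hvW : v ∉ W.1) {c c' : C} (hc : c ∈ W.2) (hc' : c' ∈ W.2)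
    (h1 : G.inc v c) (h2 : G.inc v c') : c = c' :=
  mm_le_one_iff.1 (cl_unique h hD hW hv hvW) c hc c' hc' h1 h2

/-- **Few covered vertices.**  Let `W` be closed in `D`, `e` a block of `D` outside `W`, and `U` a set of vertices outside `W`, all
in `e` and all in some block of `W`.  Then `|U| ≤ n`.

Proof: otherwise choose `U' ⊆ U` with `n+1` elements.  `P1 = (W.1 ∪ U', W.2)`: by `cl_unique` every `u ∈ U'` has `mm W u = 1`, so
for every new edge `m2 ≤ 1` and `del P1 ≤ del W` by `del_add_vertices`.  `P2 = (P1.1, insert e W.2)`: by `del_add_blocks`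
`del P2 = del P1 + b - a r + |ed (tr P1.1 e)|` with `n+1 ≤ r = |tr P1.1 e| ≤ n + (n+1)`; `b - a r + r^2 ≤ 1 - a/2 + (2n+1)^2 < 0`
(`(2n+1)^2 ≤ 4 (n+1)^2`, `a/2 ≥ 8 (n+1)^2`).
Blocks `c` of `D` outside `P2`: `|tr W.1 c| ≤ n` (`W` full) and `|tr U' c| ≤ n` (`LS`, as `U'` is contained in `e ≠ c`), so
`|tr P2.1 c| ≤ 2n` and `hull_del` gives a full set `Z ≥ W` with `del Z ≤ del P2 < del W`, contradiction. -/
theorem cl_few {G : Geo V C} {n : ℕ} {a b : ℝ} (h : Wt n a b) {D W : Rg V C} (hD : PP G n a b D)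
    (hW : Cl G n a b D W) {e : C} (he : e ∈ D.2) (heW : e ∉ W.2) (U : Finset V)
    (hU : ∀ u ∈ U, u ∈ D.1 ∧ u ∉ W.1 ∧ G.inc u e ∧ 1 ≤ mm G W u) : U.card ≤ n := by
  by_contra hcon
  obtain ⟨U', hU'U, hU'c⟩ := Finset.exists_subset_card_eq (s := U) (n := n + 1) (by omega)
  have hWD : W ≤ D := hW.1.1
  have hU' : ∀ u ∈ U', u ∈ D.1 ∧ u ∉ W.1 ∧ G.inc u e ∧ 1 ≤ mm G W u := fun u hu => hU u (hU'U hu)
  have hdis : Disjoint W.1 U' := by
    rw [Finset.disjoint_left]
    intro x hx hx'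
    exact (hU' x hx').2.1 hx
  have hmm : ∀ u ∈ U', mm G W u = 1 := by
    intro u hu
    obtain ⟨k1, k2, k3, k4⟩ := hU' u hu
    have := cl_unique h hD hW k1 k2
    omega
  have h1 := del_add_vertices G a b W U' hdis
  have h2 : ∑ u ∈ U', (1 - (mm G W u : ℝ)) = 0 := by
    apply Finset.sum_eq_zero
    intro u hu
    rw [hmm u hu]
    norm_num
  have h3 : 0 ≤ ∑ p ∈ ed G (W.1 ∪ U') \ ed G W.1, (1 - (m2 G W p.1 p.2 : ℝ)) := by
    apply Finset.sum_nonneg
    intro p hp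
    rw [Finset.mem_sdiff, mem_ed, mem_ed] at hp
    obtain ⟨⟨⟨k1, k2⟩, k3⟩, k4⟩ := hp
    have hle : m2 G W p.1 p.2 ≤ 1 := by
      by_cases hp1 : p.1 ∈ W.1
      · have hp2 : p.2 ∉ W.1 := fun hp2 => k4 ⟨⟨hp1, hp2⟩, k3⟩
        have : p.2 ∈ U' := (Finset.mem_union.1 k2).resolve_left hp2
        rw [← hmm p.2 this]
        exact m2_le_right G W _ _
      · have : p.1 ∈ U' := (Finset.mem_union.1 k1).resolve_left hp1
        rw [← hmm p.1 this]
        exact m2_le_left G W _ _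
    have : (m2 G W p.1 p.2 : ℝ) ≤ 1 := by exact_mod_cast hle
    linarith
  rw [h2, mul_zero, add_zero] at h1
  -- adding the block `e`
  have h4 := del_add_blocks G a b (W.1 ∪ U', W.2) {e} (Finset.disjoint_singleton_right.2 heW)
  rw [Finset.sum_singleton] at h4
  simp only at h4
  set r := (tr G (W.1 ∪ U') e).card with hr
  have hr1 : n + 1 ≤ r := by
    rw [hr, ← hU'c]
    apply Finset.card_le_card
    intro x hx
    rw [mem_tr]
    exact ⟨Finset.mem_union_right _ hx, (hU' x hx).2.2.1⟩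
  have hr2 : r ≤ 2 * n + 1 := by
    have k1 := uniq_tr_union G W.1 U' e
    have k2 := uniq_tr_le hW.1 he heW
    have k3 : (tr G U' e).card ≤ n + 1 := (Finset.card_filter_le _ _).trans hU'c.le
    omega
  have h5 : ((ed G (tr G (W.1 ∪ U') e)).card : ℝ) ≤ (r:ℝ) ^ 2 := by
    exact_mod_cast ed_card_le G (tr G (W.1 ∪ U') e)
  have hr1' : (n:ℝ) + 1 ≤ r := by exact_mod_cast hr1
  have hr2' : (r:ℝ) ≤ 2 * n + 1 := by exact_mod_cast hr2
  have hn0 : (0:ℝ) ≤ (n:ℝ) := Nat.cast_nonneg n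
  have hbig := h.big
  have hhi := h.hi
  have ha0 : 0 ≤ a := le_trans (by positivity) hbig
  have h6 : b - a * (r:ℝ) + ((ed G (tr G (W.1 ∪ U') e)).card : ℝ) < 0 := by
    have k1 : a * ((n:ℝ) + 1) ≤ a * r := mul_le_mul_of_nonneg_left hr1' ha0
    have k2 : (r:ℝ) ^ 2 ≤ (2 * n + 1) ^ 2 := pow_le_pow_left₀ (by linarith) hr2' 2
    nlinarith
  set P : Rg V C := (W.1 ∪ U', W.2 ∪ {e}) with hP
  have hPD : P ≤ D := by
    refine ⟨fun x hx => ?_, fun x hx => ?_⟩
    · rcases Finset.mem_union.1 hx with hx | hx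
      · exact hWD.1 hx
      · exact (hU' x hx).1
    · rcases Finset.mem_union.1 hx with hx | hx
      · exact hWD.2 hx
      · rw [Finset.mem_singleton.1 hx]; exact he
  have hsmall : ∀ c ∈ D.2, c ∉ P.2 → (tr G P.1 c).card ≤ 2 * n := by
    intro c hc hcP
    have hcW : c ∉ W.2 := fun hx => hcP (Finset.mem_union_left _ hx)
    have hce : e ≠ c := fun hx => hcP (Finset.mem_union_right _ (Finset.mem_singleton.2 hx.symm))
    have k1 := uniq_tr_le hW.1 hc hcW
    have k2 := uniq_tr_union G W.1 U' c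
    have k3 : (tr G U' c).card ≤ n := by
      refine le_trans (Finset.card_le_card ?_) (hD.2.1 e he c hc hce)
      intro x hx
      rw [mem_tr] at hx
      rw [Finset.mem_filter]
      exact ⟨(hU' x hx.1).1, (hU' x hx.1).2.2.1, hx.2⟩
    show (tr G (W.1 ∪ U') c).card ≤ 2 * n
    omega
  have h7 := hull_del h hPD hsmall
  have hWP : W ≤ P := ⟨Finset.subset_union_left, Finset.subset_union_left⟩
  have h8 := hW.2 (hull G n D P) (hull_full hPD) (hWP.trans (le_hull hPD))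
  have h9 : (0:ℝ) ≤ (((hull G n D P).2 \ P.2).card : ℝ) := Nat.cast_nonneg _
  have h10 : del G a b P = del G a b (W.1 ∪ U', W.2 ∪ {e}) := rfl
  linarith

end Pool.Low
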